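import Pool.Agent.Lib.MP_7ed9c3_nt.SpecA

/-!
# MP_7ed9c3_nt, module A0: Gaussian mean square of a Dirichlet polynomial
-/

namespace MP7ed9c3

open Filter Topology MeasureTheory

/-- The distance of two natural numbers. -/
def nd (k l : ℕ) : ℕ := (k - l) + (l - k)

theorem nd_comm (k l : ℕ) : nd k l = nd l k := by
  unfold nd
  omega

theorem sum_nd_le_of_le (k : ℕ) : ∀ K ≤ k,
    ∑ l ∈ Finset.range K, (1 / 2 : ℝ) ^ nd k l ≤ (1 / 2 : ℝ) ^ (k - K) := by
  intro K
  induction K with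
  | zero => intro _; simp
  | succ K ih =>
    intro hK
    rw [Finset.sum_range_succ]
    have h1 := ih (by omega)
    have h2 : nd k K = k - K := by unfold nd; omega
    rw [h2]
    have h3 : k - K = (k - (K + 1)) + 1 := by omega
    rw [h3] at h1 ⊢
    rw [pow_succ] at h1 ⊢
    have := pow_nonneg (show (0 : ℝ) ≤ 1 / 2 by norm_num) (k - (K + 1))
    linarith

theorem sum_nd_le (k K : ℕ) : ∑ l ∈ Finset.range K, (1 / 2 : ℝ) ^ nd k l ≤ 3 := by
  rcases le_or_gt K k with h | h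
  · have h1 := sum_nd_le_of_le k K h
    have h2 : (1 / 2 : ℝ) ^ (k - K) ≤ 1 := pow_le_one₀ (by norm_num) (by norm_num)
    linarith
  · have key : ∀ j : ℕ, ∑ l ∈ Finset.range (k + 1 + j), (1 / 2 : ℝ) ^ nd k l ≤
        3 - (1 / 2 : ℝ) ^ j := by
      intro j
      induction j with
      | zero =>
        rw [Nat.add_zero, Finset.sum_range_succ]
        have h1 := sum_nd_le_of_le k k le_rfl
        have h2 : nd k k = 0 := by unfold nd; omega
        rw [h2]
        simp at h1 ⊢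
        linarith
      | succ j ih =>
        rw [← Nat.add_assoc, Finset.sum_range_succ]
        have h2 : nd k (k + 1 + j) = j + 1 := by unfold nd; omega
        rw [h2, pow_succ]
        have := pow_nonneg (show (0 : ℝ) ≤ 1 / 2 by norm_num) j
        linarith
    obtain ⟨j, rfl⟩ : ∃ j, K = k + 1 + j := ⟨K - (k + 1), by omega⟩
    have := key j
    have := pow_nonneg (show (0 : ℝ) ≤ 1 / 2 by norm_num) j
    linarith

theorem sum_block (S : Finset ℕ) (K : ℕ) (hS : ∀ n ∈ S, Nat.log 2 n < K) (f g : ℕ → ℝ) :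
    ∑ n ∈ S, f n * g (Nat.log 2 n) =
      ∑ k ∈ Finset.range K, (∑ n ∈ S.filter (fun n => Nat.log 2 n = k), f n) * g k := by
  rw [← Finset.sum_fiberwise_of_maps_to (s := S) (t := Finset.range K) (g := Nat.log 2)
    (fun n hn => Finset.mem_range.2 (hS n hn))]
  apply Finset.sum_congr rfl
  intro k _
  rw [Finset.sum_mul]
  apply Finset.sum_congr rfl
  intro n hn
  rw [(Finset.mem_filter.1 hn).2]

theorem log_gap {m n : ℕ} (hm : 1 ≤ m) (hn : 1 ≤ n) :
    ((Nat.log 2 n : ℝ) - Nat.log 2 m - 1) * Real.log 2 ≤ Real.log n - Real.log m := by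
  have h1 : (2 : ℝ) ^ (Nat.log 2 n) ≤ n := by
    have := Nat.pow_log_le_self 2 (show n ≠ 0 by omega)
    exact_mod_cast this
  have h2 : (m : ℝ) ≤ (2 : ℝ) ^ (Nat.log 2 m + 1) := by
    have := Nat.lt_pow_succ_log_self (b := 2) (by norm_num) m
    exact_mod_cast this.le
  have h3 : (Nat.log 2 n : ℝ) * Real.log 2 ≤ Real.log n := by
    rw [← Real.log_pow]
    exact Real.log_le_log (by positivity) h1
  have h4 : Real.log m ≤ ((Nat.log 2 m : ℝ) + 1) * Real.log 2 := by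
    have : ((Nat.log 2 m : ℝ) + 1) * Real.log 2 = Real.log ((2 : ℝ) ^ (Nat.log 2 m + 1)) := by
      rw [Real.log_pow]
      push_cast
      ring
    rw [this]
    exact Real.log_le_log (by exact_mod_cast hm) h2
  nlinarith

/-- The Gaussian factor decays geometrically in the distance of the dyadic blocks. -/
theorem gauss_le {m n : ℕ} (hm : 1 ≤ m) (hn : 1 ≤ n) :
    Real.exp (-(Real.log n - Real.log m) ^ 2 / 4) ≤
      2 * Real.exp 1 * (1 / 2 : ℝ) ^ nd (Nat.log 2 m) (Nat.log 2 n) := by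
  set u := Real.log n - Real.log m with hu
  have hl2 : 0 < Real.log 2 := Real.log_pos (by norm_num)
  have hgap : ((nd (Nat.log 2 m) (Nat.log 2 n) : ℝ) - 1) * Real.log 2 ≤ |u| := by
    rcases le_total (Nat.log 2 m) (Nat.log 2 n) with h | h
    · have h1 : (nd (Nat.log 2 m) (Nat.log 2 n) : ℝ) = (Nat.log 2 n : ℝ) - Nat.log 2 m := by
        have : nd (Nat.log 2 m) (Nat.log 2 n) = Nat.log 2 n - Nat.log 2 m := by
          unfold nd; omega
        rw [this, Nat.cast_sub h]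
      rw [h1]
      exact (log_gap hm hn).trans (le_abs_self u)
    · have h1 : (nd (Nat.log 2 m) (Nat.log 2 n) : ℝ) = (Nat.log 2 m : ℝ) - Nat.log 2 n := by
        have : nd (Nat.log 2 m) (Nat.log 2 n) = Nat.log 2 m - Nat.log 2 n := by
          unfold nd; omega
        rw [this, Nat.cast_sub h]
      rw [h1]
      refine (log_gap hn hm).trans ?_
      have : Real.log m - Real.log n = -u := by rw [hu]; ring
      rw [this]
      exact neg_le_abs u
  have h1 : -u ^ 2 / 4 ≤ 1 - |u| := by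
    have : 0 ≤ (|u| / 2 - 1) ^ 2 := sq_nonneg _
    have h2 : |u| ^ 2 = u ^ 2 := sq_abs u
    nlinarith
  have h2 : (1 / 2 : ℝ) ^ nd (Nat.log 2 m) (Nat.log 2 n) =
      Real.exp (-(nd (Nat.log 2 m) (Nat.log 2 n) : ℝ) * Real.log 2) := by
    rw [neg_mul, Real.exp_neg, mul_comm, Real.exp_mul, Real.exp_log (by norm_num), Real.rpow_natCast,
      one_div, inv_pow]
  have h3 : 2 * Real.exp 1 * (1 / 2 : ℝ) ^ nd (Nat.log 2 m) (Nat.log 2 n) =
      Real.exp (1 - ((nd (Nat.log 2 m) (Nat.log 2 n) : ℝ) - 1) * Real.log 2) := by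
    rw [h2]
    have : (2 : ℝ) = Real.exp (Real.log 2) := (Real.exp_log (by norm_num)).symm
    conv_lhs => rw [this]
    rw [Real.log_exp, ← Real.exp_add, ← Real.exp_add]
    congr 1
    ring
  rw [h3]
  apply Real.exp_le_exp.2
  linarith

theorem norm_gauss_integral (u : ℝ) :
    ‖∫ x : ℝ, Complex.exp (Complex.I * (u : ℂ) * x) * Complex.exp (-1 * (x : ℂ) ^ 2)‖ ≤
      1.8 * Real.exp (-u ^ 2 / 4) := by
  rw [fourierIntegral_gaussian (b := 1) (by norm_num) (u : ℂ)]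
  rw [norm_mul]
  have h1 : ‖((Real.pi : ℂ) / 1) ^ (1 / 2 : ℂ)‖ ≤ 1.8 := by
    rw [div_one]
    rw [Complex.norm_cpow_eq_rpow_re_of_pos Real.pi_pos]
    have : (1 / 2 : ℂ).re = 1 / 2 := by norm_num
    rw [this, ← Real.sqrt_eq_rpow]
    rw [Real.sqrt_le_left (by norm_num)]
    have := Real.pi_lt_d2
    norm_num
    linarith
  have h2 : ‖Complex.exp (-(u : ℂ) ^ 2 / (4 * 1))‖ = Real.exp (-u ^ 2 / 4) := by
    rw [Complex.norm_exp]
    congr 1
    have : (-(u : ℂ) ^ 2 / (4 * 1)) = ((-u ^ 2 / 4 : ℝ) : ℂ) := by push_cast; ring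
    rw [this, Complex.ofReal_re]
  rw [h2]
  exact mul_le_mul_of_nonneg_right h1 (Real.exp_pos _).le

theorem integrable_term (u : ℝ) :
    Integrable (fun x : ℝ => Complex.exp (Complex.I * (u : ℂ) * x) *
      Complex.exp (-1 * (x : ℂ) ^ 2)) := by
  have h1 := integrable_cexp_quadratic' (b := -1) (by norm_num) (Complex.I * (u : ℂ)) 0
  refine h1.congr ?_
  refine Filter.Eventually.of_forall fun x => ?_
  simp only
  rw [← Complex.exp_add]
  congr 1
  ring

theorem dir_eq (c : ℕ → ℂ) (S : Finset ℕ) (hS : ∀ n ∈ S, 1 ≤ n) (t : ℝ) :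
    dir c S t = ∑ n ∈ S, c n * Complex.exp (-(((Real.log n : ℝ) : ℂ) * t * Complex.I)) := by
  unfold dir
  apply Finset.sum_congr rfl
  intro n hn
  have h0 : (n : ℂ) ≠ 0 := by
    have := hS n hn
    exact_mod_cast (show n ≠ 0 by omega)
  rw [Complex.cpow_def_of_ne_zero h0, Complex.natCast_log]
  congr 2
  ring

theorem sq_expand (c : ℕ → ℂ) (S : Finset ℕ) (hS : ∀ n ∈ S, 1 ≤ n) (t : ℝ) :
    ((Real.exp (-t ^ 2) * ‖dir c S t‖ ^ 2 : ℝ) : ℂ) =
      ∑ m ∈ S, ∑ n ∈ S, (c m * (starRingEnd ℂ) (c n)) *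
        (Complex.exp (Complex.I * ((Real.log n - Real.log m : ℝ) : ℂ) * t) *
          Complex.exp (-1 * (t : ℂ) ^ 2)) := by
  have h1 : ((‖dir c S t‖ : ℂ)) ^ 2 = dir c S t * (starRingEnd ℂ) (dir c S t) :=
    (Complex.mul_conj' _).symm
  push_cast
  rw [h1, dir_eq c S hS t]
  rw [map_sum, Finset.sum_mul_sum, Finset.mul_sum]
  apply Finset.sum_congr rfl
  intro m _
  rw [Finset.mul_sum]
  apply Finset.sum_congr rfl
  intro n _
  rw [map_mul, ← Complex.exp_conj]
  have h2 : (starRingEnd ℂ) (-(((Real.log n : ℝ) : ℂ) * t * Complex.I)) =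
      ((Real.log n : ℝ) : ℂ) * t * Complex.I := by
    rw [map_neg, map_mul, map_mul, Complex.conj_ofReal, Complex.conj_ofReal, Complex.conj_I]
    ring
  rw [h2]
  have h3 : Complex.exp (Complex.I * (((Real.log n : ℝ) : ℂ) - ((Real.log m : ℝ) : ℂ)) * t) =
      Complex.exp (-(((Real.log m : ℝ) : ℂ) * t * Complex.I)) *
        Complex.exp (((Real.log n : ℝ) : ℂ) * t * Complex.I) := by
    rw [← Complex.exp_add]
    congr 1
    ring
  have h4 : (-1 * (t : ℂ) ^ 2) = -(t : ℂ) ^ 2 := by ring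
  simp only [Complex.natCast_log] at h3 ⊢
  rw [h3, h4]
  ring

theorem meanSq : MeanSq := by
  intro c S K hS
  have hS1 : ∀ n ∈ S, 1 ≤ n := fun n hn => (hS n hn).1
  have hS2 : ∀ n ∈ S, Nat.log 2 n < K := fun n hn => (hS n hn).2
  -- the complex integrand
  have hint : ∀ m ∈ S, ∀ n ∈ S, Integrable (fun t : ℝ => (c m * (starRingEnd ℂ) (c n)) *
      (Complex.exp (Complex.I * ((Real.log n - Real.log m : ℝ) : ℂ) * t) *
        Complex.exp (-1 * (t : ℂ) ^ 2))) := by
    intro m _ n _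
    exact (integrable_term _).const_mul _
  have hintC : Integrable (fun t : ℝ => ((Real.exp (-t ^ 2) * ‖dir c S t‖ ^ 2 : ℝ) : ℂ)) := by
    simp only [sq_expand c S hS1]
    exact integrable_finsetSum _ fun m hm => integrable_finsetSum _ fun n hn => hint m hm n hn
  have hintR : Integrable (fun t : ℝ => Real.exp (-t ^ 2) * ‖dir c S t‖ ^ 2) := by
    have := hintC.re
    simpa only [Complex.ofReal_re, RCLike.re_to_complex] using this
  refine ⟨hintR, ?_⟩
  have h1 : ∫ t : ℝ, Real.exp (-t ^ 2) * ‖dir c S t‖ ^ 2 ≤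
      ‖∫ t : ℝ, ((Real.exp (-t ^ 2) * ‖dir c S t‖ ^ 2 : ℝ) : ℂ)‖ := by
    rw [integral_complex_ofReal, Complex.norm_real]
    exact le_abs_self _
  refine h1.trans ?_
  have h2 : ∫ t : ℝ, ((Real.exp (-t ^ 2) * ‖dir c S t‖ ^ 2 : ℝ) : ℂ) =
      ∑ m ∈ S, ∑ n ∈ S, (c m * (starRingEnd ℂ) (c n)) *
        ∫ t : ℝ, (Complex.exp (Complex.I * ((Real.log n - Real.log m : ℝ) : ℂ) * t) *
          Complex.exp (-1 * (t : ℂ) ^ 2)) := by
    simp only [sq_expand c S hS1]
    rw [integral_finsetSum _ fun m hm => integrable_finsetSum _ fun n hn => hint m hm n hn]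
    apply Finset.sum_congr rfl
    intro m hm
    rw [integral_finsetSum _ fun n hn => hint m hm n hn]
    apply Finset.sum_congr rfl
    intro n _
    rw [integral_const_mul]
  rw [h2]
  have h3 : ‖∑ m ∈ S, ∑ n ∈ S, (c m * (starRingEnd ℂ) (c n)) *
        ∫ t : ℝ, (Complex.exp (Complex.I * ((Real.log n - Real.log m : ℝ) : ℂ) * t) *
          Complex.exp (-1 * (t : ℂ) ^ 2))‖ ≤
      ∑ m ∈ S, ∑ n ∈ S, ‖c m‖ * ‖c n‖ *
        (1.8 * (2 * Real.exp 1 * (1 / 2 : ℝ) ^ nd (Nat.log 2 m) (Nat.log 2 n))) := by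
    refine (norm_sum_le _ _).trans (Finset.sum_le_sum fun m hm => ?_)
    refine (norm_sum_le _ _).trans (Finset.sum_le_sum fun n hn => ?_)
    rw [norm_mul, norm_mul, RCLike.norm_conj]
    refine mul_le_mul_of_nonneg_left ?_ (by positivity)
    refine (norm_gauss_integral _).trans ?_
    refine mul_le_mul_of_nonneg_left ?_ (by norm_num)
    have := gauss_le (hS1 m hm) (hS1 n hn)
    rwa [neg_div] at this ⊢
  refine h3.trans ?_
  -- group by blocks
  have hM0 : ∀ k, 0 ≤ mass c S k := fun k => Finset.sum_nonneg fun _ _ => norm_nonneg _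
  have h4 : ∑ m ∈ S, ∑ n ∈ S, ‖c m‖ * ‖c n‖ *
        (1.8 * (2 * Real.exp 1 * (1 / 2 : ℝ) ^ nd (Nat.log 2 m) (Nat.log 2 n))) =
      1.8 * (2 * Real.exp 1) * ∑ k ∈ Finset.range K, ∑ l ∈ Finset.range K,
        mass c S k * mass c S l * (1 / 2 : ℝ) ^ nd k l := by
    have e1 : ∀ k : ℕ, ∑ n ∈ S, ‖c n‖ * (1 / 2 : ℝ) ^ nd k (Nat.log 2 n) =
        ∑ l ∈ Finset.range K, mass c S l * (1 / 2 : ℝ) ^ nd k l := by
      intro k
      exact sum_block S K hS2 (fun n => ‖c n‖) (fun l => (1 / 2 : ℝ) ^ nd k l)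
    have e2 : ∑ m ∈ S, ‖c m‖ * (∑ l ∈ Finset.range K, mass c S l *
          (1 / 2 : ℝ) ^ nd (Nat.log 2 m) l) =
        ∑ k ∈ Finset.range K, mass c S k * ∑ l ∈ Finset.range K, mass c S l *
          (1 / 2 : ℝ) ^ nd k l :=
      sum_block S K hS2 (fun n => ‖c n‖) (fun k => ∑ l ∈ Finset.range K, mass c S l *
          (1 / 2 : ℝ) ^ nd k l)
    have e3 : ∑ m ∈ S, ∑ n ∈ S, ‖c m‖ * ‖c n‖ *
        (1.8 * (2 * Real.exp 1 * (1 / 2 : ℝ) ^ nd (Nat.log 2 m) (Nat.log 2 n))) =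
        1.8 * (2 * Real.exp 1) * ∑ m ∈ S, ‖c m‖ * (∑ n ∈ S, ‖c n‖ *
          (1 / 2 : ℝ) ^ nd (Nat.log 2 m) (Nat.log 2 n)) := by
      simp only [Finset.mul_sum]
      apply Finset.sum_congr rfl
      intro m _
      apply Finset.sum_congr rfl
      intro n _
      ring
    rw [e3]
    simp only [e1]
    rw [e2]
    congr 1
    apply Finset.sum_congr rfl
    intro k _
    rw [Finset.mul_sum]
    apply Finset.sum_congr rfl
    intro l _
    ring
  rw [h4]
  have h5 : ∑ k ∈ Finset.range K, ∑ l ∈ Finset.range K,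
        mass c S k * mass c S l * (1 / 2 : ℝ) ^ nd k l ≤
      3 * ∑ k ∈ Finset.range K, mass c S k ^ 2 := by
    have f1 : ∑ k ∈ Finset.range K, ∑ l ∈ Finset.range K,
        mass c S k * mass c S l * (1 / 2 : ℝ) ^ nd k l ≤
        ∑ k ∈ Finset.range K, ∑ l ∈ Finset.range K,
          (mass c S k ^ 2 / 2 * (1 / 2 : ℝ) ^ nd k l +
            mass c S l ^ 2 / 2 * (1 / 2 : ℝ) ^ nd k l) := by
      refine Finset.sum_le_sum fun k _ => Finset.sum_le_sum fun l _ => ?_
      rw [← add_mul]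
      refine mul_le_mul_of_nonneg_right ?_ (by positivity)
      nlinarith [sq_nonneg (mass c S k - mass c S l)]
    refine f1.trans ?_
    simp only [Finset.sum_add_distrib]
    have f2 : ∑ k ∈ Finset.range K, ∑ l ∈ Finset.range K,
        mass c S l ^ 2 / 2 * (1 / 2 : ℝ) ^ nd k l =
        ∑ k ∈ Finset.range K, ∑ l ∈ Finset.range K,
          mass c S k ^ 2 / 2 * (1 / 2 : ℝ) ^ nd k l := by
      rw [Finset.sum_comm]
      apply Finset.sum_congr rfl
      intro k _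
      apply Finset.sum_congr rfl
      intro l _
      rw [nd_comm]
    rw [f2, ← two_mul, Finset.mul_sum, Finset.mul_sum]
    refine Finset.sum_le_sum fun k _ => ?_
    rw [← Finset.mul_sum]
    have := sum_nd_le k K
    nlinarith [sq_nonneg (mass c S k)]
  have h6 : 0 ≤ ∑ k ∈ Finset.range K, mass c S k ^ 2 := Finset.sum_nonneg fun _ _ => sq_nonneg _
  have he : Real.exp 1 < 2.7182818286 := Real.exp_one_lt_d9
  have he0 : 0 < Real.exp 1 := Real.exp_pos 1
  calc 1.8 * (2 * Real.exp 1) * ∑ k ∈ Finset.range K, ∑ l ∈ Finset.range K,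
        mass c S k * mass c S l * (1 / 2 : ℝ) ^ nd k l
      ≤ 1.8 * (2 * Real.exp 1) * (3 * ∑ k ∈ Finset.range K, mass c S k ^ 2) :=
        mul_le_mul_of_nonneg_left h5 (by positivity)
    _ = (10.8 * Real.exp 1) * ∑ k ∈ Finset.range K, mass c S k ^ 2 := by ring
    _ ≤ 40 * ∑ k ∈ Finset.range K, mass c S k ^ 2 :=
        mul_le_mul_of_nonneg_right (by linarith) h6

end MP7ed9c3
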