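import Pool.Agent.Lib.MP_7ed9c3_nt.SpecA

/-!
# MP_7ed9c3_nt: A2, chaining
-/

namespace MP7ed9c3

open Filter Topology MeasureTheory

private lemma ch_norm (n : ℕ) (hn : 1 ≤ n) (t : ℝ) : ‖(n : ℂ) ^ (-(t : ℂ) * Complex.I)‖ = 1 := by
  rw [Complex.norm_natCast_cpow_of_pos hn]
  simp

private lemma ch_dir_le (c : ℕ → ℂ) (S : Finset ℕ) (t : ℝ) (hS : ∀ n ∈ S, 1 ≤ n) :
    ‖dir c S t‖ ≤ ∑ n ∈ S, ‖c n‖ := by
  unfold dir
  refine (norm_sum_le _ _).trans (Finset.sum_le_sum fun n hn => ?_)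
  rw [norm_mul, ch_norm n (hS n hn), mul_one]

private lemma ch_add (c : ℕ → ℂ) (t : ℝ) {a b d : ℕ} (h1 : a ≤ b) (h2 : b ≤ d) :
    dir c (Finset.Ico a b) t + dir c (Finset.Ico b d) t = dir c (Finset.Ico a d) t :=
  Finset.sum_Ico_consecutive _ h1 h2

private lemma ch_step (c : ℕ → ℂ) (t : ℝ) (r : ℕ) (ε : ℝ) (hε : 0 ≤ ε)
    (h : ∀ i ≤ r, ∀ j < 2 ^ i, ‖dir c (cell r i j) t‖ ≤ ε) (m : ℕ) (hm : m < 2 ^ r) (i : ℕ)
    (hi : i ≤ r) :
    ‖dir c (Finset.Ico (2 ^ (2 ^ r)) (2 ^ (2 ^ r + m / 2 ^ (r - i) * 2 ^ (r - i)))) t‖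
      ≤ i * ε := by
  induction i with
  | zero =>
    rw [Nat.sub_zero, Nat.div_eq_of_lt hm, zero_mul, add_zero, Finset.Ico_self]
    simp [dir]
  | succ i ih =>
    have ih' := ih (by omega)
    have e1 : 2 ^ (r - i) = 2 ^ (r - (i + 1)) * 2 := by
      rw [← pow_succ]
      congr 1
      omega
    set w := 2 ^ (r - (i + 1)) with hw
    have hw0 : 0 < w := by positivity
    set q := m / w with hq
    have e2 : m / 2 ^ (r - i) = q / 2 := by rw [e1, ← Nat.div_div_eq_div_mul]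
    rw [e2, e1] at ih'
    have hq2 : q < 2 ^ (i + 1) := by
      rw [hq, Nat.div_lt_iff_lt_mul hw0, hw, ← pow_add]
      rwa [show i + 1 + (r - (i + 1)) = r by omega]
    rcases Nat.mod_two_eq_zero_or_one q with h0 | h1
    · have e3 : q / 2 * (w * 2) = q * w := by
        have : q = q / 2 * 2 := by omega
        conv_rhs => rw [this]
        ring
      rw [e3] at ih'
      refine ih'.trans ?_
      push_cast
      nlinarith
    · have e3 : q = q / 2 * 2 + 1 := by omega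
      have hcell := h (i + 1) hi (q / 2 * 2) (by omega)
      unfold cell at hcell
      rw [← hw, ← e3] at hcell
      have e4 : q / 2 * (w * 2) = q / 2 * 2 * w := by ring
      rw [e4] at ih'
      rw [← ch_add c t (b := 2 ^ (2 ^ r + q / 2 * 2 * w))
        (Nat.pow_le_pow_right (by norm_num) (Nat.le_add_right _ _))
        (Nat.pow_le_pow_right (by norm_num)
          (Nat.add_le_add_left (Nat.mul_le_mul_right _ (by omega)) _))]
      refine (norm_add_le _ _).trans ?_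
      push_cast
      linarith

private lemma ch_block (c : ℕ → ℂ) (t : ℝ) (r : ℕ) (ε : ℝ) (hε : 0 ≤ ε)
    (h : ∀ i ≤ r, ∀ j < 2 ^ i, ‖dir c (cell r i j) t‖ ≤ ε) (m : ℕ) (hm : m < 2 ^ r) :
    ‖dir c (Finset.Ico (2 ^ (2 ^ r)) (2 ^ (2 ^ r + m))) t‖ ≤ r * ε := by
  have := ch_step c t r ε hε h m hm r le_rfl
  rwa [Nat.sub_self, pow_zero, Nat.div_one, mul_one] at this

theorem chain : Chain := by
  intro c C θ t r₀ hC hθ hθ1 hcell
  have hC0 : 0 ≤ C := by
    have h1 := hC 0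
    have h2 : (0 : ℝ) ≤ ∑ n ∈ Finset.Ico (2 ^ 0) (2 ^ (0 + 1)), ‖c n‖ :=
      Finset.sum_nonneg fun _ _ => norm_nonneg _
    have h3 := h2.trans h1
    simpa using h3
  set ρ : ℝ := (2 : ℝ) ^ (-θ) with hρ
  have hρ0 : 0 < ρ := Real.rpow_pos_of_pos (by norm_num) _
  have hρ1 : ρ < 1 := Real.rpow_lt_one_of_one_lt_of_neg (by norm_num) (by linarith)
  have hρh : 1 / 2 ≤ ρ := by
    have h1 : (2 : ℝ) ^ (-1 : ℝ) ≤ (2 : ℝ) ^ (-θ) :=
      Real.rpow_le_rpow_of_exponent_le (by norm_num) (by linarith)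
    rw [Real.rpow_neg_one] at h1
    rw [hρ]
    linarith
  have hpow : ∀ r : ℕ, (2 : ℝ) ^ (-(r * θ)) = ρ ^ r := by
    intro r
    rw [hρ, ← Real.rpow_natCast, ← Real.rpow_mul (by norm_num)]
    congr 1
    ring
  -- the sequence of the values at the double powers
  set Y : ℕ → ℂ := fun r => dir c (Finset.Ico 1 (2 ^ (2 ^ r))) t with hY
  have hYstep : ∀ r ≥ r₀, dist (Y r) (Y (r + 1)) ≤ ρ ^ r := by
    intro r hr
    have h1 := hcell r hr 0 (Nat.zero_le _) 0 (by norm_num)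
    have h2 : cell r 0 0 = Finset.Ico (2 ^ (2 ^ r)) (2 ^ (2 ^ (r + 1))) := by
      unfold cell
      congr 2
      · simp
      · simp only [zero_add, Nat.sub_zero, one_mul, pow_succ]
        ring
    rw [h2, hpow] at h1
    have h3 : Y (r + 1) = Y r + dir c (Finset.Ico (2 ^ (2 ^ r)) (2 ^ (2 ^ (r + 1)))) t :=
      (ch_add c t (Nat.one_le_two_pow)
        (Nat.pow_le_pow_right (by norm_num) (Nat.pow_le_pow_right (by norm_num) (by omega)))).symm
    rw [h3, dist_eq_norm, sub_add_cancel_left, norm_neg]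
    refine h1.trans ?_
    apply div_le_self (by positivity)
    have : (0 : ℝ) ≤ r := Nat.cast_nonneg r
    linarith
  have hshift : ∀ n : ℕ, dist (Y (r₀ + n)) (Y (r₀ + (n + 1))) ≤ ρ ^ r₀ * ρ ^ n := by
    intro n
    have := hYstep (r₀ + n) (Nat.le_add_right _ _)
    rwa [pow_add] at this
  have hcau : CauchySeq fun n => Y (r₀ + n) := cauchySeq_of_le_geometric ρ (ρ ^ r₀) hρ1 hshift
  obtain ⟨S, hS⟩ := cauchySeq_tendsto_of_complete hcau
  have hYS : ∀ r ≥ r₀, ‖Y r - S‖ ≤ ρ ^ r / (1 - ρ) := by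
    intro r hr
    have h1 := dist_le_of_le_geometric_of_tendsto ρ (ρ ^ r₀) hρ1 hshift hS (r - r₀)
    rw [← pow_add, show r₀ + (r - r₀) = r by omega, dist_eq_norm] at h1
    exact h1
  -- the main range
  set A : ℝ := (1 + C) + 1 / (1 - ρ) with hA
  have h1ρ : 0 < 1 - ρ := by linarith
  have hA0 : 0 ≤ A := by positivity
  have hmain : ∀ x : ℕ, 2 ≤ x → 2 ^ (2 ^ r₀) ≤ x →
      ‖dir c (Finset.Icc 1 x) t - S‖ ≤ A * ρ⁻¹ * Real.log x ^ (-θ) := by
    intro x hx2 hx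
    set k := Nat.log 2 x with hk
    have hk0 : 2 ^ r₀ ≤ k := (Nat.le_log_iff_pow_le (by norm_num) (by omega)).2 hx
    have hkpos : k ≠ 0 := by
      have : 0 < 2 ^ r₀ := by positivity
      omega
    set r := Nat.log 2 k with hr
    have hrr : r₀ ≤ r := (Nat.le_log_iff_pow_le (by norm_num) hkpos).2 hk0
    have hr1 : 2 ^ r ≤ k := Nat.pow_log_le_self 2 hkpos
    have hr2 : k < 2 ^ (r + 1) := Nat.lt_pow_succ_log_self (by norm_num) k
    have hk1 : 2 ^ k ≤ x := Nat.pow_log_le_self 2 (by omega)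
    have hk2 : x < 2 ^ (k + 1) := Nat.lt_pow_succ_log_self (by norm_num) x
    have hm : k - 2 ^ r < 2 ^ r := by
      rw [pow_succ] at hr2
      omega
    have hb := ch_block c t r ((2 : ℝ) ^ (-(r * θ)) / (r + 1)) (by positivity)
      (hcell r hrr) (k - 2 ^ r) hm
    rw [show 2 ^ r + (k - 2 ^ r) = k by omega, hpow] at hb
    have hb' : ‖dir c (Finset.Ico (2 ^ (2 ^ r)) (2 ^ k)) t‖ ≤ ρ ^ r := by
      refine hb.trans ?_
      have h0 : (0 : ℝ) ≤ r := Nat.cast_nonneg r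
      rw [mul_div_assoc', div_le_iff₀ (by linarith)]
      have : 0 ≤ ρ ^ r := by positivity
      nlinarith
    have hrest : ‖dir c (Finset.Ico (2 ^ k) (x + 1)) t‖ ≤ C * ρ ^ r := by
      have hpos : ∀ n ∈ Finset.Ico (2 ^ k) (x + 1), 1 ≤ n := by
        intro n hn
        exact Nat.one_le_two_pow.trans (Finset.mem_Ico.1 hn).1
      refine (ch_dir_le c _ t hpos).trans ?_
      have h1 : ∑ n ∈ Finset.Ico (2 ^ k) (x + 1), ‖c n‖ ≤
          ∑ n ∈ Finset.Ico (2 ^ k) (2 ^ (k + 1)), ‖c n‖ :=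
        Finset.sum_le_sum_of_subset_of_nonneg
          (Finset.Ico_subset_Ico_right (by omega)) fun _ _ _ => norm_nonneg _
      refine (h1.trans (hC k)).trans ?_
      rw [div_eq_mul_inv]
      apply mul_le_mul_of_nonneg_left _ hC0
      have h2 : (2 : ℝ) ^ r ≤ (k : ℝ) + 1 := by
        have h3 : ((2 ^ r : ℕ) : ℝ) ≤ (k : ℝ) := by exact_mod_cast hr1
        push_cast at h3
        linarith
      calc ((k : ℝ) + 1)⁻¹ ≤ ((2 : ℝ) ^ r)⁻¹ := inv_anti₀ (by positivity) h2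
        _ = (1 / 2) ^ r := by rw [one_div, inv_pow]
        _ ≤ ρ ^ r := pow_le_pow_left₀ (by norm_num) hρh r
    have hsplit : dir c (Finset.Icc 1 x) t = Y r + (dir c (Finset.Ico (2 ^ (2 ^ r)) (2 ^ k)) t +
        dir c (Finset.Ico (2 ^ k) (x + 1)) t) := by
      have hle : 2 ^ (2 ^ r) ≤ 2 ^ k := Nat.pow_le_pow_right (by norm_num) hr1
      rw [ch_add c t hle (by omega), hY]
      have h5 := ch_add c t (a := 1) (b := 2 ^ (2 ^ r)) (d := x + 1) Nat.one_le_two_pow (by omega)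
      rw [h5]
      congr 1
    have hfin : ‖dir c (Finset.Icc 1 x) t - S‖ ≤ A * ρ ^ r := by
      rw [hsplit]
      have e : Y r + (dir c (Finset.Ico (2 ^ (2 ^ r)) (2 ^ k)) t +
          dir c (Finset.Ico (2 ^ k) (x + 1)) t) - S =
          (Y r - S) + (dir c (Finset.Ico (2 ^ (2 ^ r)) (2 ^ k)) t +
          dir c (Finset.Ico (2 ^ k) (x + 1)) t) := by ring
      rw [e]
      refine (norm_add_le _ _).trans ?_
      refine (add_le_add (hYS r hrr) ((norm_add_le _ _).trans (add_le_add hb' hrest))).trans ?_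
      rw [hA]
      apply le_of_eq
      ring
    refine hfin.trans ?_
    rw [mul_assoc]
    apply mul_le_mul_of_nonneg_left _ hA0
    -- ρ ^ r ≤ ρ⁻¹ * (log x) ^ (-θ)
    have hlogpos : 0 < Real.log x := Real.log_pos (by exact_mod_cast hx2)
    have hlog : Real.log x ≤ (2 : ℝ) ^ (r + 1) := by
      have h1 : Real.log x ≤ Real.log ((2 : ℝ) ^ (k + 1)) := by
        apply Real.log_le_log (by exact_mod_cast (by omega : 0 < x))
        exact_mod_cast hk2.le
      rw [Real.log_pow] at h1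
      have h2 : ((k + 1 : ℕ) : ℝ) ≤ (2 : ℝ) ^ (r + 1) := by exact_mod_cast hr2
      have h3 : Real.log 2 ≤ 1 := by
        have := Real.log_two_lt_d9
        linarith
      have h4 : 0 ≤ Real.log 2 := Real.log_nonneg (by norm_num)
      calc Real.log x ≤ ((k + 1 : ℕ) : ℝ) * Real.log 2 := h1
        _ ≤ ((k + 1 : ℕ) : ℝ) * 1 := mul_le_mul_of_nonneg_left h3 (Nat.cast_nonneg _)
        _ ≤ (2 : ℝ) ^ (r + 1) := by rw [mul_one]; exact h2
    have h5 : ((2 : ℝ) ^ (r + 1)) ^ (-θ) ≤ Real.log x ^ (-θ) :=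
      Real.rpow_le_rpow_of_nonpos hlogpos hlog (by linarith)
    have h6 : ((2 : ℝ) ^ (r + 1)) ^ (-θ) = ρ ^ (r + 1) := by
      rw [← hpow (r + 1), ← Real.rpow_natCast, ← Real.rpow_mul (by norm_num)]
      congr 1
      ring
    rw [h6] at h5
    calc ρ ^ r = ρ⁻¹ * ρ ^ (r + 1) := by
          rw [pow_succ]
          field_simp
      _ ≤ ρ⁻¹ * Real.log x ^ (-θ) := mul_le_mul_of_nonneg_left h5 (by positivity)
  -- the small values
  set B : ℝ := ∑ x ∈ Finset.range (2 ^ (2 ^ r₀)), ‖dir c (Finset.Icc 1 x) t - S‖ *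
    Real.log x ^ θ with hB
  have hBt : ∀ x ∈ Finset.range (2 ^ (2 ^ r₀)), 0 ≤ ‖dir c (Finset.Icc 1 x) t - S‖ *
      Real.log x ^ θ := fun x _ =>
    mul_nonneg (norm_nonneg _) (Real.rpow_nonneg (Real.log_natCast_nonneg x) _)
  have hB0 : 0 ≤ B := Finset.sum_nonneg hBt
  refine ⟨S, A * ρ⁻¹ + B, fun x hx2 => ?_⟩
  have hlogpos : 0 < Real.log x := Real.log_pos (by exact_mod_cast hx2)
  have hlp : 0 < Real.log x ^ (-θ) := Real.rpow_pos_of_pos hlogpos _
  rcases le_or_gt (2 ^ (2 ^ r₀)) x with hx | hx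
  · refine (hmain x hx2 hx).trans ?_
    rw [add_mul]
    have : 0 ≤ B * Real.log x ^ (-θ) := by positivity
    linarith
  · have h1 := Finset.single_le_sum hBt (Finset.mem_range.2 hx)
    rw [← hB] at h1
    have h2 : ‖dir c (Finset.Icc 1 x) t - S‖ ≤ B * Real.log x ^ (-θ) := by
      rw [Real.rpow_neg hlogpos.le, ← div_eq_mul_inv,
        le_div_iff₀ (Real.rpow_pos_of_pos hlogpos _)]
      exact h1
    refine h2.trans ?_
    rw [add_mul]
    have : 0 ≤ A * ρ⁻¹ * Real.log x ^ (-θ) := by positivity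
    linarith

end MP7ed9c3
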