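import Pool.Agent.Lib.MP_7ed9c3_nt.SpecA

set_option autoImplicit false

/-!
# MP_7ed9c3_nt, A3: Hausdorff dimension of a limsup set
-/

namespace MP7ed9c3

open Filter Topology MeasureTheory
open scoped ENNReal NNReal

namespace A3

/-- the interval number `i` of level `r` -/
def J (r : ℕ) (i : ℤ) : Set ℝ := Set.Icc ((i : ℝ) / 2 ^ (r + 1)) (((i : ℝ) + 1) / 2 ^ (r + 1))

theorem ediam_J (r : ℕ) (i : ℤ) : Metric.ediam (J r i) = ENNReal.ofReal (1 / 2 ^ (r + 1)) := by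
  unfold J
  rw [Real.ediam_Icc]
  congr 1
  ring

theorem summable_g {θ d K : ℝ} (h : 2 * θ < d) :
    Summable fun r : ℕ => K * ((r : ℝ) + 1) ^ 5 * (2 : ℝ) ^ (2 * r * θ) *
      (1 / 2 ^ (r + 1) : ℝ) ^ d := by
  set ρ : ℝ := (2 : ℝ) ^ (2 * θ - d) with hρ
  have hρ0 : 0 < ρ := by positivity
  have hρ1 : ρ < 1 := Real.rpow_lt_one_of_one_lt_of_neg (by norm_num) (by linarith)
  have h1 : Summable fun n : ℕ => (n : ℝ) ^ 5 * ρ ^ n :=
    summable_pow_mul_geometric_of_norm_lt_one 5 (by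
      rw [Real.norm_eq_abs, abs_of_pos hρ0]
      exact hρ1)
  have h2 := ((summable_nat_add_iff 1).2 h1).mul_left (K * (2 : ℝ) ^ (-d) / ρ)
  refine h2.congr fun r => ?_
  have e1 : (1 / 2 ^ (r + 1) : ℝ) ^ d = (2 : ℝ) ^ (-((r : ℝ) + 1) * d) := by
    rw [one_div, ← Real.rpow_natCast, ← Real.rpow_neg (by norm_num), ← Real.rpow_mul (by norm_num)]
    push_cast
    ring_nf
  have e2 : (2 : ℝ) ^ (2 * r * θ) * (2 : ℝ) ^ (-((r : ℝ) + 1) * d) = ρ ^ r * (2 : ℝ) ^ (-d) := by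
    rw [hρ, ← Real.rpow_natCast, ← Real.rpow_mul (by norm_num), ← Real.rpow_add (by norm_num),
      ← Real.rpow_add (by norm_num)]
    congr 1
    ring
  rw [mul_assoc (K * ((r : ℝ) + 1) ^ 5), e1, e2]
  push_cast
  rw [pow_succ ρ r]
  field_simp

end A3

open A3 in
theorem limsupDim : LimsupDim := by
  intro θ K B hθ hB
  by_contra hlt
  push Not at hlt
  obtain ⟨d, h1, h2⟩ := ENNReal.lt_iff_exists_nnreal_btwn.1 hlt
  have hd : 2 * θ < (d : ℝ) := by
    by_contra hle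
    push Not at hle
    have h3 : (d : ℝ≥0∞) ≤ ENNReal.ofReal (2 * θ) := by
      rw [← ENNReal.ofReal_coe_nnreal]
      exact ENNReal.ofReal_le_ofReal hle
    exact absurd h1 (not_lt.2 h3)
  set E : Set ℝ := {t : ℝ | ∃ᶠ r in atTop, ∃ i ∈ B r,
    (i : ℝ) / 2 ^ (r + 1) ≤ t ∧ t ≤ ((i : ℝ) + 1) / 2 ^ (r + 1)} with hE
  refine absurd h2 (not_lt.2 (dimH_le_of_hausdorffMeasure_ne_top ?_))
  -- the total mass of the covers
  set T : ℕ → ℝ≥0∞ := fun r =>
    ∑' i : B r, Metric.ediam (J r i) ^ (d : ℝ) with hT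
  have hTle : ∀ r, T r ≤ ENNReal.ofReal (K * ((r : ℝ) + 1) ^ 5 * (2 : ℝ) ^ (2 * r * θ) *
      (1 / 2 ^ (r + 1) : ℝ) ^ (d : ℝ)) := by
    intro r
    have e1 : T r = (B r).card * ENNReal.ofReal ((1 / 2 ^ (r + 1) : ℝ) ^ (d : ℝ)) := by
      rw [hT]
      simp only [ediam_J]
      rw [ENNReal.ofReal_rpow_of_pos (by positivity), tsum_fintype, Finset.sum_const,
        Finset.card_univ, Fintype.card_coe, nsmul_eq_mul]
    rw [e1, ENNReal.ofReal_mul' (by positivity)]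
    gcongr
    rw [← ENNReal.ofReal_natCast]
    exact ENNReal.ofReal_le_ofReal (hB r)
  have hTsum : ∑' r, T r ≠ ⊤ := by
    refine ne_top_of_le_ne_top (Summable.tsum_ofReal_ne_top (summable_g (K := K) hd)) ?_
    exact ENNReal.tsum_le_tsum hTle
  refine ne_top_of_le_ne_top hTsum ?_
  have hkey := Measure.hausdorffMeasure_le_liminf_tsum (β := ℕ)
    (ι := fun m => Σ k : ℕ, B (m + k)) (d : ℝ) E (l := atTop)
    (fun m => ENNReal.ofReal ((1 / 2 : ℝ) ^ m))
    (by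
      have h3 : Tendsto (fun m : ℕ => (1 / 2 : ℝ) ^ m) atTop (𝓝 0) :=
        tendsto_pow_atTop_nhds_zero_of_lt_one (by norm_num) (by norm_num)
      have h4 := ENNReal.tendsto_ofReal h3
      rwa [ENNReal.ofReal_zero] at h4)
    (fun m p => J (m + p.1) p.2)
    (by
      refine Eventually.of_forall fun m p => ?_
      rw [ediam_J]
      refine ENNReal.ofReal_le_ofReal ?_
      rw [one_div_pow]
      refine one_div_le_one_div_of_le (by positivity) ?_
      exact pow_le_pow_right₀ (by norm_num) (by omega))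
    (by
      refine Eventually.of_forall fun m t ht => ?_
      obtain ⟨r, hr, i, hi, hti⟩ := frequently_atTop.1 ht m
      rw [Set.mem_iUnion]
      obtain ⟨k, rfl⟩ := Nat.exists_eq_add_of_le hr
      exact ⟨⟨k, ⟨i, hi⟩⟩, hti⟩)
  refine hkey.trans ?_
  refine liminf_le_of_le (by isBoundedDefault) fun b hb => ?_
  obtain ⟨m, hm⟩ := hb.exists
  refine hm.trans ?_
  have e2 : ∑' p : (Σ k : ℕ, B (m + k)), Metric.ediam (J (m + p.1) p.2) ^ (d : ℝ) =
      ∑' k, T (m + k) := by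
    rw [hT]
    exact ENNReal.tsum_sigma (fun k (i : B (m + k)) => Metric.ediam (J (m + k) i) ^ (d : ℝ))
  rw [e2]
  exact ENNReal.tsum_comp_le_tsum_of_injective (add_right_injective m) T

end MP7ed9c3
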