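import Pool.Agent.Lib.MP_7ed9c3_nt.SpecA

/-!
# MP_7ed9c3_nt: convergence of the sums outside a set of small dimension
-/

namespace MP7ed9c3

open Filter Topology MeasureTheory

namespace A4

lemma mem_cell {r i j n : ℕ} (hn : n ∈ cell r i j) :
    2 ^ r + j * 2 ^ (r - i) ≤ Nat.log 2 n ∧ Nat.log 2 n < 2 ^ r + (j + 1) * 2 ^ (r - i) := by
  unfold cell at hn
  rw [Finset.mem_Ico] at hn
  have hn0 : n ≠ 0 := by
    have : 0 < 2 ^ (2 ^ r + j * 2 ^ (r - i)) := by positivity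
    omega
  exact ⟨Nat.le_log_of_pow_le (by norm_num) hn.1, Nat.log_lt_of_lt_pow hn0 hn.2⟩

lemma cell_pos {r i j n : ℕ} (hn : n ∈ cell r i j) : 1 ≤ n := by
  unfold cell at hn
  rw [Finset.mem_Ico] at hn
  have : 0 < 2 ^ (2 ^ r + j * 2 ^ (r - i)) := by positivity
  omega

lemma le_of_cell {r i j : ℕ} (hi : i ≤ r) (hj : j < 2 ^ i) :
    2 ^ r + (j + 1) * 2 ^ (r - i) ≤ 2 ^ (r + 1) := by
  have h1 : (j + 1) * 2 ^ (r - i) ≤ 2 ^ i * 2 ^ (r - i) := Nat.mul_le_mul_right _ hj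
  rw [← pow_add, Nat.add_sub_cancel' hi] at h1
  rw [pow_succ]
  omega

lemma mass_nonneg (c : ℕ → ℂ) (S : Finset ℕ) (k : ℕ) : 0 ≤ mass c S k :=
  Finset.sum_nonneg fun _ _ => norm_nonneg _

lemma sum_mass {c : ℕ → ℂ} {C : ℝ} (hb : BlockBound c C) (hC : 0 ≤ C) {r i j : ℕ} :
    ∑ k ∈ Finset.range (2 ^ (r + 1)), mass c (cell r i j) k ^ 2 ≤
      (2 : ℝ) ^ (r - i) * (C / 2 ^ r) ^ 2 := by
  set a := 2 ^ r + j * 2 ^ (r - i) with ha
  set b := 2 ^ r + (j + 1) * 2 ^ (r - i) with hbdef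
  have hab : b - a = 2 ^ (r - i) := by
    have h0 : b = a + 2 ^ (r - i) := by rw [ha, hbdef]; ring
    rw [h0]
    exact Nat.add_sub_cancel_left _ _
  have h1 : ∀ k, mass c (cell r i j) k ^ 2 ≤ if k ∈ Finset.Ico a b then (C / 2 ^ r) ^ 2 else 0 := by
    intro k
    split_ifs with hk
    · have h2 : mass c (cell r i j) k ≤ C / 2 ^ r := by
        have h3 : mass c (cell r i j) k ≤ ∑ n ∈ Finset.Ico (2 ^ k) (2 ^ (k + 1)), ‖c n‖ := by
          unfold mass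
          apply Finset.sum_le_sum_of_subset_of_nonneg
          · intro n hn
            rw [Finset.mem_filter] at hn
            have hn0 : n ≠ 0 := by
              have := cell_pos hn.1
              omega
            rw [Finset.mem_Ico, ← hn.2]
            exact ⟨Nat.pow_log_le_self 2 hn0, Nat.lt_pow_succ_log_self (by norm_num) n⟩
          · intro n _ _
            exact norm_nonneg _
        refine (h3.trans (hb k)).trans ?_
        rw [Finset.mem_Ico] at hk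
        have h4 : ((2 : ℝ) ^ r) ≤ (k : ℝ) + 1 := by
          have : 2 ^ r ≤ k + 1 := by omega
          exact_mod_cast this
        gcongr
      exact pow_le_pow_left₀ (mass_nonneg _ _ _) h2 2
    · have h2 : mass c (cell r i j) k = 0 := by
        unfold mass
        apply Finset.sum_eq_zero
        intro n hn
        rw [Finset.mem_filter] at hn
        exfalso
        apply hk
        have := mem_cell hn.1
        rw [Finset.mem_Ico, ← hn.2]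
        exact this
      rw [h2]
      simp
  calc ∑ k ∈ Finset.range (2 ^ (r + 1)), mass c (cell r i j) k ^ 2
      ≤ ∑ k ∈ Finset.range (2 ^ (r + 1)),
          if k ∈ Finset.Ico a b then (C / 2 ^ r) ^ 2 else 0 := Finset.sum_le_sum fun k _ => h1 k
    _ = ∑ k ∈ (Finset.range (2 ^ (r + 1))).filter (fun k => k ∈ Finset.Ico a b),
          (C / 2 ^ r) ^ 2 := by rw [Finset.sum_filter]
    _ ≤ ∑ k ∈ Finset.Ico a b, (C / 2 ^ r) ^ 2 := by
        apply Finset.sum_le_sum_of_subset_of_nonneg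
        · intro k hk
          exact (Finset.mem_filter.1 hk).2
        · intro k _ _
          positivity
    _ = (2 : ℝ) ^ (r - i) * (C / 2 ^ r) ^ 2 := by
        rw [Finset.sum_const, Nat.card_Ico, hab, nsmul_eq_mul]
        push_cast
        rfl

open Classical in
/-- The bad intervals for one cell. -/
noncomputable def Bij (c : ℕ → ℂ) (θ : ℝ) (T r i j : ℕ) : Finset ℤ :=
  (Finset.Ico (-((T : ℤ) * (2 ^ (r + 1) : ℕ))) ((T : ℤ) * (2 ^ (r + 1) : ℕ))).filter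
    (fun l => ∃ t : ℝ, (l : ℝ) / 2 ^ (r + 1) ≤ t ∧ t ≤ ((l : ℝ) + 1) / 2 ^ (r + 1) ∧
      (2 : ℝ) ^ (-(r * θ)) / (r + 1) ≤ ‖dir c (cell r i j) t‖)

lemma mem_Bij {c : ℕ → ℂ} {θ : ℝ} {T r i j : ℕ} {l : ℤ} : l ∈ Bij c θ T r i j ↔
    (-((T : ℤ) * (2 ^ (r + 1) : ℕ)) ≤ l ∧ l < (T : ℤ) * (2 ^ (r + 1) : ℕ)) ∧
      ∃ t : ℝ, (l : ℝ) / 2 ^ (r + 1) ≤ t ∧ t ≤ ((l : ℝ) + 1) / 2 ^ (r + 1) ∧
      (2 : ℝ) ^ (-(r * θ)) / (r + 1) ≤ ‖dir c (cell r i j) t‖ := by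
  classical
  unfold Bij
  simp only [Finset.mem_filter, Finset.mem_Ico]

lemma card_Bij (h1 : LargeVal) {c : ℕ → ℂ} {C : ℝ} (hb : BlockBound c C) (hC : 0 ≤ C) (θ : ℝ)
    {T r i j : ℕ} (hi : i ≤ r) (hj : j < 2 ^ i) :
    ((Bij c θ T r i j).card : ℝ) ≤
      240 * Real.exp ((T : ℝ) ^ 2) * C ^ 2 * ((r : ℝ) + 1) ^ 2 * (2 : ℝ) ^ (2 * r * θ) / 2 ^ i := by
  have hδ : 0 < (2 : ℝ) ^ (-(r * θ)) / ((r : ℝ) + 1) := by positivity
  have h := h1 c (cell r i j) (2 ^ (r + 1)) (2 ^ (r + 1)) T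
    ((2 : ℝ) ^ (-(r * θ)) / (r + 1)) (Bij c θ T r i j) ?_ le_rfl Nat.one_le_two_pow hδ ?_
  · have h2 := sum_mass hb hC (r := r) (i := i) (j := j)
    have h3 : (2 : ℝ) ^ (-(r * θ)) ^ 2 = (2 : ℝ) ^ (-(r * θ)) ^ 2 := rfl
    have hsq : ((2 : ℝ) ^ (-(r * θ)) / ((r : ℝ) + 1)) ^ 2 =
        1 / ((2 : ℝ) ^ (2 * r * θ) * ((r : ℝ) + 1) ^ 2) := by
      rw [div_pow, ← Real.rpow_natCast ((2 : ℝ) ^ (-(r * θ))) 2, ← Real.rpow_mul (by norm_num),
        show -((r : ℝ) * θ) * ((2 : ℕ) : ℝ) = -(2 * r * θ) by push_cast; ring,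
        Real.rpow_neg (by norm_num)]
      field_simp
    have h4 : ((Bij c θ T r i j).card : ℝ) * (1 / ((2 : ℝ) ^ (2 * r * θ) * ((r : ℝ) + 1) ^ 2)) ≤
        120 * Real.exp ((T : ℝ) ^ 2) * 2 ^ (r + 1) * ((2 : ℝ) ^ (r - i) * (C / 2 ^ r) ^ 2) := by
      rw [← hsq]
      refine h.trans ?_
      push_cast
      gcongr
    have hpos : 0 < (2 : ℝ) ^ (2 * r * θ) * ((r : ℝ) + 1) ^ 2 := by positivity
    rw [mul_one_div, div_le_iff₀ hpos] at h4
    refine h4.trans (le_of_eq ?_)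
    have h5 : (2 : ℝ) ^ r = 2 ^ (r - i) * 2 ^ i := by
      rw [← pow_add, Nat.sub_add_cancel hi]
    have h6 : (2 : ℝ) ^ (r + 1) = 2 * (2 ^ (r - i) * 2 ^ i) := by rw [pow_succ, h5]; ring
    rw [h6, h5]
    field_simp
    ring
  · intro n hn
    exact ⟨cell_pos hn, (mem_cell hn).2.trans_le (le_of_cell hi hj)⟩
  · intro l hl
    obtain ⟨⟨hl1, hl2⟩, t, ht1, ht2, ht3⟩ := mem_Bij.1 hl
    refine ⟨hl1, hl2, t, ?_, ?_, ht3⟩
    · push_cast
      exact ht1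
    · push_cast
      exact ht2

/-- The bad intervals. -/
noncomputable def B (c : ℕ → ℂ) (θ : ℝ) (T r : ℕ) : Finset ℤ :=
  (Finset.range (r + 1)).biUnion fun i => (Finset.range (2 ^ i)).biUnion fun j => Bij c θ T r i j

lemma card_B (h1 : LargeVal) {c : ℕ → ℂ} {C : ℝ} (hb : BlockBound c C) (hC : 0 ≤ C) (θ : ℝ)
    (T r : ℕ) :
    ((B c θ T r).card : ℝ) ≤
      (240 * Real.exp ((T : ℝ) ^ 2) * C ^ 2) * ((r : ℝ) + 1) ^ 5 * (2 : ℝ) ^ (2 * r * θ) := by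
  set Q : ℝ := 240 * Real.exp ((T : ℝ) ^ 2) * C ^ 2 * ((r : ℝ) + 1) ^ 2 *
    (2 : ℝ) ^ (2 * r * θ) with hQ
  have hQ0 : 0 ≤ Q := by positivity
  have h2 : ∀ i ∈ Finset.range (r + 1),
      ((((Finset.range (2 ^ i)).biUnion fun j => Bij c θ T r i j).card : ℕ) : ℝ) ≤ Q := by
    intro i hi
    have hi' : i ≤ r := Nat.lt_succ_iff.1 (Finset.mem_range.1 hi)
    have h3 : ((((Finset.range (2 ^ i)).biUnion fun j => Bij c θ T r i j).card : ℕ) : ℝ) ≤
        ∑ j ∈ Finset.range (2 ^ i), ((Bij c θ T r i j).card : ℝ) := by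
      exact_mod_cast Finset.card_biUnion_le
    refine h3.trans ?_
    calc ∑ j ∈ Finset.range (2 ^ i), ((Bij c θ T r i j).card : ℝ)
        ≤ ∑ _j ∈ Finset.range (2 ^ i), Q / 2 ^ i :=
          Finset.sum_le_sum fun j hj => card_Bij h1 hb hC θ hi' (Finset.mem_range.1 hj)
      _ = Q := by
          rw [Finset.sum_const, Finset.card_range, nsmul_eq_mul]
          push_cast
          field_simp
  have h4 : ((B c θ T r).card : ℝ) ≤ ∑ i ∈ Finset.range (r + 1),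
      ((((Finset.range (2 ^ i)).biUnion fun j => Bij c θ T r i j).card : ℕ) : ℝ) := by
    unfold B
    exact_mod_cast Finset.card_biUnion_le
  have h5 : ((B c θ T r).card : ℝ) ≤ ((r : ℝ) + 1) * Q := by
    refine h4.trans ((Finset.sum_le_sum h2).trans (le_of_eq ?_))
    rw [Finset.sum_const, Finset.card_range, nsmul_eq_mul]
    push_cast
    rfl
  refine h5.trans ?_
  have hr : (1 : ℝ) ≤ (r : ℝ) + 1 := by
    have : (0 : ℝ) ≤ r := Nat.cast_nonneg r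
    linarith
  have h6 : ((r : ℝ) + 1) ^ 3 ≤ ((r : ℝ) + 1) ^ 5 := pow_le_pow_right₀ hr (by norm_num)
  calc ((r : ℝ) + 1) * Q = (240 * Real.exp ((T : ℝ) ^ 2) * C ^ 2) * ((r : ℝ) + 1) ^ 3 *
        (2 : ℝ) ^ (2 * r * θ) := by rw [hQ]; ring
    _ ≤ _ := by gcongr

end A4

open A4 in
theorem partialSums (h1 : LargeVal) (h2 : Chain) (h3 : LimsupDim) : PartialSums := by
  intro c C θ hb hθ
  have hC : 0 ≤ C := by
    have h := hb 0
    have h' : (0 : ℝ) ≤ ∑ n ∈ Finset.Ico (2 ^ 0) (2 ^ (0 + 1)), ‖c n‖ :=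
      Finset.sum_nonneg fun _ _ => norm_nonneg _
    have := h'.trans h
    simpa using this
  rcases le_or_gt (1 / 2) θ with hθ2 | hθ2
  · refine ⟨Set.univ, ?_, fun t ht => absurd (Set.mem_univ t) ht⟩
    rw [Real.dimH_univ]
    have h4 : (1 : ENNReal) = ENNReal.ofReal 1 := ENNReal.ofReal_one.symm
    rw [h4]
    exact ENNReal.ofReal_le_ofReal (by linarith)
  · let ZT : ℕ → Set ℝ := fun T => {t : ℝ | ∃ᶠ r in atTop, ∃ i ∈ B c θ T r,
      (i : ℝ) / 2 ^ (r + 1) ≤ t ∧ t ≤ ((i : ℝ) + 1) / 2 ^ (r + 1)}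
    refine ⟨⋃ T, ZT T, ?_, ?_⟩
    · rw [dimH_iUnion]
      apply iSup_le
      intro T
      exact h3 θ _ (B c θ T) hθ (fun r => card_B h1 hb hC θ T r)
    · intro t ht
      obtain ⟨T, hT⟩ := exists_nat_gt |t|
      have ht' : t ∉ ZT T := fun h => ht (Set.mem_iUnion.2 ⟨T, h⟩)
      have hev : ∀ᶠ r in atTop, ¬ ∃ i ∈ B c θ T r,
          (i : ℝ) / 2 ^ (r + 1) ≤ t ∧ t ≤ ((i : ℝ) + 1) / 2 ^ (r + 1) := by
        rw [← not_frequently]
        exact ht'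
      obtain ⟨r₀, hr₀⟩ := eventually_atTop.1 hev
      apply h2 c C θ t r₀ hb hθ (by linarith)
      intro r hr i hi j hj
      by_contra hcon
      push Not at hcon
      apply hr₀ r hr
      have hp : (0 : ℝ) < 2 ^ (r + 1) := by positivity
      have e1 : (⌊t * 2 ^ (r + 1)⌋ : ℝ) / 2 ^ (r + 1) ≤ t := by
        rw [div_le_iff₀ hp]
        exact Int.floor_le _
      have e2 : t ≤ ((⌊t * 2 ^ (r + 1)⌋ : ℝ) + 1) / 2 ^ (r + 1) := by
        rw [le_div_iff₀ hp]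
        exact (Int.lt_floor_add_one _).le
      refine ⟨⌊t * 2 ^ (r + 1)⌋, ?_, e1, e2⟩
      unfold B
      rw [Finset.mem_biUnion]
      refine ⟨i, Finset.mem_range.2 (Nat.lt_succ_of_le hi), ?_⟩
      rw [Finset.mem_biUnion]
      refine ⟨j, Finset.mem_range.2 hj, ?_⟩
      have habs := abs_lt.1 hT
      refine mem_Bij.2 ⟨⟨?_, ?_⟩, t, e1, e2, hcon.le⟩
      · rw [Int.le_floor]
        push_cast
        nlinarith [habs.1]
      · rw [Int.floor_lt]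
        push_cast
        nlinarith [habs.2]

end MP7ed9c3
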