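import Pool.Agent.Lib.MP_7ed9c3_nt.SpecA

/-!
# MP_7ed9c3_nt: Abel's theorem in a Stolz angle
-/

namespace MP7ed9c3

open Filter Topology

namespace A5

lemma norm_one_sub_exp {w : ℂ} (hw : 0 < w.re) :
    ‖1 - Complex.exp (-w)‖ ≤ ‖w‖ / w.re * (1 - Real.exp (-w.re)) := by
  have h := image_norm_le_of_norm_deriv_right_le_deriv_boundary
    (f := fun t : ℝ => 1 - Complex.exp (-(t * w))) (f' := fun t : ℝ => w * Complex.exp (-(t * w)))
    (a := 0) (b := 1)
    (B := fun t : ℝ => ‖w‖ / w.re * (1 - Real.exp (-(t * w.re))))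
    (B' := fun t : ℝ => ‖w‖ * Real.exp (-(t * w.re)))
    (by fun_prop) ?_ (by simp) ?_ ?_ (Set.right_mem_Icc.2 zero_le_one)
  · simpa using h
  · intro t _
    have h1 : HasDerivAt (fun t : ℝ => -((t : ℂ) * w)) (-w) t := by
      have h2 : HasDerivAt (fun t : ℝ => (t : ℂ)) 1 t := Complex.ofRealCLM.hasDerivAt
      simpa using (h2.mul_const w).fun_neg
    have h3 := (h1.cexp.const_sub 1).hasDerivWithinAt (s := Set.Ici t)
    convert h3 using 1
    ring
  · intro t
    have h1 : HasDerivAt (fun t : ℝ => -(t * w.re)) (-w.re) t := by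
      simpa using ((hasDerivAt_id t).mul_const w.re).fun_neg
    have h3 := (h1.exp.const_sub 1).const_mul (‖w‖ / w.re)
    have hne : w.re ≠ 0 := hw.ne'
    have he : ‖w‖ * Real.exp (-(t * w.re)) =
        ‖w‖ / w.re * -(Real.exp (-(t * w.re)) * -w.re) := by
      field_simp
    rw [he]
    exact h3
  · intro t _
    rw [norm_mul, Complex.norm_exp]
    simp

/-- `(m+1)^(-z)`. -/
noncomputable def a (m : ℕ) (z : ℂ) : ℂ := ((m + 1 : ℕ) : ℂ) ^ (-z)

/-- `(m+1)^(-σ)`. -/
noncomputable def b (m : ℕ) (σ : ℝ) : ℝ := Real.exp (-(σ * Real.log ((m + 1 : ℕ) : ℝ)))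

lemma a_eq (m : ℕ) (z : ℂ) : a m z = Complex.exp (-(z * (Real.log ((m + 1 : ℕ) : ℝ) : ℝ))) := by
  unfold a
  rw [Complex.cpow_def_of_ne_zero (by exact_mod_cast Nat.succ_ne_zero m), Complex.natCast_log]
  congr 1
  ring

lemma a_zero (z : ℂ) : a 0 z = 1 := by simp [a]

lemma continuous_a (m : ℕ) : Continuous (a m) := by
  have : a m = fun z => Complex.exp (-(z * (Real.log ((m + 1 : ℕ) : ℝ) : ℝ))) :=
    funext (a_eq m)
  rw [this]
  fun_prop

lemma norm_a (m : ℕ) (z : ℂ) : ‖a m z‖ = b m z.re := by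
  rw [a_eq, Complex.norm_exp, b]
  congr 1
  simp

lemma b_pos (m : ℕ) (σ : ℝ) : 0 < b m σ := Real.exp_pos _

lemma b_le_one (m : ℕ) {σ : ℝ} (hσ : 0 ≤ σ) : b m σ ≤ 1 := by
  unfold b
  rw [Real.exp_le_one_iff]
  have : 0 ≤ Real.log ((m + 1 : ℕ) : ℝ) := Real.log_natCast_nonneg _
  have := mul_nonneg hσ this
  linarith

lemma b_zero (σ : ℝ) : b 0 σ = 1 := by simp [b]

lemma diff_a {z : ℂ} (hz : 0 < z.re) (m : ℕ) :
    ‖a m z - a (m + 1) z‖ ≤ ‖z‖ / z.re * (b m z.re - b (m + 1) z.re) := by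
  set L : ℝ := Real.log ((m + 1 + 1 : ℕ) : ℝ) - Real.log ((m + 1 : ℕ) : ℝ) with hL
  have hLpos : 0 < L := by
    rw [hL, sub_pos]
    apply Real.log_lt_log
    · exact_mod_cast Nat.succ_pos m
    · exact_mod_cast Nat.lt_succ_self _
  have h1 : a (m + 1) z = a m z * Complex.exp (-(z * (L : ℝ))) := by
    rw [a_eq, a_eq, ← Complex.exp_add]
    congr 1
    rw [hL]
    push_cast
    ring
  have h2 : b (m + 1) z.re = b m z.re * Real.exp (-(z.re * L)) := by
    rw [b, b, ← Real.exp_add]
    congr 1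
    rw [hL]
    ring
  have hre : (z * (L : ℂ)).re = z.re * L := by simp
  have hw : 0 < (z * (L : ℂ)).re := by rw [hre]; positivity
  have h3 := norm_one_sub_exp hw
  rw [hre, norm_mul, Complex.norm_real, Real.norm_of_nonneg hLpos.le,
    mul_div_mul_right _ _ hLpos.ne'] at h3
  have h4 : a m z - a (m + 1) z = a m z * (1 - Complex.exp (-(z * (L : ℝ)))) := by
    rw [h1]
    ring
  rw [h4, norm_mul, norm_a, h2]
  calc b m z.re * ‖1 - Complex.exp (-(z * (L : ℝ)))‖
      ≤ b m z.re * (‖z‖ / z.re * (1 - Real.exp (-(z.re * L)))) := by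
        gcongr
        exact (b_pos _ _).le
    _ = _ := by ring

lemma diff_b {z : ℂ} (hz : 0 < z.re) (m : ℕ) : 0 ≤ b m z.re - b (m + 1) z.re := by
  have h := (norm_nonneg _).trans (diff_a hz m)
  have h1 : 0 < ‖z‖ / z.re := by
    have : z ≠ 0 := by
      rintro rfl
      simp at hz
    positivity
  exact nonneg_of_mul_nonneg_right h h1

lemma parts (d : ℕ → ℂ) (S z : ℂ) (X : ℕ) :
    (∑ m ∈ Finset.range X, d (m + 1) * a m z) - S =
      ((∑ n ∈ Finset.Icc 1 X, d n) - S) * a X z +
      ∑ m ∈ Finset.range X, ((∑ n ∈ Finset.Icc 1 (m + 1), d n) - S) * (a m z - a (m + 1) z) := by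
  induction X with
  | zero => simp [a_zero]
  | succ X ih =>
    rw [Finset.sum_range_succ, Finset.sum_range_succ, add_sub_right_comm, ih,
      Finset.sum_Icc_succ_top (Nat.le_add_left 1 X)]
    ring

end A5

open A5 in
theorem abelStolz : AbelStolz := by
  intro d S hd0 hP hsum κ
  set P : ℕ → ℂ := fun x => ∑ n ∈ Finset.Icc 1 x, d n with hPdef
  set c : ℝ := 1 + |κ| with hc
  have hc0 : 0 < c := by positivity
  rw [Metric.tendsto_nhdsWithin_nhds]
  intro ε' hε'
  set ε : ℝ := ε' / (2 * (1 + c)) with hε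
  have hεpos : 0 < ε := by positivity
  obtain ⟨N, hN⟩ := Metric.tendsto_atTop.1 hP ε hεpos
  -- the finitely many terms
  have hG : Tendsto (fun z : ℂ => ∑ m ∈ Finset.range N, ‖P (m + 1) - S‖ * ‖a m z - a (m + 1) z‖)
      (𝓝 0) (𝓝 0) := by
    have hcont : Continuous
        (fun z : ℂ => ∑ m ∈ Finset.range N, ‖P (m + 1) - S‖ * ‖a m z - a (m + 1) z‖) := by
      refine continuous_finsetSum _ fun m _ => ?_
      exact continuous_const.mul ((continuous_a m).sub (continuous_a (m + 1))).norm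
    have h := hcont.tendsto 0
    have h0 : (∑ m ∈ Finset.range N, ‖P (m + 1) - S‖ * ‖a m 0 - a (m + 1) 0‖) = 0 := by
      apply Finset.sum_eq_zero
      intro m _
      simp [a]
    rwa [h0] at h
  obtain ⟨δ, hδ, hδ2⟩ := Metric.tendsto_nhds_nhds.1 hG (ε' / 2) (by positivity)
  refine ⟨δ, hδ, ?_⟩
  intro z hz hzd
  obtain ⟨hz1, hz2⟩ := hz
  have hzn : ‖z‖ / z.re ≤ c := by
    rw [div_le_iff₀ hz1]
    have h1 := Complex.norm_le_abs_re_add_abs_im z
    have h2 : κ * z.re ≤ |κ| * z.re := mul_le_mul_of_nonneg_right (le_abs_self κ) hz1.le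
    rw [abs_of_pos hz1] at h1
    rw [hc]
    linarith
  set G : ℝ := ∑ m ∈ Finset.range N, ‖P (m + 1) - S‖ * ‖a m z - a (m + 1) z‖ with hGdef
  have hGsmall : G < ε' / 2 := by
    have h1 := hδ2 hzd
    rw [dist_zero_right, Real.norm_eq_abs] at h1
    exact (le_abs_self _).trans_lt h1
  -- the bound for finite sums
  have hfin : ∀ X, N ≤ X →
      ‖(∑ m ∈ Finset.range X, d (m + 1) * a m z) - S‖ ≤ ε + (G + ε * c) := by
    intro X hX
    rw [parts]
    refine (norm_add_le _ _).trans (add_le_add ?_ ?_)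
    · rw [norm_mul, norm_a]
      have h1 : ‖P X - S‖ ≤ ε := by
        have := hN X hX
        rw [dist_eq_norm] at this
        exact this.le
      calc ‖P X - S‖ * b X z.re ≤ ε * 1 :=
            mul_le_mul h1 (b_le_one X hz1.le) (b_pos _ _).le hεpos.le
        _ = ε := mul_one ε
    · refine (norm_sum_le _ _).trans ?_
      have hterm : ∀ m ∈ Finset.range X,
          ‖(P (m + 1) - S) * (a m z - a (m + 1) z)‖ ≤
            (if m < N then ‖P (m + 1) - S‖ * ‖a m z - a (m + 1) z‖ else 0) +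
              ε * c * (b m z.re - b (m + 1) z.re) := by
        intro m _
        have hb := diff_b hz1 m
        rw [norm_mul]
        split_ifs with hm
        · have : 0 ≤ ε * c * (b m z.re - b (m + 1) z.re) := by positivity
          linarith
        · rw [zero_add]
          have h1 : ‖P (m + 1) - S‖ ≤ ε := by
            have := hN (m + 1) (by omega)
            rw [dist_eq_norm] at this
            exact this.le
          calc ‖P (m + 1) - S‖ * ‖a m z - a (m + 1) z‖
              ≤ ε * (c * (b m z.re - b (m + 1) z.re)) := by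
                apply mul_le_mul h1 _ (norm_nonneg _) hεpos.le
                exact (diff_a hz1 m).trans (mul_le_mul_of_nonneg_right hzn hb)
            _ = _ := by ring
      refine (Finset.sum_le_sum hterm).trans ?_
      rw [Finset.sum_add_distrib]
      apply add_le_add
      · rw [← Finset.sum_filter]
        apply Finset.sum_le_sum_of_subset_of_nonneg
        · intro m hm
          simp only [Finset.mem_filter, Finset.mem_range] at hm ⊢
          exact hm.2
        · intro m _ _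
          positivity
      · rw [← Finset.mul_sum, Finset.sum_range_sub' (fun m => b m z.re), b_zero]
        have : 0 < b X z.re := b_pos _ _
        have h2 : ε * c * (1 - b X z.re) ≤ ε * c * 1 := by
          apply mul_le_mul_of_nonneg_left _ (by positivity)
          linarith
        linarith
  -- the limit
  have hlim : Tendsto (fun X => ∑ m ∈ Finset.range X, d (m + 1) * a m z) atTop
      (𝓝 (∑' n : ℕ, d n * (n : ℂ) ^ (-z))) := by
    have h1 := (hsum z hz1).hasSum.tendsto_sum_nat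
    have h2 := (tendsto_add_atTop_iff_nat 1).2 h1
    refine h2.congr fun X => ?_
    rw [Finset.sum_range_succ']
    simp [hd0, a]
  have hle : ‖(∑' n : ℕ, d n * (n : ℂ) ^ (-z)) - S‖ ≤ ε + (G + ε * c) :=
    le_of_tendsto (hlim.sub_const S).norm (eventually_atTop.2 ⟨N, hfin⟩)
  rw [dist_eq_norm]
  refine hle.trans_lt ?_
  have h3 : ε + ε * c = ε' / 2 := by
    rw [hε]
    field_simp
  linarith

end MP7ed9c3
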