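import Pool.Agent.Lib.MP_7ed9c3_nt.SpecA

/-!
# MP_7ed9c3_nt: A6, logarithm of an Euler factor
-/

namespace MP7ed9c3

open Filter Topology

/-- The number `z` with `eden = 1 - z`. -/
noncomputable def ez (N : ℕ) (a : ℤ) (good : Prop) [Decidable good] (s : ℂ) : ℂ :=
  (a : ℂ) * (N : ℂ) ^ (-s) - (if good then 1 else 0) * (N : ℂ) ^ (1 - 2 * s)

lemma eden_eq (N : ℕ) (a : ℤ) (good : Prop) [Decidable good] (s : ℂ) :
    eden N a good s = 1 + -(ez N a good s) := by
  unfold eden ez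
  ring

lemma norm_good_le (N : ℕ) (hN : 2 ≤ N) (good : Prop) [Decidable good] (s : ℂ)
    (hs : 3 / 2 ≤ s.re) :
    ‖(if good then (1 : ℂ) else 0) * (N : ℂ) ^ (1 - 2 * s)‖ ≤ 1 / (N : ℝ) ^ 2 := by
  have hN0 : 0 < N := by omega
  have hx : (2 : ℝ) ≤ N := by exact_mod_cast hN
  have h1 : ‖(N : ℂ) ^ (1 - 2 * s)‖ ≤ 1 / (N : ℝ) ^ 2 := by
    rw [Complex.norm_natCast_cpow_of_pos hN0]
    have h2 : (1 - 2 * s).re = 1 - 2 * s.re := by simp
    rw [h2]
    have h3 : (N : ℝ) ^ (1 - 2 * s.re) ≤ (N : ℝ) ^ (-2 : ℝ) :=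
      Real.rpow_le_rpow_of_exponent_le (by linarith) (by linarith)
    refine h3.trans (le_of_eq ?_)
    rw [Real.rpow_neg (by linarith), one_div]
    norm_num
  by_cases hg : good
  · simpa [hg] using h1
  · simp only [hg, if_false, zero_mul, norm_zero]
    positivity

lemma norm_main_le (N : ℕ) (hN : 2 ≤ N) (a : ℤ) (s : ℂ) (hs : 3 / 2 ≤ s.re) :
    ‖(a : ℂ) * (N : ℂ) ^ (-s)‖ ≤ |(a : ℝ)| * (1 / ((N : ℝ) * √N)) := by
  have hN0 : 0 < N := by omega
  have hx : (2 : ℝ) ≤ N := by exact_mod_cast hN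
  rw [norm_mul, Complex.norm_natCast_cpow_of_pos hN0, Complex.norm_intCast]
  refine mul_le_mul_of_nonneg_left ?_ (abs_nonneg _)
  have h3 : (N : ℝ) ^ ((-s).re) ≤ (N : ℝ) ^ (-(3 / 2) : ℝ) := by
    refine Real.rpow_le_rpow_of_exponent_le (by linarith) ?_
    simp only [Complex.neg_re]
    linarith
  refine h3.trans (le_of_eq ?_)
  rw [Real.rpow_neg (by linarith), one_div]
  congr 1
  rw [show (3 / 2 : ℝ) = 1 + 1 / 2 by norm_num, Real.rpow_add (by linarith), Real.rpow_one,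
    Real.sqrt_eq_rpow]

lemma norm_ez_le (N : ℕ) (hN : 2 ≤ N) (a : ℤ) (good : Prop) [Decidable good] (C : ℝ)
    (haN : |(a : ℝ)| ≤ N) (haC : |(a : ℝ)| ≤ C * √N) (s : ℂ) (hs : 3 / 2 ≤ s.re) :
    ‖ez N a good s‖ ≤ 23 / 24 ∧ ‖ez N a good s‖ ≤ (C + 1 / 2) / N := by
  have hx : (2 : ℝ) ≤ N := by exact_mod_cast hN
  have hx0 : (0 : ℝ) < N := by linarith
  have hsq : 0 < √(N : ℝ) := Real.sqrt_pos.mpr hx0
  have h1 := norm_main_le N hN a s hs
  have h2 := norm_good_le N hN good s hs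
  have h3 : ‖ez N a good s‖ ≤ |(a : ℝ)| * (1 / ((N : ℝ) * √N)) + 1 / (N : ℝ) ^ 2 := by
    unfold ez
    exact (norm_sub_le _ _).trans (add_le_add h1 h2)
  constructor
  · refine h3.trans ?_
    have h4 : |(a : ℝ)| * (1 / ((N : ℝ) * √N)) ≤ 17 / 24 := by
      have h5 : |(a : ℝ)| * (1 / ((N : ℝ) * √N)) ≤ N * (1 / ((N : ℝ) * √N)) :=
        mul_le_mul_of_nonneg_right haN (by positivity)
      have h6 : (N : ℝ) * (1 / ((N : ℝ) * √N)) = 1 / √N := by
        field_simp
      have h7 : (24 / 17 : ℝ) ≤ √N := by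
        refine Real.le_sqrt_of_sq_le ?_
        norm_num
        linarith
      have h8 : 1 / √(N : ℝ) ≤ 17 / 24 := by
        rw [div_le_div_iff₀ hsq (by norm_num)]
        linarith
      linarith
    have h9 : 1 / (N : ℝ) ^ 2 ≤ 1 / 4 := by
      refine one_div_le_one_div_of_le (by norm_num) ?_
      nlinarith
    linarith
  · refine h3.trans ?_
    have h4 : |(a : ℝ)| * (1 / ((N : ℝ) * √N)) ≤ C / N := by
      have h5 : |(a : ℝ)| * (1 / ((N : ℝ) * √N)) ≤ C * √N * (1 / ((N : ℝ) * √N)) :=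
        mul_le_mul_of_nonneg_right haC (by positivity)
      have h6 : C * √N * (1 / ((N : ℝ) * √N)) = C / N := by
        field_simp
      linarith
    have h9 : 1 / (N : ℝ) ^ 2 ≤ 1 / 2 / N := by
      rw [div_div, div_le_div_iff₀ (by positivity) (by positivity)]
      nlinarith
    rw [add_div]
    linarith

lemma eden_mem_slit (N : ℕ) (hN : 2 ≤ N) (a : ℤ) (good : Prop) [Decidable good] (C : ℝ)
    (haN : |(a : ℝ)| ≤ N) (haC : |(a : ℝ)| ≤ C * √N) (s : ℂ) (hs : 3 / 2 ≤ s.re) :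
    eden N a good s ∈ Complex.slitPlane := by
  left
  rw [eden_eq, Complex.add_re, Complex.one_re, Complex.neg_re]
  have h1 := (norm_ez_le N hN a good C haN haC s hs).1
  have h2 := Complex.re_le_norm (ez N a good s)
  linarith

theorem eulerLog : EulerLog := by
  intro N a good _ C hN haN haC
  have hx : (2 : ℝ) ≤ N := by exact_mod_cast hN
  have hx0 : (0 : ℝ) < N := by linarith
  refine ⟨?_, ?_⟩
  · intro s hs
    obtain ⟨h1, h2⟩ := norm_ez_le N hN a good C haN haC s hs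
    refine ⟨Complex.slitPlane_ne_zero (eden_mem_slit N hN a good C haN haC s hs), ?_⟩
    set z := ez N a good s with hz
    have h3 : ‖-z‖ < 1 := by
      rw [norm_neg]
      linarith
    have h4 := Complex.norm_log_one_add_sub_self_le h3
    rw [norm_neg] at h4
    have h5 : ‖z‖ ^ 2 * (1 - ‖z‖)⁻¹ / 2 ≤ 12 * ‖z‖ ^ 2 := by
      have h6 : (1 - ‖z‖)⁻¹ ≤ 24 := by
        rw [inv_le_comm₀ (by linarith) (by norm_num)]
        norm_num
        linarith
      nlinarith [sq_nonneg ‖z‖, norm_nonneg z]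
    have h7 : ‖z‖ ^ 2 ≤ ((C + 1 / 2) / N) ^ 2 := pow_le_pow_left₀ (norm_nonneg _) h2 2
    have h8 := norm_good_le N hN good s hs
    have h9 : -Complex.log (eden N a good s) - (a : ℂ) * (N : ℂ) ^ (-s)
        = -(Complex.log (1 + -z) - -z)
          - (if good then (1 : ℂ) else 0) * (N : ℂ) ^ (1 - 2 * s) := by
      rw [eden_eq, ← hz]
      have : z = (a : ℂ) * (N : ℂ) ^ (-s)
          - (if good then 1 else 0) * (N : ℂ) ^ (1 - 2 * s) := hz
      linear_combination this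
    rw [h9]
    refine (norm_sub_le _ _).trans ?_
    rw [norm_neg, add_div]
    refine add_le_add (h4.trans (h5.trans ?_)) h8
    rw [div_pow] at h7
    calc 12 * ‖z‖ ^ 2 ≤ 12 * ((C + 1 / 2) ^ 2 / (N : ℝ) ^ 2) := by linarith
      _ = 12 * (C + 1 / 2) ^ 2 / (N : ℝ) ^ 2 := by ring
  · intro s hs
    refine ContinuousWithinAt.clog ?_ (eden_mem_slit N hN a good C haN haC s hs)
    have hN0 : (N : ℂ) ≠ 0 := by
      have : N ≠ 0 := by omega
      exact_mod_cast this
    have hc1 : Continuous (fun s : ℂ => (N : ℂ) ^ (-s)) :=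
      continuous_neg.const_cpow (Or.inl hN0)
    have hc2 : Continuous (fun s : ℂ => (N : ℂ) ^ (1 - 2 * s)) :=
      (continuous_const.sub (continuous_const.mul continuous_id)).const_cpow (Or.inl hN0)
    have hc : Continuous (fun s : ℂ => eden N a good s) := by
      unfold eden
      exact (continuous_const.sub (continuous_const.mul hc1)).add (continuous_const.mul hc2)
    exact hc.continuousWithinAt

end MP7ed9c3
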