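import Pool.Agent.Lib.MP_7ed9c3_nt.SpecA

/-!
# MP_7ed9c3_nt: A7, summability over a sparse family
-/

namespace MP7ed9c3

open Filter Topology

lemma Sparse.nonneg {ι : Type} {N : ι → ℕ} {C : ℝ} (h : Sparse N C) : 0 ≤ C := by
  have := (h.2 0).2
  have h0 : (0 : ℝ) ≤ ({i | 2 ^ 0 ≤ N i ∧ N i < 2 ^ (0 + 1)}.ncard : ℝ) := Nat.cast_nonneg _
  have h1 := h0.trans this
  simpa using h1

/-- Sums over finite sets, grouped by dyadic blocks. -/
lemma Sparse.sum_le {ι : Type} {N : ι → ℕ} {C : ℝ} (h : Sparse N C) (f : ι → ℝ) (φ : ℕ → ℝ)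
    (hφ : ∀ k, 0 ≤ φ k) (u : Finset ι) (hf : ∀ i ∈ u, f i ≤ φ (Nat.log 2 (N i))) (k₀ K : ℕ)
    (hu : ∀ i ∈ u, Nat.log 2 (N i) ∈ Finset.Ico k₀ K) :
    ∑ i ∈ u, f i ≤ ∑ k ∈ Finset.Ico k₀ K, C * 2 ^ k * φ k := by
  classical
  rw [← Finset.sum_fiberwise_of_maps_to hu]
  refine Finset.sum_le_sum fun k _ => ?_
  have h1 : ∑ i ∈ u with Nat.log 2 (N i) = k, f i
      ≤ ∑ i ∈ u with Nat.log 2 (N i) = k, φ k := by
    refine Finset.sum_le_sum fun i hi => ?_
    rw [Finset.mem_filter] at hi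
    have := hf i hi.1
    rwa [hi.2] at this
  refine h1.trans ?_
  rw [Finset.sum_const, nsmul_eq_mul]
  refine mul_le_mul_of_nonneg_right ?_ (hφ k)
  have h2 : ((u.filter fun i => Nat.log 2 (N i) = k).card : ℝ)
      ≤ ({i | 2 ^ k ≤ N i ∧ N i < 2 ^ (k + 1)}.ncard : ℝ) := by
    have hsub : ((u.filter fun i => Nat.log 2 (N i) = k : Finset ι) : Set ι)
        ⊆ {i | 2 ^ k ≤ N i ∧ N i < 2 ^ (k + 1)} := by
      intro i hi
      rw [Finset.mem_coe, Finset.mem_filter] at hi
      have hN : N i ≠ 0 := by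
        have := h.1 i
        omega
      refine ⟨?_, ?_⟩
      · rw [← hi.2]
        exact Nat.pow_log_le_self 2 hN
      · rw [← hi.2]
        exact Nat.lt_pow_succ_log_self (by norm_num) _
    have h3 := Set.ncard_le_ncard hsub (h.2 k).1
    rw [Set.ncard_coe_finset] at h3
    exact_mod_cast h3
  refine h2.trans ((h.2 k).2.trans ?_)
  have hC := h.nonneg
  have hk : (1 : ℝ) ≤ (k : ℝ) + 1 := by
    have : (0 : ℝ) ≤ k := Nat.cast_nonneg k
    linarith
  exact div_le_self (by positivity) hk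

lemma pow_log_le' {ι : Type} {N : ι → ℕ} {C : ℝ} (h : Sparse N C) (i : ι) :
    (2 : ℝ) ^ (Nat.log 2 (N i)) ≤ N i := by
  have hN : N i ≠ 0 := by
    have := h.1 i
    omega
  exact_mod_cast Nat.pow_log_le_self 2 hN

theorem sparseSums : SparseSums := by
  intro ι N C h
  have hC := h.nonneg
  refine ⟨?_, ?_, ?_⟩
  · intro x
    have h1 : {i | N i ≤ x} ⊆ ⋃ k ∈ Finset.range (x + 1),
        {i | 2 ^ k ≤ N i ∧ N i < 2 ^ (k + 1)} := by
      intro i hi
      simp only [Set.mem_ofPred_eq] at hi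
      have hN : N i ≠ 0 := by
        have := h.1 i
        omega
      simp only [Set.mem_iUnion, Finset.mem_range, Set.mem_ofPred_eq, exists_prop]
      refine ⟨Nat.log 2 (N i), ?_, Nat.pow_log_le_self 2 hN,
        Nat.lt_pow_succ_log_self (by norm_num) _⟩
      have := Nat.log_le_self 2 (N i)
      omega
    exact ((Finset.range (x + 1)).finite_toSet.biUnion fun k _ => (h.2 k).1).subset h1
  · intro ε hε
    set r : ℝ := (2 : ℝ) ^ (-ε) with hr
    have hr0 : 0 < r := Real.rpow_pos_of_pos (by norm_num) _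
    have hr1 : r < 1 := Real.rpow_lt_one_of_one_lt_of_neg (by norm_num) (by linarith)
    have hs : Summable (fun k : ℕ => C * r ^ k) :=
      (summable_geometric_of_lt_one hr0.le hr1).mul_left C
    refine summable_of_sum_le (c := ∑' k : ℕ, C * r ^ k)
      (fun i => Real.rpow_nonneg (Nat.cast_nonneg _) _) ?_
    intro u
    have h1 := h.sum_le (fun i => (N i : ℝ) ^ (-(1 + ε))) (fun k => ((2 : ℝ) ^ k) ^ (-(1 + ε)))
      (fun k => by positivity) u (fun i _ => by
        refine Real.rpow_le_rpow_of_nonpos (by positivity) (pow_log_le' h i) (by linarith))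
      0 (u.sup (fun i => Nat.log 2 (N i)) + 1) (fun i hi => by
        rw [Finset.mem_Ico]
        have := Finset.le_sup (f := fun i => Nat.log 2 (N i)) hi
        exact ⟨Nat.zero_le _, by omega⟩)
    refine h1.trans ?_
    have h2 : ∀ k : ℕ, C * 2 ^ k * ((2 : ℝ) ^ k) ^ (-(1 + ε)) = C * r ^ k := by
      intro k
      have h3 : ((2 : ℝ) ^ k) ^ (-(1 + ε)) = ((2 : ℝ) ^ k)⁻¹ * r ^ k := by
        rw [neg_add, Real.rpow_add (by positivity), Real.rpow_neg_one, hr,
          ← Real.rpow_natCast, ← Real.rpow_natCast, ← Real.rpow_mul (by norm_num),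
          ← Real.rpow_mul (by norm_num)]
        congr 2
        ring
      rw [h3]
      field_simp
    rw [Finset.sum_congr rfl fun k _ => h2 k]
    exact hs.sum_le_tsum _ fun k _ => by positivity
  · intro x hx
    have hx0 : (0 : ℝ) < x := by exact_mod_cast hx
    refine Real.tsum_le_of_sum_le (fun i => by positivity) ?_
    intro u
    classical
    set k₀ := Nat.log 2 x with hk₀
    have h1 := h.sum_le (fun i => 1 / (N i : ℝ) ^ 2) (fun k => 1 / ((2 : ℝ) ^ k) ^ 2)
      (fun k => by positivity) (u.map (Function.Embedding.subtype _)) (fun i _ => by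
        refine one_div_le_one_div_of_le (by positivity) ?_
        exact pow_le_pow_left₀ (by positivity) (pow_log_le' h i) 2)
      k₀ ((u.map (Function.Embedding.subtype _)).sup (fun i => Nat.log 2 (N i)) + 1)
      (fun i hi => by
        rw [Finset.mem_Ico]
        have h2 := Finset.le_sup (f := fun i => Nat.log 2 (N i)) hi
        refine ⟨?_, by omega⟩
        rw [Finset.mem_map] at hi
        obtain ⟨⟨j, hj⟩, _, hji⟩ := hi
        have hji' : j = i := hji
        subst hji'
        exact Nat.log_mono_right hj.le)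
    rw [Finset.sum_map] at h1
    refine h1.trans ?_
    have h2 : ∀ k : ℕ, C * 2 ^ k * (1 / ((2 : ℝ) ^ k) ^ 2) = C * (1 / 2) ^ k := by
      intro k
      rw [one_div_pow]
      field_simp
    rw [Finset.sum_congr rfl fun k _ => h2 k, Finset.sum_Ico_eq_sum_range]
    have h3 : ∀ k ∈ Finset.range ((u.map (Function.Embedding.subtype _)).sup
        (fun i => Nat.log 2 (N i)) + 1 - k₀),
        C * (1 / 2 : ℝ) ^ (k₀ + k) = C * (1 / 2) ^ k₀ * (1 / 2) ^ k := by
      intro k _
      rw [pow_add]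
      ring
    rw [Finset.sum_congr rfl h3, ← Finset.mul_sum]
    have h4 : ∑ k ∈ Finset.range ((u.map (Function.Embedding.subtype _)).sup
        (fun i => Nat.log 2 (N i)) + 1 - k₀), (1 / 2 : ℝ) ^ k ≤ 2 := by
      refine ((summable_geometric_two).sum_le_tsum _ fun k _ => by positivity).trans ?_
      rw [tsum_geometric_two]
    have h5 : (1 / 2 : ℝ) ^ k₀ ≤ 2 / x := by
      have h6 : (x : ℝ) < 2 ^ (k₀ + 1) := by
        exact_mod_cast Nat.lt_pow_succ_log_self (by norm_num) x
      rw [one_div_pow, div_le_div_iff₀ (by positivity) hx0]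
      rw [pow_succ] at h6
      linarith
    calc C * (1 / 2) ^ k₀ * ∑ k ∈ Finset.range ((u.map (Function.Embedding.subtype _)).sup
          (fun i => Nat.log 2 (N i)) + 1 - k₀), (1 / 2 : ℝ) ^ k
        ≤ C * (1 / 2) ^ k₀ * 2 := mul_le_mul_of_nonneg_left h4 (by positivity)
      _ ≤ C * (2 / x) * 2 := by
          refine mul_le_mul_of_nonneg_right (mul_le_mul_of_nonneg_left h5 hC) (by norm_num)
      _ = 4 * C / x := by ring

end MP7ed9c3
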