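import Pool.Agent.Lib.MP_7ed9c3_nt.SpecA

/-!
# A8: grouping by norm
-/

namespace MP7ed9c3

open Filter Topology MeasureTheory

theorem group (h : SparseSums) : Group := by
  intro ι N a C A hS hA ha
  classical
  obtain ⟨h1, h2, -⟩ := h ι N C hS
  have hfin : ∀ n, {i | N i = n}.Finite := fun n =>
    (h1 n).subset (fun i hi => le_of_eq hi)
  set F : ℕ → Finset ι := fun n => (hfin n).toFinset with hF
  have hmem : ∀ n i, i ∈ F n ↔ N i = n := by
    intro n i
    simp [hF]
  set c : ℕ → ℂ := fun n => (∑ i ∈ F n, (a i : ℂ)) * (n : ℂ) ^ (-(3 / 2 : ℂ)) with hc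
  have hN0 : ∀ i, (N i : ℂ) ≠ 0 := by
    intro i
    have := hS.1 i
    exact_mod_cast (by omega : N i ≠ 0)
  have hc0 : c 0 = 0 := by
    have : F 0 = ∅ := by
      apply Finset.eq_empty_of_forall_notMem
      intro i hi
      have h3 := (hmem 0 i).1 hi
      have := hS.1 i
      omega
    simp [hc, this]
  refine ⟨c, hc0, ?_, ?_, ?_⟩
  · intro k
    have hn : ∀ n ∈ Finset.Ico (2 ^ k) (2 ^ (k + 1)), ‖c n‖ ≤ (F n).card * (A / 2 ^ k) := by
      intro n hn
      have hn1 : 2 ^ k ≤ n := (Finset.mem_Ico.1 hn).1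
      have hnpos : 0 < n := lt_of_lt_of_le (by positivity) hn1
      have hnR : (0 : ℝ) < n := by exact_mod_cast hnpos
      have e1 : ‖(n : ℂ) ^ (-(3 / 2 : ℂ))‖ = (n : ℝ) ^ (-(3 / 2) : ℝ) := by
        rw [Complex.norm_natCast_cpow_of_pos hnpos]
        norm_num
      have e2 : ‖∑ i ∈ F n, (a i : ℂ)‖ ≤ (F n).card * (A * √(n : ℝ)) := by
        refine (norm_sum_le _ _).trans ?_
        rw [← nsmul_eq_mul]
        refine Finset.sum_le_card_nsmul _ _ _ ?_
        intro i hi
        have h3 := (hmem n i).1 hi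
        have h4 := ha i
        rw [h3] at h4
        have h5 : ‖(a i : ℂ)‖ = |(a i : ℝ)| := by
          rw [Complex.norm_intCast]
        rw [h5]
        exact h4
      have e3 : √(n : ℝ) * (n : ℝ) ^ (-(3 / 2) : ℝ) = 1 / n := by
        rw [Real.sqrt_eq_rpow, ← Real.rpow_add hnR]
        norm_num
        rw [Real.rpow_neg_one]
      have e4 : (1 : ℝ) / n ≤ 1 / 2 ^ k := by
        apply one_div_le_one_div_of_le (by positivity)
        exact_mod_cast hn1
      simp only [hc]
      rw [norm_mul, e1]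
      calc ‖∑ i ∈ F n, (a i : ℂ)‖ * (n : ℝ) ^ (-(3 / 2) : ℝ)
          ≤ ((F n).card * (A * √(n : ℝ))) * (n : ℝ) ^ (-(3 / 2) : ℝ) :=
            mul_le_mul_of_nonneg_right e2 (by positivity)
        _ = (F n).card * (A * (1 / n)) := by rw [← e3]; ring
        _ ≤ (F n).card * (A * (1 / 2 ^ k)) := by
            apply mul_le_mul_of_nonneg_left _ (by positivity)
            exact mul_le_mul_of_nonneg_left e4 hA
        _ = (F n).card * (A / 2 ^ k) := by ring
    refine (Finset.sum_le_sum hn).trans ?_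
    rw [← Finset.sum_mul]
    obtain ⟨hbf, hbc⟩ := hS.2 k
    have hcard : ((∑ n ∈ Finset.Ico (2 ^ k) (2 ^ (k + 1)), ((F n).card : ℝ))) =
        ({i | 2 ^ k ≤ N i ∧ N i < 2 ^ (k + 1)}.ncard : ℝ) := by
      have h3 : {i | 2 ^ k ≤ N i ∧ N i < 2 ^ (k + 1)}.ncard =
          ∑ n ∈ Finset.Ico (2 ^ k) (2 ^ (k + 1)), (F n).card := by
        rw [Set.ncard_eq_toFinset_card _ hbf]
        rw [Finset.card_eq_sum_card_fiberwise (f := N) (t := Finset.Ico (2 ^ k) (2 ^ (k + 1)))]
        · apply Finset.sum_congr rfl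
          intro n hn
          congr 1
          ext i
          simp only [Finset.mem_filter, Set.Finite.mem_toFinset, Set.mem_ofPred_eq, hmem]
          constructor
          · rintro ⟨_, h4⟩; exact h4
          · intro h4
            rw [Finset.mem_Ico] at hn
            exact ⟨by rw [h4]; exact hn, h4⟩
        · intro i hi
          simpa using hi
      rw [h3]
      push_cast
      rfl
    rw [hcard]
    calc ({i | 2 ^ k ≤ N i ∧ N i < 2 ^ (k + 1)}.ncard : ℝ) * (A / 2 ^ k)
        ≤ (C * 2 ^ k / (k + 1)) * (A / 2 ^ k) := mul_le_mul_of_nonneg_right hbc (by positivity)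
      _ = C * A / (k + 1) := by
          field_simp
  · intro t x
    have e1 : ∑ᶠ i ∈ {i | N i ≤ x}, (a i : ℂ) * (N i : ℂ) ^ (-(3 / 2 + t * Complex.I)) =
        ∑ i ∈ (h1 x).toFinset, (a i : ℂ) * (N i : ℂ) ^ (-(3 / 2 + t * Complex.I)) :=
      finsum_mem_eq_finite_toFinset_sum _ (h1 x)
    rw [e1]
    unfold dir
    have hmaps : ∀ i ∈ (h1 x).toFinset, N i ∈ Finset.Icc 1 x := by
      intro i hi
      have h3 : N i ≤ x := by simpa using hi
      have := hS.1 i
      rw [Finset.mem_Icc]
      omega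
    rw [← Finset.sum_fiberwise_of_maps_to hmaps]
    apply Finset.sum_congr rfl
    intro n hn
    rw [Finset.mem_Icc] at hn
    have hn0 : (n : ℂ) ≠ 0 := by
      exact_mod_cast (by omega : n ≠ 0)
    have hfil : (h1 x).toFinset.filter (fun i => N i = n) = F n := by
      ext i
      simp only [Finset.mem_filter, Set.Finite.mem_toFinset, Set.mem_ofPred_eq, hmem]
      constructor
      · rintro ⟨_, h4⟩; exact h4
      · intro h4
        exact ⟨by omega, h4⟩
    rw [hfil]
    simp only [hc]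
    rw [Finset.sum_mul, Finset.sum_mul]
    apply Finset.sum_congr rfl
    intro i hi
    rw [(hmem n i).1 hi]
    have e2 : (-(3 / 2 + t * Complex.I) : ℂ) = -(3 / 2) + -(t : ℂ) * Complex.I := by ring
    rw [e2, Complex.cpow_add _ _ hn0]
    ring
  · intro s hs
    have hsum : Summable (fun i => (a i : ℂ) * (N i : ℂ) ^ (-s)) := by
      have h3 := (h2 (s.re - 3 / 2) (by linarith)).mul_left A
      refine Summable.of_norm_bounded h3 ?_
      intro i
      have hNpos : 0 < N i := by have := hS.1 i; omega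
      have hNR : (0 : ℝ) < N i := by exact_mod_cast hNpos
      rw [norm_mul, Complex.norm_natCast_cpow_of_pos hNpos, Complex.norm_intCast, Complex.neg_re]
      have e3 : √(N i : ℝ) * (N i : ℝ) ^ (-s.re) = (N i : ℝ) ^ (-(1 + (s.re - 3 / 2))) := by
        rw [Real.sqrt_eq_rpow, ← Real.rpow_add hNR]
        congr 1
        ring
      calc |(a i : ℝ)| * (N i : ℝ) ^ (-s.re) ≤ (A * √(N i)) * (N i : ℝ) ^ (-s.re) :=
            mul_le_mul_of_nonneg_right (ha i) (by positivity)
        _ = A * (N i : ℝ) ^ (-(1 + (s.re - 3 / 2))) := by rw [← e3]; ring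
    have hfib : ∀ n : ℕ, HasSum (fun i : {i // N i = n} =>
        (a i : ℂ) * (N i : ℂ) ^ (-s)) (c n * (n : ℂ) ^ (-(s - 3 / 2))) := by
      intro n
      have h3 : HasSum (fun i : {i // N i = n} => (a i : ℂ) * (N i : ℂ) ^ (-s))
          (∑ i ∈ F n, (a i : ℂ) * (N i : ℂ) ^ (-s)) := by
        set g : ι → ℂ := fun i => (a i : ℂ) * (N i : ℂ) ^ (-s) with hg
        set T : Set ι := {i | N i = n} with hT
        have h4 : HasSum (T.indicator g) (∑ i ∈ F n, T.indicator g i) := by
          apply hasSum_sum_of_ne_finset_zero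
          intro i hi
          have h5 : i ∉ T := fun h5 => hi ((hmem n i).2 h5)
          exact Set.indicator_of_notMem h5 g
        have h5 : ∑ i ∈ F n, T.indicator g i = ∑ i ∈ F n, g i := by
          apply Finset.sum_congr rfl
          intro i hi
          have h6 : i ∈ T := (hmem n i).1 hi
          exact Set.indicator_of_mem h6 g
        rw [h5] at h4
        exact (hasSum_subtype_iff_indicator (s := T)).2 h4
      have h6 : ∑ i ∈ F n, (a i : ℂ) * (N i : ℂ) ^ (-s) = c n * (n : ℂ) ^ (-(s - 3 / 2)) := by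
        simp only [hc]
        rw [Finset.sum_mul, Finset.sum_mul]
        apply Finset.sum_congr rfl
        intro i hi
        have h7 := (hmem n i).1 hi
        have hn0 : (n : ℂ) ≠ 0 := by rw [← h7]; exact hN0 i
        rw [h7]
        have e2 : (-s : ℂ) = -(3 / 2) + -(s - 3 / 2) := by ring
        rw [e2, Complex.cpow_add _ _ hn0]
        ring_nf
      rw [← h6]
      exact h3
    have hsig : HasSum (fun n : ℕ => c n * (n : ℂ) ^ (-(s - 3 / 2)))
        (∑' i, (a i : ℂ) * (N i : ℂ) ^ (-s)) := by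
      have h8 : HasSum ((fun i => (a i : ℂ) * (N i : ℂ) ^ (-s)) ∘ (Equiv.sigmaFiberEquiv N))
          (∑' i, (a i : ℂ) * (N i : ℂ) ^ (-s)) :=
        (Equiv.hasSum_iff (Equiv.sigmaFiberEquiv N)).2 hsum.hasSum
      exact h8.sigma hfib
    exact ⟨hsum, hsig.summable, hsig.tsum_eq.symm⟩

end MP7ed9c3
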