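import Pool.Agent.Lib.MP_7ed9c3_nt.SpecA

/-!
# A9: convergence of a degree two Euler product on the boundary
-/

set_option linter.unusedSectionVars false

namespace MP7ed9c3

open Filter Topology MeasureTheory

section

variable {ι : Type}

/-- The error term of the logarithm of an Euler factor. -/
noncomputable def a9E (N : ι → ℕ) (a : ι → ℤ) (good : ι → Prop) [∀ i, Decidable (good i)]
    (i : ι) (s : ℂ) : ℂ :=
  -Complex.log (eden (N i) (a i) (good i) s) - (a i : ℂ) * (N i : ℂ) ^ (-s)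

theorem a9_summable (h7 : SparseSums) {N : ι → ℕ} {C : ℝ} (hN : Sparse N C) (C₁ : ℝ) :
    Summable (fun i => C₁ / (N i : ℝ) ^ 2) := by
  obtain ⟨_, h2, _⟩ := h7 ι N C hN
  have h3 := (h2 1 one_pos).mul_left C₁
  refine h3.congr fun i => ?_
  rw [show (-(1 + 1) : ℝ) = -((2 : ℕ) : ℝ) by norm_num, Real.rpow_neg (Nat.cast_nonneg _),
    Real.rpow_natCast, div_eq_mul_inv]

theorem a9_tail (h7 : SparseSums) {N : ι → ℕ} {C : ℝ} (hN : Sparse N C) {C₁ : ℝ}
    (hC₁ : 0 ≤ C₁) (E : ι → ℂ) (hE : ∀ i, ‖E i‖ ≤ C₁ / (N i : ℝ) ^ 2) (x : ℕ) (hx : 1 ≤ x)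
    (F : Finset ι) (hF : ∀ i, i ∈ F ↔ N i ≤ x) :
    ‖(∑ i ∈ F, E i) - ∑' i, E i‖ ≤ C₁ * (4 * C / x) := by
  have hs := a9_summable h7 hN C₁
  have hEs : Summable E := Summable.of_norm_bounded hs hE
  have h1 := hEs.sum_add_tsum_subtype_compl F
  have h2 : (∑ i ∈ F, E i) - ∑' i, E i = -∑' i : {i // i ∉ F}, E i := by
    rw [← h1]; ring
  rw [h2, norm_neg]
  have h3 : ∀ (p q : ι → Prop), (∀ i, p i ↔ q i) → ∑' i : {i // p i}, E i = ∑' i : {i // q i}, E i := by
    intro p q hpq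
    have : p = q := funext fun i => propext (hpq i)
    subst this
    rfl
  rw [h3 (fun i => i ∉ F) (fun i => x < N i) (fun i => by rw [hF, not_le])]
  have hs' : Summable (fun i : {i // x < N i} => C₁ * (1 / (N i : ℝ) ^ 2)) := by
    have := hs.subtype {i | x < N i}
    refine this.congr fun i => ?_
    show C₁ / (N i : ℝ) ^ 2 = _
    rw [mul_one_div]
  have h4 : ‖∑' i : {i // x < N i}, E i‖ ≤ ∑' i : {i // x < N i}, C₁ * (1 / (N i : ℝ) ^ 2) := by
    refine tsum_of_norm_bounded hs'.hasSum fun i => ?_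
    rw [mul_one_div]
    exact hE i
  refine h4.trans ?_
  rw [tsum_mul_left]
  exact mul_le_mul_of_nonneg_left ((h7 ι N C hN).2.2 x hx) hC₁

theorem a9_exp (δ : ℂ) : ‖Complex.exp δ - 1‖ ≤ ‖δ‖ * Real.exp ‖δ‖ := by
  have := Complex.norm_exp_sub_sum_le_norm_mul_exp δ 1
  simpa using this

theorem a9_inv_le {θ : ℝ} (hθ : 0 < θ) (hθ1 : θ ≤ 1) (x : ℕ) (hx : 2 ≤ x) :
    1 / (x : ℝ) ≤ Real.log x ^ (-θ) := by
  have hx' : (2 : ℝ) ≤ x := by exact_mod_cast hx
  have hlog : 0 < Real.log x := Real.log_pos (by linarith)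
  rw [Real.rpow_neg hlog.le, one_div]
  refine inv_anti₀ (Real.rpow_pos_of_pos hlog θ) ?_
  by_cases h : Real.log x ≤ 1
  · exact (Real.rpow_le_one hlog.le h hθ.le).trans (by linarith)
  · push Not at h
    calc Real.log x ^ θ ≤ Real.log x ^ (1 : ℝ) := Real.rpow_le_rpow_of_exponent_le h.le hθ1
      _ = Real.log x := Real.rpow_one _
      _ ≤ x := (Real.log_le_sub_one_of_pos (by linarith)).trans (by linarith)

end

/-- **A9.** -/
theorem eulerAbs (h4 : PartialSums) (h5 : AbelStolz) (h6 : EulerLog) (h7 : SparseSums)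
    (h8 : Group) : EulerAbs := by
  intro ι N a good _ C A hN haN haA θ hθ
  by_cases hθ2 : 1 / 2 ≤ θ
  · refine ⟨Set.univ, ?_, fun t ht => absurd (Set.mem_univ t) ht⟩
    rw [Real.dimH_univ, ← ENNReal.ofReal_one]
    exact ENNReal.ofReal_le_ofReal (by linarith)
  push Not at hθ2
  have hθ1 : θ ≤ 1 := by linarith
  have hC : 0 ≤ C := by
    have := (hN.2 0).2
    have h0 : (0 : ℝ) ≤ ({i | 2 ^ 0 ≤ N i ∧ N i < 2 ^ (0 + 1)}.ncard : ℝ) := Nat.cast_nonneg _
    have h1 := h0.trans this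
    simpa using h1
  have hA' : ∀ i, |(a i : ℝ)| ≤ |A| * √(N i) := fun i =>
    (haA i).trans (mul_le_mul_of_nonneg_right (le_abs_self A) (Real.sqrt_nonneg _))
  obtain ⟨c, hc0, hcB, hcP, hcS⟩ := h8 ι N a C |A| hN (abs_nonneg A) hA'
  obtain ⟨Z, hZ, hZt⟩ := h4 c (C * |A|) θ hcB hθ
  refine ⟨Z, hZ, fun t ht => ?_⟩
  obtain ⟨S, C', hS⟩ := hZt t ht
  set s₀ : ℂ := 3 / 2 + t * Complex.I with hs₀
  have hs₀re : s₀.re = 3 / 2 := by simp [hs₀]
  have hs₀im : s₀.im = t := by simp [hs₀]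
  set C₁ : ℝ := 12 * (|A| + 1 / 2) ^ 2 + 1 with hC₁
  have hC₁0 : 0 ≤ C₁ := by positivity
  have hlog : ∀ i (s : ℂ), 3 / 2 ≤ s.re → eden (N i) (a i) (good i) s ≠ 0 ∧
      ‖a9E N a good i s‖ ≤ C₁ / (N i : ℝ) ^ 2 := fun i s hs =>
    (h6 (N i) (a i) (good i) |A| (hN.1 i) (haN i) (hA' i)).1 s hs
  have hlogc : ∀ i, ContinuousOn (fun s : ℂ => Complex.log (eden (N i) (a i) (good i) s))
      {s | 3 / 2 ≤ s.re} := fun i => (h6 (N i) (a i) (good i) |A| (hN.1 i) (haN i) (hA' i)).2
  have hsum := a9_summable h7 hN C₁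
  have hEsum : ∀ s : ℂ, 3 / 2 ≤ s.re → Summable (fun i => a9E N a good i s) := fun s hs =>
    Summable.of_norm_bounded hsum fun i => (hlog i s hs).2
  set T : ℂ := S + ∑' i, a9E N a good i s₀ with hT
  refine ⟨Complex.exp T, Complex.exp_ne_zero T, ?_, ?_⟩
  · -- finite products
    set D : ℝ := C' + C₁ * (4 * C) with hD
    set L₂ : ℝ := Real.log 2 ^ (-θ) with hL₂
    refine ⟨‖Complex.exp T‖ * (D * Real.exp (D * L₂)), fun x hx => ?_⟩
    have hx' : (2 : ℝ) ≤ x := by exact_mod_cast hx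
    have hlogx : 0 < Real.log x := Real.log_pos (by linarith)
    have hLpos : 0 < Real.log x ^ (-θ) := Real.rpow_pos_of_pos hlogx _
    have hC'0 : 0 ≤ C' := by
      by_contra hneg
      push Not at hneg
      have h1 := (norm_nonneg _).trans (hS x hx)
      have h2 : C' * Real.log x ^ (-θ) < 0 := mul_neg_of_neg_of_pos hneg hLpos
      linarith
    have hD0 : 0 ≤ D := by positivity
    have hfin := (h7 ι N C hN).1 x
    set F : Finset ι := hfin.toFinset with hF
    have hFm : ∀ i, i ∈ F ↔ N i ≤ x := fun i => by rw [hF, Set.Finite.mem_toFinset]; rfl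
    have hp1 : ∏ᶠ i ∈ {i | N i ≤ x}, (eden (N i) (a i) (good i) s₀)⁻¹ =
        ∏ i ∈ F, (eden (N i) (a i) (good i) s₀)⁻¹ := finprod_mem_eq_finite_toFinset_prod _ hfin
    have hsum1 : ∑ i ∈ F, (a i : ℂ) * (N i : ℂ) ^ (-s₀) = dir c (Finset.Icc 1 x) t := by
      rw [← hcP t x]
      exact (finsum_mem_eq_finite_toFinset_sum _ hfin).symm
    have hp2 : ∏ i ∈ F, (eden (N i) (a i) (good i) s₀)⁻¹ =
        Complex.exp (dir c (Finset.Icc 1 x) t + ∑ i ∈ F, a9E N a good i s₀) := by
      rw [← hsum1, ← Finset.sum_add_distrib, Complex.exp_sum]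
      refine Finset.prod_congr rfl fun i _ => ?_
      have h1 : (a i : ℂ) * (N i : ℂ) ^ (-s₀) + a9E N a good i s₀ =
          -Complex.log (eden (N i) (a i) (good i) s₀) := by
        rw [a9E]; ring
      rw [h1, Complex.exp_neg, Complex.exp_log (hlog i s₀ hs₀re.ge).1]
    set δ : ℂ := (dir c (Finset.Icc 1 x) t - S) +
      ((∑ i ∈ F, a9E N a good i s₀) - ∑' i, a9E N a good i s₀) with hδ
    have hδT : dir c (Finset.Icc 1 x) t + ∑ i ∈ F, a9E N a good i s₀ = T + δ := by
      rw [hδ, hT]; ring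
    have hδn : ‖δ‖ ≤ D * Real.log x ^ (-θ) := by
      have h1 := hS x hx
      have h2 := a9_tail h7 hN hC₁0 (fun i => a9E N a good i s₀)
        (fun i => (hlog i s₀ hs₀re.ge).2) x (by omega) F hFm
      have h3 : C₁ * (4 * C / x) ≤ C₁ * (4 * C) * Real.log x ^ (-θ) := by
        have h4 := a9_inv_le hθ hθ1 x hx
        have h5 : C₁ * (4 * C / x) = C₁ * (4 * C) * (1 / (x : ℝ)) := by ring
        rw [h5]
        exact mul_le_mul_of_nonneg_left h4 (by positivity)
      calc ‖δ‖ ≤ _ := norm_add_le _ _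
        _ ≤ C' * Real.log x ^ (-θ) + C₁ * (4 * C) * Real.log x ^ (-θ) :=
          add_le_add h1 (h2.trans h3)
        _ = D * Real.log x ^ (-θ) := by rw [hD]; ring
    have hL : Real.log x ^ (-θ) ≤ L₂ := by
      rw [hL₂]
      exact Real.rpow_le_rpow_of_nonpos (Real.log_pos one_lt_two)
        (Real.log_le_log two_pos hx') (by linarith)
    have hδ2 : ‖δ‖ ≤ D * L₂ := hδn.trans (mul_le_mul_of_nonneg_left hL hD0)
    rw [hp1, hp2, hδT, Complex.exp_add]
    have h6 : Complex.exp T * Complex.exp δ - Complex.exp T =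
        Complex.exp T * (Complex.exp δ - 1) := by ring
    rw [h6, norm_mul, mul_assoc]
    refine mul_le_mul_of_nonneg_left ?_ (norm_nonneg _)
    refine (a9_exp δ).trans ?_
    calc ‖δ‖ * Real.exp ‖δ‖ ≤ (D * Real.log x ^ (-θ)) * Real.exp (D * L₂) :=
          mul_le_mul hδn (Real.exp_le_exp.2 hδ2) (Real.exp_pos _).le (by positivity)
      _ = D * Real.exp (D * L₂) * Real.log x ^ (-θ) := by ring
  · -- the limit in Stolz angles
    intro κ
    -- the main term
    set d : ℕ → ℂ := fun n => c n * (n : ℂ) ^ (-(t : ℂ) * Complex.I) with hd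
    have hd0 : d 0 = 0 := by rw [hd]; simp [hc0]
    have hdS : Tendsto (fun x : ℕ => ∑ n ∈ Finset.Icc 1 x, d n) atTop (𝓝 S) := by
      rw [tendsto_iff_norm_sub_tendsto_zero]
      have h1 : Tendsto (fun x : ℕ => C' * Real.log x ^ (-θ)) atTop (𝓝 0) := by
        have h2 : Tendsto (fun x : ℕ => Real.log (x : ℝ)) atTop atTop :=
          Real.tendsto_log_atTop.comp tendsto_natCast_atTop_atTop
        have h3 := ((tendsto_rpow_neg_atTop hθ).comp h2).const_mul C'
        simpa using h3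
      refine squeeze_zero' (Eventually.of_forall fun x => norm_nonneg _) ?_ h1
      filter_upwards [eventually_ge_atTop 2] with x hx
      exact hS x hx
    have hdz : ∀ (z : ℂ) (n : ℕ), d n * (n : ℂ) ^ (-z) = c n * (n : ℂ) ^ (-(s₀ + z - 3 / 2)) := by
      intro z n
      rcases Nat.eq_zero_or_pos n with h | h
      · rw [h, hd0, hc0]; simp
      · have hn : (n : ℂ) ≠ 0 := by exact_mod_cast h.ne'
        rw [hd]
        simp only
        rw [mul_assoc, ← Complex.cpow_add _ _ hn]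
        congr 2
        rw [hs₀]; ring
    have hsm : ∀ z : ℂ, 0 < z.re → Summable (fun n : ℕ => d n * (n : ℂ) ^ (-z)) := by
      intro z hz
      have h1 := (hcS (s₀ + z) (by rw [Complex.add_re, hs₀re]; linarith)).2.1
      exact h1.congr fun n => (hdz z n).symm
    have hAb := h5 d S hd0 hdS hsm κ
    have hmap : Tendsto (fun s : ℂ => s - s₀) (𝓝[stolz t κ] s₀)
        (𝓝[{z : ℂ | 0 < z.re ∧ |z.im| ≤ κ * z.re}] 0) := by
      refine tendsto_nhdsWithin_iff.2 ⟨?_, ?_⟩
      · have h1 : Tendsto (fun s : ℂ => s - s₀) (𝓝 s₀) (𝓝 (s₀ - s₀)) :=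
          (continuous_id.sub continuous_const).tendsto s₀
        rw [sub_self] at h1
        exact h1.mono_left nhdsWithin_le_nhds
      · filter_upwards [self_mem_nhdsWithin] with s hs
        obtain ⟨hs1, hs2⟩ := hs
        refine ⟨?_, ?_⟩
        · rw [Complex.sub_re, hs₀re]; linarith
        · rw [Complex.sub_re, Complex.sub_im, hs₀re, hs₀im]; exact hs2
    have hmain : Tendsto (fun s : ℂ => ∑' i, (a i : ℂ) * (N i : ℂ) ^ (-s))
        (𝓝[stolz t κ] s₀) (𝓝 S) := by
      refine (hAb.comp hmap).congr' ?_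
      filter_upwards [self_mem_nhdsWithin] with s hs
      rw [(hcS s hs.1).2.2]
      refine tsum_congr fun n => ?_
      rw [hdz, add_sub_cancel]
    -- the error term
    have hst : stolz t κ ⊆ {s : ℂ | 3 / 2 ≤ s.re} := fun s hs => hs.1.le
    have herr : Tendsto (fun s : ℂ => ∑' i, a9E N a good i s) (𝓝[stolz t κ] s₀)
        (𝓝 (∑' i, a9E N a good i s₀)) := by
      refine tendsto_tsum_of_dominated_convergence hsum ?_ ?_
      · intro i
        have h1 : ContinuousWithinAt (fun s : ℂ => Complex.log (eden (N i) (a i) (good i) s))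
            (stolz t κ) s₀ := (hlogc i s₀ hs₀re.ge).mono hst
        have hNi : (N i : ℂ) ≠ 0 := by
          have := hN.1 i
          exact_mod_cast (by omega : N i ≠ 0)
        have h2 : ContinuousWithinAt (fun s : ℂ => (a i : ℂ) * (N i : ℂ) ^ (-s))
            (stolz t κ) s₀ := by
          refine Continuous.continuousWithinAt ?_
          exact continuous_const.mul (continuous_neg.const_cpow (Or.inl hNi))
        exact h1.neg.sub h2
      · filter_upwards [self_mem_nhdsWithin] with s hs i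
        exact (hlog i s (hst hs)).2
    have hexp : Tendsto (fun s : ℂ => Complex.exp ((∑' i, (a i : ℂ) * (N i : ℂ) ^ (-s)) +
        ∑' i, a9E N a good i s)) (𝓝[stolz t κ] s₀) (𝓝 (Complex.exp T)) :=
      (Complex.continuous_exp.tendsto T).comp (hmain.add herr)
    refine hexp.congr' ?_
    filter_upwards [self_mem_nhdsWithin] with s hs
    have hA : Summable (fun i => (a i : ℂ) * (N i : ℂ) ^ (-s)) := (hcS s hs.1).1
    have hE := hEsum s (hst hs)
    have hhs := hA.hasSum.add hE.hasSum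
    have hfun : (fun i => (a i : ℂ) * (N i : ℂ) ^ (-s) + a9E N a good i s) =
        fun i => -Complex.log (eden (N i) (a i) (good i) s) := by
      funext i
      rw [a9E]; ring
    rw [hfun] at hhs
    have hprod := hhs.cexp
    have hfun2 : (Complex.exp ∘ fun i => -Complex.log (eden (N i) (a i) (good i) s)) =
        fun i => (eden (N i) (a i) (good i) s)⁻¹ := by
      funext i
      simp only [Function.comp_apply]
      rw [Complex.exp_neg, Complex.exp_log (hlog i s (hst hs)).1]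
    rw [hfun2] at hprod
    exact hprod.tprod_eq.symm

end MP7ed9c3
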