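import Pool.Agent.Lib.MP_7ed9c3_nt.SpecH

/-!
# MP_7ed9c3_nt: the Hasse bound for a general Weierstrass equation, and the trivial bound
-/

namespace MP7ed9c3

/-- H10. -/
theorem hasse (h1 : ShortForm) (h9 : HasseShort) : Hasse := by
  intro F _ _ W h2 h3 hΔ
  obtain ⟨hc, hd⟩ := h1 F W h2 h3
  rw [hc]
  apply h9 F _ _ h2
  rw [hd]
  have h16 : (16 : F) ≠ 0 := by
    have : (16 : F) = 2 ^ 4 := by norm_num
    rw [this]
    exact pow_ne_zero 4 h2
  exact neg_ne_zero.mpr (div_ne_zero hΔ h16)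

/-- There are at most two solutions over every abscissa. -/
theorem affCount_le (F : Type) [Field F] [Finite F] (W : WeierstrassCurve F) :
    affCount W ≤ 2 * Nat.card F := by
  classical
  let y0 : F → F := fun x =>
    if h : ∃ y : F, y ^ 2 + W.a₁ * x * y + W.a₃ * y = x ^ 3 + W.a₂ * x ^ 2 + W.a₄ * x + W.a₆
    then h.choose else 0
  let f : {p : F × F // p.2 ^ 2 + W.a₁ * p.1 * p.2 + W.a₃ * p.2
      = p.1 ^ 3 + W.a₂ * p.1 ^ 2 + W.a₄ * p.1 + W.a₆} → F × Bool :=
    fun p => (p.1.1, decide (p.1.2 = y0 p.1.1))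
  have hf : Function.Injective f := by
    rintro ⟨⟨x, y⟩, h⟩ ⟨⟨x', y'⟩, h'⟩ heq
    simp only [f, Prod.mk.injEq, decide_eq_decide] at heq
    obtain ⟨rfl, hiff⟩ := heq
    simp only at h h'
    have hex : ∃ y : F, y ^ 2 + W.a₁ * x * y + W.a₃ * y
        = x ^ 3 + W.a₂ * x ^ 2 + W.a₄ * x + W.a₆ := ⟨y, h⟩
    have h0 : (y0 x) ^ 2 + W.a₁ * x * (y0 x) + W.a₃ * (y0 x)
        = x ^ 3 + W.a₂ * x ^ 2 + W.a₄ * x + W.a₆ := by
      have e : y0 x = hex.choose := dif_pos hex
      rw [e]
      exact hex.choose_spec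
    have hyy : y = y' := by
      by_cases hy : y = y0 x
      · rw [hy, hiff.mp hy]
      · have hy' : y' ≠ y0 x := fun e => hy (hiff.mpr e)
        have e1 : (y - y0 x) * (y + y0 x + W.a₁ * x + W.a₃) = 0 := by
          linear_combination h - h0
        have e2 : (y' - y0 x) * (y' + y0 x + W.a₁ * x + W.a₃) = 0 := by
          linear_combination h' - h0
        have e3 := (mul_eq_zero.mp e1).resolve_left (sub_ne_zero.mpr hy)
        have e4 := (mul_eq_zero.mp e2).resolve_left (sub_ne_zero.mpr hy')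
        linear_combination e3 - e4
    subst hyy
    rfl
  calc affCount W ≤ Nat.card (F × Bool) := Nat.card_le_card_of_injective f hf
    _ = 2 * Nat.card F := by
      rw [Nat.card_prod, Nat.card_eq_fintype_card (α := Bool), Fintype.card_bool, mul_comm]

/-- H11. -/
theorem trivialBound : Trivial := by
  intro F _ _ W
  have h := affCount_le F W
  rw [abs_le]
  constructor
  · have : (affCount W : ℤ) ≤ 2 * (Nat.card F : ℤ) := by exact_mod_cast h
    linarith
  · have : (0 : ℤ) ≤ (affCount W : ℤ) := by positivity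
    linarith

end MP7ed9c3
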