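import Pool.Agent.Lib.MP_7ed9c3_nt.SpecH

/-!
# H2: addition and subtraction of abscissae
-/

set_option autoImplicit false

namespace MP7ed9c3

open WeierstrassCurve WeierstrassCurve.Affine WeierstrassCurve.Affine.Point

section

variable {K : Type} [Field K] {W : WeierstrassCurve K}

private lemma H2_ev (h1 : W.a₁ = 0) (h2 : W.a₂ = 0) (h3 : W.a₃ = 0) (s t u : K) :
    MvPolynomial.eval ![s, t, u] (W.addSubMap 0) =
        s ^ 2 - 2 * W.a₄ * s * u - 4 * W.a₆ * t * u + W.a₄ ^ 2 * u ^ 2 ∧
      MvPolynomial.eval ![s, t, u] (W.addSubMap 1) =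
        2 * t * s + 2 * W.a₄ * t * u + 4 * W.a₆ * u ^ 2 ∧
      MvPolynomial.eval ![s, t, u] (W.addSubMap 2) = t ^ 2 - 4 * s * u := by
  refine ⟨?_, ?_, ?_⟩ <;>
    simp [WeierstrassCurve.addSubMap, WeierstrassCurve.b₂, WeierstrassCurve.b₄,
      WeierstrassCurve.b₆, WeierstrassCurve.b₈, h1, h2, h3]

private lemma H2_of (h1 : W.a₁ = 0) (h2 : W.a₂ = 0) (h3 : W.a₃ = 0) {s t u s' t' u' c : K}
    (e0 : s ^ 2 - 2 * W.a₄ * s * u - 4 * W.a₆ * t * u + W.a₄ ^ 2 * u ^ 2 = c * s')
    (e1 : 2 * t * s + 2 * W.a₄ * t * u + 4 * W.a₆ * u ^ 2 = c * t')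
    (e2 : t ^ 2 - 4 * s * u = c * u') (i : Fin 3) :
    MvPolynomial.eval ![s, t, u] (W.addSubMap i) = c * (![s', t', u'] : Fin 3 → K) i := by
  obtain ⟨k0, k1, k2⟩ := H2_ev h1 h2 h3 s t u
  fin_cases i
  · exact k0.trans e0
  · exact k1.trans e1
  · exact k2.trans e2

variable [DecidableEq K]

private lemma H2_self (h1 : W.a₁ = 0) (h2 : W.a₂ = 0) (h3 : W.a₃ = 0) (h : (2 : K) ≠ 0)
    {x y : K} (hP : W.toAffine.Nonsingular x y) :
    ∃ c : K, c ≠ 0 ∧ ∀ i, MvPolynomial.eval ((some x y hP).sym2x (some x y hP))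
      (W.addSubMap i) = c * (some x y hP + some x y hP).sym2x 0 i := by
  have heq : y ^ 2 = x ^ 3 + W.a₄ * x + W.a₆ := by
    have := (Affine.equation_iff _ _).1 hP.left
    simpa [h1, h2, h3] using this
  have hneg : W.toAffine.negY x y = -y := by simp [negY, h1, h3]
  by_cases hy : y = W.toAffine.negY x y
  · have hy0 : y = 0 := by
      rw [hneg] at hy
      have : 2 * y = 0 := by linear_combination hy
      exact (mul_eq_zero.1 this).resolve_left h
    have hc : 3 * x ^ 2 + W.a₄ ≠ 0 := by
      have := (Affine.nonsingular_iff _ _).1 hP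
      simp only [h1, h2, h3, hy0] at this
      intro hz
      rcases this.2 with h | h
      · apply h
        linear_combination - hz
      · apply h
        ring
    refine ⟨(3 * x ^ 2 + W.a₄) ^ 2, pow_ne_zero 2 hc, ?_⟩
    rw [add_self_of_Y_eq hy, sym2x_zero_zero, sym2x_some_some]
    rw [hy0] at heq
    intro i
    refine H2_of h1 h2 h3 ?_ ?_ ?_ i
    · linear_combination (8 * x) * heq
    · linear_combination (-4) * heq
    · ring
  · have hy0 : y ≠ 0 := by
      rintro rfl
      apply hy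
      rw [hneg]
      ring
    have h2y : 2 * y ≠ 0 := mul_ne_zero h hy0
    refine ⟨4 * y ^ 2, ?_, ?_⟩
    · have : (4 : K) * y ^ 2 = (2 * y) ^ 2 := by ring
      rw [this]
      exact pow_ne_zero 2 h2y
    rw [add_self_of_Y_ne hy, sym2x_some_zero, sym2x_some_some]
    have hs : W.toAffine.slope x x y y = (3 * x ^ 2 + W.a₄) / (2 * y) := by
      rw [slope_of_Y_ne rfl hy, hneg, h1, h2]
      congr 1 <;> ring
    have ha : 4 * y ^ 2 * W.toAffine.addX x x (W.toAffine.slope x x y y) =
        (3 * x ^ 2 + W.a₄) ^ 2 - 8 * x * y ^ 2 := by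
      rw [hs, addX, h1, h2]
      field_simp
      ring
    intro i
    refine H2_of h1 h2 h3 ?_ ?_ ?_ i
    · rw [ha]
      linear_combination (8 * x) * heq
    · linear_combination (-4) * heq
    · ring

end

theorem addSub : AddSub := by
  intro K _ _ W h1 h2 h3 h P Q
  match P, Q with
  | .zero, .zero =>
    refine ⟨1, one_ne_zero, ?_⟩
    simp only [← zero_def, add_zero, sub_zero, sym2x_zero_zero]
    intro i
    refine H2_of h1 h2 h3 ?_ ?_ ?_ i <;> ring
  | .zero, .some x y hQ =>
    refine ⟨1, one_ne_zero, ?_⟩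
    simp only [← zero_def, zero_add, zero_sub, sym2x_neg_right, sym2x_zero_some, sym2x_some_some]
    intro i
    refine H2_of h1 h2 h3 ?_ ?_ ?_ i <;> ring
  | .some x y hP, .zero =>
    refine ⟨1, one_ne_zero, ?_⟩
    simp only [← zero_def, add_zero, sub_zero, sym2x_some_zero, sym2x_some_some]
    intro i
    refine H2_of h1 h2 h3 ?_ ?_ ?_ i <;> ring
  | .some x y hP, .some x' y' hQ =>
    have e1 : y ^ 2 = x ^ 3 + W.a₄ * x + W.a₆ := by
      have := (Affine.equation_iff _ _).1 hP.left
      simpa [h1, h2, h3] using this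
    have e2 : y' ^ 2 = x' ^ 3 + W.a₄ * x' + W.a₆ := by
      have := (Affine.equation_iff _ _).1 hQ.left
      simpa [h1, h2, h3] using this
    by_cases hx : x = x'
    · subst hx
      have h4 : (y - y') * (y + y') = 0 := by linear_combination e1 - e2
      rcases mul_eq_zero.1 h4 with h5 | h5
      · have h6 : y = y' := sub_eq_zero.1 h5
        subst h6
        rw [sub_self]
        exact H2_self h1 h2 h3 h hP
      · have h6 : y' = -y := by linear_combination h5
        have h7 : (Point.some x y' hQ : W.toAffine.Point) = -Point.some x y hP := by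
          rw [neg_some, Point.some.injEq]
          refine ⟨rfl, ?_⟩
          rw [h6, negY, h1, h3]
          ring
        rw [h7, sub_neg_eq_add, add_neg_cancel, sym2x_neg_right, sym2x_comm 0]
        exact H2_self h1 h2 h3 h hP
    · have hd : x - x' ≠ 0 := sub_ne_zero.2 hx
      refine ⟨(x - x') ^ 2, pow_ne_zero 2 hd, ?_⟩
      rw [sub_eq_add_neg (Point.some x y hP), neg_some, add_of_X_ne hx, add_of_X_ne hx,
        sym2x_some_some, sym2x_some_some]
      have hneg : W.toAffine.negY x' y' = -y' := by simp [negY, h1, h3]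
      set α := W.toAffine.addX x x' (W.toAffine.slope x x' y y') with hα
      set β := W.toAffine.addX x x' (W.toAffine.slope x x' y (W.toAffine.negY x' y')) with hβ
      have ha : (x - x') ^ 2 * α = (y - y') ^ 2 - (x + x') * (x - x') ^ 2 := by
        rw [hα, slope_of_X_ne hx, addX, h1, h2]
        field_simp
        ring
      have hb : (x - x') ^ 2 * β = (y + y') ^ 2 - (x + x') * (x - x') ^ 2 := by
        rw [hβ, slope_of_X_ne hx, addX, h1, h2, hneg]
        field_simp
        ring
      intro i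
      refine H2_of h1 h2 h3 ?_ ?_ ?_ i
      · have h8 : (x - x') ^ 2 ≠ 0 := pow_ne_zero 2 hd
        apply mul_left_cancel₀ h8
        have h9 : (x - x') ^ 2 * ((x - x') ^ 2 * (α * β)) =
            ((y - y') ^ 2 - (x + x') * (x - x') ^ 2) *
              ((y + y') ^ 2 - (x + x') * (x - x') ^ 2) := by
          rw [← ha, ← hb]
          ring
        rw [h9]
        have h10 : ((y - y') ^ 2 - (x + x') * (x - x') ^ 2) *
              ((y + y') ^ 2 - (x + x') * (x - x') ^ 2) =
            (y ^ 2 - y' ^ 2) ^ 2 - 2 * (x + x') * (x - x') ^ 2 * (y ^ 2 + y' ^ 2) +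
              (x + x') ^ 2 * (x - x') ^ 4 := by ring
        rw [h10, e1, e2]
        ring
      · have h9 : (x - x') ^ 2 * (α + β) = 2 * (y ^ 2 + y' ^ 2) -
            2 * (x + x') * (x - x') ^ 2 := by
          linear_combination ha + hb
        rw [h9, e1, e2]
        ring
      · ring

end MP7ed9c3
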