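import Pool.Agent.Lib.MP_7ed9c3_nt.SpecH

/-!
# H3: primitive vectors
-/

set_option autoImplicit false

namespace MP7ed9c3

open Polynomial

private lemma H3_coprime {F : Type} [Field F] {f g : F[X]} (h : IsCoprime f g) {π : F[X]}
    (hπ : Irreducible π) : ¬ (π ∣ f ∧ π ∣ g) := by
  rintro ⟨h1, h2⟩
  exact hπ.not_isUnit (h.isUnit_of_dvd' h1 h2)

theorem primitive : Primitive := by
  intro F _ a b h2 hD
  refine ⟨fun f g hfg π hπ => ?_, fun f₁ g₁ f₂ g₂ hc1 hc2 π hπ => ?_⟩
  · rintro ⟨h0, h1, h2'⟩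
    have hprime : Prime π := hπ.prime
    set W : WeierstrassCurve F[X] := ⟨0, 0, 0, C a, C b⟩ with hW
    have hΔ : W.Δ = C (-16 * (4 * a ^ 3 + 27 * b ^ 2)) := by
      simp only [WeierstrassCurve.Δ, WeierstrassCurve.b₂, WeierstrassCurve.b₄,
        WeierstrassCurve.b₆, WeierstrassCurve.b₈, hW, map_mul, map_neg, map_add, map_pow,
        map_ofNat]
      ring
    have h16 : (-16 * (4 * a ^ 3 + 27 * b ^ 2) : F) ≠ 0 := by
      refine mul_ne_zero ?_ hD
      have : (-16 : F) = -((2 : F) ^ 4) := by norm_num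
      rw [this]
      exact neg_ne_zero.2 (pow_ne_zero 4 h2)
    have : W.IsElliptic := by
      refine ⟨?_⟩
      rw [hΔ]
      exact Polynomial.isUnit_C.2 (isUnit_iff_ne_zero.2 h16)
    have key := WeierstrassCurve.addSubMapCoeff_condition W ![X * f, X * g + f, g]
    have e0 : (W.addSubMap 0).eval ![X * f, X * g + f, g] = A0 a b f g := by
      simp [WeierstrassCurve.addSubMap, WeierstrassCurve.b₂, WeierstrassCurve.b₄,
        WeierstrassCurve.b₆, WeierstrassCurve.b₈, hW, A0]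
      ring
    have e1 : (W.addSubMap 1).eval ![X * f, X * g + f, g] = A1 a b f g := by
      simp [WeierstrassCurve.addSubMap, WeierstrassCurve.b₂, WeierstrassCurve.b₄,
        WeierstrassCurve.b₆, WeierstrassCurve.b₈, hW, A1]
      ring
    have e2 : (W.addSubMap 2).eval ![X * f, X * g + f, g] = A2 f g := by
      simp [WeierstrassCurve.addSubMap, A2]
      ring
    have hdvd : ∀ i : Fin 3, π ∣ (![X * f, X * g + f, g] : Fin 3 → F[X]) i := by
      intro i
      refine hprime.dvd_of_dvd_pow (n := 4) ?_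
      rw [← key i, Fin.sum_univ_three, e0, e1, e2]
      exact dvd_add (dvd_add (h0.mul_left _) (h1.mul_left _)) (h2'.mul_left _)
    have d1 : π ∣ X * g + f := hdvd 1
    have d2 : π ∣ g := hdvd 2
    have d3 : π ∣ f := (dvd_add_right (d2.mul_left X)).1 d1
    exact H3_coprime hfg hπ ⟨d3, d2⟩
  · rintro ⟨h0, h1, h3⟩
    have hprime : Prime π := hπ.prime
    rcases hprime.dvd_or_dvd h0 with h | h
    · have hg1 : ¬ π ∣ g₁ := fun k => H3_coprime hc1 hπ ⟨h, k⟩
      have hg2 : π ∣ g₂ := (hprime.dvd_or_dvd h3).resolve_left hg1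
      have k1 : π ∣ f₂ * g₁ := (dvd_add_right (h.mul_right g₂)).1 h1
      have k2 : π ∣ f₂ := (hprime.dvd_or_dvd k1).resolve_right hg1
      exact H3_coprime hc2 hπ ⟨k2, hg2⟩
    · have hg2 : ¬ π ∣ g₂ := fun k => H3_coprime hc2 hπ ⟨h, k⟩
      have hg1 : π ∣ g₁ := (hprime.dvd_or_dvd h3).resolve_right hg2
      have k1 : π ∣ f₁ * g₂ := (dvd_add_left (h.mul_right g₁)).1 h1
      have k2 : π ∣ f₁ := (hprime.dvd_or_dvd k1).resolve_right hg2
      exact H3_coprime hc1 hπ ⟨k2, hg1⟩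

end MP7ed9c3
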