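import Pool.Agent.Lib.MP_7ed9c3_nt.SpecH

/-!
# MP_7ed9c3_nt, H4: proportional primitive vectors
-/

set_option autoImplicit false

namespace MP7ed9c3

open Polynomial

/-- If `s u = r w` for coprime `r, s` and no irreducible polynomial divides all `u i`, then `r` is a
unit. -/
private theorem H4_unit {F : Type} [Field F] (u w : Fin 3 → F[X]) (r s : F[X]) (hr : r ≠ 0)
    (hco : IsCoprime r s) (hu : ∀ π : F[X], Irreducible π → ¬ ∀ i, π ∣ u i)
    (h : ∀ i, s * u i = r * w i) : IsUnit r := by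
  by_contra hcon
  obtain ⟨π, hπ, hdvd⟩ := WfDvdMonoid.exists_irreducible_factor hcon hr
  refine hu π hπ fun i => ?_
  have h1 : π ∣ s * u i := by
    rw [h i]
    exact hdvd.mul_right _
  rcases hπ.prime.dvd_or_dvd h1 with h2 | h2
  · exact absurd (hco.isUnit_of_dvd' hdvd h2) hπ.not_isUnit
  · exact h2

/-- H4. -/
theorem propUnit : PropUnit := by
  intro F _ u w c hc hu hw h
  have hs : c.denom ≠ 0 := c.denom_ne_zero
  have hr : c.num ≠ 0 := RatFunc.num_ne_zero hc
  have key : ∀ i, c.denom * u i = c.num * w i := by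
    intro i
    apply RatFunc.algebraMap_injective F
    rw [map_mul, map_mul, h i]
    have h1 : algebraMap F[X] (RatFunc F) c.denom ≠ 0 := RatFunc.algebraMap_ne_zero hs
    have h2 := RatFunc.num_div_denom c
    rw [div_eq_iff h1] at h2
    rw [h2]
    ring
  have hur : IsUnit c.num := H4_unit u w c.num c.denom hr c.isCoprime_num_denom hu key
  have hus : IsUnit c.denom :=
    H4_unit w u c.denom c.num hs c.isCoprime_num_denom.symm hw fun i => (key i).symm
  obtain ⟨r, hr', hrr⟩ := Polynomial.isUnit_iff.1 hur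
  obtain ⟨s, hs', hss⟩ := Polynomial.isUnit_iff.1 hus
  have hr0 : r ≠ 0 := hr'.ne_zero
  have hs0 : s ≠ 0 := hs'.ne_zero
  refine ⟨r / s, div_ne_zero hr0 hs0, fun i => ?_⟩
  have h3 := key i
  rw [← hrr, ← hss] at h3
  have h4 : C s⁻¹ * (C s * u i) = C s⁻¹ * (C r * w i) := by rw [h3]
  rw [← mul_assoc, ← mul_assoc, ← C_mul, ← C_mul, inv_mul_cancel₀ hs0, C_1, one_mul] at h4
  rw [h4, div_eq_inv_mul]

end MP7ed9c3
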