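import Pool.Agent.Lib.MP_7ed9c3_nt.SpecH

/-!
# MP_7ed9c3_nt, H5: reduced fractions
-/

set_option autoImplicit false

namespace MP7ed9c3

open Polynomial

theorem H5_lam_ne_zero {F : Type} [Field F] (a b : F) : lam a b ≠ 0 := by
  intro h
  have h1 : (lam a b).coeff 3 = 1 := by
    unfold lam
    simp
  rw [h, coeff_zero] at h1
  exact zero_ne_one h1

/-- Two coprime pairs with `f g' = f' g` differ by a constant. -/
private theorem H5_prop {F : Type} [Field F] (f g f' g' : F[X]) (h : IsCoprime f g)
    (h' : IsCoprime f' g') (he : f * g' = f' * g) :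
    ∃ e : F, e ≠ 0 ∧ f' = C e * f ∧ g' = C e * g := by
  have h1 : f ∣ f' := h.dvd_of_dvd_mul_right (by rw [← he]; exact dvd_mul_right _ _)
  have h2 : f' ∣ f := h'.dvd_of_dvd_mul_right (by rw [he]; exact dvd_mul_right _ _)
  by_cases hf : f = 0
  · have hf' : f' = 0 := by
      rw [hf] at h1
      exact zero_dvd_iff.1 h1
    rw [hf, isCoprime_zero_left] at h
    rw [hf', isCoprime_zero_left] at h'
    obtain ⟨r, hr, hrr⟩ := Polynomial.isUnit_iff.1 h
    obtain ⟨s, hs, hss⟩ := Polynomial.isUnit_iff.1 h'
    have hr0 : r ≠ 0 := hr.ne_zero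
    refine ⟨s / r, div_ne_zero hs.ne_zero hr0, by rw [hf, hf', mul_zero], ?_⟩
    rw [← hrr, ← hss, ← C_mul, div_mul_cancel₀ s hr0]
  · obtain ⟨u, hu⟩ := associated_of_dvd_dvd h1 h2
    obtain ⟨e, he', hee⟩ := Polynomial.isUnit_iff.1 u.isUnit
    have hf' : f' = C e * f := by rw [← hu, ← hee, mul_comm]
    refine ⟨e, he'.ne_zero, hf', ?_⟩
    rw [hf'] at he
    apply mul_left_cancel₀ hf
    rw [he]
    ring

/-- H5. -/
theorem repFacts : RepFacts := by
  intro F _ a b
  have hinj := RatFunc.algebraMap_injective F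
  have hlam : algebraMap F[X] (RatFunc F) (lam a b) ≠ 0 :=
    RatFunc.algebraMap_ne_zero (H5_lam_ne_zero a b)
  refine ⟨?_, ?_⟩
  · intro P
    match P with
    | 0 =>
      refine ⟨1, 0, isCoprime_one_left, ?_⟩
      simp
    | .some x y h =>
      refine ⟨(x / algebraMap F[X] (RatFunc F) (lam a b)).num,
        (x / algebraMap F[X] (RatFunc F) (lam a b)).denom, RatFunc.isCoprime_num_denom _, ?_⟩
      rw [WeierstrassCurve.Affine.Point.xRep_some]
      simp only [Matrix.cons_val_zero, Matrix.cons_val_one, mul_one]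
      have h1 := RatFunc.num_div_denom (x / algebraMap F[X] (RatFunc F) (lam a b))
      have h2 : algebraMap F[X] (RatFunc F)
          (x / algebraMap F[X] (RatFunc F) (lam a b)).denom ≠ 0 :=
        RatFunc.algebraMap_ne_zero (RatFunc.denom_ne_zero _)
      rw [div_eq_iff h2] at h1
      rw [map_mul, h1]
      field_simp
  · intro P f g f' g' h h'
    apply H5_prop f g f' g' h.1 h'.1
    apply hinj
    have e1 := h.2
    have e2 := h'.2
    rw [map_mul] at e1 e2
    rw [map_mul, map_mul]
    by_cases hp : P.xRep 1 = 0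
    · have hp0 : P.xRep 0 ≠ 0 := by
        intro h0
        apply WeierstrassCurve.Affine.Point.xRep_ne_zero P
        ext i
        fin_cases i
        · exact h0
        · exact hp
      rw [hp, mul_zero] at e1 e2
      have g0 : algebraMap F[X] (RatFunc F) g = 0 := by
        rcases mul_eq_zero.1 e1.symm with h3 | h3
        · exact h3
        · exact absurd h3 hp0
      have g0' : algebraMap F[X] (RatFunc F) g' = 0 := by
        rcases mul_eq_zero.1 e2.symm with h3 | h3
        · exact h3
        · exact absurd h3 hp0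
      rw [g0, g0', mul_zero, mul_zero]
    · apply mul_right_cancel₀ (mul_ne_zero hlam hp)
      linear_combination (algebraMap F[X] (RatFunc F) g') * e1 -
        (algebraMap F[X] (RatFunc F) g) * e2

end MP7ed9c3
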