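import Pool.Agent.Lib.MP_7ed9c3_nt.SpecH

/-!
# MP_7ed9c3_nt: H6, the step for reduced fractions
-/

namespace MP7ed9c3

open Polynomial

section H6

variable {F : Type} [Field F]

theorem h6_lam_ne_zero (a b : F) : lam a b ≠ 0 := by
  intro h
  have h1 : (lam a b).coeff 3 = 0 := by rw [h]; simp
  rw [lam] at h1
  simp [coeff_X, coeff_C] at h1

theorem h6_xRep (a b : F) (P : (tw a b).toAffine.Point) (f g : F[X]) (h : Rep a b P f g) :
    ∃ μ : RatFunc F, μ ≠ 0 ∧
      P.xRep 0 = μ * algebraMap F[X] (RatFunc F) (lam a b) * algebraMap F[X] (RatFunc F) f ∧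
      P.xRep 1 = μ * algebraMap F[X] (RatFunc F) g := by
  obtain ⟨hc, he⟩ := h
  have inj : Function.Injective (algebraMap F[X] (RatFunc F)) := RatFunc.algebraMap_injective F
  have hl : algebraMap F[X] (RatFunc F) (lam a b) ≠ 0 := by
    intro h0
    exact h6_lam_ne_zero a b (inj (by rw [h0, map_zero]))
  have hne : P.xRep ≠ 0 := WeierstrassCurve.Affine.Point.xRep_ne_zero P
  rw [map_mul] at he
  by_cases hg : g = 0
  · subst hg
    have hf : f ≠ 0 := by
      rintro rfl
      exact not_isCoprime_zero_zero hc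
    have hf' : algebraMap F[X] (RatFunc F) f ≠ 0 := by
      intro h0
      exact hf (inj (by rw [h0, map_zero]))
    rw [map_zero, zero_mul] at he
    have h1 : P.xRep 1 = 0 := by
      rcases mul_eq_zero.1 he with h | h
      · exact absurd h (mul_ne_zero hf' hl)
      · exact h
    have h0 : P.xRep 0 ≠ 0 := by
      intro h0
      apply hne
      funext i
      fin_cases i
      · exact h0
      · exact h1
    refine ⟨P.xRep 0 / (algebraMap F[X] (RatFunc F) (lam a b) * algebraMap F[X] (RatFunc F) f),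
      div_ne_zero h0 (mul_ne_zero hl hf'), ?_, ?_⟩
    · field_simp
    · rw [h1, map_zero, mul_zero]
  · have hg' : algebraMap F[X] (RatFunc F) g ≠ 0 := by
      intro h0
      exact hg (inj (by rw [h0, map_zero]))
    have h1 : P.xRep 1 ≠ 0 := by
      intro h1
      apply hne
      rw [h1, mul_zero] at he
      have h0 : P.xRep 0 = 0 := by
        rcases mul_eq_zero.1 he.symm with h | h
        · exact absurd h hg'
        · exact h
      funext i
      fin_cases i
      · exact h0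
      · exact h1
    refine ⟨P.xRep 1 / algebraMap F[X] (RatFunc F) g, div_ne_zero h1 hg', ?_, ?_⟩
    · field_simp
      linear_combination -he
    · field_simp

open Classical in
theorem stepRep (h2 : AddSub) (h3 : Primitive) (h4 : PropUnit) : StepRep := by
  intro F _ a b h20 hd P Q f g f₁ g₁ f₂ g₂ hQ hP hS hD
  have inj : Function.Injective (algebraMap F[X] (RatFunc F)) := RatFunc.algebraMap_injective F
  have hl : algebraMap F[X] (RatFunc F) (lam a b) ≠ 0 := by
    intro h0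
    exact h6_lam_ne_zero a b (inj (by rw [h0, map_zero]))
  obtain ⟨μ, hμ, hP0, hP1⟩ := h6_xRep a b P f g hP
  obtain ⟨ν, hν, hQ0, hQ1⟩ := h6_xRep a b Q X 1 hQ
  obtain ⟨μ₁, hμ₁, hS0, hS1⟩ := h6_xRep a b (P + Q) f₁ g₁ hS
  obtain ⟨μ₂, hμ₂, hD0, hD1⟩ := h6_xRep a b (P - Q) f₂ g₂ hD
  have h2K : (2 : RatFunc F) ≠ 0 := by
    intro h0
    apply h20
    have h1 : algebraMap F[X] (RatFunc F) (C (2 : F)) = algebraMap F[X] (RatFunc F) 0 := by
      rw [map_zero, ← h0, map_ofNat, map_ofNat]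
    exact C_eq_zero.1 (inj h1)
  obtain ⟨c, hc, H⟩ := h2 (RatFunc F) (tw a b) rfl rfl rfl h2K P Q
  have e0 := H 0
  have e1 := H 1
  have e2 := H 2
  have hb4 : (tw a b).b₄ = 2 * (algebraMap F[X] (RatFunc F) (C a) *
      algebraMap F[X] (RatFunc F) (lam a b) ^ 2) := by
    simp [WeierstrassCurve.b₄, tw]
  have hb6 : (tw a b).b₆ = 4 * (algebraMap F[X] (RatFunc F) (C b) *
      algebraMap F[X] (RatFunc F) (lam a b) ^ 3) := by
    simp [WeierstrassCurve.b₆, tw]
  have hb8 : (tw a b).b₈ = - (algebraMap F[X] (RatFunc F) (C a) *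
      algebraMap F[X] (RatFunc F) (lam a b) ^ 2) ^ 2 := by
    simp [WeierstrassCurve.b₈, tw]
  have hb2 : (tw a b).b₂ = 0 := by
    simp [WeierstrassCurve.b₂, tw]
  simp only [WeierstrassCurve.addSubMap, WeierstrassCurve.Affine.Point.sym2x, hP0, hP1, hQ0, hQ1,
    hS0, hS1, hD0, hD1, hb2, hb4, hb6, hb8, Matrix.cons_val_zero, Matrix.cons_val_one,
    Matrix.cons_val, map_one, mul_one, map_add, map_sub, map_mul, map_pow, MvPolynomial.eval_C,
    MvPolynomial.eval_X] at e0 e1 e2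
  set l := algebraMap F[X] (RatFunc F) (lam a b) with hl'
  set A := algebraMap F[X] (RatFunc F) (C a) with hA
  set B := algebraMap F[X] (RatFunc F) (C b) with hB
  set x := algebraMap F[X] (RatFunc F) X with hx
  set f' := algebraMap F[X] (RatFunc F) f with hf'
  set g' := algebraMap F[X] (RatFunc F) g with hg'
  set f₁' := algebraMap F[X] (RatFunc F) f₁ with hf₁'
  set g₁' := algebraMap F[X] (RatFunc F) g₁ with hg₁'
  set f₂' := algebraMap F[X] (RatFunc F) f₂ with hf₂'
  set g₂' := algebraMap F[X] (RatFunc F) g₂ with hg₂'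
  have hC : (μ * ν) ^ 2 * l ^ 2 / (c * (μ₁ * μ₂)) ≠ 0 := by
    apply div_ne_zero
    · exact mul_ne_zero (pow_ne_zero _ (mul_ne_zero hμ hν)) (pow_ne_zero _ hl)
    · exact mul_ne_zero hc (mul_ne_zero hμ₁ hμ₂)
  have key := h4 F ![f₁ * f₂, f₁ * g₂ + f₂ * g₁, g₁ * g₂] ![A0 a b f g, A1 a b f g, A2 f g]
    ((μ * ν) ^ 2 * l ^ 2 / (c * (μ₁ * μ₂))) hC ?_ ?_ ?_
  · obtain ⟨e, he, hE⟩ := key
    exact ⟨e, he, hE 0, hE 1, hE 2⟩
  · intro π hπ hh
    exact (h3 F a b h20 hd).2 f₁ g₁ f₂ g₂ hS.1 hD.1 π hπ ⟨hh 0, hh 1, hh 2⟩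
  · intro π hπ hh
    exact (h3 F a b h20 hd).1 f g hP.1 π hπ ⟨hh 0, hh 1, hh 2⟩
  · intro i
    have hcm : c * (μ₁ * μ₂) ≠ 0 := mul_ne_zero hc (mul_ne_zero hμ₁ hμ₂)
    fin_cases i
    · change algebraMap F[X] (RatFunc F) (f₁ * f₂) = (μ * ν) ^ 2 * l ^ 2 / (c * (μ₁ * μ₂)) *
        algebraMap F[X] (RatFunc F) (A0 a b f g)
      simp only [A0, map_mul, map_sub, map_pow, map_add, map_ofNat]
      rw [div_mul_eq_mul_div, eq_div_iff hcm]
      have hl2 : l ^ 2 ≠ 0 := pow_ne_zero _ hl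
      apply mul_right_cancel₀ hl2
      linear_combination -e0
    · change algebraMap F[X] (RatFunc F) (f₁ * g₂ + f₂ * g₁) =
        (μ * ν) ^ 2 * l ^ 2 / (c * (μ₁ * μ₂)) * algebraMap F[X] (RatFunc F) (A1 a b f g)
      simp only [A1, map_mul, map_pow, map_add, map_ofNat]
      rw [div_mul_eq_mul_div, eq_div_iff hcm]
      apply mul_right_cancel₀ hl
      linear_combination -e1
    · change algebraMap F[X] (RatFunc F) (g₁ * g₂) =
        (μ * ν) ^ 2 * l ^ 2 / (c * (μ₁ * μ₂)) * algebraMap F[X] (RatFunc F) (A2 f g)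
      simp only [A2, map_mul, map_sub, map_pow]
      rw [div_mul_eq_mul_div, eq_div_iff hcm]
      linear_combination -e2

end H6

end MP7ed9c3
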