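import Pool.Agent.Lib.MP_7ed9c3_nt.SpecH

/-!
# H7: degrees
-/

set_option autoImplicit false

namespace MP7ed9c3

open Polynomial

private lemma H7_aux {F : Type} [Field F] {f₁ g₁ f₂ g₂ : F[X]} {k : ℕ} (hf1 : f₁ ≠ 0)
    (hf2 : f₂ ≠ 0) (hdeg : f₁.natDegree + f₂.natDegree = 2 * k + 2)
    (h1 : (f₁ * g₂ + f₂ * g₁).natDegree ≤ 2 * k + 1) (h2 : (g₁ * g₂).natDegree ≤ 2 * k) :
    g₁.degree < f₁.degree := by
  by_contra hlt
  push Not at hlt
  have hg1 : g₁ ≠ 0 := by
    rintro rfl
    rw [degree_zero, le_bot_iff, degree_eq_bot] at hlt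
    exact hf1 hlt
  have hle : f₁.natDegree ≤ g₁.natDegree := natDegree_le_natDegree hlt
  have h3 : (f₂ * g₁).natDegree = f₂.natDegree + g₁.natDegree := natDegree_mul hf2 hg1
  by_cases hg2 : g₂ = 0
  · rw [hg2, mul_zero, zero_add, h3] at h1
    omega
  · rw [natDegree_mul hg1 hg2] at h2
    have h4 : (f₁ * g₂).natDegree = f₁.natDegree + g₂.natDegree := natDegree_mul hf1 hg2
    rw [natDegree_add_eq_right_of_natDegree_lt (by omega), h3] at h1
    omega

theorem degStep : DegStep := by
  intro F _ a b e f g f₁ g₁ f₂ g₂ he hlt h0 h1 h2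
  set k := f.natDegree with hk
  have hf : f ≠ 0 := by
    rintro rfl
    simp at hlt
  have hgk : g = 0 ∨ g.natDegree < k := by
    by_cases hg : g = 0
    · exact Or.inl hg
    · exact Or.inr (natDegree_lt_natDegree hg hlt)
  have hg1 : g.natDegree ≤ k := by
    rcases hgk with h | h
    · simp [h]
    · exact h.le
  have hXg : (X * g).natDegree ≤ k := by
    rcases hgk with h | h
    · simp [h]
    · refine natDegree_mul_le.trans ?_
      rw [natDegree_X]
      omega
  have hCg : ∀ c : F, (C c * g).natDegree ≤ k := fun c => (natDegree_C_mul_le c g).trans hg1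
  have hXf : (X * f).natDegree = k + 1 := by
    rw [natDegree_X_mul hf]
  have hXgf : (X * g + f).natDegree ≤ k := natDegree_add_le_of_degree_le hXg le_rfl
  have hm : (X * f - C a * g).natDegree = k + 1 := by
    rw [natDegree_sub_eq_left_of_natDegree_lt]
    · exact hXf
    · rw [hXf]
      exact Nat.lt_succ_of_le (hCg a)
  have hp : (X * f + C a * g).natDegree ≤ k + 1 :=
    natDegree_add_le_of_degree_le hXf.le ((hCg a).trans (Nat.le_succ k))
  have hA0 : (A0 a b f g).natDegree = 2 * k + 2 := by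
    have e1 : A0 a b f g = (X * f - C a * g) ^ 2 - (C (4 * b) * g) * (X * g + f) := by
      simp only [A0, map_mul, map_ofNat]
    have e2 : ((X * f - C a * g) ^ 2).natDegree = 2 * k + 2 := by
      rw [natDegree_pow, hm]
      ring
    have e3 : ((C (4 * b) * g) * (X * g + f)).natDegree ≤ k + k :=
      natDegree_mul_le_of_le (hCg _) hXgf
    rw [e1, natDegree_sub_eq_left_of_natDegree_lt, e2]
    rw [e2]
    omega
  have hA1 : (A1 a b f g).natDegree ≤ 2 * k + 1 := by
    have e1 : A1 a b f g = C 2 * ((X * f + C a * g) * (X * g + f) + (C (2 * b) * g) * g) := by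
      simp only [A1, map_mul, map_ofNat]
      ring
    rw [e1]
    refine (natDegree_C_mul_le _ _).trans ?_
    refine natDegree_add_le_of_degree_le ?_ ?_
    · refine (natDegree_mul_le_of_le hp hXgf).trans ?_
      omega
    · refine (natDegree_mul_le_of_le (hCg _) hg1).trans ?_
      omega
  have hA2 : (A2 f g).natDegree ≤ 2 * k := by
    unfold A2
    refine natDegree_pow_le_of_le 2 ((natDegree_sub_le_of_le hXg (le_refl k)).trans ?_)
    rw [max_self]
  have hCe : ∀ p : F[X], (C e * p).natDegree = p.natDegree := fun p => natDegree_C_mul he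
  have hA0ne : C e * A0 a b f g ≠ 0 := by
    intro h
    have h3 := hCe (A0 a b f g)
    rw [h, hA0, natDegree_zero] at h3
    omega
  have hne : f₁ * f₂ ≠ 0 := by rw [h0]; exact hA0ne
  have hf1 : f₁ ≠ 0 := left_ne_zero_of_mul hne
  have hf2 : f₂ ≠ 0 := right_ne_zero_of_mul hne
  have hd : f₁.natDegree + f₂.natDegree = 2 * k + 2 := by
    rw [← natDegree_mul hf1 hf2, h0, hCe, hA0]
  have hb1 : (f₁ * g₂ + f₂ * g₁).natDegree ≤ 2 * k + 1 := by
    rw [h1, hCe]
    exact hA1
  have hb2 : (g₁ * g₂).natDegree ≤ 2 * k := by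
    rw [h2, hCe]
    exact hA2
  refine ⟨hd, H7_aux hf1 hf2 hd hb1 hb2, ?_⟩
  refine H7_aux (f₁ := f₂) (g₁ := g₂) (f₂ := f₁) (g₂ := g₁) (k := k) hf2 hf1 (by omega) ?_ ?_
  · rw [add_comm]
    exact hb1
  · rw [mul_comm]
    exact hb2

end MP7ed9c3
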