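import Pool.Agent.Lib.MP_7ed9c3_nt.SpecH

/-!
# H8a: the abscissa of `P - Q` in reduced form
-/

namespace MP7ed9c3

open Polynomial

section BF

variable {F : Type} [Field F]

lemma bf_lam_lin (a b : F) : (C a * X + C b : F[X]).degree < ((3 : ℕ) : WithBot ℕ) :=
  lt_of_le_of_lt degree_linear_le (by norm_num)

lemma bf_lam_eq (a b : F) : lam a b = X ^ 3 + (C a * X + C b) := by
  unfold lam; ring

lemma bf_lam_monic (a b : F) : (lam a b).Monic := by
  rw [bf_lam_eq]; exact monic_X_pow_add (bf_lam_lin a b)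

lemma bf_nd {n : ℕ} {r : F[X]} (h : r.degree < (n : WithBot ℕ)) :
    (X ^ n + r).natDegree = n := by
  have h1 : (X ^ n + r).degree = (n : WithBot ℕ) := by
    rw [degree_add_eq_left_of_degree_lt (by rwa [degree_X_pow]), degree_X_pow]
  exact natDegree_eq_of_degree_eq_some h1

lemma bf_lam_natDegree (a b : F) : (lam a b).natDegree = 3 := by
  rw [bf_lam_eq]; exact bf_nd (bf_lam_lin a b)

lemma bf_lam_eval (a b x : F) : (lam a b).eval x = x ^ 3 + a * x + b := by
  simp [lam]

/-- simple roots of `lam` -/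
lemma bf_not_sq_dvd {a b : F} (h : 4 * a ^ 3 + 27 * b ^ 2 ≠ 0) (x : F) :
    ¬ (X - C x) ^ 2 ∣ lam a b := by
  rintro ⟨k, hk⟩
  have h1 : (lam a b).eval x = 0 := by rw [hk]; simp
  have h2 : (derivative (lam a b)).eval x = 0 := by
    rw [hk]; simp [derivative_mul, derivative_pow]
  rw [bf_lam_eval] at h1
  have h3 : (derivative (lam a b)).eval x = 3 * x ^ 2 + a := by
    simp [lam]
    left; norm_num
  rw [h3] at h2
  apply h
  have ha : a = -(3 * x ^ 2) := by linear_combination h2
  have hb : b = 2 * x ^ 3 := by rw [ha] at h1; linear_combination h1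
  rw [ha, hb]; ring

/-- the product formula -/
lemma bf_prod [Fintype F] :
    (X ^ Fintype.card F - X : F[X]) = ∏ x : F, (X - C x) := by
  have h1 : 1 < Fintype.card F := Fintype.one_lt_card
  have hm : (X ^ Fintype.card F - X : F[X]).Monic := by
    apply monic_X_pow_sub
    rw [degree_X]; exact_mod_cast h1
  have h2 := prod_multiset_X_sub_C_of_monic_of_roots_card_eq hm (by
    rw [FiniteField.roots_X_pow_card_sub_X, FiniteField.X_pow_card_sub_X_natDegree_eq F h1]
    rfl)
  rw [← h2, FiniteField.roots_X_pow_card_sub_X]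
  rfl

/-- The degree of the numerator. -/
lemma bf_degE [Fintype F] (a b : F) (e : ℕ) (he : 0 < e) (hq : Fintype.card F = 2 * e + 1) :
    (lam a b * (lam a b ^ e + 1) ^ 2
        - (X ^ Fintype.card F + X) * (X ^ Fintype.card F - X) ^ 2).natDegree
      = 2 * Fintype.card F + 1 := by
  set q := Fintype.card F with hqd
  have hexp : lam a b ^ q = X ^ (3 * q) + C a * X ^ q + C b := by
    rw [hqd, ← FiniteField.expand_card, lam, map_add, map_add, map_mul, map_pow, expand_X,
      expand_C, expand_C, ← pow_mul, mul_comm 3]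
  have hE : lam a b * (lam a b ^ e + 1) ^ 2 - (X ^ q + X) * (X ^ q - X) ^ 2
      = X ^ (2 * q + 1) + (X ^ (q + 2) - X ^ 3 + C a * X ^ q + C b + C 2 * lam a b ^ (e + 1)
        + lam a b) := by
    have h1 : lam a b * (lam a b ^ e + 1) ^ 2
        = lam a b ^ q + 2 * lam a b ^ (e + 1) + lam a b := by
      rw [hq]; ring
    rw [h1, hexp]
    have h2 : (C 2 : F[X]) = 2 := rfl
    rw [h2]
    ring
  rw [hE]
  apply bf_nd
  have hl : (lam a b).degree ≤ ((2 * q : ℕ) : WithBot ℕ) := by
    apply degree_le_of_natDegree_le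
    rw [bf_lam_natDegree]; omega
  have hl2 : (lam a b ^ (e + 1)).degree ≤ ((2 * q : ℕ) : WithBot ℕ) := by
    apply degree_le_of_natDegree_le
    rw [natDegree_pow, bf_lam_natDegree]; omega
  have hlt : ((2 * q : ℕ) : WithBot ℕ) < ((2 * q + 1 : ℕ) : WithBot ℕ) := by
    exact_mod_cast Nat.lt_succ_self _
  refine lt_of_le_of_lt ?_ hlt
  have t1 : (X ^ (q + 2) : F[X]).degree ≤ ((2 * q : ℕ) : WithBot ℕ) := by
    rw [degree_X_pow]; exact_mod_cast (by omega : q + 2 ≤ 2 * q)
  have t2 : (X ^ 3 : F[X]).degree ≤ ((2 * q : ℕ) : WithBot ℕ) := by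
    rw [degree_X_pow]; exact_mod_cast (by omega : 3 ≤ 2 * q)
  have t3 : (C a * X ^ q : F[X]).degree ≤ ((2 * q : ℕ) : WithBot ℕ) := by
    refine (degree_C_mul_X_pow_le _ _).trans ?_
    exact_mod_cast (by omega : q ≤ 2 * q)
  have t4 : (C b : F[X]).degree ≤ ((2 * q : ℕ) : WithBot ℕ) := by
    refine degree_C_le.trans ?_
    exact_mod_cast (by omega : 0 ≤ 2 * q)
  have t5 : (C 2 * lam a b ^ (e + 1)).degree ≤ ((2 * q : ℕ) : WithBot ℕ) := by
    rw [← smul_eq_C_mul]
    exact (degree_smul_le _ _).trans hl2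
  exact degree_add_le_of_degree_le (degree_add_le_of_degree_le (degree_add_le_of_degree_le
    (degree_add_le_of_degree_le ((degree_sub_le _ _).trans (max_le t1 t2)) t3) t4) t5) hl

end BF

theorem baseFrac : BaseFrac := by
  classical
  intro F _ _ a b h2 hΔ
  let _ : Fintype F := Fintype.ofFinite F
  have hchar : ringChar F ≠ 2 := by
    intro h
    apply h2
    have := (ringChar.spec F 2).2 (by rw [h])
    exact_mod_cast this
  have hodd := FiniteField.odd_card_of_char_ne_two hchar
  have hcard : Nat.card F = Fintype.card F := Nat.card_eq_fintype_card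
  have hone : 1 < Fintype.card F := Fintype.one_lt_card
  set q := Fintype.card F with hqd
  obtain ⟨e, hqe⟩ : ∃ e, q = 2 * e + 1 := ⟨q / 2, by omega⟩
  have he : 0 < e := by omega
  have hediv : (Nat.card F - 1) / 2 = e := by rw [hcard]; omega
  rw [hediv, hcard]
  set L := lam a b with hL
  set E : F[X] := L * (L ^ e + 1) ^ 2 - (X ^ q + X) * (X ^ q - X) ^ 2 with hE
  have hprod : (X ^ q - X : F[X]) = ∏ x : F, (X - C x) := bf_prod
  -- number of square roots
  let g : F → ℕ := fun x => (Finset.univ.filter (fun y : F => y ^ 2 = L.eval x)).card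
  let h : F → ℕ := fun x => 2 - g x
  have hgχ : ∀ x, (g x : ℤ) = quadraticChar F (L.eval x) + 1 := by
    intro x
    rw [← quadraticChar_card_sqrts hchar (L.eval x)]
    simp only [g]
    congr 2
    ext y
    simp
  have hpow : ∀ x, ((quadraticChar F (L.eval x) : ℤ) : F) = L.eval x ^ e := by
    intro x
    rw [quadraticChar_eq_pow_of_char_ne_two' hchar, ← hqd]
    congr 1
    omega
  have hcases : ∀ x, (g x = 1 ∧ L.eval x = 0) ∨ (g x = 2 ∧ L.eval x ≠ 0 ∧ L.eval x ^ e = 1) ∨
      (g x = 0 ∧ L.eval x ^ e = -1) := by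
    intro x
    by_cases h0 : L.eval x = 0
    · left
      refine ⟨?_, h0⟩
      have := hgχ x
      rw [h0] at this
      simp at this
      exact_mod_cast this
    · right
      rcases quadraticChar_dichotomy h0 with h1 | h1
      · left
        refine ⟨?_, h0, ?_⟩
        · have := hgχ x
          rw [h1] at this
          omega
        · rw [← hpow x, h1]; simp
      · right
        refine ⟨?_, ?_⟩
        · have := hgχ x
          rw [h1] at this
          omega
        · rw [← hpow x, h1]; simp
  have hgh : ∀ x, g x + h x = 2 := by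
    intro x
    have : g x ≤ 2 := by rcases hcases x with h | h | h <;> omega
    simp only [h]; omega
  let H : F[X] := ∏ x : F, (X - C x) ^ h x
  let G : F[X] := ∏ x : F, (X - C x) ^ g x
  have hGH : G * H = (X ^ q - X) ^ 2 := by
    rw [hprod, ← Finset.prod_pow, ← Finset.prod_mul_distrib]
    apply Finset.prod_congr rfl
    intro x _
    rw [← pow_add, hgh]
  have hpc : Pairwise fun x y : F => IsCoprime (X - C x : F[X]) (X - C y) :=
    pairwise_coprime_X_sub_C (s := fun x : F => x) (fun _ _ h => h)
  have hdvdQ : ∀ x : F, (X - C x) ∣ (X ^ q - X : F[X]) := by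
    intro x
    rw [hprod]
    exact Finset.dvd_prod_of_mem _ (Finset.mem_univ x)
  have hdvd : ∀ x : F, (X - C x) ^ h x ∣ E := by
    intro x
    rcases hcases x with h1 | h1 | h1
    · have hh : h x = 1 := by simp only [h]; omega
      rw [hh, pow_one]
      apply dvd_sub
      · exact Dvd.dvd.mul_right (dvd_iff_isRoot.2 h1.2) _
      · exact Dvd.dvd.mul_left (Dvd.dvd.pow (hdvdQ x) two_ne_zero) _
    · have hh : h x = 0 := by simp only [h]; omega
      rw [hh, pow_zero]
      exact one_dvd _
    · have hh : h x = 2 := by simp only [h]; omega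
      rw [hh]
      apply dvd_sub
      · apply Dvd.dvd.mul_left
        apply pow_dvd_pow_of_dvd
        apply dvd_iff_isRoot.2
        simp [IsRoot, h1.2]
      · exact Dvd.dvd.mul_left (pow_dvd_pow_of_dvd (hdvdQ x) 2) _
  have hHE : H ∣ E := by
    apply Finset.prod_dvd_of_coprime
    · intro x _ y _ hxy
      exact (hpc hxy).pow
    · intro x _; exact hdvd x
  obtain ⟨f, hf⟩ := hHE
  have hEdeg : E.natDegree = 2 * q + 1 := bf_degE a b e he hqe
  have hE0 : E ≠ 0 := by
    intro h0
    rw [h0] at hEdeg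
    simp at hEdeg
  have hHm : H.Monic := monic_prod_of_monic _ _ (fun x _ => (monic_X_sub_C x).pow _)
  have hf0 : f ≠ 0 := by
    rintro rfl
    apply hE0
    rw [hf, mul_zero]
  have hsumg : ∑ x : F, g x = shortCount a b := by
    unfold shortCount
    have e1 : {p : F × F // p.2 ^ 2 = p.1 ^ 3 + a * p.1 + b} ≃
        Σ x : F, {y : F // y ^ 2 = L.eval x} :=
      { toFun := fun p => ⟨p.1.1, ⟨p.1.2, by rw [hL, bf_lam_eval]; exact p.2⟩⟩
        invFun := fun p => ⟨(p.1, p.2.1), by
          have h5 : (p.2.1 : F) ^ 2 = L.eval p.1 := p.2.2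
          have h6 : L.eval p.1 = p.1 ^ 3 + a * p.1 + b := bf_lam_eval a b p.1
          exact h5.trans h6⟩
        left_inv := fun p => rfl
        right_inv := fun p => rfl }
    rw [Nat.card_congr e1, Nat.card_eq_fintype_card, Fintype.card_sigma]
    apply Finset.sum_congr rfl
    intro x _
    rw [Fintype.card_subtype]
  have hsum2 : ∑ x : F, g x + ∑ x : F, h x = 2 * q := by
    rw [← Finset.sum_add_distrib, Finset.sum_congr rfl (fun x _ => hgh x)]
    simp [hqd, mul_comm]
  have hHdeg : H.natDegree = ∑ x : F, h x := by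
    rw [natDegree_prod_of_monic _ _ (fun x _ => (monic_X_sub_C x).pow _)]
    apply Finset.sum_congr rfl
    intro x _
    rw [natDegree_pow, natDegree_X_sub_C, mul_one]
  have hfdeg : f.natDegree = shortCount a b + 1 := by
    have : E.natDegree = H.natDegree + f.natDegree := by
      rw [hf, hHm.natDegree_mul' hf0]
    omega
  refine ⟨f, G, ?_, ?_, hfdeg⟩
  · -- coprimality
    apply IsCoprime.prod_right
    intro x _
    by_cases hgx : g x = 0
    · rw [hgx, pow_zero]; exact isCoprime_one_right
    · apply IsCoprime.pow_right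
      apply IsCoprime.symm
      rw [(irreducible_X_sub_C x).coprime_iff_not_dvd]
      intro hdx
      have hdx2 : (X - C x) ^ (h x + 1) ∣ E := by
        rw [hf, pow_succ]
        exact mul_dvd_mul (Finset.dvd_prod_of_mem (fun x => (X - C x) ^ h x)
          (Finset.mem_univ x)) hdx
      rcases hcases x with h1 | h1 | h1
      · have hh : h x = 1 := by simp only [h]; omega
        rw [hh] at hdx2
        have hd3 : (X - C x) ^ 2 ∣ L * (L ^ e + 1) ^ 2 := by
          have h4 : (X - C x) ^ 2 ∣ (X ^ q + X) * (X ^ q - X : F[X]) ^ 2 :=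
            Dvd.dvd.mul_left (pow_dvd_pow_of_dvd (hdvdQ x) 2) _
          have := dvd_add hdx2 h4
          rwa [hE, sub_add_cancel] at this
        have hcop : IsCoprime ((X - C x) ^ 2) ((L ^ e + 1) ^ 2) := by
          apply IsCoprime.pow
          rw [(irreducible_X_sub_C x).coprime_iff_not_dvd]
          intro h5
          have h6 := dvd_iff_isRoot.1 h5
          simp [IsRoot, h1.2, he.ne'] at h6
        exact bf_not_sq_dvd hΔ x (hcop.dvd_of_dvd_mul_right hd3)
      · have hh : h x = 0 := by simp only [h]; omega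
        rw [hh, zero_add, pow_one] at hdx2
        have h6 := dvd_iff_isRoot.1 hdx2
        have h7 := dvd_iff_isRoot.1 (hdvdQ x)
        rw [IsRoot] at h6 h7
        rw [hE, eval_sub, eval_mul, eval_mul, eval_pow, eval_pow, h7, eval_add, eval_pow,
          h1.2.2] at h6
        simp at h6
        rcases h6 with h6 | h6
        · exact h1.2.1 h6
        · apply h2
          rw [← h6]; norm_num
      · exact hgx h1.1
  · rw [← hGH, hf]; ring

end MP7ed9c3
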