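import Pool.Agent.Lib.MP_7ed9c3_nt.SpecH

/-!
# MP_7ed9c3_nt: H8b, the two points
-/

namespace MP7ed9c3

open Polynomial

section H8b

variable {F : Type} [Field F]

theorem h8b_lam_ne_zero (a b : F) : lam a b ≠ 0 := by
  intro h
  have h1 : (lam a b).coeff 3 = 0 := by rw [h]; simp
  rw [lam] at h1
  simp [coeff_X, coeff_C] at h1

/-- Over a finite field of odd order `q = 2 k + 1`. -/
theorem h8b_odd [Finite F] (h2 : (2 : F) ≠ 0) : ∃ k, Nat.card F = 2 * k + 1 := by
  haveI := Fintype.ofFinite F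
  rw [Nat.card_eq_fintype_card]
  have h3 : ringChar F ≠ 2 := by
    intro h3
    apply h2
    have := (ringChar.spec F 2).2 (by rw [h3])
    exact_mod_cast this
  have h4 := FiniteField.odd_card_of_char_ne_two h3
  exact ⟨Fintype.card F / 2, by omega⟩

theorem h8b_frob [Finite F] (a b : F) :
    lam a b ^ Nat.card F = (X ^ Nat.card F) ^ 3 + C a * X ^ Nat.card F + C b := by
  haveI := Fintype.ofFinite F
  rw [Nat.card_eq_fintype_card, ← FiniteField.expand_card, lam]
  simp

theorem h8b_sub_ne_zero [Finite F] : (X ^ Nat.card F - X : F[X]) ≠ 0 := by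
  haveI := Fintype.ofFinite F
  rw [Nat.card_eq_fintype_card]
  exact FiniteField.X_pow_card_sub_X_ne_zero F Fintype.one_lt_card

open Classical in
theorem basePoints (h : BaseFrac) : BasePoints := by
  intro F _ _ a b h2 hd
  obtain ⟨f, G, hfG, hE, hdeg⟩ := h F a b h2 hd
  obtain ⟨k, hk⟩ := h8b_odd h2
  have hk2 : (Nat.card F - 1) / 2 = k := by omega
  rw [hk2] at hE
  have hfr := h8b_frob a b
  have hsub := h8b_sub_ne_zero (F := F)
  generalize Nat.card F = q at *
  subst hk
  have inj : Function.Injective (algebraMap F[X] (RatFunc F)) := RatFunc.algebraMap_injective F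
  have hl : algebraMap F[X] (RatFunc F) (lam a b) ≠ 0 := by
    intro h0
    exact h8b_lam_ne_zero a b (inj (by rw [h0, map_zero]))
  have hD : algebraMap F[X] (RatFunc F) (X ^ (2 * k + 1) - X) ≠ 0 := by
    intro h0
    exact hsub (inj (by rw [h0, map_zero]))
  have h2K : (2 : RatFunc F) ≠ 0 := by
    intro h0
    apply h2
    have h1 : algebraMap F[X] (RatFunc F) (C (2 : F)) = algebraMap F[X] (RatFunc F) 0 := by
      rw [map_zero, ← h0, map_ofNat, map_ofNat]
    exact C_eq_zero.1 (inj h1)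
  have hlam : algebraMap F[X] (RatFunc F) (lam a b) =
      algebraMap F[X] (RatFunc F) X ^ 3 + algebraMap F[X] (RatFunc F) (C a) *
        algebraMap F[X] (RatFunc F) X + algebraMap F[X] (RatFunc F) (C b) := by
    conv_lhs => rw [lam]
    simp only [map_add, map_mul, map_pow]
  have hfr' := congrArg (algebraMap F[X] (RatFunc F)) hfr
  have hE' := congrArg (algebraMap F[X] (RatFunc F)) hE
  simp only [map_add, map_sub, map_mul, map_pow, map_one] at hfr' hE' hD
  have ha1 : (tw a b).a₁ = 0 := rfl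
  have ha2 : (tw a b).a₂ = 0 := rfl
  have ha3 : (tw a b).a₃ = 0 := rfl
  have ha4 : (tw a b).a₄ = algebraMap F[X] (RatFunc F) (C a) *
      algebraMap F[X] (RatFunc F) (lam a b) ^ 2 := by
    simp [tw]
  have ha6 : (tw a b).a₆ = algebraMap F[X] (RatFunc F) (C b) *
      algebraMap F[X] (RatFunc F) (lam a b) ^ 3 := by
    simp [tw]
  set l := algebraMap F[X] (RatFunc F) (lam a b) with hl'
  set A := algebraMap F[X] (RatFunc F) (C a) with hA
  set B := algebraMap F[X] (RatFunc F) (C b) with hB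
  set x := algebraMap F[X] (RatFunc F) X with hx
  set f' := algebraMap F[X] (RatFunc F) f with hf'
  set G' := algebraMap F[X] (RatFunc F) G with hG'
  have hns : ∀ u v : RatFunc F, v ^ 2 = u ^ 3 + A * l ^ 2 * u + B * l ^ 3 → v ≠ 0 →
      (tw a b).toAffine.Nonsingular u v := by
    intro u v huv hv
    rw [WeierstrassCurve.Affine.nonsingular_iff, WeierstrassCurve.Affine.equation_iff, ha1, ha2,
      ha3, ha4, ha6]
    refine ⟨by linear_combination huv, Or.inr ?_⟩
    intro hh
    have h3 : 2 * v = 0 := by linear_combination hh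
    rcases mul_eq_zero.1 h3 with h3 | h3
    · exact h2K h3
    · exact hv h3
  have hQ : (tw a b).toAffine.Nonsingular (l * x) (l ^ 2) := by
    apply hns _ _ _ (pow_ne_zero _ hl)
    linear_combination l ^ 3 * hlam
  have hP : (tw a b).toAffine.Nonsingular (l * x ^ (2 * k + 1)) (l ^ (k + 2)) := by
    apply hns _ _ _ (pow_ne_zero _ hl)
    have : (l ^ (k + 2)) ^ 2 = l ^ 3 * l ^ (2 * k + 1) := by ring
    rw [this, hfr']
    ring
  have hxne : l * x ^ (2 * k + 1) ≠ l * x := by
    intro hh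
    apply hD
    have := mul_left_cancel₀ hl hh
    rw [this, sub_self]
  refine ⟨WeierstrassCurve.Affine.Point.some _ _ hP, WeierstrassCurve.Affine.Point.some _ _ hQ,
    ⟨isCoprime_one_right, ?_⟩, WeierstrassCurve.Affine.Point.some_ne_zero _,
    ⟨isCoprime_one_right, ?_⟩, f, G, ⟨hfG, ?_⟩, hdeg⟩
  · simp only [WeierstrassCurve.Affine.Point.xRep_some, Matrix.cons_val_zero, Matrix.cons_val_one,
      map_mul, map_one]
    ring
  · simp only [WeierstrassCurve.Affine.Point.xRep_some, Matrix.cons_val_zero, Matrix.cons_val_one,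
      map_mul, map_one, map_pow]
    ring
  · rw [sub_eq_add_neg, WeierstrassCurve.Affine.Point.neg_some,
      WeierstrassCurve.Affine.Point.add_of_X_ne hxne]
    simp only [WeierstrassCurve.Affine.Point.xRep_some, Matrix.cons_val_zero,
      Matrix.cons_val_one, map_mul, mul_one, WeierstrassCurve.Affine.addX,
      WeierstrassCurve.Affine.negY, ha1, ha2, ha3]
    rw [WeierstrassCurve.Affine.slope_of_X_ne hxne]
    have e1 : l * x ^ (2 * k + 1) - l * x = l * (x ^ (2 * k + 1) - x) := by ring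
    rw [e1]
    have hD2 : (x ^ (2 * k + 1) - x) ^ 2 ≠ 0 := pow_ne_zero _ hD
    apply mul_right_cancel₀ hD2
    have e2 : (l ^ (k + 2) - (-l ^ 2 - 0 * (l * x) - 0)) / (l * (x ^ (2 * k + 1) - x))
        = l * (l ^ k + 1) / (x ^ (2 * k + 1) - x) := by
      rw [div_eq_div_iff (mul_ne_zero hl hD) hD]
      ring
    rw [e2, div_pow]
    have e3 : (l * (l ^ k + 1)) ^ 2 / (x ^ (2 * k + 1) - x) ^ 2 * (x ^ (2 * k + 1) - x) ^ 2 =
        (l * (l ^ k + 1)) ^ 2 := div_mul_cancel₀ _ hD2
    generalize (l * (l ^ k + 1)) ^ 2 / (x ^ (2 * k + 1) - x) ^ 2 = w at e3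
    linear_combination l * hE' - G' * e3

end H8b

end MP7ed9c3
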