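import Pool.Agent.Lib.MP_7ed9c3_nt.SpecH

set_option autoImplicit false

/-!
# MP_7ed9c3_nt, H9: the Hasse bound for a short Weierstrass equation
-/

namespace MP7ed9c3

open Polynomial

namespace H9

/-- a sequence with constant second difference `2` -/
theorem quad (d : ℤ → ℤ) (t q : ℤ) (h0 : d 0 = q) (h1 : d (-1) = 1 - t + q)
    (h : ∀ n, d (n + 1) + d (n - 1) = 2 * d n + 2) : ∀ n, d n = n ^ 2 + t * n + q := by
  have key : ∀ n : ℤ, d n = n ^ 2 + t * n + q ∧ d (n - 1) = (n - 1) ^ 2 + t * (n - 1) + q := by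
    intro n
    induction n using Int.induction_on with
    | zero =>
      refine ⟨by rw [h0]; ring, ?_⟩
      rw [show (0 : ℤ) - 1 = -1 by norm_num, h1]
      ring
    | succ i ih =>
      obtain ⟨e1, e2⟩ := ih
      have e3 := h i
      refine ⟨?_, ?_⟩
      · have : d (i + 1) = 2 * d i + 2 - d (i - 1) := by linarith
        rw [this, e1, e2]
        ring
      · rw [show (i : ℤ) + 1 - 1 = i by ring, e1]
    | pred i ih =>
      obtain ⟨e1, e2⟩ := ih
      have e3 := h (-(i : ℤ) - 1)
      rw [show -(i : ℤ) - 1 + 1 = -(i : ℤ) by ring] at e3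
      refine ⟨e2, ?_⟩
      have : d (-(i : ℤ) - 1 - 1) = 2 * d (-(i : ℤ) - 1) + 2 - d (-(i : ℤ)) := by linarith
      rw [this, e1, e2]
      ring
  exact fun n => (key n).1

/-- the arithmetic of the Hasse bound -/
theorem arith (d : ℤ → ℤ) (t q : ℤ) (hd : ∀ n, d n = n ^ 2 + t * n + q) (hpos : ∀ n, 0 ≤ d n)
    (hz : ∀ n, d n = 0 → d (n - 1) = 0 → False) : t ^ 2 ≤ 4 * q := by
  by_contra hlt
  push Not at hlt
  rcases Int.even_or_odd' t with ⟨m, hm | hm⟩
  · have h1 := hpos (-m)
    rw [hd, hm] at h1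
    rw [hm] at hlt
    nlinarith
  · have h1 := hpos (-m)
    have h2 := hd (-m)
    have h3 := hd (-m - 1)
    rw [hm] at h2 h3 hlt
    have e1 : d (-m) = q - m ^ 2 - m := by rw [h2]; ring
    have e2 : d (-m - 1) = q - m ^ 2 - m := by rw [h3]; ring
    rw [e1] at h1
    have e3 : q - m ^ 2 - m ≤ 0 := by nlinarith
    have e4 : q - m ^ 2 - m = 0 := le_antisymm e3 h1
    exact hz (-m) (by rw [e1, e4]) (by rw [e2, e4])

variable {F : Type} [Field F]

theorem natDegree_C_mul' {e : F} (he : e ≠ 0) (f : F[X]) : (C e * f).natDegree = f.natDegree :=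
  Polynomial.natDegree_C_mul he

open Classical in
theorem eq_zero_of_rep {a b : F} {P : (tw a b).toAffine.Point} {f g : F[X]}
    (h : Rep a b P f g) (hg : g = 0) : P = 0 := by
  obtain ⟨h1, h2⟩ := h
  rw [hg] at h1 h2
  have hf : f ≠ 0 := by
    rintro rfl
    exact not_isCoprime_zero_zero h1
  have hl : lam a b ≠ 0 := by
    have : (lam a b).Monic := by
      unfold lam
      monicity!
    exact this.ne_zero
  rw [map_zero, zero_mul] at h2
  have h3 : algebraMap F[X] (RatFunc F) (f * lam a b) ≠ 0 := by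
    rw [Ne, map_eq_zero_iff _ (RatFunc.algebraMap_injective F)]
    exact mul_ne_zero hf hl
  have h4 : P.xRep 1 = 0 := by
    rcases mul_eq_zero.1 h2 with h | h
    · exact absurd h h3
    · exact h
  cases P with
  | zero => rfl
  | some x y hxy =>
    exfalso
    rw [WeierstrassCurve.Affine.Point.xRep_some] at h4
    simp at h4

end H9

open H9 in
open Classical in
theorem hasseShort (h5 : RepFacts) (h6 : StepRep) (h7 : DegStep) (h8 : BasePoints) :
    HasseShort := by
  intro F _ _ a b h2 hΔ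
  obtain ⟨P, Q, hQ, hQ0, hP, f', g', hPQ, hdeg⟩ := h8 F a b h2 hΔ
  obtain ⟨hex, huniq⟩ := h5 F a b
  choose f g hfg using hex
  set q : ℕ := Nat.card F with hq
  set N : ℕ := shortCount a b with hN
  have hq1 : 0 < q := Nat.card_pos
  -- one step
  have hstep : ∀ R : (tw a b).toAffine.Point, (g R).degree < (f R).degree →
      (f (R + Q)).natDegree + (f (R - Q)).natDegree = 2 * (f R).natDegree + 2 ∧
      (g (R + Q)).degree < (f (R + Q)).degree ∧ (g (R - Q)).degree < (f (R - Q)).degree := by
    intro R hR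
    obtain ⟨e, he, e1, e2, e3⟩ := h6 F a b h2 hΔ R Q (f R) (g R) (f (R + Q)) (g (R + Q))
      (f (R - Q)) (g (R - Q)) hQ (hfg R) (hfg (R + Q)) (hfg (R - Q))
    exact h7 F a b e (f R) (g R) _ _ _ _ he hR e1 e2 e3
  -- the degrees at the points P + n Q
  have hbase : (g P).degree < (f P).degree ∧ (f P).natDegree = q := by
    obtain ⟨e, he, e1, e2⟩ := huniq P (X ^ q) 1 (f P) (g P) hP (hfg P)
    constructor
    · rw [e1, e2, mul_one, degree_C he, degree_C_mul_X_pow q he]
      exact_mod_cast hq1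
    · rw [e1, natDegree_C_mul' he, natDegree_X_pow]
  have hadd : ∀ n : ℤ, P + (n + 1) • Q = P + n • Q + Q := by
    intro n
    rw [add_zsmul, one_zsmul, add_assoc]
  have hsub : ∀ n : ℤ, P + (n - 1) • Q = P + n • Q - Q := by
    intro n
    rw [sub_zsmul, one_zsmul, add_sub_assoc, ← sub_eq_add_neg]
  have hall : ∀ n : ℤ, (g (P + n • Q)).degree < (f (P + n • Q)).degree := by
    intro n
    induction n using Int.induction_on with
    | zero =>
      rw [zero_zsmul, add_zero]
      exact hbase.1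
    | succ i ih =>
      rw [hadd]
      exact (hstep _ ih).2.1
    | pred i ih =>
      rw [hsub]
      exact (hstep _ ih).2.2
  set d : ℤ → ℤ := fun n => ((f (P + n • Q)).natDegree : ℤ) with hd
  have hrec : ∀ n, d (n + 1) + d (n - 1) = 2 * d n + 2 := by
    intro n
    have := (hstep _ (hall n)).1
    rw [hd]
    simp only
    rw [hadd, hsub]
    exact_mod_cast this
  have hd0 : d 0 = q := by
    rw [hd]
    simp only
    rw [zero_zsmul, add_zero, hbase.2]
  have hd1 : d (-1) = 1 - ((q : ℤ) - N) + q := by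
    rw [hd]
    simp only
    have e1 : P + (-1 : ℤ) • Q = P - Q := by
      rw [neg_zsmul, one_zsmul, sub_eq_add_neg]
    rw [e1]
    obtain ⟨e, he, e2, -⟩ := huniq (P - Q) f' g' (f (P - Q)) (g (P - Q)) hPQ (hfg (P - Q))
    rw [e2, natDegree_C_mul' he, hdeg]
    push_cast
    ring
  have hquad := quad d ((q : ℤ) - N) q hd0 hd1 hrec
  refine arith d ((q : ℤ) - N) q hquad (fun n => by rw [hd]; exact Int.natCast_nonneg _) ?_
  intro n hn hn1
  have hz : ∀ m : ℤ, d m = 0 → P + m • Q = 0 := by
    intro m hm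
    have e1 : (f (P + m • Q)).natDegree = 0 := by
      have : ((f (P + m • Q)).natDegree : ℤ) = 0 := hm
      exact_mod_cast this
    have e2 : (g (P + m • Q)).degree < 0 :=
      lt_of_lt_of_le (hall m) (by
        have := degree_le_natDegree (p := f (P + m • Q))
        rw [e1] at this
        exact_mod_cast this)
    have e3 : g (P + m • Q) = 0 := by
      rw [← degree_eq_bot]
      exact Nat.WithBot.lt_zero_iff.1 e2
    exact eq_zero_of_rep (hfg _) e3
  have e1 := hz n hn
  have e2 := hz (n - 1) hn1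
  rw [hsub, e1, zero_sub, neg_eq_zero] at e2
  exact hQ0 e2

end MP7ed9c3
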