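import Pool.Agent.Lib.MP_7ed9c3_nt.SpecN

/-!
# MP_7ed9c3_nt: N1, counting primes
-/

namespace MP7ed9c3

open NumberField IsDedekindDomain Filter Topology

namespace N1

/-- Chebyshev's bound at powers of two. -/
theorem pi_bound (k : ℕ) : (Nat.primeCounting (2 ^ (k + 1)) : ℝ) ≤
    4 * (2 + 1 / Real.log 2) * 2 ^ k / (k + 1) := by
  have hl2 : 0 < Real.log 2 := Real.log_pos (by norm_num)
  set x : ℝ := 2 ^ (k + 1) with hx
  have hx1 : 1 < x := one_lt_pow₀ (by norm_num) (by omega)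
  have hx0 : 0 < x := by linarith
  have h := Chebyshev.pi_le_log4_mul_div hx1
  have hfl : ⌊x⌋₊ = 2 ^ (k + 1) := by
    rw [hx]
    exact_mod_cast Nat.floor_natCast (R := ℝ) (2 ^ (k + 1))
  rw [hfl] at h
  have hL : Real.log (√x) = (k + 1) * Real.log 2 / 2 := by
    rw [Real.log_sqrt hx0.le, hx, Real.log_pow]
    push_cast
    ring
  have hLpos : 0 < Real.log (√x) := by
    rw [hL]
    positivity
  have hs : √x ≤ x / Real.log (√x) := by
    rw [le_div_iff₀ hLpos]
    have h1 : Real.log (√x) ≤ √x - 1 := Real.log_le_sub_one_of_pos (Real.sqrt_pos.mpr hx0)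
    have h2 : √x * √x = x := Real.mul_self_sqrt hx0.le
    nlinarith [Real.sqrt_nonneg x]
  have h4 : Real.log 4 = 2 * Real.log 2 := by
    have : (4 : ℝ) = 2 ^ 2 := by norm_num
    rw [this, Real.log_pow]
    norm_num
  have h5 : Real.log 4 * x / Real.log (√x) + √x ≤ (2 * Real.log 2 + 1) * (x / Real.log (√x)) := by
    rw [h4]
    have : 2 * Real.log 2 * x / Real.log (√x) = 2 * Real.log 2 * (x / Real.log (√x)) := by ring
    rw [this]
    linarith
  refine h.trans (h5.trans (le_of_eq ?_))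
  rw [hL, hx, pow_succ]
  field_simp
  ring

theorem exists_prime {K : Type} [Field K] [NumberField K] (v : HeightOneSpectrum (𝓞 K)) :
    2 ≤ nm v ∧ ∃ p : ℕ, p.Prime ∧ p ≤ nm v ∧ ((p : ℕ) : 𝓞 K) ∈ v.asIdeal := by
  have h0 : nm v ≠ 0 := by
    rw [nm, Ne, Ideal.absNorm_eq_zero_iff]
    exact v.ne_bot
  have h1 : nm v ≠ 1 := by
    rw [nm, Ne, Ideal.absNorm_eq_one_iff]
    exact v.isPrime.ne_top
  refine ⟨by omega, ?_⟩
  have hmem : ((nm v : ℕ) : 𝓞 K) ∈ v.asIdeal := Ideal.absNorm_mem v.asIdeal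
  have key : ∀ l : List ℕ, ((l.prod : ℕ) : 𝓞 K) ∈ v.asIdeal →
      ∃ p ∈ l, ((p : ℕ) : 𝓞 K) ∈ v.asIdeal := by
    intro l
    induction l with
    | nil =>
      intro h
      exact absurd ((Ideal.eq_top_iff_one _).mpr (by simpa using h)) v.isPrime.ne_top
    | cons a l ih =>
      intro h
      rw [List.prod_cons, Nat.cast_mul] at h
      rcases v.isPrime.mem_or_mem h with h | h
      · exact ⟨a, List.mem_cons_self, h⟩
      · obtain ⟨p, hp, hm⟩ := ih h
        exact ⟨p, List.mem_cons_of_mem _ hp, hm⟩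
  obtain ⟨p, hp, hm⟩ := key (nm v).primeFactorsList (by rwa [Nat.prod_primeFactorsList h0])
  exact ⟨p, Nat.prime_of_mem_primeFactorsList hp,
    Nat.le_of_dvd (Nat.pos_of_ne_zero h0) (Nat.dvd_of_mem_primeFactorsList hp), hm⟩

theorem mem_over {K : Type} [Field K] [NumberField K] (v : HeightOneSpectrum (𝓞 K)) {p : ℕ}
    (hp : p.Prime) (h : ((p : ℕ) : 𝓞 K) ∈ v.asIdeal) :
    v.asIdeal ∈ IsDedekindDomain.primesOverFinset (Ideal.span {(p : ℤ)}) (𝓞 K) := by
  have hp0 : Ideal.span {(p : ℤ)} ≠ ⊥ := by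
    rw [Ne, Ideal.span_singleton_eq_bot]
    exact_mod_cast hp.ne_zero
  have hmax : (Ideal.span {(p : ℤ)}).IsMaximal := by
    have hpr : Prime (p : ℤ) := Nat.prime_iff_prime_int.mp hp
    have h1 : (Ideal.span {(p : ℤ)}).IsPrime :=
      (Ideal.span_singleton_prime hpr.ne_zero).mpr hpr
    exact h1.isMaximal hp0
  rw [IsDedekindDomain.mem_primesOverFinset_iff hp0]
  refine ⟨v.isPrime, ⟨?_⟩⟩
  refine hmax.eq_of_le ?_ ?_
  · rw [Ne, Ideal.eq_top_iff_one, Ideal.under_def, Ideal.mem_comap, map_one]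
    exact fun h1 => v.isPrime.ne_top ((Ideal.eq_top_iff_one _).mpr h1)
  · rw [Ideal.span_singleton_le_iff_mem, Ideal.under_def, Ideal.mem_comap]
    simpa using h

end N1

open N1 in
open Classical in
theorem countPrimes : CountPrimes := by
  intro K _ _
  refine ⟨Module.finrank ℚ K * (4 * (2 + 1 / Real.log 2)), fun v => (exists_prime v).1, ?_⟩
  intro k
  set P : Finset ℕ := (Finset.range (2 ^ (k + 1) + 1)).filter Nat.Prime with hP
  set U : Finset (Ideal (𝓞 K)) := P.biUnion fun p =>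
    IsDedekindDomain.primesOverFinset (Ideal.span {(p : ℤ)}) (𝓞 K) with hU
  have hUcard : U.card ≤ P.card * Module.finrank ℚ K := by
    refine Finset.card_biUnion_le_card_mul _ _ _ fun p hp => ?_
    have hpp : p.Prime := (Finset.mem_filter.mp hp).2
    have hp0 : Ideal.span {(p : ℤ)} ≠ ⊥ := by
      rw [Ne, Ideal.span_singleton_eq_bot]
      exact_mod_cast hpp.ne_zero
    have hpr : Prime (p : ℤ) := Nat.prime_iff_prime_int.mp hpp
    have h1 : (Ideal.span {(p : ℤ)}).IsPrime :=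
      (Ideal.span_singleton_prime hpr.ne_zero).mpr hpr
    have hmax : (Ideal.span {(p : ℤ)}).IsMaximal := h1.isMaximal hp0
    exact Ideal.card_primesOverFinset_le_finrank (𝓞 K) ℚ K hp0
  have hPcard : P.card = Nat.primeCounting (2 ^ (k + 1)) := by
    rw [hP, Nat.primeCounting, Nat.primeCounting', Nat.count_eq_card_filter_range]
  set S : Set (HeightOneSpectrum (𝓞 K)) := {v | 2 ^ k ≤ nm v ∧ nm v < 2 ^ (k + 1)} with hS
  have hinj : Function.Injective (fun v : HeightOneSpectrum (𝓞 K) => v.asIdeal) :=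
    fun v w h => HeightOneSpectrum.ext h
  have hsub : (fun v : HeightOneSpectrum (𝓞 K) => v.asIdeal) '' S ⊆ (U : Set (Ideal (𝓞 K))) := by
    rintro _ ⟨v, hv, rfl⟩
    obtain ⟨p, hp, hle, hm⟩ := (exists_prime v).2
    rw [Finset.mem_coe, hU, Finset.mem_biUnion]
    refine ⟨p, Finset.mem_filter.mpr ⟨Finset.mem_range.mpr ?_, hp⟩, mem_over v hp hm⟩
    have := hv.2
    omega
  have hfin : ((fun v : HeightOneSpectrum (𝓞 K) => v.asIdeal) '' S).Finite :=
    U.finite_toSet.subset hsub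
  refine ⟨Set.Finite.of_finite_image hfin hinj.injOn, ?_⟩
  have hcard : S.ncard ≤ U.card := by
    rw [← Set.ncard_image_of_injective S hinj, ← Set.ncard_coe_finset]
    exact Set.ncard_le_ncard hsub U.finite_toSet
  have h1 : (S.ncard : ℝ) ≤ (Nat.primeCounting (2 ^ (k + 1)) : ℝ) * Module.finrank ℚ K := by
    rw [← hPcard]
    exact_mod_cast hcard.trans hUcard
  refine h1.trans ?_
  have h2 := mul_le_mul_of_nonneg_right (pi_bound k)
    (Nat.cast_nonneg (α := ℝ) (Module.finrank ℚ K))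
  refine h2.trans (le_of_eq ?_)
  ring

end MP7ed9c3
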