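import Pool.Agent.Lib.MP_7ed9c3_nt.SpecN

/-!
# MP_7ed9c3_nt: an integral model
-/

namespace MP7ed9c3

open NumberField IsDedekindDomain Filter Topology

theorem existsModel : ExistsModel := by
  intro K _ _ E hE
  classical
  obtain ⟨d, hd⟩ := IsLocalization.exist_integer_multiples_of_finset (nonZeroDivisors (𝓞 K))
    ({E.a₁, E.a₂, E.a₃, E.a₄, E.a₆} : Finset K)
  have hd0 : algebraMap (𝓞 K) K (d : 𝓞 K) ≠ 0 := by
    intro h
    exact nonZeroDivisors.ne_zero d.2 ((FaithfulSMul.algebraMap_eq_zero_iff (𝓞 K) K).1 h)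
  obtain ⟨b₁, h₁⟩ := hd E.a₁ (by simp)
  obtain ⟨b₂, h₂⟩ := hd E.a₂ (by simp)
  obtain ⟨b₃, h₃⟩ := hd E.a₃ (by simp)
  obtain ⟨b₄, h₄⟩ := hd E.a₄ (by simp)
  obtain ⟨b₆, h₆⟩ := hd E.a₆ (by simp)
  have hs : ∀ x : K, (d : 𝓞 K) • x = algebraMap (𝓞 K) K (d : 𝓞 K) * x := fun x =>
    Algebra.smul_def _ _
  rw [hs] at h₁ h₂ h₃ h₄ h₆
  have key : (⟨(Units.mk0 _ hd0)⁻¹, 0, 0, 0⟩ : WeierstrassCurve.VariableChange K) • E =
      (⟨b₁, d * b₂, d ^ 2 * b₃, d ^ 3 * b₄, d ^ 5 * b₆⟩ : WeierstrassCurve (𝓞 K)).map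
        (algebraMap (𝓞 K) K) := by
    rw [WeierstrassCurve.variableChange_def]
    ext
    · simp only [WeierstrassCurve.map_a₁, h₁, inv_inv, Units.val_mk0]
      ring
    · simp only [WeierstrassCurve.map_a₂, map_mul, h₂, inv_inv, Units.val_mk0]
      ring
    · simp only [WeierstrassCurve.map_a₃, map_mul, map_pow, h₃, inv_inv, Units.val_mk0]
      ring
    · simp only [WeierstrassCurve.map_a₄, map_mul, map_pow, h₄, inv_inv, Units.val_mk0]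
      ring
    · simp only [WeierstrassCurve.map_a₆, map_mul, map_pow, h₆, inv_inv, Units.val_mk0]
      ring
  refine ⟨_, ?_, _, key⟩
  intro h0
  have h1 := congrArg WeierstrassCurve.Δ key
  rw [WeierstrassCurve.variableChange_Δ, WeierstrassCurve.map_Δ, h0, map_zero] at h1
  have h2 : E.Δ ≠ 0 := E.isUnit_Δ.ne_zero
  have h3 : ((((Units.mk0 _ hd0)⁻¹)⁻¹ : Kˣ) : K) ^ 12 ≠ 0 := pow_ne_zero _ (Units.ne_zero _)
  exact mul_ne_zero h3 h2 h1

end MP7ed9c3
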