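import Pool.Agent.Lib.MP_7ed9c3_nt.SpecN

/-!
# MP_7ed9c3_nt: N3, independence of the minimal model at good primes not dividing 6
-/

namespace MP7ed9c3

open NumberField IsDedekindDomain

theorem N3.shortCount_scale {F : Type} [Field F] (w A B : F) (hw : w ≠ 0) :
    shortCount (w ^ 4 * A) (w ^ 6 * B) = shortCount A B := by
  symm
  refine Nat.card_congr ⟨fun p => ⟨(w ^ 2 * p.1.1, w ^ 3 * p.1.2), ?_⟩,
    fun p => ⟨((w ^ 2)⁻¹ * p.1.1, (w ^ 3)⁻¹ * p.1.2), ?_⟩, ?_, ?_⟩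
  · have hp := p.2
    change (w ^ 3 * p.1.2) ^ 2 = (w ^ 2 * p.1.1) ^ 3 + w ^ 4 * A * (w ^ 2 * p.1.1) + w ^ 6 * B
    linear_combination w ^ 6 * hp
  · have hp := p.2
    change ((w ^ 3)⁻¹ * p.1.2) ^ 2 = ((w ^ 2)⁻¹ * p.1.1) ^ 3 + A * ((w ^ 2)⁻¹ * p.1.1) + B
    field_simp
    linear_combination hp
  · intro p
    ext
    · simp [hw]
    · simp [hw]
  · intro p
    ext
    · simp [hw]
    · simp [hw]

theorem N3.resc {F : Type} [Field F] (x c e : F) (n : ℕ) :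
    -(x ^ n * c / e) = x ^ n * (-(c / e)) := by ring

theorem goodData (h1 : ShortForm) : GoodData := by
  intro K _ _ E W₀ hE v W hΔ₀ h6 hmin
  obtain ⟨C₀, hC₀⟩ := hE
  obtain ⟨⟨C₁, hC₁⟩, hmin'⟩ := hmin
  have hΔ : W.Δ ∉ v.asIdeal := by
    intro h
    apply hΔ₀
    have := hmin' W₀ ⟨C₀, hC₀⟩ 1 (by rwa [pow_one])
    rwa [pow_one] at this
  refine ⟨hΔ, ?_⟩
  obtain ⟨C, hC⟩ : ∃ C : WeierstrassCurve.VariableChange K,
      C • W₀.map (algebraMap (𝓞 K) K) = W.map (algebraMap (𝓞 K) K) := by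
    refine ⟨C₁ * C₀⁻¹, ?_⟩
    rw [← hC₀, ← hC₁, smul_smul, inv_mul_cancel_right]
  set w : K := ((C.u⁻¹ : Kˣ) : K) with hw
  have e12 : algebraMap (𝓞 K) K W.Δ = w ^ 12 * algebraMap (𝓞 K) K W₀.Δ := by
    rw [← WeierstrassCurve.map_Δ, ← WeierstrassCurve.map_Δ, ← hC,
      WeierstrassCurve.variableChange_Δ]
  have e4 : algebraMap (𝓞 K) K W.c₄ = w ^ 4 * algebraMap (𝓞 K) K W₀.c₄ := by
    rw [← WeierstrassCurve.map_c₄, ← WeierstrassCurve.map_c₄, ← hC,
      WeierstrassCurve.variableChange_c₄]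
  have e6 : algebraMap (𝓞 K) K W.c₆ = w ^ 6 * algebraMap (𝓞 K) K W₀.c₆ := by
    rw [← WeierstrassCurve.map_c₆, ← WeierstrassCurve.map_c₆, ← hC,
      WeierstrassCurve.variableChange_c₆]
  have hv : v.valuation K w = 1 := by
    have h := congrArg (v.valuation K) e12
    rw [map_mul, map_pow, (HeightOneSpectrum.valuation_eq_one_iff_notMem v).2 hΔ,
      (HeightOneSpectrum.valuation_eq_one_iff_notMem v).2 hΔ₀, mul_one] at h
    exact (pow_eq_one_iff.1 h.symm).resolve_right (by norm_num)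
  obtain ⟨α, β, hαβ⟩ := HeightOneSpectrum.exists_primeCompl_mul_eq_of_integer v w hv.le
  have hβ : (β : 𝓞 K) ∉ v.asIdeal := β.2
  have hα : α ∉ v.asIdeal := by
    rw [← HeightOneSpectrum.valuation_eq_one_iff_notMem (K := K), ← hαβ, map_mul, hv, one_mul]
    exact (HeightOneSpectrum.valuation_eq_one_iff_notMem v).2 hβ
  have hinj : Function.Injective (algebraMap (𝓞 K) K) := IsFractionRing.injective (𝓞 K) K
  have f4 : (β : 𝓞 K) ^ 4 * W.c₄ = α ^ 4 * W₀.c₄ := by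
    apply hinj
    rw [map_mul, map_mul, map_pow, map_pow, e4, ← hαβ]
    ring
  have f6 : (β : 𝓞 K) ^ 6 * W.c₆ = α ^ 6 * W₀.c₆ := by
    apply hinj
    rw [map_mul, map_mul, map_pow, map_pow, e6, ← hαβ]
    ring
  -- reduction
  have hmax : v.asIdeal.IsMaximal := v.isMaximal
  let _ : Field (𝓞 K ⧸ v.asIdeal) := Ideal.Quotient.field v.asIdeal
  have hne : ∀ x : 𝓞 K, x ∉ v.asIdeal → (Ideal.Quotient.mk v.asIdeal x) ≠ 0 := by
    intro x hx h
    exact hx (Ideal.Quotient.eq_zero_iff_mem.1 h)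
  have h2 : (2 : 𝓞 K ⧸ v.asIdeal) ≠ 0 := by
    have h : (2 : 𝓞 K) ∉ v.asIdeal := by
      intro h
      apply h6
      have : (6 : 𝓞 K) = 3 * 2 := by norm_num
      rw [this]
      exact v.asIdeal.mul_mem_left _ h
    have := hne 2 h
    rwa [map_ofNat] at this
  have h3 : (3 : 𝓞 K ⧸ v.asIdeal) ≠ 0 := by
    have h : (3 : 𝓞 K) ∉ v.asIdeal := by
      intro h
      apply h6
      have : (6 : 𝓞 K) = 2 * 3 := by norm_num
      rw [this]
      exact v.asIdeal.mul_mem_left _ h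
    have := hne 3 h
    rwa [map_ofNat] at this
  have hb := hne β hβ
  have ha := hne α hα
  have g4 : (red W v).c₄ = (Ideal.Quotient.mk v.asIdeal α / Ideal.Quotient.mk v.asIdeal β) ^ 4 *
      (red W₀ v).c₄ := by
    unfold red
    rw [WeierstrassCurve.map_c₄, WeierstrassCurve.map_c₄]
    have h := congrArg (Ideal.Quotient.mk v.asIdeal) f4
    rw [map_mul, map_mul, map_pow, map_pow] at h
    rw [div_pow, div_mul_eq_mul_div, eq_div_iff (pow_ne_zero 4 hb), ← h]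
    ring
  have g6 : (red W v).c₆ = (Ideal.Quotient.mk v.asIdeal α / Ideal.Quotient.mk v.asIdeal β) ^ 6 *
      (red W₀ v).c₆ := by
    unfold red
    rw [WeierstrassCurve.map_c₆, WeierstrassCurve.map_c₆]
    have h := congrArg (Ideal.Quotient.mk v.asIdeal) f6
    rw [map_mul, map_mul, map_pow, map_pow] at h
    rw [div_pow, div_mul_eq_mul_div, eq_div_iff (pow_ne_zero 6 hb), ← h]
    ring
  have k1 := (h1 (𝓞 K ⧸ v.asIdeal) (red W v) h2 h3).1
  have k0 := (h1 (𝓞 K ⧸ v.asIdeal) (red W₀ v) h2 h3).1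
  have key : affCount (red W v) = affCount (red W₀ v) := by
    rw [k1, k0, g4, g6, N3.resc, N3.resc]
    exact N3.shortCount_scale _ _ _ (div_ne_zero ha hb)
  unfold tr
  rw [key]

end MP7ed9c3
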