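import Pool.Agent.Lib.MP_7ed9c3_nt.SpecN

/-!
# MP_7ed9c3_nt: N4, bounds for the traces
-/

namespace MP7ed9c3

open NumberField IsDedekindDomain

theorem traceBound (h10 : Hasse) (h11 : Trivial) : TraceBound := by
  intro K _ _ W v
  let _ : Field (𝓞 K ⧸ v.asIdeal) := Ideal.Quotient.field v.asIdeal
  have : Finite (𝓞 K ⧸ v.asIdeal) := Ideal.finiteQuotientOfFreeOfNeBot v.asIdeal v.ne_bot
  have hcard : nm v = Nat.card (𝓞 K ⧸ v.asIdeal) := by
    unfold nm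
    rw [Ideal.absNorm_apply, Submodule.cardQuot_apply]
  refine ⟨?_, ?_⟩
  · have h := h11 (𝓞 K ⧸ v.asIdeal) (red W v)
    have h2 : |(tr W v : ℤ)| ≤ (nm v : ℤ) := by
      unfold tr
      rw [hcard]
      exact h
    exact_mod_cast h2
  · intro hΔ h6
    have hmem : ∀ r : 𝓞 K, r ∉ v.asIdeal → (Ideal.Quotient.mk v.asIdeal r) ≠ 0 := by
      intro r hr h0
      exact hr (Ideal.Quotient.eq_zero_iff_mem.mp h0)
    have h6' := hmem 6 h6
    rw [map_ofNat] at h6'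
    have h2 : (2 : 𝓞 K ⧸ v.asIdeal) ≠ 0 := by
      intro h0
      apply h6'
      have : (6 : 𝓞 K ⧸ v.asIdeal) = 2 * 3 := by norm_num
      rw [this, h0, zero_mul]
    have h3 : (3 : 𝓞 K ⧸ v.asIdeal) ≠ 0 := by
      intro h0
      apply h6'
      have : (6 : 𝓞 K ⧸ v.asIdeal) = 2 * 3 := by norm_num
      rw [this, h0, mul_zero]
    have hΔ' : (red W v).Δ ≠ 0 := by
      unfold red
      rw [WeierstrassCurve.map_Δ]
      exact hmem _ hΔ
    have h := h10 (𝓞 K ⧸ v.asIdeal) (red W v) h2 h3 hΔ'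
    have h4 : (tr W v : ℤ) ^ 2 ≤ 4 * (nm v : ℤ) := by
      unfold tr
      rw [hcard]
      exact h
    have h5 : (tr W v : ℝ) ^ 2 ≤ 4 * (nm v : ℝ) := by exact_mod_cast h4
    refine abs_le_of_sq_le_sq ?_ (by positivity)
    rw [mul_pow, Real.sq_sqrt (Nat.cast_nonneg _)]
    linarith

end MP7ed9c3
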