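import Pool.Agent.Lib.MP_7ed9c3_nt.SpecN

/-!
# MP_7ed9c3_nt: one exceptional set for all curves over all number fields in `ℂ` (N6)
-/

namespace MP7ed9c3

open NumberField IsDedekindDomain Filter Topology

/-- A number field in `ℂ` is generated by an algebraic number. -/
lemma N6_closure (K : Subfield ℂ) [NumberField K] :
    ∃ a : ℂ, IsAlgebraic ℚ a ∧ Subfield.closure {a} = K := by
  obtain ⟨α, hα⟩ := Field.exists_primitive_element ℚ K
  refine ⟨α, ?_, le_antisymm ?_ ?_⟩
  · have h1 : IsAlgebraic ℚ α := Algebra.IsAlgebraic.isAlgebraic α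
    have h2 : IsAlgebraic ℚ (algebraMap K ℂ α) := h1.algebraMap
    exact h2
  · rw [Subfield.closure_le]
    simp
  · intro x hx
    let L : Subfield K := (Subfield.closure {(α : ℂ)}).comap K.subtype
    let F : IntermediateField ℚ K := L.toIntermediateField (fun q => by
      change K.subtype (algebraMap ℚ K q) ∈ Subfield.closure {(α : ℂ)}
      rw [eq_ratCast, map_ratCast]
      exact SubfieldClass.ratCast_mem _ q)
    have h1 : IntermediateField.adjoin ℚ {α} ≤ F := by
      rw [IntermediateField.adjoin_le_iff]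
      intro y hy
      rw [Set.mem_singleton_iff] at hy
      subst hy
      change K.subtype y ∈ Subfield.closure {(y : ℂ)}
      exact Subfield.subset_closure (Set.mem_singleton _)
    rw [hα] at h1
    have h2 : (⟨x, hx⟩ : K) ∈ F := h1 trivial
    exact h2

/-- There are countably many number fields in `ℂ`. -/
lemma N6_countable : Countable {K : Subfield ℂ // NumberField K} := by
  have h1 : Set.Countable {a : ℂ | IsAlgebraic ℚ a} := Algebraic.countable ℚ ℂ
  have h2 : Set.Countable ((fun a : ℂ => Subfield.closure {a}) '' {a : ℂ | IsAlgebraic ℚ a}) :=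
    h1.image _
  have h3 : {K : Subfield ℂ | NumberField K} ⊆
      (fun a : ℂ => Subfield.closure {a}) '' {a : ℂ | IsAlgebraic ℚ a} := by
    intro K hK
    haveI : NumberField K := hK
    obtain ⟨a, ha, h⟩ := N6_closure K
    exact ⟨a, ha, h⟩
  exact (h2.mono h3).to_subtype

/-- A number field is countable. -/
lemma N6_countable_field (K : Type) [Field K] [NumberField K] : Countable K := by
  have e := (Module.finBasis ℚ K).equivFun.toEquiv
  exact e.injective.countable

lemma N6_countable_curve (K : Type) [Field K] [NumberField K] :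
    Countable (WeierstrassCurve K) := by
  haveI := N6_countable_field K
  have h : Function.Injective
      (fun W : WeierstrassCurve K => (W.a₁, W.a₂, W.a₃, W.a₄, W.a₆)) := by
    intro W W' h
    simp only [Prod.mk.injEq] at h
    obtain ⟨h1, h2, h3, h4, h5⟩ := h
    exact WeierstrassCurve.ext h1 h2 h3 h4 h5
  exact h.countable

/-- **N6.** -/
theorem universal (h : Core) : Universal := by
  have key : ∀ θ : ℝ, 0 < θ → ∃ Z : Set ℝ, dimH Z ≤ ENNReal.ofReal (2 * θ) ∧ ∀ t ∉ Z,
      ∀ (K : Subfield ℂ) [NumberField K] (E : WeierstrassCurve K), E.IsElliptic →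
        ∀ M : HeightOneSpectrum (𝓞 K) → WeierstrassCurve (𝓞 K), (∀ v, IsMinAt E v (M v)) →
          Conv M θ t := by
    intro θ hθ
    have hc : ∀ (K : {K : Subfield ℂ // NumberField K}) (E : WeierstrassCurve K.1),
        ∃ Z : Set ℝ, dimH Z ≤ ENNReal.ofReal (2 * θ) ∧ (E.IsElliptic → ∀ t ∉ Z,
          haveI := K.2
          ∀ M : HeightOneSpectrum (𝓞 K.1) → WeierstrassCurve (𝓞 K.1),
            (∀ v, IsMinAt E v (M v)) → Conv M θ t) := by
      intro K E
      haveI := K.2
      by_cases hE : E.IsElliptic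
      · obtain ⟨Z, h1, h2⟩ := h K.1 E hE θ hθ
        exact ⟨Z, h1, fun _ => h2⟩
      · exact ⟨∅, by simp, fun h' => absurd h' hE⟩
    choose Z hZ1 hZ2 using hc
    haveI := N6_countable
    haveI : ∀ K : {K : Subfield ℂ // NumberField K}, Countable (WeierstrassCurve K.1) :=
      fun K => by
        haveI := K.2
        exact N6_countable_curve K.1
    refine ⟨⋃ K, ⋃ E, Z K E, ?_, ?_⟩
    · rw [dimH_iUnion]
      refine iSup_le fun K => ?_
      rw [dimH_iUnion]
      exact iSup_le fun E => hZ1 K E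
    · intro t ht K hK E hE M hM
      have h1 : t ∉ Z ⟨K, hK⟩ E := fun h' =>
        ht (Set.mem_iUnion.2 ⟨⟨K, hK⟩, Set.mem_iUnion.2 ⟨E, h'⟩⟩)
      exact hZ2 ⟨K, hK⟩ E hE t h1 M hM
  refine ⟨key, ?_⟩
  have h2 : ∀ k : ℕ, ∃ Z : Set ℝ, dimH Z ≤ ENNReal.ofReal (2 * (1 / ((k : ℝ) + 1))) ∧ ∀ t ∉ Z,
      ∀ (K : Subfield ℂ) [NumberField K] (E : WeierstrassCurve K), E.IsElliptic →
        ∀ M : HeightOneSpectrum (𝓞 K) → WeierstrassCurve (𝓞 K), (∀ v, IsMinAt E v (M v)) →
          Conv M (1 / ((k : ℝ) + 1)) t := fun k => key _ (by positivity)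
  choose Z hZ1 hZ2 using h2
  refine ⟨⋂ k, Z k, ?_, ?_⟩
  · have h3 : ∀ k : ℕ, dimH (⋂ k, Z k) ≤ ENNReal.ofReal (2 * (1 / ((k : ℝ) + 1))) := fun k =>
      (dimH_mono (Set.iInter_subset Z k)).trans (hZ1 k)
    have h4 : Tendsto (fun k : ℕ => ENNReal.ofReal (2 * (1 / ((k : ℝ) + 1)))) atTop (𝓝 0) := by
      have h5 : Tendsto (fun k : ℕ => 2 * (1 / ((k : ℝ) + 1))) atTop (𝓝 (2 * 0)) :=
        tendsto_one_div_add_atTop_nhds_zero_nat.const_mul 2
      have h6 := ENNReal.tendsto_ofReal h5
      simpa using h6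
    exact le_antisymm (ge_of_tendsto' h4 h3) zero_le
  · intro t ht
    rw [Set.mem_iInter, not_forall] at ht
    obtain ⟨k, hk⟩ := ht
    exact ⟨1 / ((k : ℝ) + 1), by positivity, hZ2 k t hk⟩

end MP7ed9c3
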