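import Pool.Agent.Lib.MP_7ed9c3_nt.H1
import Pool.Agent.Lib.MP_7ed9c3_nt.H2
import Pool.Agent.Lib.MP_7ed9c3_nt.H3
import Pool.Agent.Lib.MP_7ed9c3_nt.H4
import Pool.Agent.Lib.MP_7ed9c3_nt.H5
import Pool.Agent.Lib.MP_7ed9c3_nt.H6
import Pool.Agent.Lib.MP_7ed9c3_nt.H7
import Pool.Agent.Lib.MP_7ed9c3_nt.H8a
import Pool.Agent.Lib.MP_7ed9c3_nt.H8b
import Pool.Agent.Lib.MP_7ed9c3_nt.H9
import Pool.Agent.Lib.MP_7ed9c3_nt.H10
import Pool.Agent.Lib.MP_7ed9c3_nt.A0
import Pool.Agent.Lib.MP_7ed9c3_nt.A1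
import Pool.Agent.Lib.MP_7ed9c3_nt.A2
import Pool.Agent.Lib.MP_7ed9c3_nt.A3
import Pool.Agent.Lib.MP_7ed9c3_nt.A4
import Pool.Agent.Lib.MP_7ed9c3_nt.A5
import Pool.Agent.Lib.MP_7ed9c3_nt.A6
import Pool.Agent.Lib.MP_7ed9c3_nt.A7
import Pool.Agent.Lib.MP_7ed9c3_nt.A8
import Pool.Agent.Lib.MP_7ed9c3_nt.A9
import Pool.Agent.Lib.MP_7ed9c3_nt.N1
import Pool.Agent.Lib.MP_7ed9c3_nt.N2
import Pool.Agent.Lib.MP_7ed9c3_nt.N3
import Pool.Agent.Lib.MP_7ed9c3_nt.N4
import Pool.Agent.Lib.MP_7ed9c3_nt.N5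
import Pool.Agent.Lib.MP_7ed9c3_nt.N6

/-!
# MP_7ed9c3_nt: assembly of parts H, A, N
-/

namespace MP7ed9c3

theorem stepRepAll : StepRep := stepRep addSub primitive propUnit

theorem hasseShortAll : HasseShort :=
  hasseShort repFacts stepRepAll degStep (basePoints baseFrac)

theorem hasseAll : Hasse := hasse shortForm hasseShortAll

theorem largeValAll : LargeVal := largeVal meanSq

theorem partialSumsAll : PartialSums := partialSums largeValAll chain limsupDim

theorem groupAll : Group := group sparseSums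

theorem eulerAbsAll : EulerAbs := eulerAbs partialSumsAll abelStolz eulerLog sparseSums groupAll

theorem goodDataAll : GoodData := goodData shortForm

theorem traceBoundAll : TraceBound := traceBound hasseAll trivialBound

theorem coreAll : Core := core eulerAbsAll countPrimes existsModel goodDataAll traceBoundAll

theorem universalAll : Universal := universal coreAll

end MP7ed9c3
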