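import Pool.Agent.Lib.MP_7ed9c3_nt.SpecA

/-!
# A1: large values on a grid
-/

namespace MP7ed9c3

open Filter Topology MeasureTheory

/-- Coefficients of the derivative. -/
noncomputable def dcoef (c : ℕ → ℂ) (n : ℕ) : ℂ := -(Complex.I * (Real.log n : ℂ)) * c n

theorem a1_hasDerivAt_term (n : ℕ) (hn : 1 ≤ n) (t : ℝ) :
    HasDerivAt (fun t : ℝ => (n : ℂ) ^ (-(t : ℂ) * Complex.I))
      (-(Complex.I * (Real.log n : ℂ)) * (n : ℂ) ^ (-(t : ℂ) * Complex.I)) t := by
  have hn0 : (n : ℂ) ≠ 0 := by exact_mod_cast (by omega : n ≠ 0)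
  have h1 : HasDerivAt (fun z : ℂ => -z * Complex.I) (-1 * Complex.I) (t : ℂ) :=
    (hasDerivAt_id (t : ℂ)).neg.mul_const Complex.I
  have h2 := (h1.const_cpow (c := (n : ℂ)) (Or.inl hn0)).comp_ofReal
  have h3 : Complex.log (n : ℂ) = (Real.log n : ℂ) := by
    rw [Complex.ofReal_log (by positivity)]
    simp
  rw [h3] at h2
  convert h2 using 1
  ring

theorem a1_hasDerivAt_dir (c : ℕ → ℂ) (S : Finset ℕ) (hS : ∀ n ∈ S, 1 ≤ n) (t : ℝ) :
    HasDerivAt (dir c S) (dir (dcoef c) S t) t := by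
  unfold dir dcoef
  have h : ∀ n ∈ S, HasDerivAt (fun t : ℝ => c n * (n : ℂ) ^ (-(t : ℂ) * Complex.I))
      (-(Complex.I * (Real.log n : ℂ)) * c n * (n : ℂ) ^ (-(t : ℂ) * Complex.I)) t := by
    intro n hn
    exact ((a1_hasDerivAt_term n (hS n hn) t).const_mul (c n)).congr_deriv (by ring)
  exact HasDerivAt.fun_sum h

theorem a1_continuous_dir (c : ℕ → ℂ) (S : Finset ℕ) (hS : ∀ n ∈ S, 1 ≤ n) :
    Continuous (dir c S) :=
  continuous_iff_continuousAt.2 fun t => (a1_hasDerivAt_dir c S hS t).continuousAt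

/-- Sobolev inequality on an interval. -/
theorem a1_sobolev (D D' : ℝ → ℂ) (hD : ∀ t, HasDerivAt D (D' t) t) (hD' : Continuous D')
    (a b u : ℝ) (hab : a < b) (hu : u * (b - a) = 1) (t₀ : ℝ) (ha : a ≤ t₀) (hb : t₀ ≤ b) :
    ‖D t₀‖ ^ 2 ≤ ∫ t in a..b, (2 * u * ‖D t‖ ^ 2 + ‖D' t‖ ^ 2 / u) := by
  have hu0 : 0 < u := by
    by_contra hcon
    have : u * (b - a) ≤ 0 := mul_nonpos_of_nonpos_of_nonneg (not_lt.1 hcon) (by linarith)
    linarith
  have hDc : Continuous D := continuous_iff_continuousAt.2 fun t => (hD t).continuousAt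
  set g : ℝ → ℝ := fun t => ‖D t‖ ^ 2 with hg
  have hgc : Continuous g := by fun_prop
  have hgd : ∀ t, HasDerivAt g (2 * inner ℝ (D t) (D' t)) t := fun t => (hD t).norm_sq
  have hg'c : Continuous fun t => 2 * inner ℝ (D t) (D' t) := by fun_prop
  obtain ⟨t₁, ht₁, hmin⟩ := isCompact_Icc.exists_isMinOn (Set.nonempty_Icc.2 hab.le)
    hgc.continuousOn (s := Set.Icc a b)
  have h1 : g t₁ * (b - a) ≤ ∫ t in a..b, g t := by
    have : ∫ _t in a..b, g t₁ ≤ ∫ t in a..b, g t := by
      apply intervalIntegral.integral_mono_on hab.le (by simp) (hgc.intervalIntegrable _ _)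
      intro t ht
      exact hmin ht
    rw [intervalIntegral.integral_const, smul_eq_mul] at this
    linarith
  have h2 : g t₁ ≤ u * ∫ t in a..b, g t := by
    calc g t₁ = u * (g t₁ * (b - a)) := by linear_combination (-(g t₁)) * hu
      _ ≤ u * ∫ t in a..b, g t := by gcongr
  have h3 : g t₀ - g t₁ = ∫ t in t₁..t₀, 2 * inner ℝ (D t) (D' t) := by
    rw [intervalIntegral.integral_eq_sub_of_hasDerivAt (fun t _ => hgd t)
      (hg'c.intervalIntegrable _ _)]
  have h4 : |∫ t in t₁..t₀, 2 * inner ℝ (D t) (D' t)| ≤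
      ∫ t in a..b, (u * g t + ‖D' t‖ ^ 2 / u) := by
    have hWc : Continuous fun t => u * g t + ‖D' t‖ ^ 2 / u := by fun_prop
    have hW0 : ∀ t, 0 ≤ u * g t + ‖D' t‖ ^ 2 / u := fun t => by positivity
    calc |∫ t in t₁..t₀, 2 * inner ℝ (D t) (D' t)|
        ≤ |∫ t in t₁..t₀, (|2 * inner ℝ (D t) (D' t)|)| := by
          have := intervalIntegral.norm_integral_le_abs_integral_norm
            (f := fun t => 2 * inner ℝ (D t) (D' t)) (a := t₁) (b := t₀) (μ := volume)
          simpa [Real.norm_eq_abs] using this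
      _ ≤ |∫ t in a..b, (|2 * inner ℝ (D t) (D' t)|)| := by
          apply intervalIntegral.abs_integral_mono_interval
          · rw [Set.uIoc_of_le hab.le]
            intro x hx
            rw [Set.mem_uIoc] at hx
            rcases hx with hx | hx
            · exact ⟨lt_of_le_of_lt ht₁.1 hx.1, hx.2.trans hb⟩
            · exact ⟨lt_of_le_of_lt ha hx.1, hx.2.trans ht₁.2⟩
          · exact Filter.Eventually.of_forall fun t => abs_nonneg _
          · exact (hg'c.abs).intervalIntegrable _ _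
      _ = ∫ t in a..b, (|2 * inner ℝ (D t) (D' t)|) := by
          rw [abs_of_nonneg]
          exact intervalIntegral.integral_nonneg hab.le fun t _ => abs_nonneg _
      _ ≤ ∫ t in a..b, (u * g t + ‖D' t‖ ^ 2 / u) := by
          apply intervalIntegral.integral_mono_on hab.le (hg'c.abs.intervalIntegrable _ _)
            (hWc.intervalIntegrable _ _)
          intro t _
          rw [abs_mul, abs_of_pos (by norm_num : (0 : ℝ) < 2)]
          have h5 := abs_real_inner_le_norm (D t) (D' t)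
          have h6 : 2 * (‖D t‖ * ‖D' t‖) ≤ u * ‖D t‖ ^ 2 + ‖D' t‖ ^ 2 / u := by
            have h7 : 0 ≤ (u * ‖D t‖ - ‖D' t‖) ^ 2 / u := by positivity
            have h8 : (u * ‖D t‖ - ‖D' t‖) ^ 2 / u
                = u * ‖D t‖ ^ 2 + ‖D' t‖ ^ 2 / u - 2 * (‖D t‖ * ‖D' t‖) := by
              field_simp
              ring
            linarith
          calc 2 * |inner ℝ (D t) (D' t)| ≤ 2 * (‖D t‖ * ‖D' t‖) := by linarith
            _ ≤ _ := h6
  have hint1 : IntervalIntegrable (fun t => u * g t) volume a b :=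
    (hgc.const_mul u).intervalIntegrable _ _
  have hint2 : IntervalIntegrable (fun t => u * g t + ‖D' t‖ ^ 2 / u) volume a b := by
    have : Continuous fun t => u * g t + ‖D' t‖ ^ 2 / u := by fun_prop
    exact this.intervalIntegrable _ _
  have h9 : ∫ t in a..b, (2 * u * ‖D t‖ ^ 2 + ‖D' t‖ ^ 2 / u)
      = u * (∫ t in a..b, g t) + ∫ t in a..b, (u * g t + ‖D' t‖ ^ 2 / u) := by
    rw [← intervalIntegral.integral_const_mul, ← intervalIntegral.integral_add hint1 hint2]
    congr 1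
    funext t
    simp only [hg]
    ring
  rw [h9]
  have h10 : g t₀ - g t₁ ≤ ∫ t in a..b, (u * g t + ‖D' t‖ ^ 2 / u) := by
    rw [h3]
    exact (le_abs_self _).trans h4
  have : g t₀ = ‖D t₀‖ ^ 2 := rfl
  linarith

theorem a1_mass (c : ℕ → ℂ) (S : Finset ℕ) (K U : ℕ) (hS : ∀ n ∈ S, 1 ≤ n ∧ Nat.log 2 n < K)
    (hKU : K ≤ U) (k : ℕ) : mass (dcoef c) S k ≤ U * mass c S k := by
  unfold mass
  rw [Finset.mul_sum]
  apply Finset.sum_le_sum
  intro n hn
  rw [Finset.mem_filter] at hn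
  obtain ⟨h1, h2⟩ := hS n hn.1
  unfold dcoef
  rw [norm_mul, norm_neg, norm_mul, Complex.norm_I, one_mul, Complex.norm_real,
    Real.norm_eq_abs, abs_of_nonneg (Real.log_natCast_nonneg n)]
  have h3 : n < 2 ^ K := Nat.lt_pow_of_log_lt (by norm_num) h2
  have h4 : Real.log n ≤ U := by
    have hn0 : (0 : ℝ) < n := by exact_mod_cast h1
    calc Real.log n ≤ Real.log ((2 : ℝ) ^ K) := by
          apply Real.log_le_log hn0
          exact_mod_cast h3.le
      _ = K * Real.log 2 := by rw [Real.log_pow]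
      _ ≤ K * 1 := by
          gcongr
          have := Real.log_two_lt_d9
          linarith
      _ ≤ U := by
          rw [mul_one]
          exact_mod_cast hKU
  gcongr

theorem largeVal (h : MeanSq) : LargeVal := by
  intro c S K U T δ B hS hKU hU hδ hB
  have hS1 : ∀ n ∈ S, 1 ≤ n := fun n hn => (hS n hn).1
  obtain ⟨hi1, hm1⟩ := h c S K hS
  obtain ⟨hi2, hm2⟩ := h (dcoef c) S K hS
  have hU0 : (0 : ℝ) < U := by exact_mod_cast hU
  set D : ℝ → ℂ := dir c S with hDdef
  set D' : ℝ → ℂ := dir (dcoef c) S with hD'def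
  set M : ℝ := ∑ k ∈ Finset.range K, mass c S k ^ 2 with hM
  have hDc : Continuous D := a1_continuous_dir c S hS1
  have hD'c : Continuous D' := a1_continuous_dir (dcoef c) S hS1
  have hM' : ∑ k ∈ Finset.range K, mass (dcoef c) S k ^ 2 ≤ (U : ℝ) ^ 2 * M := by
    rw [hM, Finset.mul_sum]
    apply Finset.sum_le_sum
    intro k _
    have h0 : 0 ≤ mass (dcoef c) S k := Finset.sum_nonneg fun _ _ => norm_nonneg _
    calc mass (dcoef c) S k ^ 2 ≤ (U * mass c S k) ^ 2 := by
          gcongr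
          exact a1_mass c S K U hS hKU k
      _ = (U : ℝ) ^ 2 * mass c S k ^ 2 := by ring
  -- the weighted integrand
  set W : ℝ → ℝ := fun t => 2 * U * ‖D t‖ ^ 2 + ‖D' t‖ ^ 2 / U with hW
  have hW0 : ∀ t, 0 ≤ W t := fun t => by simp only [hW]; positivity
  have hWc : Continuous W := by fun_prop
  set G : ℝ → ℝ := fun t => Real.exp ((T : ℝ) ^ 2) * (Real.exp (-t ^ 2) * W t) with hG
  have hGeq : G = fun t => Real.exp ((T : ℝ) ^ 2) * ((2 * U) * (Real.exp (-t ^ 2) * ‖D t‖ ^ 2)
      + (1 / U) * (Real.exp (-t ^ 2) * ‖D' t‖ ^ 2)) := by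
    funext t
    simp only [hG, hW]
    ring
  have hGi : Integrable G := by
    rw [hGeq]
    exact ((hi1.const_mul _).add (hi2.const_mul _)).const_mul _
  have hG0 : ∀ t, 0 ≤ G t := fun t => by
    have := hW0 t
    simp only [hG]
    positivity
  have hGint : ∫ t, G t ≤ 120 * Real.exp ((T : ℝ) ^ 2) * U * M := by
    rw [hGeq, integral_const_mul, integral_add (hi1.const_mul _) (hi2.const_mul _),
      integral_const_mul, integral_const_mul]
    have e1 : 2 * (U : ℝ) * ∫ t, Real.exp (-t ^ 2) * ‖D t‖ ^ 2 ≤ 2 * U * (40 * M) := by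
      gcongr
    have e2 : 1 / (U : ℝ) * ∫ t, Real.exp (-t ^ 2) * ‖D' t‖ ^ 2
        ≤ 1 / U * (40 * ((U : ℝ) ^ 2 * M)) := by
      gcongr
      exact hm2.trans (by gcongr)
    have e3 : 1 / (U : ℝ) * (40 * ((U : ℝ) ^ 2 * M)) = 40 * U * M := by
      field_simp
    calc _ ≤ Real.exp ((T : ℝ) ^ 2) * (2 * U * (40 * M) + 40 * U * M) := by
          apply mul_le_mul_of_nonneg_left _ (Real.exp_pos _).le
          apply add_le_add e1
          rw [← e3]
          exact e2
      _ = _ := by ring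
  -- the local inequality
  have hloc : ∀ i ∈ B, δ ^ 2 ≤ ∫ t in Set.Ioc ((i : ℝ) / U) (((i : ℝ) + 1) / U), G t := by
    intro i hi
    obtain ⟨hiL, hiR, t₀, ht1, ht2, ht3⟩ := hB i hi
    have hab : (i : ℝ) / U < ((i : ℝ) + 1) / U := by
      gcongr
      linarith
    have hsob := a1_sobolev D D' (fun t => a1_hasDerivAt_dir c S hS1 t) hD'c
      ((i : ℝ) / U) (((i : ℝ) + 1) / U) U hab (by field_simp; ring) t₀ ht1 ht2
    rw [intervalIntegral.integral_of_le hab.le] at hsob
    have hδ2 : δ ^ 2 ≤ ‖D t₀‖ ^ 2 := by gcongr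
    refine hδ2.trans (hsob.trans ?_)
    apply setIntegral_mono_on
    · exact (hWc.integrableOn_Icc).mono_set Set.Ioc_subset_Icc_self
    · exact hGi.integrableOn
    · exact measurableSet_Ioc
    · intro t ht
      have hL : -(T : ℝ) ≤ t := by
        have h1 : (-(T : ℝ)) ≤ (i : ℝ) / U := by
          rw [le_div_iff₀ hU0]
          have : (-((T : ℝ) * U)) ≤ (i : ℝ) := by exact_mod_cast hiL
          linarith
        linarith [ht.1]
      have hR : t ≤ (T : ℝ) := by
        have h1 : ((i : ℝ) + 1) / U ≤ T := by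
          rw [div_le_iff₀ hU0]
          have : ((i + 1 : ℤ) : ℝ) ≤ ((T * U : ℤ) : ℝ) := by
            exact_mod_cast hiR
          push_cast at this
          exact this
        exact ht.2.trans h1
      have ht2' : t ^ 2 ≤ (T : ℝ) ^ 2 := by
        apply sq_le_sq'
        · exact hL
        · exact hR
      have h1 : 1 ≤ Real.exp ((T : ℝ) ^ 2) * Real.exp (-t ^ 2) := by
        rw [← Real.exp_add]
        apply Real.one_le_exp
        linarith
      calc W t = 1 * W t := (one_mul _).symm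
        _ ≤ (Real.exp ((T : ℝ) ^ 2) * Real.exp (-t ^ 2)) * W t := by
            apply mul_le_mul_of_nonneg_right h1 (hW0 t)
        _ = G t := by simp only [hG]; ring
  -- sum up
  have hdisj : Set.Pairwise (↑B : Set ℤ)
      (Function.onFun Disjoint fun i : ℤ => Set.Ioc ((i : ℝ) / U) (((i : ℝ) + 1) / U)) := by
    intro i _ j _ hij
    rw [Function.onFun, Set.disjoint_left]
    intro x hxi hxj
    have key : ∀ a b : ℤ, a < b → x ≤ ((a : ℝ) + 1) / U → (b : ℝ) / U < x → False := by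
      intro a b hab h1 h2
      have h3 : ((a : ℝ) + 1) / U ≤ (b : ℝ) / U := by
        gcongr
        exact_mod_cast hab
      linarith
    rcases lt_or_gt_of_ne hij with hlt | hlt
    · exact key i j hlt hxi.2 hxj.1
    · exact key j i hlt hxj.2 hxi.1
  calc (B.card : ℝ) * δ ^ 2 = ∑ _i ∈ B, δ ^ 2 := by rw [Finset.sum_const, nsmul_eq_mul]
    _ ≤ ∑ i ∈ B, ∫ t in Set.Ioc ((i : ℝ) / U) (((i : ℝ) + 1) / U), G t :=
        Finset.sum_le_sum hloc
    _ = ∫ t in ⋃ i ∈ B, Set.Ioc ((i : ℝ) / U) (((i : ℝ) + 1) / U), G t := by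
        rw [integral_biUnion_finset B (fun i _ => measurableSet_Ioc) hdisj
          (fun i _ => hGi.integrableOn)]
    _ ≤ ∫ t, G t := setIntegral_le_integral hGi (Filter.Eventually.of_forall hG0)
    _ ≤ 120 * Real.exp ((T : ℝ) ^ 2) * U * M := hGint

end MP7ed9c3
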