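import Pool.Agent.Lib.MP_7ed9c3_nt.SpecB

/-!
# B1: the Dirichlet series of `c` near the boundary
-/

namespace MP7ed9c3

open Filter Topology MeasureTheory

namespace B1

lemma nonneg {c : ℕ → ℂ} {C : ℝ} (hB : BlockBound c C) : 0 ≤ C := by
  have h := hB 0
  have h0 : (0 : ℝ) ≤ ∑ n ∈ Finset.Ico (2 ^ 0) (2 ^ (0 + 1)), ‖c n‖ :=
    Finset.sum_nonneg fun _ _ => norm_nonneg _
  have h1 := h0.trans h
  simpa using h1

lemma norm_term {c : ℕ → ℂ} (hc : c 0 = 0) (z : ℂ) (n : ℕ) :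
    ‖c n * (n : ℂ) ^ (-z)‖ = ‖c n‖ * (n : ℝ) ^ (-z.re) := by
  rcases Nat.eq_zero_or_pos n with h | h
  · subst h; simp [hc]
  · rw [norm_mul, Complex.norm_natCast_cpow_of_pos h, Complex.neg_re]

lemma block_le {c : ℕ → ℂ} {C : ℝ} (hB : BlockBound c C) {x : ℝ} (hx : 0 < x) (k : ℕ) :
    ∑ n ∈ Finset.Ico (2 ^ k) (2 ^ (k + 1)), ‖c n‖ * (n : ℝ) ^ (-x)
      ≤ C * ((2 : ℝ) ^ (-x)) ^ k := by
  have hC := nonneg hB
  have h1 : ∀ n ∈ Finset.Ico (2 ^ k) (2 ^ (k + 1)), ‖c n‖ * (n : ℝ) ^ (-x) ≤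
      ‖c n‖ * ((2 : ℝ) ^ (-x)) ^ k := by
    intro n hn
    rw [Finset.mem_Ico] at hn
    refine mul_le_mul_of_nonneg_left ?_ (norm_nonneg _)
    have h2 : ((2 : ℝ) ^ (-x)) ^ k = ((2 : ℝ) ^ k) ^ (-x) := by
      rw [← Real.rpow_natCast, ← Real.rpow_mul (by norm_num), ← Real.rpow_natCast 2 k,
        ← Real.rpow_mul (by norm_num), mul_comm]
    rw [h2]
    refine Real.rpow_le_rpow_of_nonpos (by positivity) ?_ (by linarith)
    exact_mod_cast hn.1
  refine (Finset.sum_le_sum h1).trans ?_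
  rw [← Finset.sum_mul]
  refine mul_le_mul_of_nonneg_right ?_ (by positivity)
  refine (hB k).trans ?_
  exact div_le_self hC (by linarith [(Nat.cast_nonneg k : (0 : ℝ) ≤ k)])

lemma range_eq (f : ℕ → ℝ) (h0 : f 0 = 0) (K : ℕ) :
    ∑ n ∈ Finset.range (2 ^ K), f n =
      ∑ k ∈ Finset.range K, ∑ n ∈ Finset.Ico (2 ^ k) (2 ^ (k + 1)), f n := by
  induction K with
  | zero => simp [h0]
  | succ K ih =>
    rw [Finset.sum_range_succ, ← ih, Finset.range_eq_Ico, Finset.range_eq_Ico,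
      Finset.sum_Ico_consecutive _ (Nat.zero_le _) (Nat.pow_le_pow_right (by norm_num)
        (Nat.le_succ K))]

lemma rpow_lt {x : ℝ} (hx : 0 < x) : (2 : ℝ) ^ (-x) < 1 :=
  Real.rpow_lt_one_of_one_lt_of_neg one_lt_two (by linarith)

lemma psum_le {c : ℕ → ℂ} {C : ℝ} (hc : c 0 = 0) (hB : BlockBound c C) {x : ℝ} (hx : 0 < x)
    (m : ℕ) : ∑ n ∈ Finset.range m, ‖c n‖ * (n : ℝ) ^ (-x) ≤ C * (1 - (2 : ℝ) ^ (-x))⁻¹ := by
  have hC := nonneg hB
  have hm : m ≤ 2 ^ m := Nat.lt_two_pow_self.le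
  have h1 : ∑ n ∈ Finset.range m, ‖c n‖ * (n : ℝ) ^ (-x) ≤
      ∑ n ∈ Finset.range (2 ^ m), ‖c n‖ * (n : ℝ) ^ (-x) :=
    Finset.sum_le_sum_of_subset_of_nonneg (Finset.range_mono hm) fun n _ _ => by positivity
  refine h1.trans ?_
  rw [range_eq _ (by simp [hc])]
  refine (Finset.sum_le_sum fun k _ => block_le hB hx k).trans ?_
  rw [← Finset.mul_sum]
  refine mul_le_mul_of_nonneg_left ?_ hC
  have h2 : HasSum (fun k : ℕ => ((2 : ℝ) ^ (-x)) ^ k) (1 - (2 : ℝ) ^ (-x))⁻¹ :=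
    hasSum_geometric_of_lt_one (by positivity) (rpow_lt hx)
  exact sum_le_hasSum _ (fun k _ => by positivity) h2

lemma summ {c : ℕ → ℂ} {C : ℝ} (hc : c 0 = 0) (hB : BlockBound c C) {x : ℝ} (hx : 0 < x) :
    Summable (fun n : ℕ => ‖c n‖ * (n : ℝ) ^ (-x)) :=
  summable_of_sum_range_le (fun n => by positivity) (psum_le hc hB hx)

lemma tsum_le {c : ℕ → ℂ} {C : ℝ} (hc : c 0 = 0) (hB : BlockBound c C) {x : ℝ} (hx : 0 < x) :
    ∑' n : ℕ, ‖c n‖ * (n : ℝ) ^ (-x) ≤ C * (1 - (2 : ℝ) ^ (-x))⁻¹ :=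
  Real.tsum_le_of_sum_range_le (fun n => by positivity) (psum_le hc hB hx)

lemma summC {c : ℕ → ℂ} {C : ℝ} (hc : c 0 = 0) (hB : BlockBound c C) {z : ℂ} (hz : 0 < z.re) :
    Summable (fun n : ℕ => c n * (n : ℂ) ^ (-z)) := by
  refine Summable.of_norm ?_
  refine (summ hc hB hz).congr fun n => ?_
  rw [norm_term hc]

lemma diff {c : ℕ → ℂ} {C : ℝ} (hc : c 0 = 0) (hB : BlockBound c C) :
    DifferentiableOn ℂ (fun z : ℂ => ∑' n : ℕ, c n * (n : ℂ) ^ (-z)) {z | 0 < z.re} := by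
  intro z hz
  have hz' : 0 < z.re := hz
  set U : Set ℂ := {w | z.re / 2 < w.re} with hU
  have hUo : IsOpen U := isOpen_lt continuous_const Complex.continuous_re
  have hzU : z ∈ U := by show z.re / 2 < z.re; linarith
  have hd : DifferentiableOn ℂ (fun z : ℂ => ∑' n : ℕ, c n * (n : ℂ) ^ (-z)) U := by
    refine Complex.differentiableOn_tsum_of_summable_norm (summ hc hB (half_pos hz')) ?_ hUo ?_
    · intro n
      rcases Nat.eq_zero_or_pos n with h | h
      · subst h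
        simp only [hc, zero_mul]
        exact differentiableOn_const _
      · have hn : (n : ℂ) ≠ 0 := by exact_mod_cast h.ne'
        refine DifferentiableOn.const_mul ?_ _
        exact (differentiable_neg.const_cpow (Or.inl hn)).differentiableOn
    · intro n w hw
      rw [norm_term hc]
      refine mul_le_mul_of_nonneg_left ?_ (norm_nonneg _)
      rcases Nat.eq_zero_or_pos n with h | h
      · subst h
        have h1 : z.re / 2 < w.re := hw
        rw [Nat.cast_zero, Real.zero_rpow (by linarith), Real.zero_rpow (by linarith)]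
      · have h1 : z.re / 2 < w.re := hw
        exact Real.rpow_le_rpow_of_exponent_le (by exact_mod_cast h) (by linarith)
  exact (hd.differentiableAt (hUo.mem_nhds hzU)).differentiableWithinAt

lemma bound {c : ℕ → ℂ} {C : ℝ} (hc : c 0 = 0) (hB : BlockBound c C) {z : ℂ} (hz : 0 < z.re)
    (hz1 : z.re ≤ 1) : ‖∑' n : ℕ, c n * (n : ℂ) ^ (-z)‖ ≤ 2 * C / z.re := by
  have hC := nonneg hB
  have h1 : ‖∑' n : ℕ, c n * (n : ℂ) ^ (-z)‖ ≤ ∑' n : ℕ, ‖c n‖ * (n : ℝ) ^ (-z.re) :=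
    tsum_of_norm_bounded (summ hc hB hz).hasSum fun n => (norm_term hc z n).le
  refine h1.trans ((tsum_le hc hB hz).trans ?_)
  have h2 : (2 : ℝ) ^ (-z.re) ≤ 1 - z.re / 2 := by
    have h3 := rpow_one_add_le_one_add_mul_self (s := -(1 / 2)) (by norm_num) hz.le hz1
    have h4 : (1 + -(1 / 2) : ℝ) = 2⁻¹ := by norm_num
    rw [h4, Real.inv_rpow (by norm_num), ← Real.rpow_neg (by norm_num)] at h3
    linarith
  have h5 : z.re / 2 ≤ 1 - (2 : ℝ) ^ (-z.re) := by linarith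
  have h6 : (1 - (2 : ℝ) ^ (-z.re))⁻¹ ≤ (z.re / 2)⁻¹ := inv_anti₀ (by linarith) h5
  calc C * (1 - (2 : ℝ) ^ (-z.re))⁻¹ ≤ C * (z.re / 2)⁻¹ := mul_le_mul_of_nonneg_left h6 hC
    _ = 2 * C / z.re := by rw [inv_div]; ring

lemma sq_sum_le (K : ℕ) : ∑ k ∈ Finset.range (K + 1), (1 : ℝ) / ((k : ℝ) + 1) ^ 2 ≤
    2 - 1 / ((K : ℝ) + 1) := by
  induction K with
  | zero => norm_num
  | succ K ih =>
    rw [Finset.sum_range_succ]
    have h1 : (1 : ℝ) / (((K + 1 : ℕ) : ℝ) + 1) ^ 2 ≤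
        1 / ((K : ℝ) + 1) - 1 / (((K + 1 : ℕ) : ℝ) + 1) := by
      push_cast
      have hK : (0 : ℝ) ≤ K := Nat.cast_nonneg K
      rw [div_sub_div _ _ (by positivity) (by positivity), div_le_div_iff₀ (by positivity)
        (by positivity)]
      nlinarith
    linarith

lemma sq_sum_le' (K : ℕ) : ∑ k ∈ Finset.range K, (1 : ℝ) / ((k : ℝ) + 1) ^ 2 ≤ 2 := by
  rcases K with _ | K
  · simp
  · have h1 := sq_sum_le K
    have h2 : (0 : ℝ) ≤ 1 / ((K : ℝ) + 1) := by positivity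
    linarith

lemma dir_eq {c : ℕ → ℂ} (x t : ℝ) (K : ℕ) :
    dir (fun n => c n * (n : ℂ) ^ (-(x : ℂ))) (Finset.Ico 1 (2 ^ K)) t =
      ∑ n ∈ Finset.Ico 1 (2 ^ K), c n * (n : ℂ) ^ (-((x : ℂ) + t * Complex.I)) := by
  unfold dir
  refine Finset.sum_congr rfl fun n hn => ?_
  rw [Finset.mem_Ico] at hn
  have hn0 : (n : ℂ) ≠ 0 := by exact_mod_cast (by omega : n ≠ 0)
  rw [mul_assoc, ← Complex.cpow_add _ _ hn0]
  congr 2
  ring

lemma fin_bound (h : MeanSq) {c : ℕ → ℂ} {C : ℝ} (hB : BlockBound c C) {T : ℝ}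
    (hT : 0 ≤ T) {x : ℝ} (hx : 0 < x) (K : ℕ) :
    ∫ t in (-T)..T, ‖∑ n ∈ Finset.Ico 1 (2 ^ K), c n * (n : ℂ) ^ (-((x : ℂ) + t * Complex.I))‖ ^ 2
      ≤ 80 * Real.exp (T ^ 2) * C ^ 2 := by
  have hC := nonneg hB
  set d : ℕ → ℂ := fun n => c n * (n : ℂ) ^ (-(x : ℂ)) with hd
  set S : Finset ℕ := Finset.Ico 1 (2 ^ K) with hS
  have hlog : ∀ n ∈ S, 1 ≤ n ∧ Nat.log 2 n < K := by
    intro n hn
    rw [hS, Finset.mem_Ico] at hn
    exact ⟨hn.1, Nat.log_lt_of_lt_pow (by omega) hn.2⟩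
  obtain ⟨hi, hle⟩ := h d S K hlog
  have hm : ∀ k ∈ Finset.range K, mass d S k ^ 2 ≤ C ^ 2 * (1 / ((k : ℝ) + 1) ^ 2) := by
    intro k _
    have h1 : mass d S k ≤ C / (k + 1) := by
      refine le_trans ?_ (hB k)
      unfold mass
      have h2 : S.filter (fun n => Nat.log 2 n = k) ⊆ Finset.Ico (2 ^ k) (2 ^ (k + 1)) := by
        intro n hn
        rw [Finset.mem_filter, hS, Finset.mem_Ico] at hn
        obtain ⟨⟨hn1, _⟩, hn2⟩ := hn
        rw [Finset.mem_Ico]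
        subst hn2
        exact ⟨Nat.pow_log_le_self 2 (by omega), Nat.lt_pow_succ_log_self (by norm_num) n⟩
      refine le_trans (Finset.sum_le_sum (g := fun n => ‖c n‖) ?_)
        (Finset.sum_le_sum_of_subset_of_nonneg h2 fun _ _ _ => norm_nonneg _)
      intro n hn
      rw [Finset.mem_filter, hS, Finset.mem_Ico] at hn
      have hn1 : 1 ≤ n := hn.1.1
      rw [hd]
      simp only
      rw [norm_mul, Complex.norm_natCast_cpow_of_pos (by omega), Complex.neg_re, Complex.ofReal_re]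
      have h3 : (n : ℝ) ^ (-x) ≤ 1 :=
        Real.rpow_le_one_of_one_le_of_nonpos (by exact_mod_cast hn1) (by linarith)
      calc ‖c n‖ * (n : ℝ) ^ (-x) ≤ ‖c n‖ * 1 := mul_le_mul_of_nonneg_left h3 (norm_nonneg _)
        _ = ‖c n‖ := mul_one _
    have h0 : 0 ≤ mass d S k := Finset.sum_nonneg fun _ _ => norm_nonneg _
    calc mass d S k ^ 2 ≤ (C / (k + 1)) ^ 2 := pow_le_pow_left₀ h0 h1 2
      _ = C ^ 2 * (1 / ((k : ℝ) + 1) ^ 2) := by rw [div_pow]; ring
  have hsum : ∑ k ∈ Finset.range K, mass d S k ^ 2 ≤ 2 * C ^ 2 := by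
    refine (Finset.sum_le_sum hm).trans ?_
    rw [← Finset.mul_sum, mul_comm]
    exact mul_le_mul_of_nonneg_right (sq_sum_le' K) (by positivity)
  have hcont : Continuous (fun t : ℝ => dir d S t) := by
    unfold dir
    refine continuous_finsetSum _ fun n hn => ?_
    have hn0 : (n : ℂ) ≠ 0 := by
      have := (hlog n hn).1
      exact_mod_cast (by omega : n ≠ 0)
    refine continuous_const.mul ?_
    refine Continuous.const_cpow ?_ (Or.inl hn0)
    fun_prop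
  have hTT : -T ≤ T := by linarith
  have h1 : ∫ t in (-T)..T, ‖dir d S t‖ ^ 2 ≤
      ∫ t in (-T)..T, Real.exp (T ^ 2) * (Real.exp (-t ^ 2) * ‖dir d S t‖ ^ 2) := by
    refine intervalIntegral.integral_mono_on hTT ?_ ?_ ?_
    · exact (hcont.norm.pow 2).intervalIntegrable _ _
    · refine Continuous.intervalIntegrable ?_ _ _
      have : Continuous fun t : ℝ => Real.exp (-t ^ 2) := by fun_prop
      exact continuous_const.mul (this.mul (hcont.norm.pow 2))
    · intro t ht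
      rw [← mul_assoc, ← Real.exp_add]
      have h2 : 1 ≤ Real.exp (T ^ 2 + -t ^ 2) := by
        refine Real.one_le_exp ?_
        have : t ^ 2 ≤ T ^ 2 := sq_le_sq' (by linarith [ht.1]) ht.2
        linarith
      exact le_mul_of_one_le_left (by positivity) h2
  have h2 : ∫ t in (-T)..T, Real.exp (-t ^ 2) * ‖dir d S t‖ ^ 2 ≤
      ∫ t : ℝ, Real.exp (-t ^ 2) * ‖dir d S t‖ ^ 2 := by
    rw [intervalIntegral.integral_of_le hTT]
    exact setIntegral_le_integral hi (Eventually.of_forall fun t => by positivity)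
  have h3 : (fun t : ℝ => ‖∑ n ∈ S, c n * (n : ℂ) ^ (-((x : ℂ) + t * Complex.I))‖ ^ 2) =
      fun t : ℝ => ‖dir d S t‖ ^ 2 := by
    funext t
    rw [hd, hS, dir_eq]
  rw [h3]
  refine h1.trans ?_
  rw [intervalIntegral.integral_const_mul]
  have hE : 0 ≤ Real.exp (T ^ 2) := (Real.exp_pos _).le
  calc Real.exp (T ^ 2) * ∫ t in (-T)..T, Real.exp (-t ^ 2) * ‖dir d S t‖ ^ 2
      ≤ Real.exp (T ^ 2) * (40 * (2 * C ^ 2)) := by
        refine mul_le_mul_of_nonneg_left ?_ hE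
        exact (h2.trans hle).trans (mul_le_mul_of_nonneg_left hsum (by norm_num))
    _ = 80 * Real.exp (T ^ 2) * C ^ 2 := by ring

end B1

/-- **B1.** -/
theorem seriesBound (h : MeanSq) : SeriesBound := by
  intro c C hc hB
  refine ⟨B1.diff hc hB, fun z hz hz1 => B1.bound hc hB hz hz1, ?_⟩
  intro T hT x hx hx1
  have hs := B1.summ hc hB hx
  set B : ℝ := ∑' n : ℕ, ‖c n‖ * (n : ℝ) ^ (-x) with hBd
  have hre : ∀ t : ℝ, ((x : ℂ) + t * Complex.I).re = x := fun t => by simp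
  have hcont : ∀ n : ℕ, Continuous fun t : ℝ => c n * (n : ℂ) ^ (-((x : ℂ) + t * Complex.I)) := by
    intro n
    rcases Nat.eq_zero_or_pos n with h0 | h0
    · subst h0
      simp only [hc, zero_mul]
      exact continuous_const
    · have hn : (n : ℂ) ≠ 0 := by exact_mod_cast h0.ne'
      refine continuous_const.mul (Continuous.const_cpow ?_ (Or.inl hn))
      fun_prop
  have hnorm : ∀ (t : ℝ) (n : ℕ), ‖c n * (n : ℂ) ^ (-((x : ℂ) + t * Complex.I))‖ =
      ‖c n‖ * (n : ℝ) ^ (-x) := by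
    intro t n
    rw [B1.norm_term hc, hre]
  have hlim : Tendsto (fun K : ℕ => ∫ t in (-T)..T,
      ‖∑ n ∈ Finset.Ico 1 (2 ^ K), c n * (n : ℂ) ^ (-((x : ℂ) + t * Complex.I))‖ ^ 2) atTop
      (𝓝 (∫ t in (-T)..T, ‖∑' n : ℕ, c n * (n : ℂ) ^ (-((x : ℂ) + t * Complex.I))‖ ^ 2)) := by
    refine intervalIntegral.tendsto_integral_filter_of_dominated_convergence (fun _ => B ^ 2)
      ?_ ?_ ?_ ?_
    · refine Eventually.of_forall fun K => ?_
      refine Continuous.aestronglyMeasurable ?_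
      exact (continuous_finsetSum _ fun n _ => hcont n).norm.pow 2
    · refine Eventually.of_forall fun K => Eventually.of_forall fun t _ => ?_
      rw [Real.norm_of_nonneg (by positivity)]
      refine pow_le_pow_left₀ (norm_nonneg _) ?_ 2
      refine (norm_sum_le _ _).trans ?_
      simp only [hnorm]
      exact hs.sum_le_tsum _ fun n _ => by positivity
    · exact intervalIntegrable_const
    · refine Eventually.of_forall fun t _ => ?_
      refine (Tendsto.norm ?_).pow 2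
      have h1 : HasSum (fun n : ℕ => c n * (n : ℂ) ^ (-((x : ℂ) + t * Complex.I)))
          (∑' n : ℕ, c n * (n : ℂ) ^ (-((x : ℂ) + t * Complex.I))) :=
        (B1.summC hc hB (by rw [hre]; exact hx)).hasSum
      have h2 : Tendsto (fun K : ℕ => 2 ^ K) atTop atTop :=
        tendsto_pow_atTop_atTop_of_one_lt (by norm_num)
      have h3 := h1.tendsto_sum_nat.comp h2
      refine h3.congr fun K => ?_
      simp only [Function.comp_apply]
      rw [Finset.range_eq_Ico, Finset.sum_eq_sum_Ico_succ_bot (Nat.pow_pos (by norm_num)), hc,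
        zero_mul, zero_add]
  exact le_of_tendsto' hlim fun K => B1.fin_bound h hB hT hx K

end MP7ed9c3
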