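import Pool.Agent.Lib.MP_7ed9c3_nt.SpecB

/-!
# MP_7ed9c3_nt: B2, the inequality of Green on a rectangle
-/

namespace MP7ed9c3

open NumberField IsDedekindDomain Filter Topology MeasureTheory Set

private theorem B2_dbl {p q a b : ℝ} (hpq : p ≤ q) (hab : a ≤ b) (G : ℝ → ℝ → ℝ)
    (hG : ContinuousOn (fun z : ℝ × ℝ => G z.1 z.2) (Icc p q ×ˢ Icc a b)) :
    IntegrableOn (fun z : ℝ × ℝ => G z.1 z.2) (Ioc p q ×ˢ Ioc a b) ∧
    ∫ z in Ioc p q ×ˢ Ioc a b, G z.1 z.2 = ∫ x in p..q, ∫ y in a..b, G x y ∧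
    ∫ x in p..q, ∫ y in a..b, G x y = ∫ y in a..b, ∫ x in p..q, G x y := by
  have h1 : IntegrableOn (fun z : ℝ × ℝ => G z.1 z.2) (Icc p q ×ˢ Icc a b) :=
    hG.integrableOn_compact (isCompact_Icc.prod isCompact_Icc)
  have h2 : IntegrableOn (fun z : ℝ × ℝ => G z.1 z.2) (Ioc p q ×ˢ Ioc a b) :=
    h1.mono_set (prod_mono Ioc_subset_Icc_self Ioc_subset_Icc_self)
  refine ⟨h2, ?_, ?_⟩
  · rw [Measure.volume_eq_prod, setIntegral_prod, intervalIntegral.integral_of_le hpq]
    · simp only [intervalIntegral.integral_of_le hab]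
    · rw [← Measure.volume_eq_prod]
      exact h2
  · apply intervalIntegral_intervalIntegral_swap
    rw [uIoc_of_le hpq, uIoc_of_le hab]
    exact h2

/-- B2. -/
theorem green : Green := by
  intro p q c β u ux uxx uy uyy hpq hβ hd hu hux huxx huy huyy
  set κ : ℝ := Real.pi / (2 * β) with hκ
  have hκβ : κ * β = Real.pi / 2 := by
    rw [hκ]
    field_simp
  have hκ0 : 0 < κ := by
    rw [hκ]
    exact div_pos Real.pi_pos (by linarith)
  set a : ℝ := c - β with ha
  set b : ℝ := c + β with hb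
  have hab : a ≤ b := by
    rw [ha, hb]
    linarith
  have hpq' : p ≤ q := hpq.le
  set R : Set (ℝ × ℝ) := Icc p q ×ˢ Icc a b with hR
  -- the continuous weights
  have hs : Continuous (fun z : ℝ × ℝ => Real.sinh (κ * (z.1 - p))) := by fun_prop
  have hC : Continuous (fun z : ℝ × ℝ => Real.cos (κ * (z.2 - c))) := by fun_prop
  -- derivative in the first variable
  have hx : ∀ y ∈ Icc a b, ∫ x in p..q, (Real.sinh (κ * (x - p)) * uxx x y -
      κ ^ 2 * Real.sinh (κ * (x - p)) * u x y) =
      Real.sinh (κ * (q - p)) * ux q y - κ * Real.cosh (κ * (q - p)) * u q y + κ * u p y := by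
    intro y hy
    have hder : ∀ x ∈ uIcc p q, HasDerivAt (fun x => Real.sinh (κ * (x - p)) * ux x y -
        κ * Real.cosh (κ * (x - p)) * u x y) (Real.sinh (κ * (x - p)) * uxx x y -
        κ ^ 2 * Real.sinh (κ * (x - p)) * u x y) x := by
      intro x hx
      rw [uIcc_of_le hpq'] at hx
      obtain ⟨h1, h2, -, -, -⟩ := hd x hx y hy
      have e1 : HasDerivAt (fun x => κ * (x - p)) κ x := by
        have := ((hasDerivAt_id x).sub_const p).const_mul κ
        simpa using this
      have e2 := e1.sinh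
      have e3 := e1.cosh.const_mul κ
      have e4 : HasDerivAt (fun x => Real.sinh (κ * (x - p)) * ux x y -
          κ * Real.cosh (κ * (x - p)) * u x y) _ x := (e2.mul h2).sub (e3.mul h1)
      exact e4.congr_deriv (by ring)
    have hcont : ContinuousOn (fun x => Real.sinh (κ * (x - p)) * uxx x y -
        κ ^ 2 * Real.sinh (κ * (x - p)) * u x y) (uIcc p q) := by
      rw [uIcc_of_le hpq']
      have hm : MapsTo (fun x : ℝ => (x, y)) (Icc p q) R := fun x hx => ⟨hx, hy⟩
      have c1 : ContinuousOn (fun x => uxx x y) (Icc p q) :=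
        huxx.comp (Continuous.continuousOn (by fun_prop)) hm
      have c2 : ContinuousOn (fun x => u x y) (Icc p q) :=
        hu.comp (Continuous.continuousOn (by fun_prop)) hm
      exact ((Continuous.continuousOn (by fun_prop)).mul c1).sub
        ((Continuous.continuousOn (by fun_prop)).mul c2)
    rw [intervalIntegral.integral_eq_sub_of_hasDerivAt hder hcont.intervalIntegrable]
    simp only [sub_self, mul_zero, Real.sinh_zero, Real.cosh_zero]
    ring
  -- derivative in the second variable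
  have hy : ∀ x ∈ Icc p q, ∫ y in a..b, (Real.cos (κ * (y - c)) * uyy x y +
      κ ^ 2 * Real.cos (κ * (y - c)) * u x y) = κ * (u x b + u x a) := by
    intro x hx
    have hder : ∀ y ∈ uIcc a b, HasDerivAt (fun y => Real.cos (κ * (y - c)) * uy x y +
        κ * Real.sin (κ * (y - c)) * u x y) (Real.cos (κ * (y - c)) * uyy x y +
        κ ^ 2 * Real.cos (κ * (y - c)) * u x y) y := by
      intro y hy
      rw [uIcc_of_le hab] at hy
      obtain ⟨-, -, h1, h2, -⟩ := hd x hx y hy
      have e1 : HasDerivAt (fun y => κ * (y - c)) κ y := by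
        have := ((hasDerivAt_id y).sub_const c).const_mul κ
        simpa using this
      have e2 := e1.cos
      have e3 := e1.sin.const_mul κ
      have e4 : HasDerivAt (fun y => Real.cos (κ * (y - c)) * uy x y +
          κ * Real.sin (κ * (y - c)) * u x y) _ y := (e2.mul h2).add (e3.mul h1)
      exact e4.congr_deriv (by ring)
    have hcont : ContinuousOn (fun y => Real.cos (κ * (y - c)) * uyy x y +
        κ ^ 2 * Real.cos (κ * (y - c)) * u x y) (uIcc a b) := by
      rw [uIcc_of_le hab]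
      have hm : MapsTo (fun y : ℝ => (x, y)) (Icc a b) R := fun y hy => ⟨hx, hy⟩
      have c1 : ContinuousOn (fun y => uyy x y) (Icc a b) :=
        huyy.comp (Continuous.continuousOn (by fun_prop)) hm
      have c2 : ContinuousOn (fun y => u x y) (Icc a b) :=
        hu.comp (Continuous.continuousOn (by fun_prop)) hm
      exact ((Continuous.continuousOn (by fun_prop)).mul c1).add
        ((Continuous.continuousOn (by fun_prop)).mul c2)
    rw [intervalIntegral.integral_eq_sub_of_hasDerivAt hder hcont.intervalIntegrable]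
    have e1 : κ * (b - c) = Real.pi / 2 := by rw [hb, add_sub_cancel_left, hκβ]
    have e2 : κ * (a - c) = -(Real.pi / 2) := by
      rw [ha, ← hκβ]
      ring
    rw [e1, e2, Real.cos_neg, Real.sin_neg, Real.cos_pi_div_two, Real.sin_pi_div_two]
    ring
  -- the double integrals
  have cA : ContinuousOn (fun z : ℝ × ℝ => Real.cos (κ * (z.2 - c)) *
      (Real.sinh (κ * (z.1 - p)) * uxx z.1 z.2 -
        κ ^ 2 * Real.sinh (κ * (z.1 - p)) * u z.1 z.2)) R :=
    hC.continuousOn.mul ((hs.continuousOn.mul huxx).sub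
      ((Continuous.continuousOn (by fun_prop)).mul hu))
  have cB : ContinuousOn (fun z : ℝ × ℝ => Real.sinh (κ * (z.1 - p)) *
      (Real.cos (κ * (z.2 - c)) * uyy z.1 z.2 +
        κ ^ 2 * Real.cos (κ * (z.2 - c)) * u z.1 z.2)) R :=
    hs.continuousOn.mul ((hC.continuousOn.mul huyy).add
      ((Continuous.continuousOn (by fun_prop)).mul hu))
  obtain ⟨iA, jA, kA⟩ := B2_dbl hpq' hab (fun x y => Real.cos (κ * (y - c)) *
      (Real.sinh (κ * (x - p)) * uxx x y - κ ^ 2 * Real.sinh (κ * (x - p)) * u x y)) cA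
  obtain ⟨iB, jB, -⟩ := B2_dbl hpq' hab (fun x y => Real.sinh (κ * (x - p)) *
      (Real.cos (κ * (y - c)) * uyy x y + κ ^ 2 * Real.cos (κ * (y - c)) * u x y)) cB
  have hpos : 0 ≤ ∫ z in Ioc p q ×ˢ Ioc a b,
      (Real.cos (κ * (z.2 - c)) * (Real.sinh (κ * (z.1 - p)) * uxx z.1 z.2 -
        κ ^ 2 * Real.sinh (κ * (z.1 - p)) * u z.1 z.2) +
      Real.sinh (κ * (z.1 - p)) * (Real.cos (κ * (z.2 - c)) * uyy z.1 z.2 +
        κ ^ 2 * Real.cos (κ * (z.2 - c)) * u z.1 z.2)) := by
    apply setIntegral_nonneg (measurableSet_Ioc.prod measurableSet_Ioc)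
    rintro ⟨x, y⟩ ⟨hx1, hy1⟩
    have hx2 : x ∈ Icc p q := Ioc_subset_Icc_self hx1
    have hy2 : y ∈ Icc a b := Ioc_subset_Icc_self hy1
    obtain ⟨-, -, -, -, h5⟩ := hd x hx2 y hy2
    have s0 : 0 ≤ Real.sinh (κ * (x - p)) :=
      Real.sinh_nonneg_iff.2 (mul_nonneg hκ0.le (sub_nonneg.2 hx2.1))
    have c0 : 0 ≤ Real.cos (κ * (y - c)) := by
      apply Real.cos_nonneg_of_neg_pi_div_two_le_of_le
      · have : κ * (a - c) ≤ κ * (y - c) :=
          mul_le_mul_of_nonneg_left (sub_le_sub_right hy2.1 c) hκ0.le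
        have e2 : κ * (a - c) = -(Real.pi / 2) := by
          rw [ha, ← hκβ]
          ring
        linarith
      · have : κ * (y - c) ≤ κ * (b - c) :=
          mul_le_mul_of_nonneg_left (sub_le_sub_right hy2.2 c) hκ0.le
        have e1 : κ * (b - c) = Real.pi / 2 := by rw [hb, add_sub_cancel_left, hκβ]
        linarith
    show 0 ≤ Real.cos (κ * (y - c)) * (Real.sinh (κ * (x - p)) * uxx x y -
        κ ^ 2 * Real.sinh (κ * (x - p)) * u x y) +
      Real.sinh (κ * (x - p)) * (Real.cos (κ * (y - c)) * uyy x y +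
        κ ^ 2 * Real.cos (κ * (y - c)) * u x y)
    have e : Real.cos (κ * (y - c)) * (Real.sinh (κ * (x - p)) * uxx x y -
        κ ^ 2 * Real.sinh (κ * (x - p)) * u x y) +
      Real.sinh (κ * (x - p)) * (Real.cos (κ * (y - c)) * uyy x y +
        κ ^ 2 * Real.cos (κ * (y - c)) * u x y) =
      Real.cos (κ * (y - c)) * Real.sinh (κ * (x - p)) * (uxx x y + uyy x y) := by ring
    rw [e]
    exact mul_nonneg (mul_nonneg c0 s0) h5
  rw [integral_add iA iB, jA, jB, kA] at hpos
  -- evaluate the inner integrals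
  have eA : ∫ y in a..b, ∫ x in p..q, Real.cos (κ * (y - c)) *
      (Real.sinh (κ * (x - p)) * uxx x y - κ ^ 2 * Real.sinh (κ * (x - p)) * u x y) =
      ∫ y in a..b, (κ * (u p y * Real.cos (κ * (y - c))) +
        (Real.sinh (κ * (q - p)) * ux q y - κ * Real.cosh (κ * (q - p)) * u q y) *
          Real.cos (κ * (y - c))) := by
    apply intervalIntegral.integral_congr
    intro y hy1
    rw [uIcc_of_le hab] at hy1
    show (∫ x in p..q, Real.cos (κ * (y - c)) *
      (Real.sinh (κ * (x - p)) * uxx x y - κ ^ 2 * Real.sinh (κ * (x - p)) * u x y)) =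
      κ * (u p y * Real.cos (κ * (y - c))) +
        (Real.sinh (κ * (q - p)) * ux q y - κ * Real.cosh (κ * (q - p)) * u q y) *
          Real.cos (κ * (y - c))
    rw [intervalIntegral.integral_const_mul, hx y hy1]
    ring
  have eB : ∫ x in p..q, ∫ y in a..b, Real.sinh (κ * (x - p)) *
      (Real.cos (κ * (y - c)) * uyy x y + κ ^ 2 * Real.cos (κ * (y - c)) * u x y) =
      ∫ x in p..q, κ * (Real.sinh (κ * (x - p)) * (u x b + u x a)) := by
    apply intervalIntegral.integral_congr
    intro x hx1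
    rw [uIcc_of_le hpq'] at hx1
    show (∫ y in a..b, Real.sinh (κ * (x - p)) *
      (Real.cos (κ * (y - c)) * uyy x y + κ ^ 2 * Real.cos (κ * (y - c)) * u x y)) =
      κ * (Real.sinh (κ * (x - p)) * (u x b + u x a))
    rw [intervalIntegral.integral_const_mul, hy x hx1]
    ring
  have hmp : MapsTo (fun y : ℝ => (p, y)) (Icc a b) R := fun y hy => ⟨left_mem_Icc.2 hpq', hy⟩
  have hmq : MapsTo (fun y : ℝ => (q, y)) (Icc a b) R := fun y hy => ⟨right_mem_Icc.2 hpq', hy⟩
  have c1 : ContinuousOn (fun y => u p y) (Icc a b) :=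
    hu.comp (Continuous.continuousOn (by fun_prop)) hmp
  have c2 : ContinuousOn (fun y => u q y) (Icc a b) :=
    hu.comp (Continuous.continuousOn (by fun_prop)) hmq
  have c3 : ContinuousOn (fun y => ux q y) (Icc a b) :=
    hux.comp (Continuous.continuousOn (by fun_prop)) hmq
  have c4 : ContinuousOn (fun y : ℝ => Real.cos (κ * (y - c))) (Icc a b) :=
    Continuous.continuousOn (by fun_prop)
  have i1 : IntervalIntegrable (fun y => κ * (u p y * Real.cos (κ * (y - c)))) volume a b := by
    apply ContinuousOn.intervalIntegrable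
    rw [uIcc_of_le hab]
    exact continuousOn_const.mul (c1.mul c4)
  have i2 : IntervalIntegrable (fun y => (Real.sinh (κ * (q - p)) * ux q y -
      κ * Real.cosh (κ * (q - p)) * u q y) * Real.cos (κ * (y - c))) volume a b := by
    apply ContinuousOn.intervalIntegrable
    rw [uIcc_of_le hab]
    exact ((continuousOn_const.mul c3).sub (continuousOn_const.mul c2)).mul c4
  rw [eA, eB, intervalIntegral.integral_add i1 i2, intervalIntegral.integral_const_mul,
    intervalIntegral.integral_const_mul] at hpos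
  linarith

end MP7ed9c3
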