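import Pool.Agent.Lib.MP_7ed9c3_nt.SpecB

/-!
# B3: the regularised logarithm
-/

namespace MP7ed9c3

open Filter Topology ComplexConjugate

/-- The denominator. -/
noncomputable def b3D (h : ℂ → ℂ) (τ : ℝ) (z : ℂ) : ℝ := ‖h z‖ ^ 2 + τ

/-- The numerator of the first derivative in the direction `v`. -/
noncomputable def b3A (h : ℂ → ℂ) (v z : ℂ) : ℝ := (deriv h z * v * conj (h z)).re

/-- The first derivative in the direction `v`. -/
noncomputable def b3U (h : ℂ → ℂ) (τ : ℝ) (v z : ℂ) : ℝ := b3A h v z / b3D h τ z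

/-- The second derivative in the direction `v`. -/
noncomputable def b3V (h : ℂ → ℂ) (τ : ℝ) (v z : ℂ) : ℝ :=
  ((deriv (deriv h) z * v ^ 2 * conj (h z)).re + ‖deriv h z * v‖ ^ 2) / b3D h τ z -
    2 * b3A h v z ^ 2 / b3D h τ z ^ 2

theorem b3D_pos (h : ℂ → ℂ) {τ : ℝ} (hτ : 0 < τ) (z : ℂ) : 0 < b3D h τ z := by
  unfold b3D; positivity

theorem b3_comp {h : ℂ → ℂ} {U : Set ℂ} (hU : IsOpen U) (hh : DifferentiableOn ℂ h U)
    {p : ℝ → ℂ} {v : ℂ} {t : ℝ} (hp : HasDerivAt p v t) (ht : p t ∈ U) :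
    HasDerivAt (fun s => h (p s)) (deriv h (p t) * v) t := by
  have h1 : HasDerivAt h (deriv h (p t)) (p t) :=
    (hh.differentiableAt (hU.mem_nhds ht)).hasDerivAt
  exact HasDerivAt.comp (𝕜' := ℂ) t h1 hp

theorem b3_D {h : ℂ → ℂ} {U : Set ℂ} (hU : IsOpen U) (hh : DifferentiableOn ℂ h U) (τ : ℝ)
    {p : ℝ → ℂ} {v : ℂ} {t : ℝ} (hp : HasDerivAt p v t) (ht : p t ∈ U) :
    HasDerivAt (fun s => b3D h τ (p s)) (2 * b3A h v (p t)) t := by
  have h1 := b3_comp hU hh hp ht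
  have hre : HasDerivAt (fun s => (h (p s)).re) (deriv h (p t) * v).re t :=
    (Complex.reCLM.hasFDerivAt.comp_hasDerivAt t h1)
  have him : HasDerivAt (fun s => (h (p s)).im) (deriv h (p t) * v).im t :=
    (Complex.imCLM.hasFDerivAt.comp_hasDerivAt t h1)
  have h2 : (fun s => b3D h τ (p s)) =
      fun s => ((h (p s)).re * (h (p s)).re + (h (p s)).im * (h (p s)).im) + τ := by
    funext s
    unfold b3D
    rw [← Complex.normSq_eq_norm_sq, Complex.normSq_apply]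
  rw [h2]
  have h3 := ((hre.mul hre).add (him.mul him)).add_const τ
  refine h3.congr_deriv ?_
  unfold b3A
  generalize deriv h (p t) * v = w
  simp only [Complex.mul_re, Complex.conj_re, Complex.conj_im]
  ring

theorem b3_first {h : ℂ → ℂ} {U : Set ℂ} (hU : IsOpen U) (hh : DifferentiableOn ℂ h U) {τ : ℝ}
    (hτ : 0 < τ) {p : ℝ → ℂ} {v : ℂ} {t : ℝ} (hp : HasDerivAt p v t) (ht : p t ∈ U) :
    HasDerivAt (fun s => 1 / 2 * Real.log (‖h (p s)‖ ^ 2 + τ)) (b3U h τ v (p t)) t := by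
  have h1 := (b3_D hU hh τ hp ht).log (b3D_pos h hτ (p t)).ne'
  have h2 := h1.const_mul (1 / 2)
  refine h2.congr_deriv ?_
  unfold b3U
  ring

theorem b3_A {h : ℂ → ℂ} {U : Set ℂ} (hU : IsOpen U) (hh : DifferentiableOn ℂ h U)
    {p : ℝ → ℂ} {v : ℂ} {t : ℝ} (hp : HasDerivAt p v t) (ht : p t ∈ U) :
    HasDerivAt (fun s => b3A h v (p s))
      ((deriv (deriv h) (p t) * v ^ 2 * conj (h (p t))).re + ‖deriv h (p t) * v‖ ^ 2) t := by
  have h1 := b3_comp hU hh hp ht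
  have h2 := b3_comp hU (hh.deriv hU) hp ht
  have h3 : HasDerivAt (fun s => conj (h (p s))) (conj (deriv h (p t) * v)) t := h1.star
  have h4 := ((h2.mul_const v).mul h3)
  have h5 := Complex.reCLM.hasFDerivAt.comp_hasDerivAt t h4
  refine h5.congr_deriv ?_
  have h6 : ((‖deriv h (p t) * v‖ ^ 2 : ℝ) : ℂ) = deriv h (p t) * v * conj (deriv h (p t) * v) := by
    rw [Complex.mul_conj, Complex.normSq_eq_norm_sq]
  have h7 : ‖deriv h (p t) * v‖ ^ 2 = (deriv h (p t) * v * conj (deriv h (p t) * v)).re := by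
    rw [← h6, Complex.ofReal_re]
  rw [h7, ← Complex.add_re]
  simp only [Complex.reCLM_apply]
  congr 1
  ring

theorem b3_second {h : ℂ → ℂ} {U : Set ℂ} (hU : IsOpen U) (hh : DifferentiableOn ℂ h U) {τ : ℝ}
    (hτ : 0 < τ) {p : ℝ → ℂ} {v : ℂ} {t : ℝ} (hp : HasDerivAt p v t) (ht : p t ∈ U) :
    HasDerivAt (fun s => b3U h τ v (p s)) (b3V h τ v (p t)) t := by
  have h0 := (b3D_pos h hτ (p t)).ne'
  have h1 := (b3_A hU hh hp ht).div (b3_D hU hh τ hp ht) h0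
  refine h1.congr_deriv ?_
  unfold b3V
  field_simp

theorem b3_px (x y : ℝ) : HasDerivAt (fun s : ℝ => (⟨s, y⟩ : ℂ)) 1 x := by
  have h1 : (fun s : ℝ => (⟨s, y⟩ : ℂ)) = fun s : ℝ => (s : ℂ) + y * Complex.I := by
    funext s
    apply Complex.ext <;> simp
  rw [h1]
  exact (Complex.ofRealCLM.hasDerivAt (x := x)).add_const _

theorem b3_py (x y : ℝ) : HasDerivAt (fun s : ℝ => (⟨x, s⟩ : ℂ)) Complex.I y := by
  have h1 : (fun s : ℝ => (⟨x, s⟩ : ℂ)) = fun s : ℝ => (x : ℂ) + (s : ℂ) * Complex.I := by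
    funext s
    apply Complex.ext <;> simp
  rw [h1]
  have h2 := ((Complex.ofRealCLM.hasDerivAt (x := y)).mul_const Complex.I).const_add (x : ℂ)
  simpa using h2

theorem b3_lap (h : ℂ → ℂ) {τ : ℝ} (hτ : 0 < τ) (z : ℂ) :
    0 ≤ b3V h τ 1 z + b3V h τ Complex.I z := by
  have hD := b3D_pos h hτ z
  have h1 : b3A h 1 z ^ 2 + b3A h Complex.I z ^ 2 = ‖deriv h z‖ ^ 2 * ‖h z‖ ^ 2 := by
    unfold b3A
    rw [← Complex.normSq_eq_norm_sq, ← Complex.normSq_eq_norm_sq, Complex.normSq_apply,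
      Complex.normSq_apply]
    simp only [Complex.mul_re, Complex.mul_im, Complex.conj_re, Complex.conj_im, Complex.I_re,
      Complex.I_im, Complex.one_re, Complex.one_im]
    ring
  have h2 : b3V h τ 1 z + b3V h τ Complex.I z = 2 * τ * ‖deriv h z‖ ^ 2 / b3D h τ z ^ 2 := by
    have h3 : b3V h τ 1 z + b3V h τ Complex.I z =
        2 * ‖deriv h z‖ ^ 2 / b3D h τ z -
          2 * (b3A h 1 z ^ 2 + b3A h Complex.I z ^ 2) / b3D h τ z ^ 2 := by
      unfold b3V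
      have e1 : ‖deriv h z * 1‖ = ‖deriv h z‖ := by rw [mul_one]
      have e2 : ‖deriv h z * Complex.I‖ = ‖deriv h z‖ := by
        rw [norm_mul, Complex.norm_I, mul_one]
      rw [e1, e2, Complex.I_sq]
      have e3 : (deriv (deriv h) z * -1 * conj (h z)).re =
          - (deriv (deriv h) z * 1 ^ 2 * conj (h z)).re := by
        rw [← Complex.neg_re]
        congr 1
        ring
      rw [e3]
      ring
    rw [h3, h1]
    have e4 : ‖h z‖ ^ 2 = b3D h τ z - τ := by unfold b3D; ring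
    rw [e4]
    field_simp
    ring
  rw [h2]
  positivity

theorem b3_bound (h : ℂ → ℂ) {τ : ℝ} (hτ : 0 < τ) (z : ℂ) (hz : h z ≠ 0) :
    |b3U h τ 1 z| ≤ ‖deriv h z‖ / ‖h z‖ := by
  have hD := b3D_pos h hτ z
  have hn : 0 < ‖h z‖ := norm_pos_iff.2 hz
  have h1 : |b3A h 1 z| ≤ ‖deriv h z‖ * ‖h z‖ := by
    unfold b3A
    refine (Complex.abs_re_le_norm _).trans ?_
    rw [norm_mul, norm_mul, norm_one, mul_one, RCLike.norm_conj]
  unfold b3U
  rw [abs_div, abs_of_pos hD, div_le_div_iff₀ hD hn]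
  calc |b3A h 1 z| * ‖h z‖ ≤ (‖deriv h z‖ * ‖h z‖) * ‖h z‖ :=
        mul_le_mul_of_nonneg_right h1 hn.le
    _ = ‖deriv h z‖ * ‖h z‖ ^ 2 := by ring
    _ ≤ ‖deriv h z‖ * b3D h τ z := by
        apply mul_le_mul_of_nonneg_left _ (norm_nonneg _)
        unfold b3D
        linarith

theorem b3_cont_mk : Continuous (fun z : ℝ × ℝ => (⟨z.1, z.2⟩ : ℂ)) := by
  have h1 : (fun z : ℝ × ℝ => (⟨z.1, z.2⟩ : ℂ)) =
      fun z : ℝ × ℝ => (z.1 : ℂ) + (z.2 : ℂ) * Complex.I := by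
    funext z
    apply Complex.ext <;> simp
  rw [h1]
  fun_prop

theorem logReg : LogReg := by
  intro U h τ hU hh hτ
  have hh1 : DifferentiableOn ℂ (deriv h) U := hh.deriv hU
  have hh2 : DifferentiableOn ℂ (deriv (deriv h)) U := hh1.deriv hU
  set E : Set (ℝ × ℝ) := {z | (⟨z.1, z.2⟩ : ℂ) ∈ U} with hE
  have hmaps : Set.MapsTo (fun z : ℝ × ℝ => (⟨z.1, z.2⟩ : ℂ)) E U := fun z hz => hz
  have c0 : ContinuousOn (fun z : ℝ × ℝ => h ⟨z.1, z.2⟩) E :=
    hh.continuousOn.comp b3_cont_mk.continuousOn hmaps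
  have c1 : ContinuousOn (fun z : ℝ × ℝ => deriv h ⟨z.1, z.2⟩) E :=
    hh1.continuousOn.comp b3_cont_mk.continuousOn hmaps
  have c2 : ContinuousOn (fun z : ℝ × ℝ => deriv (deriv h) ⟨z.1, z.2⟩) E :=
    hh2.continuousOn.comp b3_cont_mk.continuousOn hmaps
  have cc : ContinuousOn (fun z : ℝ × ℝ => conj (h ⟨z.1, z.2⟩)) E :=
    Complex.continuous_conj.comp_continuousOn c0
  have cD : ContinuousOn (fun z : ℝ × ℝ => b3D h τ ⟨z.1, z.2⟩) E := by
    unfold b3D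
    exact (c0.norm.pow 2).add continuousOn_const
  have cA : ∀ v : ℂ, ContinuousOn (fun z : ℝ × ℝ => b3A h v ⟨z.1, z.2⟩) E := by
    intro v
    unfold b3A
    exact Complex.continuous_re.comp_continuousOn ((c1.mul continuousOn_const).mul cc)
  have cU : ∀ v : ℂ, ContinuousOn (fun z : ℝ × ℝ => b3U h τ v ⟨z.1, z.2⟩) E := by
    intro v
    unfold b3U
    exact (cA v).div cD (fun z _ => (b3D_pos h hτ _).ne')
  have cV : ∀ v : ℂ, ContinuousOn (fun z : ℝ × ℝ => b3V h τ v ⟨z.1, z.2⟩) E := by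
    intro v
    unfold b3V
    refine ContinuousOn.sub (ContinuousOn.div (ContinuousOn.add ?_ ?_) cD
      (fun z _ => (b3D_pos h hτ _).ne')) (ContinuousOn.div (continuousOn_const.mul ((cA v).pow 2))
      (cD.pow 2) (fun z _ => pow_ne_zero 2 (b3D_pos h hτ _).ne'))
    · exact Complex.continuous_re.comp_continuousOn ((c2.mul continuousOn_const).mul cc)
    · exact (c1.mul continuousOn_const).norm.pow 2
  refine ⟨fun x y => b3U h τ 1 ⟨x, y⟩, fun x y => b3V h τ 1 ⟨x, y⟩,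
    fun x y => b3U h τ Complex.I ⟨x, y⟩, fun x y => b3V h τ Complex.I ⟨x, y⟩, ?_, ?_,
    cU 1, cV 1, cU Complex.I, cV Complex.I⟩
  · intro x y hxy
    refine ⟨b3_first hU hh hτ (b3_px x y) hxy, b3_second hU hh hτ (b3_px x y) hxy,
      b3_first hU hh hτ (b3_py x y) hxy, b3_second hU hh hτ (b3_py x y) hxy,
      b3_lap h hτ _, fun hz => b3_bound h hτ _ hz⟩
  · refine continuousOn_const.mul (ContinuousOn.log ?_ ?_)
    · exact (c0.norm.pow 2).add continuousOn_const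
    · intro z _
      exact (b3D_pos h hτ _).ne'

end MP7ed9c3
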