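import Pool.Agent.Lib.MP_7ed9c3_nt.B4a

/-!
# MP_7ed9c3_nt: boundary uniqueness (B4)
-/

namespace MP7ed9c3

open Filter Topology MeasureTheory

lemma B4_choose {U : Set ℂ} {h : ℂ → ℂ} (hU : IsOpen U) (hc : IsPreconnected U)
    (hd : DifferentiableOn ℂ h U) {z₀ : ℂ} (hz₀ : z₀ ∈ U) (hne : h z₀ ≠ 0) {r c β : ℝ}
    (hr : 0 < r)
    (hsub : ∀ x y : ℝ, 0 < x → x ≤ r → y ∈ Set.Icc (c - β) (c + β) → (⟨x, y⟩ : ℂ) ∈ U) :
    ∃ q : ℝ, 0 < q ∧ q ≤ r ∧ ∀ y ∈ Set.Icc (c - β) (c + β), h ⟨q, y⟩ ≠ 0 := by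
  by_contra hcon
  push Not at hcon
  have han : AnalyticOnNhd ℂ h U := hd.analyticOnNhd hU
  let S : Set ℂ := {z | z ∈ Set.Icc (r / 2) r ×ℂ Set.Icc (c - β) (c + β) ∧ h z = 0}
  have hS : S.Infinite := by
    apply Set.Infinite.of_image Complex.re
    apply (Set.Icc_infinite (show r / 2 < r by linarith)).mono
    intro q hq
    obtain ⟨y, hy, hy0⟩ := hcon q (by linarith [hq.1]) hq.2
    exact ⟨⟨q, y⟩, ⟨Complex.mem_reProdIm.2 ⟨hq, hy⟩, hy0⟩, rfl⟩
  obtain ⟨w, hw, hacc⟩ := hS.exists_accPt_of_subset_isCompact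
    (isCompact_Icc.reProdIm isCompact_Icc) (fun z hz => hz.1)
  rw [accPt_iff_frequently_nhdsNE] at hacc
  rw [Complex.mem_reProdIm] at hw
  have hwU : w ∈ U := hsub w.re w.im (by linarith [hw.1.1]) hw.1.2 hw.2
  exact hne (han.eqOn_zero_of_preconnected_of_frequently_eq_zero hc hwU
    (hacc.mono fun z hz => hz.2) hz₀)

lemma B4_logabs {s τ : ℝ} (hs : 0 < s) (hτ0 : 0 < τ) (hτ1 : τ ≤ 1) :
    |1 / 2 * Real.log (s + τ)| ≤ |1 / 2 * Real.log s| + 1 / 2 * Real.log (s + 1) := by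
  have h1 : Real.log s ≤ Real.log (s + τ) := Real.log_le_log hs (by linarith)
  have h2 : Real.log (s + τ) ≤ Real.log (s + 1) := Real.log_le_log (by linarith) (by linarith)
  have h3 : 0 ≤ Real.log (s + 1) := Real.log_nonneg (by linarith)
  have h4 := neg_abs_le (1 / 2 * Real.log s)
  have h5 := abs_nonneg (1 / 2 * Real.log s)
  rw [abs_le]
  constructor <;> linarith

lemma B4_cos {κ β y c : ℝ} (hβ : 0 < β) (hκ : κ = Real.pi / (2 * β))
    (hy : y ∈ Set.Icc (c - β / 2) (c + β / 2)) : 1 / 2 ≤ Real.cos (κ * (y - c)) := by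
  have hκ0 : 0 < κ := by rw [hκ]; positivity
  have e1 : κ * (β / 2) = Real.pi / 4 := by
    rw [hκ]
    field_simp
    ring
  have e2 : |κ * (y - c)| ≤ Real.pi / 4 := by
    rw [abs_mul, abs_of_pos hκ0, ← e1]
    apply mul_le_mul_of_nonneg_left _ hκ0.le
    rw [abs_le]
    constructor <;> linarith [hy.1, hy.2]
  rw [← Real.cos_abs, ← Real.cos_pi_div_three]
  apply Real.cos_le_cos_of_nonneg_of_le_pi (abs_nonneg _) <;> linarith [Real.pi_pos]

lemma B4_cos0 {κ β y c : ℝ} (hβ : 0 < β) (hκ : κ = Real.pi / (2 * β))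
    (hy : y ∈ Set.Icc (c - β) (c + β)) : 0 ≤ Real.cos (κ * (y - c)) := by
  have hκ0 : 0 < κ := by rw [hκ]; positivity
  have e1 : κ * β = Real.pi / 2 := by
    rw [hκ]
    field_simp
  have e2 : |κ * (y - c)| ≤ Real.pi / 2 := by
    rw [abs_mul, abs_of_pos hκ0, ← e1]
    apply mul_le_mul_of_nonneg_left _ hκ0.le
    rw [abs_le]
    constructor <;> linarith [hy.1, hy.2]
  exact Real.cos_nonneg_of_neg_pi_div_two_le_of_le (by linarith [(abs_le.1 e2).1])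
    (abs_le.1 e2).2

/-- The measure theoretic part. -/
lemma B4_final {U : Set ℂ} {h f : ℂ → ℂ} {c β q L C5 : ℝ} {P : Set ℝ}
    (hd : DifferentiableOn ℂ h U) (hβ : 0 < β) (hq0 : 0 < q) (hL : 0 ≤ L)
    (hsub : ∀ x y : ℝ, 0 < x → x ≤ q → y ∈ Set.Icc (c - β) (c + β) → (⟨x, y⟩ : ℂ) ∈ U)
    (hup : ∀ x y τ : ℝ, 0 < x → x ≤ q → y ∈ Set.Icc (c - β) (c + β) → 0 < τ → τ ≤ 1 →
      1 / 2 * Real.log (‖h ⟨x, y⟩‖ ^ 2 + τ) ≤ ‖f ⟨x, y⟩‖ + L)
    (hP1 : P ⊆ Set.Icc (c - β / 2) (c + β / 2)) (hP2 : 0 < volume P)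
    (hP3 : ∀ t ∈ P, Tendsto (fun x : ℝ => h ⟨x, t⟩) (𝓝[>] 0) (𝓝 0))
    (hC : ∀ τ ε : ℝ, 0 < τ → τ ≤ 1 → 0 < ε → ε < q →
      IntervalIntegrable (fun y : ℝ => (‖f ⟨ε, y⟩‖ ^ 2 + (1 + L) -
        1 / 2 * Real.log (‖h ⟨ε, y⟩‖ ^ 2 + τ)) * Real.cos (Real.pi / (2 * β) * (y - c)))
        volume (c - β) (c + β) ∧
      ∫ y in (c - β)..(c + β), (‖f ⟨ε, y⟩‖ ^ 2 + (1 + L) -
        1 / 2 * Real.log (‖h ⟨ε, y⟩‖ ^ 2 + τ)) * Real.cos (Real.pi / (2 * β) * (y - c)) ≤ C5) :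
    False := by
  have hcb : c - β ≤ c + β := by linarith
  have hfin : volume P < ⊤ := lt_of_le_of_lt (measure_mono hP1) (by
    rw [Real.volume_Icc]; exact ENNReal.ofReal_lt_top)
  obtain ⟨m₀, hm₀⟩ : ∃ m₀ : ℝ, m₀ = (volume P).toReal := ⟨_, rfl⟩
  have hm : 0 < m₀ := by rw [hm₀]; exact ENNReal.toReal_pos hP2.ne' hfin.ne
  obtain ⟨τ, hτ⟩ : ∃ τ : ℝ, τ = Real.exp (-(8 * (|C5| + 1) / m₀)) / 2 := ⟨_, rfl⟩
  have hτ0 : 0 < τ := by rw [hτ]; positivity
  have hlog : Real.log (2 * τ) = -(8 * (|C5| + 1) / m₀) := by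
    rw [hτ, mul_div_cancel₀ _ (by norm_num : (2 : ℝ) ≠ 0), Real.log_exp]
  have hτ1 : τ ≤ 1 := by
    have : Real.exp (-(8 * (|C5| + 1) / m₀)) ≤ 1 := by
      rw [Real.exp_le_one_iff]
      have : 0 ≤ 8 * (|C5| + 1) / m₀ := by positivity
      linarith
    rw [hτ]
    linarith
  let ε : ℕ → ℝ := fun n => q / (n + 2)
  have hε0 : ∀ n, 0 < ε n := fun n => by positivity
  have hεq : ∀ n, ε n < q := fun n => by
    rw [div_lt_iff₀ (by positivity)]
    have : (0 : ℝ) ≤ n := Nat.cast_nonneg n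
    nlinarith
  have hεt : Tendsto ε atTop (𝓝[>] 0) := by
    rw [tendsto_nhdsWithin_iff]
    refine ⟨?_, Eventually.of_forall fun n => hε0 n⟩
    have h1 : Tendsto (fun n : ℕ => (n : ℝ) + 2) atTop atTop :=
      tendsto_atTop_add_const_right _ _ tendsto_natCast_atTop_atTop
    exact Tendsto.div_atTop tendsto_const_nhds h1
  let E : ℕ → Set ℝ := fun n => {t ∈ Set.Icc (c - β / 2) (c + β / 2) |
    ‖h ⟨ε n, t⟩‖ ^ 2 ∈ Set.Iic τ}
  have hEc : ∀ n, IsClosed (E n) := by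
    intro n
    have h1 : ContinuousOn (fun t : ℝ => h ⟨ε n, t⟩) (Set.Icc (c - β / 2) (c + β / 2)) := by
      apply hd.continuousOn.comp (f := fun t : ℝ => (⟨ε n, t⟩ : ℂ))
      · have : (fun t : ℝ => (⟨ε n, t⟩ : ℂ)) = fun t : ℝ => (ε n : ℂ) + t * Complex.I := by
          funext t
          exact Complex.mk_eq_add_mul_I _ _
        rw [this]
        fun_prop
      · intro t ht
        exact hsub _ _ (hε0 n) (hεq n).le ⟨by linarith [ht.1], by linarith [ht.2]⟩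
    have h2 := ContinuousOn.preimage_isClosed_of_isClosed (h1.norm.pow 2) isClosed_Icc
      (isClosed_Iic (a := τ))
    exact h2
  let S : ℕ → Set ℝ := fun N => {t | ∀ n, N ≤ n → t ∈ E n}
  have hSm : Monotone S := fun N M hNM t ht n hn => ht n (hNM.trans hn)
  have hPS : P ⊆ ⋃ N, S N := by
    intro t ht
    have h1 : Tendsto (fun n => ‖h ⟨ε n, t⟩‖ ^ 2) atTop (𝓝 0) := by
      have := ((hP3 t ht).comp hεt).norm.pow 2
      simpa using this
    obtain ⟨N, hN⟩ := eventually_atTop.1 (h1.eventually (gt_mem_nhds hτ0))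
    exact Set.mem_iUnion.2 ⟨N, fun n hn => ⟨hP1 ht, (hN n hn).le⟩⟩
  have h1 : ENNReal.ofReal (m₀ / 2) < ⨆ N, volume (S N) := by
    rw [← hSm.measure_iUnion]
    refine lt_of_lt_of_le ?_ (measure_mono hPS)
    rw [← ENNReal.ofReal_toReal hfin.ne, ← hm₀]
    exact (ENNReal.ofReal_lt_ofReal_iff hm).2 (by linarith)
  obtain ⟨N, hN⟩ := lt_iSup_iff.1 h1
  have h2 : ENNReal.ofReal (m₀ / 2) < volume (E N) :=
    lt_of_lt_of_le hN (measure_mono fun t ht => ht N le_rfl)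
  have hEfin : volume (E N) ≠ ⊤ := ne_top_of_le_ne_top
    (by rw [Real.volume_Icc]; exact ENNReal.ofReal_ne_top)
    (measure_mono (fun t ht => ht.1 : E N ⊆ Set.Icc (c - β / 2) (c + β / 2)))
  have h3 : m₀ / 2 ≤ volume.real (E N) := by
    rw [Measure.real, ← ENNReal.toReal_ofReal (by positivity : 0 ≤ m₀ / 2)]
    exact ENNReal.toReal_mono hEfin h2.le
  obtain ⟨g1, g2⟩ := hC τ (ε N) hτ0 hτ1 (hε0 N) (hεq N)
  rw [intervalIntegral.integral_of_le hcb] at g2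
  have g3 := (intervalIntegrable_iff_integrableOn_Ioc_of_le hcb).1 g1
  have hEsub : E N ⊆ Set.Ioc (c - β) (c + β) := fun t ht =>
    ⟨by linarith [ht.1.1], by linarith [ht.1.2]⟩
  have h4 : ∀ y ∈ Set.Icc (c - β) (c + β), 0 ≤ (‖f ⟨ε N, y⟩‖ ^ 2 + (1 + L) -
      1 / 2 * Real.log (‖h ⟨ε N, y⟩‖ ^ 2 + τ)) * Real.cos (Real.pi / (2 * β) * (y - c)) := by
    intro y hy
    apply mul_nonneg _ (B4_cos0 hβ rfl hy)
    have := hup (ε N) y τ (hε0 N) (hεq N).le hy hτ0 hτ1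
    nlinarith [sq_nonneg (‖f ⟨ε N, y⟩‖ - 1), norm_nonneg (f ⟨ε N, y⟩)]
  have h5 := setIntegral_mono_set g3 (by
    rw [EventuallyLE, ae_restrict_iff' measurableSet_Ioc]
    exact Eventually.of_forall fun y hy => h4 y ⟨hy.1.le, hy.2⟩)
    (HasSubset.Subset.eventuallyLE hEsub)
  have h6 := setIntegral_ge_of_const_le_real (c := (8 * (|C5| + 1) / m₀) / 4) (μ := volume)
    (hEc N).measurableSet hEfin (fun y hy => by
      have hy' : y ∈ Set.Icc (c - β) (c + β) := ⟨(hEsub hy).1.le, (hEsub hy).2⟩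
      have k1 := B4_cos hβ rfl hy.1
      have k2 : ‖h ⟨ε N, y⟩‖ ^ 2 + τ ≤ 2 * τ := by
        have : ‖h ⟨ε N, y⟩‖ ^ 2 ≤ τ := hy.2
        linarith
      have k3 := Real.log_le_log (by positivity) k2
      rw [hlog] at k3
      have k4 : (8 * (|C5| + 1) / m₀) / 2 ≤ ‖f ⟨ε N, y⟩‖ ^ 2 + (1 + L) -
          1 / 2 * Real.log (‖h ⟨ε N, y⟩‖ ^ 2 + τ) := by
        have := sq_nonneg ‖f ⟨ε N, y⟩‖
        linarith
      have k5 : 0 ≤ (8 * (|C5| + 1) / m₀) / 2 := by positivity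
      calc (8 * (|C5| + 1) / m₀) / 4 = (8 * (|C5| + 1) / m₀) / 2 * (1 / 2) := by ring
        _ ≤ _ := mul_le_mul k4 k1 (by norm_num) (k5.trans k4)) (g3.mono_set hEsub)
  have h7 : (8 * (|C5| + 1) / m₀) / 4 * (m₀ / 2) ≤ (8 * (|C5| + 1) / m₀) / 4 *
      volume.real (E N) := mul_le_mul_of_nonneg_left h3 (by positivity)
  have h8 : (8 * (|C5| + 1) / m₀) / 4 * (m₀ / 2) = |C5| + 1 := by
    field_simp
    ring
  have h9 := le_abs_self C5
  linarith

/-- **B4, boundary uniqueness.** -/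
theorem uniqueness (h2 : Green) (h3 : LogReg) : Uniqueness := by
  intro f G a b δ hab hδ hf hms hO hG hP
  by_contra hcon
  push Not at hcon
  obtain ⟨z₀, hz1, hz2, hz3, hz4, hz5⟩ := hcon
  obtain ⟨U, hUdef⟩ : ∃ U : Set ℂ, U = {z | 0 < z.re ∧ z.re < δ ∧ a < z.im ∧ z.im < b} :=
    ⟨_, rfl⟩
  have hUo : IsOpen U := by
    rw [hUdef]
    exact ((isOpen_lt continuous_const Complex.continuous_re).inter
      ((isOpen_lt Complex.continuous_re continuous_const).inter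
      ((isOpen_lt continuous_const Complex.continuous_im).inter
      (isOpen_lt Complex.continuous_im continuous_const))))
  have hUc : IsPreconnected U := by
    rw [hUdef]
    apply Convex.isPreconnected
    exact (convex_halfSpace_re_gt 0).inter ((convex_halfSpace_re_lt δ).inter
      ((convex_halfSpace_im_gt a).inter (convex_halfSpace_im_lt b)))
  obtain ⟨h, hh⟩ : ∃ h : ℂ → ℂ, h = fun z => Complex.exp (f z) - G z := ⟨_, rfl⟩
  have hd : DifferentiableOn ℂ h U := by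
    rw [hh, hUdef]
    exact ((hf.mono (fun z hz => hz.1)).cexp).sub (hG.mono fun z hz =>
      ⟨abs_lt.2 ⟨by linarith [hz.1], hz.2.1⟩, hz.2.2⟩)
  have hz₀U : z₀ ∈ U := by
    rw [hUdef]
    exact ⟨hz1, hz2, hz3, hz4⟩
  have hne₀ : h z₀ ≠ 0 := by
    rw [hh]
    exact sub_ne_zero.2 hz5
  obtain ⟨c, ⟨hca, hcb, -⟩, hcpos⟩ := exists_mem_forall_mem_nhdsWithin_pos_measure hP.ne'
  obtain ⟨β, hβ, hβ1, hβ2⟩ : ∃ β : ℝ, 0 < β ∧ a < c - β ∧ c + β < b := by
    refine ⟨min (c - a) (b - c) / 2, ?_, ?_, ?_⟩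
    · have : 0 < min (c - a) (b - c) := lt_min (by linarith) (by linarith)
      linarith
    · have := min_le_left (c - a) (b - c)
      linarith
    · have := min_le_right (c - a) (b - c)
      linarith
  have hcle : c - β ≤ c + β := by linarith
  have hr : 0 < min (δ / 2) 1 := by positivity
  have hbox : ∀ x y : ℝ, 0 < x → x ≤ min (δ / 2) 1 → y ∈ Set.Icc (c - β) (c + β) →
      (⟨x, y⟩ : ℂ) ∈ U := by
    intro x y hx0 hx1 hy
    have := min_le_left (δ / 2) 1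
    rw [hUdef]
    exact ⟨hx0, by simp only; linarith, by simp only; linarith [hy.1],
      by simp only; linarith [hy.2]⟩
  obtain ⟨q, hq0, hqr, hqne⟩ := B4_choose hUo hUc hd hz₀U hne₀ hr hbox
  have hq1 : q ≤ 1 := hqr.trans (min_le_right _ _)
  have hqδ : q ≤ δ / 2 := hqr.trans (min_le_left _ _)
  have hsub : ∀ x y : ℝ, 0 < x → x ≤ q → y ∈ Set.Icc (c - β) (c + β) → (⟨x, y⟩ : ℂ) ∈ U :=
    fun x y hx0 hx1 hy => hbox x y hx0 (hx1.trans hqr) hy
  have hmk : ∀ x y : ℝ, (⟨x, y⟩ : ℂ) = (x : ℂ) + y * Complex.I := fun x y =>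
    Complex.mk_eq_add_mul_I x y
  -- bounds for f
  have hfc : ∀ x : ℝ, 0 < x → Continuous (fun y : ℝ => f ⟨x, y⟩) := by
    intro x hx
    have h1 : ContinuousOn f {z | 0 < z.re} := hf.continuousOn
    have h2 : Continuous (fun y : ℝ => (⟨x, y⟩ : ℂ)) := by
      simp only [hmk]
      fun_prop
    exact h1.comp_continuous h2 fun y => hx
  obtain ⟨CT, hCT⟩ := hms (|c| + β)
  obtain ⟨Cf, hCf⟩ := hO (|c| + β)
  have hT : ∀ y ∈ Set.Icc (c - β) (c + β), |y| ≤ |c| + β := by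
    intro y hy
    rw [abs_le]
    have h1 := le_abs_self c
    have h2 := neg_abs_le c
    constructor <;> linarith [hy.1, hy.2]
  have hCf0 : 0 ≤ Cf := by
    have h1 := hCf 1 0 one_pos le_rfl (by rw [abs_zero]; positivity)
    have h2 := (norm_nonneg _).trans h1
    simpa using h2
  have hfb : ∀ x y : ℝ, 0 < x → x ≤ q → y ∈ Set.Icc (c - β) (c + β) →
      ‖f ⟨x, y⟩‖ ≤ Cf / x := by
    intro x y hx0 hx1 hy
    rw [hmk]
    exact hCf x y hx0 (hx1.trans hq1) (hT y hy)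
  have hfT : ∀ x : ℝ, 0 < x → x ≤ q →
      ∫ y in (c - β)..(c + β), ‖f ⟨x, y⟩‖ ^ 2 ≤ CT := by
    intro x hx0 hx1
    refine le_trans ?_ (hCT x hx0 (hx1.trans hq1))
    simp only [← hmk]
    have h1 := le_abs_self c
    have h2 := neg_abs_le c
    apply intervalIntegral.integral_mono_interval (by linarith) hcle (by linarith)
      (Eventually.of_forall fun y => by positivity)
    exact ((hfc x hx0).norm.pow 2).intervalIntegrable _ _
  -- bounds for G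
  obtain ⟨MG, hMG⟩ := (isCompact_Icc.reProdIm isCompact_Icc :
    IsCompact (Set.Icc 0 q ×ℂ Set.Icc (c - β) (c + β))).exists_bound_of_continuousOn
    (f := G) (hG.continuousOn.mono fun z hz => by
      rw [Complex.mem_reProdIm] at hz
      exact ⟨abs_lt.2 ⟨by linarith [hz.1.1], by linarith [hz.1.2]⟩, by linarith [hz.2.1],
        by linarith [hz.2.2]⟩)
  have hMG0 : 0 ≤ MG := (norm_nonneg _).trans (hMG ⟨0, c⟩ (by
    rw [Complex.mem_reProdIm]
    exact ⟨⟨le_rfl, hq0.le⟩, ⟨by simp only; linarith, by simp only; linarith⟩⟩))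
  have hup : ∀ x y τ : ℝ, 0 < x → x ≤ q → y ∈ Set.Icc (c - β) (c + β) → 0 < τ → τ ≤ 1 →
      1 / 2 * Real.log (‖h ⟨x, y⟩‖ ^ 2 + τ) ≤ ‖f ⟨x, y⟩‖ + Real.log (MG + 2) := by
    intro x y τ hx0 hx1 hy hτ0 hτ1
    apply B4_log (norm_nonneg _) (norm_nonneg _) hMG0 _ hτ0 hτ1
    rw [hh]
    refine (norm_sub_le _ _).trans (add_le_add (Complex.norm_exp_le_exp_norm _)
      (hMG _ ?_))
    rw [Complex.mem_reProdIm]
    exact ⟨⟨hx0.le, hx1⟩, hy⟩
  have hL : 0 ≤ Real.log (MG + 2) := Real.log_nonneg (by linarith)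
  -- bounds on the segment
  have hseg : ∀ F : ℂ → ℂ, ContinuousOn F U →
      ContinuousOn (fun y : ℝ => F ⟨q, y⟩) (Set.Icc (c - β) (c + β)) := by
    intro F hF
    apply hF.comp (f := fun y : ℝ => (⟨q, y⟩ : ℂ))
    · simp only [hmk]
      fun_prop
    · intro y hy
      exact hsub q y hq0 le_rfl hy
  have hs1 := hseg h hd.continuousOn
  have hs2 := hseg (deriv h) (hd.deriv hUo).continuousOn
  obtain ⟨A1, hA1⟩ := isCompact_Icc.exists_bound_of_continuousOn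
    (hs2.norm.div hs1.norm fun y hy => (norm_pos_iff.2 (hqne y hy)).ne')
  have hs3 : ContinuousOn (fun y : ℝ => |1 / 2 * Real.log (‖h ⟨q, y⟩‖ ^ 2)| +
      1 / 2 * Real.log (‖h ⟨q, y⟩‖ ^ 2 + 1)) (Set.Icc (c - β) (c + β)) := by
    have e0 := hs1.norm.pow 2
    apply ContinuousOn.add
    · apply ContinuousOn.abs
      apply continuousOn_const.mul
      exact e0.log fun y hy => (pow_pos (norm_pos_iff.2 (hqne y hy)) 2).ne'
    · apply continuousOn_const.mul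
      exact (e0.add continuousOn_const).log fun y hy => by
        have := sq_nonneg ‖h ⟨q, y⟩‖
        change ‖h ⟨q, y⟩‖ ^ 2 + 1 ≠ 0
        linarith
  obtain ⟨A2, hA2⟩ := isCompact_Icc.exists_bound_of_continuousOn hs3
  obtain ⟨C5, hC5⟩ := B4_main (A1 := A1) (A2 := A2) h2 h3 hUo hd hβ hq1 hsub hfc hL hCf0 hup hfb
    hfT hqne (fun y hy => (le_abs_self _).trans (hA1 y hy))
    (fun y hy τ hτ0 hτ1 => (B4_logabs (pow_pos (norm_pos_iff.2 (hqne y hy)) 2) hτ0 hτ1).trans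
      ((le_abs_self _).trans (hA2 y hy)))
  -- the set
  have hPt : ∀ t : ℝ, a < t → t < b → Tendsto (fun x : ℝ =>
      Complex.exp (f ((x : ℂ) + t * Complex.I))) (𝓝[>] 0) (𝓝 (G (t * Complex.I))) →
      Tendsto (fun x : ℝ => h ⟨x, t⟩) (𝓝[>] 0) (𝓝 0) := by
    intro t hta htb ht
    have h1 : ContinuousAt G (t * Complex.I) := by
      apply (hG.continuousOn).continuousAt
      have : IsOpen {z : ℂ | |z.re| < δ ∧ a < z.im ∧ z.im < b} :=
        (isOpen_lt Complex.continuous_re.abs continuous_const).inter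
        ((isOpen_lt continuous_const Complex.continuous_im).inter
        (isOpen_lt Complex.continuous_im continuous_const))
      apply this.mem_nhds
      simp [hδ, hta, htb]
    have h2 : Tendsto (fun x : ℝ => (x : ℂ) + t * Complex.I) (𝓝[>] 0) (𝓝 (t * Complex.I)) := by
      have : Tendsto (fun x : ℝ => (x : ℂ) + t * Complex.I) (𝓝 0)
          (𝓝 (((0 : ℝ) : ℂ) + t * Complex.I)) := by
        apply Continuous.tendsto
        fun_prop
      rw [Complex.ofReal_zero, zero_add] at this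
      exact this.mono_left nhdsWithin_le_nhds
    have h3 := ht.sub (h1.tendsto.comp h2)
    rw [sub_self] at h3
    refine h3.congr fun x => ?_
    rw [hh]
    simp only [hmk, Function.comp_apply]
  have hmem : {t : ℝ | a < t ∧ t < b ∧
      Tendsto (fun x : ℝ => Complex.exp (f ((x : ℂ) + t * Complex.I))) (𝓝[>] 0)
        (𝓝 (G (t * Complex.I)))} ∩ Set.Ioo (c - β / 2) (c + β / 2) ∈
      𝓝[{t : ℝ | a < t ∧ t < b ∧
      Tendsto (fun x : ℝ => Complex.exp (f ((x : ℂ) + t * Complex.I))) (𝓝[>] 0)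
        (𝓝 (G (t * Complex.I)))}] c :=
    inter_mem_nhdsWithin _ (Ioo_mem_nhds (by linarith) (by linarith))
  exact B4_final hd hβ hq0 hL hsub hup (fun t ht => Set.Ioo_subset_Icc_self ht.2)
    (hcpos _ hmem) (fun t ht => hPt t ht.1.1 ht.1.2.1 ht.1.2.2) hC5

end MP7ed9c3
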