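import Pool.Agent.Lib.MP_7ed9c3_nt.SpecB
import Pool.Agent.Lib.MP_7ed9c3_nt.A6
import Pool.Agent.Lib.MP_7ed9c3_nt.A9

/-!
# B5: the logarithm of the Euler product
-/

namespace MP7ed9c3

open Filter Topology MeasureTheory

namespace B5

lemma diff_eden (N : ℕ) (hN : 2 ≤ N) (a : ℤ) (good : Prop) [Decidable good] :
    Differentiable ℂ (fun s : ℂ => eden N a good s) := by
  have hN0 : (N : ℂ) ≠ 0 := by exact_mod_cast (by omega : N ≠ 0)
  unfold eden
  have h1 : Differentiable ℂ (fun s : ℂ => (N : ℂ) ^ (-s)) :=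
    differentiable_neg.const_cpow (Or.inl hN0)
  have h2 : Differentiable ℂ (fun s : ℂ => (N : ℂ) ^ (1 - 2 * s)) := by
    refine Differentiable.const_cpow ?_ (Or.inl hN0)
    fun_prop
  exact ((differentiable_const _).sub (h1.const_mul _)).add (h2.const_mul _)

lemma diff_a9E {ι : Type} {N : ι → ℕ} {a : ι → ℤ} {good : ι → Prop} [∀ i, Decidable (good i)]
    {A : ℝ} (hN : ∀ i, 2 ≤ N i) (haN : ∀ i, |(a i : ℝ)| ≤ N i)
    (haA : ∀ i, |(a i : ℝ)| ≤ A * √(N i)) (i : ι) :
    DifferentiableOn ℂ (fun z : ℂ => a9E N a good i (3 / 2 + z)) {z | 0 < z.re} := by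
  have hN0 : (N i : ℂ) ≠ 0 := by
    have := hN i
    exact_mod_cast (by omega : N i ≠ 0)
  intro z hz
  have hz' : 0 < z.re := hz
  have hre : 3 / 2 ≤ (3 / 2 + z : ℂ).re := by
    have : (3 / 2 + z : ℂ).re = 3 / 2 + z.re := by simp
    rw [this]; linarith
  have hadd : Differentiable ℂ (fun z : ℂ => 3 / 2 + z) := by fun_prop
  have h1 : DifferentiableAt ℂ (fun z : ℂ => eden (N i) (a i) (good i) (3 / 2 + z)) z :=
    ((diff_eden (N i) (hN i) (a i) (good i)).comp hadd) z
  have h2 : DifferentiableAt ℂ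
      (fun z : ℂ => Complex.log (eden (N i) (a i) (good i) (3 / 2 + z))) z :=
    h1.clog (eden_mem_slit (N i) (hN i) (a i) (good i) A (haN i) (haA i) _ hre)
  have h3 : DifferentiableAt ℂ (fun z : ℂ => (a i : ℂ) * (N i : ℂ) ^ (-(3 / 2 + z))) z := by
    refine DifferentiableAt.const_mul ?_ _
    exact ((hadd z).neg).const_cpow (Or.inl hN0)
  unfold a9E
  exact (h2.neg.sub h3).differentiableWithinAt

lemma line_cont {F : ℂ → ℂ} (hF : DifferentiableOn ℂ F {z | 0 < z.re}) {x : ℝ} (hx : 0 < x) :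
    Continuous fun t : ℝ => F ((x : ℂ) + t * Complex.I) := by
  refine hF.continuousOn.comp_continuous (by fun_prop) fun t => ?_
  show 0 < ((x : ℂ) + t * Complex.I).re
  simpa using hx

end B5

/-- **B5.** -/
theorem eulerExp (h6 : EulerLog) (h7 : SparseSums) (h8 : Group) (b1 : SeriesBound) :
    EulerExp := by
  intro ι N a good _ C A hN haN haA
  have hC : 0 ≤ C := by
    have := (hN.2 0).2
    have h0 : (0 : ℝ) ≤ ({i | 2 ^ 0 ≤ N i ∧ N i < 2 ^ (0 + 1)}.ncard : ℝ) := Nat.cast_nonneg _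
    have h1 := h0.trans this
    simpa using h1
  have hA' : ∀ i, |(a i : ℝ)| ≤ |A| * √(N i) := fun i =>
    (haA i).trans (mul_le_mul_of_nonneg_right (le_abs_self A) (Real.sqrt_nonneg _))
  obtain ⟨c, hc0, hcB, _, hcS⟩ := h8 ι N a C |A| hN (abs_nonneg A) hA'
  obtain ⟨d1, d2, d3⟩ := b1 c (C * |A|) hc0 hcB
  set C₁ : ℝ := 12 * (|A| + 1 / 2) ^ 2 + 1 with hC₁
  have hlog : ∀ i (s : ℂ), 3 / 2 ≤ s.re → eden (N i) (a i) (good i) s ≠ 0 ∧
      ‖a9E N a good i s‖ ≤ C₁ / (N i : ℝ) ^ 2 := fun i s hs =>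
    (h6 (N i) (a i) (good i) |A| (hN.1 i) (haN i) (hA' i)).1 s hs
  have hsum := a9_summable h7 hN C₁
  set C₂ : ℝ := ∑' i, C₁ / (N i : ℝ) ^ 2 with hC₂
  have hC₂0 : 0 ≤ C₂ := tsum_nonneg fun i => by positivity
  have hre : ∀ z : ℂ, 0 < z.re → 3 / 2 < (3 / 2 + z : ℂ).re := by
    intro z hz
    have : (3 / 2 + z : ℂ).re = 3 / 2 + z.re := by simp
    rw [this]; linarith
  set F : ℂ → ℂ := fun z => ∑' n : ℕ, c n * (n : ℂ) ^ (-z) with hF
  set E : ℂ → ℂ := fun z => ∑' i, a9E N a good i (3 / 2 + z) with hE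
  have hEd : DifferentiableOn ℂ E {z | 0 < z.re} := by
    refine Complex.differentiableOn_tsum_of_summable_norm hsum
      (fun i => B5.diff_a9E hN.1 haN hA' i)
      (isOpen_lt continuous_const Complex.continuous_re) ?_
    intro i z hz
    exact (hlog i _ (hre z hz).le).2
  have hEb : ∀ z : ℂ, 0 < z.re → ‖E z‖ ≤ C₂ := fun z hz =>
    tsum_of_norm_bounded hsum.hasSum fun i => (hlog i _ (hre z hz).le).2
  have hFd : DifferentiableOn ℂ F {z | 0 < z.re} := d1
  refine ⟨fun z => F z + E z, hFd.add hEd, ?_, ?_, ?_⟩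
  · intro z hz
    obtain ⟨s1, _, s3⟩ := hcS (3 / 2 + z) (hre z hz)
    have hEs : Summable (fun i => a9E N a good i (3 / 2 + z)) :=
      Summable.of_norm_bounded hsum fun i => (hlog i _ (hre z hz).le).2
    have hhs := s1.hasSum.add hEs.hasSum
    have hfun : (fun i => (a i : ℂ) * (N i : ℂ) ^ (-(3 / 2 + z)) + a9E N a good i (3 / 2 + z)) =
        fun i => -Complex.log (eden (N i) (a i) (good i) (3 / 2 + z)) := by
      funext i
      rw [a9E]; ring
    rw [hfun] at hhs
    have hprod := hhs.cexp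
    have hfun2 : (Complex.exp ∘ fun i => -Complex.log (eden (N i) (a i) (good i) (3 / 2 + z))) =
        fun i => (eden (N i) (a i) (good i) (3 / 2 + z))⁻¹ := by
      funext i
      simp only [Function.comp_apply]
      rw [Complex.exp_neg, Complex.exp_log (hlog i _ (hre z hz).le).1]
    rw [hfun2] at hprod
    rw [hprod.tprod_eq, s3]
    have h9 : (3 / 2 + z - 3 / 2 : ℂ) = z := by ring
    rw [h9]
  · intro T
    rcases lt_or_ge T 0 with hT | hT
    · refine ⟨0, fun x hx _ => ?_⟩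
      rw [intervalIntegral.integral_symm]
      refine neg_nonpos.2 (intervalIntegral.integral_nonneg (by linarith) fun t _ => ?_)
      positivity
    · refine ⟨2 * (80 * Real.exp (T ^ 2) * (C * |A|) ^ 2) + 2 * C₂ ^ 2 * (2 * T),
        fun x hx hx1 => ?_⟩
      have hTT : -T ≤ T := by linarith
      have hx' : ∀ t : ℝ, 0 < ((x : ℂ) + t * Complex.I).re := fun t => by simpa using hx
      have hcF := B5.line_cont hFd hx
      have hcE := B5.line_cont hEd hx
      have hle : ∫ t in (-T)..T, ‖F ((x : ℂ) + t * Complex.I) + E ((x : ℂ) + t * Complex.I)‖ ^ 2 ≤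
          ∫ t in (-T)..T, (2 * ‖F ((x : ℂ) + t * Complex.I)‖ ^ 2 + 2 * C₂ ^ 2) := by
        refine intervalIntegral.integral_mono_on hTT ?_ ?_ ?_
        · exact ((hcF.add hcE).norm.pow 2).intervalIntegrable _ _
        · exact ((continuous_const.mul (hcF.norm.pow 2)).add
            continuous_const).intervalIntegrable _ _
        · intro t _
          have e1 := norm_add_le (F ((x : ℂ) + t * Complex.I)) (E ((x : ℂ) + t * Complex.I))
          have e2 := hEb _ (hx' t)
          have e3 : ‖F ((x : ℂ) + t * Complex.I) + E ((x : ℂ) + t * Complex.I)‖ ≤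
              ‖F ((x : ℂ) + t * Complex.I)‖ + C₂ := by linarith
          have e4 := norm_nonneg (F ((x : ℂ) + t * Complex.I) + E ((x : ℂ) + t * Complex.I))
          have e5 := pow_le_pow_left₀ e4 e3 2
          nlinarith [sq_nonneg (‖F ((x : ℂ) + t * Complex.I)‖ - C₂)]
      refine hle.trans ?_
      have hii : IntervalIntegrable (fun t : ℝ => 2 * ‖F ((x : ℂ) + t * Complex.I)‖ ^ 2)
          volume (-T) T :=
        (continuous_const.mul (hcF.norm.pow 2)).intervalIntegrable _ _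
      rw [intervalIntegral.integral_add hii intervalIntegrable_const,
        intervalIntegral.integral_const_mul, intervalIntegral.integral_const, smul_eq_mul]
      have e6 := d3 T hT x hx hx1
      have e7 : (T - -T) * (2 * C₂ ^ 2) = 2 * C₂ ^ 2 * (2 * T) := by ring
      rw [e7]
      have e8 : ∫ t in (-T)..T, ‖F ((x : ℂ) + t * Complex.I)‖ ^ 2 ≤
          80 * Real.exp (T ^ 2) * (C * |A|) ^ 2 := e6
      linarith
  · intro T
    refine ⟨2 * (C * |A|) + C₂, fun x y hx hx1 _ => ?_⟩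
    have hx' : ((x : ℂ) + y * Complex.I).re = x := by simp
    have e1 := norm_add_le (F ((x : ℂ) + y * Complex.I)) (E ((x : ℂ) + y * Complex.I))
    have e2 := hEb ((x : ℂ) + y * Complex.I) (by rw [hx']; exact hx)
    have e3 := d2 ((x : ℂ) + y * Complex.I) (by rw [hx']; exact hx) (by rw [hx']; exact hx1)
    rw [hx'] at e3
    have e3' : ‖F ((x : ℂ) + y * Complex.I)‖ ≤ 2 * (C * |A|) / x := e3
    have e4 : C₂ ≤ C₂ / x := le_div_self hC₂0 hx hx1
    rw [add_div]
    linarith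

end MP7ed9c3
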