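import Pool.Agent.Lib.MP_7ed9c3_nt.SpecN

/-!
# MP_7ed9c3_nt, N5: the theorem for one curve
-/

namespace MP7ed9c3

open NumberField IsDedekindDomain Filter Topology

namespace N5

theorem eden_congr {N : ℕ} {a a' : ℤ} {g g' : Prop} [Decidable g] [Decidable g'] (s : ℂ)
    (ha : a = a') (hg : g ↔ g') : eden N a g s = eden N a' g' s := by
  unfold eden
  subst ha
  by_cases h : g
  · have h' : g' := hg.mp h
    simp [h, h']
  · have h' : ¬ g' := fun h' => h (hg.mpr h')
    simp [h, h']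

theorem finite_mem {K : Type} [Field K] [NumberField K] {x : 𝓞 K} (hx : x ≠ 0) :
    {v : HeightOneSpectrum (𝓞 K) | x ∈ v.asIdeal}.Finite := by
  have h0 : Ideal.span {x} ≠ 0 := by
    intro h
    exact hx (Ideal.span_singleton_eq_bot.mp h)
  refine (Ideal.finite_factors h0).subset ?_
  intro v hv
  simp only [Set.mem_ofPred_eq] at hv ⊢
  rw [Ideal.dvd_span_singleton]
  exact hv

end N5

/-- **N5, the theorem for one curve.** -/
theorem core (h9 : EulerAbs) (n1 : CountPrimes) (n2 : ExistsModel) (n3 : GoodData)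
    (n4 : TraceBound) : Core := by
  classical
  intro K _ _ E hE θ hθ
  obtain ⟨W₀, hΔ, hW₀⟩ := n2 K E hE
  obtain ⟨C, hC⟩ := n1 K
  set S : Set (HeightOneSpectrum (𝓞 K)) :=
    {v | W₀.Δ ∈ v.asIdeal ∨ (6 : 𝓞 K) ∈ v.asIdeal} with hSdef
  have h6 : (6 : 𝓞 K) ≠ 0 := by norm_num
  have hSfin : S.Finite := (N5.finite_mem hΔ).union (N5.finite_mem h6)
  haveI : Finite S := hSfin
  -- the data for a choice of local data on `S`
  set a : (S → ℤ × Bool) → HeightOneSpectrum (𝓞 K) → ℤ :=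
    fun h v => if hv : v ∈ S then (h ⟨v, hv⟩).1 else tr W₀ v with ha
  set g : (S → ℤ × Bool) → HeightOneSpectrum (𝓞 K) → Prop :=
    fun h v => if hv : v ∈ S then (h ⟨v, hv⟩).2 = true else True with hg
  have key : ∀ h : S → ℤ × Bool, ∃ Z : Set ℝ, dimH Z ≤ ENNReal.ofReal (2 * θ) ∧
      ((∀ v : S, |((h v).1 : ℝ)| ≤ nm v.1) → ∀ t ∉ Z, ∃ l : ℂ, l ≠ 0 ∧
        (∃ C' : ℝ, ∀ x : ℕ, 2 ≤ x → ‖(∏ᶠ v ∈ {v : HeightOneSpectrum (𝓞 K) | nm v ≤ x},
          (eden (nm v) (a h v) (g h v) (3 / 2 + t * Complex.I))⁻¹) - l‖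
            ≤ C' * Real.log x ^ (-θ)) ∧
        ∀ κ : ℝ, Tendsto (fun s : ℂ => ∏' v : HeightOneSpectrum (𝓞 K),
          (eden (nm v) (a h v) (g h v) s)⁻¹)
          (𝓝[stolz t κ] (3 / 2 + t * Complex.I)) (𝓝 l)) := by
    intro h
    by_cases hb : ∀ v : S, |((h v).1 : ℝ)| ≤ nm v.1
    · set A : ℝ := 2 + ∑ v ∈ hSfin.toFinset, √(nm v) with hA
      have hA2 : 2 ≤ A := by
        rw [hA]
        have : 0 ≤ ∑ v ∈ hSfin.toFinset, √(nm v : ℝ) :=
          Finset.sum_nonneg fun v _ => Real.sqrt_nonneg _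
        linarith
      have h1 : ∀ v, |(a h v : ℝ)| ≤ nm v := by
        intro v
        by_cases hv : v ∈ S
        · simp only [ha, hv, dif_pos]
          exact hb ⟨v, hv⟩
        · simp only [ha, hv, dif_neg, not_false_eq_true]
          exact (n4 K W₀ v).1
      have h2 : ∀ v, |(a h v : ℝ)| ≤ A * √(nm v) := by
        intro v
        by_cases hv : v ∈ S
        · have e1 : √(nm v : ℝ) ≤ A := by
            rw [hA]
            have : √(nm v : ℝ) ≤ ∑ v ∈ hSfin.toFinset, √(nm v : ℝ) :=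
              Finset.single_le_sum (f := fun v => √(nm v : ℝ))
                (fun v _ => Real.sqrt_nonneg _) (hSfin.mem_toFinset.mpr hv)
            linarith
          have e2 : (nm v : ℝ) = √(nm v : ℝ) * √(nm v : ℝ) :=
            (Real.mul_self_sqrt (Nat.cast_nonneg _)).symm
          calc |(a h v : ℝ)| ≤ nm v := h1 v
            _ = √(nm v : ℝ) * √(nm v : ℝ) := e2
            _ ≤ A * √(nm v) := mul_le_mul_of_nonneg_right e1 (Real.sqrt_nonneg _)
        · simp only [ha, hv, dif_neg, not_false_eq_true]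
          have hv1 : W₀.Δ ∉ v.asIdeal := fun h => hv (Or.inl h)
          have hv2 : (6 : 𝓞 K) ∉ v.asIdeal := fun h => hv (Or.inr h)
          exact le_trans ((n4 K W₀ v).2 hv1 hv2)
            (mul_le_mul_of_nonneg_right hA2 (Real.sqrt_nonneg _))
      obtain ⟨Z, hZ1, hZ2⟩ := h9 (HeightOneSpectrum (𝓞 K)) (fun v => nm v) (a h) (g h) C A hC
        h1 h2 θ hθ
      exact ⟨Z, hZ1, fun _ => hZ2⟩
    · exact ⟨∅, by simp, fun hb' => absurd hb' hb⟩
  choose Z hZ1 hZ2 using key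
  refine ⟨⋃ h, Z h, ?_, ?_⟩
  · rw [dimH_iUnion]
    exact iSup_le hZ1
  · intro t ht M hM
    set h : S → ℤ × Bool := fun v => (tr (M v.1) v.1, decide ((M v.1).Δ ∉ v.1.asIdeal)) with hh
    have hb : ∀ v : S, |((h v).1 : ℝ)| ≤ nm v.1 := by
      intro v
      exact (n4 K (M v.1) v.1).1
    have htZ : t ∉ Z h := fun h' => ht (Set.mem_iUnion.mpr ⟨h, h'⟩)
    have heq : ∀ (s : ℂ) (v : HeightOneSpectrum (𝓞 K)),
        locDen (M v) v s = eden (nm v) (a h v) (g h v) s := by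
      intro s v
      unfold locDen
      by_cases hv : v ∈ S
      · apply N5.eden_congr
        · simp only [ha, hv, dif_pos, hh]
        · simp only [hg, hv, dif_pos, hh, decide_eq_true_eq]
      · have hv1 : W₀.Δ ∉ v.asIdeal := fun h => hv (Or.inl h)
        have hv2 : (6 : 𝓞 K) ∉ v.asIdeal := fun h => hv (Or.inr h)
        obtain ⟨e1, e2⟩ := n3 K E W₀ hW₀ v (M v) hv1 hv2 (hM v)
        apply N5.eden_congr
        · simp only [ha, hv, dif_neg, not_false_eq_true, e2]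
        · simp only [hg, hv, dif_neg, not_false_eq_true, iff_true]
          exact e1
    obtain ⟨l, hl0, ⟨C', hC'⟩, hl⟩ := hZ2 h hb t htZ
    refine ⟨l, hl0, ⟨C', ?_⟩, ?_⟩
    · intro x hx
      simp only [heq]
      exact hC' x hx
    · intro κ
      simp only [heq]
      exact hl κ

end MP7ed9c3
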