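import Pool.Agent.Lib.MP_7ed9c3_nt.SpecB
import Pool.Agent.Lib.MP_7ed9c3_nt.N5

/-!
# B6: continuation criteria for one curve
-/

namespace MP7ed9c3

open NumberField IsDedekindDomain Filter Topology MeasureTheory

namespace B6

variable {K : Type} [Field K] [NumberField K]

/-- The Euler product. -/
noncomputable def prodL (M : HeightOneSpectrum (𝓞 K) → WeierstrassCurve (𝓞 K)) (s : ℂ) : ℂ :=
  ∏' v : HeightOneSpectrum (𝓞 K), (locDen (M v) v s)⁻¹

lemma trace_const (n2 : ExistsModel) (n3 : GoodData) (n4 : TraceBound)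
    {E : WeierstrassCurve K} (hE : E.IsElliptic)
    {M : HeightOneSpectrum (𝓞 K) → WeierstrassCurve (𝓞 K)} (hM : ∀ v, IsMinAt E v (M v)) :
    ∃ A : ℝ, ∀ v, |(tr (M v) v : ℝ)| ≤ A * √(nm v) := by
  classical
  obtain ⟨W₀, hΔ, hW₀⟩ := n2 K E hE
  set S : Set (HeightOneSpectrum (𝓞 K)) :=
    {v | W₀.Δ ∈ v.asIdeal ∨ (6 : 𝓞 K) ∈ v.asIdeal} with hSdef
  have h6 : (6 : 𝓞 K) ≠ 0 := by norm_num
  have hSfin : S.Finite := (N5.finite_mem hΔ).union (N5.finite_mem h6)
  have h0 : 0 ≤ ∑ v ∈ hSfin.toFinset, √(nm v : ℝ) :=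
    Finset.sum_nonneg fun v _ => Real.sqrt_nonneg _
  refine ⟨2 + ∑ v ∈ hSfin.toFinset, √(nm v), fun v => ?_⟩
  by_cases hv : v ∈ S
  · have e1 : √(nm v : ℝ) ≤ 2 + ∑ v ∈ hSfin.toFinset, √(nm v) := by
      have : √(nm v : ℝ) ≤ ∑ v ∈ hSfin.toFinset, √(nm v : ℝ) :=
        Finset.single_le_sum (f := fun v => √(nm v : ℝ))
          (fun v _ => Real.sqrt_nonneg _) (hSfin.mem_toFinset.mpr hv)
      linarith
    have e2 : (nm v : ℝ) = √(nm v : ℝ) * √(nm v : ℝ) :=
      (Real.mul_self_sqrt (Nat.cast_nonneg _)).symm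
    calc |(tr (M v) v : ℝ)| ≤ nm v := (n4 K (M v) v).1
      _ = √(nm v : ℝ) * √(nm v : ℝ) := e2
      _ ≤ (2 + ∑ v ∈ hSfin.toFinset, √(nm v)) * √(nm v) :=
        mul_le_mul_of_nonneg_right e1 (Real.sqrt_nonneg _)
  · have hv1 : W₀.Δ ∉ v.asIdeal := fun h => hv (Or.inl h)
    have hv2 : (6 : 𝓞 K) ∉ v.asIdeal := fun h => hv (Or.inr h)
    obtain ⟨e1, _⟩ := n3 K E W₀ hW₀ v (M v) hv1 hv2 (hM v)
    exact le_trans ((n4 K (M v) v).2 e1 hv2)
      (mul_le_mul_of_nonneg_right (by linarith) (Real.sqrt_nonneg _))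

lemma eden_inst {N : ℕ} {a : ℤ} {p : Prop} (i₁ i₂ : Decidable p) (s : ℂ) :
    @eden N a p i₁ s = @eden N a p i₂ s := by
  rw [Subsingleton.elim i₁ i₂]

lemma exists_log (n1 : CountPrimes) (n2 : ExistsModel) (n3 : GoodData) (n4 : TraceBound)
    (b5 : EulerExp) {E : WeierstrassCurve K} (hE : E.IsElliptic)
    {M : HeightOneSpectrum (𝓞 K) → WeierstrassCurve (𝓞 K)} (hM : ∀ v, IsMinAt E v (M v)) :
    ∃ f : ℂ → ℂ, DifferentiableOn ℂ f {z | 0 < z.re} ∧
      (∀ z : ℂ, 0 < z.re → prodL M (3 / 2 + z) = Complex.exp (f z)) ∧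
      (∀ T : ℝ, ∃ C' : ℝ, ∀ x : ℝ, 0 < x → x ≤ 1 →
        ∫ t in (-T)..T, ‖f ((x : ℂ) + t * Complex.I)‖ ^ 2 ≤ C') ∧
      ∀ T : ℝ, ∃ C' : ℝ, ∀ x y : ℝ, 0 < x → x ≤ 1 → |y| ≤ T →
        ‖f ((x : ℂ) + y * Complex.I)‖ ≤ C' / x := by
  classical
  obtain ⟨C, hC⟩ := n1 K
  obtain ⟨A, hA⟩ := trace_const n2 n3 n4 hE hM
  obtain ⟨f, f1, f2, f3, f4⟩ := @b5 (HeightOneSpectrum (𝓞 K)) (fun v => nm v)
    (fun v => tr (M v) v) (fun v => (M v).Δ ∉ v.asIdeal) (fun v => Classical.propDecidable _)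
    C A hC (fun v => (n4 K (M v) v).1) hA
  refine ⟨f, f1, fun z hz => ?_, f3, f4⟩
  rw [← f2 z hz]
  unfold prodL
  refine tprod_congr fun v => ?_
  unfold locDen
  exact congrArg _ (eden_inst _ _ _)

lemma null_of_dimH {Z : Set ℝ} (h : dimH Z ≤ ENNReal.ofReal (2 * (1 / 4))) : volume Z = 0 := by
  rw [← MeasureTheory.hausdorffMeasure_real]
  have h1 : dimH Z < ((1 : NNReal) : ENNReal) := by
    refine h.trans_lt ?_
    rw [ENNReal.coe_one, ← ENNReal.ofReal_one]
    exact (ENNReal.ofReal_lt_ofReal_iff one_pos).2 (by norm_num)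
  have h2 := hausdorffMeasure_of_dimH_lt h1
  simpa using h2

lemma radial {M : HeightOneSpectrum (𝓞 K) → WeierstrassCurve (𝓞 K)} {t : ℝ} {l : ℂ}
    (h : ∀ κ : ℝ, Tendsto (fun s : ℂ => ∏' v : HeightOneSpectrum (𝓞 K), (locDen (M v) v s)⁻¹)
      (𝓝[stolz t κ] (3 / 2 + t * Complex.I)) (𝓝 l)) :
    Tendsto (fun x : ℝ => prodL M (3 / 2 + ((x : ℂ) + t * Complex.I))) (𝓝[>] 0) (𝓝 l) := by
  have h1 : Tendsto (fun x : ℝ => 3 / 2 + ((x : ℂ) + t * Complex.I)) (𝓝[>] 0)
      (𝓝[stolz t 0] (3 / 2 + t * Complex.I)) := by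
    refine tendsto_nhdsWithin_iff.2 ⟨?_, ?_⟩
    · have h2 : Continuous fun x : ℝ => 3 / 2 + ((x : ℂ) + t * Complex.I) := by fun_prop
      have h3 := h2.tendsto 0
      rw [Complex.ofReal_zero, zero_add] at h3
      exact h3.mono_left nhdsWithin_le_nhds
    · filter_upwards [self_mem_nhdsWithin] with x hx
      have hx' : 0 < x := hx
      refine ⟨?_, ?_⟩
      · simpa using hx'
      · simp
  exact (h 0).comp h1

lemma conv_lim {M : HeightOneSpectrum (𝓞 K) → WeierstrassCurve (𝓞 K)} {t : ℝ}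
    (h : Conv M (1 / 4) t) : ∃ l : ℂ, ConvTo M t l ∧
      Tendsto (fun x : ℝ => prodL M (3 / 2 + ((x : ℂ) + t * Complex.I))) (𝓝[>] 0) (𝓝 l) := by
  obtain ⟨l, _, ⟨C, hC⟩, hl⟩ := h
  refine ⟨l, ?_, radial hl⟩
  unfold ConvTo
  rw [tendsto_iff_norm_sub_tendsto_zero]
  have h1 : Tendsto (fun x : ℕ => C * Real.log x ^ (-(1 / 4) : ℝ)) atTop (𝓝 0) := by
    have h2 : Tendsto (fun x : ℕ => Real.log (x : ℝ)) atTop atTop :=
      Real.tendsto_log_atTop.comp tendsto_natCast_atTop_atTop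
    have h3 := ((tendsto_rpow_neg_atTop (y := 1 / 4) (by norm_num)).comp h2).const_mul C
    simpa using h3
  refine squeeze_zero' (Eventually.of_forall fun x => norm_nonneg _) ?_ h1
  filter_upwards [eventually_ge_atTop 2] with x hx
  exact hC x hx

lemma lim_unique {M : HeightOneSpectrum (𝓞 K) → WeierstrassCurve (𝓞 K)} {t : ℝ} {l l' : ℂ}
    (h : ConvTo M t l) (h' : ConvTo M t l') : l = l' :=
  tendsto_nhds_unique h h'

end B6

/-- **B6.** -/
theorem criteria (n1 : CountPrimes) (n2 : ExistsModel) (n3 : GoodData) (n4 : TraceBound)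
    (n5 : Core) (b4 : Uniqueness) (b5 : EulerExp) : Criteria := by
  intro K _ _ E hE M hM
  obtain ⟨f, f1, f2, f3, f4⟩ := B6.exists_log n1 n2 n3 n4 b5 hE hM
  obtain ⟨Z, hZ, hZt⟩ := n5 K E hE (1 / 4) (by norm_num)
  have hZ0 : volume Z = 0 := B6.null_of_dimH hZ
  have hconv : ∀ t ∉ Z, ∃ l : ℂ, ConvTo M t l ∧
      Tendsto (fun x : ℝ => B6.prodL M (3 / 2 + ((x : ℂ) + t * Complex.I))) (𝓝[>] 0) (𝓝 l) :=
    fun t ht => B6.conv_lim (hZt t ht M hM)
  have hre : ∀ x t : ℝ, ((x : ℂ) + t * Complex.I).re = x := fun x t => by simp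
  -- (2)
  have part2 : ∀ (G : ℂ → ℂ) (a b δ : ℝ), a < b → 0 < δ →
      DifferentiableOn ℂ G {s | |s.re - 3 / 2| < δ ∧ a < s.im ∧ s.im < b} →
      0 < volume {t : ℝ | a < t ∧ t < b ∧ ConvTo M t (G (3 / 2 + t * Complex.I))} →
      ∀ s : ℂ, 3 / 2 < s.re → s.re < 3 / 2 + δ → a < s.im → s.im < b →
        B6.prodL M s = G s := by
    intro G a b δ hab hδ hG hvol s hs1 hs2 hs3 hs4
    have hG' : DifferentiableOn ℂ (fun z : ℂ => G (3 / 2 + z))
        {z | |z.re| < δ ∧ a < z.im ∧ z.im < b} := by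
      refine hG.comp (by fun_prop) fun z hz => ?_
      obtain ⟨h1, h2, h3⟩ := hz
      refine ⟨?_, ?_, ?_⟩
      · have : (3 / 2 + z : ℂ).re - 3 / 2 = z.re := by simp
        rw [this]; exact h1
      · have : (3 / 2 + z : ℂ).im = z.im := by simp
        rw [this]; exact h2
      · have : (3 / 2 + z : ℂ).im = z.im := by simp
        rw [this]; exact h3
    have hP : 0 < volume {t : ℝ | a < t ∧ t < b ∧
        Tendsto (fun x : ℝ => Complex.exp (f ((x : ℂ) + t * Complex.I))) (𝓝[>] 0)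
          (𝓝 (G (3 / 2 + t * Complex.I)))} := by
      by_contra hneg
      have h0 := le_antisymm (not_lt.1 hneg) (zero_le)
      have hsub : {t : ℝ | a < t ∧ t < b ∧ ConvTo M t (G (3 / 2 + t * Complex.I))} ⊆
          {t : ℝ | a < t ∧ t < b ∧
            Tendsto (fun x : ℝ => Complex.exp (f ((x : ℂ) + t * Complex.I))) (𝓝[>] 0)
              (𝓝 (G (3 / 2 + t * Complex.I)))} ∪ Z := by
        rintro t ⟨h1, h2, h3⟩
        by_cases ht : t ∈ Z
        · exact Or.inr ht
        · left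
          obtain ⟨l, hl1, hl2⟩ := hconv t ht
          have hl : l = G (3 / 2 + t * Complex.I) := B6.lim_unique hl1 h3
          refine ⟨h1, h2, ?_⟩
          rw [← hl]
          refine hl2.congr' ?_
          filter_upwards [self_mem_nhdsWithin] with x hx
          exact f2 _ (by rw [hre]; exact hx)
      have h4 := (measure_mono hsub).trans (measure_union_le (μ := volume) _ _)
      rw [h0, hZ0, add_zero] at h4
      exact absurd hvol (not_lt.2 h4)
    have h5 := b4 f (fun z => G (3 / 2 + z)) a b δ hab hδ f1 f3 f4 hG' hP (s - 3 / 2)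
      (by
        have : (s - 3 / 2 : ℂ).re = s.re - 3 / 2 := by simp
        rw [this]; linarith)
      (by
        have : (s - 3 / 2 : ℂ).re = s.re - 3 / 2 := by simp
        rw [this]; linarith)
      (by
        have : (s - 3 / 2 : ℂ).im = s.im := by simp
        rw [this]; exact hs3)
      (by
        have : (s - 3 / 2 : ℂ).im = s.im := by simp
        rw [this]; exact hs4)
    have h6 := f2 (s - 3 / 2) (by
      have : (s - 3 / 2 : ℂ).re = s.re - 3 / 2 := by simp
      rw [this]; linarith)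
    have h7 : (3 / 2 + (s - 3 / 2) : ℂ) = s := by ring
    rw [h7] at h5 h6
    rw [h6, h5]
  refine ⟨?_, fun G a b δ hab hδ hG hvol s h1 h2 h3 h4 =>
    part2 G a b δ hab hδ hG hvol s h1 h2 h3 h4, ?_, ?_⟩
  · -- (1)
    intro T
    rcases lt_or_ge T 0 with hT | hT
    · refine ⟨0, fun x hx _ => ?_⟩
      rw [intervalIntegral.integral_symm]
      refine neg_nonpos.2 (intervalIntegral.integral_nonneg (by linarith) fun t _ => ?_)
      positivity
    · obtain ⟨C, hC⟩ := f3 T
      refine ⟨C, fun x hx hx1 => ?_⟩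
      have hfc : Continuous fun t : ℝ => f ((x : ℂ) + t * Complex.I) := by
        refine f1.continuousOn.comp_continuous (by fun_prop) fun t => ?_
        show 0 < ((x : ℂ) + t * Complex.I).re
        rw [hre]; exact hx
      have hlog : ∀ t : ℝ, Real.log ‖∏' v : HeightOneSpectrum (𝓞 K),
          (locDen (M v) v (3 / 2 + x + t * Complex.I))⁻¹‖ = (f ((x : ℂ) + t * Complex.I)).re := by
        intro t
        have h1 := f2 ((x : ℂ) + t * Complex.I) (by rw [hre]; exact hx)
        unfold B6.prodL at h1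
        rw [add_assoc (3 / 2 : ℂ), h1, Complex.norm_exp, Real.log_exp]
      simp only [hlog]
      refine le_trans ?_ (hC x hx hx1)
      refine intervalIntegral.integral_mono_on (by linarith) ?_ ?_ ?_
      · exact ((Complex.continuous_re.comp hfc).pow 2).intervalIntegrable _ _
      · exact (hfc.norm.pow 2).intervalIntegrable _ _
      · intro t _
        rw [← sq_abs]
        exact pow_le_pow_left₀ (abs_nonneg _) (Complex.abs_re_le_norm _) 2
  · -- (3), entire continuation gives the set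
    rintro ⟨L, hL, hLs⟩
    refine ⟨L, hL, ?_⟩
    have hsub : Zᶜ ⊆ {t : ℝ | ConvTo M t (L (3 / 2 + t * Complex.I))} := by
      intro t ht
      obtain ⟨l, hl1, hl2⟩ := hconv t ht
      have h1 : Tendsto (fun x : ℝ => L (3 / 2 + ((x : ℂ) + t * Complex.I))) (𝓝[>] 0)
          (𝓝 (L (3 / 2 + t * Complex.I))) := by
        have h2 : Continuous fun x : ℝ => L (3 / 2 + ((x : ℂ) + t * Complex.I)) :=
          hL.continuous.comp (by fun_prop)
        have h3 := h2.tendsto 0
        rw [Complex.ofReal_zero, zero_add] at h3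
        exact h3.mono_left nhdsWithin_le_nhds
      have h4 : Tendsto (fun x : ℝ => L (3 / 2 + ((x : ℂ) + t * Complex.I))) (𝓝[>] 0) (𝓝 l) := by
        refine hl2.congr' ?_
        filter_upwards [self_mem_nhdsWithin] with x hx
        have hx' : 0 < x := hx
        refine (hLs _ ?_).symm
        have : (3 / 2 + ((x : ℂ) + t * Complex.I)).re = 3 / 2 + x := by simp
        rw [this]; linarith
      have h5 := tendsto_nhds_unique h4 h1
      show ConvTo M t (L (3 / 2 + t * Complex.I))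
      rw [← h5]
      exact hl1
    refine lt_of_lt_of_le ?_ (measure_mono hsub)
    have h6 : (volume : Measure ℝ) Set.univ ≤ volume Z + volume Zᶜ := by
      rw [← Set.union_compl_self Z]
      exact measure_union_le _ _
    rw [hZ0, zero_add] at h6
    refine lt_of_lt_of_le ?_ h6
    rw [Real.volume_univ]
    exact ENNReal.zero_lt_top
  · -- (3), the set gives the entire continuation
    rintro ⟨G, hG, hvol⟩
    obtain ⟨n, hn⟩ : ∃ n : ℕ, 0 < volume {t : ℝ | -((n : ℝ) + 1) < t ∧ t < (n : ℝ) + 1 ∧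
        ConvTo M t (G (3 / 2 + t * Complex.I))} := by
      by_contra hneg
      push Not at hneg
      have h1 : {t : ℝ | ConvTo M t (G (3 / 2 + t * Complex.I))} ⊆
          ⋃ n : ℕ, {t : ℝ | -((n : ℝ) + 1) < t ∧ t < (n : ℝ) + 1 ∧
            ConvTo M t (G (3 / 2 + t * Complex.I))} := by
        intro t ht
        obtain ⟨n, hn⟩ := exists_nat_gt |t|
        obtain ⟨h2, h3⟩ := abs_lt.1 hn
        exact Set.mem_iUnion.2 ⟨n, by linarith, by linarith, ht⟩
      have h2 : volume (⋃ n : ℕ, {t : ℝ | -((n : ℝ) + 1) < t ∧ t < (n : ℝ) + 1 ∧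
          ConvTo M t (G (3 / 2 + t * Complex.I))}) = 0 :=
        measure_iUnion_null fun n => le_antisymm (hneg n) (zero_le)
      have h3 := measure_mono_null h1 h2
      rw [h3] at hvol
      exact lt_irrefl _ hvol
    have hn0 : (0 : ℝ) ≤ n := Nat.cast_nonneg n
    have h2 := part2 G (-((n : ℝ) + 1)) ((n : ℝ) + 1) 1 (by linarith) one_pos
      hG.differentiableOn hn
    refine ⟨G, hG, ?_⟩
    set U : Set ℂ := {s | 3 / 2 < s.re} with hU
    have hUo : IsOpen U := isOpen_lt continuous_const Complex.continuous_re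
    have hUc : IsPreconnected U := (convex_halfSpace_re_gt (3 / 2)).isPreconnected
    have hGa : AnalyticOnNhd ℂ G U := hG.differentiableOn.analyticOnNhd hUo
    have hEd : DifferentiableOn ℂ (fun s : ℂ => Complex.exp (f (s - 3 / 2))) U := by
      refine DifferentiableOn.cexp ?_
      refine f1.comp (by fun_prop) fun s hs => ?_
      show 0 < (s - 3 / 2 : ℂ).re
      have : (s - 3 / 2 : ℂ).re = s.re - 3 / 2 := by simp
      have hs' : 3 / 2 < s.re := hs
      rw [this]; linarith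
    have hEa : AnalyticOnNhd ℂ (fun s : ℂ => Complex.exp (f (s - 3 / 2))) U :=
      hEd.analyticOnNhd hUo
    have hpe : ∀ s ∈ U, B6.prodL M s = Complex.exp (f (s - 3 / 2)) := by
      intro s hs
      have hs' : 3 / 2 < s.re := hs
      have h3 := f2 (s - 3 / 2) (by
        have : (s - 3 / 2 : ℂ).re = s.re - 3 / 2 := by simp
        rw [this]; linarith)
      have h4 : (3 / 2 + (s - 3 / 2) : ℂ) = s := by ring
      rwa [h4] at h3
    have h2U : (2 : ℂ) ∈ U := by
      show 3 / 2 < (2 : ℂ).re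
      norm_num
    have hev : G =ᶠ[𝓝 (2 : ℂ)] fun s : ℂ => Complex.exp (f (s - 3 / 2)) := by
      have hR : {s : ℂ | 3 / 2 < s.re ∧ s.re < 3 / 2 + 1 ∧ -((n : ℝ) + 1) < s.im ∧
          s.im < (n : ℝ) + 1} ∈ 𝓝 (2 : ℂ) := by
        refine IsOpen.mem_nhds ?_ ?_
        · exact (isOpen_lt continuous_const Complex.continuous_re).inter
            ((isOpen_lt Complex.continuous_re continuous_const).inter
              ((isOpen_lt continuous_const Complex.continuous_im).inter
                (isOpen_lt Complex.continuous_im continuous_const)))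
        · refine ⟨?_, ?_, ?_, ?_⟩
          · norm_num
          · norm_num
          · show -((n : ℝ) + 1) < (2 : ℂ).im
            have : (2 : ℂ).im = 0 := by simp
            rw [this]; linarith
          · show (2 : ℂ).im < (n : ℝ) + 1
            have : (2 : ℂ).im = 0 := by simp
            rw [this]; linarith
      filter_upwards [hR] with s hs
      obtain ⟨k1, k2, k3, k4⟩ := hs
      rw [← h2 s k1 k2 k3 k4]
      exact hpe s k1
    have heq := hGa.eqOn_of_preconnected_of_eventuallyEq hEa hUc h2U hev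
    intro s hs
    have h5 := heq hs
    have h6 := hpe s hs
    unfold B6.prodL at h6
    rw [h6]
    exact h5

end MP7ed9c3
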