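import Pool.Agent.Lib.MP_7ed9c3_nt.AllN
import Pool.Agent.Lib.MP_7ed9c3_nt.B1
import Pool.Agent.Lib.MP_7ed9c3_nt.B2
import Pool.Agent.Lib.MP_7ed9c3_nt.B3
import Pool.Agent.Lib.MP_7ed9c3_nt.B4
import Pool.Agent.Lib.MP_7ed9c3_nt.B5
import Pool.Agent.Lib.MP_7ed9c3_nt.B6

/-!
# MP_7ed9c3_nt: assembly of part B
-/

namespace MP7ed9c3

theorem seriesBoundAll : SeriesBound := seriesBound meanSq

theorem uniquenessAll : Uniqueness := uniqueness green logReg

theorem eulerExpAll : EulerExp := eulerExp eulerLog sparseSums groupAll seriesBoundAll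

theorem criteriaAll : Criteria :=
  criteria countPrimes existsModel goodDataAll traceBoundAll coreAll uniquenessAll eulerExpAll

end MP7ed9c3
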