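import Pool.Agent.Lib.MP_7ed9c3_nt.SpecG

/-!
# MP_7ed9c3_nt: G10, integer Dirichlet coefficients of the Euler product
-/

namespace MP7ed9c3

namespace G10

open Filter Topology ArithmeticFunction

/-! ### Products of arithmetic functions -/

theorem prod_abs_le {ι : Type} (u v : ι → ArithmeticFunction ℤ) (h : ∀ i n, |u i n| ≤ v i n)
    (s : Finset ι) (n : ℕ) : |(∏ i ∈ s, u i) n| ≤ (∏ i ∈ s, v i) n := by
  classical
  induction s using Finset.induction_on generalizing n with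
  | empty =>
    simp only [Finset.prod_empty, one_apply]
    split_ifs <;> simp
  | insert i s hi ih =>
    rw [Finset.prod_insert hi, Finset.prod_insert hi, mul_apply, mul_apply]
    refine (Finset.abs_sum_le_sum_abs _ _).trans (Finset.sum_le_sum fun x _ => ?_)
    rw [abs_mul]
    exact mul_le_mul (h i x.1) (ih x.2) (abs_nonneg _) ((abs_nonneg _).trans (h i x.1))

theorem prod_nonneg {ι : Type} (v : ι → ArithmeticFunction ℤ) (h : ∀ i n, 0 ≤ v i n)
    (s : Finset ι) (n : ℕ) : 0 ≤ (∏ i ∈ s, v i) n := by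
  refine (abs_nonneg _).trans (prod_abs_le v v (fun i n => ?_) s n)
  rw [abs_of_nonneg (h i n)]

theorem prod_one {ι : Type} (v : ι → ArithmeticFunction ℤ) (h : ∀ i, v i 1 = 1)
    (s : Finset ι) : (∏ i ∈ s, v i) 1 = 1 := by
  classical
  induction s using Finset.induction_on with
  | empty => simp
  | insert i s hi ih =>
    rw [Finset.prod_insert hi, mul_apply]
    simp [h i, ih]

theorem prod_mono {ι : Type} (v : ι → ArithmeticFunction ℤ) (h : ∀ i n, 0 ≤ v i n)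
    (h1 : ∀ i, v i 1 = 1) {s t : Finset ι} (hst : s ⊆ t) (n : ℕ) :
    (∏ i ∈ s, v i) n ≤ (∏ i ∈ t, v i) n := by
  classical
  rcases Nat.eq_zero_or_pos n with rfl | hn
  · simp
  rw [← Finset.prod_sdiff hst, mul_apply]
  have hmem : ((1 : ℕ), n) ∈ n.divisorsAntidiagonal := by
    rw [Nat.mem_divisorsAntidiagonal]
    exact ⟨one_mul n, hn.ne'⟩
  have := Finset.single_le_sum (f := fun x : ℕ × ℕ => (∏ i ∈ t \ s, v i) x.1 *
    (∏ i ∈ s, v i) x.2) (fun x _ => mul_nonneg (prod_nonneg v h _ _) (prod_nonneg v h _ _)) hmem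
  simpa [prod_one v h1] using this

/-- L-series of a finite product. -/
theorem lseries_prod {ι : Type} (u : ι → ArithmeticFunction ℤ) (z : ℂ)
    (h : ∀ i, LSeriesSummable (fun n => ((u i n : ℤ) : ℂ)) z) (s : Finset ι) :
    LSeriesSummable (fun n => (((∏ i ∈ s, u i) n : ℤ) : ℂ)) z ∧
    LSeries (fun n => (((∏ i ∈ s, u i) n : ℤ) : ℂ)) z =
      ∏ i ∈ s, LSeries (fun n => ((u i n : ℤ) : ℂ)) z := by
  classical
  induction s using Finset.induction_on with
  | empty =>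
    have h1 : (fun n => (((∏ i ∈ (∅ : Finset ι), u i) n : ℤ) : ℂ)) = LSeries.delta := by
      funext n
      simp [one_apply, LSeries.delta]
    rw [h1]
    refine ⟨?_, ?_⟩
    · rw [LSeriesSummable]
      refine summable_of_ne_finset_zero (s := {1}) fun n hn => ?_
      rw [LSeries.term]
      have hn1 : n ≠ 1 := by simpa using hn
      simp [LSeries.delta, hn1]
    · simp [LSeries_delta]
  | insert i s hi ih =>
    obtain ⟨ih1, ih2⟩ := ih
    obtain ⟨f0, hf0⟩ : ∃ f0 : ArithmeticFunction ℂ, ∀ n, f0 n = ((u i n : ℤ) : ℂ) :=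
      ⟨((u i : ArithmeticFunction ℤ) : ArithmeticFunction ℂ), fun n => rfl⟩
    obtain ⟨g0, hg0⟩ : ∃ g0 : ArithmeticFunction ℂ, ∀ n, g0 n = (((∏ j ∈ s, u j) n : ℤ) : ℂ) :=
      ⟨((∏ j ∈ s, u j : ArithmeticFunction ℤ) : ArithmeticFunction ℂ), fun n => rfl⟩
    have h1 : (fun n => (((∏ j ∈ insert i s, u j) n : ℤ) : ℂ)) = fun n => (f0 * g0) n := by
      funext n
      rw [Finset.prod_insert hi, mul_apply, mul_apply]
      push_cast
      exact Finset.sum_congr rfl fun x _ => by rw [hf0, hg0]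
    have h2 : (fun n => ((u i n : ℤ) : ℂ)) = fun n => f0 n := by
      funext n; rw [hf0]
    have h3 : (fun n => (((∏ j ∈ s, u j) n : ℤ) : ℂ)) = fun n => g0 n := by
      funext n; rw [hg0]
    have h4 : LSeriesSummable (fun n => f0 n) z := by
      rw [← h2]; exact h i
    have h5 : LSeriesSummable (fun n => g0 n) z := by
      rw [← h3]; exact ih1
    refine ⟨?_, ?_⟩
    · rw [h1]
      exact LSeriesSummable_mul h4 h5
    · rw [h1, Finset.prod_insert hi, LSeries_mul' h4 h5, ← ih2, h2, h3]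

/-! ### The local factor -/

/-- `1 - a X + c X²`. -/
noncomputable def dn (a c : ℤ) : PowerSeries ℤ :=
  1 - PowerSeries.C a * PowerSeries.X + PowerSeries.C c * PowerSeries.X ^ 2

/-- Its inverse. -/
noncomputable def fi (a c : ℤ) : PowerSeries ℤ := PowerSeries.invOfUnit (dn a c) 1

/-- Absolute values of the coefficients of the inverse. -/
noncomputable def gi (a c : ℤ) : PowerSeries ℤ :=
  PowerSeries.mk fun k => |PowerSeries.coeff k (fi a c)|

theorem dn_const (a c : ℤ) : PowerSeries.constantCoeff (dn a c) = 1 := by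
  simp [dn]

theorem dn_mul (a c : ℤ) : dn a c * fi a c = 1 := by
  rw [fi]
  exact PowerSeries.mul_invOfUnit _ _ (by rw [dn_const]; rfl)

theorem fi_const (a c : ℤ) : PowerSeries.constantCoeff (fi a c) = 1 := by
  rw [fi, PowerSeries.constantCoeff_invOfUnit]
  simp

theorem gi_const (a c : ℤ) : PowerSeries.constantCoeff (gi a c) = 1 := by
  rw [← PowerSeries.coeff_zero_eq_constantCoeff_apply, gi, PowerSeries.coeff_mk,
    PowerSeries.coeff_zero_eq_constantCoeff_apply, fi_const]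
  simp

/-- The coefficients. -/
noncomputable def cf (a c : ℤ) (k : ℕ) : ℤ := PowerSeries.coeff k (fi a c)

theorem cf_zero (a c : ℤ) : cf a c 0 = 1 := by
  rw [cf, PowerSeries.coeff_zero_eq_constantCoeff_apply, fi_const]

theorem fi_eq (a c : ℤ) : fi a c = 1 + PowerSeries.C a * (PowerSeries.X * fi a c)
    - PowerSeries.C c * (PowerSeries.X * (PowerSeries.X * fi a c)) := by
  have h := dn_mul a c
  rw [dn] at h
  linear_combination h

theorem cf_one (a c : ℤ) : cf a c 1 = a := by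
  have h := congrArg (PowerSeries.coeff 1) (fi_eq a c)
  simp only [map_sub, map_add, PowerSeries.coeff_C_mul] at h
  rw [show (1 : ℕ) = 0 + 1 by rfl, PowerSeries.coeff_succ_X_mul, PowerSeries.coeff_succ_X_mul,
    PowerSeries.coeff_zero_X_mul] at h
  have h0 := cf_zero a c
  rw [cf] at h0 ⊢
  rw [show (1 : ℕ) = 0 + 1 by rfl, h, h0, PowerSeries.coeff_one]
  simp

theorem cf_succ_succ (a c : ℤ) (k : ℕ) :
    cf a c (k + 2) = a * cf a c (k + 1) - c * cf a c k := by
  have h := congrArg (PowerSeries.coeff (k + 2)) (fi_eq a c)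
  simp only [map_sub, map_add, PowerSeries.coeff_C_mul] at h
  rw [show k + 2 = (k + 1) + 1 by rfl, PowerSeries.coeff_succ_X_mul, PowerSeries.coeff_succ_X_mul,
    PowerSeries.coeff_succ_X_mul, PowerSeries.coeff_one] at h
  rw [cf, cf, cf, show k + 2 = (k + 1) + 1 by rfl, h]
  simp

theorem cf_sum_le (a c : ℤ) (y θ : ℝ) (hy : 0 ≤ y)
    (hθ : |(a : ℝ)| * y + |(c : ℝ)| * y ^ 2 ≤ θ) (hθ1 : θ < 1) (K : ℕ) :
    ∑ k ∈ Finset.range K, |(cf a c k : ℝ)| * y ^ k ≤ (1 - θ)⁻¹ := by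
  have hθ0 : 0 ≤ θ := le_trans (by positivity) hθ
  have key : ∀ K : ℕ, ∑ k ∈ Finset.range (K + 2), |(cf a c k : ℝ)| * y ^ k ≤ (1 - θ)⁻¹ := by
    intro K
    set S := ∑ k ∈ Finset.range (K + 2), |(cf a c k : ℝ)| * y ^ k with hS
    have hS0 : 0 ≤ S := Finset.sum_nonneg fun k _ => by positivity
    have h1 : S = (∑ k ∈ Finset.range K, |(cf a c (k + 2) : ℝ)| * y ^ (k + 2))
        + |(a : ℝ)| * y + 1 := by
      rw [hS, Finset.sum_range_succ', Finset.sum_range_succ', cf_zero, cf_one]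
      simp
    have h2 : ∑ k ∈ Finset.range K, |(cf a c (k + 2) : ℝ)| * y ^ (k + 2) ≤
        ∑ k ∈ Finset.range K, (|(a : ℝ)| * y * (|(cf a c (k + 1) : ℝ)| * y ^ (k + 1))
          + |(c : ℝ)| * y ^ 2 * (|(cf a c k : ℝ)| * y ^ k)) := by
      refine Finset.sum_le_sum fun k _ => ?_
      have h3 : |(cf a c (k + 2) : ℝ)| ≤ |(a : ℝ)| * |(cf a c (k + 1) : ℝ)|
          + |(c : ℝ)| * |(cf a c k : ℝ)| := by
        rw [cf_succ_succ]
        push_cast
        refine (abs_sub _ _).trans ?_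
        rw [abs_mul, abs_mul]
      calc |(cf a c (k + 2) : ℝ)| * y ^ (k + 2)
          ≤ (|(a : ℝ)| * |(cf a c (k + 1) : ℝ)| + |(c : ℝ)| * |(cf a c k : ℝ)|) * y ^ (k + 2) :=
            mul_le_mul_of_nonneg_right h3 (by positivity)
        _ = _ := by ring
    have h4 : ∑ k ∈ Finset.range K, |(cf a c (k + 1) : ℝ)| * y ^ (k + 1) + 1 ≤ S := by
      rw [hS, Finset.sum_range_succ, Finset.sum_range_succ', cf_zero]
      have : 0 ≤ |(cf a c (K + 1) : ℝ)| * y ^ (K + 1) := by positivity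
      simp only [Int.cast_one, abs_one, pow_zero, mul_one]
      linarith
    have h5 : ∑ k ∈ Finset.range K, |(cf a c k : ℝ)| * y ^ k ≤ S := by
      rw [hS]
      refine Finset.sum_le_sum_of_subset_of_nonneg ?_ fun k _ _ => by positivity
      intro k hk
      rw [Finset.mem_range] at hk ⊢
      omega
    have h6 : S ≤ 1 + θ * S := by
      rw [Finset.sum_add_distrib, ← Finset.mul_sum, ← Finset.mul_sum] at h2
      have h7 : |(a : ℝ)| * y * ∑ k ∈ Finset.range K, |(cf a c (k + 1) : ℝ)| * y ^ (k + 1) ≤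
          |(a : ℝ)| * y * (S - 1) := by
        refine mul_le_mul_of_nonneg_left ?_ (by positivity)
        linarith
      have h8 : |(c : ℝ)| * y ^ 2 * ∑ k ∈ Finset.range K, |(cf a c k : ℝ)| * y ^ k ≤
          |(c : ℝ)| * y ^ 2 * S := mul_le_mul_of_nonneg_left h5 (by positivity)
      have h9 : (|(a : ℝ)| * y + |(c : ℝ)| * y ^ 2) * S ≤ θ * S :=
        mul_le_mul_of_nonneg_right hθ hS0
      nlinarith
    have h10 : 0 < 1 - θ := by linarith
    rw [← one_div, le_div_iff₀ h10]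
    nlinarith
  calc ∑ k ∈ Finset.range K, |(cf a c k : ℝ)| * y ^ k
      ≤ ∑ k ∈ Finset.range (K + 2), |(cf a c k : ℝ)| * y ^ k := by
        refine Finset.sum_le_sum_of_subset_of_nonneg ?_ fun k _ _ => by positivity
        intro k hk
        rw [Finset.mem_range] at hk ⊢
        omega
    _ ≤ _ := key K

theorem cf_summable (a c : ℤ) (y θ : ℝ) (hy : 0 ≤ y)
    (hθ : |(a : ℝ)| * y + |(c : ℝ)| * y ^ 2 ≤ θ) (hθ1 : θ < 1) :
    Summable (fun k => |(cf a c k : ℝ)| * y ^ k) ∧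
      ∑' k, |(cf a c k : ℝ)| * y ^ k ≤ (1 - θ)⁻¹ := by
  have h := cf_sum_le a c y θ hy hθ hθ1
  have hs : Summable (fun k => |(cf a c k : ℝ)| * y ^ k) :=
    summable_of_sum_range_le (fun k => by positivity) h
  exact ⟨hs, hs.tsum_le_of_sum_range_le h⟩

theorem cf_tsum (a c : ℤ) (z : ℂ) (hs : Summable (fun k => (cf a c k : ℂ) * z ^ k)) :
    (∑' k, (cf a c k : ℂ) * z ^ k) * (1 - a * z + c * z ^ 2) = 1 := by
  have h2 := hs.sum_add_tsum_nat_add 2
  have h1 := hs.sum_add_tsum_nat_add 1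
  have hs1 : Summable (fun k => (cf a c (k + 1) : ℂ) * z ^ (k + 1)) :=
    (summable_nat_add_iff 1).2 hs
  have h3 : ∑' k, (cf a c (k + 2) : ℂ) * z ^ (k + 2) =
      a * z * (∑' k, (cf a c (k + 1) : ℂ) * z ^ (k + 1))
        - c * z ^ 2 * ∑' k, (cf a c k : ℂ) * z ^ k := by
    rw [← tsum_mul_left, ← tsum_mul_left, ← Summable.tsum_sub (hs1.mul_left _) (hs.mul_left _)]
    refine tsum_congr fun k => ?_
    rw [cf_succ_succ]
    push_cast
    ring
  simp only [Finset.sum_range_succ, Finset.sum_range_zero, cf_zero, cf_one] at h1 h2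
  rw [h3] at h2
  push_cast at h1 h2
  set T := ∑' k, (cf a c k : ℂ) * z ^ k
  set T1 := ∑' k, (cf a c (k + 1) : ℂ) * z ^ (k + 1)
  have h4 : T1 = T - 1 := by
    rw [← h1]; ring
  rw [h4] at h2
  linear_combination -h2

theorem cpow_pow_neg (N : ℕ) (s : ℂ) (k : ℕ) :
    ((N ^ k : ℕ) : ℂ) ^ s = ((N : ℂ) ^ s) ^ k := by
  induction k with
  | zero => simp
  | succ k ih =>
    rw [pow_succ, pow_succ, ← ih, Nat.cast_mul, Complex.natCast_mul_natCast_cpow]

theorem term_pow {N : ℕ} (hN : 1 < N) (H : PowerSeries ℤ) (s : ℂ) (k : ℕ) :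
    LSeries.term (fun n => ((ofPowerSeries N H n : ℤ) : ℂ)) s (N ^ k) =
      ((PowerSeries.coeff k H : ℤ) : ℂ) * ((N : ℂ) ^ (-s)) ^ k := by
  rw [LSeries.term_of_ne_zero (pow_ne_zero k (by omega)), ofPowerSeries_apply_pow hN,
    cpow_pow_neg, Complex.cpow_neg, inv_pow, div_eq_mul_inv]

theorem term_not_pow {N : ℕ} (hN : 1 < N) (H : PowerSeries ℤ) (s : ℂ) (n : ℕ)
    (hn : n ∉ Set.range fun k : ℕ => N ^ k) :
    LSeries.term (fun n => ((ofPowerSeries N H n : ℤ) : ℂ)) s n = 0 := by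
  rcases Nat.eq_zero_or_pos n with rfl | h0
  · simp
  rw [LSeries.term_of_ne_zero h0.ne', ofPowerSeries_apply hN, Function.extend_apply']
  · simp
  · exact hn

theorem ofPS_summable {N : ℕ} (hN : 1 < N) (H : PowerSeries ℤ) (s : ℂ)
    (h : Summable (fun k => ((PowerSeries.coeff k H : ℤ) : ℂ) * ((N : ℂ) ^ (-s)) ^ k)) :
    LSeriesSummable (fun n => ((ofPowerSeries N H n : ℤ) : ℂ)) s ∧
    LSeries (fun n => ((ofPowerSeries N H n : ℤ) : ℂ)) s =
      ∑' k, ((PowerSeries.coeff k H : ℤ) : ℂ) * ((N : ℂ) ^ (-s)) ^ k := by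
  have hinj : Function.Injective (fun k : ℕ => N ^ k) := Nat.pow_right_injective hN
  have h1 : (LSeries.term (fun n => ((ofPowerSeries N H n : ℤ) : ℂ)) s) ∘ (fun k : ℕ => N ^ k) =
      fun k => ((PowerSeries.coeff k H : ℤ) : ℂ) * ((N : ℂ) ^ (-s)) ^ k := by
    funext k
    exact term_pow hN H s k
  refine ⟨?_, ?_⟩
  · rw [LSeriesSummable, ← hinj.summable_iff (fun n hn => term_not_pow hN H s n hn), h1]
    exact h
  · rw [LSeries, ← h1]
    refine (hinj.tsum_eq ?_).symm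
    intro n hn
    by_contra hc
    exact hn (term_not_pow hN H s n hc)

/-! ### Values at the powers of a prime -/

theorem antidiag_pow {p : ℕ} (hp : p.Prime) (k : ℕ) (F : ℕ × ℕ → ℤ) :
    ∑ x ∈ (p ^ k).divisorsAntidiagonal, F x =
      ∑ x ∈ Finset.HasAntidiagonal.antidiagonal k, F (p ^ x.1, p ^ x.2) := by
  symm
  refine Finset.sum_bij (fun x _ => (p ^ x.1, p ^ x.2)) ?_ ?_ ?_ ?_
  · intro x hx
    rw [Finset.HasAntidiagonal.mem_antidiagonal] at hx
    rw [Nat.mem_divisorsAntidiagonal, ← pow_add, hx]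
    exact ⟨rfl, pow_ne_zero _ hp.ne_zero⟩
  · intro x hx y hy hxy
    simp only [Prod.mk.injEq] at hxy
    exact Prod.ext (Nat.pow_right_injective hp.two_le hxy.1)
      (Nat.pow_right_injective hp.two_le hxy.2)
  · rintro ⟨x, y⟩ hxy
    rw [Nat.mem_divisorsAntidiagonal] at hxy
    obtain ⟨i, hi, rfl⟩ := (Nat.dvd_prime_pow hp).1 ⟨y, hxy.1.symm⟩
    obtain ⟨j, hj, rfl⟩ := (Nat.dvd_prime_pow hp).1 (Dvd.intro_left _ hxy.1)
    refine ⟨(i, j), ?_, rfl⟩
    rw [Finset.HasAntidiagonal.mem_antidiagonal]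
    have h := hxy.1
    replace h : p ^ i * p ^ j = p ^ k := h
    rw [← pow_add] at h
    exact Nat.pow_right_injective hp.two_le h
  · intro x _
    rfl

/-- The power series of the values at the powers of a prime. -/
noncomputable def pp {p : ℕ} (hp : p.Prime) : ArithmeticFunction ℤ →+* PowerSeries ℤ where
  toFun u := PowerSeries.mk fun k => u (p ^ k)
  map_zero' := by
    ext k
    simp
  map_add' u v := by
    ext k
    simp
  map_one' := by
    ext k
    rw [PowerSeries.coeff_mk, one_apply, PowerSeries.coeff_one]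
    have : p ^ k = 1 ↔ k = 0 := by
      constructor
      · intro h
        by_contra hk
        have := Nat.one_lt_pow hk hp.one_lt
        omega
      · rintro rfl; simp
    simp only [this]
  map_mul' u v := by
    ext k
    rw [PowerSeries.coeff_mk, mul_apply, PowerSeries.coeff_mul,
      antidiag_pow hp k fun x => u x.1 * v x.2]
    simp only [PowerSeries.coeff_mk]

theorem coeff_pp {p : ℕ} (hp : p.Prime) (u : ArithmeticFunction ℤ) (k : ℕ) :
    PowerSeries.coeff k (pp hp u) = u (p ^ k) := by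
  simp [pp]

theorem pp_not_dvd {p : ℕ} (hp : p.Prime) {N : ℕ} (hN : 1 < N) (h : ¬ p ∣ N)
    (H : PowerSeries ℤ) (hH : PowerSeries.constantCoeff H = 1) :
    pp hp (ofPowerSeries N H) = 1 := by
  ext k
  rw [coeff_pp, PowerSeries.coeff_one]
  split_ifs with hk
  · subst hk
    simp [hH]
  · rw [ofPowerSeries_apply hN, Function.extend_apply']
    · rfl
    · rintro ⟨j, hj⟩
      replace hj : N ^ j = p ^ k := hj
      rcases Nat.eq_zero_or_pos j with rfl | hj0
      · have := Nat.one_lt_pow hk hp.one_lt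
        simp at hj
        omega
      · apply h
        have h1 : p ∣ N ^ j := by
          rw [hj]
          exact dvd_pow_self p hk
        exact hp.dvd_of_dvd_pow h1

theorem pp_X {p : ℕ} (hp : p.Prime) {N f : ℕ} (hf : 0 < f) (hN : N = p ^ f) :
    pp hp (ofPowerSeries N (PowerSeries.X : PowerSeries ℤ)) = PowerSeries.X ^ f := by
  have hN1 : 1 < N := by
    rw [hN]
    exact Nat.one_lt_pow hf.ne' hp.one_lt
  ext k
  rw [coeff_pp, PowerSeries.coeff_X_pow]
  split_ifs with hk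
  · subst hk
    rw [← hN]
    have := ofPowerSeries_apply_pow hN1 (PowerSeries.X : PowerSeries ℤ) 1
    rw [pow_one] at this
    rw [this, PowerSeries.coeff_one_X]
  · by_cases h : ∃ j, N ^ j = p ^ k
    · obtain ⟨j, hj⟩ := h
      rw [← hj, ofPowerSeries_apply_pow hN1, PowerSeries.coeff_X]
      rw [if_neg]
      rintro rfl
      rw [pow_one, hN] at hj
      exact hk (Nat.pow_right_injective hp.two_le hj).symm
    · rw [ofPowerSeries_apply hN1, Function.extend_apply' _ _ _ h]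
      rfl

theorem C_int (a : ℤ) : (PowerSeries.C a : PowerSeries ℤ) = ((a : ℤ) : PowerSeries ℤ) := by
  simp

theorem pp_dn {p : ℕ} (hp : p.Prime) {N f : ℕ} (hf : 0 < f) (hN : N = p ^ f) (a c : ℤ) :
    pp hp (ofPowerSeries N (dn a c)) =
      1 - PowerSeries.C a * PowerSeries.X ^ f + PowerSeries.C c * PowerSeries.X ^ (2 * f) := by
  rw [dn, C_int, C_int]
  simp only [map_add, map_sub, map_mul, map_pow, map_one, map_intCast]
  rw [pp_X hp hf hN, ← pow_mul, mul_comm f 2]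

theorem pp_fi {p : ℕ} (hp : p.Prime) {N f : ℕ} (hf : 0 < f) (hN : N = p ^ f) (a c : ℤ) :
    pp hp (ofPowerSeries N (fi a c)) *
      (1 - PowerSeries.C a * PowerSeries.X ^ f + PowerSeries.C c * PowerSeries.X ^ (2 * f))
      = 1 := by
  rw [← pp_dn hp hf hN, ← map_mul, ← map_mul, mul_comm, dn_mul, map_one, map_one]

/-! ### Estimates -/

theorem theta_le (N : ℕ) (hN : 2 ≤ N) (a c : ℤ) (ha : |(a : ℝ)| ≤ N) (hc : |(c : ℝ)| ≤ N)
    (σ : ℝ) (hσ : 3 / 2 < σ) :
    |(a : ℝ)| * (N : ℝ) ^ (-σ) + |(c : ℝ)| * ((N : ℝ) ^ (-σ)) ^ 2 ≤ 23 / 24 := by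
  have hN2 : (2 : ℝ) ≤ N := by exact_mod_cast hN
  have hN0 : (0 : ℝ) < N := by linarith
  have hN1 : (1 : ℝ) ≤ N := by linarith
  set y := (N : ℝ) ^ (-σ) with hy
  have hy0 : 0 < y := Real.rpow_pos_of_pos hN0 _
  have hy1 : y ≤ (N : ℝ) ^ (-(3 / 2 : ℝ)) :=
    Real.rpow_le_rpow_of_exponent_le hN1 (by linarith)
  have h1 : (N : ℝ) * (N : ℝ) ^ (-(3 / 2 : ℝ)) = (N : ℝ) ^ (-(1 / 2 : ℝ)) := by
    nth_rewrite 1 [← Real.rpow_one (N : ℝ)]
    rw [← Real.rpow_add hN0]
    norm_num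
  have h2 : (N : ℝ) ^ (-(1 / 2 : ℝ)) ≤ 17 / 24 := by
    have h3 : (N : ℝ) ^ (-(1 / 2 : ℝ)) ≤ (2 : ℝ) ^ (-(1 / 2 : ℝ)) :=
      Real.rpow_le_rpow_of_nonpos (by norm_num) hN2 (by norm_num)
    refine h3.trans ?_
    rw [Real.rpow_neg (by norm_num), ← Real.sqrt_eq_rpow]
    have h4 : (24 / 17 : ℝ) ≤ √2 := by
      apply Real.le_sqrt_of_sq_le
      norm_num
    calc (√2)⁻¹ ≤ (24 / 17 : ℝ)⁻¹ := inv_anti₀ (by norm_num) h4
      _ = 17 / 24 := by norm_num
  have h5 : |(a : ℝ)| * y ≤ 17 / 24 := by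
    calc |(a : ℝ)| * y ≤ N * (N : ℝ) ^ (-(3 / 2 : ℝ)) :=
          mul_le_mul ha hy1 hy0.le hN0.le
      _ ≤ 17 / 24 := by rw [h1]; exact h2
  have h6 : |(c : ℝ)| * y ^ 2 ≤ 1 / 4 := by
    have h7 : ((N : ℝ) ^ (-(3 / 2 : ℝ))) ^ 2 = (N : ℝ) ^ (-(3 : ℝ)) := by
      rw [← Real.rpow_natCast, ← Real.rpow_mul hN0.le]
      norm_num
    have h8 : (N : ℝ) * (N : ℝ) ^ (-(3 : ℝ)) = (N : ℝ) ^ (-(2 : ℝ)) := by
      nth_rewrite 1 [← Real.rpow_one (N : ℝ)]
      rw [← Real.rpow_add hN0]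
      norm_num
    have h9 : (N : ℝ) ^ (-(2 : ℝ)) ≤ 1 / 4 := by
      have h3 : (N : ℝ) ^ (-(2 : ℝ)) ≤ (2 : ℝ) ^ (-(2 : ℝ)) :=
        Real.rpow_le_rpow_of_nonpos (by norm_num) hN2 (by norm_num)
      refine h3.trans ?_
      rw [Real.rpow_neg (by norm_num)]
      norm_num
    calc |(c : ℝ)| * y ^ 2 ≤ N * ((N : ℝ) ^ (-(3 / 2 : ℝ))) ^ 2 :=
          mul_le_mul hc (by gcongr) (by positivity) hN0.le
      _ ≤ 1 / 4 := by rw [h7, h8]; exact h9
  linarith

theorem inv_le_exp {θ : ℝ} (h0 : 0 ≤ θ) (h1 : θ ≤ 23 / 24) : (1 - θ)⁻¹ ≤ Real.exp (24 * θ) := by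
  have h2 : (1 - θ)⁻¹ ≤ 24 * θ + 1 := by
    rw [← one_div, div_le_iff₀ (by linarith)]
    nlinarith
  exact h2.trans (Real.add_one_le_exp _)

theorem term_real (w : ArithmeticFunction ℤ) (σ : ℝ) (n : ℕ) :
    LSeries.term (fun n => ((w n : ℤ) : ℂ)) (σ : ℂ) n = (((w n : ℝ) * (n : ℝ) ^ (-σ) : ℝ) : ℂ) := by
  rcases Nat.eq_zero_or_pos n with rfl | hn
  · simp
  rw [LSeries.term_of_ne_zero hn.ne']
  push_cast
  rw [Complex.ofReal_cpow (Nat.cast_nonneg n)]
  push_cast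
  rw [Complex.cpow_neg, div_eq_mul_inv]

theorem term_eq (w : ArithmeticFunction ℤ) (s : ℂ) (n : ℕ) :
    LSeries.term (fun n => ((w n : ℤ) : ℂ)) s n = (w n : ℂ) * (n : ℂ) ^ (-s) := by
  rcases Nat.eq_zero_or_pos n with rfl | hn
  · simp
  rw [LSeries.term_of_ne_zero hn.ne', Complex.cpow_neg, div_eq_mul_inv]

theorem norm_term (w : ArithmeticFunction ℤ) (s : ℂ) (n : ℕ) :
    ‖LSeries.term (fun n => ((w n : ℤ) : ℂ)) s n‖ = |(w n : ℝ)| * (n : ℝ) ^ (-s.re) := by
  rcases Nat.eq_zero_or_pos n with rfl | hn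
  · simp
  rw [term_eq, norm_mul, Complex.norm_natCast_cpow_of_pos hn, Complex.neg_re, Complex.norm_intCast]

end G10

open Filter Topology ArithmeticFunction G10 in
theorem coeffs (h7 : SparseSums) : Coeffs := by
  classical
  intro ι N a good C A hS haN haA
  obtain ⟨hfin, hsum, -⟩ := h7 ι N C hS
  have hN2 : ∀ i, 2 ≤ N i := hS.1
  have hN1 : ∀ i, 1 < N i := fun i => hN2 i
  obtain ⟨c, hc⟩ : ∃ c : ι → ℤ, ∀ i, c i = if good i then (N i : ℤ) else 0 := ⟨_, fun i => rfl⟩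
  have hcN : ∀ i, |(c i : ℝ)| ≤ N i := by
    intro i
    rw [hc]
    split_ifs <;> simp
  obtain ⟨u, hu⟩ : ∃ u : ι → ArithmeticFunction ℤ, ∀ i, u i = ofPowerSeries (N i) (fi (a i) (c i)) :=
    ⟨_, fun i => rfl⟩
  obtain ⟨v, hv⟩ : ∃ v : ι → ArithmeticFunction ℤ, ∀ i, v i = ofPowerSeries (N i) (gi (a i) (c i)) :=
    ⟨_, fun i => rfl⟩
  have huv : ∀ i n, |u i n| = v i n := by
    intro i n
    rw [hu, hv]
    by_cases h : ∃ k, N i ^ k = n
    · obtain ⟨k, rfl⟩ := h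
      rw [ofPowerSeries_apply_pow (hN1 i), ofPowerSeries_apply_pow (hN1 i), gi,
        PowerSeries.coeff_mk]
    · rw [ofPowerSeries_apply (hN1 i), ofPowerSeries_apply (hN1 i),
        Function.extend_apply' _ _ _ h, Function.extend_apply' _ _ _ h]
      simp
  have hv0 : ∀ i n, 0 ≤ v i n := fun i n => by rw [← huv]; exact abs_nonneg _
  have hv1 : ∀ i, v i 1 = 1 := by
    intro i
    rw [hv, ofPowerSeries_apply_one, gi_const]
  have : Northcott N := ⟨fun b => hfin b⟩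
  obtain ⟨b, hb⟩ : ∃ b : ArithmeticFunction ℤ, ∀ n, ∀ᶠ s in atTop, (∏ i ∈ s, u i) n = b n := by
    refine ⟨eulerProduct fun i => ofPowerSeries (N i) (fi (a i) (c i)), fun n => ?_⟩
    have := tendsTo_eulerProduct_ofPowerSeries N (fun i => fi (a i) (c i))
      (fun i => fi_const _ _) n
    simpa only [hu] using this
  obtain ⟨bb, hbb⟩ : ∃ b : ArithmeticFunction ℤ, ∀ n, ∀ᶠ s in atTop, (∏ i ∈ s, v i) n = b n := by
    refine ⟨eulerProduct fun i => ofPowerSeries (N i) (gi (a i) (c i)), fun n => ?_⟩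
    have := tendsTo_eulerProduct_ofPowerSeries N (fun i => gi (a i) (c i))
      (fun i => gi_const _ _) n
    simpa only [hv] using this
  have habs : ∀ (s : Finset ι) n, |(∏ i ∈ s, u i) n| ≤ (∏ i ∈ s, v i) n :=
    fun s n => prod_abs_le u v (fun i n => (huv i n).le) s n
  have hle : ∀ (s : Finset ι) n, (∏ i ∈ s, v i) n ≤ bb n := by
    intro s n
    obtain ⟨t, h1, h2⟩ := ((eventually_ge_atTop s).and (hbb n)).exists
    rw [← h2]
    exact prod_mono v hv0 hv1 h1 n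
  have hbabs : ∀ n, |b n| ≤ bb n := by
    intro n
    obtain ⟨t, h1, h2⟩ := ((hb n).and (hbb n)).exists
    rw [← h1, ← h2]
    exact habs t n
  have hbb0 : ∀ n, 0 ≤ bb n := fun n => (abs_nonneg _).trans (hbabs n)
  -- the bound of the local factors
  have hloc : ∀ (σ : ℝ), 3 / 2 < σ → ∀ i, Summable (fun k => |(cf (a i) (c i) k : ℝ)| *
      ((N i : ℝ) ^ (-σ)) ^ k) ∧ ∑' k, |(cf (a i) (c i) k : ℝ)| * ((N i : ℝ) ^ (-σ)) ^ k ≤
      Real.exp (24 * (|(a i : ℝ)| * (N i : ℝ) ^ (-σ) + |(c i : ℝ)| * ((N i : ℝ) ^ (-σ)) ^ 2)) := by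
    intro σ hσ i
    have h1 := theta_le (N i) (hN2 i) (a i) (c i) (haN i) (hcN i) σ hσ
    have h2 := cf_summable (a i) (c i) ((N i : ℝ) ^ (-σ)) _
      (Real.rpow_nonneg (Nat.cast_nonneg _) _) le_rfl (by linarith)
    refine ⟨h2.1, h2.2.trans (inv_le_exp ?_ h1)⟩
    have := Real.rpow_nonneg (Nat.cast_nonneg (N i) : (0 : ℝ) ≤ (N i : ℝ)) (-σ)
    positivity
  -- summability of the exponents
  have hth : ∀ (σ : ℝ), 3 / 2 < σ → Summable (fun i => 24 * (|(a i : ℝ)| * (N i : ℝ) ^ (-σ) +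
      |(c i : ℝ)| * ((N i : ℝ) ^ (-σ)) ^ 2)) := by
    intro σ hσ
    have h1 := (hsum (σ - 3 / 2) (by linarith)).mul_left A
    have h2 := hsum (2 * σ - 2) (by linarith)
    refine Summable.mul_left _ (Summable.of_nonneg_of_le (fun i => ?_) (fun i => ?_) (h1.add h2))
    · have := Real.rpow_nonneg (Nat.cast_nonneg (N i) : (0 : ℝ) ≤ (N i : ℝ)) (-σ)
      positivity
    · have hN0 : (0 : ℝ) < N i := by
        have := hN2 i
        positivity
      have hy0 := Real.rpow_pos_of_pos hN0 (-σ)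
      have h3 : √(N i : ℝ) * (N i : ℝ) ^ (-σ) = (N i : ℝ) ^ (-(1 + (σ - 3 / 2))) := by
        rw [Real.sqrt_eq_rpow, ← Real.rpow_add hN0]
        congr 1
        ring
      have h4 : (N i : ℝ) * ((N i : ℝ) ^ (-σ)) ^ 2 = (N i : ℝ) ^ (-(1 + (2 * σ - 2))) := by
        rw [← Real.rpow_natCast, ← Real.rpow_mul hN0.le]
        nth_rewrite 1 [← Real.rpow_one (N i : ℝ)]
        rw [← Real.rpow_add hN0]
        congr 1
        push_cast
        ring
      refine add_le_add ?_ ?_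
      · rw [← h3, ← mul_assoc]
        exact mul_le_mul_of_nonneg_right (haA i) hy0.le
      · rw [← h4]
        exact mul_le_mul_of_nonneg_right (hcN i) (by positivity)
  -- L-series of the local factors
  have hz : ∀ (s : ℂ) i, ‖(N i : ℂ) ^ (-s)‖ = (N i : ℝ) ^ (-s.re) := by
    intro s i
    rw [Complex.norm_natCast_cpow_of_pos (by have := hN2 i; omega), Complex.neg_re]
  have hcs : ∀ (s : ℂ), 3 / 2 < s.re → ∀ i, Summable (fun k => (cf (a i) (c i) k : ℂ) *
      ((N i : ℂ) ^ (-s)) ^ k) := by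
    intro s hs i
    refine Summable.of_norm ?_
    simp only [norm_mul, norm_pow, hz, Complex.norm_intCast]
    exact (hloc s.re hs i).1
  have hus : ∀ (s : ℂ), 3 / 2 < s.re → ∀ i, LSeriesSummable (fun n => ((u i n : ℤ) : ℂ)) s ∧
      LSeries (fun n => ((u i n : ℤ) : ℂ)) s = (eden (N i) (a i) (good i) s)⁻¹ := by
    intro s hs i
    have h1 := ofPS_summable (hN1 i) (fi (a i) (c i)) s (hcs s hs i)
    rw [← hu] at h1
    refine ⟨h1.1, ?_⟩
    rw [h1.2]
    have h2 := cf_tsum (a i) (c i) ((N i : ℂ) ^ (-s)) (hcs s hs i)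
    have h3 : (1 - (a i : ℂ) * (N i : ℂ) ^ (-s) + (c i : ℂ) * ((N i : ℂ) ^ (-s)) ^ 2) =
        eden (N i) (a i) (good i) s := by
      rw [eden, hc]
      have hN0 : (N i : ℂ) ≠ 0 := by
        have := hN2 i
        exact_mod_cast (by omega : N i ≠ 0)
      have h4 : (N i : ℂ) ^ (1 - 2 * s) = (N i : ℂ) * ((N i : ℂ) ^ (-s)) ^ 2 := by
        rw [sub_eq_add_neg, Complex.cpow_add _ _ hN0, Complex.cpow_one,
          show -(2 * s) = ((2 : ℕ) : ℂ) * (-s) by push_cast; ring, Complex.cpow_nat_mul]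
      rw [h4]
      split_ifs <;> simp
    rw [h3] at h2
    exact eq_inv_of_mul_eq_one_left h2
  have hvs : ∀ (σ : ℝ), 3 / 2 < σ → ∀ i, LSeriesSummable (fun n => ((v i n : ℤ) : ℂ)) (σ : ℂ) ∧
      LSeries (fun n => ((v i n : ℤ) : ℂ)) (σ : ℂ) =
        ((∑' k, |(cf (a i) (c i) k : ℝ)| * ((N i : ℝ) ^ (-σ)) ^ k : ℝ) : ℂ) := by
    intro σ hσ i
    have h0 : (fun k => ((PowerSeries.coeff k (gi (a i) (c i)) : ℤ) : ℂ) *
        ((N i : ℂ) ^ (-(σ : ℂ))) ^ k) =
        fun k => ((|(cf (a i) (c i) k : ℝ)| * ((N i : ℝ) ^ (-σ)) ^ k : ℝ) : ℂ) := by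
      funext k
      have h5 : ((|(PowerSeries.coeff k) (fi (a i) (c i))| : ℤ) : ℂ) =
          ((|(cf (a i) (c i) k : ℝ)| : ℝ) : ℂ) := by
        rw [← Int.cast_abs, Complex.ofReal_intCast]
        rfl
      rw [gi, PowerSeries.coeff_mk, h5, Complex.ofReal_mul, Complex.ofReal_pow,
        Complex.ofReal_cpow (Nat.cast_nonneg _)]
      push_cast
      rfl
    have h1 := ofPS_summable (hN1 i) (gi (a i) (c i)) (σ : ℂ) (by
      rw [h0]
      exact Complex.ofRealCLM.summable (hloc σ hσ i).1)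
    rw [← hv] at h1
    refine ⟨h1.1, ?_⟩
    rw [h1.2, h0, Complex.ofReal_tsum]
  -- summability of the majorant
  have hbbs : ∀ (σ : ℝ), 3 / 2 < σ → Summable (fun n : ℕ => (bb n : ℝ) * (n : ℝ) ^ (-σ)) := by
    intro σ hσ
    refine summable_of_sum_le (c := Real.exp (∑' i, 24 * (|(a i : ℝ)| * (N i : ℝ) ^ (-σ) +
      |(c i : ℝ)| * ((N i : ℝ) ^ (-σ)) ^ 2))) (fun n => ?_) fun F => ?_
    · have := hbb0 n
      have h1 : (0 : ℝ) ≤ (bb n : ℝ) := by exact_mod_cast this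
      have := Real.rpow_nonneg (Nat.cast_nonneg n : (0 : ℝ) ≤ (n : ℝ)) (-σ)
      positivity
    · obtain ⟨s, hs⟩ := ((eventually_all_finset F).2 fun n _ => hbb n).exists
      have h1 := lseries_prod v (σ : ℂ) (fun i => (hvs σ hσ i).1) s
      have h2 : (fun n => LSeries.term (fun n => (((∏ i ∈ s, v i) n : ℤ) : ℂ)) (σ : ℂ) n) =
          fun n => ((((∏ i ∈ s, v i) n : ℝ) * (n : ℝ) ^ (-σ) : ℝ) : ℂ) := by
        funext n
        exact term_real _ σ n
      have h3 : Summable (fun n : ℕ => ((∏ i ∈ s, v i) n : ℝ) * (n : ℝ) ^ (-σ)) := by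
        have h4 := h1.1
        rw [LSeriesSummable] at h4
        have h5 : Summable (fun n : ℕ => ((((∏ i ∈ s, v i) n : ℝ) * (n : ℝ) ^ (-σ) : ℝ) : ℂ)) := by
          rw [← h2]; exact h4
        exact Complex.summable_ofReal.1 h5
      have h4 : ∑' n : ℕ, ((∏ i ∈ s, v i) n : ℝ) * (n : ℝ) ^ (-σ) =
          ∏ i ∈ s, ∑' k, |(cf (a i) (c i) k : ℝ)| * ((N i : ℝ) ^ (-σ)) ^ k := by
        have h5 := h1.2
        rw [LSeries] at h5
        have h6 : ∑' n : ℕ, LSeries.term (fun n => (((∏ i ∈ s, v i) n : ℤ) : ℂ)) (σ : ℂ) n =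
            ((∑' n : ℕ, ((∏ i ∈ s, v i) n : ℝ) * (n : ℝ) ^ (-σ) : ℝ) : ℂ) := by
          rw [Complex.ofReal_tsum]
          exact tsum_congr fun n => term_real _ σ n
        rw [h6, Finset.prod_congr rfl fun i _ => (hvs σ hσ i).2, ← Complex.ofReal_prod] at h5
        exact_mod_cast h5
      calc ∑ n ∈ F, (bb n : ℝ) * (n : ℝ) ^ (-σ)
          = ∑ n ∈ F, ((∏ i ∈ s, v i) n : ℝ) * (n : ℝ) ^ (-σ) :=
            Finset.sum_congr rfl fun n hn => by rw [hs n hn]
        _ ≤ ∑' n : ℕ, ((∏ i ∈ s, v i) n : ℝ) * (n : ℝ) ^ (-σ) :=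
            h3.sum_le_tsum F fun n _ => by
              have h6 : (0 : ℝ) ≤ ((∏ i ∈ s, v i) n : ℝ) := by
                exact_mod_cast prod_nonneg v hv0 s n
              have := Real.rpow_nonneg (Nat.cast_nonneg n : (0 : ℝ) ≤ (n : ℝ)) (-σ)
              positivity
        _ = ∏ i ∈ s, ∑' k, |(cf (a i) (c i) k : ℝ)| * ((N i : ℝ) ^ (-σ)) ^ k := h4
        _ ≤ ∏ i ∈ s, Real.exp (24 * (|(a i : ℝ)| * (N i : ℝ) ^ (-σ) +
              |(c i : ℝ)| * ((N i : ℝ) ^ (-σ)) ^ 2)) := by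
            refine Finset.prod_le_prod (fun i _ => tsum_nonneg fun k => ?_)
              fun i _ => (hloc σ hσ i).2
            have := Real.rpow_nonneg (Nat.cast_nonneg (N i) : (0 : ℝ) ≤ (N i : ℝ)) (-σ)
            positivity
        _ = Real.exp (∑ i ∈ s, 24 * (|(a i : ℝ)| * (N i : ℝ) ^ (-σ) +
              |(c i : ℝ)| * ((N i : ℝ) ^ (-σ)) ^ 2)) := by
            rw [← Real.exp_sum]
        _ ≤ _ := by
            apply Real.exp_le_exp.2
            refine (hth σ hσ).sum_le_tsum s fun i _ => ?_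
            have := Real.rpow_nonneg (Nat.cast_nonneg (N i) : (0 : ℝ) ≤ (N i : ℝ)) (-σ)
            positivity
  refine ⟨fun n => b n, by simp, ?_, ?_, ?_⟩
  · intro σ hσ
    refine Summable.of_nonneg_of_le (fun n => ?_) (fun n => ?_) (hbbs σ hσ)
    · have := Real.rpow_nonneg (Nat.cast_nonneg n : (0 : ℝ) ≤ (n : ℝ)) (-σ)
      positivity
    · refine mul_le_mul_of_nonneg_right ?_ (Real.rpow_nonneg (Nat.cast_nonneg n) _)
      have := hbabs n
      exact_mod_cast this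
  · intro s hs
    have hprod : Tendsto (fun t : Finset ι => ∏ i ∈ t, (eden (N i) (a i) (good i) s)⁻¹) atTop
        (𝓝 (∑' n : ℕ, (b n : ℂ) * (n : ℂ) ^ (-s))) := by
      have h1 : (fun t : Finset ι => ∏ i ∈ t, (eden (N i) (a i) (good i) s)⁻¹) =
          fun t : Finset ι => ∑' n : ℕ, LSeries.term (fun n => (((∏ i ∈ t, u i) n : ℤ) : ℂ)) s n := by
        funext t
        have h2 := (lseries_prod u s (fun i => (hus s hs i).1) t).2
        rw [LSeries] at h2
        rw [h2]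
        exact Finset.prod_congr rfl fun i _ => ((hus s hs i).2).symm
      rw [h1]
      refine tendsto_tsum_of_dominated_convergence (hbbs s.re hs) (fun n => ?_)
        (Eventually.of_forall fun t n => ?_)
      · refine Tendsto.congr' ?_ tendsto_const_nhds
        filter_upwards [hb n] with t ht
        rw [term_eq, ht]
      · rw [norm_term]
        refine mul_le_mul_of_nonneg_right ?_ (Real.rpow_nonneg (Nat.cast_nonneg n) _)
        have := (habs t n).trans (hle t n)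
        exact_mod_cast this
    have h2 : HasProd (fun i => (eden (N i) (a i) (good i) s)⁻¹)
        (∑' n : ℕ, (b n : ℂ) * (n : ℂ) ^ (-s)) := by
      simpa [HasProd] using hprod
    exact h2.tprod_eq
  · intro p f hp hT hf
    have hD : ∀ i, (1 - PowerSeries.C (a i) * (PowerSeries.X : PowerSeries ℤ) ^ f i
            + (if good i then 1 else 0) * PowerSeries.C (N i : ℤ)
              * (PowerSeries.X : PowerSeries ℤ) ^ (2 * f i)) =
        (1 - PowerSeries.C (a i) * (PowerSeries.X : PowerSeries ℤ) ^ f i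
            + PowerSeries.C (c i) * (PowerSeries.X : PowerSeries ℤ) ^ (2 * f i)) := by
      intro i
      rw [hc]
      split_ifs <;> simp
    rw [finprod_mem_eq_finite_toFinset_prod _ hT]
    have hprodT : (∏ i ∈ hT.toFinset, pp hp (u i)) * (∏ i ∈ hT.toFinset,
        (1 - PowerSeries.C (a i) * (PowerSeries.X : PowerSeries ℤ) ^ f i
            + (if good i then 1 else 0) * PowerSeries.C (N i : ℤ)
              * (PowerSeries.X : PowerSeries ℤ) ^ (2 * f i))) = 1 := by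
      rw [← Finset.prod_mul_distrib]
      refine Finset.prod_eq_one fun i hi => ?_
      have hi' : p ∣ N i := by simpa using hi
      obtain ⟨h1, h2⟩ := hf i hi'
      rw [hD, hu]
      exact pp_fi hp h1 h2 _ _
    refine Eq.trans ?_ hprodT
    ext k
    rw [PowerSeries.coeff_mul, PowerSeries.coeff_mul]
    refine Finset.sum_congr rfl fun x hx => ?_
    congr 1
    obtain ⟨t, ht1, ht2⟩ := ((eventually_ge_atTop hT.toFinset).and (hb (p ^ x.1))).exists
    rw [PowerSeries.coeff_mk]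
    change b (p ^ x.1) = _
    rw [← ht2, ← coeff_pp hp, map_prod]
    congr 1
    symm
    refine Finset.prod_subset ht1 fun i _ hi => ?_
    rw [hu]
    refine pp_not_dvd hp (hN1 i) (fun h => hi ?_) _ (fi_const _ _)
    simpa using h

end MP7ed9c3
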