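import Pool.Agent.Lib.MP_7ed9c3_nt.SpecG
import Pool.Agent.Lib.MP_7ed9c3_nt.N5

/-!
# MP_7ed9c3_nt, G12: the growth theorem
-/

namespace MP7ed9c3

open NumberField IsDedekindDomain Filter Topology MeasureTheory

namespace G12

/-- The norm of a prime is a power of a prime number which lies in it. -/
theorem nm_pow {K : Type} [Field K] [NumberField K] (v : HeightOneSpectrum (𝓞 K)) :
    ∃ p f : ℕ, p.Prime ∧ 0 < f ∧ nm v = p ^ f ∧ ((p : ℕ) : 𝓞 K) ∈ v.asIdeal := by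
  classical
  haveI : v.asIdeal.IsMaximal := v.isMaximal
  letI : Field (𝓞 K ⧸ v.asIdeal) := Ideal.Quotient.field v.asIdeal
  have h0 : nm v ≠ 0 := by
    rw [nm, Ne, Ideal.absNorm_eq_zero_iff]
    exact v.ne_bot
  have hc : nm v = Nat.card (𝓞 K ⧸ v.asIdeal) := by
    rw [nm, Ideal.absNorm_apply, Submodule.cardQuot_apply]
  haveI : Finite (𝓞 K ⧸ v.asIdeal) := Nat.finite_of_card_ne_zero (by rw [← hc]; exact h0)
  letI : Fintype (𝓞 K ⧸ v.asIdeal) := Fintype.ofFinite _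
  have hpp : IsPrimePow (nm v) := by
    rw [hc, Nat.card_eq_fintype_card]
    exact Fintype.isPrimePow_card_of_field
  obtain ⟨p, f, hp, hf, hpf⟩ := (isPrimePow_nat_iff _).mp hpp
  refine ⟨p, f, hp, hf, hpf.symm, ?_⟩
  have hmem : ((nm v : ℕ) : 𝓞 K) ∈ v.asIdeal := Ideal.absNorm_mem v.asIdeal
  rw [← hpf, Nat.cast_pow] at hmem
  exact v.isPrime.mem_of_pow_mem f hmem

/-- `p ∣ nm v` gives `nm v = p ^ f` and `p ∈ v`. -/
theorem of_dvd {K : Type} [Field K] [NumberField K] (v : HeightOneSpectrum (𝓞 K)) {p : ℕ}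
    (hp : p.Prime) (h : p ∣ nm v) : (∃ f : ℕ, 0 < f ∧ nm v = p ^ f) ∧
      ((p : ℕ) : 𝓞 K) ∈ v.asIdeal := by
  obtain ⟨q, f, hq, hf, hqf, hmem⟩ := nm_pow v
  have : p = q := by
    rw [hqf] at h
    exact (Nat.prime_dvd_prime_iff_eq hp hq).mp (hp.dvd_of_dvd_pow h)
  subst this
  exact ⟨⟨f, hf, hqf⟩, hmem⟩

/-- `p ∈ v` gives `p ∣ nm v`. -/
theorem dvd_of {K : Type} [Field K] [NumberField K] (v : HeightOneSpectrum (𝓞 K)) {p : ℕ}
    (hp : p.Prime) (h : ((p : ℕ) : 𝓞 K) ∈ v.asIdeal) : p ∣ nm v := by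
  obtain ⟨q, f, hq, hf, hqf, hmem⟩ := nm_pow v
  have : p = q := by
    by_contra hne
    have hco : Nat.Coprime p q := (Nat.coprime_primes hp hq).mpr hne
    have hco' : IsCoprime (p : ℤ) (q : ℤ) := Nat.isCoprime_iff_coprime.mpr hco
    obtain ⟨a, b, hab⟩ := hco'
    have h1 : ((a : ℤ) : 𝓞 K) * ((p : ℕ) : 𝓞 K) + ((b : ℤ) : 𝓞 K) * ((q : ℕ) : 𝓞 K) = 1 := by
      have := congrArg (fun z : ℤ => (z : 𝓞 K)) hab
      simpa using this
    have h2 : (1 : 𝓞 K) ∈ v.asIdeal := by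
      rw [← h1]
      exact v.asIdeal.add_mem (v.asIdeal.mul_mem_left _ h) (v.asIdeal.mul_mem_left _ hmem)
    exact v.isPrime.ne_top ((Ideal.eq_top_iff_one _).mpr h2)
  subst this
  rw [hqf]
  exact dvd_pow_self _ hf.ne'

/-- Outside a finite set of primes there is a prime, lying above a prime number. -/
theorem exists_outside {K : Type} [Field K] [NumberField K] {S : Set (HeightOneSpectrum (𝓞 K))}
    (hS : S.Finite) : ∃ v : HeightOneSpectrum (𝓞 K), v ∉ S ∧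
      ∃ p : ℕ, p.Prime ∧ p ∣ nm v := by
  classical
  obtain ⟨p, hpl, hp⟩ := Nat.exists_infinite_primes (∑ v ∈ hS.toFinset, nm v + 1)
  -- a maximal ideal containing `p`
  have hne : Ideal.span {((p : ℕ) : 𝓞 K)} ≠ ⊤ := by
    intro h
    have hn : Ideal.absNorm (Ideal.span {((p : ℕ) : 𝓞 K)}) = 1 :=
      Ideal.absNorm_eq_one_iff.mpr h
    have h2 : Ideal.absNorm (Ideal.span {((p : ℕ) : 𝓞 K)})
        = p ^ Module.finrank ℤ (𝓞 K) := Ideal.absNorm_span_natCast p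
    rw [h2] at hn
    have hpos : Module.finrank ℤ (𝓞 K) ≠ 0 := by
      rw [RingOfIntegers.rank]
      exact Module.finrank_pos.ne'
    have := Nat.one_lt_pow hpos hp.one_lt
    omega
  obtain ⟨m, hm, hle⟩ := Ideal.exists_le_maximal _ hne
  have hpm : ((p : ℕ) : 𝓞 K) ∈ m := hle (Ideal.mem_span_singleton_self _)
  have hm0 : m ≠ ⊥ := by
    intro h
    rw [h, Ideal.mem_bot] at hpm
    exact hp.ne_zero (by exact_mod_cast hpm)
  set v : HeightOneSpectrum (𝓞 K) := ⟨m, hm.isPrime, hm0⟩ with hv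
  have hd : p ∣ nm v := dvd_of v hp hpm
  refine ⟨v, ?_, p, hp, hd⟩
  intro hvS
  have h1 : nm v ≤ ∑ v ∈ hS.toFinset, nm v :=
    Finset.single_le_sum (f := fun v => nm v) (fun v _ => Nat.zero_le _)
      (hS.mem_toFinset.mpr hvS)
  have h0 : nm v ≠ 0 := by
    rw [nm, Ne, Ideal.absNorm_eq_zero_iff]
    exact v.ne_bot
  have h2 : p ≤ nm v := Nat.le_of_dvd (Nat.pos_of_ne_zero h0) hd
  omega

end G12

open Classical PowerSeries in
/-- **G12, the growth theorem.** -/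
theorem growth (n1 : CountPrimes) (n2 : ExistsModel) (n3 : GoodData) (n4 : TraceBound)
    (g5 : Expansion) (g8 : RecurrentOf) (g9 : BoundedOf) (g10 : Coeffs) (g11 : Unbounded) :
    Growth := by
  intro K _ _ E hE M hM F hF hFeq R
  by_contra hcon
  have hgrow : Grows F R := by
    intro s
    by_contra h
    exact hcon ⟨s, not_le.mp h⟩
  obtain ⟨W₀, hΔ, hW₀⟩ := n2 K E hE
  obtain ⟨C, hC⟩ := n1 K
  set S : Set (HeightOneSpectrum (𝓞 K)) :=
    {v | W₀.Δ ∈ v.asIdeal ∨ (6 : 𝓞 K) ∈ v.asIdeal} with hSdef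
  have h6 : (6 : 𝓞 K) ≠ 0 := by norm_num
  have hSfin : S.Finite := (N5.finite_mem hΔ).union (N5.finite_mem h6)
  set A : ℝ := 2 + ∑ v ∈ hSfin.toFinset, √(nm v) with hA
  have hA2 : 2 ≤ A := by
    rw [hA]
    have : 0 ≤ ∑ v ∈ hSfin.toFinset, √(nm v : ℝ) :=
      Finset.sum_nonneg fun v _ => Real.sqrt_nonneg _
    linarith
  have hgood : ∀ v, v ∉ S → (M v).Δ ∉ v.asIdeal ∧ tr (M v) v = tr W₀ v := by
    intro v hv
    have hv1 : W₀.Δ ∉ v.asIdeal := fun h => hv (Or.inl h)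
    have hv2 : (6 : 𝓞 K) ∉ v.asIdeal := fun h => hv (Or.inr h)
    exact n3 K E W₀ hW₀ v (M v) hv1 hv2 (hM v)
  have h1 : ∀ v, |(tr (M v) v : ℝ)| ≤ nm v := fun v => (n4 K (M v) v).1
  have h2 : ∀ v, |(tr (M v) v : ℝ)| ≤ A * √(nm v) := by
    intro v
    by_cases hv : v ∈ S
    · have e1 : √(nm v : ℝ) ≤ A := by
        rw [hA]
        have : √(nm v : ℝ) ≤ ∑ v ∈ hSfin.toFinset, √(nm v : ℝ) :=
          Finset.single_le_sum (f := fun v => √(nm v : ℝ))
            (fun v _ => Real.sqrt_nonneg _) (hSfin.mem_toFinset.mpr hv)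
        linarith
      have e2 : (nm v : ℝ) = √(nm v : ℝ) * √(nm v : ℝ) :=
        (Real.mul_self_sqrt (Nat.cast_nonneg _)).symm
      calc |(tr (M v) v : ℝ)| ≤ nm v := h1 v
        _ = √(nm v : ℝ) * √(nm v : ℝ) := e2
        _ ≤ A * √(nm v) := mul_le_mul_of_nonneg_right e1 (Real.sqrt_nonneg _)
    · have hv1 : W₀.Δ ∉ v.asIdeal := fun h => hv (Or.inl h)
      have hv2 : (6 : 𝓞 K) ∉ v.asIdeal := fun h => hv (Or.inr h)
      rw [(hgood v hv).2]
      exact le_trans ((n4 K W₀ v).2 hv1 hv2)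
        (mul_le_mul_of_nonneg_right hA2 (Real.sqrt_nonneg _))
  obtain ⟨b, hb0, hbs, hbeq, hbp⟩ := g10 (HeightOneSpectrum (𝓞 K)) (fun v => nm v)
    (fun v => tr (M v) v) (fun v => (M v).Δ ∉ v.asIdeal) C A hC h1 h2
  have hs2 := hbs 2 (by norm_num)
  have hs74 := hbs (7 / 4) (by norm_num)
  obtain ⟨r, hr, hnz⟩ := g5 (fun n => (b n : ℂ)) F R (by simp [hb0])
    (by simpa using hs2) hF hgrow (by
      intro s hs
      have hs' : 3 / 2 < s.re := by linarith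
      rw [hFeq s hs', ← hbeq s hs']
      refine tprod_congr fun v => ?_
      rw [locDen]
      unfold eden
      by_cases h : (M v).Δ ∉ v.asIdeal
      · simp only [h, not_false_eq_true, if_true]
      · simp only [h, if_false])
  have hrec : Recurrent b := g8 b r hb0 hs2 hr hnz
  obtain ⟨B, hB⟩ := g9 b hs74 hrec
  obtain ⟨v₀, hv₀, p, hp, hpd⟩ := G12.exists_outside hSfin
  have hfin : {v : HeightOneSpectrum (𝓞 K) | p ∣ nm v}.Finite := by
    refine (N5.finite_mem (K := K) (x := ((p : ℕ) : 𝓞 K)) ?_).subset ?_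
    · exact_mod_cast hp.ne_zero
    · intro v hv
      exact (G12.of_dvd v hp hv).2
  have hfex : ∀ v : HeightOneSpectrum (𝓞 K), ∃ f : ℕ, p ∣ nm v → 0 < f ∧ nm v = p ^ f := by
    intro v
    by_cases h : p ∣ nm v
    · obtain ⟨f, hf⟩ := (G12.of_dvd v hp h).1
      exact ⟨f, fun _ => hf⟩
    · exact ⟨0, fun h' => absurd h' h⟩
  choose f hf using hfex
  have hprod := hbp p f hp hfin hf
  have hmem₀ : v₀ ∈ hfin.toFinset := hfin.mem_toFinset.mpr hpd
  refine g11 (HeightOneSpectrum (𝓞 K)) hfin.toFinset (fun v => nm v) f (fun v => tr (M v) v)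
    (fun v => (M v).Δ ∉ v.asIdeal) (fun k => b (p ^ k)) v₀ hmem₀ (hgood v₀ hv₀).1 (hC.1 v₀)
    (hf v₀ hpd).1 ?_ ⟨B, fun k => hB (p ^ k)⟩
  rw [← finprod_mem_eq_finite_toFinset_prod _ hfin]
  exact hprod

end MP7ed9c3
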