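import Pool.Agent.Lib.MP_7ed9c3_nt.SpecG

/-!
# Module G2: the Gamma function on the lines `Re s = -N - 1/2`
-/

namespace MP7ed9c3

namespace G2M

open Real

private lemma lemA {x : ℝ} (h0 : 0 ≤ x) (h1 : x < 1) :
    (1 + x) * Real.log (1 + x) - (1 - x) * Real.log (1 - x) ≤ 2 * x := by
  let f : ℝ → ℝ := fun x => 2 * x - (1 + x) * Real.log (1 + x) + (1 - x) * Real.log (1 - x)
  have hd : ∀ y ∈ Set.Ico (0 : ℝ) 1, HasDerivAt f
      (2 * 1 - (1 * Real.log (1 + y) + (1 + y) * (1 / (1 + y))) +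
        ((-1) * Real.log (1 - y) + (1 - y) * (-1 / (1 - y)))) y := by
    intro y hy
    have a1 : HasDerivAt (fun x : ℝ => 1 + x) 1 y := (hasDerivAt_id y).const_add 1
    have a2 : HasDerivAt (fun x : ℝ => 1 - x) (-1) y := (hasDerivAt_id y).const_sub 1
    have b1 : HasDerivAt (fun x : ℝ => Real.log (1 + x)) (1 / (1 + y)) y :=
      a1.log (by linarith [hy.1])
    have b2 : HasDerivAt (fun x : ℝ => Real.log (1 - x)) (-1 / (1 - y)) y :=
      a2.log (by linarith [hy.2])
    exact (((hasDerivAt_id y).const_mul 2).sub (a1.mul b1)).add (a2.mul b2)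
  have hmono : MonotoneOn f (Set.Ico (0 : ℝ) 1) := by
    apply monotoneOn_of_deriv_nonneg (convex_Ico 0 1)
    · intro y hy
      exact (hd y hy).continuousAt.continuousWithinAt
    · intro y hy
      rw [interior_Ico] at hy
      exact (hd y ⟨hy.1.le, hy.2⟩).differentiableAt.differentiableWithinAt
    · intro y hy
      rw [interior_Ico] at hy
      rw [(hd y ⟨hy.1.le, hy.2⟩).deriv]
      have p1 : 0 < 1 + y := by linarith [hy.1]
      have p2 : 0 < 1 - y := by linarith [hy.2]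
      have h3 : Real.log (1 + y) + Real.log (1 - y) ≤ 0 := by
        rw [← Real.log_mul p1.ne' p2.ne']
        apply Real.log_nonpos (by positivity)
        nlinarith [sq_nonneg y]
      have h4 : (1 + y) * (1 / (1 + y)) = 1 := by field_simp
      have h5 : (1 - y) * (-1 / (1 - y)) = -1 := by field_simp
      rw [h4, h5]
      linarith
  have h := hmono (show (0 : ℝ) ∈ Set.Ico (0 : ℝ) 1 from ⟨le_rfl, one_pos⟩)
    (show x ∈ Set.Ico (0 : ℝ) 1 from ⟨h0, h1⟩) h0
  simp only [f] at h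
  norm_num at h
  linarith

private lemma lemB {u : ℝ} (hu : 0 < u) :
    u * (Real.log (u + 1) - Real.log u) + (Real.log (u + 1) - Real.log (u + 1 / 2)) ≤ 1 := by
  set x : ℝ := 1 / (2 * u + 1) with hx
  have hx0 : 0 < x := by positivity
  have hx1 : x < 1 := by
    rw [hx, div_lt_one (by positivity)]
    linarith
  have h := lemA hx0.le hx1
  have e1 : 1 + x = (u + 1) / (u + 1 / 2) := by
    rw [hx]
    field_simp
    ring
  have e2 : 1 - x = u / (u + 1 / 2) := by
    rw [hx]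
    field_simp
    ring
  have l1 : Real.log (1 + x) = Real.log (u + 1) - Real.log (u + 1 / 2) := by
    rw [e1, Real.log_div (by positivity) (by positivity)]
  have l2 : Real.log (1 - x) = Real.log u - Real.log (u + 1 / 2) := by
    rw [e2, Real.log_div (by positivity) (by positivity)]
  rw [l1, l2] at h
  have e3 : (2 * u + 1) * x = 1 := by
    rw [hx]
    field_simp
  have h2 := mul_le_mul_of_nonneg_left h (show (0 : ℝ) ≤ 2 * u + 1 by positivity)
  have e4 : (2 * u + 1) * (2 * x) = 2 := by linear_combination 2 * e3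
  have e5 : (2 * u + 1) * ((1 + x) * (Real.log (u + 1) - Real.log (u + 1 / 2)) -
      (1 - x) * (Real.log u - Real.log (u + 1 / 2))) =
      (2 * u + 2) * (Real.log (u + 1) - Real.log (u + 1 / 2)) -
        2 * u * (Real.log u - Real.log (u + 1 / 2)) := by
    linear_combination ((Real.log (u + 1) - Real.log (u + 1 / 2)) +
      (Real.log u - Real.log (u + 1 / 2))) * e3
  rw [e4, e5] at h2
  linarith

private lemma lemC {t : ℝ} (ht : 0 ≤ t) (m : ℕ) :
    (m : ℝ) * Real.log (m + t) - m ≤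
      ∑ j ∈ Finset.range m, Real.log ((j : ℝ) + 1 / 2 + t) := by
  induction m with
  | zero => simp
  | succ m ih =>
    rw [Finset.sum_range_succ]
    have hm : (0 : ℝ) ≤ m := m.cast_nonneg
    push_cast
    rcases eq_or_lt_of_le (add_nonneg hm ht) with h0 | h0
    · have hm0 : (m : ℝ) = 0 := by linarith
      have ht0 : t = 0 := by linarith
      have hm' : m = 0 := by exact_mod_cast hm0
      subst hm'
      subst ht0
      simp only [Nat.cast_zero, Finset.range_zero, Finset.sum_empty, zero_add, add_zero,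
        Real.log_one, mul_zero]
      have : Real.log (1 / 2 : ℝ) = -Real.log 2 := by
        rw [one_div, Real.log_inv]
      have h2 := Real.log_two_lt_d9
      rw [this]
      linarith
    · have hB := lemB h0
      have hle : Real.log ((m : ℝ) + t) ≤ Real.log ((m : ℝ) + t + 1) :=
        Real.log_le_log h0 (by linarith)
      have h3 : (m : ℝ) * (Real.log ((m : ℝ) + t + 1) - Real.log ((m : ℝ) + t)) ≤
          ((m : ℝ) + t) * (Real.log ((m : ℝ) + t + 1) - Real.log ((m : ℝ) + t)) :=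
        mul_le_mul_of_nonneg_right (by linarith) (by linarith)
      have e1 : (m : ℝ) + 1 + t = (m : ℝ) + t + 1 := by ring
      have e2 : (m : ℝ) + 1 / 2 + t = (m : ℝ) + t + 1 / 2 := by ring
      rw [e1, e2]
      linarith

/-- the product -/
private noncomputable def PP (t : ℝ) (m : ℕ) : ℝ := ∏ j ∈ Finset.range m, ((j : ℝ) + 1 / 2 + t)

private lemma PP_pos {t : ℝ} (ht : 0 ≤ t) (m : ℕ) : 0 < PP t m :=
  Finset.prod_pos fun j _ => by positivity

private lemma PP_ge {t : ℝ} (ht : 0 ≤ t) (m : ℕ) :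
    ((m : ℝ) + 1 + t) ^ (m + 1) ≤ Real.exp 1 ^ (m + 1) * PP t (m + 1) := by
  have h := lemC ht (m + 1)
  have h1 : ∑ j ∈ Finset.range (m + 1), Real.log ((j : ℝ) + 1 / 2 + t) =
      Real.log (PP t (m + 1)) := by
    unfold PP
    rw [Real.log_prod]
    intro j _
    positivity
  rw [h1] at h
  push_cast at h
  have hp : 0 < (m : ℝ) + 1 + t := by positivity
  have h2 : Real.log (((m : ℝ) + 1 + t) ^ (m + 1)) ≤
      Real.log (Real.exp 1 ^ (m + 1) * PP t (m + 1)) := by
    rw [Real.log_mul (by positivity) (PP_pos ht _).ne', Real.log_pow, Real.log_pow, Real.log_exp]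
    push_cast
    linarith
  exact (Real.log_le_log_iff (by positivity) (mul_pos (by positivity) (PP_pos ht _))).mp h2

private lemma norm_ge (m : ℕ) (τ : ℝ) :
    (m : ℝ) + 1 / 2 + |τ| ≤ √2 * ‖(-(m : ℂ) - 1 / 2 + τ * Complex.I)‖ := by
  have hn : ‖(-(m : ℂ) - 1 / 2 + τ * Complex.I)‖ = √(((m : ℝ) + 1 / 2) ^ 2 + τ ^ 2) := by
    have : (-(m : ℂ) - 1 / 2 + τ * Complex.I) = ((-(m : ℝ) - 1 / 2 : ℝ) : ℂ) + τ * Complex.I := by
      push_cast
      ring
    rw [this, Complex.norm_add_mul_I]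
    congr 1
    ring
  rw [hn, ← Real.sqrt_mul (by norm_num)]
  apply Real.le_sqrt_of_sq_le
  nlinarith [sq_nonneg ((m : ℝ) + 1 / 2 - |τ|), sq_abs τ]

private lemma gamma_step (m : ℕ) (τ : ℝ) :
    Complex.Gamma (-(m : ℂ) + 1 / 2 + τ * Complex.I) =
      (-(m : ℂ) - 1 / 2 + τ * Complex.I) * Complex.Gamma (-(m : ℂ) - 1 / 2 + τ * Complex.I) := by
  have hne : (-(m : ℂ) - 1 / 2 + τ * Complex.I) ≠ 0 := by
    intro h
    have := congrArg Complex.re h
    simp at this
    have hm : (0 : ℝ) ≤ m := m.cast_nonneg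
    linarith
  rw [← Complex.Gamma_add_one _ hne]
  congr 1
  ring

private lemma gamma_ind (τ : ℝ) (m : ℕ) :
    ‖Complex.Gamma (-(m : ℂ) + 1 / 2 + τ * Complex.I)‖ * PP |τ| m ≤
      √2 ^ m * ‖Complex.Gamma (1 / 2 + τ * Complex.I)‖ := by
  induction m with
  | zero => simp [PP]
  | succ m ih =>
    have hs := gamma_step m τ
    have e : (-((m + 1 : ℕ) : ℂ) + 1 / 2 + τ * Complex.I) =
        (-(m : ℂ) - 1 / 2 + τ * Complex.I) := by
      push_cast
      ring
    rw [e]
    have h1 := norm_ge m τ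
    have hP := PP_pos (abs_nonneg τ) m
    have e2 : PP |τ| (m + 1) = PP |τ| m * ((m : ℝ) + 1 / 2 + |τ|) := by
      unfold PP
      rw [Finset.prod_range_succ]
    rw [e2]
    set G := ‖Complex.Gamma (-(m : ℂ) - 1 / 2 + τ * Complex.I)‖ with hG
    have hG0 : 0 ≤ G := norm_nonneg _
    have h2 : ‖Complex.Gamma (-(m : ℂ) + 1 / 2 + τ * Complex.I)‖ =
        ‖(-(m : ℂ) - 1 / 2 + τ * Complex.I)‖ * G := by
      rw [hs, norm_mul]
    rw [h2] at ih
    calc G * (PP |τ| m * ((m : ℝ) + 1 / 2 + |τ|))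
        = (G * PP |τ| m) * ((m : ℝ) + 1 / 2 + |τ|) := by ring
      _ ≤ (G * PP |τ| m) * (√2 * ‖(-(m : ℂ) - 1 / 2 + τ * Complex.I)‖) :=
          mul_le_mul_of_nonneg_left h1 (by positivity)
      _ = √2 * (‖(-(m : ℂ) - 1 / 2 + τ * Complex.I)‖ * G * PP |τ| m) := by ring
      _ ≤ √2 * (√2 ^ m * ‖Complex.Gamma (1 / 2 + τ * Complex.I)‖) :=
          mul_le_mul_of_nonneg_left ih (by positivity)
      _ = √2 ^ (m + 1) * ‖Complex.Gamma (1 / 2 + τ * Complex.I)‖ := by ring

private lemma gamma_half (τ : ℝ) :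
    ‖Complex.Gamma (1 / 2 + τ * Complex.I)‖ ≤
      √(2 * Real.pi) * Real.exp (-(Real.pi * |τ| / 2)) := by
  have h := Complex.Gamma_mul_Gamma_one_sub (1 / 2 + τ * Complex.I)
  have e1 : (1 : ℂ) - (1 / 2 + τ * Complex.I) =
      (starRingEnd ℂ) (1 / 2 + τ * Complex.I) := by
    rw [map_add, map_mul, Complex.conj_I, Complex.conj_ofReal]
    have : (starRingEnd ℂ) (1 / 2 : ℂ) = 1 / 2 := by
      rw [map_div₀, map_one, map_ofNat]
    rw [this]
    ring
  have e2 : Complex.sin (Real.pi * (1 / 2 + τ * Complex.I)) = ((Real.cosh (Real.pi * τ) : ℝ) : ℂ) := by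
    have : (Real.pi : ℂ) * (1 / 2 + τ * Complex.I) = (Real.pi * τ : ℂ) * Complex.I + Real.pi / 2 := by
      ring
    rw [this, Complex.sin_add_pi_div_two, Complex.cos_mul_I]
    push_cast
    rfl
  rw [e1, Complex.Gamma_conj, e2] at h
  have h2 := congrArg norm h
  rw [norm_mul, RCLike.norm_conj, norm_div, Complex.norm_real, Complex.norm_real,
    Real.norm_of_nonneg Real.pi_pos.le, Real.norm_of_nonneg (Real.cosh_pos _).le] at h2
  have hc : Real.exp (Real.pi * |τ|) / 2 ≤ Real.cosh (Real.pi * τ) := by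
    rw [← Real.cosh_abs, abs_mul, abs_of_pos Real.pi_pos, Real.cosh_eq]
    have := Real.exp_pos (-(Real.pi * |τ|))
    linarith
  have h3 : ‖Complex.Gamma (1 / 2 + τ * Complex.I)‖ ^ 2 ≤
      (√(2 * Real.pi) * Real.exp (-(Real.pi * |τ| / 2))) ^ 2 := by
    rw [sq, h2, mul_pow, Real.sq_sqrt (by positivity), ← Real.exp_nat_mul]
    have e3 : ((2 : ℕ) : ℝ) * -(Real.pi * |τ| / 2) = -(Real.pi * |τ|) := by
      push_cast
      ring
    rw [e3, Real.exp_neg, div_le_iff₀ (Real.cosh_pos _)]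
    have hE := Real.exp_pos (Real.pi * |τ|)
    calc Real.pi = 2 * Real.pi * (Real.exp (Real.pi * |τ|))⁻¹ * (Real.exp (Real.pi * |τ|) / 2) := by
          field_simp
      _ ≤ 2 * Real.pi * (Real.exp (Real.pi * |τ|))⁻¹ * Real.cosh (Real.pi * τ) :=
          mul_le_mul_of_nonneg_left hc (by positivity)
  exact le_of_sq_le_sq h3 (by positivity)

end G2M

open G2M in
theorem gammaLine : GammaLine := by
  intro N τ
  have h1 := gamma_ind τ (N + 1)
  have e : (-((N + 1 : ℕ) : ℂ) + 1 / 2 + τ * Complex.I) =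
      (-(N : ℂ) - 1 / 2 + τ * Complex.I) := by
    push_cast
    ring
  rw [e] at h1
  have hP := PP_pos (abs_nonneg τ) (N + 1)
  have hge := PP_ge (abs_nonneg τ) N
  have hh := gamma_half τ
  set G := ‖Complex.Gamma (-(N : ℂ) - 1 / 2 + τ * Complex.I)‖ with hG
  have hG0 : 0 ≤ G := norm_nonneg _
  have hs2 : √2 * Real.exp 1 ≤ 4 := by
    have a : √2 ≤ 1.4143 := by
      rw [Real.sqrt_le_left (by norm_num)]
      norm_num
    have b := Real.exp_one_lt_d9
    have c := Real.exp_pos 1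
    nlinarith [Real.sqrt_nonneg 2]
  have hs3 : √(2 * Real.pi) * (√2 * Real.exp 1) ≤ 10 := by
    have a : √(2 * Real.pi) * √2 ≤ 3.6 := by
      rw [← Real.sqrt_mul (by positivity), Real.sqrt_le_left (by norm_num)]
      have := Real.pi_lt_d2
      norm_num
      linarith
    have b := Real.exp_one_lt_d9
    have c := Real.exp_pos 1
    calc √(2 * Real.pi) * (√2 * Real.exp 1) = (√(2 * Real.pi) * √2) * Real.exp 1 := by ring
      _ ≤ 3.6 * 2.7182818286 := mul_le_mul a b.le c.le (by norm_num)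
      _ ≤ 10 := by norm_num
  rw [le_div_iff₀ (by positivity)]
  calc G * ((N : ℝ) + 1 + |τ|) ^ (N + 1)
      ≤ G * (Real.exp 1 ^ (N + 1) * PP |τ| (N + 1)) := mul_le_mul_of_nonneg_left hge hG0
    _ = Real.exp 1 ^ (N + 1) * (G * PP |τ| (N + 1)) := by ring
    _ ≤ Real.exp 1 ^ (N + 1) * (√2 ^ (N + 1) * ‖Complex.Gamma (1 / 2 + τ * Complex.I)‖) :=
        mul_le_mul_of_nonneg_left h1 (by positivity)
    _ ≤ Real.exp 1 ^ (N + 1) * (√2 ^ (N + 1) *
          (√(2 * Real.pi) * Real.exp (-(Real.pi * |τ| / 2)))) :=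
        mul_le_mul_of_nonneg_left (mul_le_mul_of_nonneg_left hh (by positivity)) (by positivity)
    _ = (√2 * Real.exp 1) ^ N * (√(2 * Real.pi) * (√2 * Real.exp 1)) *
          Real.exp (-(Real.pi * |τ| / 2)) := by
        rw [mul_pow]
        ring
    _ ≤ 4 ^ N * 10 * Real.exp (-(Real.pi * |τ| / 2)) := by
        apply mul_le_mul_of_nonneg_right _ (Real.exp_pos _).le
        exact mul_le_mul (pow_le_pow_left₀ (by positivity) hs2 N) hs3 (by positivity) (by positivity)
    _ = 10 * 4 ^ N * Real.exp (-(Real.pi * |τ| / 2)) := by ring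

end MP7ed9c3
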