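import Pool.Agent.Lib.MP_7ed9c3_nt.SpecG

/-!
# MP_7ed9c3_nt, module G2b: the Gamma function on vertical strips
-/

namespace MP7ed9c3

open MeasureTheory Set Filter Topology

namespace G2bM

lemma intg {a c : ℝ} (ha : -1 < a) (hc : 0 < c) :
    IntegrableOn (fun t : ℝ => t ^ a * Real.exp (-(c * t))) (Ioi 0) := by
  refine (integrableOn_rpow_mul_exp_neg_mul_rpow ha one_pos hc).congr_fun (fun t _ => ?_)
    measurableSet_Ioi
  simp only [Real.rpow_one, neg_mul]

lemma norm_term (a r : ℂ) {t : ℝ} (ht : 0 < t) :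
    ‖(t : ℂ) ^ a * Complex.exp (-(r * t))‖ = t ^ a.re * Real.exp (-(r.re * t)) := by
  rw [norm_mul, Complex.norm_cpow_eq_rpow_re_of_pos ht, Complex.norm_exp]
  congr 2
  simp

lemma meas (a r : ℂ) : Measurable fun t : ℝ => (t : ℂ) ^ a * Complex.exp (-(r * t)) := by
  refine (Complex.measurable_ofReal.pow_const a).mul ?_
  exact Complex.measurable_exp.comp ((measurable_const.mul Complex.measurable_ofReal).neg)

lemma hasDeriv {s r₀ : ℂ} (hs : 0 < s.re) (hr : 0 < r₀.re) :
    DifferentiableAt ℂ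
      (fun r => ∫ t : ℝ in Ioi 0, (t : ℂ) ^ (s - 1) * Complex.exp (-(r * t))) r₀ := by
  have hnhds : {r : ℂ | r₀.re / 2 < r.re} ∈ 𝓝 r₀ :=
    (isOpen_lt continuous_const Complex.continuous_re).mem_nhds
      (show r₀.re / 2 < r₀.re by linarith)
  have h := hasDerivAt_integral_of_dominated_loc_of_deriv_le (𝕜 := ℂ)
    (μ := volume.restrict (Ioi (0 : ℝ))) (x₀ := r₀)
    (F := fun r (t : ℝ) => (t : ℂ) ^ (s - 1) * Complex.exp (-(r * t)))
    (F' := fun r (t : ℝ) => (t : ℂ) ^ (s - 1) * (Complex.exp (-(r * t)) * (-(t : ℂ))))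
    (bound := fun t : ℝ => t ^ s.re * Real.exp (-(r₀.re / 2 * t))) hnhds
    (Eventually.of_forall fun r => (meas (s - 1) r).aestronglyMeasurable)
    ?_ ?_ ?_ ?_ ?_
  · exact h.2.differentiableAt
  · have h1 : IntegrableOn (fun t : ℝ => t ^ (s.re - 1) * Real.exp (-(r₀.re * t))) (Ioi 0) :=
      intg (by linarith) hr
    refine Integrable.mono' h1 (meas (s - 1) r₀).aestronglyMeasurable ?_
    filter_upwards [ae_restrict_mem measurableSet_Ioi] with t ht
    rw [norm_term _ _ ht]
    simp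
  · have e : (fun t : ℝ => (t : ℂ) ^ (s - 1) * (Complex.exp (-(r₀ * t)) * (-(t : ℂ)))) =
        fun t : ℝ => ((t : ℂ) ^ (s - 1) * Complex.exp (-(r₀ * t))) * (-(t : ℂ)) := by
      funext t; ring
    rw [e]
    exact ((meas (s - 1) r₀).mul Complex.measurable_ofReal.neg).aestronglyMeasurable
  · filter_upwards [ae_restrict_mem measurableSet_Ioi] with t ht r hr'
    have ht' : (0 : ℝ) < t := ht
    have hr'' : r₀.re / 2 < r.re := hr'
    rw [← mul_assoc, norm_mul, norm_term _ _ ht', norm_neg, Complex.norm_real,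
      Real.norm_of_nonneg ht'.le]
    have e : t ^ (s - 1).re * Real.exp (-(r.re * t)) * t =
        t ^ s.re * Real.exp (-(r.re * t)) := by
      rw [Complex.sub_re, Complex.one_re, Real.rpow_sub ht', Real.rpow_one]
      field_simp
    rw [e]
    refine mul_le_mul_of_nonneg_left (Real.exp_le_exp.mpr ?_) (by positivity)
    nlinarith
  · exact intg (by linarith) (by linarith)
  · filter_upwards [ae_restrict_mem measurableSet_Ioi] with t ht r hr'
    refine HasDerivAt.const_mul _ ?_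
    refine HasDerivAt.cexp ?_
    have h5 := ((hasDerivAt_id r).mul_const (t : ℂ)).neg
    rw [one_mul] at h5
    exact h5

/-- complex frequency -/
lemma gamma_int {s : ℂ} (hs : 0 < s.re) {r : ℂ} (hr : 0 < r.re) :
    ∫ t : ℝ in Ioi 0, (t : ℂ) ^ (s - 1) * Complex.exp (-(r * t)) =
      (1 / r) ^ s * Complex.Gamma s := by
  set U : Set ℂ := {r : ℂ | 0 < r.re} with hU
  have hUo : IsOpen U := isOpen_lt continuous_const Complex.continuous_re
  have hUc : IsPreconnected U := (convex_halfSpace_re_gt 0).isPreconnected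
  have d1 : DifferentiableOn ℂ
      (fun r => ∫ t : ℝ in Ioi 0, (t : ℂ) ^ (s - 1) * Complex.exp (-(r * t))) U :=
    fun r hr => (hasDeriv hs hr).differentiableWithinAt
  have d2 : DifferentiableOn ℂ (fun r : ℂ => (1 / r) ^ s * Complex.Gamma s) U := by
    intro r hr
    have hr' : 0 < r.re := hr
    have hr0 : r ≠ 0 := by
      rintro rfl
      simp at hr'
    have hd : DifferentiableAt ℂ (fun r : ℂ => 1 / r) r := by
      simp only [one_div]
      exact differentiableAt_inv hr0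
    refine ((hd.cpow_const ?_).mul_const _).differentiableWithinAt
    left
    rw [one_div, Complex.inv_re]
    exact div_pos hr' (Complex.normSq_pos.mpr hr0)
  have h1 : (1 : ℂ) ∈ U := by simp [hU]
  have hfreq : ∃ᶠ z in 𝓝[≠] (1 : ℂ),
      (∫ t : ℝ in Ioi 0, (t : ℂ) ^ (s - 1) * Complex.exp (-(z * t))) =
        (1 / z) ^ s * Complex.Gamma s := by
    have hseq : Tendsto (fun n : ℕ => ((1 + 1 / ((n : ℝ) + 1) : ℝ) : ℂ)) atTop (𝓝[≠] 1) := by
      rw [tendsto_nhdsWithin_iff]
      constructor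
      · have h2 : Tendsto (fun n : ℕ => (1 + 1 / ((n : ℝ) + 1) : ℝ)) atTop (𝓝 (1 + 0)) :=
          tendsto_const_nhds.add tendsto_one_div_add_atTop_nhds_zero_nat
        rw [add_zero] at h2
        have h3 := (Complex.continuous_ofReal.tendsto _).comp h2
        rw [Complex.ofReal_one] at h3
        exact h3
      · refine Eventually.of_forall fun n => ?_
        have : (1 + 1 / ((n : ℝ) + 1) : ℝ) ≠ 1 := by
          have : (0 : ℝ) < 1 / ((n : ℝ) + 1) := by positivity
          linarith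
        rw [mem_compl_iff, mem_singleton_iff]
        exact_mod_cast this
    refine hseq.frequently (Frequently.of_forall fun n => ?_)
    have hpos : (0 : ℝ) < 1 + 1 / ((n : ℝ) + 1) := by positivity
    exact Complex.integral_cpow_mul_exp_neg_mul_Ioi hs hpos
  exact (d1.analyticOnNhd hUo).eqOn_of_preconnected_of_frequently_eq (d2.analyticOnNhd hUo) hUc h1
    hfreq hr

end G2bM

theorem gammaStrip : GammaStrip := by
  intro σ τ φ hσ hφ hφ2
  obtain ⟨ψ, hψ1, hψ2⟩ : ∃ ψ : ℝ, |ψ| = φ ∧ ψ * τ = φ * |τ| := by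
    rcases le_total 0 τ with h | h
    · exact ⟨φ, abs_of_pos hφ, by rw [abs_of_nonneg h]⟩
    · exact ⟨-φ, by rw [abs_neg, abs_of_pos hφ], by rw [abs_of_nonpos h]; ring⟩
  have hpi := Real.pi_pos
  have hcos : Real.cos ψ = Real.cos φ := by rw [← Real.cos_abs, hψ1]
  have hcpos : 0 < Real.cos φ := Real.cos_pos_of_mem_Ioo ⟨by linarith, hφ2⟩
  set s : ℂ := (σ : ℂ) + τ * Complex.I with hs
  have hsre : s.re = σ := by simp [hs]
  set r : ℂ := Complex.exp (ψ * Complex.I) with hr
  have hrre : r.re = Real.cos φ := by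
    rw [hr, Complex.exp_ofReal_mul_I_re, hcos]
  have h1 := G2bM.gamma_int (s := s) (r := r) (by rw [hsre]; exact hσ)
    (by rw [hrre]; exact hcpos)
  have h2 : (1 / r) ^ s = Complex.exp (-(ψ * Complex.I) * s) := by
    have e : 1 / r = Complex.exp (-(ψ * Complex.I)) := by
      rw [Complex.exp_neg, one_div]
    rw [e, Complex.cpow_def_of_ne_zero (Complex.exp_ne_zero _), Complex.log_exp]
    · have : (-(ψ * Complex.I) : ℂ).im = -ψ := by simp
      rw [this]
      have := (abs_le.mp (le_of_eq hψ1)).2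
      linarith
    · have : (-(ψ * Complex.I) : ℂ).im = -ψ := by simp
      rw [this]
      have := (abs_le.mp (le_of_eq hψ1)).1
      linarith
  have h3 : ‖(1 / r) ^ s‖ = Real.exp (φ * |τ|) := by
    rw [h2, Complex.norm_exp]
    congr 1
    rw [← hψ2]
    simp [hs]
  have h4 : ‖∫ t : ℝ in Ioi 0, (t : ℂ) ^ (s - 1) * Complex.exp (-(r * t))‖ ≤
      ∫ t : ℝ in Ioi 0, t ^ (σ - 1) * Real.exp (-(Real.cos φ * t)) := by
    refine (norm_integral_le_integral_norm _).trans (le_of_eq ?_)
    refine setIntegral_congr_fun measurableSet_Ioi fun t ht => ?_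
    change ‖(t : ℂ) ^ (s - 1) * Complex.exp (-(r * t))‖ = _
    rw [G2bM.norm_term _ _ ht, Complex.sub_re, hsre, Complex.one_re, hrre]
  rw [Real.integral_rpow_mul_exp_neg_mul_Ioi hσ hcpos] at h4
  rw [h1, norm_mul, h3] at h4
  have h5 : (1 / Real.cos φ) ^ σ = Real.cos φ ^ (-σ) := by
    rw [one_div, Real.inv_rpow hcpos.le, Real.rpow_neg hcpos.le]
  rw [h5] at h4
  have h6 : Real.exp (-(φ * |τ|)) * Real.exp (φ * |τ|) = 1 := by
    rw [← Real.exp_add]; simp
  calc ‖Complex.Gamma s‖ = Real.exp (-(φ * |τ|)) * (Real.exp (φ * |τ|) * ‖Complex.Gamma s‖) := by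
        rw [← mul_assoc, h6, one_mul]
    _ ≤ Real.exp (-(φ * |τ|)) * (Real.cos φ ^ (-σ) * Real.Gamma σ) :=
        mul_le_mul_of_nonneg_left h4 (Real.exp_pos _).le
    _ = _ := by ring

end MP7ed9c3
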