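import Pool.Agent.Lib.MP_7ed9c3_nt.SpecG

/-!
# Mellin representation
-/

namespace MP7ed9c3

open MeasureTheory Filter Topology

namespace G3aux

theorem exp_bound (t : ℝ) : Real.exp (-(1 * |t|)) ≤ 2 * (1 + t ^ 2)⁻¹ := by
  have h1 := Real.quadratic_le_exp_of_nonneg (abs_nonneg t)
  have h2 : (0 : ℝ) < 1 + t ^ 2 := by positivity
  rw [one_mul, Real.exp_neg, ← div_eq_mul_inv, ← one_div, div_le_div_iff₀ (Real.exp_pos _) h2]
  have h3 : |t| ^ 2 = t ^ 2 := sq_abs t
  have h4 := abs_nonneg t
  nlinarith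

theorem gamma_continuous : Continuous fun τ : ℝ => Complex.Gamma (3 + τ * Complex.I) := by
  rw [continuous_iff_continuousAt]
  intro τ
  have h1 : ContinuousAt Complex.Gamma (3 + (τ : ℂ) * Complex.I) := by
    refine (Complex.differentiableAt_Gamma _ ?_).continuousAt
    intro m hm
    have := congrArg Complex.re hm
    simp at this
    have h2 : (0 : ℝ) ≤ m := Nat.cast_nonneg m
    linarith
  exact ContinuousAt.comp (f := fun τ : ℝ => (3 : ℂ) + τ * Complex.I) h1
    (by fun_prop)

theorem gamma_integrable (h : GammaStrip) :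
    Integrable fun τ : ℝ => Complex.Gamma (3 + τ * Complex.I) := by
  have hpi : (1 : ℝ) < Real.pi / 2 := by
    have := Real.pi_gt_three
    linarith
  refine Integrable.mono' ((integrable_inv_one_add_sq.const_mul
    (Real.Gamma 3 * Real.cos 1 ^ (-(3 : ℝ)) * 2))) gamma_continuous.aestronglyMeasurable ?_
  refine Eventually.of_forall fun τ => ?_
  have h1 := h 3 τ 1 (by norm_num) one_pos hpi
  have h2 : ((3 : ℝ) : ℂ) = 3 := by norm_num
  rw [h2] at h1
  refine h1.trans ?_
  have h3 : 0 ≤ Real.Gamma 3 * Real.cos 1 ^ (-(3 : ℝ)) := by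
    refine mul_nonneg (Real.Gamma_nonneg_of_nonneg (by norm_num)) (Real.rpow_nonneg ?_ _)
    exact Real.cos_one_pos.le
  calc Real.Gamma 3 * Real.cos 1 ^ (-(3 : ℝ)) * Real.exp (-(1 * |τ|))
      ≤ Real.Gamma 3 * Real.cos 1 ^ (-(3 : ℝ)) * (2 * (1 + τ ^ 2)⁻¹) :=
        mul_le_mul_of_nonneg_left (exp_bound τ) h3
    _ = _ := by ring

/-- the inversion formula for the exponential -/
theorem exp_eq (h : GammaStrip) (u : ℝ) (hu : 0 < u) :
    Complex.exp (-(u : ℂ)) = 1 / (2 * Real.pi) *
      ∫ τ : ℝ, Complex.Gamma (3 + τ * Complex.I) * (u : ℂ) ^ (-(3 + τ * Complex.I)) := by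
  have hm : ∀ s : ℂ, 0 < s.re → mellin (fun t : ℝ => ((Real.exp (-t) : ℝ) : ℂ)) s
      = Complex.Gamma s := by
    intro s hs
    rw [Complex.Gamma_eq_integral hs, Complex.GammaIntegral_eq_mellin]
  have hre : ∀ τ : ℝ, 0 < (((3 : ℝ) : ℂ) + τ * Complex.I).re := by
    intro τ
    simp
  have hinv := mellinInv_mellin_eq 3 (fun t : ℝ => ((Real.exp (-t) : ℝ) : ℂ)) hu
    (by
      have h1 : 0 < (((3 : ℝ) : ℂ)).re := by simp
      have h2 := Complex.GammaIntegral_convergent h1
      unfold MellinConvergent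
      refine h2.congr_fun ?_ measurableSet_Ioi
      intro t _
      simp only [smul_eq_mul]
      ring)
    (by
      unfold Complex.VerticalIntegrable
      have h1 : (fun y : ℝ => mellin (fun t : ℝ => ((Real.exp (-t) : ℝ) : ℂ))
          (((3 : ℝ) : ℂ) + y * Complex.I)) =
          fun τ : ℝ => Complex.Gamma (3 + τ * Complex.I) := by
        funext τ
        rw [hm _ (hre τ)]
        norm_num
      rw [h1]
      exact gamma_integrable h)
    (by fun_prop)
  have e1 : Complex.exp (-(u : ℂ)) = ((Real.exp (-u) : ℝ) : ℂ) := by push_cast; rfl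
  rw [e1, ← hinv]
  unfold mellinInv
  rw [Complex.real_smul]
  congr 1
  · push_cast
    rfl
  · refine integral_congr_ae (Eventually.of_forall fun τ => ?_)
    beta_reduce
    rw [hm _ (hre τ), smul_eq_mul, mul_comm]
    norm_num

end G3aux

open G3aux in
theorem mellinRep (h : GammaStrip) : MellinRep := by
  intro a ha0 hsum x hx
  have hx0 : (x : ℂ) ≠ 0 := by exact_mod_cast hx.ne'
  set H : ℝ → ℂ := fun τ => Complex.Gamma (3 + τ * Complex.I) *
    (x : ℂ) ^ (-(3 + τ * Complex.I)) with hH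
  have hnx : ∀ τ : ℝ, ‖(x : ℂ) ^ (-(3 + τ * Complex.I))‖ = x ^ (-(3 : ℝ)) := by
    intro τ
    rw [Complex.norm_cpow_eq_rpow_re_of_pos hx]
    simp
  have hcx : Continuous fun τ : ℝ => (x : ℂ) ^ (-(3 + τ * Complex.I)) := by
    refine Continuous.const_cpow (by fun_prop) (Or.inl hx0)
  have hHi : Integrable H := by
    refine Integrable.mono' ((gamma_integrable h).norm.mul_const (x ^ (-(3 : ℝ))))
      (gamma_continuous.mul hcx).aestronglyMeasurable ?_
    refine Eventually.of_forall fun τ => ?_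
    rw [hH]
    beta_reduce
    rw [norm_mul, hnx]
  set F : ℕ → ℝ → ℂ := fun n τ => a n * (n : ℂ) ^ (-(3 + τ * Complex.I)) * H τ with hF
  have hcn : ∀ n : ℕ, 1 ≤ n → Continuous fun τ : ℝ => (n : ℂ) ^ (-(3 + τ * Complex.I)) := by
    intro n hn
    refine Continuous.const_cpow (by fun_prop) (Or.inl ?_)
    exact_mod_cast (by omega : n ≠ 0)
  have hnn : ∀ (n : ℕ) (_ : 1 ≤ n) (τ : ℝ), ‖(n : ℂ) ^ (-(3 + τ * Complex.I))‖ =
      (n : ℝ) ^ (-(3 : ℝ)) := by
    intro n hn τ
    have hn' : (0 : ℝ) < n := by exact_mod_cast hn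
    have := Complex.norm_cpow_eq_rpow_re_of_pos hn' (-(3 + τ * Complex.I))
    rw [Complex.ofReal_natCast] at this
    rw [this]
    simp
  have hFn : ∀ (n : ℕ) (τ : ℝ), ‖F n τ‖ = ‖a n‖ * (n : ℝ) ^ (-(3 : ℝ)) * ‖H τ‖ := by
    intro n τ
    rw [hF]
    beta_reduce
    rw [norm_mul, norm_mul]
    rcases Nat.eq_zero_or_pos n with rfl | hn
    · simp [ha0]
    · rw [hnn n hn]
  have hFi : ∀ n, Integrable (F n) := by
    intro n
    rcases Nat.eq_zero_or_pos n with rfl | hn
    · have : F 0 = fun _ => 0 := by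
        funext τ
        rw [hF]
        simp [ha0]
      rw [this]
      exact integrable_zero _ _ _
    · refine Integrable.mono' ((hHi.norm.const_mul (‖a n‖ * (n : ℝ) ^ (-(3 : ℝ))))) ?_ ?_
      · rw [hF]
        beta_reduce
        exact ((continuous_const.mul (hcn n hn)).aestronglyMeasurable).mul
          hHi.aestronglyMeasurable
      · refine Eventually.of_forall fun τ => ?_
        rw [hFn]
  have hFs : Summable fun n => ∫ τ, ‖F n τ‖ := by
    have e1 : (fun n => ∫ τ, ‖F n τ‖) =
        fun n : ℕ => ‖a n‖ * (n : ℝ) ^ (-(3 : ℝ)) * ∫ τ, ‖H τ‖ := by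
      funext n
      rw [← integral_const_mul]
      exact integral_congr_ae (Eventually.of_forall fun τ => hFn n τ)
    rw [e1]
    refine Summable.mul_right _ ?_
    refine Summable.of_nonneg_of_le (fun n => by positivity) (fun n => ?_) hsum
    refine mul_le_mul_of_nonneg_left ?_ (norm_nonneg _)
    rcases Nat.eq_zero_or_pos n with rfl | hn
    · rw [Nat.cast_zero, Real.zero_rpow (by norm_num), Real.zero_rpow (by norm_num)]
    · have hn1 : (1 : ℝ) ≤ n := by exact_mod_cast hn
      exact Real.rpow_le_rpow_of_exponent_le hn1 (by norm_num)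
  have hkey := hasSum_integral_of_summable_integral_norm hFi hFs
  have hterm : ∀ n : ℕ, a n * Complex.exp (-(n * x : ℝ)) =
      1 / (2 * Real.pi) * ∫ τ, F n τ := by
    intro n
    rcases Nat.eq_zero_or_pos n with rfl | hn
    · have : F 0 = fun _ => 0 := by
        funext τ
        rw [hF]
        simp [ha0]
      rw [this, ha0]
      simp
    · have hn' : (0 : ℝ) < n := by exact_mod_cast hn
      have h1 := exp_eq h (n * x) (mul_pos hn' hx)
      rw [h1, ← mul_assoc, mul_comm (a n), mul_assoc, ← integral_const_mul]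
      congr 1
      refine integral_congr_ae (Eventually.of_forall fun τ => ?_)
      rw [hF, hH]
      beta_reduce
      rw [Complex.ofReal_mul, Complex.mul_cpow_ofReal_nonneg hn'.le hx.le,
        Complex.ofReal_natCast]
      ring
  have e2 : (fun n : ℕ => a n * Complex.exp (-(n * x : ℝ))) =
      fun n => 1 / (2 * (Real.pi : ℂ)) * ∫ τ, F n τ := by
    funext n
    exact hterm n
  rw [e2, tsum_mul_left, hkey.tsum_eq]
  congr 1
  refine integral_congr_ae (Eventually.of_forall fun τ => ?_)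
  rw [hF, hH]
  beta_reduce
  rw [tsum_mul_right, mul_assoc]

end MP7ed9c3
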