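import Pool.Agent.Lib.MP_7ed9c3_nt.SpecG

/-!
# MP_7ed9c3_nt, G4: shifting a vertical line of integration
-/

namespace MP7ed9c3

open Filter Topology MeasureTheory Complex

/-- The difference of the integrals over long vertical segments tends to zero. -/
theorem shift_tendsto {k : ℂ → ℂ} {a b : ℝ} (hab : a ≤ b) {B : ℝ → ℝ}
    (hk : DifferentiableOn ℂ k {s | a ≤ s.re ∧ s.re ≤ b})
    (hB : Tendsto B atTop (𝓝 0))
    (hkB : ∀ᶠ T : ℝ in atTop, ∀ s : ℂ, a ≤ s.re → s.re ≤ b → |s.im| = T → ‖k s‖ ≤ B T) :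
    Tendsto (fun T : ℝ => (∫ y in (-T)..T, k (b + y * I)) - ∫ y in (-T)..T, k (a + y * I))
      atTop (𝓝 0) := by
  have hrect : ∀ T : ℝ, (∫ y in (-T)..T, k (b + y * I)) - (∫ y in (-T)..T, k (a + y * I)) =
      I * ((∫ x in a..b, k (x + ((-T : ℝ) : ℂ) * I)) - ∫ x in a..b, k (x + ((T : ℝ) : ℂ) * I)) := by
    intro T
    have h := Complex.integral_boundary_rect_eq_zero_of_differentiableOn k
      ((a : ℂ) + ((-T : ℝ) : ℂ) * I) ((b : ℂ) + ((T : ℝ) : ℂ) * I) (by
        refine hk.mono ?_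
        intro s hs
        rw [mem_reProdIm] at hs
        simp only [add_re, ofReal_re, mul_re, I_re, mul_zero, ofReal_im, I_im, mul_one, sub_self,
          add_zero, Set.uIcc_of_le hab] at hs
        exact hs.1)
    simp only [add_re, ofReal_re, mul_re, I_re, mul_zero, ofReal_im, I_im, mul_one, sub_self,
      add_zero, add_im, mul_im, zero_add, smul_eq_mul] at h
    have hI : I * I = -1 := I_mul_I
    linear_combination (-I) * h + ((∫ y in (-T)..T, k (b + y * I)) -
      (∫ y in (-T)..T, k (a + y * I))) * hI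
  simp only [hrect]
  have hz : ∀ (σ : ℝ), (σ = 1 ∨ σ = -1) →
      Tendsto (fun T : ℝ => ∫ x in a..b, k (x + ((σ * T : ℝ) : ℂ) * I)) atTop (𝓝 0) := by
    intro σ hσ
    have h1 : Tendsto (fun T : ℝ => B T * |b - a|) atTop (𝓝 0) := by
      simpa using hB.mul_const |b - a|
    apply squeeze_zero_norm' _ h1
    filter_upwards [hkB, eventually_ge_atTop 0] with T hT hT0
    apply intervalIntegral.norm_integral_le_of_norm_le_const
    intro x hx
    rw [Set.uIoc_of_le hab] at hx
    apply hT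
    · simpa using hx.1.le
    · simpa using hx.2
    · rcases hσ with rfl | rfl <;> simp [abs_of_nonneg hT0]
  have h1 := hz (-1) (Or.inr rfl)
  have h2 := hz 1 (Or.inl rfl)
  simp only [neg_mul, one_mul] at h1 h2
  have h3 := (h1.sub h2).const_mul I
  simpa using h3

theorem exp_neg_abs_le (t : ℝ) : Real.exp (-|t|) ≤ 2 * (1 + t ^ 2)⁻¹ := by
  have h1 := Real.quadratic_le_exp_of_nonneg (abs_nonneg t)
  have h2 : (1 + t ^ 2) / 2 ≤ Real.exp |t| := by
    rw [sq_abs] at h1
    nlinarith [abs_nonneg t]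
  rw [Real.exp_neg]
  have h3 : 0 < (1 + t ^ 2) / 2 := by positivity
  calc (Real.exp |t|)⁻¹ ≤ ((1 + t ^ 2) / 2)⁻¹ := inv_anti₀ h3 h2
    _ = 2 * (1 + t ^ 2)⁻¹ := by rw [inv_div]; ring

theorem integrable_of_exp_bound {f : ℝ → ℂ} (hf : Continuous f) {C : ℝ}
    (hC : ∀ t, ‖f t‖ ≤ C * Real.exp (-|t|)) : Integrable f := by
  have hC0 : 0 ≤ C := by
    have := (norm_nonneg _).trans (hC 0)
    simpa using this
  refine Integrable.mono' (integrable_inv_one_add_sq.const_mul (2 * C)) hf.aestronglyMeasurable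
    (Eventually.of_forall fun t => ?_)
  refine (hC t).trans ?_
  have := mul_le_mul_of_nonneg_left (exp_neg_abs_le t) hC0
  linarith

theorem vert_continuous {k : ℂ → ℂ} {U : Set ℂ} (hU : IsOpen U) (hk : DifferentiableOn ℂ k U)
    {σ : ℝ} (hσ : ∀ τ : ℝ, (σ : ℂ) + τ * I ∈ U) : Continuous fun τ : ℝ => k ((σ : ℂ) + τ * I) := by
  rw [continuous_iff_continuousAt]
  intro τ
  have h1 : ContinuousAt k ((σ : ℂ) + τ * I) :=
    ((hk _ (hσ τ)).differentiableAt (hU.mem_nhds (hσ τ))).continuousAt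
  have h2 : ContinuousAt (fun τ : ℝ => (σ : ℂ) + τ * I) τ := by fun_prop
  exact ContinuousAt.comp (f := fun τ : ℝ => (σ : ℂ) + τ * I) h1 h2

theorem tendsto_poisson :
    Tendsto (fun T : ℝ => ∫ y in (-T)..T, ((1 / (1 / 4 + y ^ 2) : ℝ) : ℂ)) atTop
      (𝓝 (2 * Real.pi)) := by
  have h1 : ∀ y : ℝ, 1 / (1 / 4 + y ^ 2) = 4 * (1 + (2 * y) ^ 2)⁻¹ := by
    intro y
    have : (0 : ℝ) < 1 + (2 * y) ^ 2 := by positivity
    field_simp
    ring
  have h2 : Integrable fun y : ℝ => 1 / (1 / 4 + y ^ 2) := by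
    simp only [h1]
    exact (integrable_inv_one_add_sq.comp_mul_left' (by norm_num : (2 : ℝ) ≠ 0)).const_mul 4
  have h3 : ∫ y : ℝ, 1 / (1 / 4 + y ^ 2) = 2 * Real.pi := by
    simp only [h1]
    rw [integral_const_mul, Measure.integral_comp_mul_left (fun x : ℝ => (1 + x ^ 2)⁻¹) 2,
      integral_univ_inv_one_add_sq]
    simp
    ring
  have h2' : Integrable fun y : ℝ => ((1 / (1 / 4 + y ^ 2) : ℝ) : ℂ) := h2.ofReal
  have h4 := intervalIntegral_tendsto_integral h2' tendsto_neg_atTop_atBot tendsto_id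
  have h5 : ∫ y : ℝ, ((1 / (1 / 4 + y ^ 2) : ℝ) : ℂ) = 2 * Real.pi := by
    rw [integral_complex_ofReal, h3]; push_cast; ring
  rw [← h5]
  exact h4

theorem lineShift : LineShift := by
  refine ⟨?_, ?_⟩
  · intro g σ₁ σ₂ δ C hσ hδ hg hC
    have hsub : ∀ s : ℂ, σ₁ ≤ s.re → s.re ≤ σ₂ → s ∈ {s : ℂ | σ₁ - δ < s.re ∧ s.re < σ₂ + δ} :=
      fun s h1 h2 => ⟨by linarith, by linarith⟩
    have hopen : IsOpen {s : ℂ | σ₁ - δ < s.re ∧ s.re < σ₂ + δ} :=
      (isOpen_lt continuous_const continuous_re).inter (isOpen_lt continuous_re continuous_const)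
    have hint : ∀ σ : ℝ, σ₁ ≤ σ → σ ≤ σ₂ → Integrable fun τ : ℝ => g ((σ : ℂ) + τ * I) := by
      intro σ h1 h2
      refine integrable_of_exp_bound (vert_continuous hopen hg fun τ => hsub _ ?_ ?_) (C := C)
        fun τ => ?_
      · simpa using h1
      · simpa using h2
      · have := hC ((σ : ℂ) + τ * I) (by simpa using h1) (by simpa using h2)
        simpa using this
    have hT := shift_tendsto (k := g) hσ.le (B := fun T => C * Real.exp (-T))
      (hg.mono fun s hs => hsub s hs.1 hs.2)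
      (by simpa using (Real.tendsto_exp_neg_atTop_nhds_zero).const_mul C)
      (Eventually.of_forall fun T s h1 h2 h3 => by
        have := hC s h1 h2
        rwa [h3] at this)
    have h1 := (intervalIntegral_tendsto_integral (hint σ₂ hσ.le le_rfl) tendsto_neg_atTop_atBot
      tendsto_id).sub (intervalIntegral_tendsto_integral (hint σ₁ le_rfl hσ.le)
      tendsto_neg_atTop_atBot tendsto_id)
    have h2 := tendsto_nhds_unique h1 hT
    exact (sub_eq_zero.1 h2).symm
  · intro h C hh hC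
    have hC0 : 0 ≤ C := by
      have := (norm_nonneg _).trans (hC 0 (by simp))
      simpa using this
    have hopen : IsOpen {s : ℂ | |s.re| < 1} :=
      isOpen_lt (continuous_abs.comp continuous_re) continuous_const
    have h0 : {s : ℂ | |s.re| < 1} ∈ 𝓝 (0 : ℂ) := hopen.mem_nhds (by simp)
    have hk : DifferentiableOn ℂ (dslope h 0) {s : ℂ | |s.re| < 1} :=
      (Complex.differentiableOn_dslope h0).2 hh
    have hkeq : ∀ s : ℂ, s ≠ 0 → dslope h 0 s = h s / s - h 0 / s := by
      intro s hs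
      rw [dslope_of_ne _ hs, slope_def_field]
      ring
    have hT := shift_tendsto (k := dslope h 0) (a := -(1 / 2)) (b := 1 / 2) (by norm_num)
      (B := fun T => C * Real.exp (-T) * T⁻¹ + ‖h 0‖ * T⁻¹)
      (hk.mono fun s hs => by
        have h1 : |s.re| ≤ 1 / 2 := abs_le.2 ⟨by linarith [hs.1], hs.2⟩
        show |s.re| < 1
        linarith)
      (by
        have h1 := (((Real.tendsto_exp_neg_atTop_nhds_zero).const_mul C).mul
          tendsto_inv_atTop_zero).add (tendsto_inv_atTop_zero.const_mul ‖h 0‖)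
        simpa using h1)
      (by
        filter_upwards [eventually_gt_atTop 0] with T hT0 s h1 h2 h3
        have hs : s ≠ 0 := by
          rintro rfl
          simp at h3
          linarith
        have hre : |s.re| ≤ 1 / 2 := abs_le.2 ⟨by linarith, h2⟩
        have hTs : T ≤ ‖s‖ := by rw [← h3]; exact abs_im_le_norm s
        have hs0 : 0 < ‖s‖ := norm_pos_iff.2 hs
        have hinv : ‖s‖⁻¹ ≤ T⁻¹ := inv_anti₀ hT0 hTs
        rw [hkeq s hs]
        refine (norm_sub_le _ _).trans ?_
        rw [norm_div, norm_div, div_eq_mul_inv, div_eq_mul_inv]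
        have h4 := hC s hre
        rw [h3] at h4
        exact add_le_add (mul_le_mul h4 hinv (by positivity) (by positivity))
          (mul_le_mul_of_nonneg_left hinv (norm_nonneg _)))
    have hsne : ∀ (σ : ℝ), σ ≠ 0 → ∀ y : ℝ, (σ : ℂ) + y * I ≠ 0 := by
      intro σ hσ y hy
      apply hσ
      have := congrArg Complex.re hy
      simpa using this
    have hcont : ∀ σ : ℝ, |σ| = 1 / 2 → Continuous fun y : ℝ => h ((σ : ℂ) + y * I) :=
      fun σ hσ => vert_continuous hopen hh fun τ => by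
        show |((σ : ℂ) + τ * I).re| < 1
        simp [hσ]
        norm_num
    have hσ0 : ∀ σ : ℝ, |σ| = 1 / 2 → σ ≠ 0 := by
      rintro σ hσ rfl
      simp at hσ
    have hcontd : ∀ σ : ℝ, |σ| = 1 / 2 →
        Continuous fun y : ℝ => h ((σ : ℂ) + y * I) / ((σ : ℂ) + y * I) := fun σ hσ =>
      (hcont σ hσ).div (by fun_prop) (hsne σ (hσ0 σ hσ))
    have hint : ∀ σ : ℝ, |σ| = 1 / 2 →
        Integrable fun y : ℝ => h ((σ : ℂ) + y * I) / ((σ : ℂ) + y * I) := by
      intro σ hσ
      refine integrable_of_exp_bound (hcontd σ hσ) (C := 2 * C) fun y => ?_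
      rw [norm_div]
      have h1 := hC ((σ : ℂ) + y * I) (by simp [hσ])
      have h2 : 1 / 2 ≤ ‖(σ : ℂ) + y * I‖ := by
        rw [← hσ]
        have := abs_re_le_norm ((σ : ℂ) + y * I)
        simpa using this
      have h3 : ((σ : ℂ) + y * I).im = y := by simp
      rw [h3] at h1
      rw [div_le_iff₀ (by linarith)]
      have h4 : 0 ≤ C * Real.exp (-|y|) := by positivity
      nlinarith
    have hv : Tendsto (fun T : ℝ =>
        ((∫ y in (-T)..T, h (((1 / 2 : ℝ) : ℂ) + y * I) / (((1 / 2 : ℝ) : ℂ) + y * I)) -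
        ∫ y in (-T)..T, h (((-(1 / 2) : ℝ) : ℂ) + y * I) / (((-(1 / 2) : ℝ) : ℂ) + y * I)) -
        h 0 * ∫ y in (-T)..T, ((1 / (1 / 4 + y ^ 2) : ℝ) : ℂ)) atTop (𝓝 0) := by
      refine hT.congr fun T => ?_
      rw [← intervalIntegral.integral_const_mul, ← intervalIntegral.integral_sub,
        ← intervalIntegral.integral_sub, ← intervalIntegral.integral_sub]
      · apply intervalIntegral.integral_congr
        intro y _
        simp only
        rw [hkeq _ (hsne _ (by norm_num) y), hkeq _ (hsne _ (by norm_num) y)]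
        have e1 : ((1 / 2 : ℝ) : ℂ) + y * I ≠ 0 := hsne _ (by norm_num) y
        have e2 : ((-(1 / 2) : ℝ) : ℂ) + y * I ≠ 0 := hsne _ (by norm_num) y
        have e3 : (((1 / 2 : ℝ) : ℂ) + y * I) * (((-(1 / 2) : ℝ) : ℂ) + y * I) =
            -((1 / 4 + y ^ 2 : ℝ) : ℂ) := by
          push_cast
          linear_combination (y : ℂ) ^ 2 * I_sq
        have e4 : ((1 / 4 + y ^ 2 : ℝ) : ℂ) ≠ 0 := by
          have : (0 : ℝ) < 1 / 4 + y ^ 2 := by positivity
          exact_mod_cast this.ne'
        have e5 : 1 / (((1 / 2 : ℝ) : ℂ) + y * I) - 1 / (((-(1 / 2) : ℝ) : ℂ) + y * I) =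
            1 / ((1 / 4 + y ^ 2 : ℝ) : ℂ) := by
          rw [div_sub_div _ _ e1 e2, e3, div_eq_div_iff (neg_ne_zero.2 e4) e4]
          push_cast
          ring
        have e6 : ((1 / (1 / 4 + y ^ 2) : ℝ) : ℂ) = 1 / ((1 / 4 + y ^ 2 : ℝ) : ℂ) := by
          push_cast; ring
        rw [e6, ← e5]
        ring
      · exact ((hcontd _ (by norm_num)).sub (hcontd _ (by norm_num))).intervalIntegrable _ _
      · refine (Continuous.intervalIntegrable ?_ _ _)
        refine continuous_const.mul (continuous_ofReal.comp ?_)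
        exact continuous_const.div (by fun_prop) fun y => by positivity
      · exact (hcontd _ (by norm_num)).intervalIntegrable _ _
      · exact (hcontd _ (by norm_num)).intervalIntegrable _ _
      · exact (vert_continuous hopen hk fun τ => by
          show |((((1 / 2 : ℝ) : ℂ)) + τ * I).re| < 1
          norm_num).intervalIntegrable _ _
      · exact (vert_continuous hopen hk fun τ => by
          show |((((-(1 / 2) : ℝ) : ℂ)) + τ * I).re| < 1
          norm_num).intervalIntegrable _ _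
    have hlim := (((intervalIntegral_tendsto_integral (hint (1 / 2) (by norm_num))
      tendsto_neg_atTop_atBot tendsto_id).sub
      (intervalIntegral_tendsto_integral (hint (-(1 / 2)) (by norm_num))
      tendsto_neg_atTop_atBot tendsto_id))).sub (tendsto_poisson.const_mul (h 0))
    have h2 := tendsto_nhds_unique hlim hv
    have hpi : (Real.pi : ℂ) ≠ 0 := by exact_mod_cast Real.pi_ne_zero
    push_cast at h2
    rw [sub_eq_zero] at h2
    rw [← mul_sub, h2]
    field_simp

end MP7ed9c3
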