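import Pool.Agent.Lib.MP_7ed9c3_nt.SpecG

/-!
# MP_7ed9c3_nt: G5, analyticity of the exponential series at `0`
-/

namespace MP7ed9c3

open Filter Topology MeasureTheory

/-- `F` is bounded for `Re s ≥ 2`. -/
lemma g5_bdd (b : ℕ → ℂ) (F : ℂ → ℂ) (hb0 : b 0 = 0)
    (hs : Summable (fun n : ℕ => ‖b n‖ * (n : ℝ) ^ (-(2 : ℝ))))
    (hF : ∀ s : ℂ, 2 ≤ s.re → F s = ∑' n : ℕ, b n * (n : ℂ) ^ (-s)) :
    ∀ s : ℂ, 2 ≤ s.re → ‖F s‖ ≤ ∑' n : ℕ, ‖b n‖ * (n : ℝ) ^ (-(2 : ℝ)) := by
  intro s h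
  rw [hF s h]
  have key : ∀ n : ℕ, ‖b n * (n : ℂ) ^ (-s)‖ ≤ ‖b n‖ * (n : ℝ) ^ (-(2 : ℝ)) := by
    intro n
    rcases Nat.eq_zero_or_pos n with rfl | hn
    · simp [hb0]
    · rw [norm_mul, Complex.norm_natCast_cpow_of_pos hn]
      have h1 : (1 : ℝ) ≤ n := by exact_mod_cast hn
      have h2 : (n : ℝ) ^ (-s).re ≤ (n : ℝ) ^ (-(2 : ℝ)) := by
        apply Real.rpow_le_rpow_of_exponent_le h1
        simp only [Complex.neg_re]
        linarith
      exact mul_le_mul_of_nonneg_left h2 (norm_nonneg _)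
  exact tsum_of_norm_bounded hs.hasSum key

lemma g5_pow_exp (m : ℕ) (a t : ℝ) (ha : 0 ≤ a) (ht : 0 ≤ t) :
    (a + t) ^ m ≤ (8 ^ m * (m.factorial : ℝ) * Real.exp (a / 8)) * Real.exp (t / 8) := by
  have h := Real.pow_div_factorial_le_exp ((a + t) / 8) (by positivity) m
  have hm : (0 : ℝ) < m.factorial := by exact_mod_cast Nat.factorial_pos m
  rw [div_le_iff₀ hm, div_pow, div_le_iff₀ (by positivity)] at h
  have e : Real.exp ((a + t) / 8) = Real.exp (a / 8) * Real.exp (t / 8) := by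
    rw [← Real.exp_add]; congr 1; ring
  rw [e] at h
  calc (a + t) ^ m ≤ _ := h
    _ = _ := by ring

lemma g5_norm_two_sub (s : ℂ) : ‖2 - s‖ ≤ |2 - s.re| + |s.im| := by
  have := Complex.norm_le_abs_re_add_abs_im (2 - s)
  simpa using this

/-- The left half plane bound, with powers. -/
lemma g5_left (F : ℂ → ℂ) (R' : ℝ) (hR : 0 ≤ R')
    (h1 : ∀ s : ℂ, s.re ≤ 2 →
      ‖F s‖ ≤ Real.exp ((3 - s.re) * Real.log (1 + ‖2 - s‖) + R' * (3 - s.re)))
    (m : ℕ) (s : ℂ) (y : ℝ) (hs : s.re ≤ 2) (hm : 3 - s.re ≤ m) (hy : 1 + ‖2 - s‖ ≤ y) :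
    ‖F s‖ ≤ y ^ m * Real.exp (R' * (3 - s.re)) := by
  have h0 : 0 ≤ ‖2 - s‖ := norm_nonneg _
  have hy1 : 1 ≤ y := by linarith
  have hlog : Real.log (1 + ‖2 - s‖) ≤ Real.log y := Real.log_le_log (by linarith) hy
  have hlog0 : 0 ≤ Real.log y := Real.log_nonneg hy1
  have h3 : (0 : ℝ) ≤ 3 - s.re := by linarith
  calc ‖F s‖ ≤ _ := h1 s hs
    _ ≤ Real.exp (m * Real.log y + R' * (3 - s.re)) := by
        apply Real.exp_le_exp.mpr
        have : (3 - s.re) * Real.log (1 + ‖2 - s‖) ≤ m * Real.log y :=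
          (mul_le_mul_of_nonneg_left hlog h3).trans (mul_le_mul_of_nonneg_right hm hlog0)
        linarith
    _ = _ := by
        rw [Real.exp_add, mul_comm (m : ℝ), Real.exp_mul, Real.exp_log (by linarith),
          Real.rpow_natCast]

/-- Subexponential bound in right half planes. -/
lemma g5_strip (F : ℂ → ℂ) (R' B : ℝ) (hR : 0 ≤ R')
    (h1 : ∀ s : ℂ, s.re ≤ 2 →
      ‖F s‖ ≤ Real.exp ((3 - s.re) * Real.log (1 + ‖2 - s‖) + R' * (3 - s.re)))
    (h2 : ∀ s : ℂ, 2 ≤ s.re → ‖F s‖ ≤ B) (m : ℕ) :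
    ∃ C : ℝ, 0 ≤ C ∧ ∀ s : ℂ, -(m : ℝ) ≤ s.re → ‖F s‖ ≤ C * Real.exp (|s.im| / 8) := by
  have hB : 0 ≤ B := (norm_nonneg _).trans (h2 2 (by simp))
  refine ⟨B + (8 ^ (m + 3) * ((m + 3).factorial : ℝ) * Real.exp (((m : ℝ) + 3) / 8)) *
    Real.exp (R' * (m + 3)), by positivity, ?_⟩
  intro s hs
  have he : 1 ≤ Real.exp (|s.im| / 8) := Real.one_le_exp (by positivity)
  have hpos : 0 ≤ (8 ^ (m + 3) * ((m + 3).factorial : ℝ) * Real.exp (((m : ℝ) + 3) / 8)) *
    Real.exp (R' * (m + 3)) := by positivity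
  rcases le_total s.re 2 with h | h
  · have hy : 1 + ‖2 - s‖ ≤ ((m : ℝ) + 3) + |s.im| := by
      have := g5_norm_two_sub s
      rw [abs_of_nonneg (by linarith : (0 : ℝ) ≤ 2 - s.re)] at this
      linarith
    have h3 := g5_left F R' hR h1 (m + 3) s _ h (by push_cast; linarith) hy
    have h4 := g5_pow_exp (m + 3) ((m : ℝ) + 3) |s.im| (by positivity) (abs_nonneg _)
    have h5 : Real.exp (R' * (3 - s.re)) ≤ Real.exp (R' * (m + 3)) := by
      apply Real.exp_le_exp.mpr
      apply mul_le_mul_of_nonneg_left _ hR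
      linarith
    calc ‖F s‖ ≤ _ := h3
      _ ≤ ((8 ^ (m + 3) * ((m + 3).factorial : ℝ) * Real.exp (((m : ℝ) + 3) / 8)) *
          Real.exp (|s.im| / 8)) * Real.exp (R' * (m + 3)) := by
          apply mul_le_mul h4 h5 (Real.exp_nonneg _) (by positivity)
      _ = ((8 ^ (m + 3) * ((m + 3).factorial : ℝ) * Real.exp (((m : ℝ) + 3) / 8)) *
          Real.exp (R' * (m + 3))) * Real.exp (|s.im| / 8) := by ring
      _ ≤ _ := by
          apply mul_le_mul_of_nonneg_right _ (Real.exp_nonneg _)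
          linarith
  · calc ‖F s‖ ≤ B := h2 s h
      _ ≤ (B + (8 ^ (m + 3) * ((m + 3).factorial : ℝ) * Real.exp (((m : ℝ) + 3) / 8)) *
          Real.exp (R' * (m + 3))) * 1 := by linarith
      _ ≤ _ := by
          apply mul_le_mul_of_nonneg_left he
          linarith

lemma g5_pi : (5 / 4 : ℝ) < Real.pi / 2 := by
  have := Real.pi_gt_three; linarith

/-- The Gamma function in the strip `1/2 ≤ Re s ≤ 3`. -/
lemma g5_gamma (g2b : GammaStrip) :
    ∃ C : ℝ, 0 ≤ C ∧ ∀ s : ℂ, 1 / 2 ≤ s.re → s.re ≤ 3 →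
      ‖Complex.Gamma s‖ ≤ C * Real.exp (-(5 / 4 * |s.im|)) := by
  have hcont : ContinuousOn Real.Gamma (Set.Icc (1 / 2 : ℝ) 3) := by
    intro x hx
    apply ContinuousAt.continuousWithinAt
    apply (Real.differentiableAt_Gamma _).continuousAt
    intro m hm
    have : (0 : ℝ) ≤ m := Nat.cast_nonneg m
    have := hx.1
    linarith
  obtain ⟨C0, hC0⟩ := isCompact_Icc.exists_bound_of_continuousOn hcont
  have hcos : 0 < Real.cos (5 / 4) := Real.cos_pos_of_mem_Ioo ⟨by linarith [g5_pi], g5_pi⟩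
  have hC0' : 0 ≤ C0 := (norm_nonneg _).trans (hC0 1 (by constructor <;> norm_num))
  refine ⟨C0 * Real.cos (5 / 4) ^ (-(3 : ℝ)), by positivity, ?_⟩
  intro s h1 h2
  have h := g2b s.re s.im (5 / 4) (by linarith) (by norm_num) g5_pi
  rw [Complex.re_add_im] at h
  have hG : Real.Gamma s.re ≤ C0 := (le_abs_self _).trans (hC0 s.re ⟨h1, h2⟩)
  have hG0 : 0 ≤ Real.Gamma s.re := (Real.Gamma_pos_of_pos (by linarith)).le
  have hc : Real.cos (5 / 4) ^ (-s.re) ≤ Real.cos (5 / 4) ^ (-(3 : ℝ)) :=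
    Real.rpow_le_rpow_of_exponent_ge hcos (Real.cos_le_one _) (by linarith)
  calc _ ≤ _ := h
    _ ≤ _ := by
      apply mul_le_mul_of_nonneg_right _ (Real.exp_nonneg _)
      exact mul_le_mul hG hc (Real.rpow_nonneg hcos.le _) hC0'

/-- The Mellin kernel. -/
noncomputable def g5K (F : ℂ → ℂ) (x : ℝ) (s : ℂ) : ℂ :=
  F s * Complex.Gamma s * (x : ℂ) ^ (-s)

/-- The Mellin integral over the line `Re s = σ`. -/
noncomputable def g5J (F : ℂ → ℂ) (x σ : ℝ) : ℂ :=
  1 / (2 * Real.pi) * ∫ τ : ℝ, g5K F x ((σ : ℂ) + τ * Complex.I)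

lemma g5_exp_comb (C C' t : ℝ) (hC : 0 ≤ C) (hC' : 0 ≤ C') (ht : 0 ≤ t) :
    (C * Real.exp (t / 8)) * (C' * Real.exp (-(5 / 4 * t))) ≤ C * C' * Real.exp (-t) := by
  have : Real.exp (t / 8) * Real.exp (-(5 / 4 * t)) ≤ Real.exp (-t) := by
    rw [← Real.exp_add]
    apply Real.exp_le_exp.mpr
    linarith
  calc _ = (C * C') * (Real.exp (t / 8) * Real.exp (-(5 / 4 * t))) := by ring
    _ ≤ _ := mul_le_mul_of_nonneg_left this (by positivity)

lemma g5_gamma_diff (s : ℂ) (hs : 0 < s.re) : DifferentiableAt ℂ Complex.Gamma s := by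
  apply Complex.differentiableAt_Gamma
  intro m hm
  rw [hm] at hs
  simp only [Complex.neg_re, Complex.natCast_re] at hs
  have : (0 : ℝ) ≤ m := Nat.cast_nonneg m
  linarith

/-- Shift from `3` to `1/2`. -/
lemma g5_shift0 (g4 : LineShift) (g2b : GammaStrip) (F : ℂ → ℂ) (hF : Differentiable ℂ F)
    (hstrip : ∀ m : ℕ, ∃ C : ℝ, 0 ≤ C ∧ ∀ s : ℂ, -(m : ℝ) ≤ s.re →
      ‖F s‖ ≤ C * Real.exp (|s.im| / 8))
    (x : ℝ) (hx : 0 < x) (hx1 : x < 1) : g5J F x 3 = g5J F x (1 / 2) := by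
  obtain ⟨C, hC, hCs⟩ := hstrip 0
  obtain ⟨C', hC', hCs'⟩ := g5_gamma g2b
  have hxc : (x : ℂ) ≠ 0 := by exact_mod_cast hx.ne'
  unfold g5J
  congr 1
  symm
  refine g4.1 (g5K F x) (1 / 2) 3 (1 / 4) (C * C' * x ^ (-(3 : ℝ))) (by norm_num) (by norm_num)
    ?_ ?_
  · intro s hs
    apply DifferentiableAt.differentiableWithinAt
    have hs1 : 0 < s.re := by
      have := hs.1
      linarith
    unfold g5K
    apply DifferentiableAt.mul
    · exact (hF s).mul (g5_gamma_diff s hs1)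
    · exact DifferentiableAt.const_cpow differentiableAt_id.neg (Or.inl hxc)
  · intro s hs1 hs2
    unfold g5K
    rw [norm_mul, norm_mul, Complex.norm_cpow_eq_rpow_re_of_pos hx]
    have e1 := hCs s (by simp; linarith)
    have e2 := hCs' s hs1 hs2
    have e3 : x ^ (-s).re ≤ x ^ (-(3 : ℝ)) := by
      apply Real.rpow_le_rpow_of_exponent_ge hx hx1.le
      simp only [Complex.neg_re]
      linarith
    have e4 : ‖F s‖ * ‖Complex.Gamma s‖ ≤ C * C' * Real.exp (-|s.im|) :=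
      (mul_le_mul e1 e2 (norm_nonneg _) (by positivity)).trans
        (g5_exp_comb C C' _ hC hC' (abs_nonneg _))
    calc _ ≤ (C * C' * Real.exp (-|s.im|)) * x ^ (-(3 : ℝ)) :=
          mul_le_mul e4 e3 (Real.rpow_nonneg hx.le _) (by positivity)
      _ = _ := by ring

/-- The product `(w-1)⋯(w-k)`. -/
noncomputable def g5P (k : ℕ) (w : ℂ) : ℂ := ∏ j ∈ Finset.range k, (w - (j + 1))

lemma g5_gamma_prod (k : ℕ) (w : ℂ) (hw : |w.re| < 1) (hw0 : w ≠ 0) :
    Complex.Gamma (w + 1) = w * g5P k w * Complex.Gamma (w - k) := by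
  induction k with
  | zero => simp [g5P, Complex.Gamma_add_one w hw0]
  | succ k ih =>
    rw [ih]
    have hne : w - ((k : ℂ) + 1) ≠ 0 := by
      intro h
      have h' := congrArg Complex.re h
      simp only [Complex.sub_re, Complex.add_re, Complex.natCast_re, Complex.one_re,
        Complex.zero_re] at h'
      have : (0 : ℝ) ≤ k := Nat.cast_nonneg k
      have := (abs_lt.mp hw).2
      linarith
    have h1 : Complex.Gamma (w - k) = (w - ((k : ℂ) + 1)) * Complex.Gamma (w - ((k : ℂ) + 1)) := by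
      rw [← Complex.Gamma_add_one _ hne]
      congr 1
      ring
    have h2 : g5P (k + 1) w = g5P k w * (w - ((k : ℂ) + 1)) := by
      unfold g5P
      rw [Finset.prod_range_succ]
    rw [h1, h2]
    push_cast
    ring

lemma g5P_zero (k : ℕ) : g5P k 0 = (-1) ^ k * (k.factorial : ℂ) := by
  induction k with
  | zero => simp [g5P]
  | succ k ih =>
    have h2 : g5P (k + 1) 0 = g5P k 0 * (0 - ((k : ℂ) + 1)) := by
      unfold g5P
      rw [Finset.prod_range_succ]
    rw [h2, ih, Nat.factorial_succ]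
    push_cast
    ring

lemma g5P_bound (k : ℕ) (w : ℂ) (hw : |w.re| ≤ 1 / 2) : (1 / 2 : ℝ) ^ k ≤ ‖g5P k w‖ := by
  unfold g5P
  rw [norm_prod, ← Finset.card_range k, ← Finset.prod_const, Finset.card_range]
  apply Finset.prod_le_prod
  · intro i _; norm_num
  · intro i _
    have h := Complex.abs_re_le_norm (w - ((i : ℂ) + 1))
    simp only [Complex.sub_re, Complex.add_re, Complex.natCast_re, Complex.one_re] at h
    have h1 := (abs_le.mp hw).2
    have h2 : (0 : ℝ) ≤ i := Nat.cast_nonneg i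
    have h3 : (1 / 2 : ℝ) ≤ |w.re - (i + 1)| := by
      rw [abs_of_neg (by linarith)]
      linarith
    linarith

lemma g5P_ne (k : ℕ) (w : ℂ) (hw : |w.re| < 1) : g5P k w ≠ 0 := by
  unfold g5P
  rw [Finset.prod_ne_zero_iff]
  intro i _ h
  have h' := congrArg Complex.re h
  simp only [Complex.sub_re, Complex.add_re, Complex.natCast_re, Complex.one_re,
    Complex.zero_re] at h'
  have : (0 : ℝ) ≤ i := Nat.cast_nonneg i
  have := (abs_lt.mp hw).2
  linarith

/-- The numerator function at the pole `-k`. -/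
noncomputable def g5h (F : ℂ → ℂ) (x : ℝ) (k : ℕ) (w : ℂ) : ℂ :=
  F (w - k) * Complex.Gamma (w + 1) * (x : ℂ) ^ ((k : ℂ) - w) / g5P k w

lemma g5h_div (F : ℂ → ℂ) (x : ℝ) (k : ℕ) (w : ℂ) (hw : |w.re| < 1) (hw0 : w ≠ 0) :
    g5h F x k w / w = g5K F x (w - k) := by
  unfold g5h g5K
  rw [g5_gamma_prod k w hw hw0, neg_sub]
  have := g5P_ne k w hw
  field_simp

/-- Passing the pole `-k`. -/
lemma g5_shift (g4 : LineShift) (g2b : GammaStrip) (F : ℂ → ℂ) (hF : Differentiable ℂ F)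
    (hstrip : ∀ m : ℕ, ∃ C : ℝ, 0 ≤ C ∧ ∀ s : ℂ, -(m : ℝ) ≤ s.re →
      ‖F s‖ ≤ C * Real.exp (|s.im| / 8))
    (x : ℝ) (hx : 0 < x) (hx1 : x < 1) (k : ℕ) :
    g5J F x (1 / 2 - k) - g5J F x (1 / 2 - (k + 1)) =
      F (-(k : ℂ)) * (-(x : ℂ)) ^ k / (k.factorial : ℂ) := by
  obtain ⟨C, hC, hCs⟩ := hstrip (k + 1)
  obtain ⟨C', hC', hCs'⟩ := g5_gamma g2b
  have hxc : (x : ℂ) ≠ 0 := by exact_mod_cast hx.ne'
  have main := g4.2 (g5h F x k) (C * C' * x ^ (-(1 / 2 : ℝ)) * 2 ^ k) ?_ ?_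
  · have e0 : g5h F x k 0 = F (-(k : ℂ)) * (-(x : ℂ)) ^ k / (k.factorial : ℂ) := by
      unfold g5h
      rw [g5P_zero]
      simp only [zero_sub, zero_add, Complex.Gamma_one, mul_one, sub_zero, Complex.cpow_natCast]
      have hk : (k.factorial : ℂ) ≠ 0 := by exact_mod_cast Nat.factorial_ne_zero k
      have h1 : ((-1 : ℂ) ^ k) * ((-1 : ℂ) ^ k) = 1 := by
        rw [← mul_pow]; simp
      rw [neg_pow (x : ℂ) k]
      have h2 : ((-1 : ℂ) ^ k) ≠ 0 := pow_ne_zero _ (by norm_num)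
      rw [div_eq_div_iff (mul_ne_zero h2 hk) hk]
      linear_combination (-(F (-(k : ℂ)) * (x : ℂ) ^ k * (k.factorial : ℂ))) * h1
    rw [e0] at main
    rw [← main]
    unfold g5J
    congr 2
    · congr 1
      ext τ
      have hw : |((1 : ℂ) / 2 + τ * Complex.I).re| < 1 := by
        simp only [Complex.add_re, Complex.mul_re, Complex.ofReal_re, Complex.I_re, mul_zero,
          Complex.ofReal_im, Complex.I_im, mul_one, sub_self, add_zero]
        norm_num
      have hw0 : ((1 : ℂ) / 2 + τ * Complex.I) ≠ 0 := by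
        intro h
        have := congrArg Complex.re h
        simp at this
      rw [g5h_div F x k _ hw hw0]
      congr 1
      push_cast
      ring
    · congr 1
      ext τ
      have hw : |(-((1 : ℂ) / 2) + τ * Complex.I).re| < 1 := by
        simp only [Complex.add_re, Complex.mul_re, Complex.ofReal_re, Complex.I_re, mul_zero,
          Complex.ofReal_im, Complex.I_im, mul_one, sub_self, add_zero, Complex.neg_re]
        norm_num
      have hw0 : (-((1 : ℂ) / 2) + τ * Complex.I) ≠ 0 := by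
        intro h
        have := congrArg Complex.re h
        simp at this
      rw [g5h_div F x k _ hw hw0]
      congr 1
      push_cast
      ring
  · intro w hw
    have hw' : |w.re| < 1 := hw
    apply DifferentiableAt.differentiableWithinAt
    unfold g5h
    have hw1 : 0 < (w + 1).re := by
      simp only [Complex.add_re, Complex.one_re]
      linarith [(abs_lt.mp hw').1]
    apply DifferentiableAt.div
    · apply DifferentiableAt.mul
      · apply DifferentiableAt.mul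
        · exact (hF _).comp w (differentiableAt_id.sub_const _)
        · exact (g5_gamma_diff _ hw1).comp w (differentiableAt_id.add_const _)
      · exact DifferentiableAt.const_cpow (differentiableAt_id.const_sub _) (Or.inl hxc)
    · unfold g5P
      apply DifferentiableAt.fun_finsetProd
      intro i _
      exact differentiableAt_id.sub_const _
    · exact g5P_ne k w hw'
  · intro w hw
    unfold g5h
    rw [norm_div, norm_mul, norm_mul, Complex.norm_cpow_eq_rpow_re_of_pos hx]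
    obtain ⟨ha, hb⟩ := abs_le.mp hw
    have e1 := hCs (w - k) (by simp; linarith)
    have e2 := hCs' (w + 1) (by simp; linarith) (by simp; linarith)
    have e1' : (w - (k : ℂ)).im = w.im := by simp
    have e2' : (w + 1).im = w.im := by simp
    rw [e1'] at e1
    rw [e2'] at e2
    have e3 : x ^ ((k : ℂ) - w).re ≤ x ^ (-(1 / 2 : ℝ)) := by
      apply Real.rpow_le_rpow_of_exponent_ge hx hx1.le
      simp only [Complex.sub_re, Complex.natCast_re]
      have : (0 : ℝ) ≤ k := Nat.cast_nonneg k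
      linarith
    have e4 : ‖F (w - k)‖ * ‖Complex.Gamma (w + 1)‖ ≤ C * C' * Real.exp (-|w.im|) :=
      (mul_le_mul e1 e2 (norm_nonneg _) (by positivity)).trans
        (g5_exp_comb C C' _ hC hC' (abs_nonneg _))
    have e5 := g5P_bound k w hw
    rw [div_le_iff₀ (lt_of_lt_of_le (by positivity) e5)]
    calc _ ≤ (C * C' * Real.exp (-|w.im|)) * x ^ (-(1 / 2 : ℝ)) :=
          mul_le_mul e4 e3 (Real.rpow_nonneg hx.le _) (by positivity)
      _ = (C * C' * x ^ (-(1 / 2 : ℝ)) * 2 ^ k * Real.exp (-|w.im|)) * (1 / 2) ^ k := by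
          have : (2 : ℝ) ^ k * (1 / 2) ^ k = 1 := by rw [← mul_pow]; norm_num
          linear_combination (-(C * C' * x ^ (-(1 / 2 : ℝ)) * Real.exp (-|w.im|))) * this
      _ ≤ _ := mul_le_mul_of_nonneg_left e5 (by positivity)

/-- The finite sums of the expansion. -/
lemma g5_tele (g4 : LineShift) (g2b : GammaStrip) (F : ℂ → ℂ) (hF : Differentiable ℂ F)
    (hstrip : ∀ m : ℕ, ∃ C : ℝ, 0 ≤ C ∧ ∀ s : ℂ, -(m : ℝ) ≤ s.re →
      ‖F s‖ ≤ C * Real.exp (|s.im| / 8))
    (x : ℝ) (hx : 0 < x) (hx1 : x < 1) (N : ℕ) :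
    ∑ k ∈ Finset.range N, F (-(k : ℂ)) * (-(x : ℂ)) ^ k / (k.factorial : ℂ) =
      g5J F x (1 / 2) - g5J F x (1 / 2 - N) := by
  induction N with
  | zero => simp
  | succ N ih =>
    rw [Finset.sum_range_succ, ih, ← g5_shift g4 g2b F hF hstrip x hx hx1 N]
    push_cast
    ring

/-- The integrand on the line `Re s = -N - 1/2`. -/
lemma g5_line (g2 : GammaLine) (F : ℂ → ℂ) (R' : ℝ) (hR : 0 ≤ R')
    (h1 : ∀ s : ℂ, s.re ≤ 2 →
      ‖F s‖ ≤ Real.exp ((3 - s.re) * Real.log (1 + ‖2 - s‖) + R' * (3 - s.re)))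
    (N : ℕ) (τ : ℝ) :
    ‖F (-(N : ℂ) - 1 / 2 + τ * Complex.I)‖ * ‖Complex.Gamma (-(N : ℂ) - 1 / 2 + τ * Complex.I)‖ ≤
      60 * Real.exp (6 + 7 / 2 * R') * (4 * Real.exp (1 + R')) ^ N * Real.exp (-(|τ| / 2)) := by
  set s : ℂ := -(N : ℂ) - 1 / 2 + τ * Complex.I with hs
  have hN : (0 : ℝ) ≤ N := Nat.cast_nonneg N
  have hre : s.re = -(N : ℝ) - 1 / 2 := by
    simp [hs]
  have him : s.im = τ := by
    simp [hs]
  set t : ℝ := |τ| with ht
  have ht0 : 0 ≤ t := abs_nonneg _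
  set y : ℝ := (N : ℝ) + 1 + t with hy
  have hy1 : (N : ℝ) + 1 ≤ y := by linarith
  have hy0 : 0 < y := by linarith
  have hnorm : 1 + ‖2 - s‖ ≤ y + 5 / 2 := by
    have h := g5_norm_two_sub s
    rw [hre, him, abs_of_nonneg (by linarith : (0 : ℝ) ≤ 2 - (-(N : ℝ) - 1 / 2))] at h
    linarith
  have hF := g5_left F R' hR h1 (N + 4) s (y + 5 / 2) (by rw [hre]; linarith)
    (by rw [hre]; push_cast; linarith) hnorm
  rw [hre] at hF
  have hG := g2 N τ
  rw [← hs, ← ht, ← hy] at hG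
  have hy5 : y + 5 / 2 ≤ y * Real.exp (5 / 2 / y) := by
    have := Real.add_one_le_exp (5 / 2 / y)
    calc y + 5 / 2 = y * (5 / 2 / y + 1) := by field_simp; ring
      _ ≤ _ := mul_le_mul_of_nonneg_left this hy0.le
  have hpow : (y + 5 / 2) ^ (N + 1) ≤ y ^ (N + 1) * Real.exp (5 / 2) := by
    calc (y + 5 / 2) ^ (N + 1) ≤ (y * Real.exp (5 / 2 / y)) ^ (N + 1) :=
          pow_le_pow_left₀ (by positivity) hy5 _
      _ = y ^ (N + 1) * Real.exp (5 / 2 / y) ^ (N + 1) := mul_pow _ _ _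
      _ ≤ y ^ (N + 1) * Real.exp (5 / 2) := by
          apply mul_le_mul_of_nonneg_left _ (by positivity)
          rw [← Real.exp_nat_mul]
          apply Real.exp_le_exp.mpr
          rw [← mul_div_assoc, div_le_iff₀ hy0]
          push_cast
          nlinarith
  have hpow3 : (y + 5 / 2) ^ 3 ≤ 6 * Real.exp (y + 5 / 2) := by
    have := Real.pow_div_factorial_le_exp (y + 5 / 2) (by positivity) 3
    rw [div_le_iff₀ (by positivity)] at this
    have h6 : ((3 : ℕ).factorial : ℝ) = 6 := by norm_num [Nat.factorial]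
    rw [h6] at this
    linarith
  have hyN : 0 < y ^ (N + 1) := by positivity
  have hF2 : ‖F s‖ ≤ (y ^ (N + 1) * Real.exp (5 / 2)) * (6 * Real.exp (y + 5 / 2)) *
      Real.exp (R' * (3 - (-(N : ℝ) - 1 / 2))) := by
    refine hF.trans ?_
    apply mul_le_mul_of_nonneg_right _ (Real.exp_nonneg _)
    have : (y + 5 / 2) ^ (N + 4) = (y + 5 / 2) ^ (N + 1) * (y + 5 / 2) ^ 3 := by
      rw [← pow_add]
    rw [this]
    exact mul_le_mul hpow hpow3 (by positivity) (by positivity)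
  calc ‖F s‖ * ‖Complex.Gamma s‖ ≤ ((y ^ (N + 1) * Real.exp (5 / 2)) * (6 * Real.exp (y + 5 / 2)) *
      Real.exp (R' * (3 - (-(N : ℝ) - 1 / 2)))) *
      (10 * 4 ^ N * Real.exp (-(Real.pi * t / 2)) / y ^ (N + 1)) :=
        mul_le_mul hF2 hG (norm_nonneg _) (by positivity)
    _ = 60 * 4 ^ N * (Real.exp (5 / 2) * Real.exp (y + 5 / 2) *
        Real.exp (R' * (3 - (-(N : ℝ) - 1 / 2))) * Real.exp (-(Real.pi * t / 2))) := by
        field_simp
        ring
    _ ≤ 60 * 4 ^ N * (Real.exp (6 + 7 / 2 * R') * Real.exp (1 + R') ^ N *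
        Real.exp (-(t / 2))) := by
        apply mul_le_mul_of_nonneg_left _ (by positivity)
        rw [← Real.exp_nat_mul, ← Real.exp_add, ← Real.exp_add, ← Real.exp_add, ← Real.exp_add,
          ← Real.exp_add]
        apply Real.exp_le_exp.mpr
        have hpi : 3 * t ≤ Real.pi * t := mul_le_mul_of_nonneg_right Real.pi_gt_three.le ht0
        have e : (N : ℝ) * (1 + R') = N + R' * N := by ring
        rw [e, hy]
        nlinarith
    _ = _ := by rw [mul_pow]; ring

lemma g5_exp_inv (t : ℝ) : Real.exp (-(|t| / 2)) ≤ 8 * (1 + t ^ 2)⁻¹ := by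
  have h0 : 0 ≤ |t| / 2 := by positivity
  have h := Real.quadratic_le_exp_of_nonneg h0
  have h2 : (1 + t ^ 2) / 8 ≤ Real.exp (|t| / 2) := by
    have : (|t| / 2) ^ 2 = t ^ 2 / 4 := by rw [div_pow, sq_abs]; norm_num
    rw [this] at h
    nlinarith
  rw [Real.exp_neg]
  have h3 : 0 < (1 + t ^ 2) / 8 := by positivity
  calc (Real.exp (|t| / 2))⁻¹ ≤ ((1 + t ^ 2) / 8)⁻¹ := inv_anti₀ h3 h2
    _ = _ := by rw [inv_div]; ring

/-- The remainder tends to zero. -/
lemma g5_rem (g2 : GammaLine) (F : ℂ → ℂ) (R' : ℝ) (hR : 0 ≤ R')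
    (h1 : ∀ s : ℂ, s.re ≤ 2 →
      ‖F s‖ ≤ Real.exp ((3 - s.re) * Real.log (1 + ‖2 - s‖) + R' * (3 - s.re)))
    (x : ℝ) (hx : 0 < x) (hxA : 4 * Real.exp (1 + R') * x < 1) :
    Tendsto (fun N : ℕ => g5J F x (1 / 2 - ((N + 1 : ℕ) : ℝ))) atTop (𝓝 0) := by
  set A : ℝ := 4 * Real.exp (1 + R') with hA
  set C : ℝ := 60 * Real.exp (6 + 7 / 2 * R') with hC
  have hA0 : 0 < A := by positivity
  have hC0 : 0 < C := by positivity
  set I : ℝ := ∫ τ : ℝ, (1 + τ ^ 2)⁻¹ with hI
  have hI0 : 0 ≤ I := integral_nonneg (fun τ => by positivity)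
  have hbound : ∀ N : ℕ, ‖g5J F x (1 / 2 - ((N + 1 : ℕ) : ℝ))‖ ≤
      (1 / (2 * Real.pi) * (C * x ^ (1 / 2 : ℝ) * 8 * I)) * (A * x) ^ N := by
    intro N
    unfold g5J
    rw [norm_mul]
    have hpi : ‖(1 : ℂ) / (2 * Real.pi)‖ = 1 / (2 * Real.pi) := by
      rw [norm_div, norm_mul, Complex.norm_real, Real.norm_of_nonneg Real.pi_pos.le]
      simp
    rw [hpi]
    have hint : ‖∫ τ : ℝ, g5K F x (((1 / 2 - ((N + 1 : ℕ) : ℝ) : ℝ) : ℂ) + τ * Complex.I)‖ ≤
        ∫ τ : ℝ, (C * A ^ N * x ^ ((N : ℝ) + 1 / 2) * 8) * (1 + τ ^ 2)⁻¹ := by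
      apply MeasureTheory.norm_integral_le_of_norm_le
      · exact integrable_inv_one_add_sq.const_mul _
      · refine Filter.Eventually.of_forall (fun τ => ?_)
        have hs : (((1 / 2 - ((N + 1 : ℕ) : ℝ) : ℝ) : ℂ) + τ * Complex.I) =
            -(N : ℂ) - 1 / 2 + τ * Complex.I := by
          push_cast
          ring
        rw [hs]
        unfold g5K
        rw [norm_mul, norm_mul, Complex.norm_cpow_eq_rpow_re_of_pos hx]
        have hre : (-(-(N : ℂ) - 1 / 2 + τ * Complex.I)).re = (N : ℝ) + 1 / 2 := by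
          simp
          ring
        rw [hre]
        have h := g5_line g2 F R' hR h1 N τ
        rw [← hA, ← hC] at h
        have h' := g5_exp_inv τ
        calc _ ≤ (C * A ^ N * Real.exp (-(|τ| / 2))) * x ^ ((N : ℝ) + 1 / 2) :=
              mul_le_mul_of_nonneg_right h (Real.rpow_nonneg hx.le _)
          _ ≤ (C * A ^ N * (8 * (1 + τ ^ 2)⁻¹)) * x ^ ((N : ℝ) + 1 / 2) := by
              apply mul_le_mul_of_nonneg_right _ (Real.rpow_nonneg hx.le _)
              exact mul_le_mul_of_nonneg_left h' (by positivity)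
          _ = _ := by ring
    rw [integral_const_mul, ← hI] at hint
    have hxp : x ^ ((N : ℝ) + 1 / 2) = x ^ N * x ^ (1 / 2 : ℝ) := by
      rw [Real.rpow_add hx, Real.rpow_natCast]
    calc _ ≤ 1 / (2 * Real.pi) * (C * A ^ N * x ^ ((N : ℝ) + 1 / 2) * 8 * I) :=
          mul_le_mul_of_nonneg_left hint (by positivity)
      _ = _ := by rw [hxp, mul_pow]; ring
  apply squeeze_zero_norm hbound
  have h0 : 0 ≤ A * x := by positivity
  have := (tendsto_pow_atTop_nhds_zero_of_lt_one h0 hxA).const_mul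
    (1 / (2 * Real.pi) * (C * x ^ (1 / 2 : ℝ) * 8 * I))
  simpa using this

/-- The coefficients of the expansion. -/
lemma g5_coeff (F : ℂ → ℂ) (R' : ℝ) (hR : 0 ≤ R')
    (h1 : ∀ s : ℂ, s.re ≤ 2 →
      ‖F s‖ ≤ Real.exp ((3 - s.re) * Real.log (1 + ‖2 - s‖) + R' * (3 - s.re))) (k : ℕ) :
    ‖F (-(k : ℂ))‖ / (k.factorial : ℝ) ≤
      6 * Real.exp ((R' + 2) * 3) * Real.exp (R' + 2) ^ k := by
  have hk : (0 : ℝ) ≤ k := Nat.cast_nonneg k
  have hfac : (0 : ℝ) < k.factorial := by exact_mod_cast Nat.factorial_pos k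
  have hre : (-(k : ℂ)).re = -(k : ℝ) := by simp
  have hnorm : 1 + ‖2 - (-(k : ℂ))‖ ≤ (k : ℝ) + 3 := by
    have h := g5_norm_two_sub (-(k : ℂ))
    rw [hre, abs_of_nonneg (by linarith : (0 : ℝ) ≤ 2 - (-(k : ℝ)))] at h
    simp only [Complex.neg_im, Complex.natCast_im, neg_zero, abs_zero] at h
    linarith
  have hF := g5_left F R' hR h1 (k + 3) (-(k : ℂ)) ((k : ℝ) + 3) (by rw [hre]; linarith)
    (by rw [hre]; push_cast; linarith) hnorm
  rw [hre] at hF
  have hp := Real.pow_div_factorial_le_exp ((k : ℝ) + 3) (by positivity) (k + 3)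
  have hfac3 : (0 : ℝ) < (k + 3).factorial := by exact_mod_cast Nat.factorial_pos (k + 3)
  rw [div_le_iff₀ hfac3] at hp
  have hf3 : ((k + 3).factorial : ℝ) = ((k : ℝ) + 3) * (k + 2) * (k + 1) * k.factorial := by
    rw [Nat.factorial_succ, Nat.factorial_succ, Nat.factorial_succ]
    push_cast
    ring
  have h3 : ((k : ℝ) + 3) ^ 3 ≤ 6 * Real.exp ((k : ℝ) + 3) := by
    have := Real.pow_div_factorial_le_exp ((k : ℝ) + 3) (by positivity) 3
    rw [div_le_iff₀ (by positivity)] at this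
    have h6 : ((3 : ℕ).factorial : ℝ) = 6 := by norm_num [Nat.factorial]
    rw [h6] at this
    linarith
  have h4 : ((k : ℝ) + 3) * (k + 2) * (k + 1) ≤ 6 * Real.exp ((k : ℝ) + 3) := by
    refine le_trans ?_ h3
    have : ((k : ℝ) + 3) * (k + 2) * (k + 1) ≤ ((k : ℝ) + 3) * (k + 3) * (k + 3) := by
      gcongr <;> norm_num
    linarith [this]
  rw [div_le_iff₀ hfac]
  calc ‖F (-(k : ℂ))‖ ≤ ((k : ℝ) + 3) ^ (k + 3) * Real.exp (R' * (3 - -(k : ℝ))) := hF
    _ ≤ (Real.exp ((k : ℝ) + 3) * ((6 * Real.exp ((k : ℝ) + 3)) * k.factorial)) *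
        Real.exp (R' * (3 - -(k : ℝ))) := by
        apply mul_le_mul_of_nonneg_right _ (Real.exp_nonneg _)
        refine hp.trans ?_
        rw [hf3]
        apply mul_le_mul_of_nonneg_left _ (Real.exp_nonneg _)
        exact mul_le_mul_of_nonneg_right h4 hfac.le
    _ = 6 * (Real.exp ((k : ℝ) + 3) * Real.exp ((k : ℝ) + 3) * Real.exp (R' * (3 - -(k : ℝ)))) *
        k.factorial := by ring
    _ = 6 * (Real.exp ((R' + 2) * 3) * Real.exp (R' + 2) ^ k) * k.factorial := by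
        rw [← Real.exp_nat_mul, ← Real.exp_add, ← Real.exp_add, ← Real.exp_add]
        congr 3
        ring
    _ = _ := by ring

/-- The exponential series is analytic in the right half plane. -/
lemma g5_dir (b : ℕ → ℂ) (hb0 : b 0 = 0)
    (hs : Summable (fun n : ℕ => ‖b n‖ * (n : ℝ) ^ (-(2 : ℝ)))) :
    DifferentiableOn ℂ (fun z : ℂ => ∑' n : ℕ, b n * Complex.exp (-(n * z)))
      {z : ℂ | 0 < z.re} := by
  intro z hz
  have hz' : 0 < z.re := hz
  set ε : ℝ := z.re / 2 with hε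
  have hε0 : 0 < ε := by positivity
  have hopen : IsOpen {w : ℂ | ε < w.re} := isOpen_lt continuous_const Complex.continuous_re
  have hd : DifferentiableOn ℂ (fun z : ℂ => ∑' n : ℕ, b n * Complex.exp (-(n * z)))
      {w : ℂ | ε < w.re} := by
    apply Complex.differentiableOn_tsum_of_summable_norm
      (u := fun n : ℕ => (2 / ε ^ 2) * (‖b n‖ * (n : ℝ) ^ (-(2 : ℝ)))) (hs.mul_left _)
      _ hopen
    · intro n w hw
      have hw' : ε < w.re := hw
      rcases Nat.eq_zero_or_pos n with rfl | hn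
      · simp [hb0]
      · have hn' : (0 : ℝ) < n := by exact_mod_cast hn
        rw [norm_mul, Complex.norm_exp]
        have hre : (-((n : ℂ) * w)).re = -(n * w.re) := by simp
        rw [hre]
        have h1 : Real.exp (-(n * w.re)) ≤ (2 / ε ^ 2) * (n : ℝ) ^ (-(2 : ℝ)) := by
          have h2 := Real.quadratic_le_exp_of_nonneg (x := n * ε) (by positivity)
          have h3 : (n * ε) ^ 2 / 2 ≤ Real.exp (n * w.re) := by
            have : Real.exp (n * ε) ≤ Real.exp (n * w.re) := by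
              apply Real.exp_le_exp.mpr
              exact mul_le_mul_of_nonneg_left hw'.le hn'.le
            have : 0 ≤ (n : ℝ) * ε := by positivity
            linarith
          rw [Real.exp_neg]
          calc (Real.exp (n * w.re))⁻¹ ≤ ((n * ε) ^ 2 / 2)⁻¹ := inv_anti₀ (by positivity) h3
            _ = _ := by
              rw [Real.rpow_neg hn'.le, Real.rpow_two, inv_div, mul_pow]
              field_simp
        calc ‖b n‖ * Real.exp (-(n * w.re)) ≤ ‖b n‖ * ((2 / ε ^ 2) * (n : ℝ) ^ (-(2 : ℝ))) :=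
              mul_le_mul_of_nonneg_left h1 (norm_nonneg _)
          _ = _ := by ring
    · intro n
      apply Differentiable.differentiableOn
      fun_prop
  have hmem : z ∈ {w : ℂ | ε < w.re} := by
    change ε < z.re
    rw [hε]; linarith
  exact ((hd z hmem).differentiableAt (hopen.mem_nhds hmem)).differentiableWithinAt

theorem expansion (g1 : PhragLind) (g2 : GammaLine) (g2b : GammaStrip) (g3 : MellinRep)
    (g4 : LineShift) : Expansion := by
  intro b F R hb0 hs hF hgrow hDir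
  have hB := g5_bdd b F hb0 hs hDir
  obtain ⟨R', hR', h1⟩ := g1 F R _ hF hgrow hB
  have hstrip := g5_strip F R' _ hR' h1 hB
  set r : ℝ := Real.exp (-(R' + 2)) / 8 with hr
  have hr0 : 0 < r := by positivity
  have hq : Real.exp (R' + 2) * r = 1 / 8 := by
    rw [hr, ← mul_div_assoc, ← Real.exp_add]
    simp
  have he : 1 ≤ Real.exp (R' + 2) := Real.one_le_exp (by linarith)
  have hr1 : r < 1 := by nlinarith
  have hrA : 4 * Real.exp (1 + R') * r < 1 := by
    have : Real.exp (1 + R') ≤ Real.exp (R' + 2) := Real.exp_le_exp.mpr (by linarith)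
    nlinarith
  set S : ℂ → ℂ := fun z => ∑' k : ℕ, F (-(k : ℂ)) * (-z) ^ k / (k.factorial : ℂ) with hS
  have hterm : ∀ (k : ℕ) (z : ℂ), ‖z‖ ≤ r → ‖F (-(k : ℂ)) * (-z) ^ k / (k.factorial : ℂ)‖ ≤
      6 * Real.exp ((R' + 2) * 3) * (1 / 8) ^ k := by
    intro k z hz
    have hc := g5_coeff F R' hR' h1 k
    rw [norm_div, norm_mul, norm_pow, norm_neg, Complex.norm_natCast]
    have hzk : ‖z‖ ^ k ≤ r ^ k := pow_le_pow_left₀ (norm_nonneg _) hz k
    calc ‖F (-(k : ℂ))‖ * ‖z‖ ^ k / (k.factorial : ℝ) =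
        (‖F (-(k : ℂ))‖ / (k.factorial : ℝ)) * ‖z‖ ^ k := by ring
      _ ≤ (6 * Real.exp ((R' + 2) * 3) * Real.exp (R' + 2) ^ k) * r ^ k :=
          mul_le_mul hc hzk (by positivity) (by positivity)
      _ = 6 * Real.exp ((R' + 2) * 3) * (Real.exp (R' + 2) * r) ^ k := by rw [mul_pow]; ring
      _ = _ := by rw [hq]
  have hsum : Summable (fun k : ℕ => 6 * Real.exp ((R' + 2) * 3) * (1 / 8 : ℝ) ^ k) :=
    (summable_geometric_of_lt_one (by norm_num) (by norm_num)).mul_left _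
  have hSd : DifferentiableOn ℂ S (Metric.ball 0 r) := by
    apply Complex.differentiableOn_tsum_of_summable_norm hsum _ Metric.isOpen_ball
    · intro k w hw
      exact hterm k w (by simpa using (mem_ball_zero_iff.mp hw).le)
    · intro k
      apply Differentiable.differentiableOn
      fun_prop
  -- equality for real x
  have hreal : ∀ x : ℝ, 0 < x → x < r →
      S x = ∑' n : ℕ, b n * Complex.exp (-(n * (x : ℂ))) := by
    intro x hx hxr
    have hx1 : x < 1 := hxr.trans hr1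
    have hxA : 4 * Real.exp (1 + R') * x < 1 := by
      have : 4 * Real.exp (1 + R') * x ≤ 4 * Real.exp (1 + R') * r :=
        mul_le_mul_of_nonneg_left hxr.le (by positivity)
      linarith
    have hJ3 : ∑' n : ℕ, b n * Complex.exp (-(n * (x : ℂ))) = g5J F x 3 := by
      have h := g3 b hb0 hs x hx
      have e1 : (fun n : ℕ => b n * Complex.exp (-(n * (x : ℂ)))) =
          (fun n : ℕ => b n * Complex.exp (-(n * x : ℝ))) := by
        funext n
        push_cast
        rfl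
      rw [e1, h]
      unfold g5J
      congr 1
      congr 1
      ext τ
      unfold g5K
      have e2 : ((3 : ℝ) : ℂ) = 3 := by norm_cast
      rw [e2, hDir (3 + τ * Complex.I) (by simp; norm_num)]
    have hT : Tendsto (fun N : ℕ => ∑ k ∈ Finset.range (N + 1),
        F (-(k : ℂ)) * (-(x : ℂ)) ^ k / (k.factorial : ℂ)) atTop (𝓝 (g5J F x (1 / 2) - 0)) := by
      have hrem := g5_rem g2 F R' hR' h1 x hx hxA
      have := hrem.const_sub (g5J F x (1 / 2))
      refine this.congr (fun N => ?_)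
      rw [g5_tele g4 g2b F hF hstrip x hx hx1 (N + 1)]
    have hSx : Summable (fun k : ℕ => F (-(k : ℂ)) * (-(x : ℂ)) ^ k / (k.factorial : ℂ)) := by
      apply Summable.of_norm_bounded hsum
      intro k
      apply hterm k
      rw [Complex.norm_real, Real.norm_of_nonneg hx.le]
      exact hxr.le
    have hT2 := (hSx.hasSum.tendsto_sum_nat).comp (tendsto_add_atTop_nat 1)
    have := tendsto_nhds_unique hT2 hT
    rw [sub_zero, ← g5_shift0 g4 g2b F hF hstrip x hx hx1, ← hJ3] at this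
    exact this
  refine ⟨r, hr0, S, hSd, ?_⟩
  -- identity theorem
  set U : Set ℂ := Metric.ball (0 : ℂ) r ∩ {z : ℂ | 0 < z.re} with hU
  have hUo : IsOpen U :=
    Metric.isOpen_ball.inter (isOpen_lt continuous_const Complex.continuous_re)
  have hUc : IsPreconnected U := by
    apply Convex.isPreconnected
    exact (convex_ball _ _).inter (convex_halfSpace_re_gt 0)
  have hA1 : AnalyticOnNhd ℂ S U :=
    (hSd.mono Set.inter_subset_left).analyticOnNhd hUo
  have hA2 : AnalyticOnNhd ℂ (fun z : ℂ => ∑' n : ℕ, b n * Complex.exp (-(n * z))) U :=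
    ((g5_dir b hb0 hs).mono Set.inter_subset_right).analyticOnNhd hUo
  have hz0 : ((r / 2 : ℝ) : ℂ) ∈ U := by
    constructor
    · rw [mem_ball_zero_iff, Complex.norm_real, Real.norm_of_nonneg (by positivity)]
      linarith
    · change 0 < ((r / 2 : ℝ) : ℂ).re
      rw [Complex.ofReal_re]; positivity
  have hfreq : ∃ᶠ z in 𝓝[≠] ((r / 2 : ℝ) : ℂ),
      S z = (fun z : ℂ => ∑' n : ℕ, b n * Complex.exp (-(n * z))) z := by
    have hlim : Tendsto (fun n : ℕ => ((r / 2 + (r / 4) * (1 / ((n : ℝ) + 1)) : ℝ) : ℂ)) atTop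
        (𝓝[≠] ((r / 2 : ℝ) : ℂ)) := by
      rw [tendsto_nhdsWithin_iff]
      constructor
      · have h0 : Tendsto (fun n : ℕ => r / 2 + (r / 4) * (1 / ((n : ℝ) + 1))) atTop
            (𝓝 (r / 2)) := by
          have := (tendsto_one_div_add_atTop_nhds_zero_nat (𝕜 := ℝ)).const_mul (r / 4)
          simpa using this.const_add (r / 2)
        exact (Complex.continuous_ofReal.tendsto _).comp h0
      · refine Filter.Eventually.of_forall (fun n => ?_)
        simp only [Set.mem_compl_iff, Set.mem_singleton_iff]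
        intro h
        have h' : r / 2 + (r / 4) * (1 / ((n : ℝ) + 1)) = r / 2 := by exact_mod_cast h
        have : 0 < (r / 4) * (1 / ((n : ℝ) + 1)) := by positivity
        linarith
    refine hlim.frequently (Filter.Frequently.of_forall (fun n => ?_))
    apply hreal
    · positivity
    · have h1 : 1 / ((n : ℝ) + 1) ≤ 1 := by
        rw [div_le_one (by positivity)]
        have : (0 : ℝ) ≤ n := Nat.cast_nonneg n
        linarith
      have : (r / 4) * (1 / ((n : ℝ) + 1)) ≤ r / 4 * 1 :=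
        mul_le_mul_of_nonneg_left h1 (by positivity)
      linarith
  have heq := hA1.eqOn_of_preconnected_of_frequently_eq hA2 hUc hz0 hfreq
  intro z hz hzre
  exact heq ⟨hz, hzre⟩

end MP7ed9c3
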