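import Pool.Agent.Lib.MP_7ed9c3_nt.SpecG

/-!
# MP_7ed9c3_nt: G6, the pairing is bounded by the supremum on the keyhole
-/

namespace MP7ed9c3

open Filter Topology MeasureTheory

private lemma G6_sum {b : ℕ → ℂ} (hb0 : b 0 = 0)
    (hs : Summable (fun n : ℕ => ‖b n‖ * (n : ℝ) ^ (-(2 : ℝ)))) {η : ℝ} (hη : 0 < η) :
    Summable (fun n : ℕ => ‖b n‖ * Real.exp (-(n * η))) := by
  refine Summable.of_nonneg_of_le (fun n => by positivity) (fun n => ?_) (hs.mul_left (2 / η ^ 2))
  rcases Nat.eq_zero_or_pos n with rfl | hn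
  · simp [hb0]
  · have hn' : (0 : ℝ) < n := by exact_mod_cast hn
    have h1 : (0 : ℝ) < n * η := by positivity
    have h2 := Real.quadratic_le_exp_of_nonneg h1.le
    have h3 : (n * η) ^ 2 / 2 ≤ Real.exp (n * η) := by linarith
    have h4 : Real.exp (-(n * η)) ≤ 2 / (n * η) ^ 2 := by
      rw [Real.exp_neg, ← one_div, div_le_div_iff₀ (Real.exp_pos _) (by positivity)]
      linarith
    have h5 : (n : ℝ) ^ (-(2 : ℝ)) = ((n : ℝ) ^ 2)⁻¹ := by
      rw [Real.rpow_neg hn'.le, Real.rpow_two]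
    rw [h5]
    calc ‖b n‖ * Real.exp (-(n * η)) ≤ ‖b n‖ * (2 / (n * η) ^ 2) :=
          mul_le_mul_of_nonneg_left h4 (norm_nonneg _)
      _ = 2 / η ^ 2 * (‖b n‖ * ((n : ℝ) ^ 2)⁻¹) := by field_simp

private lemma G6_norm (b : ℕ → ℂ) (η y : ℝ) (n : ℕ) :
    ‖b n * Complex.exp (-(n * ((η : ℂ) + y * Complex.I)))‖ = ‖b n‖ * Real.exp (-(n * η)) := by
  rw [norm_mul, Complex.norm_exp]
  congr 2
  simp

private lemma G6_cont {b : ℕ → ℂ} {η : ℝ}
    (hs : Summable (fun n : ℕ => ‖b n‖ * Real.exp (-(n * η)))) :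
    Continuous (fun y : ℝ => ∑' n : ℕ, b n * Complex.exp (-(n * ((η : ℂ) + y * Complex.I)))) := by
  refine continuous_tsum (fun n => ?_) hs (fun n y => (G6_norm b η y n).le)
  fun_prop

private lemma G6_exp_int (m : ℤ) :
    ∫ y in (-Real.pi)..Real.pi, Complex.exp ((m * Complex.I) * (y : ℂ)) =
      if m = 0 then (2 * Real.pi : ℂ) else 0 := by
  split_ifs with hm
  · subst hm
    simp
    push_cast
    ring
  · have h0 : (m * Complex.I : ℂ) ≠ 0 := mul_ne_zero (by exact_mod_cast hm) Complex.I_ne_zero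
    rw [integral_exp_mul_complex h0]
    have h1 : Complex.exp (m * Complex.I * (Real.pi : ℂ)) =
        Complex.exp (m * Complex.I * ((-Real.pi : ℝ) : ℂ)) := by
      rw [Complex.exp_eq_exp_iff_exists_int]
      refine ⟨m, ?_⟩
      push_cast
      ring
    rw [h1, sub_self, zero_div]

private lemma G6_mono {b : ℕ → ℂ} {η : ℝ}
    (hs : Summable (fun n : ℕ => ‖b n‖ * Real.exp (-(n * η)))) (k : ℕ) :
    ∫ y in (-Real.pi)..Real.pi,
      (∑' n : ℕ, b n * Complex.exp (-(n * ((η : ℂ) + y * Complex.I)))) *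
        Complex.exp (k * ((η : ℂ) + y * Complex.I)) = 2 * Real.pi * b k := by
  have hsum := intervalIntegral.hasSum_integral_of_dominated_convergence
    (a := -Real.pi) (b := Real.pi) (μ := volume) (ι := ℕ)
    (F := fun n y => b n * Complex.exp (-(n * ((η : ℂ) + y * Complex.I))) *
      Complex.exp (k * ((η : ℂ) + y * Complex.I)))
    (f := fun y : ℝ => (∑' n : ℕ, b n * Complex.exp (-(n * ((η : ℂ) + y * Complex.I)))) *
      Complex.exp (k * ((η : ℂ) + y * Complex.I)))
    (fun n _ => ‖b n‖ * Real.exp (-(n * η)) * Real.exp (k * η)) ?_ ?_ ?_ ?_ ?_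
  · have hterm : ∀ n : ℕ, ∫ y in (-Real.pi)..Real.pi,
        b n * Complex.exp (-(n * ((η : ℂ) + y * Complex.I))) *
        Complex.exp (k * ((η : ℂ) + y * Complex.I)) = if n = k then 2 * Real.pi * b k else 0 := by
      intro n
      have h1 : ∀ y : ℝ, b n * Complex.exp (-(n * ((η : ℂ) + y * Complex.I))) *
          Complex.exp (k * ((η : ℂ) + y * Complex.I)) =
          (b n * Complex.exp (((k : ℂ) - n) * η)) *
            Complex.exp (((((k : ℤ) - n : ℤ) : ℂ) * Complex.I) * (y : ℂ)) := by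
        intro y
        rw [mul_assoc, mul_assoc, ← Complex.exp_add, ← Complex.exp_add]
        congr 2
        push_cast
        ring
      simp only [h1]
      rw [intervalIntegral.integral_const_mul, G6_exp_int]
      by_cases hnk : n = k
      · subst hnk
        simp
        ring
      · rw [if_neg hnk, if_neg (by omega), mul_zero]
    simp only [hterm] at hsum
    have h2 : HasSum (fun n : ℕ => if n = k then (2 * Real.pi * b k : ℂ) else 0)
        (2 * Real.pi * b k) := hasSum_ite_eq k _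
    exact hsum.unique h2
  · intro n
    apply Continuous.aestronglyMeasurable
    fun_prop
  · intro n
    refine Eventually.of_forall fun y _ => ?_
    rw [norm_mul, G6_norm, Complex.norm_exp]
    apply le_of_eq
    congr 2
    simp
  · exact Eventually.of_forall fun y _ => hs.mul_right _
  · exact intervalIntegrable_const
  · refine Eventually.of_forall fun y _ => ?_
    have h1 : Summable (fun n : ℕ => b n * Complex.exp (-(n * ((η : ℂ) + y * Complex.I)))) := by
      apply Summable.of_norm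
      simp only [G6_norm]
      exact hs
    exact h1.hasSum.mul_right _

private lemma G6_pair {b : ℕ → ℂ} {η : ℝ}
    (hs : Summable (fun n : ℕ => ‖b n‖ * Real.exp (-(n * η)))) (P : Polynomial ℂ) :
    ∫ y in (-Real.pi)..Real.pi,
      (∑' n : ℕ, b n * Complex.exp (-(n * ((η : ℂ) + y * Complex.I)))) *
        P.eval (Complex.exp ((η : ℂ) + y * Complex.I)) = 2 * Real.pi * pair b P := by
  have hT := G6_cont hs
  have h1 : ∀ y : ℝ, (∑' n : ℕ, b n * Complex.exp (-(n * ((η : ℂ) + y * Complex.I)))) *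
        P.eval (Complex.exp ((η : ℂ) + y * Complex.I)) =
      ∑ k ∈ Finset.range (P.natDegree + 1), P.coeff k *
        ((∑' n : ℕ, b n * Complex.exp (-(n * ((η : ℂ) + y * Complex.I)))) *
        Complex.exp (k * ((η : ℂ) + y * Complex.I))) := by
    intro y
    rw [Polynomial.eval_eq_sum_range, Finset.mul_sum]
    refine Finset.sum_congr rfl fun k _ => ?_
    rw [← Complex.exp_nat_mul]
    ring
  simp only [h1]
  rw [intervalIntegral.integral_finsetSum]
  · simp only [intervalIntegral.integral_const_mul, G6_mono hs]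
    unfold pair
    rw [Finset.mul_sum]
    refine Finset.sum_congr rfl fun k _ => ?_
    ring
  · intro k _
    apply Continuous.intervalIntegrable
    exact continuous_const.mul (hT.mul (by fun_prop))

/-- **G6.** -/
theorem functional : Functional := by
  intro b r η η' β hb0 hs hN hβ hβπ hη' hr2 hr hη hηη'
  obtain ⟨S, hSd, hST⟩ := hN
  have hsum := G6_sum hb0 hs hη
  have hTc := G6_cont hsum
  set A : ℝ := ∑' n : ℕ, ‖b n‖ * Real.exp (-(n * η)) with hA
  have hA0 : 0 ≤ A := tsum_nonneg fun n => by positivity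
  -- the rectangle
  have hrect : ∀ u y : ℝ, -η' ≤ u → u ≤ η → |y| ≤ β →
      (u : ℂ) + y * Complex.I ∈ Metric.ball (0 : ℂ) r := by
    intro u y h1 h2 h3
    rw [mem_ball_zero_iff, ← abs_of_pos hr, ← sq_lt_sq₀ (norm_nonneg _) (abs_nonneg _), sq_abs,
      ← Complex.normSq_eq_norm_sq, Complex.normSq_add_mul_I]
    have h4 : u ^ 2 ≤ η' ^ 2 := by
      rw [sq_le_sq, abs_of_pos hη']
      exact abs_le.2 ⟨h1, by linarith⟩
    have h5 : y ^ 2 ≤ β ^ 2 := by
      rw [sq_le_sq, abs_of_pos hβ]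
      exact h3
    linarith
  set Q : Set ℂ := Set.uIcc (-η') η ×ℂ Set.uIcc (-β) β with hQ
  have hQmem : ∀ u y : ℝ, -η' ≤ u → u ≤ η → |y| ≤ β → (u : ℂ) + y * Complex.I ∈ Q := by
    intro u y h1 h2 h3
    rw [hQ, Complex.mem_reProdIm, Set.uIcc_of_le (by linarith), Set.uIcc_of_le (by linarith)]
    have h4 := abs_le.1 h3
    simp only [Complex.add_re, Complex.ofReal_re, Complex.mul_re, Complex.I_re, mul_zero,
      Complex.ofReal_im, Complex.I_im, mul_one, sub_self, add_zero, Complex.add_im,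
      Complex.mul_im, zero_add, Set.mem_Icc]
    exact ⟨⟨h1, h2⟩, h4.1, h4.2⟩
  have hQball : Q ⊆ Metric.ball (0 : ℂ) r := by
    intro z hz
    rw [hQ, Complex.mem_reProdIm, Set.uIcc_of_le (by linarith), Set.uIcc_of_le (by linarith)] at hz
    have h1 := hrect z.re z.im hz.1.1 hz.1.2 (abs_le.2 ⟨hz.2.1, hz.2.2⟩)
    rwa [Complex.re_add_im] at h1
  have hQc : IsCompact Q := isCompact_uIcc.reProdIm isCompact_uIcc
  obtain ⟨B₀, hB₀⟩ := hQc.exists_bound_of_continuousOn (hSd.continuousOn.mono hQball)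
  set B : ℝ := max B₀ 0 with hB
  have hB0 : 0 ≤ B := le_max_right _ _
  have hBb : ∀ z ∈ Q, ‖S z‖ ≤ B := fun z hz => (hB₀ z hz).trans (le_max_left _ _)
  refine ⟨(2 * (A * (Real.pi - β)) + (B * (2 * β) + 2 * (B * (η + η')))) / (2 * Real.pi),
    ?_, ?_⟩
  · have := Real.pi_pos
    have : 0 ≤ Real.pi - β := by linarith
    positivity
  intro P ρ hP
  have hπ := Real.pi_pos
  have hρ : 0 ≤ ρ := by
    refine (norm_nonneg _).trans (hP (Complex.exp (((-η' : ℝ) : ℂ) + ((0 : ℝ) : ℂ) * Complex.I))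
      ⟨-η', 0, rfl, Or.inr (Or.inl ⟨rfl, ?_⟩)⟩)
    simpa using hβ.le
  set g : ℝ → ℂ := fun y => (∑' n : ℕ, b n * Complex.exp (-(n * ((η : ℂ) + y * Complex.I)))) *
        P.eval (Complex.exp ((η : ℂ) + y * Complex.I)) with hg
  have hgc : Continuous g := hTc.mul (by fun_prop)
  have hTA : ∀ y : ℝ, ‖∑' n : ℕ, b n * Complex.exp (-(n * ((η : ℂ) + y * Complex.I)))‖ ≤ A := by
    intro y
    refine (norm_tsum_le_tsum_norm ?_).trans (le_of_eq ?_)
    · simp only [G6_norm]; exact hsum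
    · simp only [G6_norm]; rfl
  have hgA : ∀ y : ℝ, β ≤ |y| → |y| ≤ Real.pi → ‖g y‖ ≤ A * ρ := by
    intro y h1 h2
    rw [hg]
    simp only [norm_mul]
    exact mul_le_mul (hTA y) (hP _ ⟨η, y, rfl, Or.inl ⟨rfl, h1, h2⟩⟩) (norm_nonneg _) hA0
  have hsplit : ∫ y in (-Real.pi)..Real.pi, g y = (∫ y in (-Real.pi)..(-β), g y) +
      (∫ y in (-β)..β, g y) + ∫ y in β..Real.pi, g y := by
    rw [intervalIntegral.integral_add_adjacent_intervals (hgc.intervalIntegrable _ _)
      (hgc.intervalIntegrable _ _), intervalIntegral.integral_add_adjacent_intervals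
      (hgc.intervalIntegrable _ _) (hgc.intervalIntegrable _ _)]
  have hI1 : ‖∫ y in (-Real.pi)..(-β), g y‖ ≤ A * ρ * (Real.pi - β) := by
    have h1 : ∀ y ∈ Set.uIoc (-Real.pi) (-β), ‖g y‖ ≤ A * ρ := by
      intro y hy
      rw [Set.uIoc_of_le (by linarith)] at hy
      have h2 : |y| = -y := abs_of_nonpos (by linarith [hy.2])
      apply hgA
      · rw [h2]; linarith [hy.2]
      · rw [h2]; linarith [hy.1]
    have h2 := intervalIntegral.norm_integral_le_of_norm_le_const h1
    rwa [show |(-β) - (-Real.pi)| = Real.pi - β by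
      rw [abs_of_nonneg (by linarith)]; ring] at h2
  have hI3 : ‖∫ y in β..Real.pi, g y‖ ≤ A * ρ * (Real.pi - β) := by
    have h1 : ∀ y ∈ Set.uIoc β Real.pi, ‖g y‖ ≤ A * ρ := by
      intro y hy
      rw [Set.uIoc_of_le (by linarith)] at hy
      have h2 : |y| = y := abs_of_nonneg (by linarith [hy.1])
      apply hgA
      · rw [h2]; linarith [hy.1]
      · rw [h2]; linarith [hy.2]
    have h2 := intervalIntegral.norm_integral_le_of_norm_le_const h1
    rwa [abs_of_nonneg (by linarith)] at h2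
  -- the middle part
  set f : ℂ → ℂ := fun z => S z * P.eval (Complex.exp z) with hf
  have hfd : DifferentiableOn ℂ f Q := by
    apply (hSd.mono hQball).mul
    apply Differentiable.differentiableOn
    exact P.differentiable.comp Complex.differentiable_exp
  have hfB : ∀ u y : ℝ, -η' ≤ u → u ≤ η → |y| ≤ β →
      Complex.exp ((u : ℂ) + y * Complex.I) ∈ keyhole η η' β →
      ‖f ((u : ℂ) + y * Complex.I)‖ ≤ B * ρ := by
    intro u y h1 h2 h3 h4
    rw [hf]
    simp only [norm_mul]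
    exact mul_le_mul (hBb _ (hQmem u y h1 h2 h3)) (hP _ h4) (norm_nonneg _) hB0
  have hcauchy := Complex.integral_boundary_rect_eq_zero_of_differentiableOn f
    (((-η' : ℝ) : ℂ) + ((-β : ℝ) : ℂ) * Complex.I) ((η : ℂ) + (β : ℂ) * Complex.I)
    (by
      simp only [Complex.add_re, Complex.ofReal_re, Complex.mul_re, Complex.I_re, mul_zero,
        Complex.ofReal_im, Complex.I_im, mul_one, sub_self, add_zero, Complex.add_im,
        Complex.mul_im, zero_add]
      exact hfd)
  simp only [Complex.add_re, Complex.ofReal_re, Complex.mul_re, Complex.I_re, mul_zero,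
        Complex.ofReal_im, Complex.I_im, mul_one, sub_self, add_zero, Complex.add_im,
        Complex.mul_im, zero_add] at hcauchy
  have hmid : ∫ y in (-β)..β, g y = ∫ y in (-β)..β, f ((η : ℂ) + y * Complex.I) := by
    apply intervalIntegral.integral_congr
    intro y hy
    rw [Set.uIcc_of_le (by linarith)] at hy
    have h1 : |y| ≤ β := abs_le.2 hy
    have h2 := hST _ (hrect η y (by linarith) le_rfl h1) (by simpa using hη)
    simp only [hg, hf, h2]
  have hL : ‖∫ y in (-β)..β, f (((-η' : ℝ) : ℂ) + y * Complex.I)‖ ≤ B * ρ * (2 * β) := by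
    have h1 : ∀ y ∈ Set.uIoc (-β) β, ‖f (((-η' : ℝ) : ℂ) + y * Complex.I)‖ ≤ B * ρ := by
      intro y hy
      rw [Set.uIoc_of_le (by linarith)] at hy
      have h2 : |y| ≤ β := abs_le.2 ⟨hy.1.le, hy.2⟩
      exact hfB _ _ le_rfl (by linarith) h2 ⟨-η', y, rfl, Or.inr (Or.inl ⟨rfl, h2⟩)⟩
    have h2 := intervalIntegral.norm_integral_le_of_norm_le_const h1
    rwa [show |β - (-β)| = 2 * β by rw [abs_of_nonneg (by linarith)]; ring] at h2
  have hH : ∀ t : ℝ, |t| = β →
      ‖∫ u in (-η')..η, f ((u : ℂ) + (t : ℂ) * Complex.I)‖ ≤ B * ρ * (η + η') := by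
    intro t ht
    have h1 : ∀ u ∈ Set.uIoc (-η') η, ‖f ((u : ℂ) + (t : ℂ) * Complex.I)‖ ≤ B * ρ := by
      intro u hu
      rw [Set.uIoc_of_le (by linarith)] at hu
      exact hfB _ _ hu.1.le hu.2 ht.le ⟨u, t, rfl, Or.inr (Or.inr ⟨hu.1.le, hu.2, ht⟩)⟩
    have h2 := intervalIntegral.norm_integral_le_of_norm_le_const h1
    rwa [show |η - (-η')| = η + η' by rw [abs_of_nonneg (by linarith)]; ring] at h2
  have hH1 := hH (-β) (by rw [abs_neg, abs_of_pos hβ])
  have hH2 := hH β (abs_of_pos hβ)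
  have hmid2 : ‖∫ y in (-β)..β, g y‖ ≤ B * ρ * (2 * β) + 2 * (B * ρ * (η + η')) := by
    rw [hmid]
    have h1 : Complex.I • (∫ y in (-β)..β, f ((η : ℂ) + y * Complex.I)) =
        Complex.I • (∫ y in (-β)..β, f (((-η' : ℝ) : ℂ) + y * Complex.I)) +
        ((∫ u in (-η')..η, f ((u : ℂ) + (β : ℂ) * Complex.I)) -
          ∫ u in (-η')..η, f ((u : ℂ) + ((-β : ℝ) : ℂ) * Complex.I)) := by
      linear_combination hcauchy
    have h2 : ‖Complex.I • (∫ y in (-β)..β, f ((η : ℂ) + y * Complex.I))‖ =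
        ‖∫ y in (-β)..β, f ((η : ℂ) + y * Complex.I)‖ := by
      rw [norm_smul, Complex.norm_I, one_mul]
    have h3 : ‖Complex.I • (∫ y in (-β)..β, f (((-η' : ℝ) : ℂ) + y * Complex.I))‖ =
        ‖∫ y in (-β)..β, f (((-η' : ℝ) : ℂ) + y * Complex.I)‖ := by
      rw [norm_smul, Complex.norm_I, one_mul]
    rw [← h2, h1]
    refine (norm_add_le _ _).trans ?_
    rw [h3]
    have h4 := norm_sub_le (∫ u in (-η')..η, f ((u : ℂ) + (β : ℂ) * Complex.I))
      (∫ u in (-η')..η, f ((u : ℂ) + ((-β : ℝ) : ℂ) * Complex.I))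
    linarith
  have hpair := G6_pair hsum P
  have hfinal : ‖(2 * Real.pi : ℂ) * pair b P‖ ≤
      2 * (A * ρ * (Real.pi - β)) + (B * ρ * (2 * β) + 2 * (B * ρ * (η + η'))) := by
    rw [← hpair]
    change ‖∫ y in (-Real.pi)..Real.pi, g y‖ ≤ _
    rw [hsplit]
    refine (norm_add_le _ _).trans ?_
    have := norm_add_le (∫ y in (-Real.pi)..(-β), g y) (∫ y in (-β)..β, g y)
    linarith
  have h2π : ‖(2 * Real.pi : ℂ)‖ = 2 * Real.pi := by
    rw [norm_mul, Complex.norm_real, Real.norm_of_nonneg hπ.le]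
    simp
  rw [norm_mul, h2π] at hfinal
  rw [div_mul_eq_mul_div, le_div_iff₀ (by positivity)]
  linarith

end MP7ed9c3
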