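import Pool.Agent.Lib.MP_7ed9c3_nt.SpecG

/-!
# MP_7ed9c3_nt, G7: a monic polynomial which is small on the keyhole
-/

set_option autoImplicit false

namespace MP7ed9c3

open Filter Topology

namespace G7aux

open Finset

/-- The Fejer kernel. -/
theorem fejer (y : ℝ) (n : ℕ) :
    (∑ k ∈ range n, Real.cos (k * y)) ^ 2 + (∑ k ∈ range n, Real.sin (k * y)) ^ 2 =
      2 * ∑ j ∈ range n, ((n : ℝ) - j) * Real.cos (j * y) - n := by
  induction n with
  | zero => simp
  | succ n ih =>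
    have h1 : (∑ k ∈ range n, Real.cos (k * y)) * Real.cos (n * y) +
        (∑ k ∈ range n, Real.sin (k * y)) * Real.sin (n * y) =
        ∑ k ∈ range n, Real.cos (((n : ℝ) - k) * y) := by
      rw [sum_mul, sum_mul, ← sum_add_distrib]
      refine sum_congr rfl fun k _ => ?_
      rw [sub_mul, Real.cos_sub]
      ring
    have h2 : ∑ k ∈ range n, Real.cos (((n : ℝ) - k) * y) + 1 =
        ∑ j ∈ range (n + 1), Real.cos (j * y) := by
      rw [sum_range_succ', ← sum_range_reflect]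
      congr 1
      · refine sum_congr rfl fun k hk => ?_
        have hk' := mem_range.1 hk
        congr 2
        rw [Nat.sub_sub, Nat.cast_sub (by omega)]
        push_cast
        ring
      · simp
    have h3 : ∑ j ∈ range (n + 1), (((n + 1 : ℕ) : ℝ) - j) * Real.cos (j * y) =
        ∑ j ∈ range n, ((n : ℝ) - j) * Real.cos (j * y) +
          ∑ j ∈ range (n + 1), Real.cos (j * y) := by
      have h4 : ∑ j ∈ range n, ((n : ℝ) - j) * Real.cos (j * y) =
          ∑ j ∈ range (n + 1), ((n : ℝ) - j) * Real.cos (j * y) := by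
        rw [sum_range_succ, sub_self, zero_mul, add_zero]
      rw [h4, ← sum_add_distrib]
      refine sum_congr rfl fun j _ => ?_
      push_cast
      ring
    rw [sum_range_succ, sum_range_succ, h3]
    have h5 := Real.sin_sq_add_cos_sq (n * y)
    push_cast
    nlinarith [ih, h1, h2, h5]

theorem fejer_le (y S : ℝ) (n : ℕ) (hS : 0 < S) (hs : S ≤ Real.sin (y / 2) ^ 2) :
    (∑ k ∈ range n, Real.cos (k * y)) ^ 2 + (∑ k ∈ range n, Real.sin (k * y)) ^ 2 ≤ 1 / S := by
  have hw : ∀ k : ℕ, Complex.exp (y * Complex.I) ^ k =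
      ((Real.cos (k * y) : ℝ) : ℂ) + ((Real.sin (k * y) : ℝ) : ℂ) * Complex.I := by
    intro k
    rw [← Complex.exp_nat_mul, Complex.ofReal_cos, Complex.ofReal_sin, ← Complex.exp_mul_I]
    congr 1
    push_cast
    ring
  have hgeom := geom_sum_mul (Complex.exp (y * Complex.I)) n
  have hD : ∑ k ∈ range n, Complex.exp (y * Complex.I) ^ k =
      ((∑ k ∈ range n, Real.cos (k * y) : ℝ) : ℂ) +
        ((∑ k ∈ range n, Real.sin (k * y) : ℝ) : ℂ) * Complex.I := by
    simp only [hw]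
    rw [sum_add_distrib, ← sum_mul]
    push_cast
    rfl
  have hw1 : Complex.exp (y * Complex.I) - 1 =
      ((Real.cos y - 1 : ℝ) : ℂ) + ((Real.sin y : ℝ) : ℂ) * Complex.I := by
    have := hw 1
    rw [pow_one, Nat.cast_one, one_mul] at this
    rw [this]
    push_cast
    ring
  have hwn : Complex.exp (y * Complex.I) ^ n - 1 =
      ((Real.cos (n * y) - 1 : ℝ) : ℂ) + ((Real.sin (n * y) : ℝ) : ℂ) * Complex.I := by
    rw [hw n]
    push_cast
    ring
  have h1 := congrArg Complex.normSq hgeom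
  rw [map_mul, hD, hw1, hwn, Complex.normSq_add_mul_I, Complex.normSq_add_mul_I,
    Complex.normSq_add_mul_I] at h1
  have h2 : (Real.cos y - 1) ^ 2 + Real.sin y ^ 2 = 4 * Real.sin (y / 2) ^ 2 := by
    have h3 := Real.sin_sq_add_cos_sq y
    have h4 : Real.cos y = 1 - 2 * Real.sin (y / 2) ^ 2 := by
      have h5 := Real.cos_two_mul' (y / 2)
      have h6 := Real.sin_sq_add_cos_sq (y / 2)
      rw [show 2 * (y / 2) = y by ring] at h5
      linarith
    nlinarith
  have h3 : (Real.cos (n * y) - 1) ^ 2 + Real.sin (n * y) ^ 2 ≤ 4 := by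
    have h4 := Real.sin_sq_add_cos_sq (n * y)
    have h5 := Real.neg_one_le_cos (n * y)
    nlinarith
  rw [h2] at h1
  rw [le_div_iff₀ hS]
  have h4 : 0 ≤ (∑ k ∈ range n, Real.cos (k * y)) ^ 2 + (∑ k ∈ range n, Real.sin (k * y)) ^ 2 := by
    positivity
  nlinarith [mul_le_mul_of_nonneg_left hs h4]

/-- The coefficients. -/
noncomputable def cf (J j : ℕ) : ℝ := ((J : ℝ) - j) / (J + 1)

theorem cf_nonneg {J j : ℕ} (hj : j < J) : 0 ≤ cf J j := by
  have h : (j : ℝ) < J := by exact_mod_cast hj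
  exact div_nonneg (by linarith) (by positivity)

theorem cf_le_one {J j : ℕ} : cf J j ≤ 1 := by
  rw [cf, div_le_one (by positivity)]
  have : (0 : ℝ) ≤ j := Nat.cast_nonneg j
  linarith

theorem sum_cf_cos (y S : ℝ) (J : ℕ) (hS : 0 < S) (hs : S ≤ Real.sin (y / 2) ^ 2)
    (hJ : 2 ≤ ((J : ℝ) + 1) * S) :
    ∑ j ∈ range J, cf J j * Real.cos (((j : ℝ) + 1) * y) ≤ -(1 / 4) := by
  have h1 := fejer y (J + 1)
  have h2 := fejer_le y S (J + 1) hS hs
  rw [h1] at h2
  rw [sum_range_succ'] at h2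
  have hJ0 : (0 : ℝ) < (J : ℝ) + 1 := by positivity
  have h3 : ∑ j ∈ range J, (((J + 1 : ℕ) : ℝ) - ((j + 1 : ℕ) : ℝ)) *
      Real.cos (((j + 1 : ℕ) : ℝ) * y) =
      ((J : ℝ) + 1) * ∑ j ∈ range J, cf J j * Real.cos (((j : ℝ) + 1) * y) := by
    rw [mul_sum]
    refine sum_congr rfl fun j _ => ?_
    rw [cf]
    push_cast
    field_simp
    ring
  rw [h3] at h2
  simp only [Nat.cast_zero, zero_mul, Real.cos_zero, sub_zero, mul_one] at h2
  push_cast at h2
  have h4 : 1 / S ≤ ((J : ℝ) + 1) / 2 := by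
    rw [div_le_div_iff₀ hS (by norm_num)]
    linarith
  have h5 : 2 * (((J : ℝ) + 1) * ∑ j ∈ range J, cf J j * Real.cos (((j : ℝ) + 1) * y) +
      ((J : ℝ) + 1)) - ((J : ℝ) + 1) ≤ ((J : ℝ) + 1) / 2 := h2.trans h4
  by_contra hcon
  push Not at hcon
  have := mul_lt_mul_of_pos_left hcon hJ0
  linarith

/-- The sum in the powers of `z⁻¹`. -/
noncomputable def gg (J : ℕ) (w : ℂ) : ℂ :=
  ∑ j ∈ range J, (cf J j : ℂ) * Complex.exp (-(((j : ℂ) + 1) * w))

theorem gg_est (y u S : ℝ) (J : ℕ) (hJ1 : 1 ≤ J) (hS : 0 < S) (hs : S ≤ Real.sin (y / 2) ^ 2)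
    (hJ : 2 ≤ ((J : ℝ) + 1) * S) (hu : |u| ≤ 1 / (16 * (J : ℝ) ^ 2)) :
    (gg J (u + y * Complex.I)).re ≤ -(1 / 8) ∧ ‖gg J (u + y * Complex.I)‖ ≤ 2 * J := by
  have hJ1' : (1 : ℝ) ≤ J := by exact_mod_cast hJ1
  have h1 : ‖gg J (u + y * Complex.I) -
      ∑ j ∈ range J, (cf J j : ℂ) * Complex.exp (-((((j : ℝ) + 1) * y : ℝ) : ℂ) * Complex.I)‖ ≤
      1 / 8 := by
    rw [gg, ← sum_sub_distrib]
    have h2 : ∀ j ∈ range J, ‖(cf J j : ℂ) * Complex.exp (-(((j : ℂ) + 1) * (u + y * Complex.I))) -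
        (cf J j : ℂ) * Complex.exp (-((((j : ℝ) + 1) * y : ℝ) : ℂ) * Complex.I)‖ ≤
        2 * (J * |u|) := by
      intro j hj
      have hj' : (j : ℝ) + 1 ≤ J := by exact_mod_cast mem_range.1 hj
      have h3 : (cf J j : ℂ) * Complex.exp (-(((j : ℂ) + 1) * (u + y * Complex.I))) -
          (cf J j : ℂ) * Complex.exp (-((((j : ℝ) + 1) * y : ℝ) : ℂ) * Complex.I) =
          (cf J j : ℂ) * (((Real.exp (-(((j : ℝ) + 1) * u)) - 1 : ℝ) : ℂ) *
            Complex.exp (-((((j : ℝ) + 1) * y : ℝ) : ℂ) * Complex.I)) := by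
        have h4 : Complex.exp (-(((j : ℂ) + 1) * (u + y * Complex.I))) =
            ((Real.exp (-(((j : ℝ) + 1) * u)) : ℝ) : ℂ) *
              Complex.exp (-((((j : ℝ) + 1) * y : ℝ) : ℂ) * Complex.I) := by
          rw [Complex.ofReal_exp, ← Complex.exp_add]
          congr 1
          push_cast
          ring
        rw [h4]
        push_cast
        ring
      rw [h3, norm_mul, norm_mul, Complex.norm_real, Complex.norm_real]
      have h5 : ‖Complex.exp (-((((j : ℝ) + 1) * y : ℝ) : ℂ) * Complex.I)‖ = 1 := by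
        rw [← Complex.ofReal_neg]
        exact Complex.norm_exp_ofReal_mul_I _
      rw [h5, mul_one, Real.norm_eq_abs, Real.norm_eq_abs,
        abs_of_nonneg (cf_nonneg (mem_range.1 hj))]
      have h6 : |-(((j : ℝ) + 1) * u)| ≤ J * |u| := by
        rw [abs_neg, abs_mul, abs_of_nonneg (by positivity : (0 : ℝ) ≤ (j : ℝ) + 1)]
        exact mul_le_mul_of_nonneg_right hj' (abs_nonneg u)
      have h7 : (J : ℝ) * |u| ≤ 1 := by
        calc (J : ℝ) * |u| ≤ J * (1 / (16 * (J : ℝ) ^ 2)) :=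
              mul_le_mul_of_nonneg_left hu (by positivity)
          _ = 1 / (16 * J) := by field_simp
          _ ≤ 1 := by
              rw [div_le_one (by positivity)]
              linarith
      have h8 := Real.abs_exp_sub_one_le (h6.trans h7)
      calc cf J j * |Real.exp (-(((j : ℝ) + 1) * u)) - 1|
          ≤ 1 * |Real.exp (-(((j : ℝ) + 1) * u)) - 1| :=
            mul_le_mul_of_nonneg_right cf_le_one (abs_nonneg _)
        _ ≤ 2 * |-(((j : ℝ) + 1) * u)| := by rw [one_mul]; exact h8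
        _ ≤ 2 * (J * |u|) := by linarith
    calc _ ≤ ∑ j ∈ range J, (2 * (J * |u|)) := norm_sum_le_of_le _ h2
      _ = J * (2 * (J * |u|)) := by rw [sum_const, card_range, nsmul_eq_mul]
      _ ≤ J * (2 * (J * (1 / (16 * (J : ℝ) ^ 2)))) := by gcongr
      _ = 1 / 8 := by
          field_simp
          norm_num
  have h2 : (∑ j ∈ range J, (cf J j : ℂ) *
      Complex.exp (-((((j : ℝ) + 1) * y : ℝ) : ℂ) * Complex.I)).re =
      ∑ j ∈ range J, cf J j * Real.cos (((j : ℝ) + 1) * y) := by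
    rw [Complex.re_sum]
    refine sum_congr rfl fun j _ => ?_
    rw [Complex.re_ofReal_mul, ← Complex.ofReal_neg, Complex.exp_ofReal_mul_I_re, Real.cos_neg]
  have h3 : ‖∑ j ∈ range J, (cf J j : ℂ) *
      Complex.exp (-((((j : ℝ) + 1) * y : ℝ) : ℂ) * Complex.I)‖ ≤ J := by
    calc _ ≤ ∑ j ∈ range J, (1 : ℝ) := by
          refine norm_sum_le_of_le _ fun j hj => ?_
          rw [norm_mul, Complex.norm_real, ← Complex.ofReal_neg, Complex.norm_exp_ofReal_mul_I,
            mul_one, Real.norm_eq_abs, abs_of_nonneg (cf_nonneg (mem_range.1 hj))]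
          exact cf_le_one
      _ = J := by simp
  have h4 := sum_cf_cos y S J hS hs hJ
  constructor
  · have h5 := (Complex.abs_re_le_norm _).trans h1
    rw [Complex.sub_re, h2] at h5
    have h6 := (abs_le.1 h5).2
    linarith
  · have h5 := norm_le_norm_add_norm_sub'
      (gg J (u + y * Complex.I)) (∑ j ∈ range J, (cf J j : ℂ) *
      Complex.exp (-((((j : ℝ) + 1) * y : ℝ) : ℂ) * Complex.I))
    linarith

theorem one_add_est {g : ℂ} {J : ℕ} {ε : ℝ} (hJ1 : 1 ≤ J) (h1 : g.re ≤ -(1 / 8))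
    (h2 : ‖g‖ ≤ 2 * J) (hε : 0 < ε) (hε2 : ε * (32 * (J : ℝ) ^ 2) ≤ 1) :
    ‖1 + (ε : ℂ) * g‖ ≤ 1 - ε / 16 := by
  have hJ1' : (1 : ℝ) ≤ J := by exact_mod_cast hJ1
  have hε1 : ε ≤ 1 / 32 := by
    have : (1 : ℝ) ≤ (J : ℝ) ^ 2 := by nlinarith
    nlinarith
  have h3 : ‖1 + (ε : ℂ) * g‖ ^ 2 = 1 + 2 * (ε * g.re) + ε ^ 2 * ‖g‖ ^ 2 := by
    rw [← Complex.normSq_eq_norm_sq, ← Complex.normSq_eq_norm_sq, Complex.normSq_apply,
      Complex.normSq_apply]
    simp only [Complex.add_re, Complex.one_re, Complex.re_ofReal_mul, Complex.add_im,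
      Complex.one_im, Complex.im_ofReal_mul, zero_add]
    ring
  have h4 : ‖g‖ ^ 2 ≤ 4 * (J : ℝ) ^ 2 := by
    have := norm_nonneg g
    nlinarith
  have h5 : ε ^ 2 * ‖g‖ ^ 2 ≤ ε / 8 := by
    have h6 : ε ^ 2 * ‖g‖ ^ 2 ≤ ε ^ 2 * (4 * (J : ℝ) ^ 2) :=
      mul_le_mul_of_nonneg_left h4 (by positivity)
    have h7 : ε * (ε * (32 * (J : ℝ) ^ 2)) ≤ ε * 1 := mul_le_mul_of_nonneg_left hε2 hε.le
    nlinarith
  have h6 : ε * g.re ≤ ε * (-(1 / 8)) := mul_le_mul_of_nonneg_left h1 hε.le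
  have h7 : ‖1 + (ε : ℂ) * g‖ ^ 2 ≤ (1 - ε / 16) ^ 2 := by
    rw [h3]
    nlinarith [sq_nonneg ε]
  exact (sq_le_sq₀ (norm_nonneg _) (by linarith)).1 h7

/-- The polynomial. -/
noncomputable def pp (J : ℕ) (ε : ℝ) : Polynomial ℂ :=
  Polynomial.X ^ J +
    Polynomial.C (ε : ℂ) * ∑ j ∈ range J, Polynomial.C (cf J j : ℂ) * Polynomial.X ^ (J - 1 - j)

theorem degree_lt (J : ℕ) (ε : ℝ) (hJ : 1 ≤ J) :
    (Polynomial.C (ε : ℂ) *
      ∑ j ∈ range J, Polynomial.C (cf J j : ℂ) * Polynomial.X ^ (J - 1 - j)).degree < J := by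
  rw [Polynomial.degree_lt_iff_coeff_zero]
  intro m hm
  rw [Polynomial.coeff_C_mul, Polynomial.finsetSum_coeff]
  rw [sum_eq_zero, mul_zero]
  intro j _
  rw [Polynomial.coeff_C_mul, Polynomial.coeff_X_pow, if_neg (by omega), mul_zero]

theorem eval_pp (J : ℕ) (ε : ℝ) (w : ℂ) :
    (pp J ε).eval (Complex.exp w) = Complex.exp w ^ J * (1 + (ε : ℂ) * gg J w) := by
  rw [pp, gg, Polynomial.eval_add, Polynomial.eval_pow, Polynomial.eval_X, Polynomial.eval_mul,
    Polynomial.eval_C, Polynomial.eval_finsetSum, mul_add, mul_one]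
  congr 1
  rw [← mul_assoc, mul_comm (Complex.exp w ^ J) (ε : ℂ), mul_assoc]
  congr 1
  rw [mul_sum]
  refine sum_congr rfl fun j hj => ?_
  have hj' := mem_range.1 hj
  rw [Polynomial.eval_mul, Polynomial.eval_C, Polynomial.eval_pow, Polynomial.eval_X]
  have h1 : Complex.exp w ^ J * Complex.exp (-(((j : ℂ) + 1) * w)) =
      Complex.exp w ^ (J - 1 - j) := by
    have h2 : Complex.exp w ^ J = Complex.exp w ^ (J - 1 - j) * Complex.exp (((j : ℂ) + 1) * w) := by
      have h3 : Complex.exp (((j : ℂ) + 1) * w) = Complex.exp w ^ (j + 1) := by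
        rw [← Complex.exp_nat_mul]
        push_cast
        rfl
      rw [h3, ← pow_add]
      congr 1
      omega
    rw [h2, mul_assoc, ← Complex.exp_add, add_neg_cancel, Complex.exp_zero, mul_one]
  rw [← h1]
  ring

theorem norm_eval_le (J : ℕ) (ε : ℝ) (hε : 0 ≤ ε) (z : ℂ) (hz : ‖z‖ ≤ 1) :
    ‖(pp J ε).eval z‖ ≤ ‖z‖ ^ J + ε * J := by
  rw [pp, Polynomial.eval_add, Polynomial.eval_pow, Polynomial.eval_X, Polynomial.eval_mul,
    Polynomial.eval_C, Polynomial.eval_finsetSum]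
  refine (norm_add_le _ _).trans ?_
  rw [norm_pow, norm_mul, Complex.norm_real, Real.norm_eq_abs, abs_of_nonneg hε]
  gcongr
  calc _ ≤ ∑ j ∈ range J, (1 : ℝ) := by
        refine norm_sum_le_of_le _ fun j hj => ?_
        rw [Polynomial.eval_mul, Polynomial.eval_C, Polynomial.eval_pow, Polynomial.eval_X,
          norm_mul, Complex.norm_real, norm_pow, Real.norm_eq_abs,
          abs_of_nonneg (cf_nonneg (mem_range.1 hj))]
        exact mul_le_one₀ cf_le_one (by positivity) (pow_le_one₀ (norm_nonneg _) hz)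
    _ = J := by simp

end G7aux

open G7aux in
theorem smallPoly : SmallPoly := by
  intro r hr
  set β : ℝ := min (r / 2) 1 with hβ
  have hβ0 : 0 < β := lt_min (by linarith) one_pos
  have hβ1 : β ≤ 1 := min_le_right _ _
  have hβr : β ≤ r / 2 := min_le_left _ _
  have hβπ : β < Real.pi := lt_of_le_of_lt hβ1 (by linarith [Real.pi_gt_three])
  set S : ℝ := Real.sin (β / 2) ^ 2 with hS
  have hsinpos : 0 < Real.sin (β / 2) :=
    Real.sin_pos_of_pos_of_lt_pi (by linarith) (by linarith [Real.pi_gt_three])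
  have hS0 : 0 < S := by positivity
  obtain ⟨J₀, hJ₀⟩ := exists_nat_ge (2 / S)
  set J : ℕ := J₀ + 1 with hJdef
  have hJ1 : 1 ≤ J := by omega
  have hJ1' : (1 : ℝ) ≤ J := by exact_mod_cast hJ1
  have hJS : 2 ≤ ((J : ℝ) + 1) * S := by
    have h1 : 2 / S ≤ (J : ℝ) + 1 := by
      rw [hJdef]
      push_cast
      linarith
    rwa [div_le_iff₀ hS0] at h1
  set η' : ℝ := min (1 / (16 * (J : ℝ) ^ 2)) (r / 2) with hη'
  have hη'0 : 0 < η' := lt_min (by positivity) (by linarith)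
  have hη'1 : η' ≤ 1 / (16 * (J : ℝ) ^ 2) := min_le_left _ _
  have hη'r : η' ≤ r / 2 := min_le_right _ _
  set E : ℝ := Real.exp (-(J * η')) with hE
  have hE1 : E < 1 := by
    rw [hE, Real.exp_lt_one_iff]
    have : 0 < (J : ℝ) * η' := by positivity
    linarith
  have hE0 : 0 < E := Real.exp_pos _
  set ε : ℝ := min (1 / (32 * (J : ℝ) ^ 2)) ((1 - E) / (2 * J)) with hε
  have hε0 : 0 < ε := lt_min (by positivity) (div_pos (by linarith) (by positivity))
  have hε1 : ε * (32 * (J : ℝ) ^ 2) ≤ 1 := by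
    have h1 : ε ≤ 1 / (32 * (J : ℝ) ^ 2) := min_le_left _ _
    rwa [le_div_iff₀ (by positivity)] at h1
  have hε2 : ε * J ≤ (1 - E) / 2 := by
    have h1 : ε ≤ (1 - E) / (2 * J) := min_le_right _ _
    rw [le_div_iff₀ (by positivity)] at h1
    linarith
  have hεs : ε ≤ 1 / 32 := by
    have : (1 : ℝ) ≤ (J : ℝ) ^ 2 := by nlinarith
    nlinarith
  set η₀ : ℝ := min η' (ε / (64 * J)) with hη₀
  have hη₀0 : 0 < η₀ := lt_min hη'0 (by positivity)
  have hη₀1 : η₀ ≤ η' := min_le_left _ _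
  have hη₀2 : J * η₀ ≤ ε / 64 := by
    have h1 : η₀ ≤ ε / (64 * J) := min_le_right _ _
    rw [le_div_iff₀ (by positivity)] at h1
    linarith
  refine ⟨β, η', η₀, max (1 - ε / 32) ((1 + E) / 2), pp J ε, hβ0, hβπ, hη'0, ?_, hη₀0, hη₀1, ?_,
    ?_, Polynomial.monic_X_pow_add (degree_lt J ε hJ1), ?_, ?_⟩
  · nlinarith
  · exact lt_max_of_lt_left (by linarith)
  · exact max_lt (by linarith) (by linarith)
  · rw [pp, Polynomial.natDegree_add_eq_left_of_degree_lt, Polynomial.natDegree_X_pow]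
    · omega
    · rw [Polynomial.degree_X_pow]
      exact degree_lt J ε hJ1
  · intro η hη hηη₀ z hz
    obtain ⟨u, y, rfl, hcase⟩ := hz
    -- the two estimates
    have outer : ∀ u y : ℝ, |u| ≤ η' → u ≤ η₀ → β ≤ |y| → |y| ≤ Real.pi →
        ‖(pp J ε).eval (Complex.exp (u + y * Complex.I))‖ ≤ 1 - ε / 32 := by
      intro u y hu1 hu2 hy1 hy2
      have hs : S ≤ Real.sin (y / 2) ^ 2 := by
        rw [hS, ← sq_abs (Real.sin (y / 2))]
        have h1 : |Real.sin (y / 2)| = Real.sin (|y| / 2) := by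
          rcases abs_cases y with ⟨h, h'⟩ | ⟨h, h'⟩
          · rw [h, abs_of_nonneg]
            exact Real.sin_nonneg_of_nonneg_of_le_pi (by linarith) (by linarith [Real.pi_pos])
          · have h2 : Real.sin (y / 2) = -Real.sin (|y| / 2) := by
              rw [h, ← Real.sin_neg]
              congr 1
              ring
            rw [h2, abs_neg, abs_of_nonneg]
            exact Real.sin_nonneg_of_nonneg_of_le_pi (by positivity) (by linarith [Real.pi_pos])
        rw [h1]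
        have h2 : Real.sin (β / 2) ≤ Real.sin (|y| / 2) :=
          Real.sin_le_sin_of_le_of_le_pi_div_two (by linarith [Real.pi_pos]) (by linarith)
            (by linarith)
        exact pow_le_pow_left₀ hsinpos.le h2 2
      obtain ⟨h1, h2⟩ := gg_est y u S J hJ1 hS0 hs hJS (hu1.trans hη'1)
      have h3 := one_add_est hJ1 h1 h2 hε0 hε1
      rw [eval_pp, norm_mul, norm_pow]
      have h4 : ‖Complex.exp (u + y * Complex.I)‖ = Real.exp u := by
        rw [Complex.norm_exp]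
        simp
      rw [h4, ← Real.exp_nat_mul]
      have h5 : Real.exp (J * u) ≤ 1 + ε / 32 := by
        have h6 : (J : ℝ) * u ≤ ε / 64 :=
          (mul_le_mul_of_nonneg_left hu2 (by positivity)).trans hη₀2
        have h7 := Real.abs_exp_sub_one_le (x := ε / 64) (by
          rw [abs_of_nonneg (by positivity)]
          linarith)
        rw [abs_of_nonneg (by positivity : (0 : ℝ) ≤ ε / 64)] at h7
        have h8 := (abs_le.1 h7).2
        have h9 := Real.exp_le_exp.2 h6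
        linarith
      calc Real.exp (J * u) * ‖1 + (ε : ℂ) * gg J (u + y * Complex.I)‖
          ≤ (1 + ε / 32) * (1 - ε / 16) :=
            mul_le_mul h5 h3 (norm_nonneg _) (by positivity)
        _ ≤ 1 - ε / 32 := by nlinarith
    rcases hcase with ⟨h1, h2, h3⟩ | ⟨h1, h2⟩ | ⟨h1, h2, h3⟩
    · refine (outer u y ?_ (h1.le.trans hηη₀) h2 h3).trans (le_max_left _ _)
      rw [h1, abs_of_pos hη]
      exact hηη₀.trans hη₀1
    · refine le_trans ?_ (le_max_right _ _)
      have h4 : ‖Complex.exp (u + y * Complex.I)‖ = Real.exp (-η') := by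
        rw [Complex.norm_exp, ← h1]
        simp
      have h5 := norm_eval_le J ε hε0.le (Complex.exp (u + y * Complex.I)) (by
        rw [h4, Real.exp_le_one_iff]
        linarith)
      rw [h4, ← Real.exp_nat_mul] at h5
      have h6 : Real.exp (J * -η') = E := by
        rw [hE]
        congr 1
        ring
      rw [h6] at h5
      linarith
    · refine (outer u y ?_ (h2.trans hηη₀) h3.ge (h3.le.trans hβπ.le)).trans (le_max_left _ _)
      rw [abs_le]
      exact ⟨h1, h2.trans (hηη₀.trans hη₀1)⟩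

end MP7ed9c3
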