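import Pool.Agent.Lib.MP_7ed9c3_nt.SpecG

/-!
# MP_7ed9c3_nt: recurrence through Siegel's lemma
-/

namespace MP7ed9c3

open Filter Topology

/-- The pairing as a linear map. -/
noncomputable def g8lam (b : ℕ → ℂ) : Polynomial ℂ →ₗ[ℂ] ℂ :=
  Polynomial.lsum fun n => LinearMap.toSpanSingleton ℂ ℂ (b n)

theorem g8lam_monomial (b : ℕ → ℂ) (n : ℕ) (a : ℂ) :
    g8lam b (Polynomial.monomial n a) = a * b n := by
  unfold g8lam
  rw [Polynomial.lsum_apply, Polynomial.sum_monomial_index]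
  · simp [LinearMap.toSpanSingleton_apply]
  · simp

theorem g8_pair (b : ℕ → ℂ) (P : Polynomial ℂ) : pair b P = g8lam b P := by
  unfold pair g8lam
  rw [Polynomial.lsum_apply, Polynomial.sum_over_range]
  · simp [LinearMap.toSpanSingleton_apply]
  · intro n
    simp

/-- The value of the pairing on a product. -/
theorem g8_prod (b : ℕ → ℂ) (n j : ℕ) (t : Fin n → ℂ) (g : Polynomial ℂ) (hg : g.Monic)
    (hj : g.natDegree = j) (h0 : ∀ k < j, ∑ i : Fin n, t i * b (i + k) = 0) :
    pair b ((∑ i : Fin n, Polynomial.monomial (i : ℕ) (t i)) * g) =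
      ∑ i : Fin n, t i * b (i + j) := by
  rw [g8_pair]
  have h1 : g = ∑ k ∈ Finset.range (j + 1), Polynomial.monomial k (g.coeff k) := by
    conv_lhs => rw [g.as_sum_range]
    rw [hj]
  have h2 : (∑ i : Fin n, Polynomial.monomial (i : ℕ) (t i)) * g =
      ∑ i : Fin n, ∑ k ∈ Finset.range (j + 1),
        Polynomial.monomial ((i : ℕ) + k) (t i * g.coeff k) := by
    conv_lhs => rw [h1]
    rw [Finset.sum_mul]
    refine Finset.sum_congr rfl fun i _ => ?_
    rw [Finset.mul_sum]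
    exact Finset.sum_congr rfl fun k _ => Polynomial.monomial_mul_monomial _ _ _ _
  rw [h2]
  simp only [map_sum, g8lam_monomial]
  rw [Finset.sum_comm, Finset.sum_range_succ]
  have h3 : ∀ k, ∑ i : Fin n, t i * g.coeff k * b (i + k) =
      g.coeff k * ∑ i : Fin n, t i * b (i + k) := by
    intro k
    rw [Finset.mul_sum]
    exact Finset.sum_congr rfl fun i _ => by ring
  have h4 : ∑ k ∈ Finset.range j, ∑ i : Fin n, t i * g.coeff k * b (i + k) = 0 := by
    apply Finset.sum_eq_zero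
    intro k hk
    rw [h3, h0 k (Finset.mem_range.mp hk), mul_zero]
  have h5 : g.coeff j = 1 := by
    rw [← hj]
    exact hg
  rw [h4, h3, h5, zero_add, one_mul]

/-- On the keyhole the absolute value is at most `exp η`. -/
theorem g8_keyhole {η η' β : ℝ} (hη : 0 < η) (hη' : 0 < η') {z : ℂ} (hz : z ∈ keyhole η η' β) :
    ‖z‖ ≤ Real.exp η := by
  obtain ⟨u, y, rfl, h⟩ := hz
  rw [Complex.norm_exp]
  have h1 : (u + y * Complex.I : ℂ).re = u := by simp
  rw [h1]
  apply Real.exp_le_exp.mpr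
  rcases h with ⟨h, -⟩ | ⟨h, -⟩ | ⟨-, h, -⟩ <;> linarith

attribute [local instance] Matrix.seminormedAddCommGroup in
/-- Siegel's lemma for the Hankel matrix. -/
theorem g8_siegel (b : ℕ → ℤ) (B : ℝ) (hB : 1 ≤ B) (hb : ∀ n, |(b n : ℝ)| ≤ B * (n : ℝ) ^ 2)
    (L : ℕ) (hL : 1 ≤ L) : ∃ t : Fin (2 * L) → ℤ, t ≠ 0 ∧
      (∀ i, |(t i : ℝ)| ≤ 18 * B * (L : ℝ) ^ 3) ∧
      ∀ j < L, ∑ i : Fin (2 * L), t i * b (i + j) = 0 := by
  have hLr : (1 : ℝ) ≤ L := by exact_mod_cast hL
  obtain ⟨t, ht0, hAt, htn⟩ := Int.Matrix.exists_ne_zero_int_vec_norm_le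
    (Matrix.of fun (j : Fin L) (i : Fin (2 * L)) => b (i + j)) (by simp; omega) (by simp; omega)
  refine ⟨t, ht0, ?_, ?_⟩
  · intro i
    have h1 : |(t i : ℝ)| ≤ ‖t‖ := by
      have := norm_le_pi_norm t i
      rwa [Int.norm_eq_abs] at this
    have h2 : ‖(Matrix.of fun (j : Fin L) (i : Fin (2 * L)) => b (i + j))‖ ≤
        9 * B * (L : ℝ) ^ 2 := by
      rw [Matrix.norm_le_iff (by positivity)]
      intro j k
      rw [Matrix.of_apply, Int.norm_eq_abs]
      refine (hb _).trans ?_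
      have h3 : ((k : ℕ) : ℝ) ≤ 2 * L := by
        have := k.isLt.le
        exact_mod_cast this
      have h4 : ((j : ℕ) : ℝ) ≤ L := by
        have := j.isLt.le
        exact_mod_cast this
      have h5 : (((k : ℕ) + (j : ℕ) : ℕ) : ℝ) ≤ 3 * L := by
        push_cast
        linarith
      have h6 : ((((k : ℕ) + (j : ℕ) : ℕ) : ℝ)) ^ 2 ≤ (3 * L) ^ 2 :=
        pow_le_pow_left₀ (by positivity) h5 2
      calc B * ((((k : ℕ) + (j : ℕ) : ℕ) : ℝ)) ^ 2 ≤ B * (3 * L) ^ 2 :=
            mul_le_mul_of_nonneg_left h6 (by linarith)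
        _ = 9 * B * (L : ℝ) ^ 2 := by ring
    have h3 : max 1 ‖(Matrix.of fun (j : Fin L) (i : Fin (2 * L)) => b (i + j))‖ ≤
        9 * B * (L : ℝ) ^ 2 := by
      apply max_le _ h2
      have : (1 : ℝ) ≤ (L : ℝ) ^ 2 := one_le_pow₀ hLr
      nlinarith
    have h4 : ((Fintype.card (Fin L) : ℝ) / ((Fintype.card (Fin (2 * L)) : ℝ) -
        (Fintype.card (Fin L) : ℝ))) = 1 := by
      simp only [Fintype.card_fin]
      push_cast
      have : (2 * (L : ℝ) - L) = L := by ring
      rw [this]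
      exact div_self (by linarith)
    rw [h4, Real.rpow_one] at htn
    refine (h1.trans htn).trans ?_
    simp only [Fintype.card_fin]
    push_cast
    calc 2 * (L : ℝ) * max 1 ‖(Matrix.of fun (j : Fin L) (i : Fin (2 * L)) => b (i + j))‖ ≤
          2 * (L : ℝ) * (9 * B * (L : ℝ) ^ 2) := mul_le_mul_of_nonneg_left h3 (by positivity)
      _ = 18 * B * (L : ℝ) ^ 3 := by ring
  · intro j hj
    have h1 := congrFun hAt ⟨j, hj⟩
    simp only [Matrix.mulVec, dotProduct, Matrix.of_apply, Pi.zero_apply] at h1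
    rw [← h1]
    exact Finset.sum_congr rfl fun i _ => mul_comm _ _

theorem g8_bound (b : ℕ → ℤ) (h0 : b 0 = 0)
    (hs : Summable (fun n : ℕ => |(b n : ℝ)| * (n : ℝ) ^ (-(2 : ℝ)))) :
    ∃ B : ℝ, 1 ≤ B ∧ ∀ n, |(b n : ℝ)| ≤ B * (n : ℝ) ^ 2 := by
  refine ⟨max 1 (∑' n : ℕ, |(b n : ℝ)| * (n : ℝ) ^ (-(2 : ℝ))), le_max_left _ _, ?_⟩
  intro n
  rcases Nat.eq_zero_or_pos n with rfl | hn
  · rw [h0]
    simp
  · have hn' : (0 : ℝ) < n := by exact_mod_cast hn
    have h1 := hs.le_tsum n (fun m _ => by positivity)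
    have h2 : |(b n : ℝ)| * (n : ℝ) ^ (-(2 : ℝ)) ≤
        max 1 (∑' n : ℕ, |(b n : ℝ)| * (n : ℝ) ^ (-(2 : ℝ))) := h1.trans (le_max_right _ _)
    have h3 := mul_le_mul_of_nonneg_right h2 (show (0 : ℝ) ≤ (n : ℝ) ^ 2 by positivity)
    have h4 : |(b n : ℝ)| * (n : ℝ) ^ (-(2 : ℝ)) * (n : ℝ) ^ 2 = |(b n : ℝ)| := by
      rw [Real.rpow_neg hn'.le, Real.rpow_two, mul_assoc, inv_mul_cancel₀ (by positivity), mul_one]
    rwa [h4] at h3

/-- G8. -/
theorem recurrentOf (g6 : Functional) (g7 : SmallPoly) : RecurrentOf := by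
  intro b r hb0 hsum hr hnear
  obtain ⟨B, hB1, hB⟩ := g8_bound b hb0 hsum
  obtain ⟨β, η', η₀, ρ, p, hβ, hβπ, hη', hβη, hη₀, hη₀', hρ0, hρ1, hpm, hJ, hsmall⟩ := g7 r hr
  set J := p.natDegree with hJdef
  -- choice of η
  obtain ⟨η, hη, hηη₀, hw⟩ : ∃ η : ℝ, 0 < η ∧ η ≤ η₀ ∧ Real.exp η ^ (2 * J) * ρ < 1 := by
    have hlog : Real.log ρ < 0 := Real.log_neg hρ0 hρ1
    have hJr : (0 : ℝ) < J := by exact_mod_cast hJ
    refine ⟨min η₀ (-Real.log ρ / (4 * J)), lt_min hη₀ (div_pos (by linarith) (by positivity)),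
      min_le_left _ _, ?_⟩
    have h1 : min η₀ (-Real.log ρ / (4 * J)) ≤ -Real.log ρ / (4 * J) := min_le_right _ _
    rw [← Real.exp_nat_mul]
    have h2 : ρ = Real.exp (Real.log ρ) := (Real.exp_log hρ0).symm
    conv_lhs => rw [h2]
    rw [← Real.exp_add, Real.exp_lt_one_iff]
    have h3 : ((2 * J : ℕ) : ℝ) * min η₀ (-Real.log ρ / (4 * J)) ≤
        ((2 * J : ℕ) : ℝ) * (-Real.log ρ / (4 * J)) := mul_le_mul_of_nonneg_left h1 (by positivity)
    have h4 : ((2 * J : ℕ) : ℝ) * (-Real.log ρ / (4 * J)) = -Real.log ρ / 2 := by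
      push_cast
      field_simp
      ring
    rw [Real.exp_log hρ0] at *
    linarith
  obtain ⟨M, hM, hMP⟩ := g6 (fun n => (b n : ℂ)) r η η' β (by simp [hb0])
    (by simpa using hsum) hnear hβ hβπ hη' hβη hr hη (hηη₀.trans hη₀')
  have hx1 : 1 ≤ Real.exp η := Real.one_le_exp hη.le
  set x := Real.exp η with hxdef
  -- choice of T
  obtain ⟨T, hT1, hT⟩ : ∃ T : ℕ, 1 ≤ T ∧
      M * (36 * B * (J : ℝ) ^ 4 * x ^ J) * ((T : ℝ) ^ 4 * (x ^ (2 * J) * ρ) ^ T) < 1 := by
    have h1 := (tendsto_pow_const_mul_const_pow_of_abs_lt_one 4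
      (show |x ^ (2 * J) * ρ| < 1 by rwa [abs_of_nonneg (by positivity)])).const_mul
        (M * (36 * B * (J : ℝ) ^ 4 * x ^ J))
    rw [mul_zero] at h1
    have h2 := (h1.eventually (gt_mem_nhds one_pos)).and (eventually_ge_atTop 1)
    obtain ⟨T, h3, h4⟩ := h2.exists
    exact ⟨T, h4, h3⟩
  set L := J * T with hLdef
  have hL1 : 1 ≤ L := Nat.mul_pos hJ hT1
  obtain ⟨t, ht0, htb, hte⟩ := g8_siegel b B hB1 hB L hL1
  have hall : ∀ j, ∑ i : Fin (2 * L), t i * b (i + j) = 0 := by
    intro j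
    induction j using Nat.strong_induction_on with
    | _ j ih =>
      by_cases hj : j < L
      · exact hte j hj
      · have hLj : L ≤ j := not_lt.mp hj
        -- the monic polynomial of degree j
        set g : Polynomial ℂ := p ^ (j / J) * Polynomial.X ^ (j % J) with hgdef
        have hgm : g.Monic := (hpm.pow _).mul (Polynomial.monic_X_pow _)
        have hgd : g.natDegree = j := by
          rw [hgdef, (hpm.pow _).natDegree_mul (Polynomial.monic_X_pow _), hpm.natDegree_pow,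
            Polynomial.natDegree_X_pow, ← hJdef, mul_comm]
          exact Nat.div_add_mod j J
        have hpair := g8_prod (fun n => (b n : ℂ)) (2 * L) j (fun i => (t i : ℂ)) g hgm hgd
          (by
            intro k hk
            have := ih k hk
            exact_mod_cast this)
        have hTm : T ≤ j / J := by
          rw [Nat.le_div_iff_mul_le hJ, mul_comm]
          exact hLj
        have hbound : ∀ z ∈ keyhole η η' β,
            ‖((∑ i : Fin (2 * L), Polynomial.monomial (i : ℕ) ((t i : ℂ))) * g).eval z‖ ≤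
              (2 * L * (18 * B * (L : ℝ) ^ 3) * x ^ (2 * L)) * (ρ ^ T * x ^ J) := by
          intro z hz
          have hzx : ‖z‖ ≤ x := g8_keyhole hη hη' hz
          rw [Polynomial.eval_mul, norm_mul]
          apply mul_le_mul _ _ (norm_nonneg _) (by positivity)
          · rw [Polynomial.eval_finset_sum]
            refine (norm_sum_le _ _).trans ?_
            have h1 : ∀ i : Fin (2 * L), ‖(Polynomial.monomial (i : ℕ) ((t i : ℂ))).eval z‖ ≤
                18 * B * (L : ℝ) ^ 3 * x ^ (2 * L) := by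
              intro i
              rw [Polynomial.eval_monomial, norm_mul, norm_pow]
              apply mul_le_mul _ _ (by positivity) (by positivity)
              · have h2 : ‖((t i : ℤ) : ℂ)‖ = |(t i : ℝ)| := by
                  rw [← Complex.ofReal_intCast, Complex.norm_real, Real.norm_eq_abs]
                rw [h2]
                exact htb i
              · calc ‖z‖ ^ (i : ℕ) ≤ x ^ (i : ℕ) := pow_le_pow_left₀ (norm_nonneg _) hzx _
                  _ ≤ x ^ (2 * L) := pow_le_pow_right₀ hx1 i.isLt.le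
            refine (Finset.sum_le_card_nsmul _ _ _ fun i _ => h1 i).trans ?_
            rw [Finset.card_univ, Fintype.card_fin, nsmul_eq_mul]
            push_cast
            exact le_of_eq (by ring)
          · rw [hgdef, Polynomial.eval_mul, Polynomial.eval_pow, Polynomial.eval_pow,
              Polynomial.eval_X, norm_mul, norm_pow, norm_pow]
            apply mul_le_mul _ _ (by positivity) (by positivity)
            · calc ‖p.eval z‖ ^ (j / J) ≤ ρ ^ (j / J) :=
                    pow_le_pow_left₀ (norm_nonneg _) (hsmall η hη hηη₀ z hz) _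
                _ ≤ ρ ^ T := pow_le_pow_of_le_one hρ0.le hρ1.le hTm
            · calc ‖z‖ ^ (j % J) ≤ x ^ (j % J) := pow_le_pow_left₀ (norm_nonneg _) hzx _
                _ ≤ x ^ J := pow_le_pow_right₀ hx1 (Nat.mod_lt _ hJ).le
        have hfin := hMP _ _ hbound
        rw [hpair] at hfin
        have hcalc : M * ((2 * L * (18 * B * (L : ℝ) ^ 3) * x ^ (2 * L)) * (ρ ^ T * x ^ J)) =
            M * (36 * B * (J : ℝ) ^ 4 * x ^ J) * ((T : ℝ) ^ 4 * (x ^ (2 * J) * ρ) ^ T) := by
          have e1 : (L : ℝ) = J * T := by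
            rw [hLdef]
            push_cast
            ring
          have e2 : x ^ (2 * L) = (x ^ (2 * J)) ^ T := by
            rw [← pow_mul, hLdef]
            congr 1
            ring
          rw [e2, e1, mul_pow (x ^ (2 * J)) ρ T]
          ring
        rw [hcalc] at hfin
        have hlt := lt_of_le_of_lt hfin hT
        have hcast : (∑ i : Fin (2 * L), (t i : ℂ) * (b (i + j) : ℂ)) =
            ((∑ i : Fin (2 * L), t i * b (i + j) : ℤ) : ℂ) := by
          push_cast
          rfl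
        rw [hcast, ← Complex.ofReal_intCast, Complex.norm_real, Real.norm_eq_abs] at hlt
        have hlt' : |(∑ i : Fin (2 * L), t i * b (i + j) : ℤ)| < 1 := by
          exact_mod_cast hlt
        exact Int.abs_lt_one_iff.mp hlt'
  -- conclusion
  obtain ⟨i₀, hi₀⟩ : ∃ i, t i ≠ 0 := by
    by_contra hcon
    push Not at hcon
    exact ht0 (funext hcon)
  refine ⟨2 * L - 1, fun i => if h : i < 2 * L then t ⟨i, h⟩ else 0, ?_, ?_⟩
  · refine ⟨i₀, by have := i₀.isLt; omega, ?_⟩
    simp only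
    rw [dif_pos i₀.isLt]
    exact hi₀
  · intro j
    have h1 : 2 * L - 1 + 1 = 2 * L := by omega
    rw [h1, Finset.sum_range]
    refine Eq.trans ?_ (hall j)
    refine Finset.sum_congr rfl fun i _ => ?_
    simp only
    rw [dif_pos i.isLt]

end MP7ed9c3
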