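import Pool.Agent.Lib.MP_7ed9c3_nt.SpecG

/-!
# MP_7ed9c3_nt, module G9: boundedness of slowly growing recurrent sequences

Let `E` be the shift on complex sequences.  We show: if `f` lies in the weighted space
`∑ |f n| n^(-7/4) < ∞` and `q(E) f = 0` for a polynomial `q ≠ 0`, then `f` is bounded.  Induction on
the degree, with a root of `q`.
-/

namespace MP7ed9c3

open Polynomial

namespace G9

/-- the shift -/
noncomputable def E : Module.End ℂ (ℕ → ℂ) := LinearMap.funLeft ℂ ℂ Nat.succ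

lemma E_apply (f : ℕ → ℂ) (n : ℕ) : E f n = f (n + 1) := rfl

lemma E_pow (i : ℕ) (f : ℕ → ℂ) (n : ℕ) : (E ^ i) f n = f (n + i) := by
  induction i generalizing n with
  | zero => simp
  | succ i ih =>
    rw [pow_succ', Module.End.mul_apply, E_apply, ih]
    congr 1
    ring

/-- the weight -/
noncomputable def W (n : ℕ) : ℝ := (n : ℝ) ^ (-(7 / 4 : ℝ))

lemma W_nonneg (n : ℕ) : 0 ≤ W n := by unfold W; positivity

lemma W_zero : W 0 = 0 := by
  unfold W
  rw [Nat.cast_zero, Real.zero_rpow (by norm_num)]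

lemma W_le (n : ℕ) : W n ≤ 4 * W (n + 1) := by
  rcases Nat.eq_zero_or_pos n with rfl | hn
  · rw [W_zero]
    have := W_nonneg (0 + 1)
    linarith
  unfold W
  have hn' : (0 : ℝ) < n := by exact_mod_cast hn
  have h1 : ((n + 1 : ℕ) : ℝ) ≤ 2 * n := by
    have : (1 : ℝ) ≤ n := by exact_mod_cast hn
    push_cast
    linarith
  have h2 : (2 * (n : ℝ)) ^ (-(7 / 4 : ℝ)) ≤ ((n + 1 : ℕ) : ℝ) ^ (-(7 / 4 : ℝ)) :=
    Real.rpow_le_rpow_of_nonpos (by positivity) h1 (by norm_num)
  have h3 : (2 * (n : ℝ)) ^ (-(7 / 4 : ℝ)) = (2 : ℝ) ^ (-(7 / 4 : ℝ)) * (n : ℝ) ^ (-(7 / 4 : ℝ)) :=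
    Real.mul_rpow (by norm_num) hn'.le
  have h4 : (1 / 4 : ℝ) ≤ (2 : ℝ) ^ (-(7 / 4 : ℝ)) := by
    have h5 : (2 : ℝ) ^ (-(2 : ℝ)) ≤ (2 : ℝ) ^ (-(7 / 4 : ℝ)) :=
      Real.rpow_le_rpow_of_exponent_le (by norm_num) (by norm_num)
    have h6 : (2 : ℝ) ^ (-(2 : ℝ)) = 1 / 4 := by
      rw [Real.rpow_neg (by norm_num), show (2 : ℝ) = ((2 : ℕ) : ℝ) by norm_num,
        Real.rpow_natCast]
      norm_num
    rw [h6] at h5
    exact h5
  rw [h3] at h2
  have h7 : 0 ≤ (n : ℝ) ^ (-(7 / 4 : ℝ)) := by positivity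
  nlinarith

/-- the weighted space -/
def InV (f : ℕ → ℂ) : Prop := Summable fun n => ‖f n‖ * W n

lemma InV.add {f g : ℕ → ℂ} (hf : InV f) (hg : InV g) : InV (f + g) := by
  refine Summable.of_nonneg_of_le (fun n => mul_nonneg (norm_nonneg _) (W_nonneg n)) (fun n => ?_)
    (Summable.add hf hg)
  rw [← add_mul]
  exact mul_le_mul_of_nonneg_right (norm_add_le _ _) (W_nonneg n)

lemma InV.smul {f : ℕ → ℂ} (hf : InV f) (c : ℂ) : InV (c • f) := by
  refine (Summable.mul_left ‖c‖ hf).congr fun n => ?_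
  rw [Pi.smul_apply, norm_smul, mul_assoc]

lemma InV.shift {f : ℕ → ℂ} (hf : InV f) : InV (E f) := by
  have h1 : Summable fun n => ‖f (n + 1)‖ * W (n + 1) :=
    (summable_nat_add_iff (f := fun n => ‖f n‖ * W n) 1).mpr hf
  refine Summable.of_nonneg_of_le (fun n => mul_nonneg (norm_nonneg _) (W_nonneg n)) (fun n => ?_)
    (h1.mul_left 4)
  rw [E_apply]
  have := mul_le_mul_of_nonneg_left (W_le n) (norm_nonneg (f (n + 1)))
  linarith

lemma InV.pow {f : ℕ → ℂ} (hf : InV f) (i : ℕ) : InV ((E ^ i) f) := by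
  induction i with
  | zero => simpa using hf
  | succ i ih =>
    rw [pow_succ', Module.End.mul_apply]
    exact ih.shift

lemma InV.zero : InV 0 := by
  unfold InV
  simp

lemma InV.aeval {f : ℕ → ℂ} (hf : InV f) (q : ℂ[X]) : InV (aeval E q f) := by
  induction q using Polynomial.induction_on' with
  | add p q hp hq =>
    rw [map_add, LinearMap.add_apply]
    exact hp.add hq
  | monomial n a =>
    rw [aeval_monomial, Module.End.mul_apply]
    exact (hf.pow n).smul a

lemma InV.of_bdd {f : ℕ → ℂ} {B : ℝ} (h : ∀ n, ‖f n‖ ≤ B) : InV f := by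
  have h1 : Summable fun n : ℕ => W n := by
    unfold W
    exact Real.summable_nat_rpow.mpr (by norm_num)
  exact Summable.of_nonneg_of_le (fun n => mul_nonneg (norm_nonneg _) (W_nonneg n))
    (fun n => mul_le_mul_of_nonneg_right (h n) (W_nonneg n)) (h1.mul_left B)

/-- no linear growth -/
lemma not_lin {g : ℕ → ℂ} (hg : InV g) {c a : ℝ} (hc : 0 < c)
    (h : ∀ n : ℕ, c * n ≤ ‖g n‖ + a) : False := by
  have h1 : Summable fun n : ℕ => W n := by
    unfold W
    exact Real.summable_nat_rpow.mpr (by norm_num)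
  have h2 : Summable fun n : ℕ => c * (n : ℝ) ^ (-(3 / 4 : ℝ)) := by
    refine Summable.of_nonneg_of_le (fun n => by positivity) (fun n => ?_)
      (Summable.add hg (h1.mul_left a))
    have e : c * (n : ℝ) ^ (-(3 / 4 : ℝ)) = c * n * W n := by
      rcases Nat.eq_zero_or_pos n with rfl | hn
      · rw [W_zero, Nat.cast_zero, Real.zero_rpow (by norm_num)]
        ring
      · have hn' : (0 : ℝ) < n := by exact_mod_cast hn
        unfold W
        rw [mul_assoc]
        congr 1
        rw [show (-(3 / 4 : ℝ)) = 1 + -(7 / 4 : ℝ) by norm_num, Real.rpow_add hn',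
          Real.rpow_one]
    rw [e]
    have := mul_le_mul_of_nonneg_right (h n) (W_nonneg n)
    linarith
  have h3 : Summable fun n : ℕ => (n : ℝ) ^ (-(3 / 4 : ℝ)) :=
    (summable_mul_left_iff hc.ne').mp h2
  have h4 := Real.summable_nat_rpow.mp h3
  norm_num at h4

lemma geom {g : ℕ → ℂ} {l : ℂ} (h : ∀ n, g (n + 1) = l * g n) (n : ℕ) : g n = l ^ n * g 0 := by
  induction n with
  | zero => simp
  | succ n ih => rw [h, ih, pow_succ]; ring

/-- the operator of a linear factor -/
lemma fac (l : ℂ) (q : ℂ[X]) (f : ℕ → ℂ) (n : ℕ) :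
    aeval E ((X - C l) * q) f n = aeval E q f (n + 1) - l * aeval E q f n := by
  rw [map_mul, Module.End.mul_apply, map_sub, aeval_X, aeval_C, LinearMap.sub_apply,
    Pi.sub_apply, E_apply, Module.algebraMap_end_apply, Pi.smul_apply, smul_eq_mul]

/-- the case of a root of absolute value greater than one -/
lemma big {g : ℕ → ℂ} {l : ℂ} (hl : 1 < ‖l‖) (hg : InV g) (h : ∀ n, g (n + 1) = l * g n) :
    g = 0 := by
  by_contra hne
  have h0 : g 0 ≠ 0 := by
    intro h0
    apply hne
    funext n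
    rw [geom h n, h0, mul_zero, Pi.zero_apply]
  have hpos : 0 < ‖g 0‖ := norm_pos_iff.mpr h0
  refine not_lin hg (c := ‖g 0‖ * (‖l‖ - 1)) (a := 0) (mul_pos hpos (by linarith)) fun n => ?_
  rw [geom h n, norm_mul, norm_pow, add_zero]
  have h1 : 1 + (n : ℝ) * (‖l‖ - 1) ≤ (1 + (‖l‖ - 1)) ^ n :=
    one_add_mul_le_pow (by linarith) n
  rw [show 1 + (‖l‖ - 1) = ‖l‖ by ring] at h1
  have h2 : (n : ℝ) * (‖l‖ - 1) ≤ ‖l‖ ^ n := by linarith
  have h3 := mul_le_mul_of_nonneg_left h2 hpos.le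
  linarith

/-- the case of a root of absolute value less than one -/
lemma small {f : ℕ → ℂ} {l : ℂ} {B : ℝ} (hl : ‖l‖ < 1) (h : ∀ n, ‖f (n + 1) - l * f n‖ ≤ B) :
    ∃ B' : ℝ, ∀ n, ‖f n‖ ≤ B' := by
  refine ⟨max ‖f 0‖ (B / (1 - ‖l‖)), fun n => ?_⟩
  set M := max ‖f 0‖ (B / (1 - ‖l‖)) with hM
  have hl' : 0 < 1 - ‖l‖ := by linarith
  have hB : B ≤ M * (1 - ‖l‖) := by
    have : B / (1 - ‖l‖) ≤ M := le_max_right _ _
    rwa [div_le_iff₀ hl'] at this
  induction n with
  | zero => exact le_max_left _ _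
  | succ n ih =>
    have e : f (n + 1) = (f (n + 1) - l * f n) + l * f n := by ring
    rw [e]
    refine (norm_add_le _ _).trans ?_
    rw [norm_mul]
    have h1 := mul_le_mul_of_nonneg_left ih (norm_nonneg l)
    have h2 := h n
    linarith

/-- the case of a double root on the unit circle -/
lemma double {g : ℕ → ℂ} {l : ℂ} (hl : ‖l‖ = 1) (hg : InV g)
    (h : ∀ n, g (n + 2) - l * g (n + 1) = l * (g (n + 1) - l * g n)) :
    ∀ n, g (n + 1) - l * g n = 0 := by
  have hl0 : l ≠ 0 := by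
    intro h0
    rw [h0, norm_zero] at hl
    norm_num at hl
  have h1 : ∀ n, g (n + 1) - l * g n = l ^ n * (g 1 - l * g 0) := fun n => by
    have := geom (g := fun n => g (n + 1) - l * g n) (l := l) h n
    simpa using this
  have h2 : ∀ n : ℕ, l * g n = l ^ n * (l * g 0 + n * (g 1 - l * g 0)) := by
    intro n
    induction n with
    | zero => simp
    | succ n ih =>
      have e : g (n + 1) = l ^ n * (g 1 - l * g 0) + l * g n := by rw [← h1 n]; ring
      rw [e, ih, pow_succ]
      push_cast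
      ring
  by_cases hb : g 1 - l * g 0 = 0
  · intro n
    rw [h1 n, hb, mul_zero]
  · exfalso
    refine not_lin hg (c := ‖g 1 - l * g 0‖) (a := ‖l * g 0‖) (norm_pos_iff.mpr hb) fun n => ?_
    have e1 : ‖g n‖ = ‖l * g 0 + n * (g 1 - l * g 0)‖ := by
      have := congrArg norm (h2 n)
      rwa [norm_mul, norm_mul, norm_pow, hl, one_pow, one_mul, one_mul] at this
    have e2 : (n : ℂ) * (g 1 - l * g 0) = (l * g 0 + n * (g 1 - l * g 0)) - l * g 0 := by ring
    have e3 : ‖(n : ℂ) * (g 1 - l * g 0)‖ = ‖g 1 - l * g 0‖ * n := by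
      rw [norm_mul, Complex.norm_natCast, mul_comm]
    calc ‖g 1 - l * g 0‖ * (n : ℝ) = ‖(l * g 0 + n * (g 1 - l * g 0)) - l * g 0‖ := by
          rw [← e3, ← e2]
      _ ≤ ‖l * g 0 + n * (g 1 - l * g 0)‖ + ‖l * g 0‖ := norm_sub_le _ _
      _ = ‖g n‖ + ‖l * g 0‖ := by rw [e1]

/-- an exponential sequence is an eigenvector -/
lemma aeval_geom (q : ℂ[X]) (l : ℂ) : aeval E q (fun n => l ^ n) = q.eval l • fun n => l ^ n := by
  induction q using Polynomial.induction_on' with
  | add p q hp hq => rw [map_add, LinearMap.add_apply, hp, hq, eval_add, add_smul]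
  | monomial n a =>
    rw [aeval_monomial, Module.End.mul_apply, eval_monomial, Module.algebraMap_end_apply]
    funext k
    rw [Pi.smul_apply, Pi.smul_apply, E_pow, smul_eq_mul, smul_eq_mul, pow_add]
    ring

theorem main (d : ℕ) : ∀ (q : ℂ[X]) (f : ℕ → ℂ), q.natDegree = d → q ≠ 0 → InV f →
    aeval E q f = 0 → ∃ B : ℝ, ∀ n, ‖f n‖ ≤ B := by
  induction d using Nat.strong_induction_on with
  | _ d ih =>
  intro q f hd hq hf h
  rcases Nat.eq_zero_or_pos d with h0 | hpos
  · rw [h0] at hd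
    obtain ⟨c, rfl⟩ : ∃ c, q = C c := ⟨_, eq_C_of_natDegree_eq_zero hd⟩
    have hc : c ≠ 0 := by
      rintro rfl
      exact hq C_0
    rw [aeval_C, Module.algebraMap_end_apply] at h
    have hf0 : f = 0 := (smul_eq_zero.mp h).resolve_left hc
    exact ⟨0, fun n => by rw [hf0]; simp⟩
  have hdeg : 0 < q.degree := natDegree_pos_iff_degree_pos.mp (by omega)
  obtain ⟨l, hroot⟩ := Complex.exists_root hdeg
  obtain ⟨p, rfl⟩ := dvd_iff_isRoot.mpr hroot
  have hp : p ≠ 0 := by
    rintro rfl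
    exact hq (mul_zero _)
  have hdp : p.natDegree < d := by
    rw [natDegree_mul (X_sub_C_ne_zero l) hp, natDegree_X_sub_C] at hd
    omega
  have hstep : ∀ n, aeval E p f (n + 1) = l * aeval E p f n := by
    intro n
    have h1 := congrFun h n
    rw [fac, Pi.zero_apply, sub_eq_zero] at h1
    exact h1
  have hgV : InV (aeval E p f) := hf.aeval p
  rcases lt_trichotomy ‖l‖ 1 with hl | hl | hl
  · -- `|l| < 1`
    have hg : InV (E f - l • f) := by
      have := hf.shift.add (hf.smul (-l))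
      rwa [neg_smul, ← sub_eq_add_neg] at this
    have h1 : aeval E p (E f - l • f) = 0 := by
      have e : (X - C l) * p = p * (X - C l) := mul_comm _ _
      rw [e, map_mul, Module.End.mul_apply, map_sub, aeval_X, aeval_C, LinearMap.sub_apply,
        Module.algebraMap_end_apply] at h
      exact h
    obtain ⟨B, hB⟩ := ih _ hdp p _ rfl hp hg h1
    exact small hl (f := f) (B := B) (fun n => by
      have := hB n
      rwa [Pi.sub_apply, E_apply, Pi.smul_apply, smul_eq_mul] at this)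
  · -- `|l| = 1`
    by_cases hpl : p.eval l = 0
    · -- double root
      obtain ⟨s, rfl⟩ := dvd_iff_isRoot.mpr hpl
      have h1 : ∀ n, aeval E s f (n + 1) - l * aeval E s f n = 0 := by
        refine double hl (hf.aeval s) fun n => ?_
        have := hstep n
        rw [fac, fac] at this
        exact this
      refine ih _ hdp _ f rfl hp hf ?_
      funext n
      rw [fac, h1 n, Pi.zero_apply]
    · -- simple root
      have hc : ∀ n, aeval E p f n = l ^ n * aeval E p f 0 := geom hstep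
      have hbd : ∀ n : ℕ, ‖(fun n : ℕ => l ^ n) n‖ ≤ 1 := fun n => by
        simp [hl]
      have hg : InV (f + (-(aeval E p f 0 / p.eval l)) • fun n : ℕ => l ^ n) :=
        hf.add ((InV.of_bdd hbd).smul _)
      have h1 : aeval E p (f + (-(aeval E p f 0 / p.eval l)) • fun n : ℕ => l ^ n) = 0 := by
        rw [map_add, map_smul, aeval_geom, smul_smul]
        funext n
        rw [Pi.add_apply, Pi.smul_apply, hc n, Pi.zero_apply, smul_eq_mul]
        field_simp
        ring
      obtain ⟨B, hB⟩ := ih _ hdp p _ rfl hp hg h1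
      refine ⟨B + ‖aeval E p f 0 / p.eval l‖, fun n => ?_⟩
      have e : f n = (f + (-(aeval E p f 0 / p.eval l)) • fun n : ℕ => l ^ n) n +
          (aeval E p f 0 / p.eval l) * l ^ n := by
        rw [Pi.add_apply, Pi.smul_apply, smul_eq_mul]
        ring
      rw [e]
      refine (norm_add_le _ _).trans (add_le_add (hB n) ?_)
      rw [norm_mul, norm_pow, hl, one_pow, mul_one]
  · -- `|l| > 1`
    exact ih _ hdp p f rfl hp hf (big hl hgV hstep)

end G9

theorem boundedOf : BoundedOf := by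
  intro b hb hrec
  obtain ⟨d, q, ⟨i₀, hi₀, hq⟩, hr⟩ := hrec
  have hV : G9.InV fun n => (b n : ℂ) := by
    refine hb.congr fun n => ?_
    rw [Complex.norm_intCast]
    rfl
  set Q : ℂ[X] := ∑ i ∈ Finset.range (d + 1), C (q i : ℂ) * X ^ i with hQ
  have hQ0 : Q ≠ 0 := by
    intro h0
    have h1 := congrArg (fun P => coeff P i₀) h0
    simp only [hQ, finsetSum_coeff, coeff_C_mul, coeff_X_pow, coeff_zero] at h1
    rw [Finset.sum_eq_single i₀] at h1
    · simp at h1
      exact hq h1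
    · intro j _ hj
      rw [if_neg (Ne.symm hj), mul_zero]
    · intro hn
      exact absurd (Finset.mem_range.mpr (by omega)) hn
  have hz : aeval G9.E Q (fun n => (b n : ℂ)) = 0 := by
    rw [hQ, map_sum, LinearMap.sum_apply]
    funext j
    rw [Finset.sum_apply, Pi.zero_apply]
    have h1 := congrArg (fun x : ℤ => (x : ℂ)) (hr j)
    simp only [Int.cast_zero] at h1
    rw [← h1]
    push_cast
    refine Finset.sum_congr rfl fun i _ => ?_
    rw [map_mul, map_pow, aeval_X, aeval_C, Module.End.mul_apply, Module.algebraMap_end_apply,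
      Pi.smul_apply, G9.E_pow, smul_eq_mul, add_comm]
  obtain ⟨B, hB⟩ := G9.main _ Q _ rfl hQ0 hV hz
  refine ⟨⌈B⌉, fun n => ?_⟩
  have h1 := hB n
  rw [Complex.norm_intCast] at h1
  have h2 : ((|b n| : ℤ) : ℝ) ≤ (⌈B⌉ : ℝ) := by
    push_cast
    exact h1.trans (Int.le_ceil B)
  exact_mod_cast h2

end MP7ed9c3
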