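import Pool.Agent.Lib.MP_7ed9c3_nt.AllN
import Pool.Agent.Lib.MP_7ed9c3_nt.G1
import Pool.Agent.Lib.MP_7ed9c3_nt.G2
import Pool.Agent.Lib.MP_7ed9c3_nt.G2b
import Pool.Agent.Lib.MP_7ed9c3_nt.G3
import Pool.Agent.Lib.MP_7ed9c3_nt.G4
import Pool.Agent.Lib.MP_7ed9c3_nt.G5
import Pool.Agent.Lib.MP_7ed9c3_nt.G6
import Pool.Agent.Lib.MP_7ed9c3_nt.G7
import Pool.Agent.Lib.MP_7ed9c3_nt.G8
import Pool.Agent.Lib.MP_7ed9c3_nt.G9
import Pool.Agent.Lib.MP_7ed9c3_nt.G10
import Pool.Agent.Lib.MP_7ed9c3_nt.G11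
import Pool.Agent.Lib.MP_7ed9c3_nt.G12

/-!
# MP_7ed9c3_nt: assembly of part G
-/

namespace MP7ed9c3

theorem mellinRepAll : MellinRep := mellinRep gammaStrip

theorem expansionAll : Expansion :=
  expansion phragLind gammaLine gammaStrip mellinRepAll lineShift

theorem recurrentOfAll : RecurrentOf := recurrentOf functional smallPoly

theorem growthAll : Growth :=
  growth countPrimes existsModel goodDataAll traceBoundAll expansionAll recurrentOfAll boundedOf
    (coeffs sparseSums) unbounded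

end MP7ed9c3
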