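import Pool.Agent.Lib.MP_7ed9c3_nt.SpecV
import Pool.Agent.Lib.MP_7ed9c3_nt.G5

/-!
# MP_7ed9c3_nt: V2, the expansion with remainder in the right half plane
-/

namespace MP7ed9c3

open Filter Topology MeasureTheory

/-- The bound `LeftBound` with powers. -/
lemma V2.left (F : ℂ → ℂ) (c R' : ℝ) (hc0 : 1 ≤ c) (hc : c ≤ 2) (hR : 0 ≤ R')
    (h1 : LeftBound F c R') (m : ℕ) (s : ℂ) (y : ℝ) (hs : s.re ≤ 2) (hm : 3 - s.re ≤ m)
    (hy : 1 + ‖2 - s‖ ≤ y) : ‖F s‖ ≤ y ^ (2 * m) * Real.exp (R' * (3 - s.re)) := by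
  have h0 : 0 ≤ ‖2 - s‖ := norm_nonneg _
  have hy1 : 1 ≤ y := by linarith
  have hlog : Real.log (1 + ‖2 - s‖) ≤ Real.log y := Real.log_le_log (by linarith) hy
  have hlog0 : 0 ≤ Real.log y := Real.log_nonneg hy1
  have h3 : (0 : ℝ) ≤ 3 - s.re := by linarith
  have hm0 : (0 : ℝ) ≤ m := h3.trans hm
  calc ‖F s‖ ≤ _ := h1 s hs
    _ ≤ Real.exp ((2 * m : ℕ) * Real.log y + R' * (3 - s.re)) := by
        apply Real.exp_le_exp.mpr
        have e1 : (3 - s.re) * Real.log (1 + ‖2 - s‖) ≤ m * Real.log y :=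
          (mul_le_mul_of_nonneg_left hlog h3).trans (mul_le_mul_of_nonneg_right hm hlog0)
        have e2 : c * ((3 - s.re) * Real.log (1 + ‖2 - s‖)) ≤ 2 * (m * Real.log y) :=
          mul_le_mul hc e1 (mul_nonneg h3 (Real.log_nonneg (by linarith))) (by norm_num)
        push_cast
        linarith
    _ = _ := by
        rw [Real.exp_add, mul_comm (((2 * m : ℕ) : ℝ)), Real.exp_mul, Real.exp_log (by linarith),
          Real.rpow_natCast]

lemma V2.strip (F : ℂ → ℂ) (c R' B : ℝ) (hc0 : 1 ≤ c) (hc : c ≤ 2) (hR : 0 ≤ R')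
    (h1 : LeftBound F c R') (h2 : ∀ s : ℂ, 2 ≤ s.re → ‖F s‖ ≤ B) (m : ℕ) :
    ∃ C : ℝ, 0 ≤ C ∧ ∀ s : ℂ, -(m : ℝ) ≤ s.re → ‖F s‖ ≤ C * Real.exp (|s.im| / 8) := by
  have hB : 0 ≤ B := (norm_nonneg _).trans (h2 2 (by simp))
  set D : ℝ := (8 ^ (2 * (m + 3)) * ((2 * (m + 3)).factorial : ℝ) *
    Real.exp (((m : ℝ) + 3) / 8)) with hD
  have hD0 : 0 ≤ D := by positivity
  refine ⟨B + D * Real.exp (R' * (m + 3)), by positivity, ?_⟩
  intro s hs
  have he : 1 ≤ Real.exp (|s.im| / 8) := Real.one_le_exp (by positivity)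
  have hpos : 0 ≤ D * Real.exp (R' * (m + 3)) := by positivity
  rcases le_total s.re 2 with h | h
  · have hy : 1 + ‖2 - s‖ ≤ ((m : ℝ) + 3) + |s.im| := by
      have := g5_norm_two_sub s
      rw [abs_of_nonneg (by linarith : (0 : ℝ) ≤ 2 - s.re)] at this
      linarith
    have h3 := V2.left F c R' hc0 hc hR h1 (m + 3) s _ h (by push_cast; linarith) hy
    have h4 := g5_pow_exp (2 * (m + 3)) ((m : ℝ) + 3) |s.im| (by positivity) (abs_nonneg _)
    rw [← hD] at h4
    have h5 : Real.exp (R' * (3 - s.re)) ≤ Real.exp (R' * (m + 3)) := by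
      apply Real.exp_le_exp.mpr
      apply mul_le_mul_of_nonneg_left _ hR
      linarith
    calc ‖F s‖ ≤ _ := h3
      _ ≤ (D * Real.exp (|s.im| / 8)) * Real.exp (R' * (m + 3)) := by
          apply mul_le_mul h4 h5 (Real.exp_nonneg _) (by positivity)
      _ = (D * Real.exp (R' * (m + 3))) * Real.exp (|s.im| / 8) := by ring
      _ ≤ _ := by
          apply mul_le_mul_of_nonneg_right _ (Real.exp_nonneg _)
          linarith
  · calc ‖F s‖ ≤ B := h2 s h
      _ ≤ (B + D * Real.exp (R' * (m + 3))) * 1 := by linarith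
      _ ≤ _ := by
          apply mul_le_mul_of_nonneg_left he
          linarith

lemma V2.decay (A ε : ℝ) (hA : 1 ≤ A) (hε : 0 < ε) (P : ℕ) :
    ∃ K : ℝ, 0 ≤ K ∧ ∀ t : ℝ, (A + |t|) ^ P * Real.exp (-(ε * |t|)) ≤ K * (1 + t ^ 2)⁻¹ := by
  refine ⟨((P + 2).factorial : ℝ) / ε ^ (P + 2) * Real.exp (ε * A), by positivity, ?_⟩
  intro t
  have ht : 0 ≤ |t| := abs_nonneg t
  have h := Real.pow_div_factorial_le_exp (ε * (A + |t|)) (by positivity) (P + 2)
  have hm : (0 : ℝ) < (P + 2).factorial := by exact_mod_cast Nat.factorial_pos _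
  rw [div_le_iff₀ hm, mul_pow] at h
  have h2 : (A + |t|) ^ (P + 2) ≤ ((P + 2).factorial : ℝ) / ε ^ (P + 2) *
      Real.exp (ε * (A + |t|)) := by
    rw [div_mul_eq_mul_div, le_div_iff₀ (by positivity)]
    linarith
  have h3 : 1 + t ^ 2 ≤ (A + |t|) ^ 2 := by
    have : t ^ 2 = |t| ^ 2 := (sq_abs t).symm
    nlinarith
  rw [← div_eq_mul_inv, le_div_iff₀ (by positivity)]
  calc (A + |t|) ^ P * Real.exp (-(ε * |t|)) * (1 + t ^ 2)
      ≤ (A + |t|) ^ P * Real.exp (-(ε * |t|)) * (A + |t|) ^ 2 :=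
        mul_le_mul_of_nonneg_left h3 (by positivity)
    _ = (A + |t|) ^ (P + 2) * Real.exp (-(ε * |t|)) := by ring
    _ ≤ (((P + 2).factorial : ℝ) / ε ^ (P + 2) * Real.exp (ε * (A + |t|))) *
        Real.exp (-(ε * |t|)) := mul_le_mul_of_nonneg_right h2 (Real.exp_nonneg _)
    _ = _ := by
        rw [mul_assoc, ← Real.exp_add]
        congr 2
        ring

/-- A Mellin type integral is analytic in the right half plane. -/
lemma V2.analytic (G : ℝ → ℂ) (hG : Continuous G) (A C : ℝ) (hA : 1 ≤ A) (hC : 0 ≤ C) (P : ℕ)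
    (hb : ∀ τ : ℝ, ‖G τ‖ ≤ C * ((A + |τ|) ^ P * Real.exp (-(Real.pi / 2 * |τ|)))) (a : ℝ)
    (ha : 0 < a) :
    DifferentiableOn ℂ (fun x : ℂ => ∫ τ : ℝ, G τ * x ^ ((a : ℂ) - τ * Complex.I))
      {x : ℂ | 0 < x.re} := by
  intro x₀ hx₀
  have hx₀' : 0 < x₀.re := hx₀
  have hne : ∀ x : ℂ, 0 < x.re → x ≠ 0 := by
    intro x hx h
    rw [h] at hx
    simp at hx
  have harg : |Complex.arg x₀| < Real.pi / 2 :=
    Complex.abs_arg_lt_pi_div_two_iff.2 (Or.inl hx₀')
  set φ : ℝ := (|Complex.arg x₀| + Real.pi / 2) / 2 with hφ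
  have hφ1 : |Complex.arg x₀| < φ := by rw [hφ]; linarith
  have hφ2 : φ < Real.pi / 2 := by rw [hφ]; linarith
  set ε : ℝ := Real.pi / 2 - φ with hε
  have hε0 : 0 < ε := by linarith
  set A' : ℝ := A + a with hA'
  have hA'1 : 1 ≤ A' := by linarith
  set M : ℝ := ‖x₀‖ ^ (a - 1) + 1 with hM
  have hM0 : 0 ≤ M := by positivity
  set S : Set ℂ := {x | 0 < x.re ∧ |Complex.arg x| < φ ∧ ‖x‖ ^ (a - 1) < M} with hS
  have hslit : x₀ ∈ Complex.slitPlane := Or.inl hx₀'
  have hSn : S ∈ 𝓝 x₀ := by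
    have e1 : ∀ᶠ x in 𝓝 x₀, 0 < x.re :=
      (Complex.continuous_re.tendsto x₀).eventually (lt_mem_nhds hx₀')
    have e2 : ∀ᶠ x in 𝓝 x₀, |Complex.arg x| < φ :=
      ((Complex.continuousAt_arg hslit).abs.tendsto).eventually (gt_mem_nhds hφ1)
    have e3 : ∀ᶠ x in 𝓝 x₀, ‖x‖ ^ (a - 1) < M := by
      have hc : ContinuousAt (fun x : ℂ => ‖x‖ ^ (a - 1)) x₀ :=
        ContinuousAt.rpow_const continuous_norm.continuousAt
          (Or.inl (norm_ne_zero_iff.2 (hne x₀ hx₀')))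
      exact hc.tendsto.eventually (gt_mem_nhds (by rw [hM]; linarith))
    filter_upwards [e1, e2, e3] with x h1 h2 h3 using ⟨h1, h2, h3⟩
  have hwcont : Continuous (fun τ : ℝ => (a : ℂ) - τ * Complex.I) := by fun_prop
  have hcpow : ∀ (x : ℂ), 0 < x.re → ∀ (z : ℂ),
      Continuous (fun τ : ℝ => x ^ ((a : ℂ) - τ * Complex.I - z)) := by
    intro x hx z
    exact (hwcont.sub continuous_const).const_cpow (Or.inl (hne x hx))
  have hcpow0 : ∀ (x : ℂ), 0 < x.re →
      Continuous (fun τ : ℝ => x ^ ((a : ℂ) - τ * Complex.I)) := by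
    intro x hx
    exact hwcont.const_cpow (Or.inl (hne x hx))
  obtain ⟨K, hK0, hK⟩ := V2.decay A' ε hA'1 hε0 (P + 1)
  have hnorm : ∀ (x : ℂ), 0 < x.re → |Complex.arg x| < φ → ∀ (r τ : ℝ),
      ‖x ^ ((r : ℂ) - τ * Complex.I)‖ ≤ ‖x‖ ^ r * Real.exp (φ * |τ|) := by
    intro x hx hax r τ
    rw [Complex.norm_cpow_of_ne_zero (hne x hx)]
    have e1 : ((r : ℂ) - τ * Complex.I).re = r := by simp
    have e2 : ((r : ℂ) - τ * Complex.I).im = -τ := by simp
    rw [e1, e2, div_eq_mul_inv, ← Real.exp_neg]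
    apply mul_le_mul_of_nonneg_left _ (Real.rpow_nonneg (norm_nonneg _) _)
    apply Real.exp_le_exp.mpr
    calc -(Complex.arg x * -τ) = Complex.arg x * τ := by ring
      _ ≤ |Complex.arg x * τ| := le_abs_self _
      _ = |Complex.arg x| * |τ| := abs_mul _ _
      _ ≤ φ * |τ| := mul_le_mul_of_nonneg_right hax.le (abs_nonneg _)
  have hAA : ∀ τ : ℝ, (A + |τ|) ^ P * (A' + |τ|) ≤ (A' + |τ|) ^ (P + 1) := by
    intro τ
    rw [pow_succ]
    apply mul_le_mul_of_nonneg_right _ (by positivity)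
    exact pow_le_pow_left₀ (by positivity) (by rw [hA']; linarith) _
  have hGb : ∀ (τ Z : ℝ), 0 ≤ Z → ‖G τ‖ * ((A' + |τ|) * (Z * Real.exp (φ * |τ|))) ≤
      (C * Z * K) * (1 + τ ^ 2)⁻¹ := by
    intro τ Z hZ
    calc ‖G τ‖ * ((A' + |τ|) * (Z * Real.exp (φ * |τ|)))
        ≤ (C * ((A + |τ|) ^ P * Real.exp (-(Real.pi / 2 * |τ|)))) *
          ((A' + |τ|) * (Z * Real.exp (φ * |τ|))) :=
          mul_le_mul_of_nonneg_right (hb τ) (by positivity)
      _ = (C * Z) * (((A + |τ|) ^ P * (A' + |τ|)) *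
          (Real.exp (-(Real.pi / 2 * |τ|)) * Real.exp (φ * |τ|))) := by ring
      _ = (C * Z) * (((A + |τ|) ^ P * (A' + |τ|)) * Real.exp (-(ε * |τ|))) := by
          rw [← Real.exp_add]
          congr 3
          rw [hε]
          ring
      _ ≤ (C * Z) * ((A' + |τ|) ^ (P + 1) * Real.exp (-(ε * |τ|))) := by
          apply mul_le_mul_of_nonneg_left _ (by positivity)
          exact mul_le_mul_of_nonneg_right (hAA τ) (Real.exp_nonneg _)
      _ ≤ (C * Z) * (K * (1 + τ ^ 2)⁻¹) :=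
          mul_le_mul_of_nonneg_left (hK τ) (by positivity)
      _ = _ := by ring
  have key := hasDerivAt_integral_of_dominated_loc_of_deriv_le (μ := volume) (𝕜 := ℂ) (x₀ := x₀)
    (F := fun (x : ℂ) (τ : ℝ) => G τ * x ^ ((a : ℂ) - τ * Complex.I))
    (F' := fun (x : ℂ) (τ : ℝ) => G τ * (((a : ℂ) - τ * Complex.I) *
      x ^ ((a : ℂ) - τ * Complex.I - 1)))
    (bound := fun τ : ℝ => (C * M * K) * (1 + τ ^ 2)⁻¹) hSn ?_ ?_ ?_ ?_ ?_ ?_
  · exact key.2.differentiableAt.differentiableWithinAt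
  · filter_upwards [hSn] with x hx
    exact (hG.mul (hcpow0 x hx.1)).aestronglyMeasurable
  · refine Integrable.mono' (integrable_inv_one_add_sq.const_mul (C * ‖x₀‖ ^ a * K))
      (hG.mul (hcpow0 x₀ hx₀')).aestronglyMeasurable (Eventually.of_forall fun τ => ?_)
    rw [norm_mul]
    have h1 := hnorm x₀ hx₀' hφ1 a τ
    have h2 : ‖x₀‖ ^ a * Real.exp (φ * |τ|) ≤
        (A' + |τ|) * (‖x₀‖ ^ a * Real.exp (φ * |τ|)) := by
      have h4 : 0 ≤ ‖x₀‖ ^ a * Real.exp (φ * |τ|) := by positivity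
      have h5 : 1 ≤ A' + |τ| := by
        have := abs_nonneg τ
        linarith
      exact le_mul_of_one_le_left h4 h5
    exact (mul_le_mul_of_nonneg_left (h1.trans h2) (norm_nonneg _)).trans
      (hGb τ _ (by positivity))
  · exact (hG.mul (hwcont.mul (hcpow x₀ hx₀' 1))).aestronglyMeasurable
  · refine Eventually.of_forall fun τ x hx => ?_
    rw [norm_mul, norm_mul]
    have h1 := hnorm x hx.1 hx.2.1 (a - 1) τ
    have e1 : (((a - 1 : ℝ)) : ℂ) - τ * Complex.I = (a : ℂ) - τ * Complex.I - 1 := by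
      push_cast
      ring
    rw [e1] at h1
    have h2 : ‖(a : ℂ) - τ * Complex.I‖ ≤ A' + |τ| := by
      refine (norm_sub_le _ _).trans ?_
      rw [norm_mul, Complex.norm_I, mul_one, Complex.norm_real, Complex.norm_real,
        Real.norm_of_nonneg ha.le, Real.norm_eq_abs]
      linarith
    have h3 : ‖x ^ ((a : ℂ) - τ * Complex.I - 1)‖ ≤ M * Real.exp (φ * |τ|) :=
      h1.trans (mul_le_mul_of_nonneg_right hx.2.2.le (Real.exp_nonneg _))
    exact (mul_le_mul_of_nonneg_left (mul_le_mul h2 h3 (norm_nonneg _) (by positivity))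
      (norm_nonneg _)).trans (hGb τ M hM0)
  · exact integrable_inv_one_add_sq.const_mul _
  · refine Eventually.of_forall fun τ x hx => ?_
    have h1 : HasDerivAt (fun x : ℂ => x ^ ((a : ℂ) - τ * Complex.I))
        (((a : ℂ) - τ * Complex.I) * x ^ ((a : ℂ) - τ * Complex.I - 1)) x := by
      have := (hasDerivAt_id x).cpow_const (c := (a : ℂ) - τ * Complex.I) (Or.inl hx.1)
      simpa using this
    exact h1.const_mul (G τ)

theorem remForm (g2 : GammaLine) (g2b : GammaStrip) (g3 : MellinRep) (g4 : LineShift) :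
    RemForm := by
  intro b F c R' hc1 hc2 hR hb0 hs hF hL hDir N
  have hB := g5_bdd b F hb0 hs hDir
  have hstrip := V2.strip F c R' _ hc1 hc2 hR hL hB
  -- the real identity
  have hreal : ∀ x : ℝ, 0 < x → x < 1 →
      ∑' n : ℕ, b n * Complex.exp (-(n * (x : ℂ))) =
        ∑ k ∈ Finset.range (N + 1), F (-(k : ℂ)) * (-(x : ℂ)) ^ k / (k.factorial : ℂ) +
        1 / (2 * Real.pi) * ∫ τ : ℝ, F (-(N : ℂ) - 1 / 2 + τ * Complex.I) *
          Complex.Gamma (-(N : ℂ) - 1 / 2 + τ * Complex.I) *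
          (x : ℂ) ^ ((N : ℂ) + 1 / 2 - τ * Complex.I) := by
    intro x hx hx1
    have hJ3 : ∑' n : ℕ, b n * Complex.exp (-(n * (x : ℂ))) = g5J F x 3 := by
      have h := g3 b hb0 hs x hx
      have e1 : (fun n : ℕ => b n * Complex.exp (-(n * (x : ℂ)))) =
          (fun n : ℕ => b n * Complex.exp (-(n * x : ℝ))) := by
        funext n
        push_cast
        rfl
      rw [e1, h]
      unfold g5J
      congr 1
      congr 1
      ext τ
      unfold g5K
      have e2 : ((3 : ℝ) : ℂ) = 3 := by norm_cast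
      rw [e2, hDir (3 + τ * Complex.I) (by simp; norm_num)]
    rw [hJ3, g5_shift0 g4 g2b F hF hstrip x hx hx1, g5_tele g4 g2b F hF hstrip x hx hx1 (N + 1)]
    have hI : g5J F x (1 / 2 - ((N + 1 : ℕ) : ℝ)) =
        1 / (2 * Real.pi) * ∫ τ : ℝ, F (-(N : ℂ) - 1 / 2 + τ * Complex.I) *
          Complex.Gamma (-(N : ℂ) - 1 / 2 + τ * Complex.I) *
          (x : ℂ) ^ ((N : ℂ) + 1 / 2 - τ * Complex.I) := by
      unfold g5J
      congr 1
      congr 1
      ext τ
      unfold g5K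
      have e1 : (((1 / 2 - ((N + 1 : ℕ) : ℝ) : ℝ) : ℂ) + τ * Complex.I) =
          -(N : ℂ) - 1 / 2 + τ * Complex.I := by
        push_cast
        ring
      have e2 : -(-(N : ℂ) - 1 / 2 + τ * Complex.I) = (N : ℂ) + 1 / 2 - τ * Complex.I := by ring
      rw [e1, e2]
    rw [hI]
    ring
  -- analyticity
  set G : ℝ → ℂ := fun τ => F (-(N : ℂ) - 1 / 2 + τ * Complex.I) *
    Complex.Gamma (-(N : ℂ) - 1 / 2 + τ * Complex.I) with hGdef
  have hN0 : (0 : ℝ) ≤ N := Nat.cast_nonneg N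
  have hre : ∀ τ : ℝ, (-(N : ℂ) - 1 / 2 + τ * Complex.I).re = -(N : ℝ) - 1 / 2 := by
    intro τ
    simp
  have him : ∀ τ : ℝ, (-(N : ℂ) - 1 / 2 + τ * Complex.I).im = τ := by
    intro τ
    simp
  have hline : Continuous (fun τ : ℝ => -(N : ℂ) - 1 / 2 + τ * Complex.I) := by fun_prop
  have hGcont : Continuous G := by
    apply Continuous.mul
    · exact hF.continuous.comp hline
    · rw [continuous_iff_continuousAt]
      intro τ
      have h1 : ContinuousAt Complex.Gamma (-(N : ℂ) - 1 / 2 + τ * Complex.I) := by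
        apply (Complex.differentiableAt_Gamma _ ?_).continuousAt
        intro m hm
        have h2 := congrArg Complex.re hm
        rw [hre] at h2
        simp only [Complex.neg_re, Complex.natCast_re] at h2
        have h3 : (2 * m : ℝ) = 2 * N + 1 := by linarith
        have h4 : 2 * m = 2 * N + 1 := by exact_mod_cast h3
        omega
      exact ContinuousAt.comp (f := fun τ : ℝ => -(N : ℂ) - 1 / 2 + τ * Complex.I) h1
        hline.continuousAt
  have hGb : ∀ τ : ℝ, ‖G τ‖ ≤ (Real.exp (R' * (N + 7 / 2)) * (10 * 4 ^ N)) *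
      ((((N : ℝ) + 4) + |τ|) ^ (2 * (N + 4)) * Real.exp (-(Real.pi / 2 * |τ|))) := by
    intro τ
    have ht : 0 ≤ |τ| := abs_nonneg τ
    rw [hGdef]
    simp only [norm_mul]
    have h1 := V2.left F c R' hc1 hc2 hR hL (N + 4) (-(N : ℂ) - 1 / 2 + τ * Complex.I)
      (((N : ℝ) + 4) + |τ|) (by rw [hre]; linarith) (by rw [hre]; push_cast; linarith) (by
        have h := g5_norm_two_sub (-(N : ℂ) - 1 / 2 + τ * Complex.I)
        rw [hre, him, abs_of_nonneg (by linarith : (0 : ℝ) ≤ 2 - (-(N : ℝ) - 1 / 2))] at h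
        linarith)
    rw [hre] at h1
    have e1 : R' * (3 - (-(N : ℝ) - 1 / 2)) = R' * (N + 7 / 2) := by ring
    rw [e1] at h1
    have h2 := g2 N τ
    have h3 : 10 * 4 ^ N * Real.exp (-(Real.pi * |τ| / 2)) / ((N : ℝ) + 1 + |τ|) ^ (N + 1) ≤
        10 * 4 ^ N * Real.exp (-(Real.pi / 2 * |τ|)) := by
      have e2 : Real.pi * |τ| / 2 = Real.pi / 2 * |τ| := by ring
      rw [e2]
      apply div_le_self (by positivity)
      apply one_le_pow₀
      linarith
    calc _ ≤ ((((N : ℝ) + 4) + |τ|) ^ (2 * (N + 4)) * Real.exp (R' * (N + 7 / 2))) *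
          (10 * 4 ^ N * Real.exp (-(Real.pi / 2 * |τ|))) :=
          mul_le_mul h1 (h2.trans h3) (norm_nonneg _) (by positivity)
      _ = _ := by ring
  have hana := V2.analytic G hGcont ((N : ℝ) + 4) (Real.exp (R' * (N + 7 / 2)) * (10 * 4 ^ N))
    (by linarith) (by positivity) (2 * (N + 4)) hGb ((N : ℝ) + 1 / 2) (by linarith)
  set U : Set ℂ := {z : ℂ | 0 < z.re} with hU
  have hUo : IsOpen U := isOpen_lt continuous_const Complex.continuous_re
  have hUc : IsPreconnected U := (convex_halfSpace_re_gt 0).isPreconnected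
  set L : ℂ → ℂ := fun z : ℂ => ∑' n : ℕ, b n * Complex.exp (-(n * z)) with hLdef
  set Rr : ℂ → ℂ := fun z : ℂ =>
    ∑ k ∈ Finset.range (N + 1), F (-(k : ℂ)) * (-z) ^ k / (k.factorial : ℂ) +
      1 / (2 * Real.pi) * ∫ τ : ℝ, G τ * z ^ ((((N : ℝ) + 1 / 2 : ℝ) : ℂ) - τ * Complex.I)
    with hRr
  have hA1 : AnalyticOnNhd ℂ Rr U := by
    apply DifferentiableOn.analyticOnNhd _ hUo
    apply DifferentiableOn.add
    · apply Differentiable.differentiableOn
      fun_prop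
    · exact hana.const_mul _
  have hA2 : AnalyticOnNhd ℂ L U := (g5_dir b hb0 hs).analyticOnNhd hUo
  have hexp : ∀ τ : ℝ, ((((N : ℝ) + 1 / 2 : ℝ) : ℂ) - τ * Complex.I) =
      (N : ℂ) + 1 / 2 - τ * Complex.I := by
    intro τ
    push_cast
    ring
  have hreal' : ∀ x : ℝ, 0 < x → x < 1 → Rr x = L x := by
    intro x hx hx1
    rw [hLdef, hRr]
    simp only [hexp]
    exact (hreal x hx hx1).symm
  have hz0 : ((1 / 2 : ℝ) : ℂ) ∈ U := by
    change 0 < ((1 / 2 : ℝ) : ℂ).re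
    rw [Complex.ofReal_re]; positivity
  have hfreq : ∃ᶠ z in 𝓝[≠] ((1 / 2 : ℝ) : ℂ), Rr z = L z := by
    have hlim : Tendsto (fun n : ℕ => ((1 / 2 + (1 / 4) * (1 / ((n : ℝ) + 1)) : ℝ) : ℂ)) atTop
        (𝓝[≠] ((1 / 2 : ℝ) : ℂ)) := by
      rw [tendsto_nhdsWithin_iff]
      constructor
      · have h0 : Tendsto (fun n : ℕ => (1 / 2 + (1 / 4) * (1 / ((n : ℝ) + 1)) : ℝ)) atTop
            (𝓝 (1 / 2)) := by
          have := (tendsto_one_div_add_atTop_nhds_zero_nat (𝕜 := ℝ)).const_mul (1 / 4 : ℝ)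
          simpa using this.const_add (1 / 2 : ℝ)
        exact (Complex.continuous_ofReal.tendsto _).comp h0
      · refine Filter.Eventually.of_forall (fun n => ?_)
        simp only [Set.mem_compl_iff, Set.mem_singleton_iff]
        intro h
        have h' : (1 / 2 + (1 / 4) * (1 / ((n : ℝ) + 1)) : ℝ) = 1 / 2 := by exact_mod_cast h
        have : (0 : ℝ) < (1 / 4) * (1 / ((n : ℝ) + 1)) := by positivity
        linarith
    refine hlim.frequently (Filter.Frequently.of_forall (fun n => ?_))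
    apply hreal'
    · positivity
    · have h1 : 1 / ((n : ℝ) + 1) ≤ 1 := by
        rw [div_le_one (by positivity)]
        have : (0 : ℝ) ≤ n := Nat.cast_nonneg n
        linarith
      linarith
  have heq := hA1.eqOn_of_preconnected_of_frequently_eq hA2 hUc hz0 hfreq
  intro x hx
  have h := heq (show x ∈ U from hx)
  rw [hLdef, hRr] at h
  simp only [hexp] at h
  exact h.symm

end MP7ed9c3
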