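import Pool.Agent.Lib.MP_7ed9c3_nt.SpecV

set_option autoImplicit false

/-!
# MP_7ed9c3_nt, V3: the bound of the remainder
-/

namespace MP7ed9c3

open MeasureTheory

namespace V3

/-- the integral of `exp (-a |τ|)` -/
lemma expabs (a : ℝ) (ha : 0 < a) :
    Integrable (fun τ : ℝ => Real.exp (-(a * |τ|))) ∧ ∫ τ : ℝ, Real.exp (-(a * |τ|)) = 2 / a := by
  have h1 : ∫ τ : ℝ, Real.exp (-(a * |τ|)) = 2 / a := by
    rw [integral_comp_abs (f := fun τ => Real.exp (-(a * τ)))]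
    have h2 : ∀ τ : ℝ, Real.exp (-(a * τ)) = Real.exp (-a * τ) := by
      intro τ; rw [neg_mul]
    simp only [h2]
    rw [integral_exp_mul_Ioi (by linarith : -a < 0) 0]
    rw [mul_zero, Real.exp_zero]
    field_simp
  refine ⟨?_, h1⟩
  by_contra h
  have h3 := integral_undef h
  rw [h1] at h3
  have : 0 < 2 / a := by positivity
  linarith

/-- the factor `x ^ (N + 1/2 - iτ)` -/
lemma cpow_bound (N : ℕ) (x : ℂ) (hx : 0 < x.re) (hx1 : ‖x‖ ≤ 1) (τ : ℝ) :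
    ‖x ^ ((N : ℂ) + 1 / 2 - τ * Complex.I)‖ ≤
      ‖x‖ ^ N * Real.exp (Real.pi * |τ| / 2 - x.re / ‖x‖ * |τ|) := by
  have hx0 : x ≠ 0 := by
    rintro rfl
    simp at hx
  have hn : 0 < ‖x‖ := norm_pos_iff.2 hx0
  have hre : ((N : ℂ) + 1 / 2 - τ * Complex.I).re = (N : ℝ) + 1 / 2 := by simp
  have him : ((N : ℂ) + 1 / 2 - τ * Complex.I).im = -τ := by simp
  rw [Complex.norm_cpow_of_ne_zero hx0, hre, him, div_eq_mul_inv, ← Real.exp_neg]
  have harg : |x.arg| < Real.pi / 2 := Complex.abs_arg_lt_pi_div_two_iff.2 (Or.inl hx)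
  have hcos : x.re / ‖x‖ ≤ Real.pi / 2 - |x.arg| := by
    rw [← Complex.cos_arg hx0, ← Real.cos_abs, ← Real.sin_pi_div_two_sub]
    exact Real.sin_le (by linarith)
  have h1 : ‖x‖ ^ ((N : ℝ) + 1 / 2) ≤ ‖x‖ ^ N := by
    rw [← Real.rpow_natCast]
    exact Real.rpow_le_rpow_of_exponent_ge hn hx1 (by linarith)
  have h2 : Real.exp (-(x.arg * -τ)) ≤
      Real.exp (Real.pi * |τ| / 2 - x.re / ‖x‖ * |τ|) := by
    apply Real.exp_le_exp.2
    have h3 : -(x.arg * -τ) ≤ |x.arg| * |τ| := by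
      rw [← abs_mul]
      have := le_abs_self (x.arg * τ)
      linarith
    have h4 : x.re / ‖x‖ * |τ| ≤ (Real.pi / 2 - |x.arg|) * |τ| :=
      mul_le_mul_of_nonneg_right hcos (abs_nonneg τ)
    linarith
  exact mul_le_mul h1 h2 (Real.exp_pos _).le (by positivity)

/-- the Gamma factor -/
lemma gamma_bound (g2 : GammaLine) (N : ℕ) (τ : ℝ) :
    ‖Complex.Gamma (-(N : ℂ) - 1 / 2 + τ * Complex.I)‖ ≤
      10 * 4 ^ N * Real.exp (5 / 2) * Real.exp (-(Real.pi * |τ| / 2)) *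
        Real.exp (-(((N : ℝ) + 1) * Real.log ((N : ℝ) + 7 / 2 + |τ|))) := by
  refine (g2 N τ).trans ?_
  have ht : 0 ≤ |τ| := abs_nonneg τ
  have hN : (0 : ℝ) ≤ N := Nat.cast_nonneg N
  set z : ℝ := (N : ℝ) + 1 + |τ| with hz
  have hz0 : 0 < z := by positivity
  have hy : (N : ℝ) + 7 / 2 + |τ| = z + 5 / 2 := by rw [hz]; ring
  rw [hy]
  have hlog : Real.log (z + 5 / 2) ≤ Real.log z + 5 / 2 / z := by
    have h1 : z + 5 / 2 = z * (1 + 5 / 2 / z) := by field_simp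
    rw [h1, Real.log_mul hz0.ne' (by positivity)]
    have h2 := Real.log_le_sub_one_of_pos (by positivity : (0 : ℝ) < 1 + 5 / 2 / z)
    linarith
  have h3 : ((N : ℝ) + 1) * (5 / 2 / z) ≤ 5 / 2 := by
    rw [← mul_div_assoc, div_le_iff₀ hz0]
    nlinarith
  have h4 : ((N : ℝ) + 1) * Real.log (z + 5 / 2) ≤ ((N : ℝ) + 1) * Real.log z + 5 / 2 := by
    have := mul_le_mul_of_nonneg_left hlog (by positivity : (0 : ℝ) ≤ (N : ℝ) + 1)
    linarith
  have h5 : (z ^ (N + 1))⁻¹ ≤ Real.exp (5 / 2) *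
      Real.exp (-(((N : ℝ) + 1) * Real.log (z + 5 / 2))) := by
    have h6 : z ^ (N + 1) = Real.exp (((N : ℝ) + 1) * Real.log z) := by
      rw [← Real.rpow_natCast, Real.rpow_def_of_pos hz0]
      push_cast
      ring_nf
    rw [h6, ← Real.exp_neg, ← Real.exp_add]
    apply Real.exp_le_exp.2
    linarith
  calc 10 * 4 ^ N * Real.exp (-(Real.pi * |τ| / 2)) / z ^ (N + 1)
      = 10 * 4 ^ N * Real.exp (-(Real.pi * |τ| / 2)) * (z ^ (N + 1))⁻¹ := by
        rw [div_eq_mul_inv]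
    _ ≤ 10 * 4 ^ N * Real.exp (-(Real.pi * |τ| / 2)) * (Real.exp (5 / 2) *
        Real.exp (-(((N : ℝ) + 1) * Real.log (z + 5 / 2)))) :=
        mul_le_mul_of_nonneg_left h5 (by positivity)
    _ = _ := by ring

/-- the factor `F` -/
lemma F_bound (F : ℂ → ℂ) (c R' : ℝ) (hc : 1 ≤ c) (hF : LeftBound F c R') (N : ℕ)
    (τ : ℝ) :
    ‖F (-(N : ℂ) - 1 / 2 + τ * Complex.I)‖ ≤
      Real.exp (c * (((N : ℝ) + 7 / 2) * Real.log ((N : ℝ) + 7 / 2 + |τ|))) *
        Real.exp (R' * ((N : ℝ) + 7 / 2)) := by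
  set s : ℂ := -(N : ℂ) - 1 / 2 + τ * Complex.I with hs
  have hN : (0 : ℝ) ≤ N := Nat.cast_nonneg N
  have hre : s.re = -(N : ℝ) - 1 / 2 := by simp [hs]
  have him : s.im = τ := by simp [hs]
  have h0 := hF s (by rw [hre]; linarith)
  refine h0.trans ?_
  rw [← Real.exp_add]
  apply Real.exp_le_exp.2
  have h1 : 1 + ‖2 - s‖ ≤ (N : ℝ) + 7 / 2 + |τ| := by
    have h2 := Complex.norm_le_abs_re_add_abs_im (2 - s)
    have h3 : (2 - s).re = (N : ℝ) + 5 / 2 := by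
      rw [Complex.sub_re, hre]
      norm_num
      ring
    have h4 : (2 - s).im = -τ := by
      rw [Complex.sub_im, him]
      simp
    rw [h3, h4, abs_neg, abs_of_nonneg (by linarith)] at h2
    linarith
  have h2 : 3 - s.re = (N : ℝ) + 7 / 2 := by rw [hre]; ring
  rw [h2]
  have h3 : Real.log (1 + ‖2 - s‖) ≤ Real.log ((N : ℝ) + 7 / 2 + |τ|) :=
    Real.log_le_log (by positivity) h1
  have h4 : ((N : ℝ) + 7 / 2) * Real.log (1 + ‖2 - s‖) ≤
      ((N : ℝ) + 7 / 2) * Real.log ((N : ℝ) + 7 / 2 + |τ|) :=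
    mul_le_mul_of_nonneg_left h3 (by positivity)
  have h5 := mul_le_mul_of_nonneg_left h4 (by linarith : (0 : ℝ) ≤ c)
  linarith

/-- trading the power of `y` against the exponential -/
lemma trade (N : ℕ) (c θ t : ℝ) (hc : 1 ≤ c) (hc2 : c ≤ 2) (hθ : 0 < θ) (hθ1 : θ ≤ 1)
    (ht : 0 ≤ t) :
    ((c - 1) * N + 6) * Real.log ((N : ℝ) + 7 / 2 + t) ≤
      N * Real.log 12 + 6 * Real.log 12 + ((c - 1) * N + 6) * Real.log (((N : ℝ) + 1) / θ) +
        θ / 2 * ((N : ℝ) + 7 / 2 + t) := by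
  have hN : (0 : ℝ) ≤ N := Nat.cast_nonneg N
  have hcN : 0 ≤ (c - 1) * N := mul_nonneg (by linarith) hN
  have hcN2 : (c - 1) * N ≤ N := by nlinarith
  set P : ℝ := (c - 1) * N + 6 with hP
  have hP0 : 0 < P := by linarith
  set y : ℝ := (N : ℝ) + 7 / 2 + t with hy
  have hy0 : 0 < y := by positivity
  set M : ℝ := ((N : ℝ) + 1) / θ with hM
  have hM1 : 1 ≤ M := by
    rw [hM, le_div_iff₀ hθ]
    linarith
  have hM0 : 0 < M := by linarith
  have h1 : Real.log y = Real.log (2 * P / θ) + Real.log (θ * y / (2 * P)) := by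
    rw [← Real.log_mul (by positivity) (by positivity)]
    congr 1
    field_simp
  have h2 : Real.log (θ * y / (2 * P)) ≤ θ * y / (2 * P) := by
    have := Real.log_le_sub_one_of_pos (by positivity : 0 < θ * y / (2 * P))
    linarith
  have h3 : Real.log (2 * P / θ) ≤ Real.log 12 + Real.log M := by
    rw [← Real.log_mul (by norm_num) hM0.ne']
    apply Real.log_le_log (by positivity)
    rw [hM, ← mul_div_assoc]
    exact div_le_div_of_nonneg_right (by linarith) hθ.le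
  have h4 : P * (θ * y / (2 * P)) = θ / 2 * y := by field_simp
  have h5 : P * Real.log y ≤ P * (Real.log 12 + Real.log M) + θ / 2 * y := by
    rw [h1, mul_add, ← h4]
    have a1 := mul_le_mul_of_nonneg_left h3 hP0.le
    have a2 := mul_le_mul_of_nonneg_left h2 hP0.le
    linarith
  have hl12 : 0 ≤ Real.log 12 := Real.log_nonneg (by norm_num)
  have h6 : P * Real.log 12 ≤ N * Real.log 12 + 6 * Real.log 12 := by
    rw [← add_mul]
    exact mul_le_mul_of_nonneg_right (by linarith) hl12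
  linarith

/-- the pointwise bound of the integrand -/
lemma point (g2 : GammaLine) (F : ℂ → ℂ) (c R' : ℝ) (hc : 1 ≤ c) (hc2 : c ≤ 2)
    (hF : LeftBound F c R') (N : ℕ) (x : ℂ) (hx : 0 < x.re) (hx1 : ‖x‖ ≤ 1)
    (τ : ℝ) :
    ‖F (-(N : ℂ) - 1 / 2 + τ * Complex.I) *
          Complex.Gamma (-(N : ℂ) - 1 / 2 + τ * Complex.I) *
          x ^ ((N : ℂ) + 1 / 2 - τ * Complex.I)‖ ≤
      10 * 12 ^ 6 * Real.exp (5 / 2 + 7 / 2 * R' + 7 / 4) *
        (((N : ℝ) + 1) * ‖x‖ / x.re) ^ 6 *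
        (48 * Real.exp (R' + 1 / 2) * ‖x‖ * (((N : ℝ) + 1) * ‖x‖ / x.re) ^ (c - 1)) ^ N *
        Real.exp (-(x.re / (2 * ‖x‖) * |τ|)) := by
  have hx0 : x ≠ 0 := by
    rintro rfl
    simp at hx
  have hn : 0 < ‖x‖ := norm_pos_iff.2 hx0
  have hN : (0 : ℝ) ≤ N := Nat.cast_nonneg N
  set θ : ℝ := x.re / ‖x‖ with hθ
  have hθ0 : 0 < θ := div_pos hx hn
  have hθ1 : θ ≤ 1 := by
    rw [hθ, div_le_one hn]
    exact Complex.re_le_norm x
  have hθ2 : x.re / (2 * ‖x‖) = θ / 2 := by rw [hθ]; field_simp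
  have hMe : ((N : ℝ) + 1) * ‖x‖ / x.re = ((N : ℝ) + 1) / θ := by
    rw [hθ]; field_simp
  rw [hMe, hθ2]
  have tr := trade N c θ |τ| hc hc2 hθ0 hθ1 (abs_nonneg τ)
  set M : ℝ := ((N : ℝ) + 1) / θ with hM
  have hM1 : 1 ≤ M := by
    rw [hM, le_div_iff₀ hθ0]
    linarith
  have hM0 : 0 < M := by linarith
  rw [norm_mul, norm_mul]
  have b1 := F_bound F c R' hc hF N τ
  have b2 := gamma_bound g2 N τ
  have b3 := cpow_bound N x hx hx1 τ
  rw [← hθ] at b3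
  have b12 := mul_le_mul b1 b2 (norm_nonneg _) (by positivity)
  have b123 := mul_le_mul b12 b3 (norm_nonneg _) (by positivity)
  refine b123.trans ?_
  set y : ℝ := (N : ℝ) + 7 / 2 + |τ| with hy
  have hy1 : 1 ≤ y := by
    have := abs_nonneg τ
    linarith
  have hly : 0 ≤ Real.log y := Real.log_nonneg hy1
  have e1 : M ^ 6 = Real.exp (6 * Real.log M) := by
    rw [← Real.rpow_natCast, Real.rpow_def_of_pos hM0]
    push_cast
    ring_nf
  have e2 : (M ^ (c - 1)) ^ N = Real.exp ((c - 1) * N * Real.log M) := by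
    rw [← Real.rpow_natCast, ← Real.rpow_mul hM0.le, Real.rpow_def_of_pos hM0]
    ring_nf
  have e3 : (12 : ℝ) ^ 6 = Real.exp (6 * Real.log 12) := by
    rw [← Real.rpow_natCast, Real.rpow_def_of_pos (by norm_num)]
    push_cast
    ring_nf
  have e4 : (12 : ℝ) ^ N = Real.exp (N * Real.log 12) := by
    rw [← Real.rpow_natCast, Real.rpow_def_of_pos (by norm_num)]
    ring_nf
  have e5 : Real.exp (R' + 1 / 2) ^ N = Real.exp (N * (R' + 1 / 2)) := by
    rw [← Real.exp_nat_mul]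
  have rhs : 10 * 12 ^ 6 * Real.exp (5 / 2 + 7 / 2 * R' + 7 / 4) * M ^ 6 *
      (48 * Real.exp (R' + 1 / 2) * ‖x‖ * M ^ (c - 1)) ^ N * Real.exp (-(θ / 2 * |τ|)) =
      10 * 4 ^ N * ‖x‖ ^ N * Real.exp (6 * Real.log 12 + (5 / 2 + 7 / 2 * R' + 7 / 4) +
        6 * Real.log M + N * Real.log 12 + N * (R' + 1 / 2) + (c - 1) * N * Real.log M +
        -(θ / 2 * |τ|)) := by
    rw [show (48 : ℝ) = 4 * 12 by norm_num, mul_pow, mul_pow, mul_pow, mul_pow, e1, e2, e3, e4, e5]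
    simp only [Real.exp_add]
    ring
  have lhs : Real.exp (c * (((N : ℝ) + 7 / 2) * Real.log y)) * Real.exp (R' * ((N : ℝ) + 7 / 2)) *
      (10 * 4 ^ N * Real.exp (5 / 2) * Real.exp (-(Real.pi * |τ| / 2)) *
        Real.exp (-(((N : ℝ) + 1) * Real.log y))) *
      (‖x‖ ^ N * Real.exp (Real.pi * |τ| / 2 - θ * |τ|)) =
      10 * 4 ^ N * ‖x‖ ^ N * Real.exp (c * (((N : ℝ) + 7 / 2) * Real.log y) +
        R' * ((N : ℝ) + 7 / 2) + 5 / 2 + -(Real.pi * |τ| / 2) +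
        -(((N : ℝ) + 1) * Real.log y) + (Real.pi * |τ| / 2 - θ * |τ|)) := by
    simp only [Real.exp_add]
    ring
  rw [rhs, lhs]
  apply mul_le_mul_of_nonneg_left _ (by positivity)
  apply Real.exp_le_exp.2
  have h1 : c * (((N : ℝ) + 7 / 2) * Real.log y) - ((N : ℝ) + 1) * Real.log y ≤
      ((c - 1) * N + 6) * Real.log y := by
    have : (c * ((N : ℝ) + 7 / 2) - ((N : ℝ) + 1)) * Real.log y ≤
        ((c - 1) * N + 6) * Real.log y := by
      apply mul_le_mul_of_nonneg_right _ hly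
      linarith
    linarith
  have h2 : θ / 2 * y ≤ (N : ℝ) / 2 + 7 / 4 + θ / 2 * |τ| := by
    rw [hy]
    nlinarith
  linarith

end V3

open V3 in
theorem remBound (g2 : GammaLine) : RemBound := by
  intro F c R' hc hc2 hR hF
  refine ⟨40 * 12 ^ 6 * Real.exp (4 * R' + 5), ?_, ?_⟩
  · have : 1 ≤ Real.exp (4 * R' + 5) := Real.one_le_exp (by linarith)
    linarith
  intro N x hx hx1
  have hx0 : x ≠ 0 := by
    rintro rfl
    simp at hx
  have hn : 0 < ‖x‖ := norm_pos_iff.2 hx0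
  have hN : (0 : ℝ) ≤ N := Nat.cast_nonneg N
  obtain ⟨i1, i2⟩ := expabs (x.re / (2 * ‖x‖)) (by positivity)
  set M : ℝ := ((N : ℝ) + 1) * ‖x‖ / x.re with hM
  have hM1 : 1 ≤ M := by
    rw [hM, le_div_iff₀ hx]
    have := Complex.re_le_norm x
    nlinarith
  have hM0 : 0 < M := by linarith
  have hMc : 0 < M ^ (c - 1) := Real.rpow_pos_of_pos hM0 _
  set C : ℝ := 40 * 12 ^ 6 * Real.exp (4 * R' + 5) with hC
  have hC1 : 1 ≤ C := by
    have : 1 ≤ Real.exp (4 * R' + 5) := Real.one_le_exp (by linarith)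
    rw [hC]; linarith
  set K : ℝ := 10 * 12 ^ 6 * Real.exp (5 / 2 + 7 / 2 * R' + 7 / 4) * M ^ 6 *
    (48 * Real.exp (R' + 1 / 2) * ‖x‖ * M ^ (c - 1)) ^ N with hK
  have hK0 : 0 ≤ K := by positivity
  have hint := norm_integral_le_of_norm_le (i1.const_mul K)
    (Filter.Eventually.of_forall (fun τ => point g2 F c R' hc hc2 hF N x hx hx1 τ))
  refine hint.trans ?_
  rw [integral_const_mul, i2]
  have h4 : 2 / (x.re / (2 * ‖x‖)) ≤ 4 * M := by
    rw [hM]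
    have : 2 / (x.re / (2 * ‖x‖)) = 4 * (1 * ‖x‖ / x.re) := by
      field_simp
      norm_num
    rw [this]
    gcongr
    linarith
  have h5 : 10 * 12 ^ 6 * Real.exp (5 / 2 + 7 / 2 * R' + 7 / 4) * 4 ≤ C := by
    have : Real.exp (5 / 2 + 7 / 2 * R' + 7 / 4) ≤ Real.exp (4 * R' + 5) :=
      Real.exp_le_exp.2 (by linarith)
    rw [hC]
    linarith
  have h6 : 48 * Real.exp (R' + 1 / 2) ≤ C := by
    have h7 : Real.exp (R' + 1 / 2) ≤ Real.exp (4 * R' + 5) := Real.exp_le_exp.2 (by linarith)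
    have h8 : 0 < Real.exp (4 * R' + 5) := Real.exp_pos _
    rw [hC]
    linarith
  have h7 : (48 * Real.exp (R' + 1 / 2) * ‖x‖ * M ^ (c - 1)) ^ N ≤
      (C * ‖x‖ * M ^ (c - 1)) ^ N := by
    apply pow_le_pow_left₀ (by positivity)
    gcongr
  have h8 : M ^ 7 ≤ (C * M) ^ 8 := by
    calc M ^ 7 ≤ M ^ 8 := pow_le_pow_right₀ hM1 (by norm_num)
      _ ≤ (C * M) ^ 8 := by
        apply pow_le_pow_left₀ hM0.le
        nlinarith
  have h9 : C * ((N : ℝ) + 1) * ‖x‖ / x.re = C * M := by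
    rw [hM]; ring
  rw [h9]
  calc K * (2 / (x.re / (2 * ‖x‖))) ≤ K * (4 * M) := mul_le_mul_of_nonneg_left h4 hK0
    _ = (10 * 12 ^ 6 * Real.exp (5 / 2 + 7 / 2 * R' + 7 / 4) * 4) * M ^ 7 *
        (48 * Real.exp (R' + 1 / 2) * ‖x‖ * M ^ (c - 1)) ^ N := by rw [hK]; ring
    _ ≤ C * (C * M) ^ 8 * (C * ‖x‖ * M ^ (c - 1)) ^ N := by
      have hC0 : 0 ≤ C := by linarith
      gcongr

end MP7ed9c3
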