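import Pool.Agent.Lib.MP_7ed9c3_nt.SpecV

/-!
# MP_7ed9c3_nt: V3b, the coefficients
-/

set_option autoImplicit false

namespace MP7ed9c3

/-- The exponents. -/
theorem V3b.expo {c R' k l : ℝ} (hc1 : 1 ≤ c) (hc2 : c ≤ 2) (hR : 0 ≤ R') (hk : 1 ≤ k)
    (hl : l = Real.log k) :
    c * ((3 + k) * Real.log (3 + k)) + R' * (3 + k) + k - k * l ≤
      (18 + 3 * R') + k * ((18 + 3 * R') + l * (c - 1)) := by
  have hk0 : 0 < k := by linarith
  have h1 : Real.log (3 + k) = l + Real.log (1 + 3 / k) := by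
    rw [hl, ← Real.log_mul hk0.ne' (by positivity)]
    congr 1
    field_simp
    ring
  have h2 : Real.log (1 + 3 / k) ≤ 3 / k := by
    have := Real.log_le_sub_one_of_pos (show (0 : ℝ) < 1 + 3 / k by positivity)
    linarith
  have h3 : Real.log (3 + k) ≤ 2 + k := by
    have := Real.log_le_sub_one_of_pos (show (0 : ℝ) < 3 + k by positivity)
    linarith
  have h4 : k * Real.log (3 + k) ≤ k * l + 3 := by
    have h5 : k * Real.log (1 + 3 / k) ≤ k * (3 / k) := mul_le_mul_of_nonneg_left h2 hk0.le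
    have h6 : k * (3 / k) = 3 := by field_simp
    rw [h1, mul_add]
    linarith
  have h7 : c * (k * Real.log (3 + k)) ≤ c * (k * l + 3) :=
    mul_le_mul_of_nonneg_left h4 (by linarith)
  have h8 : c * (3 * Real.log (3 + k)) ≤ c * (3 * (2 + k)) :=
    mul_le_mul_of_nonneg_left (by linarith) (by linarith)
  have h9 : c * (3 * (2 + k)) ≤ 2 * (3 * (2 + k)) :=
    mul_le_mul_of_nonneg_right hc2 (by linarith)
  have h10 : 0 ≤ k * R' := mul_nonneg hk0.le hR
  nlinarith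

/-- **V3b, the coefficients.** -/
theorem coeffBound : CoeffBound := by
  intro F c R' hc1 hc2 hR hF
  refine ⟨Real.exp (18 + 3 * R'), Real.one_le_exp (by linarith), ?_⟩
  intro k hk
  have hk1 : (1 : ℝ) ≤ (k : ℝ) := by exact_mod_cast hk
  have hk0 : (0 : ℝ) < (k : ℝ) := by linarith
  have h1 : ‖F (-(k : ℂ))‖ ≤
      Real.exp (c * ((3 + (k : ℝ)) * Real.log (3 + (k : ℝ))) + R' * (3 + (k : ℝ))) := by
    have h := hF (-(k : ℂ)) (by simp; linarith)
    have e1 : (-(k : ℂ)).re = -(k : ℝ) := by simp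
    have e2 : ‖(2 : ℂ) - -(k : ℂ)‖ = 2 + (k : ℝ) := by
      have e3 : (2 : ℂ) - -(k : ℂ) = ((2 + k : ℕ) : ℂ) := by push_cast; ring
      rw [e3, Complex.norm_natCast]
      push_cast
      ring
    rw [e1, e2] at h
    refine h.trans (Real.exp_le_exp.2 (le_of_eq ?_))
    have e4 : (3 : ℝ) - -(k : ℝ) = 3 + k := by ring
    have e5 : (1 : ℝ) + (2 + (k : ℝ)) = 3 + k := by ring
    rw [e4, e5]
  have hf0 : (0 : ℝ) < (k.factorial : ℝ) := by exact_mod_cast k.factorial_pos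
  have h2 : (k : ℝ) ^ k / (k.factorial : ℝ) ≤ Real.exp k :=
    Real.pow_div_factorial_le_exp (k : ℝ) hk0.le k
  have h3 : (1 : ℝ) / (k.factorial : ℝ) ≤ Real.exp (k - k * Real.log k) := by
    have e1 : (k : ℝ) ^ k = Real.exp (k * Real.log k) := by
      rw [Real.exp_nat_mul, Real.exp_log hk0]
    rw [e1] at h2
    rw [Real.exp_sub, div_le_div_iff₀ hf0 (Real.exp_pos _)]
    rw [div_le_iff₀ hf0] at h2
    linarith
  have h4 : ‖F (-(k : ℂ))‖ / (k.factorial : ℝ) ≤
      Real.exp (c * ((3 + (k : ℝ)) * Real.log (3 + (k : ℝ))) + R' * (3 + (k : ℝ)) + k -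
        k * Real.log k) := by
    rw [div_eq_mul_one_div, add_sub_assoc, Real.exp_add]
    exact mul_le_mul h1 h3 (by positivity) (Real.exp_pos _).le
  refine h4.trans ?_
  have e6 : Real.exp (18 + 3 * R') * (Real.exp (18 + 3 * R') * (k : ℝ) ^ (c - 1)) ^ k =
      Real.exp ((18 + 3 * R') + k * ((18 + 3 * R') + Real.log k * (c - 1))) := by
    rw [Real.rpow_def_of_pos hk0, ← Real.exp_add, ← Real.exp_nat_mul, ← Real.exp_add]
  rw [e6]
  exact Real.exp_le_exp.2 (V3b.expo hc1 hc2 hR hk1 rfl)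

end MP7ed9c3
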