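import Pool.Agent.Lib.MP_7ed9c3_nt.SpecV
import Pool.Agent.Lib.MP_7ed9c3_nt.G5

/-!
# MP_7ed9c3_nt: V4, the Gevrey expansion
-/

namespace MP7ed9c3

open Filter Topology MeasureTheory

lemma V4.exp_neg_one : Real.exp (-1) ≤ 1 / 2 := by
  have h := Real.add_one_le_exp (1 : ℝ)
  rw [Real.exp_neg, inv_eq_one_div]
  exact one_div_le_one_div_of_le (by norm_num) (by linarith)

lemma V4.geom_aux (a m : ℕ) : ∑ k ∈ Finset.Ico a (a + m), Real.exp (-(k : ℝ)) ≤
    2 * (Real.exp (-(a : ℝ)) - Real.exp (-((a + m : ℕ) : ℝ))) := by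
  induction m with
  | zero => simp
  | succ m ih =>
    rw [← add_assoc, Finset.sum_Ico_succ_top (by omega)]
    have h : Real.exp (-((a + m + 1 : ℕ) : ℝ)) = Real.exp (-((a + m : ℕ) : ℝ)) * Real.exp (-1) := by
      rw [← Real.exp_add]
      congr 1
      push_cast
      ring
    have h1 := V4.exp_neg_one
    have h2 := Real.exp_pos (-((a + m : ℕ) : ℝ))
    rw [h]
    nlinarith

lemma V4.geom (a n : ℕ) : ∑ k ∈ Finset.Ico a n, Real.exp (-(k : ℝ)) ≤ 2 * Real.exp (-(a : ℝ)) := by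
  rcases le_total a n with h | h
  · obtain ⟨m, rfl⟩ := Nat.exists_eq_add_of_le h
    have h1 := V4.geom_aux a m
    have h2 := Real.exp_pos (-((a + m : ℕ) : ℝ))
    linarith
  · rw [Finset.Ico_eq_empty_of_le h, Finset.sum_empty]
    positivity

lemma V4.exp_two (t : ℝ) (ht : 0 < t) : Real.exp (-t) ≤ 2 / t ^ 2 := by
  have h2 := Real.quadratic_le_exp_of_nonneg ht.le
  rw [Real.exp_neg, ← one_div, div_le_div_iff₀ (Real.exp_pos _) (by positivity)]
  linarith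

/-- The exponential series is bounded by a multiple of `u^(-2)`. -/
lemma V4.series (b : ℕ → ℂ) (hb0 : b 0 = 0)
    (hs : Summable (fun n : ℕ => ‖b n‖ * (n : ℝ) ^ (-(2 : ℝ)))) (x : ℂ) (hx : 0 < x.re) :
    ‖∑' n : ℕ, b n * Complex.exp (-(n * x))‖ ≤
      2 * (∑' n : ℕ, ‖b n‖ * (n : ℝ) ^ (-(2 : ℝ))) / x.re ^ 2 := by
  have key : ∀ n : ℕ, ‖b n * Complex.exp (-(n * x))‖ ≤
      ‖b n‖ * (n : ℝ) ^ (-(2 : ℝ)) * (2 / x.re ^ 2) := by
    intro n
    rcases Nat.eq_zero_or_pos n with rfl | hn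
    · simp [hb0]
    · have hn' : (0 : ℝ) < n := by exact_mod_cast hn
      have h5 : (n : ℝ) ^ (-(2 : ℝ)) = ((n : ℝ) ^ 2)⁻¹ := by
        rw [Real.rpow_neg hn'.le, Real.rpow_two]
      have h6 : (-(n * x) : ℂ).re = -((n : ℝ) * x.re) := by simp
      rw [norm_mul, Complex.norm_exp, h6, h5]
      have h7 := V4.exp_two (n * x.re) (by positivity)
      calc ‖b n‖ * Real.exp (-(n * x.re)) ≤ ‖b n‖ * (2 / (n * x.re) ^ 2) :=
            mul_le_mul_of_nonneg_left h7 (norm_nonneg _)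
        _ = _ := by
            field_simp
  have h := tsum_of_norm_bounded ((hs.mul_right (2 / x.re ^ 2)).hasSum) key
  rw [tsum_mul_right] at h
  calc _ ≤ _ := h
    _ = _ := by ring

/-- The terms of the expansion. -/
lemma V4.term (F : ℂ → ℂ) (c C₄ C₀ η ρ r : ℝ) (hc : 1 < c) (hC₄ : 1 ≤ C₄) (hC : C₄ ≤ C₀)
    (hF0 : ‖F 0‖ ≤ C₀) (hη : 0 < η) (hηC : C₀ * η ^ (c - 1) ≤ Real.exp (-1)) (hρ : 0 < ρ)
    (hr : 0 < r) (hrc : r ^ (c - 1) = ρ⁻¹)
    (h4 : ∀ k : ℕ, 1 ≤ k → ‖F (-(k : ℂ))‖ / (k.factorial : ℝ) ≤ C₄ * (C₄ * (k : ℝ) ^ (c - 1)) ^ k)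
    (k : ℕ) (hk : (k : ℝ) ≤ η * r) (x : ℂ) (hx : ‖x‖ ≤ ρ) :
    ‖F (-(k : ℂ)) * (-x) ^ k / (k.factorial : ℂ)‖ ≤ C₀ * Real.exp (-(k : ℝ)) := by
  rcases Nat.eq_zero_or_pos k with rfl | hk1
  · simpa using hF0
  · have hc1 : 0 < c - 1 := by linarith
    have h1 := h4 k hk1
    rw [norm_div, norm_mul, norm_pow, norm_neg, Complex.norm_natCast]
    have hk' : (0 : ℝ) ≤ k := Nat.cast_nonneg k
    have h2 : (k : ℝ) ^ (c - 1) ≤ η ^ (c - 1) * ρ⁻¹ := by
      rw [← hrc, ← Real.mul_rpow hη.le hr.le]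
      exact Real.rpow_le_rpow hk' hk hc1.le
    have h3 : C₄ * (k : ℝ) ^ (c - 1) * ρ ≤ Real.exp (-1) := by
      calc C₄ * (k : ℝ) ^ (c - 1) * ρ ≤ C₀ * (η ^ (c - 1) * ρ⁻¹) * ρ := by
            apply mul_le_mul_of_nonneg_right _ hρ.le
            exact mul_le_mul hC h2 (Real.rpow_nonneg hk' _) (by linarith)
        _ = C₀ * η ^ (c - 1) := by
            field_simp
        _ ≤ _ := hηC
    have h5 : 0 ≤ C₄ * (k : ℝ) ^ (c - 1) := mul_nonneg (by linarith) (Real.rpow_nonneg hk' _)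
    calc ‖F (-(k : ℂ))‖ * ‖x‖ ^ k / (k.factorial : ℝ) =
        ‖F (-(k : ℂ))‖ / (k.factorial : ℝ) * ‖x‖ ^ k := by ring
      _ ≤ C₄ * (C₄ * (k : ℝ) ^ (c - 1)) ^ k * ρ ^ k := by
          apply mul_le_mul h1 (pow_le_pow_left₀ (norm_nonneg _) hx k) (by positivity)
          positivity
      _ = C₄ * (C₄ * (k : ℝ) ^ (c - 1) * ρ) ^ k := by rw [mul_pow _ ρ]; ring
      _ ≤ C₀ * (Real.exp (-1)) ^ k := by
          apply mul_le_mul hC (pow_le_pow_left₀ (by positivity) h3 k) (by positivity)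
          linarith
      _ = C₀ * Real.exp (-(k : ℝ)) := by
          rw [← Real.exp_nat_mul]
          congr 2
          ring

/-- The remainder. -/
lemma V4.rem (c C₃ C₀ η ρ r : ℝ) (hc : 1 < c) (hC₃ : 1 ≤ C₃) (hC : C₃ ≤ C₀)
    (hη : 0 < η) (hηC : C₀ * (2 * η) ^ (c - 1) ≤ Real.exp (-1)) (hρ : 0 < ρ)
    (hr : 0 < r) (hrc : r ^ (c - 1) = ρ⁻¹) (N : ℕ) (x : ℂ) (hx : 0 < x.re) (hxρ : ‖x‖ ≤ ρ)
    (hN : ((N : ℝ) + 1) * ‖x‖ / x.re ≤ 2 * η * r) :
    C₃ * (C₃ * ((N : ℝ) + 1) * ‖x‖ / x.re) ^ 8 *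
      (C₃ * ‖x‖ * (((N : ℝ) + 1) * ‖x‖ / x.re) ^ (c - 1)) ^ N ≤
    C₀ * (2 * C₀ * η * r) ^ 8 * Real.exp (-(N : ℝ)) := by
  have hc1 : 0 < c - 1 := by linarith
  have hC₃0 : 0 < C₃ := by linarith
  have hC₀0 : 0 < C₀ := by linarith
  have h0 : 0 ≤ ((N : ℝ) + 1) * ‖x‖ / x.re := by positivity
  have h1 : (((N : ℝ) + 1) * ‖x‖ / x.re) ^ (c - 1) ≤ (2 * η) ^ (c - 1) * ρ⁻¹ := by
    rw [← hrc, ← Real.mul_rpow (by positivity) hr.le]
    exact Real.rpow_le_rpow h0 hN hc1.le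
  have h2 : C₃ * ‖x‖ * (((N : ℝ) + 1) * ‖x‖ / x.re) ^ (c - 1) ≤ Real.exp (-1) := by
    calc C₃ * ‖x‖ * (((N : ℝ) + 1) * ‖x‖ / x.re) ^ (c - 1) ≤
        C₀ * ρ * ((2 * η) ^ (c - 1) * ρ⁻¹) := by
          apply mul_le_mul _ h1 (Real.rpow_nonneg h0 _) (by positivity)
          exact mul_le_mul hC hxρ (norm_nonneg _) (by linarith)
      _ = C₀ * (2 * η) ^ (c - 1) := by
          field_simp
      _ ≤ _ := hηC
  have h3 : C₃ * ((N : ℝ) + 1) * ‖x‖ / x.re ≤ 2 * C₀ * η * r := by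
    calc C₃ * ((N : ℝ) + 1) * ‖x‖ / x.re = C₃ * (((N : ℝ) + 1) * ‖x‖ / x.re) := by ring
      _ ≤ C₀ * (2 * η * r) := mul_le_mul hC hN h0 (by linarith)
      _ = _ := by ring
  have h4 : 0 ≤ C₃ * ((N : ℝ) + 1) * ‖x‖ / x.re := by positivity
  have h5 : 0 ≤ C₃ * ‖x‖ * (((N : ℝ) + 1) * ‖x‖ / x.re) ^ (c - 1) := by
    have := Real.rpow_nonneg h0 (c - 1)
    positivity
  calc _ ≤ C₀ * (2 * C₀ * η * r) ^ 8 * (Real.exp (-1)) ^ N := by
        apply mul_le_mul _ (pow_le_pow_left₀ h5 h2 N) (pow_nonneg h5 _) (by positivity)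
        exact mul_le_mul hC (pow_le_pow_left₀ h4 h3 8) (pow_nonneg h4 _) (by linarith)
    _ = _ := by
        rw [← Real.exp_nat_mul]
        congr 2
        ring

/-- **V4.** -/
theorem approximation (v1 : PhragLindC) (v2 : RemForm) (v3 : RemBound) (v3b : CoeffBound) :
    Approximation := by
  intro b F c R hc1 hc2 hb0 hs hF hgrow hDir
  have hB := g5_bdd b F hb0 hs hDir
  obtain ⟨R', hR', hL⟩ := v1 F c R _ hc1.le hc2.le hF hgrow hB
  obtain ⟨C₃, hC₃, h3⟩ := v3 F c R' hc1.le hc2.le hR' hL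
  obtain ⟨C₄, hC₄, h4⟩ := v3b F c R' hc1.le hc2.le hR' hL
  have h2 := v2 b F c R' hc1.le hc2.le hR' hb0 hs hF hL hDir
  have hser := V4.series b hb0 hs
  have hA0 : 0 ≤ ∑' n : ℕ, ‖b n‖ * (n : ℝ) ^ (-(2 : ℝ)) := tsum_nonneg fun n => by positivity
  generalize (∑' n : ℕ, ‖b n‖ * (n : ℝ) ^ (-(2 : ℝ))) = A at hser hA0
  obtain ⟨C₀, hC₀⟩ : ∃ C₀ : ℝ, C₀ = C₃ + C₄ + ‖F 0‖ + 2 * A := ⟨_, rfl⟩
  have hF0 := norm_nonneg (F 0)
  have hC₀1 : 1 ≤ C₀ := by linarith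
  have hd : 0 < c - 1 := by linarith
  obtain ⟨κ, hκ⟩ : ∃ κ : ℝ, κ = 1 / (c - 1) := ⟨_, rfl⟩
  have hκ1 : 1 < κ := by
    rw [hκ, lt_div_iff₀ hd]
    linarith
  have hκd : κ * (c - 1) = 1 := by
    rw [hκ]
    field_simp
  obtain ⟨η, hη⟩ : ∃ η : ℝ, η = (Real.exp (-1) / C₀) ^ κ / 2 := ⟨_, rfl⟩
  have hq : 0 < Real.exp (-1) / C₀ := by positivity
  have hη0 : 0 < η := by
    rw [hη]
    positivity
  have h2η : 2 * η = (Real.exp (-1) / C₀) ^ κ := by
    rw [hη]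
    ring
  have hηC : C₀ * (2 * η) ^ (c - 1) ≤ Real.exp (-1) := by
    rw [h2η, ← Real.rpow_mul hq.le, hκd, Real.rpow_one]
    apply le_of_eq
    field_simp
  have hηC' : C₀ * η ^ (c - 1) ≤ Real.exp (-1) := by
    refine le_trans ?_ hηC
    apply mul_le_mul_of_nonneg_left _ (by linarith)
    exact Real.rpow_le_rpow hη0.le (by linarith) hd.le
  -- the constant
  obtain ⟨C, hC⟩ : ∃ C : ℝ, C = C₀ * (2 * C₀ * η) ^ 8 * Real.exp 1 + 6 * C₀ * Real.exp 1 +
    8 * κ + 2 := ⟨_, rfl⟩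
  have he1 : 1 ≤ Real.exp 1 := Real.one_le_exp (by norm_num)
  have hK0 : 0 ≤ C₀ * (2 * C₀ * η) ^ 8 * Real.exp 1 := by positivity
  have hK1 : C₀ ≤ C₀ * Real.exp 1 := le_mul_of_one_le_right (by linarith) he1
  have hC8 : 8 * κ ≤ C := by
    have : 0 ≤ 6 * C₀ * Real.exp 1 := by positivity
    linarith
  have hC2 : 2 ≤ C := by
    have : 0 ≤ 6 * C₀ * Real.exp 1 := by positivity
    linarith
  refine ⟨κ + 1, C, η, 1, by linarith, by linarith, hη0, one_pos, ?_⟩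
  intro ρ hρ hρ1
  obtain ⟨r, hr⟩ : ∃ r : ℝ, r = ρ ^ (-κ) := ⟨_, rfl⟩
  have hr0 : 0 < r := by
    rw [hr]
    exact Real.rpow_pos_of_pos hρ _
  have hrc : r ^ (c - 1) = ρ⁻¹ := by
    rw [hr, ← Real.rpow_mul hρ.le, neg_mul, hκd, Real.rpow_neg_one]
  have hterm := V4.term F c C₄ C₀ η ρ r hc1 hC₄ (by linarith) (by linarith) hη0 hηC' hρ hr0 hrc h4
  obtain ⟨N₀, hN₀⟩ : ∃ N₀ : ℕ, N₀ = ⌊η * r⌋₊ := ⟨_, rfl⟩
  have hN₀r : (N₀ : ℝ) ≤ η * r := by
    rw [hN₀]
    exact Nat.floor_le (by positivity)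
  have hsumI : ∀ (a n : ℕ), n ≤ N₀ + 1 → ∀ x : ℂ, ‖x‖ ≤ ρ →
      ‖∑ k ∈ Finset.Ico a n, F (-(k : ℂ)) * (-x) ^ k / (k.factorial : ℂ)‖ ≤
        2 * C₀ * Real.exp (-(a : ℝ)) := by
    intro a n hn x hx
    refine (norm_sum_le _ _).trans ?_
    calc ∑ k ∈ Finset.Ico a n, ‖F (-(k : ℂ)) * (-x) ^ k / (k.factorial : ℂ)‖ ≤
        ∑ k ∈ Finset.Ico a n, C₀ * Real.exp (-(k : ℝ)) := by
          apply Finset.sum_le_sum
          intro k hk
          rw [Finset.mem_Ico] at hk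
          apply hterm k _ x hx
          have : (k : ℝ) ≤ N₀ := by
            exact_mod_cast (by omega : k ≤ N₀)
          linarith
      _ = C₀ * ∑ k ∈ Finset.Ico a n, Real.exp (-(k : ℝ)) := by rw [Finset.mul_sum]
      _ ≤ C₀ * (2 * Real.exp (-(a : ℝ))) :=
          mul_le_mul_of_nonneg_left (V4.geom a n) (by linarith)
      _ = _ := by ring
  have hP : ∀ x : ℂ, ‖x‖ ≤ ρ →
      ‖∑ k ∈ Finset.range (N₀ + 1), F (-(k : ℂ)) * (-x) ^ k / (k.factorial : ℂ)‖ ≤ 2 * C₀ := by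
    intro x hx
    have h := hsumI 0 (N₀ + 1) le_rfl x hx
    rw [← Finset.range_eq_Ico] at h
    simpa using h
  refine ⟨fun x => ∑ k ∈ Finset.range (N₀ + 1), F (-(k : ℂ)) * (-x) ^ k / (k.factorial : ℂ),
    ?_, ?_, ?_⟩
  · fun_prop
  · intro x hx
    refine (hP x hx).trans ?_
    have : 0 ≤ κ := by linarith
    linarith
  · intro x hx hxρ
    obtain ⟨u, hu⟩ : ∃ u : ℝ, u = x.re := ⟨_, rfl⟩
    have hS := hser x hx
    have hux : u ≤ ‖x‖ := by
      rw [hu]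
      exact Complex.re_le_norm x
    have h2x := fun N : ℕ => h2 N x hx
    have h3x := fun N : ℕ => h3 N x hx
    have hremx := fun N : ℕ => V4.rem c C₃ C₀ η ρ r hc1 hC₃ (by linarith) hη0 hηC hρ hr0 hrc N x
      hx hxρ
    rw [← hu] at hx hS ⊢
    simp only [← hu] at h3x hremx
    have huρ : u ≤ ρ := hux.trans hxρ
    have hu1 : u ≤ 1 := huρ.trans hρ1
    -- powers of `u`
    have hpow : ∀ t : ℝ, t ≤ C → u ^ (-t) ≤ u ^ (-C) := by
      intro t ht
      apply Real.rpow_le_rpow_of_exponent_ge hx hu1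
      linarith
    have hpowC : 1 ≤ u ^ (-C) := by
      have := hpow 0 (by linarith)
      simpa using this
    obtain ⟨T, hT⟩ : ∃ T : ℝ, T = η * u * ρ ^ (-(κ + 1)) := ⟨_, rfl⟩
    have hT0 : 0 < T := by
      rw [hT]
      have := Real.rpow_pos_of_pos hρ (-(κ + 1))
      positivity
    rw [← hT]
    have hρβ : ρ ^ (-(κ + 1)) = r / ρ := by
      rw [show -(κ + 1) = -κ - 1 by ring, Real.rpow_sub_one hρ.ne', hr]
    have hTr : T ≤ η * r := by
      rw [hT, hρβ]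
      have : u / ρ ≤ 1 := (div_le_one hρ).2 huρ
      calc η * u * (r / ρ) = η * r * (u / ρ) := by ring
        _ ≤ η * r * 1 := mul_le_mul_of_nonneg_left this (by positivity)
        _ = η * r := mul_one _
    have hS' : ‖∑' n : ℕ, b n * Complex.exp (-(n * x))‖ ≤ C₀ * u ^ (-C) := by
      have h5 : u ^ (-(2 : ℝ)) = (u ^ 2)⁻¹ := by
        rw [Real.rpow_neg hx.le, Real.rpow_two]
      have h6 := hpow 2 hC2
      rw [h5] at h6
      calc _ ≤ 2 * A / u ^ 2 := hS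
        _ = 2 * A * (u ^ 2)⁻¹ := div_eq_mul_inv _ _
        _ ≤ C₀ * u ^ (-C) := mul_le_mul (by linarith) h6 (by positivity) (by linarith)
    have hPx := hP x hxρ
    have hexpT := Real.exp_pos (-T)
    rcases lt_or_ge T 1 with hT1 | hT1
    · -- small `T`
      have h7 : Real.exp (-1) ≤ Real.exp (-T) := Real.exp_le_exp.2 (by linarith)
      have h8 : 1 ≤ Real.exp 1 * Real.exp (-T) := by
        rw [← Real.exp_add]
        exact Real.one_le_exp (by linarith)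
      calc ‖(∑' n : ℕ, b n * Complex.exp (-(n * x))) -
            ∑ k ∈ Finset.range (N₀ + 1), F (-(k : ℂ)) * (-x) ^ k / (k.factorial : ℂ)‖ ≤
          C₀ * u ^ (-C) + 2 * C₀ := (norm_sub_le _ _).trans (add_le_add hS' hPx)
        _ ≤ C₀ * u ^ (-C) + 2 * C₀ * u ^ (-C) := by
            have := mul_le_mul_of_nonneg_left hpowC (by linarith : 0 ≤ 2 * C₀)
            linarith
        _ = 3 * C₀ * u ^ (-C) * 1 := by ring
        _ ≤ 3 * C₀ * u ^ (-C) * (Real.exp 1 * Real.exp (-T)) :=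
            mul_le_mul_of_nonneg_left h8 (by positivity)
        _ = 3 * C₀ * Real.exp 1 * u ^ (-C) * Real.exp (-T) := by ring
        _ ≤ C * u ^ (-C) * Real.exp (-T) := by
            apply mul_le_mul_of_nonneg_right _ hexpT.le
            apply mul_le_mul_of_nonneg_right _ (by positivity)
            have : 0 ≤ 3 * C₀ * Real.exp 1 := by positivity
            linarith
    · -- large `T`
      obtain ⟨N₁, hN₁⟩ : ∃ N₁ : ℕ, N₁ = ⌊T⌋₊ := ⟨_, rfl⟩
      have hN₁T : (N₁ : ℝ) ≤ T := by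
        rw [hN₁]
        exact Nat.floor_le hT0.le
      have hTN₁ : T < N₁ + 1 := by
        rw [hN₁]
        exact Nat.lt_floor_add_one T
      have hN₁1 : N₁ ≤ N₀ := by
        rw [hN₁, hN₀]
        exact Nat.floor_le_floor hTr
      have hN2 : (N₁ : ℝ) + 1 ≤ 2 * T := by linarith
      have hNx : ((N₁ : ℝ) + 1) * ‖x‖ / u ≤ 2 * η * r := by
        rw [div_le_iff₀ hx]
        calc ((N₁ : ℝ) + 1) * ‖x‖ ≤ 2 * T * ρ :=
              mul_le_mul hN2 hxρ (norm_nonneg _) (by linarith)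
          _ = 2 * η * r * u := by
              rw [hT, hρβ]
              field_simp
      have hrem := hremx N₁ hNx
      have h5 := (h3x N₁ (hxρ.trans hρ1)).trans hrem
      have h6 := h2x N₁
      have hsplit := Finset.sum_range_add_sum_Ico
        (fun k : ℕ => F (-(k : ℂ)) * (-x) ^ k / (k.factorial : ℂ))
        (by omega : N₁ + 1 ≤ N₀ + 1)
      have hIco := hsumI (N₁ + 1) (N₀ + 1) le_rfl x hxρ
      have hdiff : (∑' n : ℕ, b n * Complex.exp (-(n * x))) -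
            ∑ k ∈ Finset.range (N₀ + 1), F (-(k : ℂ)) * (-x) ^ k / (k.factorial : ℂ) =
          1 / (2 * Real.pi) * (∫ τ : ℝ, F (-(N₁ : ℂ) - 1 / 2 + τ * Complex.I) *
            Complex.Gamma (-(N₁ : ℂ) - 1 / 2 + τ * Complex.I) *
            x ^ ((N₁ : ℂ) + 1 / 2 - τ * Complex.I)) -
          ∑ k ∈ Finset.Ico (N₁ + 1) (N₀ + 1),
            F (-(k : ℂ)) * (-x) ^ k / (k.factorial : ℂ) := by
        rw [h6, ← hsplit]
        ring
      have hpi : ‖(1 / (2 * Real.pi) : ℂ)‖ ≤ 1 := by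
        have h9 : (1 / (2 * Real.pi) : ℂ) = ((1 / (2 * Real.pi) : ℝ) : ℂ) := by
          push_cast
          ring
        rw [h9, Complex.norm_real, Real.norm_of_nonneg (by positivity)]
        rw [div_le_one (by positivity)]
        linarith [Real.pi_gt_three]
      have hr8 : r ^ 8 ≤ u ^ (-C) := by
        have h9 : r ^ 8 = ρ ^ (-(8 * κ)) := by
          rw [hr, ← Real.rpow_natCast, ← Real.rpow_mul hρ.le]
          congr 1
          push_cast
          ring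
        rw [h9]
        refine le_trans ?_ (hpow (8 * κ) hC8)
        rw [Real.rpow_neg hρ.le, Real.rpow_neg hx.le]
        apply inv_anti₀ (Real.rpow_pos_of_pos hx _)
        exact Real.rpow_le_rpow hx.le huρ (by linarith)
      have hexpN : Real.exp (-(N₁ : ℝ)) ≤ Real.exp 1 * Real.exp (-T) := by
        rw [← Real.exp_add]
        exact Real.exp_le_exp.2 (by linarith)
      have hexpN1 : Real.exp (-((N₁ + 1 : ℕ) : ℝ)) ≤ Real.exp (-T) := by
        apply Real.exp_le_exp.2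
        push_cast
        linarith
      rw [hdiff]
      refine (norm_sub_le _ _).trans ?_
      rw [norm_mul]
      calc _ ≤ 1 * (C₀ * (2 * C₀ * η * r) ^ 8 * Real.exp (-(N₁ : ℝ))) +
            2 * C₀ * Real.exp (-((N₁ + 1 : ℕ) : ℝ)) := by
            apply add_le_add _ hIco
            exact mul_le_mul hpi h5 (norm_nonneg _) zero_le_one
        _ ≤ C₀ * (2 * C₀ * η) ^ 8 * r ^ 8 * (Real.exp 1 * Real.exp (-T)) +
            2 * C₀ * Real.exp (-T) := by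
            apply add_le_add
            · rw [one_mul, mul_pow _ r, ← mul_assoc]
              exact mul_le_mul_of_nonneg_left hexpN (by positivity)
            · exact mul_le_mul_of_nonneg_left hexpN1 (by positivity)
        _ ≤ C₀ * (2 * C₀ * η) ^ 8 * u ^ (-C) * (Real.exp 1 * Real.exp (-T)) +
            2 * C₀ * u ^ (-C) * Real.exp (-T) := by
            apply add_le_add
            · apply mul_le_mul_of_nonneg_right _ (by positivity)
              exact mul_le_mul_of_nonneg_left hr8 (by positivity)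
            · apply mul_le_mul_of_nonneg_right _ hexpT.le
              exact le_mul_of_one_le_right (by positivity) hpowC
        _ = (C₀ * (2 * C₀ * η) ^ 8 * Real.exp 1 + 2 * C₀) * u ^ (-C) * Real.exp (-T) := by
            ring
        _ ≤ C * u ^ (-C) * Real.exp (-T) := by
            apply mul_le_mul_of_nonneg_right _ hexpT.le
            apply mul_le_mul_of_nonneg_right _ (by positivity)
            have : 0 ≤ κ := by linarith
            linarith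

end MP7ed9c3
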