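import Pool.Agent.Lib.MP_7ed9c3_nt.SpecV

/-!
# MP_7ed9c3_nt: V5, an explicit kernel
-/

set_option autoImplicit false

namespace MP7ed9c3

/-- `exp t (1 - t) ≤ 1`. -/
theorem V5.exp_mul (t : ℝ) : Real.exp t * (1 - t) ≤ 1 := by
  have h1 := Real.one_sub_le_exp_neg t
  have h2 := Real.exp_pos t
  calc Real.exp t * (1 - t) ≤ Real.exp t * Real.exp (-t) := mul_le_mul_of_nonneg_left h1 h2.le
    _ = 1 := by rw [← Real.exp_add, add_neg_cancel, Real.exp_zero]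

/-- The kernel. -/
noncomputable def V5.G (m n : ℕ) (w : ℂ) : ℂ :=
  (1 / (n : ℂ)) ^ m + (1 + w) * ((1 - 1 / (n : ℂ)) / (1 - (1 - 1 / (n : ℂ)) * w)) *
    ∑ j ∈ Finset.range m, ((1 / (n : ℂ)) / (1 - (1 - 1 / (n : ℂ)) * w)) ^ j

theorem V5.norm_l {n : ℕ} (hn : 8 ≤ n) : ‖(1 - 1 / (n : ℂ))‖ = 1 - 1 / (n : ℝ) := by
  have hn' : (8 : ℝ) ≤ n := by exact_mod_cast hn
  have h1 : (1 - 1 / (n : ℂ)) = ((1 - 1 / (n : ℝ) : ℝ) : ℂ) := by push_cast; rfl
  rw [h1, Complex.norm_real, Real.norm_eq_abs, abs_of_nonneg]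
  have : 1 / (n : ℝ) ≤ 1 := by
    rw [div_le_one (by linarith)]
    linarith
  linarith

theorem V5.norm_inv {n : ℕ} : ‖(1 / (n : ℂ))‖ = 1 / (n : ℝ) := by
  rw [norm_div, norm_one, Complex.norm_natCast]

theorem V5.den_lower {n : ℕ} (hn : 8 ≤ n) {w : ℂ} :
    1 - (1 - 1 / (n : ℝ)) * ‖w‖ ≤ ‖1 - (1 - 1 / (n : ℂ)) * w‖ := by
  have h1 := norm_sub_norm_le (1 : ℂ) ((1 - 1 / (n : ℂ)) * w)
  rw [norm_one, norm_mul, V5.norm_l hn] at h1
  exact h1

theorem V5.exp_bounds {n : ℕ} (hn : 8 ≤ n) :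
    (1 - 1 / (n : ℝ)) * Real.exp (3 / (4 * n)) < 1 ∧
      (1 - 1 / (n : ℝ)) * Real.exp (1 / (2 * n)) ≤ 1 - 1 / (2 * n) ∧
      Real.exp (1 / (2 * n)) ≤ 2 := by
  have hn' : (8 : ℝ) ≤ n := by exact_mod_cast hn
  have hn0 : (0 : ℝ) < n := by linarith
  set t : ℝ := 1 / n with ht
  have ht0 : 0 < t := by positivity
  have ht1 : t ≤ 1 / 8 := by
    rw [ht]
    exact one_div_le_one_div_of_le (by norm_num) hn'
  have e1 : 3 / (4 * (n : ℝ)) = 3 / 4 * t := by rw [ht]; field_simp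
  have e2 : 1 / (2 * (n : ℝ)) = 1 / 2 * t := by rw [ht]; field_simp
  rw [e1, e2]
  have h1 := V5.exp_mul (3 / 4 * t)
  have h2 := V5.exp_mul (1 / 2 * t)
  have p1 := Real.exp_pos (3 / 4 * t)
  have p2 := Real.exp_pos (1 / 2 * t)
  refine ⟨?_, ?_, ?_⟩
  · nlinarith
  · nlinarith
  · nlinarith

theorem kernel : Kernel := by
  intro m
  have h5 : (1 : ℝ) ≤ 5 ^ m := one_le_pow₀ (by norm_num)
  refine ⟨7 * 5 ^ m, by linarith, ?_⟩
  intro n hn
  have hn' : (8 : ℝ) ≤ n := by exact_mod_cast hn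
  have hn0 : (0 : ℝ) < n := by linarith
  have hnC : (n : ℂ) ≠ 0 := by
    intro h
    rw [Nat.cast_eq_zero] at h
    omega
  obtain ⟨k1, k2, k3⟩ := V5.exp_bounds hn
  have ht1 : 1 / (n : ℝ) ≤ 1 / 8 := one_div_le_one_div_of_le (by norm_num) hn'
  have ht0 : 0 < 1 / (n : ℝ) := by positivity
  -- the denominator
  have hD1 : ∀ w : ℂ, ‖w‖ < Real.exp (3 / (4 * n)) → 1 - (1 - 1 / (n : ℂ)) * w ≠ 0 := by
    intro w hw h0
    have h1 := V5.den_lower hn (w := w)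
    rw [h0, norm_zero] at h1
    have h2 : (1 - 1 / (n : ℝ)) * ‖w‖ ≤ (1 - 1 / (n : ℝ)) * Real.exp (3 / (4 * n)) :=
      mul_le_mul_of_nonneg_left hw.le (by linarith)
    linarith
  have hD2 : ∀ w : ℂ, ‖w‖ ≤ Real.exp (1 / (2 * n)) →
      1 / (2 * (n : ℝ)) ≤ ‖1 - (1 - 1 / (n : ℂ)) * w‖ := by
    intro w hw
    have h1 := V5.den_lower hn (w := w)
    have h2 : (1 - 1 / (n : ℝ)) * ‖w‖ ≤ (1 - 1 / (n : ℝ)) * Real.exp (1 / (2 * n)) :=
      mul_le_mul_of_nonneg_left hw (by linarith)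
    linarith
  have hq : ∀ w : ℂ, ‖w‖ ≤ Real.exp (1 / (2 * n)) →
      ‖(1 / (n : ℂ)) / (1 - (1 - 1 / (n : ℂ)) * w)‖ ≤ 2 := by
    intro w hw
    have h1 := hD2 w hw
    have h2 : 0 < 1 / (2 * (n : ℝ)) := by positivity
    rw [norm_div, V5.norm_inv, div_le_iff₀ (by linarith)]
    have h3 : 2 * (1 / (2 * (n : ℝ))) = 1 / n := by field_simp
    linarith
  refine ⟨V5.G m n, ?_, ?_, ?_, ?_⟩
  · -- analyticity
    intro w hw
    rw [Metric.mem_ball, dist_zero_right] at hw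
    have hD := hD1 w hw
    apply DifferentiableAt.differentiableWithinAt
    unfold V5.G
    have hden : DifferentiableAt ℂ (fun w : ℂ => 1 - (1 - 1 / (n : ℂ)) * w) w := by fun_prop
    refine DifferentiableAt.add (differentiableAt_const _) ?_
    refine DifferentiableAt.mul (DifferentiableAt.mul (by fun_prop)
      (DifferentiableAt.div (differentiableAt_const _) hden hD)) ?_
    exact DifferentiableAt.fun_sum (fun j _ =>
      (DifferentiableAt.div (differentiableAt_const _) hden hD).pow j)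
  · -- the value at 0
    unfold V5.G
    rw [mul_zero, sub_zero, div_one, div_one, add_zero, one_mul, mul_comm,
      geom_sum_mul_neg]
    ring
  · -- the bound
    intro w hw
    have h1 := hD2 w hw
    have h2 : 0 < 1 / (2 * (n : ℝ)) := by positivity
    have h3 : ‖(1 + w)‖ ≤ 3 := by
      refine (norm_add_le _ _).trans ?_
      rw [norm_one]
      linarith
    have h4 : ‖(1 - 1 / (n : ℂ)) / (1 - (1 - 1 / (n : ℂ)) * w)‖ ≤ 2 * n := by
      rw [norm_div, V5.norm_l hn, div_le_iff₀ (by linarith)]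
      have h5 : 2 * (n : ℝ) * (1 / (2 * (n : ℝ))) = 1 := by field_simp
      have h6 := mul_le_mul_of_nonneg_left h1 (by linarith : (0 : ℝ) ≤ 2 * n)
      linarith
    have h5' : ‖∑ j ∈ Finset.range m, ((1 / (n : ℂ)) / (1 - (1 - 1 / (n : ℂ)) * w)) ^ j‖ ≤
        2 ^ m := by
      refine (norm_sum_le _ _).trans ?_
      calc ∑ j ∈ Finset.range m, ‖((1 / (n : ℂ)) / (1 - (1 - 1 / (n : ℂ)) * w)) ^ j‖
          ≤ ∑ j ∈ Finset.range m, (2 : ℝ) ^ j := by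
            refine Finset.sum_le_sum fun j _ => ?_
            rw [norm_pow]
            exact pow_le_pow_left₀ (norm_nonneg _) (hq w hw) j
        _ = 2 ^ m - 1 := by
            have := geom_sum_mul (2 : ℝ) m
            linarith
        _ ≤ 2 ^ m := by linarith
    have h6 : ‖(1 / (n : ℂ)) ^ m‖ ≤ 1 := by
      rw [norm_pow, V5.norm_inv]
      exact pow_le_one₀ ht0.le (by linarith)
    have h7 : (2 : ℝ) ^ m ≤ 5 ^ m := pow_le_pow_left₀ (by norm_num) (by norm_num) m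
    unfold V5.G
    refine (norm_add_le _ _).trans ?_
    rw [norm_mul, norm_mul]
    have h8 : ‖(1 + w)‖ * ‖(1 - 1 / (n : ℂ)) / (1 - (1 - 1 / (n : ℂ)) * w)‖ ≤ 3 * (2 * n) :=
      mul_le_mul h3 h4 (norm_nonneg _) (by norm_num)
    have h9 := mul_le_mul h8 h5' (norm_nonneg _) (by positivity)
    have h10 : 3 * (2 * (n : ℝ)) * 2 ^ m ≤ 3 * (2 * n) * 5 ^ m :=
      mul_le_mul_of_nonneg_left h7 (by positivity)
    have h11 : (1 : ℝ) ≤ 5 ^ m * n := by nlinarith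
    linarith
  · -- the real part
    intro w hw1 hw
    have h1 := hD2 w hw
    have h2 : 0 < 1 / (2 * (n : ℝ)) := by positivity
    have h1w : (1 : ℂ) - w ≠ 0 := sub_ne_zero.2 hw1.symm
    have hp : 0 < ‖1 - w‖ := norm_pos_iff.2 h1w
    have hDne : 1 - (1 - 1 / (n : ℂ)) * w ≠ 0 := by
      intro h0
      rw [h0, norm_zero] at h1
      linarith
    have h3 : ‖(1 + w)‖ ≤ 3 := by
      refine (norm_add_le _ _).trans ?_
      rw [norm_one]
      linarith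
    have hmax : 0 ≤ max 0 (1 - ‖w‖ ^ 2) / ‖1 - w‖ ^ 2 := by positivity
    -- the distance to 1
    have h4 : ‖1 - w‖ ≤ 5 * ‖1 - (1 - 1 / (n : ℂ)) * w‖ := by
      have e1 : (1 : ℂ) - w = (1 - (1 - 1 / (n : ℂ)) * w) - (1 / (n : ℂ)) * w := by ring
      have e2 : ‖(1 : ℂ) - w‖ ≤ ‖1 - (1 - 1 / (n : ℂ)) * w‖ + ‖(1 / (n : ℂ)) * w‖ := by
        conv_lhs => rw [e1]
        exact norm_sub_le _ _
      rw [norm_mul, V5.norm_inv] at e2
      have e3 : 1 / (n : ℝ) * ‖w‖ ≤ 1 / (n : ℝ) * 2 :=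
        mul_le_mul_of_nonneg_left (hw.trans k3) ht0.le
      have e4 : 1 / (n : ℝ) * 2 = 4 * (1 / (2 * (n : ℝ))) := by field_simp; norm_num
      linarith
    have hq5 : ‖(1 / (n : ℂ)) / (1 - (1 - 1 / (n : ℂ)) * w)‖ ≤ 5 / (n * ‖1 - w‖) := by
      rw [norm_div, V5.norm_inv, div_le_div_iff₀ (by linarith) (by positivity)]
      have e5 : 1 / (n : ℝ) * (n * ‖1 - w‖) = ‖1 - w‖ := by field_simp
      rw [e5]
      exact h4
    -- the formula
    have hG : V5.G m n w = (1 / (n : ℂ)) ^ m + (1 + w) / (1 - w) *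
        (1 - ((1 / (n : ℂ)) / (1 - (1 - 1 / (n : ℂ)) * w)) ^ m) := by
      have e6 : (1 - 1 / (n : ℂ)) / (1 - (1 - 1 / (n : ℂ)) * w) =
          (1 - (1 / (n : ℂ)) / (1 - (1 - 1 / (n : ℂ)) * w)) / (1 - w) := by
        have e60 : (1 - (1 / (n : ℂ)) / (1 - (1 - 1 / (n : ℂ)) * w)) *
            (1 - (1 - 1 / (n : ℂ)) * w) = (1 - (1 - 1 / (n : ℂ)) * w) - 1 / (n : ℂ) := by
          rw [sub_mul, one_mul, div_mul_cancel₀ _ hDne]
        rw [eq_div_iff h1w, div_mul_eq_mul_div, div_eq_iff hDne, e60]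
        ring
      have e7 := mul_neg_geom_sum ((1 / (n : ℂ)) / (1 - (1 - 1 / (n : ℂ)) * w)) m
      unfold V5.G
      rw [e6, ← e7]
      ring
    have hre : ((1 + w) / (1 - w)).re = (1 - ‖w‖ ^ 2) / ‖1 - w‖ ^ 2 := by
      rw [Complex.div_re, ← Complex.normSq_eq_norm_sq, ← Complex.normSq_eq_norm_sq, ← add_div]
      congr 1
      rw [Complex.normSq_apply]
      simp only [Complex.add_re, Complex.one_re, Complex.sub_re, Complex.add_im, Complex.one_im,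
        Complex.sub_im]
      ring
    have hle1 : (1 - ‖w‖ ^ 2) / ‖1 - w‖ ^ 2 ≤ max 0 (1 - ‖w‖ ^ 2) / ‖1 - w‖ ^ 2 :=
      div_le_div_of_nonneg_right (le_max_right _ _) (by positivity)
    have hle2 : ‖(1 + w) / (1 - w) * ((1 / (n : ℂ)) / (1 - (1 - 1 / (n : ℂ)) * w)) ^ m‖ ≤
        3 * 5 ^ m / ((n : ℝ) ^ m * ‖1 - w‖ ^ (m + 1)) := by
      rw [norm_mul, norm_div, norm_pow]
      have e8 : ‖(1 + w)‖ / ‖1 - w‖ ≤ 3 / ‖1 - w‖ := div_le_div_of_nonneg_right h3 hp.le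
      have e9 := pow_le_pow_left₀ (norm_nonneg _) hq5 m
      have e10 := mul_le_mul e8 e9 (by positivity) (by positivity)
      refine e10.trans (le_of_eq ?_)
      rw [div_pow, mul_pow, pow_succ, div_mul_div_comm]
      ring
    have hre2 : (V5.G m n w).re = ((1 / (n : ℂ)) ^ m).re + ((1 + w) / (1 - w)).re -
        ((1 + w) / (1 - w) * ((1 / (n : ℂ)) / (1 - (1 - 1 / (n : ℂ)) * w)) ^ m).re := by
      rw [hG, mul_sub, mul_one, Complex.add_re, Complex.sub_re]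
      ring
    have hpos : 0 ≤ 5 ^ m / ((n : ℝ) ^ m * ‖1 - w‖ ^ (m + 1)) := by positivity
    have hsplit : 7 * 5 ^ m / ((n : ℝ) ^ m * ‖1 - w‖ ^ (m + 1)) =
        7 * (5 ^ m / ((n : ℝ) ^ m * ‖1 - w‖ ^ (m + 1))) := by ring
    have hsplit3 : 3 * 5 ^ m / ((n : ℝ) ^ m * ‖1 - w‖ ^ (m + 1)) =
        3 * (5 ^ m / ((n : ℝ) ^ m * ‖1 - w‖ ^ (m + 1))) := by ring
    have hneg := Complex.abs_re_le_norm
      ((1 + w) / (1 - w) * ((1 / (n : ℂ)) / (1 - (1 - 1 / (n : ℂ)) * w)) ^ m)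
    have hneg' := neg_abs_le
      ((1 + w) / (1 - w) * ((1 / (n : ℂ)) / (1 - (1 - 1 / (n : ℂ)) * w)) ^ m).re
    rcases Nat.eq_zero_or_pos m with hm | hm
    · -- `m = 0`
      subst hm
      have e11 : V5.G 0 n w = 1 := by
        unfold V5.G
        simp
      rw [e11, Complex.one_re]
      have e12 : ‖1 - w‖ ≤ 3 := by
        refine (norm_sub_le _ _).trans ?_
        rw [norm_one]
        linarith
      have e13 : (7 : ℝ) / 3 ≤ 7 * 5 ^ 0 / ((n : ℝ) ^ 0 * ‖1 - w‖ ^ (0 + 1)) := by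
        rw [pow_zero, pow_zero, one_mul, mul_one, zero_add, pow_one]
        exact div_le_div_of_nonneg_left (by norm_num) hp e12
      linarith
    · have e14 : ((1 / (n : ℂ)) ^ m).re ≤ 1 / 8 := by
        refine (Complex.re_le_norm _).trans ?_
        rw [norm_pow, V5.norm_inv]
        calc (1 / (n : ℝ)) ^ m ≤ (1 / (n : ℝ)) ^ 1 :=
              pow_le_pow_of_le_one ht0.le (by linarith) hm
          _ = 1 / (n : ℝ) := pow_one _
          _ ≤ 1 / 8 := ht1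
      rw [hre2, hre, hsplit]
      rw [hsplit3] at hle2
      linarith

end MP7ed9c3
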