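import Pool.Agent.Lib.MP_7ed9c3_nt.SpecV

/-!
# V5b: the kernel with parameters
-/

namespace MP7ed9c3

/-- the distance of `exp(-x)` from `1` -/
theorem V5b.dist {Y : ℝ} (hY0 : 0 < Y) (hY : Y ≤ 1 / 2) (x : ℂ) (hx2 : x.re ≤ 1 / 2)
    (hpi : |x.im| ≤ Real.pi) (hf : Y ≤ |x.im| ∨ Y ≤ x.re) :
    Y / 3 ≤ ‖1 - Complex.exp (-x)‖ := by
  rcases hf with hf | hf
  · have h1 : (Y / 3) ^ 2 ≤ ‖1 - Complex.exp (-x)‖ ^ 2 := by
      rw [← Complex.normSq_eq_norm_sq, Complex.normSq_apply]
      simp only [Complex.sub_re, Complex.sub_im, Complex.one_re, Complex.one_im,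
        Complex.exp_re, Complex.exp_im, Complex.neg_re, Complex.neg_im, Real.cos_neg,
        Real.sin_neg]
      have h2 := Real.cos_le_one_sub_mul_cos_sq hpi
      have h3 : Real.sin x.im ^ 2 + Real.cos x.im ^ 2 = 1 := Real.sin_sq_add_cos_sq x.im
      have h4 : (1 : ℝ) / 2 ≤ Real.exp (-x.re) := by
        have := Real.add_one_le_exp (-x.re)
        linarith
      have h5 : Y ^ 2 ≤ x.im ^ 2 := by
        rw [← sq_abs x.im]
        exact pow_le_pow_left₀ hY0.le hf 2
      have h6 : Real.pi ^ 2 ≤ 10 := by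
        have := Real.pi_lt_d2
        nlinarith [Real.pi_pos]
      have h7 : 1 / 5 * Y ^ 2 ≤ 2 / Real.pi ^ 2 * x.im ^ 2 := by
        have h8 : (1 : ℝ) / 5 ≤ 2 / Real.pi ^ 2 := by
          rw [div_le_div_iff₀ (by norm_num) (by positivity)]
          linarith
        exact mul_le_mul h8 h5 (by positivity) (by positivity)
      have h9 : 1 / 5 * Y ^ 2 ≤ 1 - Real.cos x.im := by linarith
      have h10 : (1 - Real.exp (-x.re) * Real.cos x.im) *
          (1 - Real.exp (-x.re) * Real.cos x.im) +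
          (0 - Real.exp (-x.re) * -Real.sin x.im) * (0 - Real.exp (-x.re) * -Real.sin x.im) =
          (1 - Real.exp (-x.re)) ^ 2 + 2 * Real.exp (-x.re) * (1 - Real.cos x.im) := by
        linear_combination (Real.exp (-x.re)) ^ 2 * h3
      rw [h10]
      have h11 : 1 / 2 * (1 / 5 * Y ^ 2) ≤ Real.exp (-x.re) * (1 - Real.cos x.im) :=
        mul_le_mul h4 h9 (by positivity) (by positivity)
      nlinarith [sq_nonneg (1 - Real.exp (-x.re)), sq_nonneg Y]
    exact le_of_sq_le_sq h1 (norm_nonneg _)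
  · have h1 : ‖Complex.exp (-x)‖ = Real.exp (-x.re) := by
      rw [Complex.norm_exp, Complex.neg_re]
    have h2 : 1 - Real.exp (-x.re) ≤ ‖1 - Complex.exp (-x)‖ := by
      have := norm_sub_norm_le (1 : ℂ) (Complex.exp (-x))
      rw [norm_one, h1] at this
      exact this
    have h3 : Real.exp (-x.re) ≤ Real.exp (-Y) := Real.exp_le_exp.2 (by linarith)
    have h4 : Real.exp (-Y) * (1 + Y) ≤ 1 := by
      have h5 := Real.add_one_le_exp Y
      calc Real.exp (-Y) * (1 + Y) ≤ Real.exp (-Y) * Real.exp Y :=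
            mul_le_mul_of_nonneg_left (by linarith) (Real.exp_pos _).le
        _ = 1 := by rw [← Real.exp_add]; simp
    have h6 : Real.exp (-Y) ≤ 1 - Y / 3 := by
      have h7 : 1 ≤ (1 - Y / 3) * (1 + Y) := by nlinarith
      have h8 : 0 < 1 + Y := by linarith
      exact le_of_mul_le_mul_right (h4.trans h7) h8
    linarith
where
  le_of_sq_le_sq {a b : ℝ} (h : a ^ 2 ≤ b ^ 2) (hb : 0 ≤ b) : a ≤ b := by
    exact abs_le_of_sq_le_sq' h hb |>.2

/-- the exponential of a multiple of `G - 1` -/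
theorem V5b.norm_E (j : ℕ) (A : ℝ) (z : ℂ) :
    ‖Complex.exp (((j : ℝ) * A : ℝ) * (z - 1))‖ = Real.exp (j * A * (z.re - 1)) := by
  rw [Complex.norm_exp]
  congr 1
  rw [Complex.re_ofReal_mul, Complex.sub_re, Complex.one_re]

theorem kernelE (v5 : Kernel) : KernelE := by
  intro m
  obtain ⟨C, hC, hG⟩ := v5 m
  refine ⟨C, hC, ?_⟩
  intro n j Y hn hnY hY hm
  obtain ⟨G, hGd, hG0, hGn, hGf⟩ := hG n hn
  have hC0 : 0 < C := by linarith
  have hn0 : (8 : ℝ) ≤ n := by exact_mod_cast hn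
  have hn1 : (0 : ℝ) < n := by linarith
  have hY0 : 0 < Y := by
    by_contra h
    have h1 : (n : ℝ) * Y ≤ 0 := mul_nonpos_of_nonneg_of_nonpos hn1.le (not_lt.1 h)
    linarith
  have hj0 : (0 : ℝ) ≤ j := Nat.cast_nonneg j
  have hA0 : (0 : ℝ) < 1 / (8 * C * (n : ℝ) ^ 2) := by positivity
  set A : ℝ := 1 / (8 * C * (n : ℝ) ^ 2) with hA
  have hw : ∀ x : ℂ, -(1 / (2 * (n : ℝ))) ≤ x.re →
      ‖Complex.exp (-x)‖ ≤ Real.exp (1 / (2 * n)) := by
    intro x hx
    rw [Complex.norm_exp, Complex.neg_re]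
    exact Real.exp_le_exp.2 (by linarith)
  refine ⟨fun w => Complex.exp (((j : ℝ) * A : ℝ) * (G w - 1)), ?_, ?_, ?_, ?_⟩
  · exact ((hGd.sub_const 1).const_mul _).cexp
  · show Complex.exp (((j : ℝ) * A : ℝ) * (G 0 - 1)) = 1
    rw [hG0, sub_self, mul_zero, Complex.exp_zero]
  · intro x hx1 hx2 hpi hf
    show ‖Complex.exp (((j : ℝ) * A : ℝ) * (G (Complex.exp (-x)) - 1))‖ ≤ _
    rw [V5b.norm_E]
    apply Real.exp_le_exp.2
    have hd := V5b.dist hY0 hY x hx2 hpi hf
    have hd0 : 0 < ‖1 - Complex.exp (-x)‖ := lt_of_lt_of_le (by positivity) hd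
    have hne : Complex.exp (-x) ≠ 1 := by
      intro h
      rw [h, sub_self, norm_zero] at hd0
      exact lt_irrefl _ hd0
    have h1 := hGf _ hne (hw x hx1)
    set d := ‖1 - Complex.exp (-x)‖ with hdd
    have h2 : max 0 (1 - ‖Complex.exp (-x)‖ ^ 2) ≤ 2 * max 0 x.re := by
      apply max_le
      · positivity
      · rw [Complex.norm_exp, Complex.neg_re, ← Real.exp_nat_mul]
        have h3 := Real.add_one_le_exp (((2 : ℕ) : ℝ) * -x.re)
        have h4 : x.re ≤ max 0 x.re := le_max_right _ _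
        push_cast at h3 ⊢
        linarith
    have h3 : max 0 (1 - ‖Complex.exp (-x)‖ ^ 2) / d ^ 2 ≤ 18 * max 0 x.re / Y ^ 2 := by
      rw [div_le_div_iff₀ (by positivity) (by positivity)]
      have h5 : Y ^ 2 ≤ 9 * d ^ 2 := by
        have : (Y / 3) ^ 2 ≤ d ^ 2 := pow_le_pow_left₀ (by positivity) hd 2
        linarith
      have h6 : 0 ≤ max 0 x.re := le_max_left _ _
      calc max 0 (1 - ‖Complex.exp (-x)‖ ^ 2) * Y ^ 2 ≤ (2 * max 0 x.re) * (9 * d ^ 2) :=
            mul_le_mul h2 h5 (by positivity) (by positivity)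
        _ = 18 * max 0 x.re * d ^ 2 := by ring
    have h4 : C / ((n : ℝ) ^ m * d ^ (m + 1)) ≤ 1 / 8 := by
      refine le_trans ?_ hm
      have h5 : (Y / 3) ^ (m + 1) ≤ d ^ (m + 1) := pow_le_pow_left₀ (by positivity) hd _
      calc C / ((n : ℝ) ^ m * d ^ (m + 1)) ≤ C / ((n : ℝ) ^ m * (Y / 3) ^ (m + 1)) := by
            apply div_le_div_of_nonneg_left hC0.le (by positivity)
            exact mul_le_mul_of_nonneg_left h5 (by positivity)
        _ = C * 3 ^ (m + 1) / ((n : ℝ) ^ m * Y ^ (m + 1)) := by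
            rw [div_pow]
            field_simp
    have h5 : (G (Complex.exp (-x))).re - 1 ≤ 18 * max 0 x.re / Y ^ 2 - 3 / 4 := by linarith
    have h6 : A * (18 * max 0 x.re / Y ^ 2) ≤ max 0 x.re := by
      have h7 : (4 : ℝ) ≤ (n * Y) ^ 2 := by nlinarith
      have h8 : A * (18 * max 0 x.re / Y ^ 2) = max 0 x.re * (18 / (8 * C * (n * Y) ^ 2)) := by
        rw [hA]
        field_simp
      rw [h8]
      have h9 : 18 / (8 * C * (n * Y) ^ 2) ≤ 1 := by
        rw [div_le_one (by positivity)]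
        nlinarith [mul_le_mul hC h7 (by norm_num) hC0.le]
      calc max 0 x.re * (18 / (8 * C * (n * Y) ^ 2)) ≤ max 0 x.re * 1 :=
            mul_le_mul_of_nonneg_left h9 (le_max_left _ _)
        _ = max 0 x.re := mul_one _
    calc (j : ℝ) * A * ((G (Complex.exp (-x))).re - 1)
        ≤ j * A * (18 * max 0 x.re / Y ^ 2 - 3 / 4) :=
          mul_le_mul_of_nonneg_left h5 (by positivity)
      _ = j * (A * (18 * max 0 x.re / Y ^ 2)) - 3 / 4 * (j * A) := by ring
      _ ≤ j * max 0 x.re - 3 / 4 * (j * A) := by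
          have := mul_le_mul_of_nonneg_left h6 hj0
          linarith
  · intro x hx1
    show ‖Complex.exp (((j : ℝ) * A : ℝ) * (G (Complex.exp (-x)) - 1))‖ ≤ _
    rw [V5b.norm_E]
    apply Real.exp_le_exp.2
    have h1 := hGn _ (hw x hx1)
    have h2 : (G (Complex.exp (-x))).re ≤ C * n := (Complex.re_le_norm _).trans h1
    calc (j : ℝ) * A * ((G (Complex.exp (-x))).re - 1) ≤ j * A * (C * n) :=
          mul_le_mul_of_nonneg_left (by linarith) (by positivity)
      _ = j * (1 / (8 * n)) := by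
          rw [hA]
          field_simp
      _ ≤ j / (4 * n) := by
          rw [div_eq_mul_inv (j : ℝ), ← one_div]
          apply mul_le_mul_of_nonneg_left _ hj0
          apply one_div_le_one_div_of_le (by positivity)
          linarith

end MP7ed9c3
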