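import Pool.Agent.Lib.MP_7ed9c3_nt.SpecV

/-!
# MP_7ed9c3_nt: V6, the mean value formula
-/

namespace MP7ed9c3

open Filter Topology MeasureTheory

/-- Mean value property on the circle of radius `exp (-δ)`, parametrised by `exp (-(δ + i y))`. -/
theorem V6.circle (g : ℂ → ℂ) (δ ρ : ℝ) (hρ : Real.exp (-δ) < ρ)
    (hg : DifferentiableOn ℂ g (Metric.ball 0 ρ)) :
    g 0 = 1 / (2 * Real.pi) * ∫ y in (-Real.pi)..Real.pi,
      g (Complex.exp (-((δ : ℂ) + y * Complex.I))) := by
  have h1 : Real.circleAverage g 0 (Real.exp (-δ)) = g 0 := by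
    apply DiffContOnCl.circleAverage
    rw [abs_of_pos (Real.exp_pos _)]
    exact hg.diffContOnCl_ball (Metric.closedBall_subset_ball hρ)
  rw [Real.circleAverage_def] at h1
  have h2 : ∫ y in (-Real.pi)..Real.pi, g (Complex.exp (-((δ : ℂ) + y * Complex.I))) =
      ∫ θ in (0 : ℝ)..2 * Real.pi, g (circleMap 0 (Real.exp (-δ)) θ) := by
    have e1 : ∀ y : ℝ, g (Complex.exp (-((δ : ℂ) + y * Complex.I))) =
        (fun θ : ℝ => g (circleMap 0 (Real.exp (-δ)) θ)) (-y) := by
      intro y
      show _ = g (circleMap 0 (Real.exp (-δ)) (-y))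
      congr 1
      rw [circleMap_zero, Complex.ofReal_exp, ← Complex.exp_add]
      congr 1
      push_cast
      ring
    simp_rw [e1]
    rw [intervalIntegral.integral_comp_neg (fun θ : ℝ => g (circleMap 0 (Real.exp (-δ)) θ))]
    have hper : Function.Periodic (fun θ : ℝ => g (circleMap 0 (Real.exp (-δ)) θ))
        (2 * Real.pi) := by
      intro θ
      show g _ = g _
      rw [periodic_circleMap]
    have h3 := hper.intervalIntegral_add_eq (-Real.pi) 0
    rw [zero_add] at h3
    rw [← h3]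
    congr 1
    ring
  rw [h2, ← h1, Complex.real_smul]
  push_cast
  ring

/-- The tail of a power series is analytic. -/
theorem V6.tail (a : ℕ → ℂ) (K : ℕ) (ρ : ℝ) (hρ : 0 < ρ)
    (ha : Summable fun n : ℕ => ‖a n‖ * ρ ^ n) :
    DifferentiableOn ℂ (fun w : ℂ => ∑' i : ℕ, a (i + K) * w ^ i) (Metric.ball 0 ρ) := by
  have h1 : Summable fun i : ℕ => ‖a (i + K)‖ * ρ ^ i := by
    have h2 := ((summable_nat_add_iff K).2 ha).mul_right ((ρ ^ K)⁻¹)
    refine h2.congr ?_
    intro i
    rw [pow_add]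
    field_simp
  refine Complex.differentiableOn_tsum_of_summable_norm h1 ?_ Metric.isOpen_ball ?_
  · intro i
    exact (differentiableOn_const _).mul (differentiableOn_id.pow i)
  · intro i w hw
    rw [mem_ball_zero_iff] at hw
    rw [norm_mul, norm_pow]
    exact mul_le_mul_of_nonneg_left (pow_le_pow_left₀ (norm_nonneg _) hw.le i) (norm_nonneg _)

theorem meanValue : MeanValue := by
  intro a K' K E δ R hK ha0 hδ ha hR hE hE0
  have hr1 : Real.exp (-δ) < 1 := by
    rw [Real.exp_lt_one_iff]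
    linarith
  have hr0 : 0 < Real.exp (-δ) := Real.exp_pos _
  set ρ : ℝ := (1 + Real.exp (-δ)) / 2 with hρdef
  have hρ1 : ρ < 1 := by rw [hρdef]; linarith
  have hρr : Real.exp (-δ) < ρ := by rw [hρdef]; linarith
  have hρ0 : 0 < ρ := hr0.trans hρr
  set h : ℂ → ℂ := fun w => ∑' i : ℕ, a (i + K) * w ^ i with hh
  have hd : DifferentiableOn ℂ (fun w => h w * E w) (Metric.ball 0 ρ) := by
    apply DifferentiableOn.mul
    · exact V6.tail a K ρ hρ0 (ha ρ hρ0.le hρ1)
    · exact hE.mono (Metric.ball_subset_ball (hρ1.le.trans hR))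
  have hmv := V6.circle (fun w => h w * E w) δ ρ hρr hd
  have h00 : h 0 = a K := by
    rw [hh]
    show ∑' i : ℕ, a (i + K) * (0 : ℂ) ^ i = a K
    rw [tsum_eq_single 0]
    · simp
    · intro i hi
      rw [zero_pow hi, mul_zero]
  simp only [h00, hE0, mul_one] at hmv
  rw [hmv]
  congr 1
  apply intervalIntegral.integral_congr
  intro y _
  show h (Complex.exp (-((δ : ℂ) + y * Complex.I))) * E (Complex.exp (-((δ : ℂ) + y * Complex.I))) =
    _
  set x : ℂ := (δ : ℂ) + y * Complex.I with hx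
  set w : ℂ := Complex.exp (-x) with hw
  have hpow : ∀ n : ℕ, Complex.exp (-(n * x)) = w ^ n := by
    intro n
    rw [hw, ← Complex.exp_nat_mul]
    congr 1
    ring
  have hnorm : ‖w‖ = Real.exp (-δ) := by
    rw [hw, Complex.norm_exp, hx]
    simp
  have hs : Summable fun n : ℕ => a n * w ^ n := by
    apply Summable.of_norm
    refine (ha (Real.exp (-δ)) hr0.le hr1).congr ?_
    intro n
    rw [norm_mul, norm_pow, hnorm]
  have hsum : ∑' n : ℕ, a n * w ^ n = ∑ n ∈ Finset.range K', a n * w ^ n + w ^ K * h w := by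
    rw [← hs.sum_add_tsum_nat_add K]
    congr 1
    · symm
      apply Finset.sum_subset
      · intro n hn
        rw [Finset.mem_range] at hn ⊢
        omega
      · intro n hn hn'
        rw [Finset.mem_range] at hn hn'
        rw [ha0 n (by omega) hn, zero_mul]
    · rw [hh]
      show _ = w ^ K * ∑' i : ℕ, a (i + K) * w ^ i
      rw [← tsum_mul_left]
      congr 1
      funext i
      rw [pow_add]
      ring
  have hexp : Complex.exp (K * x) * w ^ K = 1 := by
    rw [← hpow K, ← Complex.exp_add, add_neg_cancel, Complex.exp_zero]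
  show h w * E w = Complex.exp (K * x) * ((∑' n : ℕ, a n * Complex.exp (-(n * x))) -
    ∑ n ∈ Finset.range K', a n * Complex.exp (-(n * x))) * E w
  have t1 : ∑' n : ℕ, a n * Complex.exp (-(n * x)) = ∑' n : ℕ, a n * w ^ n :=
    tsum_congr fun n => by rw [hpow]
  have t2 : ∑ n ∈ Finset.range K', a n * Complex.exp (-(n * x)) =
      ∑ n ∈ Finset.range K', a n * w ^ n := Finset.sum_congr rfl fun n _ => by rw [hpow]
  rw [t1, t2, hsum, add_sub_cancel_left, ← mul_assoc, hexp, one_mul]

end MP7ed9c3
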