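import Pool.Agent.Lib.MP_7ed9c3_nt.SpecV

/-!
# MP_7ed9c3_nt: V7, the basic estimate
-/

namespace MP7ed9c3

open Filter Topology MeasureTheory

namespace V7

lemma sum_sq {r : ℝ} (h0 : 0 ≤ r) (h1 : r < 1) :
    Summable (fun n : ℕ => ((n : ℝ) + 1) ^ 2 * r ^ n) ∧
      ∑' n : ℕ, ((n : ℝ) + 1) ^ 2 * r ^ n ≤ 2 / (1 - r) ^ 3 := by
  have hr : ‖r‖ < 1 := by rwa [Real.norm_of_nonneg h0]
  have hs := summable_choose_mul_geometric_of_norm_lt_one 2 hr
  have ht := tsum_choose_mul_geometric_of_norm_lt_one 2 hr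
  have hle : ∀ n : ℕ, ((n : ℝ) + 1) ^ 2 * r ^ n ≤ 2 * (((n + 2).choose 2 : ℕ) * r ^ n) := by
    intro n
    rw [← mul_assoc]
    apply mul_le_mul_of_nonneg_right _ (pow_nonneg h0 n)
    rw [Nat.cast_choose_two]
    push_cast
    have : (0 : ℝ) ≤ n := Nat.cast_nonneg n
    nlinarith
  have hs' : Summable (fun n : ℕ => ((n : ℝ) + 1) ^ 2 * r ^ n) :=
    Summable.of_nonneg_of_le (fun n => by positivity) hle (hs.mul_left 2)
  refine ⟨hs', ?_⟩
  calc ∑' n : ℕ, ((n : ℝ) + 1) ^ 2 * r ^ n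
      ≤ ∑' n : ℕ, 2 * (((n + 2).choose 2 : ℕ) * r ^ n) :=
        hs'.tsum_le_tsum hle (hs.mul_left 2)
    _ = 2 / (1 - r) ^ 3 := by
        rw [tsum_mul_left, ht]
        ring

lemma sum_norm {a : ℕ → ℂ} {B : ℝ} (ha : ∀ n : ℕ, ‖a n‖ ≤ B * ((n : ℝ) + 1) ^ 2) {r : ℝ}
    (h0 : 0 ≤ r) (h1 : r < 1) : Summable (fun n : ℕ => ‖a n‖ * r ^ n) := by
  refine Summable.of_nonneg_of_le (fun n => by positivity) (fun n => ?_)
    ((sum_sq h0 h1).1.mul_left B)
  rw [← mul_assoc]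
  exact mul_le_mul_of_nonneg_right (ha n) (pow_nonneg h0 n)

lemma sum_w {a : ℕ → ℂ} {B : ℝ} (ha : ∀ n : ℕ, ‖a n‖ ≤ B * ((n : ℝ) + 1) ^ 2) {w : ℂ}
    (hw : ‖w‖ < 1) : Summable (fun n : ℕ => a n * w ^ n) := by
  apply Summable.of_norm
  simp only [norm_mul, norm_pow]
  exact sum_norm ha (norm_nonneg _) hw

lemma series_bound {a : ℕ → ℂ} {B : ℝ} (hB : 0 ≤ B)
    (ha : ∀ n : ℕ, ‖a n‖ ≤ B * ((n : ℝ) + 1) ^ 2) {w : ℂ} {δ : ℝ}
    (h0 : 0 < δ) (h1 : δ ≤ 1) (hw : ‖w‖ = Real.exp (-δ)) :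
    ‖∑' n : ℕ, a n * w ^ n‖ ≤ 16 * B * (δ ^ 3)⁻¹ := by
  have hr0 : 0 ≤ Real.exp (-δ) := (Real.exp_pos _).le
  have hr1 : Real.exp (-δ) < 1 := by
    rw [Real.exp_lt_one_iff]
    linarith
  have hs := sum_norm ha hr0 hr1
  have h2 : δ / 2 ≤ 1 - Real.exp (-δ) := by
    have h3 : Real.exp (-δ) * (1 + δ) ≤ 1 := by
      have h4 : Real.exp (-δ) * Real.exp δ = 1 := by
        rw [← Real.exp_add]
        simp
      have h5 : 1 + δ ≤ Real.exp δ := by
        have := Real.add_one_le_exp δ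
        linarith
      calc Real.exp (-δ) * (1 + δ) ≤ Real.exp (-δ) * Real.exp δ :=
            mul_le_mul_of_nonneg_left h5 hr0
        _ = 1 := h4
    have h6 : 0 < 1 + δ := by linarith
    have h7 : 1 ≤ (1 - δ / 2) * (1 + δ) := by nlinarith
    have h8 : Real.exp (-δ) * (1 + δ) ≤ (1 - δ / 2) * (1 + δ) := h3.trans h7
    have h9 := le_of_mul_le_mul_right h8 h6
    linarith
  calc ‖∑' n : ℕ, a n * w ^ n‖ ≤ ∑' n : ℕ, ‖a n * w ^ n‖ := by
        apply norm_tsum_le_tsum_norm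
        simp only [norm_mul, norm_pow, hw]
        exact hs
    _ ≤ ∑' n : ℕ, B * (((n : ℝ) + 1) ^ 2 * Real.exp (-δ) ^ n) := by
        simp only [norm_mul, norm_pow, hw]
        refine hs.tsum_le_tsum (fun n => ?_) ((sum_sq hr0 hr1).1.mul_left B)
        rw [← mul_assoc]
        exact mul_le_mul_of_nonneg_right (ha n) (pow_nonneg hr0 n)
    _ = B * ∑' n : ℕ, (((n : ℝ) + 1) ^ 2 * Real.exp (-δ) ^ n) := tsum_mul_left
    _ ≤ B * (2 / (1 - Real.exp (-δ)) ^ 3) :=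
        mul_le_mul_of_nonneg_left (sum_sq hr0 hr1).2 hB
    _ ≤ B * (2 / (δ / 2) ^ 3) := by
        apply mul_le_mul_of_nonneg_left _ hB
        apply div_le_div_of_nonneg_left (by norm_num) (by positivity)
        exact pow_le_pow_left₀ (by positivity) h2 3
    _ = 16 * B * (δ ^ 3)⁻¹ := by
        field_simp
        ring

/-- the exponential series is analytic in the right half plane -/
lemma dir {b : ℕ → ℂ} {B : ℝ} (hb : ∀ n : ℕ, ‖b n‖ ≤ B * ((n : ℝ) + 1) ^ 2) :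
    DifferentiableOn ℂ (fun z : ℂ => ∑' n : ℕ, b n * Complex.exp (-(n * z)))
      {z : ℂ | 0 < z.re} := by
  intro z hz
  have hz' : 0 < z.re := hz
  set ε : ℝ := z.re / 2 with hε
  have hε0 : 0 < ε := by positivity
  have hr1 : Real.exp (-ε) < 1 := by
    rw [Real.exp_lt_one_iff]
    linarith
  have hopen : IsOpen {w : ℂ | ε < w.re} := isOpen_lt continuous_const Complex.continuous_re
  have hd : DifferentiableOn ℂ (fun z : ℂ => ∑' n : ℕ, b n * Complex.exp (-(n * z)))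
      {w : ℂ | ε < w.re} := by
    apply Complex.differentiableOn_tsum_of_summable_norm
      (u := fun n : ℕ => ‖b n‖ * Real.exp (-ε) ^ n) (sum_norm hb (Real.exp_pos _).le hr1) _ hopen
    · intro n w hw
      have hw' : ε < w.re := hw
      rw [norm_mul, Complex.norm_exp]
      apply mul_le_mul_of_nonneg_left _ (norm_nonneg _)
      have hre : (-((n : ℂ) * w)).re = -(n * w.re) := by simp
      rw [hre, ← Real.exp_nat_mul]
      apply Real.exp_le_exp.2
      have : (n : ℝ) * ε ≤ n * w.re := mul_le_mul_of_nonneg_left hw'.le (Nat.cast_nonneg n)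
      linarith
    · intro n
      apply Differentiable.differentiableOn
      fun_prop
  have hz2 : z ∈ {w : ℂ | ε < w.re} := by
    change ε < z.re
    rw [hε]
    linarith
  exact ((hd z hz2).differentiableAt (hopen.mem_nhds hz2)).differentiableWithinAt

/-- coefficients of the product -/
noncomputable def cf (b q : ℕ → ℂ) (M n : ℕ) : ℂ :=
  ∑ k ∈ Finset.range M, if M - 1 - k ≤ n then q k * b (n - (M - 1 - k)) else 0

/-- the polynomial -/
noncomputable def Qp (q : ℕ → ℂ) (M : ℕ) (w : ℂ) : ℂ :=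
  ∑ k ∈ Finset.range M, q k * w ^ (M - 1 - k)

lemma cf_bound {b q : ℕ → ℂ} {B D : ℝ} {M : ℕ} (hB : 0 ≤ B)
    (hb : ∀ n : ℕ, ‖b n‖ ≤ B * ((n : ℝ) + 1) ^ 2) (hD : 0 ≤ D) (hq : ∀ i < M, ‖q i‖ ≤ D) (n : ℕ) :
    ‖cf b q M n‖ ≤ (M * D * B) * ((n : ℝ) + 1) ^ 2 := by
  unfold cf
  calc ‖∑ k ∈ Finset.range M, if M - 1 - k ≤ n then q k * b (n - (M - 1 - k)) else 0‖
      ≤ ∑ k ∈ Finset.range M, ‖if M - 1 - k ≤ n then q k * b (n - (M - 1 - k)) else 0‖ :=
        norm_sum_le _ _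
    _ ≤ ∑ _k ∈ Finset.range M, D * (B * ((n : ℝ) + 1) ^ 2) := by
        apply Finset.sum_le_sum
        intro k hk
        rw [Finset.mem_range] at hk
        split_ifs with h
        · rw [norm_mul]
          apply mul_le_mul (hq k hk) _ (norm_nonneg _) hD
          refine (hb _).trans (mul_le_mul_of_nonneg_left ?_ hB)
          have h1 : ((n - (M - 1 - k) : ℕ) : ℝ) ≤ n := by exact_mod_cast Nat.sub_le _ _
          have h2 : (0 : ℝ) ≤ ((n - (M - 1 - k) : ℕ) : ℝ) := Nat.cast_nonneg _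
          exact pow_le_pow_left₀ (by linarith) (by linarith) 2
        · rw [norm_zero]
          positivity
    _ = (M * D * B) * ((n : ℝ) + 1) ^ 2 := by
        rw [Finset.sum_const, Finset.card_range, nsmul_eq_mul]
        ring

lemma cf_shift (b q : ℕ → ℂ) {M : ℕ} (i : ℕ) :
    cf b q M (M - 1 + i) = ∑ k ∈ Finset.range M, q k * b (k + i) := by
  unfold cf
  apply Finset.sum_congr rfl
  intro k hk
  rw [Finset.mem_range] at hk
  rw [if_pos (by omega)]
  congr 2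
  omega

lemma cf_tsum {b q : ℕ → ℂ} {B : ℝ} {M : ℕ}
    (hb : ∀ n : ℕ, ‖b n‖ ≤ B * ((n : ℝ) + 1) ^ 2) {w : ℂ} (hw : ‖w‖ < 1) :
    ∑' n : ℕ, cf b q M n * w ^ n = Qp q M w * ∑' n : ℕ, b n * w ^ n := by
  have hS := (sum_w hb hw).hasSum
  have h1 : ∀ k : ℕ, HasSum (fun n : ℕ => (if M - 1 - k ≤ n then q k * b (n - (M - 1 - k)) else 0) *
      w ^ n) (q k * w ^ (M - 1 - k) * ∑' n : ℕ, b n * w ^ n) := by
    intro k
    have hinj : Function.Injective (fun m : ℕ => m + (M - 1 - k)) := add_left_injective _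
    rw [← hinj.hasSum_iff]
    · have h2 := hS.mul_left (q k * w ^ (M - 1 - k))
      have h2' : ((fun n : ℕ => (if M - 1 - k ≤ n then q k * b (n - (M - 1 - k)) else 0) *
          w ^ n) ∘ (fun m : ℕ => m + (M - 1 - k))) =
          fun i : ℕ => q k * w ^ (M - 1 - k) * (b i * w ^ i) := by
        funext m
        simp only [Function.comp]
        rw [if_pos (by omega), show m + (M - 1 - k) - (M - 1 - k) = m by omega, pow_add]
        ring
      rw [h2']
      exact h2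
    · intro n hn
      rw [if_neg, zero_mul]
      intro h
      exact hn ⟨n - (M - 1 - k), by simp only; omega⟩
  have h3 := hasSum_sum (s := Finset.range M) (fun k _ => h1 k)
  rw [← Finset.sum_mul] at h3
  have h4 : (fun n : ℕ => cf b q M n * w ^ n) = fun n : ℕ => ∑ k ∈ Finset.range M,
      (if M - 1 - k ≤ n then q k * b (n - (M - 1 - k)) else 0) * w ^ n := by
    funext n
    unfold cf
    rw [Finset.sum_mul]
  rw [h4]
  exact h3.tsum_eq

lemma Qp_bound {q : ℕ → ℂ} {D : ℝ} {M : ℕ} (hD : 0 ≤ D) (hq : ∀ i < M, ‖q i‖ ≤ D) {ρ : ℝ} {w : ℂ}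
    (hρ : 1 ≤ ρ) (hw : ‖w‖ ≤ ρ) : ‖Qp q M w‖ ≤ M * D * ρ ^ (M - 1) := by
  unfold Qp
  calc ‖∑ k ∈ Finset.range M, q k * w ^ (M - 1 - k)‖
      ≤ ∑ k ∈ Finset.range M, ‖q k * w ^ (M - 1 - k)‖ := norm_sum_le _ _
    _ ≤ ∑ _k ∈ Finset.range M, D * ρ ^ (M - 1) := by
        apply Finset.sum_le_sum
        intro k hk
        rw [Finset.mem_range] at hk
        rw [norm_mul, norm_pow]
        apply mul_le_mul (hq k hk) _ (by positivity) hD
        exact (pow_le_pow_left₀ (norm_nonneg _) hw _).trans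
          (pow_le_pow_right₀ hρ (Nat.sub_le _ _))
    _ = M * D * ρ ^ (M - 1) := by
        rw [Finset.sum_const, Finset.card_range, nsmul_eq_mul]
        ring

lemma U_bound {b q : ℕ → ℂ} {B D : ℝ} {M : ℕ} (hB : 0 ≤ B)
    (hb : ∀ n : ℕ, ‖b n‖ ≤ B * ((n : ℝ) + 1) ^ 2) (hD : 0 ≤ D) (hq : ∀ i < M, ‖q i‖ ≤ D) {ρ : ℝ}
    {w : ℂ} (hρ : 1 ≤ ρ) (hw : ‖w‖ ≤ ρ) :
    ‖∑ n ∈ Finset.range (M - 1), cf b q M n * w ^ n‖ ≤ D * B * (M : ℝ) ^ 4 * ρ ^ (M - 1) := by
  calc ‖∑ n ∈ Finset.range (M - 1), cf b q M n * w ^ n‖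
      ≤ ∑ n ∈ Finset.range (M - 1), ‖cf b q M n * w ^ n‖ := norm_sum_le _ _
    _ ≤ ∑ _n ∈ Finset.range (M - 1), (M * D * B) * (M : ℝ) ^ 2 * ρ ^ (M - 1) := by
        apply Finset.sum_le_sum
        intro n hn
        rw [Finset.mem_range] at hn
        rw [norm_mul, norm_pow]
        have h1 : ((n : ℝ) + 1) ≤ M := by
          have : n + 1 ≤ M := by omega
          exact_mod_cast this
        apply mul_le_mul _ _ (by positivity) (by positivity)
        · refine (cf_bound hB hb hD hq n).trans (mul_le_mul_of_nonneg_left ?_ (by positivity))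
          exact pow_le_pow_left₀ (by positivity) h1 2
        · exact (pow_le_pow_left₀ (norm_nonneg _) hw _).trans
            (pow_le_pow_right₀ hρ hn.le)
    _ = ((M - 1 : ℕ) : ℝ) * ((M * D * B) * (M : ℝ) ^ 2 * ρ ^ (M - 1)) := by
        rw [Finset.sum_const, Finset.card_range, nsmul_eq_mul]
    _ ≤ (M : ℝ) * ((M * D * B) * (M : ℝ) ^ 2 * ρ ^ (M - 1)) := by
        apply mul_le_mul_of_nonneg_right _ (by positivity)
        exact_mod_cast Nat.sub_le _ _
    _ = D * B * (M : ℝ) ^ 4 * ρ ^ (M - 1) := by ring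

/-- Cauchy's theorem for a rectangle -/
lemma rect {f : ℂ → ℂ} {p q Y H : ℝ} (hpq : p ≤ q) (hY : 0 ≤ Y)
    (hd : DifferentiableOn ℂ f {z : ℂ | p ≤ z.re ∧ z.re ≤ q})
    (hH : ∀ u : ℝ, p ≤ u → u ≤ q → ∀ t : ℝ, |t| = Y → ‖f ((u : ℂ) + (t : ℂ) * Complex.I)‖ ≤ H) :
    ‖(∫ y in (-Y)..Y, f ((q : ℂ) + y * Complex.I)) -
      ∫ y in (-Y)..Y, f ((p : ℂ) + y * Complex.I)‖ ≤ 2 * H * (q - p) := by
  have hcauchy := Complex.integral_boundary_rect_eq_zero_of_differentiableOn f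
    ((p : ℂ) + ((-Y : ℝ) : ℂ) * Complex.I) ((q : ℂ) + (Y : ℂ) * Complex.I)
    (by
      simp only [Complex.add_re, Complex.ofReal_re, Complex.mul_re, Complex.I_re, mul_zero,
        Complex.ofReal_im, Complex.I_im, mul_one, sub_self, add_zero, Complex.add_im,
        Complex.mul_im, zero_add]
      apply hd.mono
      intro z hz
      rw [Complex.mem_reProdIm, Set.uIcc_of_le hpq] at hz
      exact ⟨hz.1.1, hz.1.2⟩)
  simp only [Complex.add_re, Complex.ofReal_re, Complex.mul_re, Complex.I_re, mul_zero,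
        Complex.ofReal_im, Complex.I_im, mul_one, sub_self, add_zero, Complex.add_im,
        Complex.mul_im, zero_add] at hcauchy
  have hHH : ∀ t : ℝ, |t| = Y →
      ‖∫ u in p..q, f ((u : ℂ) + (t : ℂ) * Complex.I)‖ ≤ H * (q - p) := by
    intro t ht
    have h1 : ∀ u ∈ Set.uIoc p q, ‖f ((u : ℂ) + (t : ℂ) * Complex.I)‖ ≤ H := by
      intro u hu
      rw [Set.uIoc_of_le hpq] at hu
      exact hH u hu.1.le hu.2 t ht
    have h2 := intervalIntegral.norm_integral_le_of_norm_le_const h1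
    rwa [abs_of_nonneg (by linarith)] at h2
  have hH1 := hHH (-Y) (by rw [abs_neg, abs_of_nonneg hY])
  have hH2 := hHH Y (abs_of_nonneg hY)
  have h1 : Complex.I * ((∫ y in (-Y)..Y, f ((q : ℂ) + y * Complex.I)) -
      ∫ y in (-Y)..Y, f ((p : ℂ) + y * Complex.I)) =
      (∫ u in p..q, f ((u : ℂ) + (Y : ℂ) * Complex.I)) -
        ∫ u in p..q, f ((u : ℂ) + ((-Y : ℝ) : ℂ) * Complex.I) := by
    rw [smul_eq_mul, smul_eq_mul] at hcauchy
    linear_combination hcauchy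
  have h2 := congrArg norm h1
  rw [norm_mul, Complex.norm_I, one_mul] at h2
  rw [h2]
  refine (norm_sub_le _ _).trans ?_
  linarith

lemma exp_pow (n : ℕ) (x : ℂ) : Complex.exp (-((n : ℂ) * x)) = Complex.exp (-x) ^ n := by
  rw [← Complex.exp_nat_mul]
  congr 1
  ring

lemma norm_exp_neg (x : ℂ) : ‖Complex.exp (-x)‖ = Real.exp (-x.re) := by
  rw [Complex.norm_exp, Complex.neg_re]

lemma norm_exp_K (K : ℕ) (x : ℂ) : ‖Complex.exp ((K : ℂ) * x)‖ = Real.exp (K * x.re) := by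
  rw [Complex.norm_exp]
  simp

lemma comb {a b c : ℂ} {α β γ ξ T : ℝ} (hT : 0 ≤ T) (ha : ‖a‖ ≤ Real.exp α)
    (hb : ‖b‖ ≤ T * Real.exp β) (hc : ‖c‖ ≤ Real.exp γ) (h : α + β + γ ≤ ξ) :
    ‖a * b * c‖ ≤ T * Real.exp ξ := by
  rw [norm_mul, norm_mul]
  calc ‖a‖ * ‖b‖ * ‖c‖ ≤ Real.exp α * (T * Real.exp β) * Real.exp γ := by
        apply mul_le_mul _ hc (norm_nonneg _) (by positivity)
        exact mul_le_mul ha hb (norm_nonneg _) (by positivity)
    _ = T * Real.exp (α + β + γ) := by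
        rw [Real.exp_add, Real.exp_add]
        ring
    _ ≤ T * Real.exp ξ := mul_le_mul_of_nonneg_left (Real.exp_le_exp.2 h) hT

/-- the exponential series -/
noncomputable def SS (b : ℕ → ℂ) (x : ℂ) : ℂ := ∑' n : ℕ, b n * Complex.exp (-(n * x))

/-- the finite sum -/
noncomputable def UU (b q : ℕ → ℂ) (M : ℕ) (x : ℂ) : ℂ :=
  ∑ n ∈ Finset.range (M - 1), cf b q M n * Complex.exp (-(n * x))

/-- the polynomial in the exponential -/
noncomputable def QQ (q : ℕ → ℂ) (M : ℕ) (x : ℂ) : ℂ := Qp q M (Complex.exp (-x))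

lemma diff_UU (b q : ℕ → ℂ) (M : ℕ) : Differentiable ℂ (UU b q M) := by
  unfold UU
  fun_prop

lemma diff_QQ (q : ℕ → ℂ) (M : ℕ) : Differentiable ℂ (QQ q M) := by
  unfold QQ Qp
  fun_prop

lemma UU_bound {b q : ℕ → ℂ} {B D : ℝ} {M : ℕ} (hB : 0 ≤ B)
    (hb : ∀ n : ℕ, ‖b n‖ ≤ B * ((n : ℝ) + 1) ^ 2) (hD : 0 ≤ D) (hq : ∀ i < M, ‖q i‖ ≤ D) {ρ : ℝ}
    {x : ℂ} (hρ : 1 ≤ ρ) (hw : Real.exp (-x.re) ≤ ρ) :
    ‖UU b q M x‖ ≤ D * B * (M : ℝ) ^ 4 * ρ ^ (M - 1) := by
  have h := U_bound hB hb hD hq hρ (w := Complex.exp (-x)) (by rwa [norm_exp_neg])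
  unfold UU
  simp only [exp_pow]
  exact h

lemma QQ_bound {q : ℕ → ℂ} {D : ℝ} {M : ℕ} (hD : 0 ≤ D) (hq : ∀ i < M, ‖q i‖ ≤ D) {ρ : ℝ} {x : ℂ}
    (hρ : 1 ≤ ρ) (hw : Real.exp (-x.re) ≤ ρ) : ‖QQ q M x‖ ≤ M * D * ρ ^ (M - 1) :=
  Qp_bound hD hq hρ (by rwa [norm_exp_neg])

lemma diff_E {E : ℂ → ℂ} {n j : ℕ} {A Y : ℝ} (hE : IsKernel E n j A Y) :
    DifferentiableOn ℂ (fun z : ℂ => E (Complex.exp (-z)))
      {z : ℂ | -(3 / (4 * (n : ℝ))) < z.re} := by
  have h1 : DifferentiableOn ℂ (fun z : ℂ => Complex.exp (-z))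
      {z : ℂ | -(3 / (4 * (n : ℝ))) < z.re} := by
    apply Differentiable.differentiableOn
    fun_prop
  refine hE.diff.comp h1 ?_
  intro z hz
  have hz' : -(3 / (4 * (n : ℝ))) < z.re := hz
  rw [mem_ball_zero_iff, norm_exp_neg]
  apply Real.exp_lt_exp.2
  linarith

/-- the vertical line -/
lemma line_cont {f : ℂ → ℂ} {p q : ℝ} (hd : DifferentiableOn ℂ f {z : ℂ | p < z.re}) (hpq : p < q) :
    Continuous (fun y : ℝ => f ((q : ℂ) + y * Complex.I)) := by
  have h1 : Continuous (fun y : ℝ => (q : ℂ) + y * Complex.I) := by fun_prop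
  refine hd.continuousOn.comp_continuous h1 (fun y => ?_)
  change p < ((q : ℂ) + y * Complex.I).re
  simpa using hpq

lemma line_re (u y : ℝ) : ((u : ℂ) + y * Complex.I).re = u := by simp

lemma line_im (u y : ℝ) : ((u : ℂ) + y * Complex.I).im = y := by simp

lemma line_norm (u y : ℝ) : ‖(u : ℂ) + y * Complex.I‖ ≤ |u| + |y| := by
  have h := Complex.norm_le_abs_re_add_abs_im ((u : ℂ) + y * Complex.I)
  rwa [line_re, line_im] at h

end V7

open V7 in
/-- **V7.** -/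
theorem stepBound (v6 : MeanValue) : StepBound := by
  intro b B C W A Y D n j M q E P hB hb hC hn hnY hY hA hAn hM hMj hW hq hz hE hPd hP hSP
  have hn8 : (8 : ℝ) ≤ n := by exact_mod_cast hn
  have hn0 : (0 : ℝ) < n := by linarith
  have hB0 : 0 ≤ B := by linarith
  have hC0 : 0 ≤ C := by linarith
  have hD : 0 ≤ D := (norm_nonneg _).trans (hq 0 (by omega))
  have hM1 : (1 : ℝ) ≤ M := by exact_mod_cast hM
  have hj0 : (0 : ℝ) ≤ j := Nat.cast_nonneg j
  -- sizes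
  set h : ℝ := 1 / (2 * (n : ℝ)) with hh
  have hh0 : 0 < h := by positivity
  have hhn : h * (2 * n) = 1 := by
    rw [hh]
    field_simp
  have hh16 : h ≤ 1 / 16 := by
    rw [hh]
    apply one_div_le_one_div_of_le (by norm_num)
    linarith
  have hY0 : 0 < Y := by
    by_contra hneg
    have : (n : ℝ) * Y ≤ 0 := mul_nonpos_of_nonneg_of_nonpos hn0.le (not_lt.1 hneg)
    linarith
  have hhY : 4 * h ≤ Y := by
    have h1 : 4 * h * n = 2 := by linarith
    have h2 : 4 * h * n ≤ Y * n := by linarith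
    exact le_of_mul_le_mul_right h2 hn0
  have hAh : A ≤ h := by
    refine hAn.trans ?_
    rw [hh]
    apply one_div_le_one_div_of_le (by positivity)
    nlinarith
  have hA8 : A ≤ 1 / 16 := hAh.trans hh16
  set δ : ℝ := A / 16 with hδ
  have hδ0 : 0 < δ := by positivity
  have hδA : 16 * δ = A := by
    rw [hδ]
    ring
  have hδh : δ ≤ h := by linarith
  have hδY : δ < Y := by linarith
  have hδ1 : δ ≤ 1 := by linarith
  have hπ := Real.pi_gt_three
  -- the constants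
  set X : ℝ := Real.exp (-(j * A / 2)) with hX
  have hX0 : 0 < X := Real.exp_pos _
  set Z : ℝ := δ ^ (-(C + 3)) with hZ
  have hZ1 : 1 ≤ Z := Real.one_le_rpow_of_pos_of_le_one_of_nonpos hδ0 hδ1 (by linarith)
  have hZ2 : (δ ^ 3)⁻¹ ≤ Z := by
    have h1 : (δ ^ 3)⁻¹ = δ ^ (-(3 : ℝ)) := by
      rw [Real.rpow_neg hδ0.le]
      norm_cast
    rw [h1]
    exact Real.rpow_le_rpow_of_exponent_ge hδ0 hδ1 (by linarith)
  have hZ3 : δ ^ (-C) ≤ Z := Real.rpow_le_rpow_of_exponent_ge hδ0 hδ1 (by linarith)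
  have hZ0 : 0 ≤ Z := by linarith
  have hM4 : (M : ℝ) ≤ (M : ℝ) ^ 4 := by
    calc (M : ℝ) = (M : ℝ) ^ 1 := (pow_one _).symm
      _ ≤ (M : ℝ) ^ 4 := pow_le_pow_right₀ hM1 (by norm_num)
  set G : ℝ := D * (M : ℝ) ^ 4 * Z with hG
  have hG0 : 0 ≤ G := by positivity
  have hMDG : M * D ≤ D * (M : ℝ) ^ 4 := by
    rw [mul_comm]
    exact mul_le_mul_of_nonneg_left hM4 hD
  have hDMG : D * (M : ℝ) ^ 4 ≤ G := by
    rw [hG]
    exact le_mul_of_one_le_right (by positivity) hZ1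
  -- the exponent
  set K : ℕ := M - 1 + j with hK
  have hKr : (K : ℝ) = ((M - 1 : ℕ) : ℝ) + j := by
    rw [hK]
    push_cast
    ring
  have hK3 : (K : ℝ) ≤ 3 * j := by
    have : K ≤ 3 * j := by omega
    exact_mod_cast this
  have hK0 : (0 : ℝ) ≤ K := Nat.cast_nonneg K
  have hM10 : (0 : ℝ) ≤ ((M - 1 : ℕ) : ℝ) := Nat.cast_nonneg _
  -- the functions
  set Φ : ℂ → ℂ := fun x => Complex.exp ((K : ℂ) * x) * (QQ q M x * SS b x - UU b q M x) *
    E (Complex.exp (-x)) with hΦ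
  set Φ₁ : ℂ → ℂ := fun x => Complex.exp ((K : ℂ) * x) * (QQ q M x * (SS b x - P x)) *
    E (Complex.exp (-x)) with hΦ₁
  set Φ₂ : ℂ → ℂ := fun x => Complex.exp ((K : ℂ) * x) * (QQ q M x * P x - UU b q M x) *
    E (Complex.exp (-x)) with hΦ₂
  have hsum : ∀ x, Φ x = Φ₁ x + Φ₂ x := by
    intro x
    simp only [hΦ, hΦ₁, hΦ₂]
    ring
  have hneg : -(3 / (4 * (n : ℝ))) < -h := by
    rw [hh, neg_lt_neg_iff, div_lt_div_iff₀ (by positivity) (by positivity)]
    linarith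
  have hdE := diff_E hE
  have hdexp : Differentiable ℂ (fun x : ℂ => Complex.exp ((K : ℂ) * x)) := by fun_prop
  have hd₁ : DifferentiableOn ℂ Φ₁ {z : ℂ | 0 < z.re} := by
    have h1 : DifferentiableOn ℂ (SS b) {z : ℂ | 0 < z.re} := V7.dir hb
    have h2 : DifferentiableOn ℂ (fun z : ℂ => E (Complex.exp (-z))) {z : ℂ | 0 < z.re} :=
      hdE.mono (fun z hz => by
        have hz' : 0 < z.re := hz
        change -(3 / (4 * (n : ℝ))) < z.re
        linarith)
    exact (hdexp.differentiableOn.mul ((diff_QQ q M).differentiableOn.mul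
      (h1.sub hPd.differentiableOn))).mul h2
  have hd₂ : DifferentiableOn ℂ Φ₂ {z : ℂ | -(3 / (4 * (n : ℝ))) < z.re} :=
    (hdexp.differentiableOn.mul (((diff_QQ q M).differentiableOn.mul
      hPd.differentiableOn).sub (diff_UU b q M).differentiableOn)).mul hdE
  have hc₁ : Continuous (fun y : ℝ => Φ₁ ((δ : ℂ) + y * Complex.I)) := line_cont hd₁ hδ0
  have hc₂ : Continuous (fun y : ℝ => Φ₂ ((δ : ℂ) + y * Complex.I)) :=
    line_cont hd₂ (by linarith)
  have hc : Continuous (fun y : ℝ => Φ ((δ : ℂ) + y * Complex.I)) := by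
    simp only [hsum]
    exact hc₁.add hc₂
  -- the mean value formula
  have hmean := v6 (cf b q M) (M - 1) K E δ (Real.exp (3 / (4 * n))) (by omega)
    (fun m h1 h2 => by
      obtain ⟨i, rfl⟩ : ∃ i, m = M - 1 + i := ⟨m - (M - 1), by omega⟩
      rw [cf_shift]
      exact hz i (by omega))
    hδ0 (fun r h1 h2 => sum_norm (cf_bound hB0 hb hD hq) h1 h2)
    (Real.one_le_exp (by positivity)) hE.diff hE.zero
  have hint : ∀ y : ℝ, Complex.exp (K * ((δ : ℂ) + y * Complex.I)) *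
        ((∑' n : ℕ, cf b q M n * Complex.exp (-(n * ((δ : ℂ) + y * Complex.I)))) -
          ∑ n ∈ Finset.range (M - 1), cf b q M n *
            Complex.exp (-(n * ((δ : ℂ) + y * Complex.I)))) *
        E (Complex.exp (-((δ : ℂ) + y * Complex.I))) = Φ ((δ : ℂ) + y * Complex.I) := by
    intro y
    have hw : ‖Complex.exp (-((δ : ℂ) + y * Complex.I))‖ < 1 := by
      rw [norm_exp_neg, line_re, Real.exp_lt_one_iff]
      linarith
    have h1 := cf_tsum (q := q) (M := M) hb hw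
    simp only [hΦ, SS, UU, QQ, exp_pow]
    rw [h1]
  simp only [hint] at hmean
  have hcfK : cf b q M K = ∑ k ∈ Finset.range M, q k * b (k + j) := cf_shift b q j
  rw [hcfK] at hmean
  -- far part
  have hfar : ∀ y : ℝ, Y ≤ |y| → |y| ≤ Real.pi →
      ‖Φ ((δ : ℂ) + y * Complex.I)‖ ≤ 17 * B * G * X := by
    intro y hy1 hy2
    have e1 := hE.far ((δ : ℂ) + y * Complex.I) (by rw [line_re]; linarith)
      (by rw [line_re]; linarith) (by rw [line_im]; exact hy2) (Or.inl (by rw [line_im]; exact hy1))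
    rw [line_re, max_eq_right hδ0.le] at e1
    have hw : Real.exp (-((δ : ℂ) + y * Complex.I).re) ≤ 1 := by
      rw [line_re]
      exact Real.exp_le_one_iff.2 (by linarith)
    have e2 := QQ_bound hD hq le_rfl hw
    have e3 := UU_bound hB0 hb hD hq le_rfl hw
    have e4 : ‖SS b ((δ : ℂ) + y * Complex.I)‖ ≤ 16 * B * (δ ^ 3)⁻¹ := by
      have := series_bound hB0 hb (w := Complex.exp (-((δ : ℂ) + y * Complex.I))) hδ0 hδ1
        (by rw [norm_exp_neg, line_re])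
      unfold SS
      simp only [exp_pow]
      exact this
    rw [one_pow, mul_one] at e2 e3
    have e5 : ‖QQ q M ((δ : ℂ) + y * Complex.I) * SS b ((δ : ℂ) + y * Complex.I) -
        UU b q M ((δ : ℂ) + y * Complex.I)‖ ≤ 17 * B * G * Real.exp 0 := by
      rw [Real.exp_zero, mul_one]
      refine (norm_sub_le _ _).trans ?_
      rw [norm_mul]
      have e6 : ‖QQ q M ((δ : ℂ) + y * Complex.I)‖ * ‖SS b ((δ : ℂ) + y * Complex.I)‖ ≤
          (D * (M : ℝ) ^ 4) * (16 * B * Z) := by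
        apply mul_le_mul (e2.trans hMDG) _ (norm_nonneg _) (by positivity)
        exact e4.trans (mul_le_mul_of_nonneg_left hZ2 (by positivity))
      have e7 : D * B * (M : ℝ) ^ 4 ≤ B * G := by
        calc D * B * (M : ℝ) ^ 4 = B * (D * (M : ℝ) ^ 4) := by ring
          _ ≤ B * G := mul_le_mul_of_nonneg_left hDMG hB0
      have e8 : (D * (M : ℝ) ^ 4) * (16 * B * Z) = 16 * B * G := by
        rw [hG]
        ring
      linarith
    refine comb (by positivity) (norm_exp_K K _).le e5 e1 ?_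
    rw [line_re]
    have : (K : ℝ) * δ ≤ 3 * j * δ := mul_le_mul_of_nonneg_right hK3 hδ0.le
    have h2 : (j : ℝ) * A = 16 * (j * δ) := by
      rw [← hδA]
      ring
    have h3 : 0 ≤ (j : ℝ) * δ := by positivity
    rw [h2]
    linarith
  -- first function
  have hT₁ : 0 ≤ C * G := by positivity
  have hB₁ : ∀ u : ℝ, δ ≤ u → u ≤ Y → ∀ t : ℝ, |t| ≤ Y → (Y ≤ |t| ∨ Y ≤ u) →
      ‖Φ₁ ((u : ℂ) + (t : ℂ) * Complex.I)‖ ≤ C * G * X := by
    intro u hu1 hu2 t ht hor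
    have hu0 : 0 < u := by linarith
    have e1 := hE.far ((u : ℂ) + t * Complex.I) (by rw [line_re]; linarith)
      (by rw [line_re]; linarith) (by rw [line_im]; linarith) (by rw [line_im, line_re]; exact hor)
    rw [line_re, max_eq_right hu0.le] at e1
    have hw : Real.exp (-((u : ℂ) + t * Complex.I).re) ≤ 1 := by
      rw [line_re]
      exact Real.exp_le_one_iff.2 (by linarith)
    have e2 := QQ_bound hD hq le_rfl hw
    rw [one_pow, mul_one] at e2
    have hnorm : ‖(u : ℂ) + t * Complex.I‖ ≤ 2 * Y := by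
      have := line_norm u t
      rw [abs_of_pos hu0] at this
      linarith
    have e3 := hSP ((u : ℂ) + t * Complex.I) (by rw [line_re]; exact hu0) hnorm
    rw [line_re] at e3
    have e4 : ‖QQ q M ((u : ℂ) + t * Complex.I) * (SS b ((u : ℂ) + t * Complex.I) -
        P ((u : ℂ) + t * Complex.I))‖ ≤ C * G * Real.exp (-(W * u)) := by
      rw [norm_mul]
      have e5 : u ^ (-C) ≤ Z :=
        (Real.rpow_le_rpow_of_nonpos hδ0 hu1 (by linarith)).trans hZ3
      calc ‖QQ q M ((u : ℂ) + t * Complex.I)‖ * ‖SS b ((u : ℂ) + t * Complex.I) -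
            P ((u : ℂ) + t * Complex.I)‖
          ≤ (D * (M : ℝ) ^ 4) * (C * Z * Real.exp (-(W * u))) := by
            apply mul_le_mul (e2.trans hMDG) _ (norm_nonneg _) (by positivity)
            refine e3.trans ?_
            apply mul_le_mul_of_nonneg_right _ (Real.exp_pos _).le
            exact mul_le_mul_of_nonneg_left e5 hC0
        _ = C * G * Real.exp (-(W * u)) := by
            rw [hG]
            ring
    refine comb hT₁ (norm_exp_K K _).le e4 e1 ?_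
    rw [line_re]
    have h1 : (K : ℝ) * u ≤ 3 * j * u := mul_le_mul_of_nonneg_right hK3 hu0.le
    have h2 : 4 * (j : ℝ) * u ≤ W * u := mul_le_mul_of_nonneg_right hW hu0.le
    have h3 : 0 ≤ (j : ℝ) * A := by positivity
    linarith
  -- second function
  have hT₂ : 0 ≤ (B + C) * G := by positivity
  have hPb : ∀ u t : ℝ, -h ≤ u → u ≤ δ → |t| ≤ Y → ‖P ((u : ℂ) + t * Complex.I)‖ ≤ C := by
    intro u t h1 h2 h3
    apply hP
    have h4 := line_norm u t
    have h5 : |u| ≤ h := abs_le.2 ⟨h1, by linarith⟩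
    linarith
  have hQPU : ∀ (u t ρ : ℝ), -h ≤ u → u ≤ δ → |t| ≤ Y → 1 ≤ ρ → Real.exp (-u) ≤ ρ →
      ‖QQ q M ((u : ℂ) + t * Complex.I) * P ((u : ℂ) + t * Complex.I) -
        UU b q M ((u : ℂ) + t * Complex.I)‖ ≤ (B + C) * G * ρ ^ (M - 1) := by
    intro u t ρ h1 h2 h3 h4 h5
    have hw : Real.exp (-((u : ℂ) + t * Complex.I).re) ≤ ρ := by
      rw [line_re]
      exact h5
    have e2 := QQ_bound hD hq h4 hw
    have e3 := UU_bound hB0 hb hD hq h4 hw
    have hρ0 : 0 ≤ ρ ^ (M - 1) := by positivity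
    refine (norm_sub_le _ _).trans ?_
    rw [norm_mul]
    have e4 : ‖QQ q M ((u : ℂ) + t * Complex.I)‖ * ‖P ((u : ℂ) + t * Complex.I)‖ ≤
        G * ρ ^ (M - 1) * C := by
      apply mul_le_mul _ (hPb u t h1 h2 h3) (norm_nonneg _) (by positivity)
      exact e2.trans (mul_le_mul_of_nonneg_right (hMDG.trans hDMG) hρ0)
    have e5 : D * B * (M : ℝ) ^ 4 * ρ ^ (M - 1) ≤ B * G * ρ ^ (M - 1) := by
      apply mul_le_mul_of_nonneg_right _ hρ0
      calc D * B * (M : ℝ) ^ 4 = B * (D * (M : ℝ) ^ 4) := by ring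
        _ ≤ B * G := mul_le_mul_of_nonneg_left hDMG hB0
    calc ‖QQ q M ((u : ℂ) + t * Complex.I)‖ * ‖P ((u : ℂ) + t * Complex.I)‖ +
          ‖UU b q M ((u : ℂ) + t * Complex.I)‖
        ≤ G * ρ ^ (M - 1) * C + B * G * ρ ^ (M - 1) := add_le_add e4 (e3.trans e5)
      _ = (B + C) * G * ρ ^ (M - 1) := by ring
  have hjA : (j : ℝ) * A / 2 ≤ j * h / 2 := by
    have : (j : ℝ) * A ≤ j * h := mul_le_mul_of_nonneg_left hAh hj0
    linarith
  have hB₂ : ∀ u : ℝ, -h ≤ u → u ≤ δ → ∀ t : ℝ, |t| = Y →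
      ‖Φ₂ ((u : ℂ) + (t : ℂ) * Complex.I)‖ ≤ (B + C) * G * X := by
    intro u hu1 hu2 t ht
    have e1 := hE.far ((u : ℂ) + t * Complex.I) (by rw [line_re]; exact hu1)
      (by rw [line_re]; linarith) (by rw [line_im]; linarith) (Or.inl (by rw [line_im, ht]))
    rw [line_re] at e1
    rcases le_total 0 u with hu | hu
    · rw [max_eq_right hu] at e1
      have e2 := hQPU u t 1 hu1 hu2 ht.le le_rfl (Real.exp_le_one_iff.2 (by linarith))
      rw [one_pow] at e2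
      refine comb hT₂ (norm_exp_K K _).le (β := 0) (by rw [Real.exp_zero]; exact e2) e1 ?_
      rw [line_re]
      have h1 : (K : ℝ) * u ≤ 3 * j * δ := by
        apply mul_le_mul hK3 hu2 hu (by positivity)
      have h4 : (j : ℝ) * u ≤ j * δ := mul_le_mul_of_nonneg_left hu2 hj0
      have h2 : (j : ℝ) * A = 16 * (j * δ) := by
        rw [← hδA]
        ring
      rw [h2]
      linarith
    · rw [max_eq_left hu] at e1
      have e2 := hQPU u t (Real.exp (-u)) hu1 hu2 ht.le (Real.one_le_exp (by linarith)) le_rfl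
      rw [← Real.exp_nat_mul] at e2
      refine comb hT₂ (norm_exp_K K _).le e2 e1 ?_
      rw [line_re, hKr]
      have h3 : 0 ≤ (j : ℝ) * A := by positivity
      have h4 : (j : ℝ) * u ≤ 0 := mul_nonpos_of_nonneg_of_nonpos hj0 hu
      linarith
  have hB₃ : ∀ t : ℝ, |t| ≤ Y → ‖Φ₂ (((-h : ℝ) : ℂ) + (t : ℂ) * Complex.I)‖ ≤
      (B + C) * G * X := by
    intro t ht
    have e1 := hE.near (((-h : ℝ) : ℂ) + t * Complex.I) (by rw [line_re])
    have e2 := hQPU (-h) t (Real.exp (-(-h))) le_rfl (by linarith) ht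
      (Real.one_le_exp (by linarith)) le_rfl
    rw [← Real.exp_nat_mul] at e2
    refine comb hT₂ (norm_exp_K K _).le e2 e1 ?_
    rw [line_re, hKr]
    have h5 : (j : ℝ) / (4 * n) = j * h / 2 := by
      rw [hh]
      field_simp
      norm_num
    rw [h5]
    linarith
  -- the integrals
  have hI₁ : ‖∫ y in (-Y)..Y, Φ₁ ((δ : ℂ) + y * Complex.I)‖ ≤ 2 * (C * G * X) := by
    have hCGX : 0 ≤ C * G * X := by positivity
    have r1 := rect (f := Φ₁) hδY.le hY0.le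
      (hd₁.mono (fun z hz => lt_of_lt_of_le hδ0 hz.1))
      (H := C * G * X) (fun u h1 h2 t ht => hB₁ u h1 h2 t ht.le (Or.inl ht.ge))
    have r2 : ‖∫ y in (-Y)..Y, Φ₁ ((Y : ℂ) + y * Complex.I)‖ ≤ C * G * X * (2 * Y) := by
      have h1 : ∀ y ∈ Set.uIoc (-Y) Y, ‖Φ₁ ((Y : ℂ) + y * Complex.I)‖ ≤ C * G * X := by
        intro y hy
        rw [Set.uIoc_of_le (by linarith)] at hy
        exact hB₁ Y hδY.le le_rfl y (abs_le.2 ⟨hy.1.le, hy.2⟩) (Or.inr le_rfl)
      have h2 := intervalIntegral.norm_integral_le_of_norm_le_const h1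
      rwa [show |Y - (-Y)| = 2 * Y by rw [abs_of_nonneg (by linarith)]; ring] at h2
    have r3 : ‖∫ y in (-Y)..Y, Φ₁ ((δ : ℂ) + y * Complex.I)‖ ≤
        ‖∫ y in (-Y)..Y, Φ₁ ((Y : ℂ) + y * Complex.I)‖ +
        ‖(∫ y in (-Y)..Y, Φ₁ ((Y : ℂ) + y * Complex.I)) -
          ∫ y in (-Y)..Y, Φ₁ ((δ : ℂ) + y * Complex.I)‖ := by
      have := norm_sub_le (∫ y in (-Y)..Y, Φ₁ ((Y : ℂ) + y * Complex.I))
        ((∫ y in (-Y)..Y, Φ₁ ((Y : ℂ) + y * Complex.I)) -
          ∫ y in (-Y)..Y, Φ₁ ((δ : ℂ) + y * Complex.I))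
      rwa [sub_sub_cancel] at this
    have r4 : C * G * X * (2 * Y) + 2 * (C * G * X) * (Y - δ) ≤ 2 * (C * G * X) := by
      have h1 : 2 * Y + 2 * (Y - δ) ≤ 2 := by linarith
      calc C * G * X * (2 * Y) + 2 * (C * G * X) * (Y - δ)
          = (C * G * X) * (2 * Y + 2 * (Y - δ)) := by ring
        _ ≤ (C * G * X) * 2 := mul_le_mul_of_nonneg_left h1 hCGX
        _ = 2 * (C * G * X) := by ring
    linarith
  have hI₂ : ‖∫ y in (-Y)..Y, Φ₂ ((δ : ℂ) + y * Complex.I)‖ ≤ 2 * ((B + C) * G * X) := by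
    have hCGX : 0 ≤ (B + C) * G * X := by positivity
    have r1 := rect (f := Φ₂) (p := -h) (q := δ) (by linarith) hY0.le
      (hd₂.mono (fun z hz => lt_of_lt_of_le hneg hz.1))
      (H := (B + C) * G * X) (fun u h1 h2 t ht => hB₂ u h1 h2 t ht)
    have r2 : ‖∫ y in (-Y)..Y, Φ₂ (((-h : ℝ) : ℂ) + y * Complex.I)‖ ≤
        (B + C) * G * X * (2 * Y) := by
      have h1 : ∀ y ∈ Set.uIoc (-Y) Y, ‖Φ₂ (((-h : ℝ) : ℂ) + y * Complex.I)‖ ≤
          (B + C) * G * X := by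
        intro y hy
        rw [Set.uIoc_of_le (by linarith)] at hy
        exact hB₃ y (abs_le.2 ⟨hy.1.le, hy.2⟩)
      have h2 := intervalIntegral.norm_integral_le_of_norm_le_const h1
      rwa [show |Y - (-Y)| = 2 * Y by rw [abs_of_nonneg (by linarith)]; ring] at h2
    have r3 : ‖∫ y in (-Y)..Y, Φ₂ ((δ : ℂ) + y * Complex.I)‖ ≤
        ‖(∫ y in (-Y)..Y, Φ₂ ((δ : ℂ) + y * Complex.I)) -
          ∫ y in (-Y)..Y, Φ₂ (((-h : ℝ) : ℂ) + y * Complex.I)‖ +
        ‖∫ y in (-Y)..Y, Φ₂ (((-h : ℝ) : ℂ) + y * Complex.I)‖ := by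
      have := norm_add_le ((∫ y in (-Y)..Y, Φ₂ ((δ : ℂ) + y * Complex.I)) -
          ∫ y in (-Y)..Y, Φ₂ (((-h : ℝ) : ℂ) + y * Complex.I))
        (∫ y in (-Y)..Y, Φ₂ (((-h : ℝ) : ℂ) + y * Complex.I))
      rwa [sub_add_cancel] at this
    have r4 : 2 * ((B + C) * G * X) * (δ - -h) + (B + C) * G * X * (2 * Y) ≤
        2 * ((B + C) * G * X) := by
      have h1 : 2 * (δ - -h) + 2 * Y ≤ 2 := by linarith
      calc 2 * ((B + C) * G * X) * (δ - -h) + (B + C) * G * X * (2 * Y)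
          = ((B + C) * G * X) * (2 * (δ - -h) + 2 * Y) := by ring
        _ ≤ ((B + C) * G * X) * 2 := mul_le_mul_of_nonneg_left h1 hCGX
        _ = 2 * ((B + C) * G * X) := by ring
    linarith
  have hImid : ‖∫ y in (-Y)..Y, Φ ((δ : ℂ) + y * Complex.I)‖ ≤
      2 * (C * G * X) + 2 * ((B + C) * G * X) := by
    simp only [hsum]
    rw [intervalIntegral.integral_add (hc₁.intervalIntegrable _ _) (hc₂.intervalIntegrable _ _)]
    exact (norm_add_le _ _).trans (add_le_add hI₁ hI₂)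
  have hIl : ‖∫ y in (-Real.pi)..(-Y), Φ ((δ : ℂ) + y * Complex.I)‖ ≤
      17 * B * G * X * (Real.pi - Y) := by
    have h1 : ∀ y ∈ Set.uIoc (-Real.pi) (-Y), ‖Φ ((δ : ℂ) + y * Complex.I)‖ ≤
        17 * B * G * X := by
      intro y hy
      rw [Set.uIoc_of_le (by linarith)] at hy
      have h2 : |y| = -y := abs_of_nonpos (by linarith [hy.2])
      apply hfar
      · rw [h2]; linarith [hy.2]
      · rw [h2]; linarith [hy.1]
    have h2 := intervalIntegral.norm_integral_le_of_norm_le_const h1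
    rwa [show |(-Y) - (-Real.pi)| = Real.pi - Y by
      rw [abs_of_nonneg (by linarith)]; ring] at h2
  have hIr : ‖∫ y in Y..Real.pi, Φ ((δ : ℂ) + y * Complex.I)‖ ≤
      17 * B * G * X * (Real.pi - Y) := by
    have h1 : ∀ y ∈ Set.uIoc Y Real.pi, ‖Φ ((δ : ℂ) + y * Complex.I)‖ ≤ 17 * B * G * X := by
      intro y hy
      rw [Set.uIoc_of_le (by linarith)] at hy
      have h2 : |y| = y := abs_of_nonneg (by linarith [hy.1])
      apply hfar
      · rw [h2]; linarith [hy.1]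
      · rw [h2]; linarith [hy.2]
    have h2 := intervalIntegral.norm_integral_le_of_norm_le_const h1
    rwa [abs_of_nonneg (by linarith)] at h2
  have hsplit : ∫ y in (-Real.pi)..Real.pi, Φ ((δ : ℂ) + y * Complex.I) =
      (∫ y in (-Real.pi)..(-Y), Φ ((δ : ℂ) + y * Complex.I)) +
      (∫ y in (-Y)..Y, Φ ((δ : ℂ) + y * Complex.I)) +
      ∫ y in Y..Real.pi, Φ ((δ : ℂ) + y * Complex.I) := by
    rw [intervalIntegral.integral_add_adjacent_intervals (hc.intervalIntegrable _ _)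
      (hc.intervalIntegrable _ _), intervalIntegral.integral_add_adjacent_intervals
      (hc.intervalIntegrable _ _) (hc.intervalIntegrable _ _)]
  have hI : ‖∫ y in (-Real.pi)..Real.pi, Φ ((δ : ℂ) + y * Complex.I)‖ ≤
      2 * Real.pi * (20 * (B + C) * G * X) := by
    rw [hsplit]
    refine (norm_add_le _ _).trans ?_
    have h1 := norm_add_le (∫ y in (-Real.pi)..(-Y), Φ ((δ : ℂ) + y * Complex.I))
      (∫ y in (-Y)..Y, Φ ((δ : ℂ) + y * Complex.I))
    have hGX : 0 ≤ G * X := by positivity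
    have h2 : 2 * (17 * B * (Real.pi - Y)) + 2 * C + 2 * (B + C) ≤
        2 * Real.pi * (20 * (B + C)) := by
      have hπB : 3 * B ≤ Real.pi * B := mul_le_mul_of_nonneg_right hπ.le hB0
      have hπC : 3 * C ≤ Real.pi * C := mul_le_mul_of_nonneg_right hπ.le hC0
      have hBY : 0 ≤ B * Y := mul_nonneg hB0 hY0.le
      nlinarith
    have h3 := mul_le_mul_of_nonneg_right h2 hGX
    have h4 : (2 * (17 * B * (Real.pi - Y)) + 2 * C + 2 * (B + C)) * (G * X) =
        17 * B * G * X * (Real.pi - Y) + 17 * B * G * X * (Real.pi - Y) +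
          (2 * (C * G * X) + 2 * ((B + C) * G * X)) := by ring
    have h5 : 2 * Real.pi * (20 * (B + C)) * (G * X) =
        2 * Real.pi * (20 * (B + C) * G * X) := by ring
    linarith
  rw [hmean, norm_mul]
  have h2π : ‖(1 / (2 * Real.pi) : ℂ)‖ = 1 / (2 * Real.pi) := by
    rw [norm_div, norm_one, norm_mul, Complex.norm_real, Real.norm_of_nonneg (by linarith)]
    simp
  rw [h2π]
  calc 1 / (2 * Real.pi) * ‖∫ y in (-Real.pi)..Real.pi, Φ ((δ : ℂ) + y * Complex.I)‖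
      ≤ 1 / (2 * Real.pi) * (2 * Real.pi * (20 * (B + C) * G * X)) :=
        mul_le_mul_of_nonneg_left hI (by positivity)
    _ = 20 * (B + C) * D * (M : ℝ) ^ 4 * Z * X := by
        rw [hG]
        field_simp

end MP7ed9c3
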