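import Pool.Agent.Lib.MP_7ed9c3_nt.SpecV

/-!
# MP_7ed9c3_nt: V8, the choice of the parameters
-/

set_option autoImplicit false

namespace MP7ed9c3

open Filter Topology

/-- the floor of `j^(1/(2+γ))` -/
noncomputable def V8.nn (γ : ℝ) (j : ℕ) : ℕ := ⌊(j : ℝ) ^ (1 / (2 + γ))⌋₊

theorem V8.nn_tendsto {γ : ℝ} (hγ : 0 < γ) : Tendsto (V8.nn γ) atTop atTop := by
  unfold V8.nn
  refine tendsto_nat_floor_atTop.comp ((tendsto_rpow_atTop ?_).comp tendsto_natCast_atTop_atTop)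
  positivity

theorem V8.nn_le {γ : ℝ} (hγ : 0 < γ) (j : ℕ) : (V8.nn γ j : ℝ) ^ (2 + γ) ≤ j := by
  have h1 : (V8.nn γ j : ℝ) ≤ (j : ℝ) ^ (1 / (2 + γ)) := Nat.floor_le (by positivity)
  calc (V8.nn γ j : ℝ) ^ (2 + γ) ≤ ((j : ℝ) ^ (1 / (2 + γ))) ^ (2 + γ) :=
        Real.rpow_le_rpow (by positivity) h1 (by positivity)
    _ = j := by
      rw [← Real.rpow_mul (by positivity), one_div, inv_mul_cancel₀ (by positivity), Real.rpow_one]

theorem V8.le_nn {γ : ℝ} (hγ : 0 < γ) (j : ℕ) (hj : 1 ≤ V8.nn γ j) :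
    (j : ℝ) ≤ (2 * (V8.nn γ j : ℝ)) ^ (2 + γ) := by
  have h1 : (j : ℝ) ^ (1 / (2 + γ)) ≤ 2 * (V8.nn γ j : ℝ) := by
    have h2 := (Nat.lt_floor_add_one ((j : ℝ) ^ (1 / (2 + γ)))).le
    have h3 : (1 : ℝ) ≤ V8.nn γ j := by exact_mod_cast hj
    unfold V8.nn at h3 ⊢
    linarith
  calc (j : ℝ) = ((j : ℝ) ^ (1 / (2 + γ))) ^ (2 + γ) := by
        rw [← Real.rpow_mul (by positivity), one_div, inv_mul_cancel₀ (by positivity),
          Real.rpow_one]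
    _ ≤ (2 * (V8.nn γ j : ℝ)) ^ (2 + γ) :=
        Real.rpow_le_rpow (by positivity) h1 (by positivity)

/-- the last inequality for large `n` -/
theorem V8.last {γ T : ℝ} (hγ : 0 < γ) (hT : 1 ≤ T) :
    ∀ᶠ x : ℝ in atTop, T * ((2 * x) ^ (3 : ℝ)) ^ T * x ^ T * Real.exp (-(x ^ γ / T)) < 1 := by
  have hT0 : 0 < T := by linarith
  have h1 : Tendsto (fun y : ℝ => y ^ (4 * T / γ) * Real.exp (-(1 / T) * y)) atTop (𝓝 0) :=
    tendsto_rpow_mul_exp_neg_mul_atTop_nhds_zero _ _ (by positivity)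
  have h2 := (h1.const_mul (T * 2 ^ (3 * T))).comp (tendsto_rpow_atTop hγ)
  rw [mul_zero] at h2
  have h3 := h2.eventually (gt_mem_nhds zero_lt_one)
  filter_upwards [h3, eventually_gt_atTop 0] with x hx hx0
  refine lt_of_eq_of_lt ?_ hx
  simp only [Function.comp]
  have e1 : ((2 * x) ^ (3 : ℝ)) ^ T = 2 ^ (3 * T) * x ^ (3 * T) := by
    rw [← Real.rpow_mul (by positivity), Real.mul_rpow (by norm_num) hx0.le]
  have e2 : (x ^ γ) ^ (4 * T / γ) = x ^ (3 * T) * x ^ T := by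
    rw [← Real.rpow_mul hx0.le, ← Real.rpow_add hx0]
    congr 1
    field_simp
    ring
  rw [e1, e2]
  have e3 : -(x ^ γ / T) = -(1 / T) * x ^ γ := by ring
  rw [e3]
  ring

theorem params : Params := by
  intro β η ρ₀ hβ hη hρ
  obtain ⟨γ, hγ⟩ : ∃ γ : ℝ, γ = (β - 2) / (2 * (β + 2)) := ⟨_, rfl⟩
  have hb : 0 < β + 2 := by linarith
  have hγ0 : 0 < γ := by
    rw [hγ]
    apply div_pos <;> linarith
  have hγe : γ * (2 * (β + 2)) = β - 2 := by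
    rw [hγ]
    field_simp
  have hγ1 : γ < 1 / 2 := by
    by_contra h
    push Not at h
    nlinarith
  have hε : 0 < (1 - γ) * β - (2 + γ) := by nlinarith
  obtain ⟨m, hm⟩ := exists_nat_ge (2 / γ)
  have hm' : 2 ≤ γ * (m + 1) := by
    rw [div_le_iff₀ hγ0] at hm
    nlinarith
  refine ⟨m, fun C T hC hT => ?_⟩
  have hT0 : 0 < T := by linarith
  have hneg : Tendsto (fun x : ℝ => x ^ (γ - 1)) atTop (𝓝 0) := by
    have h := tendsto_rpow_neg_atTop (y := 1 - γ) (by linarith)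
    have h' : (fun x : ℝ => x ^ (γ - 1)) = fun x : ℝ => x ^ (-(1 - γ)) := by
      funext x
      congr 1
      ring
    rw [h']
    exact h
  have hev : ∀ᶠ x : ℝ in atTop, 8 ≤ x ∧ 2 ≤ x ^ γ ∧ x ^ (γ - 1) ≤ 1 / 2 ∧
      x ^ (γ - 1) ≤ ρ₀ / 2 ∧ 8 * (C * 3 ^ (m + 1)) ≤ x ∧
      4 * 2 ^ (2 + γ) / (η * 2 ^ (-β)) ≤ x ^ ((1 - γ) * β - (2 + γ)) ∧
      T * ((2 * x) ^ (3 : ℝ)) ^ T * x ^ T * Real.exp (-(x ^ γ / T)) < 1 := by
    filter_upwards [eventually_ge_atTop 8, (tendsto_rpow_atTop hγ0).eventually_ge_atTop 2,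
      hneg.eventually (Iic_mem_nhds (show (0 : ℝ) < 1 / 2 by norm_num)),
      hneg.eventually (Iic_mem_nhds (show (0 : ℝ) < ρ₀ / 2 by linarith)),
      eventually_ge_atTop (8 * (C * 3 ^ (m + 1))),
      (tendsto_rpow_atTop hε).eventually_ge_atTop (4 * 2 ^ (2 + γ) / (η * 2 ^ (-β))),
      V8.last hγ0 hT] with x h1 h2 h3 h4 h5 h6 h7
    exact ⟨h1, h2, h3, h4, h5, h6, h7⟩
  have hev2 := (tendsto_natCast_atTop_atTop (R := ℝ)).comp (V8.nn_tendsto hγ0) |>.eventually hev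
  obtain ⟨J₀, hJ⟩ := eventually_atTop.1 hev2
  refine ⟨J₀, fun j hj => ?_⟩
  obtain ⟨h1, h2, h3, h4, h5, h6, h7⟩ := hJ j hj
  simp only [Function.comp] at h1 h2 h3 h4 h5 h6 h7
  have hle := V8.nn_le hγ0 j
  have h8 : 8 ≤ V8.nn γ j := by exact_mod_cast h1
  have hge := V8.le_nn hγ0 j (by omega)
  set n := V8.nn γ j with hn
  clear_value n
  obtain ⟨x, hx⟩ : ∃ x : ℝ, x = (n : ℝ) := ⟨_, rfl⟩
  rw [← hx] at h1 h2 h3 h4 h5 h6 h7 hle hge
  have hx0 : 0 < x := by linarith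
  refine ⟨n, x ^ (γ - 1), h8, ?_, h3, by linarith, ?_, ?_, ?_⟩
  · rw [← hx]
    have e : x * x ^ (γ - 1) = x ^ γ := by
      nth_rewrite 1 [← Real.rpow_one x]
      rw [← Real.rpow_add hx0]
      congr 1
      ring
    rw [e]
    exact h2
  · rw [← hx]
    have e : x ≤ x ^ m * (x ^ (γ - 1)) ^ (m + 1) := by
      calc x = x ^ (1 : ℝ) := (Real.rpow_one x).symm
        _ ≤ x ^ ((m : ℝ) + (γ - 1) * ((m + 1 : ℕ) : ℝ)) := by
          refine Real.rpow_le_rpow_of_exponent_le (by linarith) ?_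
          push_cast
          nlinarith
        _ = x ^ m * (x ^ (γ - 1)) ^ (m + 1) := by
          rw [Real.rpow_add hx0, Real.rpow_natCast, Real.rpow_mul hx0.le, Real.rpow_natCast]
    rw [div_le_iff₀ (by positivity)]
    linarith
  · have e : (2 * x ^ (γ - 1)) ^ (-β) = 2 ^ (-β) * x ^ ((1 - γ) * β) := by
      rw [Real.mul_rpow (by norm_num) (by positivity), ← Real.rpow_mul hx0.le]
      congr 2
      ring
    have e2 : x ^ ((1 - γ) * β) = x ^ ((1 - γ) * β - (2 + γ)) * x ^ (2 + γ) := by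
      rw [← Real.rpow_add hx0]
      congr 1
      ring
    have e3 : (2 * x) ^ (2 + γ) = 2 ^ (2 + γ) * x ^ (2 + γ) :=
      Real.mul_rpow (by norm_num) hx0.le
    rw [e, e2]
    rw [e3] at hge
    have h2b : (0 : ℝ) < 2 ^ (-β) := Real.rpow_pos_of_pos (by norm_num) _
    rw [div_le_iff₀ (by positivity)] at h6
    have hxg : 0 < x ^ (2 + γ) := Real.rpow_pos_of_pos hx0 _
    calc 4 * (j : ℝ) ≤ 4 * (2 ^ (2 + γ) * x ^ (2 + γ)) := by linarith
      _ = 4 * 2 ^ (2 + γ) * x ^ (2 + γ) := by ring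
      _ ≤ x ^ ((1 - γ) * β - (2 + γ)) * (η * 2 ^ (-β)) * x ^ (2 + γ) :=
        mul_le_mul_of_nonneg_right h6 hxg.le
      _ = η * (2 ^ (-β) * (x ^ ((1 - γ) * β - (2 + γ)) * x ^ (2 + γ))) := by ring
  · rw [← hx]
    have e1 : (j : ℝ) + 1 ≤ (2 * x) ^ (3 : ℝ) := by
      have e4 : (2 * x) ^ (2 + γ) ≤ (2 * x) ^ (5 / 2 : ℝ) :=
        Real.rpow_le_rpow_of_exponent_le (by linarith) (by linarith)
      have e5 : (2 * x) ^ (3 : ℝ) = (2 * x) ^ (5 / 2 : ℝ) * (2 * x) ^ (1 / 2 : ℝ) := by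
        rw [← Real.rpow_add (by linarith)]
        norm_num
      have e6 : (4 : ℝ) ≤ (2 * x) ^ (1 / 2 : ℝ) := by
        rw [← Real.sqrt_eq_rpow]
        apply Real.le_sqrt_of_sq_le
        linarith
      have e7 : (1 : ℝ) ≤ (2 * x) ^ (5 / 2 : ℝ) :=
        Real.one_le_rpow (by linarith) (by norm_num)
      rw [e5]
      nlinarith
    have e8 : x ^ γ / T ≤ (j : ℝ) / (T * x ^ 2) := by
      rw [div_le_div_iff₀ hT0 (by positivity)]
      have e9 : x ^ γ * x ^ 2 = x ^ (2 + γ) := by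
        rw [Real.rpow_add hx0, Real.rpow_ofNat]
        ring
      calc x ^ γ * (T * x ^ 2) = T * (x ^ γ * x ^ 2) := by ring
        _ = T * x ^ (2 + γ) := by rw [e9]
        _ ≤ T * j := mul_le_mul_of_nonneg_left hle hT0.le
        _ = j * T := mul_comm _ _
    refine lt_of_le_of_lt ?_ h7
    have e10 : ((j : ℝ) + 1) ^ T ≤ ((2 * x) ^ (3 : ℝ)) ^ T :=
      Real.rpow_le_rpow (by positivity) e1 hT0.le
    have e11 : Real.exp (-((j : ℝ) / (T * x ^ 2))) ≤ Real.exp (-(x ^ γ / T)) :=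
      Real.exp_le_exp.2 (by linarith)
    gcongr

end MP7ed9c3
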