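import Pool.Agent.Lib.MP_7ed9c3_nt.SpecV
import Pool.Agent.Lib.MP_7ed9c3_nt.G8

/-!
# MP_7ed9c3_nt: recurrence from the Gevrey expansion (V9)
-/

namespace MP7ed9c3

open Filter Topology

/-- The final numerical comparison. -/
theorem V9.final (B C Cm T : ℝ) (L j n : ℕ) (hB : 1 ≤ B) (hC : 1 ≤ C) (hCm : 1 ≤ Cm)
    (hT7 : 7 ≤ T) (hT2 : 2 * (C + 3) ≤ T) (hT16 : 16 * Cm ≤ T)
    (hTb : 20 * (B + C) * (18 * B) * 16 * (128 * Cm) ^ (C + 3) ≤ T) (hL : 1 ≤ L) (hLj : L ≤ j)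
    (hn : 8 ≤ n) :
    20 * (B + C) * (18 * B * (L : ℝ) ^ 3) * ((2 * L : ℕ) : ℝ) ^ 4 *
        (1 / (8 * Cm * (n : ℝ) ^ 2) / 16) ^ (-(C + 3)) *
        Real.exp (-(j * (1 / (8 * Cm * (n : ℝ) ^ 2)) / 2)) ≤
      T * ((j : ℝ) + 1) ^ T * (n : ℝ) ^ T * Real.exp (-((j : ℝ) / (T * (n : ℝ) ^ 2))) := by
  have hn' : (1 : ℝ) ≤ n := by
    have : (8 : ℝ) ≤ n := by exact_mod_cast hn
    linarith
  have hn0 : (0 : ℝ) < n := by linarith
  have hLr : (1 : ℝ) ≤ L := by exact_mod_cast hL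
  have hLjr : (L : ℝ) ≤ j := by exact_mod_cast hLj
  have hj0 : (0 : ℝ) ≤ j := by linarith
  have hCm0 : 0 < Cm := by linarith
  have hT0 : 0 < T := by linarith
  have hA : (1 / (8 * Cm * (n : ℝ) ^ 2) / 16) ^ (-(C + 3)) =
      (128 * Cm) ^ (C + 3) * (n : ℝ) ^ (2 * (C + 3)) := by
    have e1 : 1 / (8 * Cm * (n : ℝ) ^ 2) / 16 = ((128 * Cm) * (n : ℝ) ^ 2)⁻¹ := by
      rw [div_div, one_div]
      congr 1
      ring
    rw [e1, Real.inv_rpow (by positivity), Real.rpow_neg (by positivity), inv_inv,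
      Real.mul_rpow (by positivity) (by positivity), ← Real.rpow_natCast (n : ℝ) 2,
      ← Real.rpow_mul hn0.le]
    norm_num
  rw [hA]
  have hexp : Real.exp (-(j * (1 / (8 * Cm * (n : ℝ) ^ 2)) / 2)) ≤
      Real.exp (-((j : ℝ) / (T * (n : ℝ) ^ 2))) := by
    apply Real.exp_le_exp.mpr
    have e2 : (j : ℝ) * (1 / (8 * Cm * (n : ℝ) ^ 2)) / 2 = (j : ℝ) / (16 * Cm * (n : ℝ) ^ 2) := by
      field_simp
      ring
    rw [e2]
    apply neg_le_neg
    apply div_le_div_of_nonneg_left hj0 (by positivity)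
    exact mul_le_mul_of_nonneg_right hT16 (by positivity)
  have hpow : (L : ℝ) ^ 3 * (L : ℝ) ^ 4 ≤ ((j : ℝ) + 1) ^ T := by
    have h1 : (L : ℝ) ^ 3 * (L : ℝ) ^ 4 ≤ ((j : ℝ) + 1) ^ 7 := by
      rw [← pow_add]
      exact pow_le_pow_left₀ (by positivity) (by linarith) _
    refine h1.trans ?_
    rw [← Real.rpow_natCast ((j : ℝ) + 1) 7]
    apply Real.rpow_le_rpow_of_exponent_le (by linarith)
    exact_mod_cast hT7
  have hnp : (n : ℝ) ^ (2 * (C + 3)) ≤ (n : ℝ) ^ T :=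
    Real.rpow_le_rpow_of_exponent_le hn' hT2
  have e3 : 20 * (B + C) * (18 * B * (L : ℝ) ^ 3) * ((2 * L : ℕ) : ℝ) ^ 4 *
        ((128 * Cm) ^ (C + 3) * (n : ℝ) ^ (2 * (C + 3))) =
      (20 * (B + C) * (18 * B) * 16 * (128 * Cm) ^ (C + 3)) * ((L : ℝ) ^ 3 * (L : ℝ) ^ 4) *
        (n : ℝ) ^ (2 * (C + 3)) := by
    push_cast
    ring
  rw [e3]
  have hc0 : 0 ≤ 20 * (B + C) * (18 * B) * 16 * (128 * Cm) ^ (C + 3) := by positivity
  have hj1 : (0 : ℝ) ≤ ((j : ℝ) + 1) ^ T := by positivity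
  apply mul_le_mul _ hexp (Real.exp_pos _).le (by positivity)
  apply mul_le_mul _ hnp (by positivity) (by positivity)
  exact mul_le_mul hTb hpow (by positivity) hT0.le

/-- V9. -/
theorem recurrentOf2 (v5b : KernelE) (v7 : StepBound) (v8 : Params) : RecurrentOf2 := by
  intro b β C η ρ₀ hβ hC hη hρ₀ hb0 hsum hnear
  obtain ⟨B, hB1, hB⟩ := g8_bound b hb0 hsum
  obtain ⟨m, hm⟩ := v8 β η ρ₀ hβ hη hρ₀
  obtain ⟨Cm, hCm, hK⟩ := v5b m
  obtain ⟨T, hT7, hT2, hT16, hTb⟩ : ∃ T : ℝ, 7 ≤ T ∧ 2 * (C + 3) ≤ T ∧ 16 * Cm ≤ T ∧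
      20 * (B + C) * (18 * B) * 16 * (128 * Cm) ^ (C + 3) ≤ T :=
    ⟨max (max 7 (2 * (C + 3))) (max (16 * Cm) (20 * (B + C) * (18 * B) * 16 *
      (128 * Cm) ^ (C + 3))), (le_max_left _ _).trans (le_max_left _ _),
      (le_max_right _ _).trans (le_max_left _ _), (le_max_left _ _).trans (le_max_right _ _),
      (le_max_right _ _).trans (le_max_right _ _)⟩
  obtain ⟨J₀, hJ⟩ := hm Cm T hCm (by linarith)
  obtain ⟨L, hL1, hLJ⟩ : ∃ L : ℕ, 1 ≤ L ∧ J₀ ≤ L := ⟨max J₀ 1, le_max_right _ _, le_max_left _ _⟩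
  obtain ⟨t, ht0, htb, hte⟩ := g8_siegel b B hB1 hB L hL1
  have hL1r : (1 : ℝ) ≤ L := by exact_mod_cast hL1
  have hall : ∀ j, ∑ i : Fin (2 * L), t i * b (i + j) = 0 := by
    intro j
    induction j using Nat.strong_induction_on with
    | _ j ih =>
      by_cases hj : j < L
      · exact hte j hj
      · have hLj : L ≤ j := not_lt.mp hj
        obtain ⟨n, Y, hn8, hnY, hY, hYρ, hCn, hW, hlt⟩ := hJ j (hLJ.trans hLj)
        have hn8r : (8 : ℝ) ≤ n := by exact_mod_cast hn8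
        have hn0 : (0 : ℝ) < n := by linarith
        have hY0 : 0 < Y := by
          by_contra hcon
          have : (n : ℝ) * Y ≤ 0 := mul_nonpos_of_nonneg_of_nonpos hn0.le (not_lt.mp hcon)
          linarith
        obtain ⟨E, hE⟩ := hK n j Y hn8 hnY hY hCn
        obtain ⟨P, hPd, hPb, hPn⟩ := hnear (2 * Y) (by linarith) hYρ
        set q : ℕ → ℂ := fun k => if h : k < 2 * L then ((t ⟨k, h⟩ : ℤ) : ℂ) else 0 with hq
        have hqs : ∀ i : ℕ, ∑ k ∈ Finset.range (2 * L), q k * ((b (k + i) : ℤ) : ℂ) =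
            ((∑ k : Fin (2 * L), t k * b (k + i) : ℤ) : ℂ) := by
          intro i
          rw [Finset.sum_range]
          push_cast
          refine Finset.sum_congr rfl fun k _ => ?_
          rw [hq]
          simp only
          rw [dif_pos k.isLt]
        have hqD : ∀ i < 2 * L, ‖q i‖ ≤ 18 * B * (L : ℝ) ^ 3 := by
          intro i hi
          rw [hq]
          simp only
          rw [dif_pos hi, ← Complex.ofReal_intCast, Complex.norm_real, Real.norm_eq_abs]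
          exact htb ⟨i, hi⟩
        have hbB : ∀ k : ℕ, ‖((b k : ℤ) : ℂ)‖ ≤ B * ((k : ℝ) + 1) ^ 2 := by
          intro k
          rw [← Complex.ofReal_intCast, Complex.norm_real, Real.norm_eq_abs]
          refine (hB k).trans ?_
          apply mul_le_mul_of_nonneg_left _ (by linarith)
          have : (0 : ℝ) ≤ k := Nat.cast_nonneg k
          exact pow_le_pow_left₀ this (by linarith) 2
        have hA0 : 0 < 1 / (8 * Cm * (n : ℝ) ^ 2) := by positivity
        have hA1 : 1 / (8 * Cm * (n : ℝ) ^ 2) ≤ 1 / (8 * (n : ℝ) ^ 2) := by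
          apply one_div_le_one_div_of_le (by positivity)
          have : 0 < (n : ℝ) ^ 2 := by positivity
          nlinarith
        have hmain := v7 (fun n => ((b n : ℤ) : ℂ)) B C (η * (2 * Y) ^ (-β))
          (1 / (8 * Cm * (n : ℝ) ^ 2)) Y (18 * B * (L : ℝ) ^ 3) n j (2 * L) q E P hB1 hbB hC hn8
          hnY hY hA0 hA1 (by omega) (by omega) hW hqD
          (by
            intro i hi
            rw [hqs i, ih i hi]
            simp)
          hE hPd hPb
          (by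
            intro x hx hx2
            have h1 := hPn x hx hx2
            have e : -(η * x.re * (2 * Y) ^ (-β)) = -(η * (2 * Y) ^ (-β) * x.re) := by ring
            rw [e] at h1
            exact h1)
        have hlt' := lt_of_le_of_lt (hmain.trans (V9.final B C Cm T L j n hB1 hC hCm hT7 hT2 hT16
          hTb hL1 hLj hn8)) hlt
        rw [hqs j, ← Complex.ofReal_intCast, Complex.norm_real, Real.norm_eq_abs] at hlt'
        have hlt'' : |(∑ i : Fin (2 * L), t i * b (i + j) : ℤ)| < 1 := by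
          exact_mod_cast hlt'
        exact Int.abs_lt_one_iff.mp hlt''
  -- conclusion
  obtain ⟨i₀, hi₀⟩ : ∃ i, t i ≠ 0 := by
    by_contra hcon
    push Not at hcon
    exact ht0 (funext hcon)
  refine ⟨2 * L - 1, fun i => if h : i < 2 * L then t ⟨i, h⟩ else 0, ?_, ?_⟩
  · refine ⟨i₀, by have := i₀.isLt; omega, ?_⟩
    simp only
    rw [dif_pos i₀.isLt]
    exact hi₀
  · intro j
    have h1 : 2 * L - 1 + 1 = 2 * L := by omega
    rw [h1, Finset.sum_range]
    refine Eq.trans ?_ (hall j)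
    refine Finset.sum_congr rfl fun i _ => ?_
    simp only
    rw [dif_pos i.isLt]

end MP7ed9c3
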