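import Pool.Agent.Lib.MP_7ed9c3_nt.AllG
import Pool.Agent.Lib.MP_7ed9c3_nt.V1
import Pool.Agent.Lib.MP_7ed9c3_nt.V2
import Pool.Agent.Lib.MP_7ed9c3_nt.V3
import Pool.Agent.Lib.MP_7ed9c3_nt.V3b
import Pool.Agent.Lib.MP_7ed9c3_nt.V4
import Pool.Agent.Lib.MP_7ed9c3_nt.V5
import Pool.Agent.Lib.MP_7ed9c3_nt.V5b
import Pool.Agent.Lib.MP_7ed9c3_nt.V6
import Pool.Agent.Lib.MP_7ed9c3_nt.V7
import Pool.Agent.Lib.MP_7ed9c3_nt.V8
import Pool.Agent.Lib.MP_7ed9c3_nt.V9
import Pool.Agent.Lib.MP_7ed9c3_nt.V10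

/-!
# MP_7ed9c3_nt: assembly of part V
-/

namespace MP7ed9c3

theorem approximationAll : Approximation :=
  approximation phragLindC (remForm gammaLine gammaStrip mellinRepAll lineShift)
    (remBound gammaLine) coeffBound

theorem recurrentOf2All : RecurrentOf2 := recurrentOf2 (kernelE kernel) (stepBound meanValue) params

theorem growth2All : Growth2 :=
  growth2 countPrimes existsModel goodDataAll traceBoundAll approximationAll recurrentOf2All
    boundedOf (coeffs sparseSums) unbounded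

end MP7ed9c3
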