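import Pool.Agent.Lib.MP_7ed9c3_nt.SpecZ

/-!
# Z1: sums of cosines over the primes
-/

set_option autoImplicit false

namespace MP7ed9c3

open Filter Topology

/-- the terms of the Euler product -/
noncomputable def Z1.z (x τ : ℝ) (p : Nat.Primes) : ℂ := (p : ℂ) ^ (-(1 + x + τ * Complex.I : ℂ))

theorem Z1.two_le (p : Nat.Primes) : (2 : ℝ) ≤ p := by exact_mod_cast p.2.two_le

theorem Z1.norm_z (x τ : ℝ) (p : Nat.Primes) : ‖Z1.z x τ p‖ = (p : ℝ) ^ (-(1 + x)) := by
  unfold Z1.z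
  rw [Complex.norm_natCast_cpow_of_pos p.2.pos]
  congr 1
  simp

theorem Z1.re_z (x τ : ℝ) (p : Nat.Primes) :
    (Z1.z x τ p).re = (p : ℝ) ^ (-(1 + x)) * Real.cos (τ * Real.log p) := by
  have hp : (0 : ℝ) < p := by have := Z1.two_le p; linarith
  have hp' : (p : ℂ) ≠ 0 := by exact_mod_cast p.2.ne_zero
  unfold Z1.z
  rw [Complex.cpow_def_of_ne_zero hp', Complex.exp_re, Real.rpow_def_of_pos hp]
  have h : Complex.log (p : ℂ) = ((Real.log p : ℝ) : ℂ) := by
    rw [← Complex.ofReal_natCast, ← Complex.ofReal_log hp.le]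
  rw [h]
  have e1 : (((Real.log p : ℝ) : ℂ) * (-(1 + x + τ * Complex.I))).re =
      Real.log p * (-(1 + x)) := by
    rw [Complex.re_ofReal_mul]
    simp
  have e2 : (((Real.log p : ℝ) : ℂ) * (-(1 + x + τ * Complex.I))).im =
      -(τ * Real.log p) := by
    rw [Complex.im_ofReal_mul]
    have e3 : (-(1 + x + τ * Complex.I : ℂ)).im = -τ := by simp
    rw [e3]
    ring
  rw [e1, e2, Real.cos_neg]

theorem Z1.norm_le (x τ : ℝ) (hx : 0 < x) (p : Nat.Primes) : ‖Z1.z x τ p‖ ≤ (p : ℝ) ^ (-1 : ℝ) := by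
  rw [Z1.norm_z]
  exact Real.rpow_le_rpow_of_exponent_le (by have := Z1.two_le p; linarith) (by linarith)

theorem Z1.norm_le_half (x τ : ℝ) (hx : 0 < x) (p : Nat.Primes) : ‖Z1.z x τ p‖ ≤ 1 / 2 := by
  refine (Z1.norm_le x τ hx p).trans ?_
  rw [Real.rpow_neg_one, one_div]
  exact inv_anti₀ (by norm_num) (Z1.two_le p)

theorem Z1.norm_sq_le (x τ : ℝ) (hx : 0 < x) (p : Nat.Primes) :
    ‖Z1.z x τ p‖ ^ 2 ≤ (p : ℝ) ^ (-2 : ℝ) := by
  have hp : (0 : ℝ) < p := by have := Z1.two_le p; linarith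
  calc ‖Z1.z x τ p‖ ^ 2 ≤ ((p : ℝ) ^ (-1 : ℝ)) ^ 2 :=
        pow_le_pow_left₀ (norm_nonneg _) (Z1.norm_le x τ hx p) 2
    _ = (p : ℝ) ^ (-2 : ℝ) := by
      rw [← Real.rpow_natCast, ← Real.rpow_mul hp.le]
      norm_num

theorem Z1.log_bound (x τ : ℝ) (hx : 0 < x) (p : Nat.Primes) :
    ‖-Complex.log (1 - Z1.z x τ p) - Z1.z x τ p‖ ≤ (p : ℝ) ^ (-2 : ℝ) := by
  have h1 := Z1.norm_le_half x τ hx p
  have h2 : ‖-Z1.z x τ p‖ < 1 := by
    rw [norm_neg]
    linarith
  have h3 := Complex.norm_log_one_add_sub_self_le h2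
  rw [norm_neg] at h3
  have e : -Complex.log (1 - Z1.z x τ p) - Z1.z x τ p =
      -(Complex.log (1 + -Z1.z x τ p) - -Z1.z x τ p) := by
    rw [← sub_eq_add_neg]
    ring
  rw [e, norm_neg]
  refine (h3.trans ?_).trans (Z1.norm_sq_le x τ hx p)
  have h4 : (1 - ‖Z1.z x τ p‖)⁻¹ ≤ 2 := by
    rw [inv_le_comm₀ (by linarith) (by norm_num)]
    linarith
  have h5 : 0 ≤ ‖Z1.z x τ p‖ ^ 2 := by positivity
  nlinarith

theorem Z1.summable_sq : Summable fun p : Nat.Primes => (p : ℝ) ^ (-2 : ℝ) :=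
  Nat.Primes.summable_rpow.2 (by norm_num)

theorem Z1.summable_z (x τ : ℝ) (hx : 0 < x) : Summable (Z1.z x τ) := by
  apply Summable.of_norm
  have h : (fun p : Nat.Primes => ‖Z1.z x τ p‖) = fun p : Nat.Primes => (p : ℝ) ^ (-(1 + x)) :=
    funext fun p => Z1.norm_z x τ p
  rw [h]
  exact Nat.Primes.summable_rpow.2 (by linarith)

theorem Z1.approx (x τ : ℝ) (hx : 0 < x) :
    |primeCos x τ - Real.log ‖riemannZeta (1 + x + τ * Complex.I)‖| ≤
      ∑' p : Nat.Primes, (p : ℝ) ^ (-2 : ℝ) := by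
  have hs := Z1.summable_z x τ hx
  have hl : Summable fun p => -Complex.log (1 - Z1.z x τ p) := hs.clog_one_sub.neg
  have hre : 1 < (1 + x + τ * Complex.I : ℂ).re := by simp [hx]
  have hz := riemannZeta_eulerProduct_exp_log hre
  have h1 : Real.log ‖riemannZeta (1 + x + τ * Complex.I)‖ =
      (∑' p, -Complex.log (1 - Z1.z x τ p)).re := by
    rw [← hz, Complex.norm_exp, Real.log_exp]
    rfl
  have h2 : primeCos x τ = (∑' p, Z1.z x τ p).re := by
    rw [Complex.re_tsum hs]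
    unfold primeCos
    exact tsum_congr fun p => (Z1.re_z x τ p).symm
  rw [h1, h2, ← Complex.sub_re, ← Summable.tsum_sub hs hl]
  refine (Complex.abs_re_le_norm _).trans ?_
  refine tsum_of_norm_bounded Z1.summable_sq.hasSum fun p => ?_
  rw [norm_sub_rev]
  exact Z1.log_bound x τ hx p

theorem Z1.ne_zero (x τ : ℝ) (hx : 0 ≤ x) : riemannZeta (1 + x + τ * Complex.I) ≠ 0 := by
  apply riemannZeta_ne_zero_of_one_le_re
  simp [hx]

theorem Z1.cont (τ : ℝ) (hτ : τ ≠ 0) :
    ∃ C : ℝ, ∀ x : ℝ, 0 ≤ x → x ≤ 1 →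
      |Real.log ‖riemannZeta (1 + x + τ * Complex.I)‖| ≤ C := by
  have hc : ContinuousOn (fun x : ℝ => Real.log ‖riemannZeta (1 + x + τ * Complex.I)‖)
      (Set.Icc 0 1) := by
    intro x hx
    apply ContinuousAt.continuousWithinAt
    have hne : (1 + x + τ * Complex.I : ℂ) ≠ 1 := by
      intro h
      have := congrArg Complex.im h
      simp at this
      exact hτ this
    have h1 : ContinuousAt riemannZeta (1 + x + τ * Complex.I) :=
      (differentiableAt_riemannZeta hne).continuousAt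
    have h2 : ContinuousAt (fun x : ℝ => (1 + x + τ * Complex.I : ℂ)) x := by fun_prop
    have h3 : ContinuousAt (fun x : ℝ => riemannZeta (1 + x + τ * Complex.I)) x :=
      ContinuousAt.comp (f := fun x : ℝ => (1 + x + τ * Complex.I : ℂ)) h1 h2
    exact h3.norm.log (norm_ne_zero_iff.2 (Z1.ne_zero x τ hx.1))
  obtain ⟨C, hC⟩ := isCompact_Icc.exists_bound_of_continuousOn hc
  exact ⟨C, fun x h0 h1 => hC x ⟨h0, h1⟩⟩

theorem Z1.cont0 :
    ∃ C : ℝ, ∀ x : ℝ, 0 < x → x ≤ 1 →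
      Real.log ‖riemannZeta (1 + x + (0 : ℝ) * Complex.I)‖ ≤ Real.log (1 / x) + C := by
  let ψ : ℝ → ℂ := Function.update (fun x : ℝ => (x : ℂ) * riemannZeta (1 + x)) 0 1
  have hψ : ∀ x : ℝ, x ≠ 0 → ψ x = (x : ℂ) * riemannZeta (1 + x) := fun x hx =>
    Function.update_of_ne hx _ _
  have h0 : ∀ x : ℝ, 0 ≤ x → ψ x ≠ 0 := by
    intro x hx
    by_cases h : x = 0
    · subst h
      simp [ψ]
    · rw [hψ x h]
      apply mul_ne_zero (by exact_mod_cast h)
      apply riemannZeta_ne_zero_of_one_le_re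
      simp [hx]
  have hc : ContinuousOn (fun x : ℝ => Real.log ‖ψ x‖) (Set.Icc 0 1) := by
    intro x hx
    apply ContinuousAt.continuousWithinAt
    have h3 : ContinuousAt ψ x := by
      by_cases h : x = 0
      · subst h
        rw [continuousAt_update_same]
        have h4 : Tendsto (fun x : ℝ => (1 + x : ℂ)) (𝓝[≠] 0) (𝓝[≠] 1) := by
          rw [tendsto_nhdsWithin_iff]
          constructor
          · have h5 : Tendsto (fun x : ℝ => (1 + x : ℂ)) (𝓝 0) (𝓝 (1 + (0 : ℝ))) := by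
              apply Continuous.tendsto
              fun_prop
            rw [Complex.ofReal_zero, add_zero] at h5
            exact h5.mono_left nhdsWithin_le_nhds
          · filter_upwards [self_mem_nhdsWithin] with y hy
            intro h6
            have h7 : (1 + y : ℂ) = 1 := h6
            have h8 : (y : ℂ) = 0 := by linear_combination h7
            exact hy (by exact_mod_cast h8)
        have h5 := riemannZeta_residue_one.comp h4
        refine h5.congr fun y => ?_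
        simp
      · have h4 : ψ =ᶠ[𝓝 x] fun x : ℝ => (x : ℂ) * riemannZeta (1 + x) := by
          filter_upwards [isOpen_ne.mem_nhds h] with y hy
          exact hψ y hy
        rw [continuousAt_congr h4]
        have hne : (1 + x : ℂ) ≠ 1 := by
          intro h6
          have h8 : (x : ℂ) = 0 := by linear_combination h6
          exact h (by exact_mod_cast h8)
        have h1 : ContinuousAt riemannZeta (1 + x) :=
          (differentiableAt_riemannZeta hne).continuousAt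
        have h2 : ContinuousAt (fun x : ℝ => (1 + x : ℂ)) x := by fun_prop
        have h3 : ContinuousAt (fun x : ℝ => riemannZeta (1 + x)) x :=
          ContinuousAt.comp (f := fun x : ℝ => (1 + x : ℂ)) h1 h2
        exact Complex.continuous_ofReal.continuousAt.mul h3
    exact h3.norm.log (norm_ne_zero_iff.2 (h0 x hx.1))
  obtain ⟨C, hC⟩ := isCompact_Icc.exists_bound_of_continuousOn hc
  refine ⟨C, fun x hx0 hx1 => ?_⟩
  have h1 := hC x ⟨hx0.le, hx1⟩
  have h2 : Real.log ‖ψ x‖ ≤ C := (le_abs_self _).trans h1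
  rw [hψ x hx0.ne', norm_mul, Complex.norm_real, Real.norm_of_nonneg hx0.le,
    Real.log_mul hx0.ne' (norm_ne_zero_iff.2 (by
      apply riemannZeta_ne_zero_of_one_le_re
      simp [hx0.le]))] at h2
  rw [one_div, Real.log_inv, Complex.ofReal_zero, zero_mul, add_zero]
  linarith

/-- **Z1.** -/
theorem zetaCos : ZetaCos := by
  constructor
  · obtain ⟨C, hC⟩ := Z1.cont0
    refine ⟨(∑' p : Nat.Primes, (p : ℝ) ^ (-2 : ℝ)) + C, fun x hx0 hx1 => ?_⟩
    have h1 := (abs_le.1 (Z1.approx x 0 hx0)).2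
    have h2 := hC x hx0 hx1
    linarith
  · intro τ hτ
    obtain ⟨C, hC⟩ := Z1.cont τ hτ
    refine ⟨(∑' p : Nat.Primes, (p : ℝ) ^ (-2 : ℝ)) + C, fun x hx0 hx1 => ?_⟩
    have h1 := abs_le.1 (Z1.approx x τ hx0)
    have h2 := abs_le.1 (hC x hx0.le hx1)
    rw [abs_le]
    constructor <;> linarith

end MP7ed9c3
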