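import Pool.Agent.Lib.MP_7ed9c3_nt.SpecZ
import Pool.Agent.Lib.MP_7ed9c3_nt.A9

/-!
# Z2: the logarithm of the absolute value of the Euler product
-/

set_option autoImplicit false

namespace MP7ed9c3

open Filter Topology

namespace Z2

lemma cpow_re (N : ℕ) (hN : 2 ≤ N) (x t : ℝ) :
    ((N : ℂ) ^ (-(3 / 2 + x + t * Complex.I : ℂ))).re =
      (N : ℝ) ^ (-(3 / 2 + x)) * Real.cos (t * Real.log N) := by
  have hN0 : (N : ℂ) ≠ 0 := by exact_mod_cast (by omega : N ≠ 0)
  have hNpos : (0 : ℝ) < N := by exact_mod_cast (by omega : 0 < N)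
  rw [Complex.cpow_def_of_ne_zero hN0, Complex.natCast_log.symm, Complex.exp_re]
  have h1 : ((Real.log N : ℂ) * -(3 / 2 + x + t * Complex.I)).re =
      Real.log N * -(3 / 2 + x) := by
    rw [Complex.re_ofReal_mul]
    simp
  have h2 : ((Real.log N : ℂ) * -(3 / 2 + x + t * Complex.I)).im = -(t * Real.log N) := by
    rw [Complex.im_ofReal_mul]
    simp
    ring
  rw [h1, h2, Real.cos_neg, Real.rpow_def_of_pos hNpos]

lemma summable_main (h7 : SparseSums) {ι : Type} {N : ι → ℕ} {a : ι → ℤ} {C A : ℝ}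
    (hN : Sparse N C) (haA : ∀ i, |(a i : ℝ)| ≤ A * √(N i)) (x t : ℝ) (hx : 0 < x) :
    Summable fun i => (a i : ℂ) * (N i : ℂ) ^ (-(3 / 2 + x + t * Complex.I : ℂ)) := by
  have h1 := ((h7 ι N C hN).2.1 x hx).mul_left A
  refine Summable.of_norm_bounded h1 fun i => ?_
  have hNi : 2 ≤ N i := hN.1 i
  have hNpos : (0 : ℝ) < N i := by exact_mod_cast (by omega : 0 < N i)
  rw [norm_mul, Complex.norm_natCast_cpow_of_pos (by omega), Complex.norm_intCast]
  have h2 : (-(3 / 2 + x + t * Complex.I : ℂ)).re = -(3 / 2 + x) := by simp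
  rw [h2]
  calc |(a i : ℝ)| * (N i : ℝ) ^ (-(3 / 2 + x)) ≤
      (A * √(N i)) * (N i : ℝ) ^ (-(3 / 2 + x)) :=
        mul_le_mul_of_nonneg_right (haA i) (Real.rpow_nonneg hNpos.le _)
    _ = A * (N i : ℝ) ^ (-(1 + x)) := by
        rw [Real.sqrt_eq_rpow, mul_assoc, ← Real.rpow_add hNpos]
        congr 2
        ring

end Z2

/-- **Z2.** -/
theorem eulerCos (h6 : EulerLog) (h7 : SparseSums) : EulerCos := by
  intro ι N a good _ C A hN haN haA
  have hA' : ∀ i, |(a i : ℝ)| ≤ |A| * √(N i) := fun i =>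
    (haA i).trans (mul_le_mul_of_nonneg_right (le_abs_self A) (Real.sqrt_nonneg _))
  set C₁ : ℝ := 12 * (|A| + 1 / 2) ^ 2 + 1 with hC₁
  have hlog : ∀ i (s : ℂ), 3 / 2 ≤ s.re → eden (N i) (a i) (good i) s ≠ 0 ∧
      ‖a9E N a good i s‖ ≤ C₁ / (N i : ℝ) ^ 2 := fun i s hs =>
    (h6 (N i) (a i) (good i) |A| (hN.1 i) (haN i) (hA' i)).1 s hs
  have hsum := a9_summable h7 hN C₁
  refine ⟨∑' i, C₁ / (N i : ℝ) ^ 2, fun x t hx _ => ?_⟩
  set s : ℂ := 3 / 2 + x + t * Complex.I with hs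
  have hsre : 3 / 2 ≤ s.re := by
    have : s.re = 3 / 2 + x := by simp [hs]
    rw [this]
    linarith
  have hS : Summable fun i => (a i : ℂ) * (N i : ℂ) ^ (-s) :=
    Z2.summable_main h7 hN haA x t hx
  have hE : Summable fun i => a9E N a good i s :=
    Summable.of_norm_bounded hsum fun i => (hlog i s hsre).2
  have hhs := hS.hasSum.add hE.hasSum
  have hfun : (fun i => (a i : ℂ) * (N i : ℂ) ^ (-s) + a9E N a good i s) =
      fun i => -Complex.log (eden (N i) (a i) (good i) s) := by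
    funext i
    rw [a9E]
    ring
  rw [hfun] at hhs
  have hprod := hhs.cexp
  have hfun2 : (Complex.exp ∘ fun i => -Complex.log (eden (N i) (a i) (good i) s)) =
      fun i => (eden (N i) (a i) (good i) s)⁻¹ := by
    funext i
    simp only [Function.comp_apply]
    rw [Complex.exp_neg, Complex.exp_log (hlog i s hsre).1]
  rw [hfun2] at hprod
  rw [hprod.tprod_eq, Complex.norm_exp, Real.log_exp, Complex.add_re, Complex.re_tsum hS]
  have h1 : ∑' i, ((a i : ℂ) * (N i : ℂ) ^ (-s)).re =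
      ∑' i, (a i : ℝ) * (N i : ℝ) ^ (-(3 / 2 + x)) * Real.cos (t * Real.log (N i)) := by
    refine tsum_congr fun i => ?_
    have h2 : ((a i : ℂ) * (N i : ℂ) ^ (-s)).re = (a i : ℝ) * ((N i : ℂ) ^ (-s)).re := by
      rw [Complex.mul_re]
      simp
    rw [h2, hs, Z2.cpow_re (N i) (hN.1 i) x t]
    ring
  rw [h1, add_sub_cancel_left]
  refine (Complex.abs_re_le_norm _).trans ?_
  exact tsum_of_norm_bounded hsum.hasSum fun i => (hlog i s hsre).2

end MP7ed9c3
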