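import Pool.Agent.Lib.MP_7ed9c3_nt.SpecZ
import Pool.Agent.Lib.MP_7ed9c3_nt.N1

/-!
# MP_7ed9c3_nt: Z3, primes of degree one and the others
-/

namespace MP7ed9c3

open NumberField IsDedekindDomain Filter Topology

open Classical in
theorem Z3.card_over {K : Type} [Field K] [NumberField K] {p : ℕ} (hp : p.Prime) :
    (IsDedekindDomain.primesOverFinset (Ideal.span {(p : ℤ)}) (𝓞 K)).card ≤
      Module.finrank ℚ K := by
  have hp0 : Ideal.span {(p : ℤ)} ≠ ⊥ := by
    rw [Ne, Ideal.span_singleton_eq_bot]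
    exact_mod_cast hp.ne_zero
  have hpr : Prime (p : ℤ) := Nat.prime_iff_prime_int.mp hp
  have h1 : (Ideal.span {(p : ℤ)}).IsPrime :=
    (Ideal.span_singleton_prime hpr.ne_zero).mpr hpr
  have hmax : (Ideal.span {(p : ℤ)}).IsMaximal := h1.isMaximal hp0
  exact Ideal.card_primesOverFinset_le_finrank (𝓞 K) ℚ K hp0

/-- The norm of a prime over `p` is a power of `p`. -/
theorem Z3.nm_pow {K : Type} [Field K] [NumberField K] (v : HeightOneSpectrum (𝓞 K)) {p : ℕ}
    (hp : p.Prime) (h : ((p : ℕ) : 𝓞 K) ∈ v.asIdeal) : ∃ f : ℕ, nm v = p ^ f := by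
  have h1 : nm v ∣ p ^ Module.finrank ℤ (𝓞 K) := by
    have h2 : Ideal.span {((p : ℕ) : 𝓞 K)} ≤ v.asIdeal := by
      rw [Ideal.span_singleton_le_iff_mem]
      exact h
    have h3 := Ideal.absNorm_dvd_absNorm_of_le h2
    have h4 : Ideal.absNorm (Ideal.span {((p : ℕ) : 𝓞 K)}) = p ^ Module.finrank ℤ (𝓞 K) := by
      rw [Ideal.absNorm_span_singleton]
      have h5 : ((p : ℕ) : 𝓞 K) = algebraMap ℤ (𝓞 K) (p : ℤ) := by simp
      rw [h5, Algebra.norm_algebraMap, Int.natAbs_pow, Int.natAbs_natCast]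
    rw [h4] at h3
    exact h3
  obtain ⟨f, -, hf⟩ := (Nat.dvd_prime_pow hp).mp h1
  exact ⟨f, hf⟩

theorem Z3.exists_sq {K : Type} [Field K] [NumberField K] (v : HeightOneSpectrum (𝓞 K))
    (hv : ¬ (nm v).Prime) : ∃ p : ℕ, p.Prime ∧ ((p : ℕ) : 𝓞 K) ∈ v.asIdeal ∧ p ^ 2 ≤ nm v := by
  obtain ⟨h2, p, hp, -, hm⟩ := N1.exists_prime v
  refine ⟨p, hp, hm, ?_⟩
  obtain ⟨f, hf⟩ := Z3.nm_pow v hp hm
  rw [hf]
  rcases f with _ | _ | f
  · rw [hf] at h2
    simp at h2
  · rw [hf] at hv
    simp only [zero_add, pow_one] at hv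
    exact absurd hp hv
  · exact Nat.pow_le_pow_right hp.pos (by omega)

open Classical in
theorem degreeOne : DegreeOne := by
  intro K _ _
  have hinj : Function.Injective (fun v : HeightOneSpectrum (𝓞 K) => v.asIdeal) :=
    fun v w h => HeightOneSpectrum.ext h
  refine ⟨?_, ?_⟩
  · choose P hP hPm hPs using fun v : {v : HeightOneSpectrum (𝓞 K) // ¬ (nm v).Prime} =>
      Z3.exists_sq v.1 v.2
    have hsum : Summable fun k : ℕ => 1 / (k : ℝ) ^ 2 :=
      Real.summable_one_div_nat_pow.mpr (by norm_num)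
    apply summable_of_sum_le (c := Module.finrank ℚ K * ∑' k : ℕ, 1 / (k : ℝ) ^ 2)
    · intro v
      positivity
    · intro s
      have h1 : ∑ v ∈ s, 1 / (nm v.1 : ℝ) ≤ ∑ v ∈ s, 1 / (P v : ℝ) ^ 2 := by
        refine Finset.sum_le_sum fun v _ => ?_
        have hpos : (0 : ℝ) < P v := by exact_mod_cast (hP v).pos
        apply one_div_le_one_div_of_le (by positivity)
        exact_mod_cast hPs v
      have h2 : ∑ v ∈ s, 1 / (P v : ℝ) ^ 2 =
          ∑ p ∈ s.image P, ∑ v ∈ s.filter (fun v => P v = p), 1 / (P v : ℝ) ^ 2 :=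
        (Finset.sum_fiberwise_of_maps_to (fun v hv => Finset.mem_image_of_mem P hv) _).symm
      have h3 : ∀ p ∈ s.image P, ∑ v ∈ s.filter (fun v => P v = p), 1 / (P v : ℝ) ^ 2 ≤
          Module.finrank ℚ K * (1 / (p : ℝ) ^ 2) := by
        intro p hp
        obtain ⟨v₀, -, rfl⟩ := Finset.mem_image.mp hp
        have h4 : ∑ v ∈ s.filter (fun v => P v = P v₀), 1 / (P v : ℝ) ^ 2 =
            ∑ v ∈ s.filter (fun v => P v = P v₀), 1 / (P v₀ : ℝ) ^ 2 := by
          refine Finset.sum_congr rfl fun v hv => ?_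
          rw [(Finset.mem_filter.mp hv).2]
        rw [h4, Finset.sum_const, nsmul_eq_mul]
        apply mul_le_mul_of_nonneg_right _ (by positivity)
        have h5 : (s.filter (fun v => P v = P v₀)).card ≤
            (IsDedekindDomain.primesOverFinset (Ideal.span {((P v₀ : ℕ) : ℤ)}) (𝓞 K)).card := by
          refine Finset.card_le_card_of_injOn (fun v => v.1.asIdeal) ?_ ?_
          · intro v hv
            have hv' := (Finset.mem_filter.mp hv).2
            have := N1.mem_over v.1 (hP v) (hPm v)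
            rw [hv'] at this
            exact this
          · intro v _ w _ h
            exact Subtype.ext (hinj h)
        exact_mod_cast h5.trans (Z3.card_over (hP v₀))
      refine h1.trans (h2.le.trans ((Finset.sum_le_sum h3).trans ?_))
      rw [← Finset.mul_sum]
      apply mul_le_mul_of_nonneg_left _ (Nat.cast_nonneg _)
      exact hsum.sum_le_tsum _ fun k _ => by positivity
  · intro p hp
    have hsub : (fun v : HeightOneSpectrum (𝓞 K) => v.asIdeal) ''
        {v : HeightOneSpectrum (𝓞 K) | nm v = p} ⊆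
        (IsDedekindDomain.primesOverFinset (Ideal.span {(p : ℤ)}) (𝓞 K) :
          Set (Ideal (𝓞 K))) := by
      rintro _ ⟨v, hv, rfl⟩
      have hv' : nm v = p := hv
      have hmem : ((nm v : ℕ) : 𝓞 K) ∈ v.asIdeal := Ideal.absNorm_mem v.asIdeal
      rw [hv'] at hmem
      exact N1.mem_over v hp hmem
    have hfin : ((fun v : HeightOneSpectrum (𝓞 K) => v.asIdeal) ''
        {v : HeightOneSpectrum (𝓞 K) | nm v = p}).Finite :=
      (Finset.finite_toSet _).subset hsub
    refine ⟨Set.Finite.of_finite_image hfin hinj.injOn, ?_⟩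
    rw [← Set.ncard_image_of_injective _ hinj]
    refine (Set.ncard_le_ncard hsub (Finset.finite_toSet _)).trans ?_
    rw [Set.ncard_coe_finset]
    exact Z3.card_over hp

end MP7ed9c3
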