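import Pool.Agent.Lib.MP_7ed9c3_nt.SpecZ

/-!
# MP_7ed9c3_nt, Z4: Bessel's inequality
-/

namespace MP7ed9c3

open NumberField IsDedekindDomain Filter Topology

theorem Z4.cos_sum (T : Finset ℝ) (c : ℝ → ℝ) (b l : ℝ) :
    0 ≤ b ^ 2 - 2 * (∑ t ∈ T, c t * (b * Real.cos (t * l))) +
      ∑ t ∈ T, ∑ t' ∈ T, c t * c t' * Real.cos ((t - t') * l) := by
  have h1 : ∑ t ∈ T, ∑ t' ∈ T, c t * c t' * Real.cos ((t - t') * l) =
      (∑ t ∈ T, c t * Real.cos (t * l)) ^ 2 + (∑ t ∈ T, c t * Real.sin (t * l)) ^ 2 := by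
    rw [sq, sq, Finset.sum_mul_sum, Finset.sum_mul_sum, ← Finset.sum_add_distrib]
    refine Finset.sum_congr rfl fun t _ => ?_
    rw [← Finset.sum_add_distrib]
    refine Finset.sum_congr rfl fun t' _ => ?_
    rw [sub_mul, Real.cos_sub]
    ring
  have h2 : ∑ t ∈ T, c t * (b * Real.cos (t * l)) = b * ∑ t ∈ T, c t * Real.cos (t * l) := by
    rw [Finset.mul_sum]
    exact Finset.sum_congr rfl fun t _ => by ring
  rw [h1, h2]
  nlinarith [sq_nonneg (b - ∑ t ∈ T, c t * Real.cos (t * l)),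
    sq_nonneg (∑ t ∈ T, c t * Real.sin (t * l))]

theorem Z4.w_sum {x : ℝ} (hx : 0 < x) : Summable fun p : Nat.Primes => (p : ℝ) ^ (-(1 + x)) :=
  Nat.Primes.summable_rpow.mpr (by linarith)

theorem Z4.w_nonneg (x : ℝ) (p : Nat.Primes) : 0 ≤ (p : ℝ) ^ (-(1 + x)) := by positivity

theorem Z4.w_le_one {x : ℝ} (hx : 0 < x) (p : Nat.Primes) : (p : ℝ) ^ (-(1 + x)) ≤ 1 := by
  have hp : (1 : ℝ) ≤ (p : ℝ) := by exact_mod_cast p.2.one_lt.le
  exact Real.rpow_le_one_of_one_le_of_nonpos hp (by linarith)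

theorem Z4.sum_bdd {x : ℝ} (hx : 0 < x) (f : Nat.Primes → ℝ) (B : ℝ) (hB : ∀ p, |f p| ≤ B) :
    Summable fun p : Nat.Primes => (p : ℝ) ^ (-(1 + x)) * f p := by
  refine Summable.of_norm_bounded ((Z4.w_sum hx).mul_right B) fun p => ?_
  rw [norm_mul, Real.norm_eq_abs, Real.norm_eq_abs, abs_of_nonneg (Z4.w_nonneg x p)]
  exact mul_le_mul_of_nonneg_left (hB p) (Z4.w_nonneg x p)

theorem Z4.key {x : ℝ} (hx : 0 < x) (T : Finset ℝ) (c : ℝ → ℝ) (β : Nat.Primes → ℝ) (B : ℝ)
    (hB : ∀ p, |β p| ≤ B) :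
    0 ≤ (∑' p : Nat.Primes, (p : ℝ) ^ (-(1 + x)) * β p ^ 2) -
      2 * (∑ t ∈ T, c t *
        ∑' p : Nat.Primes, β p * (p : ℝ) ^ (-(1 + x)) * Real.cos (t * Real.log p)) +
      ∑ t ∈ T, ∑ t' ∈ T, c t * c t' * primeCos x (t - t') := by
  have h1 : HasSum (fun p : Nat.Primes => (p : ℝ) ^ (-(1 + x)) * β p ^ 2)
      (∑' p : Nat.Primes, (p : ℝ) ^ (-(1 + x)) * β p ^ 2) := by
    refine (Z4.sum_bdd hx _ (B ^ 2) fun p => ?_).hasSum
    rw [abs_of_nonneg (sq_nonneg _), ← sq_abs]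
    exact pow_le_pow_left₀ (abs_nonneg _) (hB p) 2
  have h2 : ∀ t : ℝ, HasSum
      (fun p : Nat.Primes => β p * (p : ℝ) ^ (-(1 + x)) * Real.cos (t * Real.log p))
      (∑' p : Nat.Primes, β p * (p : ℝ) ^ (-(1 + x)) * Real.cos (t * Real.log p)) := by
    intro t
    have := Z4.sum_bdd hx (fun p : Nat.Primes => β p * Real.cos (t * Real.log p)) B (fun p => by
      rw [abs_mul]
      calc |β p| * |Real.cos (t * Real.log p)| ≤ |β p| * 1 :=
            mul_le_mul_of_nonneg_left (Real.abs_cos_le_one _) (abs_nonneg _)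
        _ ≤ B := by rw [mul_one]; exact hB p)
    refine Summable.hasSum (this.congr fun p => ?_)
    ring
  have h3 : ∀ τ : ℝ, HasSum
      (fun p : Nat.Primes => (p : ℝ) ^ (-(1 + x)) * Real.cos (τ * Real.log p))
      (primeCos x τ) := by
    intro τ
    exact (Z4.sum_bdd hx _ 1 fun p => Real.abs_cos_le_one _).hasSum
  have h4 := (h1.sub ((hasSum_sum (s := T) fun t _ => (h2 t).mul_left (c t)).mul_left 2)).add
    (hasSum_sum (s := T) fun t _ => hasSum_sum (s := T) fun t' _ =>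
      (h3 (t - t')).mul_left (c t * c t'))
  refine h4.nonneg fun p => ?_
  have h5 := Z4.cos_sum T c (β p) (Real.log p)
  have h6 := mul_nonneg (Z4.w_nonneg x p) h5
  refine le_trans h6 (le_of_eq ?_)
  rw [mul_add, mul_sub]
  congr 1
  · congr 1
    rw [mul_left_comm, Finset.mul_sum]
    congr 1
    exact Finset.sum_congr rfl fun t _ => by ring
  · rw [Finset.mul_sum]
    refine Finset.sum_congr rfl fun t _ => ?_
    rw [Finset.mul_sum]
    exact Finset.sum_congr rfl fun t' _ => by ring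

theorem bessel (z1 : ZetaCos) : Bessel := by
  intro β D S T ε g hβ hg hε
  obtain ⟨⟨C0, hC0⟩, hτ⟩ := z1
  -- a bound for all `β p`
  set B : ℝ := |D| + ∑ p ∈ S, |β p| with hBdef
  have hB : ∀ p, |β p| ≤ B := by
    intro p
    by_cases hp : p ∈ S
    · have := Finset.single_le_sum (f := fun p => |β p|) (fun q _ => abs_nonneg (β q)) hp
      have h0 := abs_nonneg D
      linarith
    · have h1 := hβ p hp
      have h2 : 0 ≤ ∑ p ∈ S, |β p| := Finset.sum_nonneg fun q _ => abs_nonneg _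
      have h3 := le_abs_self D
      linarith
  -- constants
  have hgc : ∃ Cg : ℝ → ℝ, ∀ t ∈ T, ∀ x : ℝ, 0 < x → x ≤ 1 →
      |g t x - ∑' p : Nat.Primes, β p * (p : ℝ) ^ (-(1 + x)) * Real.cos (t * Real.log p)| ≤
        Cg t := by
    choose! Cg hCg using hg
    exact ⟨Cg, hCg⟩
  obtain ⟨Cg, hCg⟩ := hgc
  have hcc : ∃ Cc : ℝ → ℝ, ∀ τ : ℝ, τ ≠ 0 → ∀ x : ℝ, 0 < x → x ≤ 1 → |primeCos x τ| ≤ Cc τ := by
    choose! Cc hCc using hτ
    exact ⟨Cc, hCc⟩
  obtain ⟨Cc, hCc⟩ := hcc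
  set E : ℝ := ∑ t ∈ T, ε t ^ 2 with hE
  set K : ℝ := (D ^ 2 + E) * C0 + (∑ p ∈ S, β p ^ 2) +
    (∑ t ∈ T, ∑ t' ∈ T, if t = t' then 0 else ε t * ε t' * Cc (t - t')) +
    2 * ∑ t ∈ T, ε t * Cg t with hK
  have hE0 : 0 ≤ E := Finset.sum_nonneg fun t _ => sq_nonneg _
  have main : ∀ᶠ x : ℝ in 𝓝[>] 0, (E - D ^ 2) * Real.log (1 / x) ≤ K := by
    have hev : ∀ᶠ x : ℝ in 𝓝[>] 0, ∀ t ∈ T, ε t * Real.log (1 / x) ≤ |g t x| := by
      rw [Filter.eventually_all_finset]
      exact fun t ht => (hε t ht).2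
    have h01 : ∀ᶠ x : ℝ in 𝓝[>] 0, x ∈ Set.Ioc (0 : ℝ) 1 := Ioc_mem_nhdsGT zero_lt_one
    filter_upwards [hev, h01] with x hx hx01
    obtain ⟨hx0, hx1⟩ := hx01
    set c : ℝ → ℝ := fun t => if 0 ≤ g t x then ε t else -ε t with hc
    have hc2 : ∀ t, c t ^ 2 = ε t ^ 2 := by
      intro t
      simp only [hc]
      split_ifs <;> ring
    have hcabs : ∀ t ∈ T, |c t| = ε t := by
      intro t ht
      simp only [hc]
      split_ifs
      · exact abs_of_nonneg (hε t ht).1
      · rw [abs_neg]; exact abs_of_nonneg (hε t ht).1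
    have hcg : ∀ t, c t * g t x = ε t * |g t x| := by
      intro t
      simp only [hc]
      split_ifs with h
      · rw [abs_of_nonneg h]
      · rw [abs_of_neg (not_le.mp h)]; ring
    have hkey := Z4.key hx0 T c β B hB
    -- first term
    have t1 : (∑' p : Nat.Primes, (p : ℝ) ^ (-(1 + x)) * β p ^ 2) ≤
        D ^ 2 * (Real.log (1 / x) + C0) + ∑ p ∈ S, β p ^ 2 := by
      have hs1 : Summable fun p : Nat.Primes => (p : ℝ) ^ (-(1 + x)) * β p ^ 2 := by
        refine Z4.sum_bdd hx0 _ (B ^ 2) fun p => ?_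
        rw [abs_of_nonneg (sq_nonneg _), ← sq_abs]
        exact pow_le_pow_left₀ (abs_nonneg _) (hB p) 2
      have hs2 : HasSum (fun p : Nat.Primes => (p : ℝ) ^ (-(1 + x)) * Real.cos (0 * Real.log p))
          (primeCos x 0) :=
        (Z4.sum_bdd hx0 _ 1 fun p => Real.abs_cos_le_one _).hasSum
      have hs3 : HasSum (fun p : Nat.Primes => if p ∈ S then β p ^ 2 else 0)
          (∑ p ∈ S, β p ^ 2) := by
        have h' : ∑ p ∈ S, (if p ∈ S then β p ^ 2 else 0) = ∑ p ∈ S, β p ^ 2 :=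
          Finset.sum_congr rfl fun p hp => by simp [hp]
        rw [← h']
        exact hasSum_sum_of_ne_finset_zero fun p hp => by simp [hp]
      have hs4 := (hs2.mul_left (D ^ 2)).add hs3
      have hle : (∑' p : Nat.Primes, (p : ℝ) ^ (-(1 + x)) * β p ^ 2) ≤
          D ^ 2 * primeCos x 0 + ∑ p ∈ S, β p ^ 2 := by
        refine hasSum_le (fun p => ?_) hs1.hasSum hs4
        have hw0 := Z4.w_nonneg x p
        have hw1 := Z4.w_le_one hx0 p
        simp only [zero_mul, Real.cos_zero, mul_one]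
        by_cases hp : p ∈ S
        · simp only [hp, if_true]
          have : (p : ℝ) ^ (-(1 + x)) * β p ^ 2 ≤ 1 * β p ^ 2 :=
            mul_le_mul_of_nonneg_right hw1 (sq_nonneg _)
          have : 0 ≤ D ^ 2 * (p : ℝ) ^ (-(1 + x)) := mul_nonneg (sq_nonneg _) hw0
          linarith
        · simp only [hp, if_false, add_zero]
          have h1 := hβ p hp
          have h2 : β p ^ 2 ≤ D ^ 2 := by
            rw [← sq_abs (β p)]
            exact pow_le_pow_left₀ (abs_nonneg _) h1 2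
          calc (p : ℝ) ^ (-(1 + x)) * β p ^ 2 ≤ (p : ℝ) ^ (-(1 + x)) * D ^ 2 :=
                mul_le_mul_of_nonneg_left h2 hw0
            _ = D ^ 2 * (p : ℝ) ^ (-(1 + x)) := mul_comm _ _
      have := mul_le_mul_of_nonneg_left (hC0 x hx0 hx1) (sq_nonneg D)
      linarith
    -- second term
    have t2 : E * Real.log (1 / x) - ∑ t ∈ T, ε t * Cg t ≤ ∑ t ∈ T, c t *
        ∑' p : Nat.Primes, β p * (p : ℝ) ^ (-(1 + x)) * Real.cos (t * Real.log p) := by
      rw [hE, Finset.sum_mul, ← Finset.sum_sub_distrib]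
      refine Finset.sum_le_sum fun t ht => ?_
      have h1 := hCg t ht x hx0 hx1
      have h2 := hx t ht
      have h3 := hcg t
      have h4 := (hε t ht).1
      set Sx : ℝ := ∑' p : Nat.Primes, β p * (p : ℝ) ^ (-(1 + x)) * Real.cos (t * Real.log p)
      have h5 : |c t * (g t x - Sx)| ≤ ε t * Cg t := by
        rw [abs_mul, hcabs t ht]
        exact mul_le_mul_of_nonneg_left h1 h4
      have h6 := (abs_le.mp h5).2
      have h7 : ε t * (ε t * Real.log (1 / x)) ≤ ε t * |g t x| :=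
        mul_le_mul_of_nonneg_left h2 h4
      have h8 : c t * (g t x - Sx) = c t * g t x - c t * Sx := by ring
      rw [h8, h3] at h6
      have h9 : ε t ^ 2 * Real.log (1 / x) = ε t * (ε t * Real.log (1 / x)) := by ring
      rw [h9]
      linarith
    -- third term
    have t3 : ∑ t ∈ T, ∑ t' ∈ T, c t * c t' * primeCos x (t - t') ≤
        E * (Real.log (1 / x) + C0) +
        ∑ t ∈ T, ∑ t' ∈ T, (if t = t' then 0 else ε t * ε t' * Cc (t - t')) := by
      rw [hE, Finset.sum_mul, ← Finset.sum_add_distrib]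
      refine Finset.sum_le_sum fun t ht => ?_
      have h1 : ∀ t' ∈ T, c t * c t' * primeCos x (t - t') ≤
          (if t = t' then ε t ^ 2 * (Real.log (1 / x) + C0) else 0) +
          (if t = t' then 0 else ε t * ε t' * Cc (t - t')) := by
        intro t' ht'
        by_cases h : t = t'
        · subst h
          simp only [if_true, sub_self, add_zero]
          have h2 : c t * c t = ε t ^ 2 := by rw [← sq]; exact hc2 t
          rw [h2]
          exact mul_le_mul_of_nonneg_left (hC0 x hx0 hx1) (sq_nonneg _)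
        · simp only [h, if_false, zero_add]
          have h2 := hCc (t - t') (sub_ne_zero.mpr h) x hx0 hx1
          refine le_trans (le_abs_self _) ?_
          rw [abs_mul, abs_mul, hcabs t ht, hcabs t' ht']
          exact mul_le_mul_of_nonneg_left h2 (mul_nonneg (hε t ht).1 (hε t' ht').1)
      refine le_trans (Finset.sum_le_sum h1) ?_
      rw [Finset.sum_add_distrib, Finset.sum_ite_eq]
      simp only [ht, if_true, le_refl]
    have : (D ^ 2 + E) * C0 = D ^ 2 * C0 + E * C0 := by ring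
    rw [hK, this]
    nlinarith [hkey, t1, t2, t3]
  by_contra hcon
  push Not at hcon
  have hpos : 0 < E - D ^ 2 := by linarith
  have hlim : Tendsto (fun x : ℝ => (E - D ^ 2) * Real.log (1 / x)) (𝓝[>] 0) atTop := by
    refine Tendsto.const_mul_atTop hpos ?_
    have h1 : Tendsto (fun x : ℝ => 1 / x) (𝓝[>] 0) atTop := by
      simpa only [one_div] using tendsto_inv_nhdsGT_zero (𝕜 := ℝ)
    exact Real.tendsto_log_atTop.comp h1
  have hgt := hlim.eventually (eventually_gt_atTop K)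
  obtain ⟨x, hx1, hx2⟩ := (main.and hgt).exists
  linarith

end MP7ed9c3
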