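import Pool.Agent.Lib.MP_7ed9c3_nt.SpecZ
import Pool.Agent.Lib.MP_7ed9c3_nt.A7
import Pool.Agent.Lib.MP_7ed9c3_nt.N5

/-!
# MP_7ed9c3_nt: Z5, few exceptional points
-/

namespace MP7ed9c3

open NumberField IsDedekindDomain Filter Topology

namespace Z5

/-- the indices with norm `p` -/
abbrev Fib {ι : Type} (N : ι → ℕ) (p : Nat.Primes) : Type :=
  {w : {i : ι // (N i).Prime} // (⟨N w.1, w.2⟩ : Nat.Primes) = p}

/-- the normalized coefficients -/
noncomputable def beta {ι : Type} (N : ι → ℕ) (a : ι → ℤ) (p : Nat.Primes) : ℝ :=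
  (p : ℝ) ^ (-(1 / 2) : ℝ) * ∑' w : Fib N p, (a w.1.1 : ℝ)

/-- the term of the sum over primes -/
noncomputable def term {ι : Type} (N : ι → ℕ) (a : ι → ℤ) (x t : ℝ) (i : ι) : ℝ :=
  (a i : ℝ) * (N i : ℝ) ^ (-(3 / 2 + x)) * Real.cos (t * Real.log (N i))

theorem abs_term {ι : Type} {N : ι → ℕ} (hN : ∀ i, 2 ≤ N i) {a : ι → ℤ} {A : ℝ}
    (ha : ∀ i, |(a i : ℝ)| ≤ A * √(N i)) (x t : ℝ) (i : ι) :
    |term N a x t i| ≤ A * (N i : ℝ) ^ (-(1 + x)) := by
  have hN0 : (0 : ℝ) < N i := by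
    have := hN i
    exact_mod_cast (by omega : 0 < N i)
  unfold term
  rw [abs_mul, abs_mul, abs_of_pos (Real.rpow_pos_of_pos hN0 _)]
  have h1 : √(N i : ℝ) * (N i : ℝ) ^ (-(3 / 2 + x)) = (N i : ℝ) ^ (-(1 + x)) := by
    rw [Real.sqrt_eq_rpow, ← Real.rpow_add hN0]
    congr 1
    ring
  calc |(a i : ℝ)| * (N i : ℝ) ^ (-(3 / 2 + x)) * |Real.cos (t * Real.log (N i))|
      ≤ |(a i : ℝ)| * (N i : ℝ) ^ (-(3 / 2 + x)) * 1 :=
        mul_le_mul_of_nonneg_left (Real.abs_cos_le_one _) (by positivity)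
    _ ≤ (A * √(N i)) * (N i : ℝ) ^ (-(3 / 2 + x)) := by
        rw [mul_one]
        exact mul_le_mul_of_nonneg_right (ha i) (by positivity)
    _ = A * (N i : ℝ) ^ (-(1 + x)) := by rw [← h1]; ring

theorem regroup {ι : Type} {N : ι → ℕ} {C : ℝ} (hS : Sparse N C) {a : ι → ℤ} {A : ℝ}
    (hA : 0 ≤ A) (ha : ∀ i, |(a i : ℝ)| ≤ A * √(N i))
    (h3 : Summable fun i : {i : ι // ¬ (N i).Prime} => 1 / (N i.1 : ℝ))
    {x : ℝ} (hx : 0 < x) (t : ℝ) :
    |∑' i, term N a x t i -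
      ∑' p : Nat.Primes, beta N a p * (p : ℝ) ^ (-(1 + x)) * Real.cos (t * Real.log p)| ≤
      A * ∑' i : {i : ι // ¬ (N i).Prime}, 1 / (N i.1 : ℝ) := by
  classical
  have hN := hS.1
  have hsum : Summable (term N a x t) := by
    refine Summable.of_norm_bounded (((sparseSums ι N C hS).2.1 x hx).mul_left A) fun i => ?_
    rw [Real.norm_eq_abs]
    exact abs_term hN ha x t i
  have e1 := hsum.tsum_subtype_add_tsum_subtype_compl {i | (N i).Prime}
  set f : {i : ι // (N i).Prime} → Nat.Primes := fun w => ⟨N w.1, w.2⟩ with hf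
  have e2 : ∑' i : {i : ι // (N i).Prime}, term N a x t i.1 =
      ∑' p : Nat.Primes, beta N a p * (p : ℝ) ^ (-(1 + x)) * Real.cos (t * Real.log p) := by
    have hs1 : Summable fun i : {i : ι // (N i).Prime} => term N a x t i.1 :=
      hsum.subtype {i | (N i).Prime}
    rw [← (Equiv.sigmaFiberEquiv f).tsum_eq]
    have hs2 : Summable fun c : (Σ p : Nat.Primes, {w // f w = p}) =>
        term N a x t ((Equiv.sigmaFiberEquiv f) c).1 :=
      (Equiv.sigmaFiberEquiv f).summable_iff.2 hs1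
    rw [hs2.tsum_sigma]
    refine tsum_congr fun p => ?_
    have hp0 : (0 : ℝ) < (p : ℕ) := by exact_mod_cast p.2.pos
    have e3 : ∀ w : {w // f w = p}, term N a x t ((Equiv.sigmaFiberEquiv f) ⟨p, w⟩).1 =
        (a w.1.1 : ℝ) * (((p : ℕ) : ℝ) ^ (-(3 / 2 + x)) * Real.cos (t * Real.log (p : ℕ))) := by
      intro w
      have hw : N w.1.1 = (p : ℕ) := by
        have := congrArg Subtype.val w.2
        simpa [hf] using this
      show term N a x t w.1.1 = _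
      unfold term
      rw [hw, mul_assoc]
    rw [tsum_congr e3, tsum_mul_right]
    have e4 : ((p : ℕ) : ℝ) ^ (-(3 / 2 + x)) =
        ((p : ℕ) : ℝ) ^ (-(1 / 2) : ℝ) * ((p : ℕ) : ℝ) ^ (-(1 + x)) := by
      rw [← Real.rpow_add hp0]
      congr 1
      ring
    rw [e4]
    unfold beta
    have e6 : ∑' w : Fib N p, (a w.1.1 : ℝ) = ∑' w : {w // f w = p}, (a w.1.1 : ℝ) := rfl
    rw [e6]
    ring
  have e5 : ∑' i, term N a x t i -
      ∑' p : Nat.Primes, beta N a p * (p : ℝ) ^ (-(1 + x)) * Real.cos (t * Real.log p) =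
      ∑' i : {i : ι // ¬ (N i).Prime}, term N a x t i.1 := by
    rw [← e2, ← e1]
    have : ∑' i : {i : ι // (N i).Prime}, term N a x t i.1 =
      ∑' i : ({i | (N i).Prime} : Set ι), term N a x t i.1 := rfl
    rw [this, add_sub_cancel_left]
    rfl
  rw [e5, ← tsum_mul_left]
  have hb : ∀ i : {i : ι // ¬ (N i).Prime}, |term N a x t i.1| ≤ A * (1 / (N i.1 : ℝ)) := by
    intro i
    refine (abs_term hN ha x t i.1).trans (mul_le_mul_of_nonneg_left ?_ hA)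
    have hN1 : (1 : ℝ) ≤ N i.1 := by
      have := hN i.1
      exact_mod_cast (by omega : 1 ≤ N i.1)
    rw [one_div, ← Real.rpow_neg_one]
    exact Real.rpow_le_rpow_of_exponent_le hN1 (by linarith)
  have h4 : Summable fun i : {i : ι // ¬ (N i).Prime} => A * (1 / (N i.1 : ℝ)) := h3.mul_left A
  have h5 : Summable fun i : {i : ι // ¬ (N i).Prime} => |term N a x t i.1| :=
    Summable.of_nonneg_of_le (fun _ => abs_nonneg _) hb h4
  have h6 := norm_tsum_le_tsum_norm (f := fun i : {i : ι // ¬ (N i).Prime} => term N a x t i.1)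
    (by simpa [Real.norm_eq_abs] using h5)
  simp only [Real.norm_eq_abs] at h6
  exact h6.trans (h5.tsum_le_tsum hb h4)

theorem abs_beta {ι : Type} {N : ι → ℕ} {a : ι → ℤ} {n : ℕ} (p : Nat.Primes)
    (hfin : {i | N i = (p : ℕ)}.Finite) (hcard : {i | N i = (p : ℕ)}.ncard ≤ n)
    (ha : ∀ i, N i = (p : ℕ) → |(a i : ℝ)| ≤ 2 * √((p : ℕ) : ℝ)) :
    |beta N a p| ≤ 2 * n := by
  classical
  have hp0 : (0 : ℝ) < (p : ℕ) := by exact_mod_cast p.2.pos
  have hw : ∀ w : Fib N p, N w.1.1 = (p : ℕ) := fun w => by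
    have := congrArg Subtype.val w.2
    simpa using this
  set φ : Fib N p → {i | N i = (p : ℕ)} := fun w => ⟨w.1.1, hw w⟩ with hφ
  have hinj : Function.Injective φ := by
    intro w w' h
    have := congrArg Subtype.val h
    exact Subtype.ext (Subtype.ext this)
  have : Finite {i | N i = (p : ℕ)} := hfin
  have : Finite (Fib N p) := Finite.of_injective φ hinj
  have : Fintype (Fib N p) := Fintype.ofFinite _
  have hc : Fintype.card (Fib N p) ≤ n := by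
    rw [← Nat.card_eq_fintype_card]
    refine (Nat.card_le_card_of_injective φ hinj).trans ?_
    exact hcard
  unfold beta
  rw [tsum_fintype, abs_mul, abs_of_pos (Real.rpow_pos_of_pos hp0 _)]
  have h1 : |∑ w : Fib N p, (a w.1.1 : ℝ)| ≤ n * (2 * √((p : ℕ) : ℝ)) := by
    refine (Finset.abs_sum_le_sum_abs _ _).trans ?_
    refine (Finset.sum_le_card_nsmul _ _ (2 * √((p : ℕ) : ℝ)) fun w _ => ha _ (hw w)).trans ?_
    rw [nsmul_eq_mul, Finset.card_univ]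
    refine mul_le_mul_of_nonneg_right ?_ (by positivity)
    exact_mod_cast hc
  have h2 : ((p : ℕ) : ℝ) ^ (-(1 / 2) : ℝ) * √((p : ℕ) : ℝ) = 1 := by
    rw [Real.sqrt_eq_rpow, ← Real.rpow_add hp0]
    norm_num
  calc ((p : ℕ) : ℝ) ^ (-(1 / 2) : ℝ) * |∑ w : Fib N p, (a w.1.1 : ℝ)|
      ≤ ((p : ℕ) : ℝ) ^ (-(1 / 2) : ℝ) * (n * (2 * √((p : ℕ) : ℝ))) :=
        mul_le_mul_of_nonneg_left h1 (by positivity)
    _ = 2 * n * (((p : ℕ) : ℝ) ^ (-(1 / 2) : ℝ) * √((p : ℕ) : ℝ)) := by ring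
    _ = 2 * n := by rw [h2, mul_one]

theorem eden_inst {N : ℕ} {a : ℤ} {p : Prop} (i₁ i₂ : Decidable p) (s : ℂ) :
    @eden N a p i₁ s = @eden N a p i₂ s := by
  rw [Subsingleton.elim i₁ i₂]

theorem trace_const (n2 : ExistsModel) (n3 : GoodData) (n4 : TraceBound)
    {K : Type} [Field K] [NumberField K] {E : WeierstrassCurve K} (hE : E.IsElliptic)
    {M : HeightOneSpectrum (𝓞 K) → WeierstrassCurve (𝓞 K)} (hM : ∀ v, IsMinAt E v (M v)) :
    ∃ S : Set (HeightOneSpectrum (𝓞 K)), S.Finite ∧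
      (∀ v ∉ S, |(tr (M v) v : ℝ)| ≤ 2 * √(nm v)) ∧
      ∃ A : ℝ, 0 ≤ A ∧ ∀ v, |(tr (M v) v : ℝ)| ≤ A * √(nm v) := by
  classical
  obtain ⟨W₀, hΔ, hW₀⟩ := n2 K E hE
  set S : Set (HeightOneSpectrum (𝓞 K)) :=
    {v | W₀.Δ ∈ v.asIdeal ∨ (6 : 𝓞 K) ∈ v.asIdeal} with hSdef
  have h6 : (6 : 𝓞 K) ≠ 0 := by norm_num
  have hSfin : S.Finite := (N5.finite_mem hΔ).union (N5.finite_mem h6)
  have h0 : 0 ≤ ∑ v ∈ hSfin.toFinset, √(nm v : ℝ) :=
    Finset.sum_nonneg fun v _ => Real.sqrt_nonneg _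
  have hgood : ∀ v ∉ S, |(tr (M v) v : ℝ)| ≤ 2 * √(nm v) := by
    intro v hv
    have hv1 : W₀.Δ ∉ v.asIdeal := fun h => hv (Or.inl h)
    have hv2 : (6 : 𝓞 K) ∉ v.asIdeal := fun h => hv (Or.inr h)
    obtain ⟨e1, _⟩ := n3 K E W₀ hW₀ v (M v) hv1 hv2 (hM v)
    exact (n4 K (M v) v).2 e1 hv2
  refine ⟨S, hSfin, hgood, 2 + ∑ v ∈ hSfin.toFinset, √(nm v), by positivity, fun v => ?_⟩
  by_cases hv : v ∈ S
  · have e1 : √(nm v : ℝ) ≤ 2 + ∑ v ∈ hSfin.toFinset, √(nm v) := by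
      have : √(nm v : ℝ) ≤ ∑ v ∈ hSfin.toFinset, √(nm v : ℝ) :=
        Finset.single_le_sum (f := fun v => √(nm v : ℝ))
          (fun v _ => Real.sqrt_nonneg _) (hSfin.mem_toFinset.mpr hv)
      linarith
    have e2 : (nm v : ℝ) = √(nm v : ℝ) * √(nm v : ℝ) :=
      (Real.mul_self_sqrt (Nat.cast_nonneg _)).symm
    calc |(tr (M v) v : ℝ)| ≤ nm v := (n4 K (M v) v).1
      _ = √(nm v : ℝ) * √(nm v : ℝ) := e2
      _ ≤ (2 + ∑ v ∈ hSfin.toFinset, √(nm v)) * √(nm v) :=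
        mul_le_mul_of_nonneg_right e1 (Real.sqrt_nonneg _)
  · exact (hgood v hv).trans
      (mul_le_mul_of_nonneg_right (by linarith) (Real.sqrt_nonneg _))

end Z5

/-- **Z5.** -/
theorem fewPoints (n1 : CountPrimes) (n2 : ExistsModel) (n3 : GoodData) (n4 : TraceBound)
    (z2 : EulerCos) (z3 : DegreeOne) (z4 : Bessel) : FewPoints := by
  classical
  intro K _ _ E hE M hM T ε hT
  obtain ⟨C, hC⟩ := n1 K
  obtain ⟨S, hSfin, hgood, A, hA0, hA⟩ := Z5.trace_const n2 n3 n4 hE hM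
  obtain ⟨hdeg, hover⟩ := z3 K
  obtain ⟨C', hC'⟩ := @z2 (HeightOneSpectrum (𝓞 K)) (fun v => nm v) (fun v => tr (M v) v)
    (fun v => (M v).Δ ∉ v.asIdeal) (fun v => Classical.propDecidable _) C A hC
    (fun v => (n4 K (M v) v).1) hA
  have hPfin : {p : Nat.Primes | ∃ v ∈ S, nm v = (p : ℕ)}.Finite := by
    have h1 : (nm '' S).Finite := hSfin.image nm
    refine (h1.preimage (f := fun p : Nat.Primes => (p : ℕ)) Subtype.val_injective.injOn).subset ?_
    rintro p ⟨v, hv, hvp⟩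
    exact ⟨v, hv, hvp⟩
  have hmain := z4 (Z5.beta (fun v : HeightOneSpectrum (𝓞 K) => nm v) (fun v => tr (M v) v))
    (2 * (Module.finrank ℚ K : ℝ)) hPfin.toFinset T ε
    (fun t x => Real.log ‖∏' v : HeightOneSpectrum (𝓞 K),
          (locDen (M v) v (3 / 2 + x + t * Complex.I))⁻¹‖) ?_ ?_ hT
  · refine hmain.trans (le_of_eq ?_)
    ring
  · intro p hp
    have hp' : ∀ v, nm v = (p : ℕ) → v ∉ S := by
      intro v hv hvS
      exact hp (hPfin.mem_toFinset.2 ⟨v, hvS, hv⟩)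
    obtain ⟨hf, hc⟩ := hover p p.2
    refine Z5.abs_beta p hf hc ?_
    intro v hv
    have := hgood v (hp' v hv)
    rwa [hv] at this
  · intro t ht
    refine ⟨C' + A * ∑' v : {v : HeightOneSpectrum (𝓞 K) // ¬ (nm v).Prime}, 1 / (nm v.1 : ℝ),
      fun x hx hx1 => ?_⟩
    have h1 := hC' x t hx hx1
    have h2 := Z5.regroup hC hA0 hA hdeg hx t
    have h3 : ∏' v : HeightOneSpectrum (𝓞 K), (locDen (M v) v (3 / 2 + x + t * Complex.I))⁻¹ =
        ∏' v : HeightOneSpectrum (𝓞 K), (@eden (nm v) (tr (M v) v) ((M v).Δ ∉ v.asIdeal)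
          (Classical.propDecidable _) (3 / 2 + x + t * Complex.I))⁻¹ := by
      refine tprod_congr fun v => ?_
      unfold locDen
      exact congrArg _ (Z5.eden_inst _ _ _)
    rw [h3]
    refine (abs_sub_le _ (∑' v, Z5.term (fun v : HeightOneSpectrum (𝓞 K) => nm v)
      (fun v => tr (M v) v) x t v) _).trans (add_le_add h1 h2)

end MP7ed9c3
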