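import Pool.Agent.Lib.MP_7ed9c3_nt.SpecZ

/-!
# MP_7ed9c3_nt: Z6, orders of zeros and poles on the boundary line
-/

namespace MP7ed9c3

open NumberField IsDedekindDomain Filter Topology

/-- Growth of `log ‖F‖` to the right of a point of finite order. -/
private lemma Z6.growth (F : ℂ → ℂ) (s : ℂ) (n : ℤ) (h : meromorphicOrderAt F s = n)
    (hF : MeromorphicAt F s) (δ : ℝ) (hδ : 0 < δ) :
    ∀ᶠ x : ℝ in 𝓝[>] 0, max 0 (|(n : ℝ)| - δ) * Real.log (1 / x) ≤
      |Real.log ‖F (s + x)‖| := by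
  obtain ⟨g, hg, hg0, hFg⟩ := (meromorphicOrderAt_eq_int_iff hF).1 h
  -- the path `x ↦ s + x`
  have hpath : Tendsto (fun x : ℝ => s + (x : ℂ)) (𝓝[>] 0) (𝓝[≠] s) := by
    rw [tendsto_nhdsWithin_iff]
    constructor
    · have h1 : Continuous fun x : ℝ => s + (x : ℂ) := by fun_prop
      have h2 := (h1.tendsto 0).mono_left (nhdsWithin_le_nhds (s := Set.Ioi (0 : ℝ)))
      simpa using h2
    · filter_upwards [self_mem_nhdsWithin] with x hx
      have hx' : (0 : ℝ) < x := hx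
      simp [hx'.ne']
  have hev := hpath.eventually hFg
  -- `log ‖g‖` is bounded near `s`
  have hgc : Tendsto (fun x : ℝ => Real.log ‖g (s + (x : ℂ))‖) (𝓝[>] 0) (𝓝 (Real.log ‖g s‖)) := by
    have h1 : Tendsto g (𝓝[≠] s) (𝓝 (g s)) :=
      hg.continuousAt.tendsto.mono_left nhdsWithin_le_nhds
    have h2 := (h1.comp hpath).norm
    exact h2.log (by simpa using hg0)
  have hbd : ∀ᶠ x : ℝ in 𝓝[>] 0, |Real.log ‖g (s + (x : ℂ))‖| ≤ |Real.log ‖g s‖| + 1 := by
    have h1 := hgc.abs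
    have h2 : |Real.log ‖g s‖| < |Real.log ‖g s‖| + 1 := by linarith
    exact (h1.eventually_lt_const h2).mono fun x hx => hx.le
  have hgne : ∀ᶠ x : ℝ in 𝓝[>] 0, g (s + (x : ℂ)) ≠ 0 := by
    have h1 : ∀ᶠ z in 𝓝[≠] s, g z ≠ 0 :=
      nhdsWithin_le_nhds (hg.continuousAt.eventually_ne hg0)
    exact hpath.eventually h1
  have hlog : Tendsto (fun x : ℝ => Real.log (1 / x)) (𝓝[>] 0) atTop := by
    have h1 : Tendsto (fun x : ℝ => 1 / x) (𝓝[>] 0) atTop := by
      simpa using tendsto_inv_nhdsGT_zero (𝕜 := ℝ)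
    exact Real.tendsto_log_atTop.comp h1
  have hlarge : ∀ᶠ x : ℝ in 𝓝[>] 0, (|Real.log ‖g s‖| + 1) / δ ≤ Real.log (1 / x) :=
    hlog.eventually_ge_atTop _
  filter_upwards [hev, hbd, hlarge, hgne, self_mem_nhdsWithin] with x h1 h2 h3 hgx h4
  have hx : (0 : ℝ) < x := h4
  have hge : 0 ≤ Real.log (1 / x) := by
    refine le_trans ?_ h3
    positivity
  have h5 : |Real.log ‖g s‖| + 1 ≤ δ * Real.log (1 / x) := by
    rw [div_le_iff₀ hδ] at h3
    linarith
  have h6 : |(n : ℝ)| * Real.log (1 / x) - (|Real.log ‖g s‖| + 1) ≤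
      |Real.log ‖F (s + (x : ℂ))‖| := by
    have h7 : s + (x : ℂ) - s = (x : ℂ) := by ring
    rw [h1, h7, smul_eq_mul, norm_mul, norm_zpow, Complex.norm_real, Real.norm_eq_abs,
      abs_of_pos hx, Real.log_mul (zpow_ne_zero _ hx.ne') (norm_ne_zero_iff.2 hgx),
      Real.log_zpow]
    have h8 : |(n : ℝ)| * Real.log (1 / x) = |(n : ℝ) * Real.log x| := by
      rw [abs_mul, one_div, Real.log_inv]
      rw [one_div, Real.log_inv] at hge
      rw [abs_of_nonpos (by linarith : Real.log x ≤ 0)]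
    rw [h8]
    have h9 : |(n : ℝ) * Real.log x| ≤ |(n : ℝ) * Real.log x + Real.log ‖g (s + (x : ℂ))‖| +
        |Real.log ‖g (s + (x : ℂ))‖| := by
      have h10 := abs_add_le ((n : ℝ) * Real.log x + Real.log ‖g (s + (x : ℂ))‖)
        (-Real.log ‖g (s + (x : ℂ))‖)
      rw [abs_neg, add_neg_cancel_right] at h10
      exact h10
    linarith
  rcases le_total (|(n : ℝ)| - δ) 0 with h7 | h7
  · rw [max_eq_left h7, zero_mul]
    exact abs_nonneg _
  · rw [max_eq_right h7]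
    nlinarith

/-- **Z6.** -/
theorem boundaryOrders (z5 : FewPoints) : BoundaryOrders := by
  intro K _ _ E hE M hM T F hmer hF
  -- the orders
  let m : ℝ → ℝ := fun t => ((meromorphicOrderAt F (3 / 2 + t * Complex.I)).untop₀ : ℝ)
  have key : ∀ δ : ℝ, 0 < δ →
      ∑ t ∈ T, (max 0 (|m t| - δ)) ^ 2 ≤ 4 * (Module.finrank ℚ K : ℝ) ^ 2 := by
    intro δ hδ
    refine z5 K E hE M hM T (fun t => max 0 (|m t| - δ)) fun t ht => ⟨le_max_left _ _, ?_⟩
    by_cases htop : meromorphicOrderAt F (3 / 2 + t * Complex.I) = ⊤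
    · have hm0 : m t = 0 := by
        simp only [m, htop]
        simp
      refine Eventually.of_forall fun x => ?_
      have h1 : max 0 (|m t| - δ) = 0 := by
        rw [hm0, abs_zero]
        exact max_eq_left (by linarith)
      simp only [h1, zero_mul]
      exact abs_nonneg _
    · obtain ⟨n, hn⟩ := WithTop.ne_top_iff_exists.1 htop
      have hmn : m t = n := by
        simp only [m, ← hn]
        simp
      have hgr := Z6.growth F (3 / 2 + t * Complex.I) n hn.symm (hmer t ht) δ hδ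
      filter_upwards [hgr, self_mem_nhdsWithin] with x h1 h2
      have hx : (0 : ℝ) < x := h2
      have h3 : (3 / 2 + (t : ℂ) * Complex.I + (x : ℂ)) = 3 / 2 + x + t * Complex.I := by ring
      have hre : 3 / 2 < (3 / 2 + (x : ℂ) + t * Complex.I).re := by
        simp [hx]
      rw [h3, hF _ hre] at h1
      rw [hmn]
      exact h1
  -- let `δ → 0`
  have hcont : Continuous fun δ : ℝ => ∑ t ∈ T, (max 0 (|m t| - δ)) ^ 2 := by fun_prop
  have hlim : Tendsto (fun δ : ℝ => ∑ t ∈ T, (max 0 (|m t| - δ)) ^ 2) (𝓝[>] 0)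
      (𝓝 (∑ t ∈ T, (max 0 (|m t| - 0)) ^ 2)) :=
    (hcont.tendsto 0).mono_left nhdsWithin_le_nhds
  have hle : ∑ t ∈ T, (max 0 (|m t| - 0)) ^ 2 ≤ 4 * (Module.finrank ℚ K : ℝ) ^ 2 := by
    refine le_of_tendsto hlim ?_
    filter_upwards [self_mem_nhdsWithin] with δ hδ
    exact key δ hδ
  have heq : ∑ t ∈ T, (max 0 (|m t| - 0)) ^ 2 = ∑ t ∈ T, (m t) ^ 2 := by
    refine Finset.sum_congr rfl fun t _ => ?_
    rw [sub_zero, max_eq_right (abs_nonneg _), sq_abs]
  rw [heq] at hle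
  exact hle

end MP7ed9c3
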