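import Pool.Agent.Lib.MP_7ed9c3_nt.AllN
import Pool.Agent.Lib.MP_7ed9c3_nt.Z1
import Pool.Agent.Lib.MP_7ed9c3_nt.Z2
import Pool.Agent.Lib.MP_7ed9c3_nt.Z3
import Pool.Agent.Lib.MP_7ed9c3_nt.Z4
import Pool.Agent.Lib.MP_7ed9c3_nt.Z5
import Pool.Agent.Lib.MP_7ed9c3_nt.Z6

/-!
# MP_7ed9c3_nt: assembly of part Z
-/

namespace MP7ed9c3

theorem fewPointsAll : FewPoints :=
  fewPoints countPrimes existsModel goodDataAll traceBoundAll (eulerCos eulerLog sparseSums)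
    degreeOne (bessel zetaCos)

theorem boundaryOrdersAll : BoundaryOrders := boundaryOrders fewPointsAll

end MP7ed9c3
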