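import Pool.Agent.Lib.MP_7ed9c3_nt.SpecH

/-!
# MP_7ed9c3_nt: H1, the short form of a Weierstrass equation
-/

namespace MP7ed9c3

namespace H1

theorem ne_zero_nums {F : Type} [Field F] (h2 : (2 : F) ≠ 0) (h3 : (3 : F) ≠ 0) :
    (12 : F) ≠ 0 ∧ (48 : F) ≠ 0 ∧ (864 : F) ≠ 0 ∧ (16 : F) ≠ 0 := by
  refine ⟨?_, ?_, ?_, ?_⟩
  · have : (12 : F) = 2 * 2 * 3 := by norm_num
    rw [this]; exact mul_ne_zero (mul_ne_zero h2 h2) h3
  · have : (48 : F) = 2 ^ 4 * 3 := by norm_num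
    rw [this]; exact mul_ne_zero (pow_ne_zero _ h2) h3
  · have : (864 : F) = 2 ^ 5 * 3 ^ 3 := by norm_num
    rw [this]; exact mul_ne_zero (pow_ne_zero _ h2) (pow_ne_zero _ h3)
  · have : (16 : F) = 2 ^ 4 := by norm_num
    rw [this]; exact pow_ne_zero _ h2

theorem key {F : Type} [Field F] (W : WeierstrassCurve F) (h2 : (2 : F) ≠ 0) (h3 : (3 : F) ≠ 0)
    (x y : F) :
    (y + (W.a₁ * x + W.a₃) / 2) ^ 2 - ((x + W.b₂ / 12) ^ 3 + -(W.c₄ / 48) * (x + W.b₂ / 12) +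
      -(W.c₆ / 864)) = y ^ 2 + W.a₁ * x * y + W.a₃ * y -
        (x ^ 3 + W.a₂ * x ^ 2 + W.a₄ * x + W.a₆) := by
  obtain ⟨h12, h48, h864, h16⟩ := ne_zero_nums h2 h3
  have e12 : (12 : F) = 2 ^ 2 * 3 := by norm_num
  have e48 : (48 : F) = 2 ^ 4 * 3 := by norm_num
  have e864 : (864 : F) = 2 ^ 5 * 3 ^ 3 := by norm_num
  simp only [WeierstrassCurve.c₄, WeierstrassCurve.c₆, WeierstrassCurve.b₂, WeierstrassCurve.b₄,
    WeierstrassCurve.b₆]
  rw [e12, e48, e864]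
  field_simp
  ring

end H1

open H1 in
theorem shortForm : ShortForm := by
  intro F _ W h2 h3
  obtain ⟨h12, h48, h864, h16⟩ := ne_zero_nums h2 h3
  constructor
  · refine Nat.card_congr ⟨fun p => ⟨(p.1.1 + W.b₂ / 12, p.1.2 + (W.a₁ * p.1.1 + W.a₃) / 2), ?_⟩,
      fun p => ⟨(p.1.1 - W.b₂ / 12, p.1.2 - (W.a₁ * (p.1.1 - W.b₂ / 12) + W.a₃) / 2), ?_⟩, ?_, ?_⟩
    · have h := key W h2 h3 p.1.1 p.1.2
      have hp := p.2
      show (p.1.2 + (W.a₁ * p.1.1 + W.a₃) / 2) ^ 2 = (p.1.1 + W.b₂ / 12) ^ 3 +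
        -(W.c₄ / 48) * (p.1.1 + W.b₂ / 12) + -(W.c₆ / 864)
      rw [← sub_eq_zero, h, hp, sub_self]
    · have h := key W h2 h3 (p.1.1 - W.b₂ / 12)
        (p.1.2 - (W.a₁ * (p.1.1 - W.b₂ / 12) + W.a₃) / 2)
      rw [sub_add_cancel, sub_add_cancel] at h
      have hp := p.2
      rw [hp, sub_self] at h
      exact sub_eq_zero.mp h.symm
    · intro p
      ext <;> simp
    · intro p
      ext <;> simp
  · have e48 : (48 : F) = 2 ^ 4 * 3 := by norm_num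
    have e864 : (864 : F) = 2 ^ 5 * 3 ^ 3 := by norm_num
    have e16 : (16 : F) = 2 ^ 4 := by norm_num
    have h := W.c_relation
    have e : 4 * (-(W.c₄ / 48)) ^ 3 + 27 * (-(W.c₆ / 864)) ^ 2 =
        -((W.c₄ ^ 3 - W.c₆ ^ 2) / (1728 * 16)) := by
      have e1728 : (1728 : F) = 2 ^ 6 * 3 ^ 3 := by norm_num
      have e27 : (27 : F) = 3 ^ 3 := by norm_num
      rw [e48, e864, e16, e1728, e27]
      field_simp
      ring
    rw [e, ← h]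
    have h1728 : (1728 : F) ≠ 0 := by
      have : (1728 : F) = 2 ^ 6 * 3 ^ 3 := by norm_num
      rw [this]; exact mul_ne_zero (pow_ne_zero _ h2) (pow_ne_zero _ h3)
    rw [mul_div_mul_left _ _ h1728]

end MP7ed9c3
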