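import Pool.Agent.Lib.MP_7ed9c3_nt.SpecB

/-!
# MP_7ed9c3_nt: boundary uniqueness, the main estimate (B4a)
-/

namespace MP7ed9c3

open Filter Topology MeasureTheory

lemma B4_sinh {t : ℝ} (ht : 0 ≤ t) : Real.sinh t ≤ t * Real.exp t := by
  rw [Real.sinh_eq]
  have h1 := Real.add_one_le_exp (-(2 * t))
  have h2 : Real.exp (-t) = Real.exp t * Real.exp (-(2 * t)) := by
    rw [← Real.exp_add]
    congr 1
    ring
  have h3 := Real.exp_pos t
  have h4 : Real.exp t * (-(2 * t) + 1) ≤ Real.exp (-t) := by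
    rw [h2]
    exact mul_le_mul_of_nonneg_left h1 h3.le
  nlinarith

lemma B4_sinh_le {t K : ℝ} (ht : 0 ≤ t) (hK : t ≤ K) : |Real.sinh t| ≤ Real.exp K := by
  rw [abs_of_nonneg (Real.sinh_nonneg_iff.2 ht), Real.sinh_eq]
  have h1 := Real.exp_pos (-t)
  have h2 := Real.exp_pos t
  have h3 := Real.exp_le_exp.2 hK
  linarith

lemma B4_cosh_le {t K : ℝ} (ht : 0 ≤ t) (hK : t ≤ K) : |Real.cosh t| ≤ Real.exp K := by
  rw [abs_of_nonneg (Real.cosh_pos t).le, Real.cosh_eq]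
  have h1 : Real.exp (-t) ≤ Real.exp t := Real.exp_le_exp.2 (by linarith)
  have h3 := Real.exp_le_exp.2 hK
  linarith

lemma B4_log {H F M τ : ℝ} (hH : 0 ≤ H) (hF : 0 ≤ F) (hM : 0 ≤ M) (h : H ≤ Real.exp F + M)
    (hτ0 : 0 < τ) (hτ1 : τ ≤ 1) : 1 / 2 * Real.log (H ^ 2 + τ) ≤ F + Real.log (M + 2) := by
  have h1 : (1 : ℝ) ≤ Real.exp F := Real.one_le_exp hF
  have h2 : H + 1 ≤ Real.exp F * (M + 2) := by nlinarith
  have h3 : H ^ 2 + τ ≤ (Real.exp F * (M + 2)) ^ 2 := by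
    have : H ^ 2 + τ ≤ (H + 1) ^ 2 := by nlinarith
    exact this.trans (pow_le_pow_left₀ (by linarith) h2 2)
  have h4 := Real.log_le_log (by positivity) h3
  rw [Real.log_pow, Real.log_mul (by positivity) (by positivity), Real.log_exp] at h4
  push_cast at h4
  linarith

/-- The main estimate. -/
lemma B4_main (h2 : Green) (h3 : LogReg) {U : Set ℂ} {h f : ℂ → ℂ} {c β q L Cf CT A1 A2 : ℝ}
    (hU : IsOpen U) (hd : DifferentiableOn ℂ h U) (hβ : 0 < β) (hq1 : q ≤ 1)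
    (hsub : ∀ x y : ℝ, 0 < x → x ≤ q → y ∈ Set.Icc (c - β) (c + β) → (⟨x, y⟩ : ℂ) ∈ U)
    (hfc : ∀ x : ℝ, 0 < x → Continuous (fun y : ℝ => f ⟨x, y⟩))
    (hL : 0 ≤ L) (hCf : 0 ≤ Cf)
    (hup : ∀ x y τ : ℝ, 0 < x → x ≤ q → y ∈ Set.Icc (c - β) (c + β) → 0 < τ → τ ≤ 1 →
      1 / 2 * Real.log (‖h ⟨x, y⟩‖ ^ 2 + τ) ≤ ‖f ⟨x, y⟩‖ + L)
    (hfb : ∀ x y : ℝ, 0 < x → x ≤ q → y ∈ Set.Icc (c - β) (c + β) → ‖f ⟨x, y⟩‖ ≤ Cf / x)
    (hfT : ∀ x : ℝ, 0 < x → x ≤ q → ∫ y in (c - β)..(c + β), ‖f ⟨x, y⟩‖ ^ 2 ≤ CT)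
    (hne : ∀ y ∈ Set.Icc (c - β) (c + β), h ⟨q, y⟩ ≠ 0)
    (hA1 : ∀ y ∈ Set.Icc (c - β) (c + β), ‖deriv h ⟨q, y⟩‖ / ‖h ⟨q, y⟩‖ ≤ A1)
    (hA2 : ∀ y ∈ Set.Icc (c - β) (c + β), ∀ τ : ℝ, 0 < τ → τ ≤ 1 →
      |1 / 2 * Real.log (‖h ⟨q, y⟩‖ ^ 2 + τ)| ≤ A2) :
    ∃ C5 : ℝ, ∀ τ ε : ℝ, 0 < τ → τ ≤ 1 → 0 < ε → ε < q →
      IntervalIntegrable (fun y : ℝ => (‖f ⟨ε, y⟩‖ ^ 2 + (1 + L) -
        1 / 2 * Real.log (‖h ⟨ε, y⟩‖ ^ 2 + τ)) * Real.cos (Real.pi / (2 * β) * (y - c)))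
        volume (c - β) (c + β) ∧
      ∫ y in (c - β)..(c + β), (‖f ⟨ε, y⟩‖ ^ 2 + (1 + L) -
        1 / 2 * Real.log (‖h ⟨ε, y⟩‖ ^ 2 + τ)) * Real.cos (Real.pi / (2 * β) * (y - c)) ≤ C5 := by
  obtain ⟨κ, hκ⟩ : ∃ κ : ℝ, κ = Real.pi / (2 * β) := ⟨_, rfl⟩
  have hκ0 : 0 < κ := by rw [hκ]; positivity
  have hcb : c - β ≤ c + β := by linarith
  have hyl : c - β ∈ Set.Icc (c - β) (c + β) := ⟨le_refl _, hcb⟩
  have hyr : c + β ∈ Set.Icc (c - β) (c + β) := ⟨hcb, le_refl _⟩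
  have hA1' : 0 ≤ A1 := (by positivity : (0 : ℝ) ≤ _).trans (hA1 _ hyl)
  have hA2' : 0 ≤ A2 := (abs_nonneg _).trans (hA2 _ hyl 1 one_pos le_rfl)
  obtain ⟨B2, hB2⟩ : ∃ B2 : ℝ, B2 = 2 * κ * Real.exp κ * (Cf + L) := ⟨_, rfl⟩
  obtain ⟨B3, hB3⟩ : ∃ B3 : ℝ, B3 = Real.exp κ * A1 + κ * Real.exp κ * A2 := ⟨_, rfl⟩
  have hB20 : 0 ≤ B2 := by rw [hB2]; positivity
  have hB30 : 0 ≤ B3 := by rw [hB3]; positivity
  refine ⟨CT + 2 * β * (1 + L) + B2 + 2 * β * B3 / κ, ?_⟩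
  intro τ ε hτ0 hτ1 hε0 hεq
  obtain ⟨ux, uxx, uy, uyy, hder, c0, c1, c2, c3, c4⟩ := h3 U h τ hU hd hτ0
  have hbox : Set.Icc ε q ×ˢ Set.Icc (c - β) (c + β) ⊆
      {z : ℝ × ℝ | (⟨z.1, z.2⟩ : ℂ) ∈ U} := by
    rintro ⟨x, y⟩ ⟨hx, hy⟩
    exact hsub x y (lt_of_lt_of_le hε0 hx.1) hx.2 hy
  have hG := h2 ε q c β (fun x y => 1 / 2 * Real.log (‖h ⟨x, y⟩‖ ^ 2 + τ)) ux uxx uy uyy hεq hβ
    (fun x hx y hy => by
      obtain ⟨d1, d2, d3, d4, d5, -⟩ := hder x y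
        (hsub x y (lt_of_lt_of_le hε0 hx.1) hx.2 hy)
      exact ⟨d1, d2, d3, d4, d5⟩)
    (c0.mono hbox) (c1.mono hbox) (c2.mono hbox) (c3.mono hbox) (c4.mono hbox)
  rw [← hκ] at hG ⊢
  -- continuity of u on the left side
  have hu : ContinuousOn (fun y : ℝ => 1 / 2 * Real.log (‖h ⟨ε, y⟩‖ ^ 2 + τ))
      (Set.Icc (c - β) (c + β)) := by
    have : ContinuousOn (fun y : ℝ => ((ε, y) : ℝ × ℝ)) (Set.Icc (c - β) (c + β)) := by fun_prop
    exact c0.comp this fun y hy => hsub ε y hε0 hεq.le hy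
  have hcos : Continuous fun y : ℝ => Real.cos (κ * (y - c)) := by fun_prop
  have hf2 : Continuous fun y : ℝ => ‖f ⟨ε, y⟩‖ ^ 2 := (hfc ε hε0).norm.pow 2
  have i1 : IntervalIntegrable (fun y : ℝ => 1 / 2 * Real.log (‖h ⟨ε, y⟩‖ ^ 2 + τ) *
      Real.cos (κ * (y - c))) volume (c - β) (c + β) := by
    apply ContinuousOn.intervalIntegrable
    rw [Set.uIcc_of_le hcb]
    exact hu.mul hcos.continuousOn
  have i2 : IntervalIntegrable (fun y : ℝ => (‖f ⟨ε, y⟩‖ ^ 2 + (1 + L)) *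
      Real.cos (κ * (y - c))) volume (c - β) (c + β) :=
    ((hf2.add continuous_const).mul hcos).intervalIntegrable _ _
  have hint : ∀ y : ℝ, (‖f ⟨ε, y⟩‖ ^ 2 + (1 + L) -
      1 / 2 * Real.log (‖h ⟨ε, y⟩‖ ^ 2 + τ)) * Real.cos (κ * (y - c)) =
      (‖f ⟨ε, y⟩‖ ^ 2 + (1 + L)) * Real.cos (κ * (y - c)) -
      1 / 2 * Real.log (‖h ⟨ε, y⟩‖ ^ 2 + τ) * Real.cos (κ * (y - c)) := fun y => by ring
  simp only [hint]
  refine ⟨i2.sub i1, ?_⟩
  rw [intervalIntegral.integral_sub i2 i1]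
  -- the angle
  have hang : ∀ y ∈ Set.Icc (c - β) (c + β), 0 ≤ Real.cos (κ * (y - c)) := by
    intro y hy
    have e1 : κ * β = Real.pi / 2 := by
      rw [hκ]
      field_simp
    have e2 : |κ * (y - c)| ≤ Real.pi / 2 := by
      rw [abs_mul, abs_of_pos hκ0, ← e1]
      apply mul_le_mul_of_nonneg_left _ hκ0.le
      rw [abs_le]
      constructor <;> linarith [hy.1, hy.2]
    exact Real.cos_nonneg_of_neg_pi_div_two_le_of_le (by linarith [(abs_le.1 e2).1])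
      (abs_le.1 e2).2
  -- the positive part
  have j1 : ∫ y in (c - β)..(c + β), (‖f ⟨ε, y⟩‖ ^ 2 + (1 + L)) * Real.cos (κ * (y - c)) ≤
      CT + 2 * β * (1 + L) := by
    have e1 : ∫ y in (c - β)..(c + β), (‖f ⟨ε, y⟩‖ ^ 2 + (1 + L)) * Real.cos (κ * (y - c)) ≤
        ∫ y in (c - β)..(c + β), (‖f ⟨ε, y⟩‖ ^ 2 + (1 + L)) := by
      apply intervalIntegral.integral_mono_on hcb i2
        ((hf2.add continuous_const).intervalIntegrable _ _)
      intro y hy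
      have : 0 ≤ ‖f ⟨ε, y⟩‖ ^ 2 + (1 + L) := by positivity
      exact mul_le_of_le_one_right this (Real.cos_le_one _)
    refine e1.trans ?_
    rw [intervalIntegral.integral_add (hf2.intervalIntegrable _ _)
      (continuous_const.intervalIntegrable _ _), intervalIntegral.integral_const, smul_eq_mul]
    have := hfT ε hε0 hεq.le
    nlinarith
  -- the second term of Green
  have j2 : ∫ x in ε..q, Real.sinh (κ * (x - ε)) *
      (1 / 2 * Real.log (‖h ⟨x, c + β⟩‖ ^ 2 + τ) + 1 / 2 * Real.log (‖h ⟨x, c - β⟩‖ ^ 2 + τ)) ≤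
      B2 := by
    have hcx : ∀ y ∈ Set.Icc (c - β) (c + β), ContinuousOn (fun x : ℝ => 1 / 2 *
        Real.log (‖h ⟨x, y⟩‖ ^ 2 + τ)) (Set.Icc ε q) := by
      intro y hy
      have : ContinuousOn (fun x : ℝ => ((x, y) : ℝ × ℝ)) (Set.Icc ε q) := by fun_prop
      exact c0.comp this fun x hx => hsub x y (lt_of_lt_of_le hε0 hx.1) hx.2 hy
    have hsh : Continuous fun x : ℝ => Real.sinh (κ * (x - ε)) := by fun_prop
    have i3 : IntervalIntegrable (fun x : ℝ => Real.sinh (κ * (x - ε)) *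
        (1 / 2 * Real.log (‖h ⟨x, c + β⟩‖ ^ 2 + τ) +
          1 / 2 * Real.log (‖h ⟨x, c - β⟩‖ ^ 2 + τ))) volume ε q := by
      apply ContinuousOn.intervalIntegrable
      rw [Set.uIcc_of_le hεq.le]
      exact hsh.continuousOn.mul ((hcx _ hyr).add (hcx _ hyl))
    have e1 : ∫ x in ε..q, Real.sinh (κ * (x - ε)) *
        (1 / 2 * Real.log (‖h ⟨x, c + β⟩‖ ^ 2 + τ) +
          1 / 2 * Real.log (‖h ⟨x, c - β⟩‖ ^ 2 + τ)) ≤ ∫ _ in ε..q, B2 := by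
      apply intervalIntegral.integral_mono_on hεq.le i3 (continuous_const.intervalIntegrable _ _)
      intro x hx
      have hx0 : 0 < x := lt_of_lt_of_le hε0 hx.1
      have hx1 : x ≤ 1 := hx.2.trans hq1
      have s0 : 0 ≤ κ * (x - ε) := mul_nonneg hκ0.le (by linarith [hx.1])
      have s1 : κ * (x - ε) ≤ κ * x := mul_le_mul_of_nonneg_left (by linarith) hκ0.le
      have s2 : κ * x ≤ κ := mul_le_of_le_one_right hκ0.le hx1
      have s3 : Real.sinh (κ * (x - ε)) ≤ κ * x * Real.exp κ :=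
        (B4_sinh s0).trans (mul_le_mul s1 (Real.exp_le_exp.2 (s1.trans s2)) (Real.exp_pos _).le
          (by positivity))
      have s4 : 0 ≤ Real.sinh (κ * (x - ε)) := Real.sinh_nonneg_iff.2 s0
      have s5 : ∀ y ∈ Set.Icc (c - β) (c + β), 1 / 2 * Real.log (‖h ⟨x, y⟩‖ ^ 2 + τ) ≤
          (Cf + L) / x := by
        intro y hy
        have t1 := hup x y τ hx0 hx.2 hy hτ0 hτ1
        have t2 := hfb x y hx0 hx.2 hy
        have t3 : L ≤ L / x := by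
          rw [le_div_iff₀ hx0]
          exact mul_le_of_le_one_right hL hx1
        rw [add_div]
        linarith
      calc Real.sinh (κ * (x - ε)) * (1 / 2 * Real.log (‖h ⟨x, c + β⟩‖ ^ 2 + τ) +
            1 / 2 * Real.log (‖h ⟨x, c - β⟩‖ ^ 2 + τ))
          ≤ Real.sinh (κ * (x - ε)) * ((Cf + L) / x + (Cf + L) / x) :=
            mul_le_mul_of_nonneg_left (add_le_add (s5 _ hyr) (s5 _ hyl)) s4
        _ ≤ (κ * x * Real.exp κ) * ((Cf + L) / x + (Cf + L) / x) :=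
            mul_le_mul_of_nonneg_right s3 (by positivity)
        _ = B2 := by
            rw [hB2]
            field_simp
            ring
    refine e1.trans ?_
    rw [intervalIntegral.integral_const, smul_eq_mul]
    exact mul_le_of_le_one_left hB20 (by linarith)
  -- the third term of Green
  have j3 : ∫ y in (c - β)..(c + β), (Real.sinh (κ * (q - ε)) * ux q y
        - κ * Real.cosh (κ * (q - ε)) * (1 / 2 * Real.log (‖h ⟨q, y⟩‖ ^ 2 + τ)))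
          * Real.cos (κ * (y - c)) ≤ 2 * β * B3 := by
    have s0 : 0 ≤ κ * (q - ε) := mul_nonneg hκ0.le (by linarith)
    have s1 : κ * (q - ε) ≤ κ := mul_le_of_le_one_right hκ0.le (by linarith)
    have e1 : ‖∫ y in (c - β)..(c + β), (Real.sinh (κ * (q - ε)) * ux q y
        - κ * Real.cosh (κ * (q - ε)) * (1 / 2 * Real.log (‖h ⟨q, y⟩‖ ^ 2 + τ)))
          * Real.cos (κ * (y - c))‖ ≤ B3 * |c + β - (c - β)| := by
      apply intervalIntegral.norm_integral_le_of_norm_le_const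
      intro y hy
      rw [Set.uIoc_of_le hcb] at hy
      have hy' : y ∈ Set.Icc (c - β) (c + β) := ⟨hy.1.le, hy.2⟩
      have hq0 : 0 < q := hε0.trans hεq
      obtain ⟨-, -, -, -, -, d6⟩ := hder q y (hsub q y hq0 le_rfl hy')
      have t1 : |ux q y| ≤ A1 := (d6 (hne y hy')).trans (hA1 y hy')
      have t2 := hA2 y hy' τ hτ0 hτ1
      rw [norm_mul, Real.norm_eq_abs, Real.norm_eq_abs]
      have t3 : |Real.sinh (κ * (q - ε)) * ux q y
        - κ * Real.cosh (κ * (q - ε)) * (1 / 2 * Real.log (‖h ⟨q, y⟩‖ ^ 2 + τ))| ≤ B3 := by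
        refine (abs_sub _ _).trans ?_
        rw [abs_mul, abs_mul, abs_mul, abs_of_pos hκ0, hB3]
        apply add_le_add
        · exact mul_le_mul (B4_sinh_le s0 s1) t1 (abs_nonneg _) (Real.exp_pos _).le
        · exact mul_le_mul (mul_le_mul_of_nonneg_left (B4_cosh_le s0 s1) hκ0.le) t2
            (abs_nonneg _) (by positivity)
      calc _ ≤ B3 * 1 := mul_le_mul t3 (Real.abs_cos_le_one _) (abs_nonneg _) hB30
        _ = B3 := mul_one _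
    have e2 : |c + β - (c - β)| = 2 * β := by
      rw [show c + β - (c - β) = 2 * β by ring]
      exact abs_of_pos (by positivity)
    rw [e2] at e1
    have := (le_abs_self _).trans e1
    linarith
  -- conclusion
  have j4 : -(B2 + 2 * β * B3 / κ) ≤ ∫ y in (c - β)..(c + β),
      1 / 2 * Real.log (‖h ⟨ε, y⟩‖ ^ 2 + τ) * Real.cos (κ * (y - c)) := by
    have e1 : 0 ≤ κ * (∫ y in (c - β)..(c + β),
        1 / 2 * Real.log (‖h ⟨ε, y⟩‖ ^ 2 + τ) * Real.cos (κ * (y - c))) + κ * B2 +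
        2 * β * B3 := by
      have := mul_le_mul_of_nonneg_left j2 hκ0.le
      linarith
    have e2 : κ * (B2 + 2 * β * B3 / κ) = κ * B2 + 2 * β * B3 := by
      field_simp
    have e3 : κ * -(B2 + 2 * β * B3 / κ) ≤ κ * (∫ y in (c - β)..(c + β),
        1 / 2 * Real.log (‖h ⟨ε, y⟩‖ ^ 2 + τ) * Real.cos (κ * (y - c))) := by
      rw [mul_neg, e2]
      linarith
    exact le_of_mul_le_mul_left e3 hκ0
  linarith

end MP7ed9c3
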