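import Mathlib

/-!
# MP_7ed9c3_nt: definitions

Euler products of elliptic curves over number fields on the boundary line `Re s = 3/2` of the
half-plane of absolute convergence.
-/

namespace MP7ed9c3

open NumberField IsDedekindDomain Filter Topology Polynomial

/-- Number of solutions in `F × F` of the Weierstrass equation `W`. -/
noncomputable def affCount {F : Type} [CommRing F] (W : WeierstrassCurve F) : ℕ :=
  Nat.card {p : F × F // p.2 ^ 2 + W.a₁ * p.1 * p.2 + W.a₃ * p.2
    = p.1 ^ 3 + W.a₂ * p.1 ^ 2 + W.a₄ * p.1 + W.a₆}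

/-! ## Hasse bound: the curve `λ y² = x³ + a x + b` over the rational function field -/
section Hasse

variable {F : Type} [Field F]

/-- Number of solutions of `y² = x³ + a x + b`. -/
noncomputable def shortCount (a b : F) : ℕ :=
  Nat.card {p : F × F // p.2 ^ 2 = p.1 ^ 3 + a * p.1 + b}

/-- The polynomial `λ = X³ + a X + b`. -/
noncomputable def lam (a b : F) : F[X] := X ^ 3 + C a * X + C b

/-- The curve `Y² = X³ + a λ² X + b λ³` over `F(X)`; it is the curve `λ y² = x³ + a x + b` in the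
coordinates `X = λ x`, `Y = λ² y`. -/
noncomputable def tw (a b : F) : WeierstrassCurve (RatFunc F) :=
  ⟨0, 0, 0, algebraMap F[X] (RatFunc F) (C a * lam a b ^ 2),
    algebraMap F[X] (RatFunc F) (C b * lam a b ^ 3)⟩

/-- `f / g` is the reduced fraction representing the abscissa `x = X / λ` of the point `P = (X, Y)`
of the curve `tw a b`; for the zero point `g = 0` (and `f` is a unit). -/
def Rep (a b : F) (P : (tw a b).toAffine.Point) (f g : F[X]) : Prop :=
  IsCoprime f g ∧ algebraMap F[X] (RatFunc F) (f * lam a b) * P.xRep 1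
    = algebraMap F[X] (RatFunc F) g * P.xRep 0

/-- First coordinate of the addition-and-subtraction map with the point of abscissa `X`. -/
noncomputable def A0 (a b : F) (f g : F[X]) : F[X] :=
  (X * f - C a * g) ^ 2 - 4 * C b * g * (X * g + f)

/-- Second coordinate of the addition-and-subtraction map. -/
noncomputable def A1 (a b : F) (f g : F[X]) : F[X] :=
  2 * ((X * f + C a * g) * (X * g + f) + 2 * C b * g ^ 2)

/-- Third coordinate of the addition-and-subtraction map. -/
noncomputable def A2 (f g : F[X]) : F[X] := (X * g - f) ^ 2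

end Hasse

/-! ## Dirichlet series -/
section Ana

/-- The trigonometric sum `∑ n ∈ S, c n * n ^ (-i t)`. -/
noncomputable def dir (c : ℕ → ℂ) (S : Finset ℕ) (t : ℝ) : ℂ :=
  ∑ n ∈ S, c n * (n : ℂ) ^ (-(t : ℂ) * Complex.I)

/-- Mass of the `k`-th dyadic block of `S`. -/
noncomputable def mass (c : ℕ → ℂ) (S : Finset ℕ) (k : ℕ) : ℝ :=
  ∑ n ∈ S.filter (fun n => Nat.log 2 n = k), ‖c n‖

/-- The dyadic blocks of `c` have mass at most `C / (k + 1)`. -/
def BlockBound (c : ℕ → ℂ) (C : ℝ) : Prop :=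
  ∀ k : ℕ, ∑ n ∈ Finset.Ico (2 ^ k) (2 ^ (k + 1)), ‖c n‖ ≤ C / (k + 1)

/-- Denominator of an Euler factor of degree two: norm `N`, trace `a`, good reduction or not. -/
noncomputable def eden (N : ℕ) (a : ℤ) (good : Prop) [Decidable good] (s : ℂ) : ℂ :=
  1 - (a : ℂ) * (N : ℂ) ^ (-s) + (if good then 1 else 0) * (N : ℂ) ^ (1 - 2 * s)

/-- The Stolz angle `|Im s - t| ≤ κ (Re s - 3/2)`, `Re s > 3/2`. -/
def stolz (t κ : ℝ) : Set ℂ := {s | 3 / 2 < s.re ∧ |s.im - t| ≤ κ * (s.re - 3 / 2)}

end Ana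

/-! ## Elliptic curves over number fields -/
section NF

variable {K : Type} [Field K] [NumberField K]

/-- The norm of a prime. -/
noncomputable def nm (v : HeightOneSpectrum (𝓞 K)) : ℕ := Ideal.absNorm v.asIdeal

/-- Reduction of an integral Weierstrass equation modulo a prime. -/
noncomputable def red (W : WeierstrassCurve (𝓞 K)) (v : HeightOneSpectrum (𝓞 K)) :
    WeierstrassCurve (𝓞 K ⧸ v.asIdeal) := W.map (Ideal.Quotient.mk v.asIdeal)

/-- The trace `q - #{affine points of the reduction}` (`= q + 1 - #{points}`). -/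
noncomputable def tr (W : WeierstrassCurve (𝓞 K)) (v : HeightOneSpectrum (𝓞 K)) : ℤ :=
  (nm v : ℤ) - (affCount (red W v) : ℤ)

open Classical in
/-- The denominator of the local factor at `v` of the Weierstrass equation `W`:
`1 - a q^(-s) + q^(1-2s)`, the last term being present only if the discriminant is a unit at
`v`. -/
noncomputable def locDen (W : WeierstrassCurve (𝓞 K)) (v : HeightOneSpectrum (𝓞 K)) (s : ℂ) : ℂ :=
  eden (nm v) (tr W v) (W.Δ ∉ v.asIdeal) s

/-- `W` is an integral model of `E`, minimal at `v`. -/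
def IsMinAt (E : WeierstrassCurve K) (v : HeightOneSpectrum (𝓞 K)) (W : WeierstrassCurve (𝓞 K)) :
    Prop :=
  (∃ C : WeierstrassCurve.VariableChange K, C • E = W.map (algebraMap (𝓞 K) K)) ∧
    ∀ W' : WeierstrassCurve (𝓞 K),
      (∃ C : WeierstrassCurve.VariableChange K, C • E = W'.map (algebraMap (𝓞 K) K)) →
        ∀ n : ℕ, W.Δ ∈ v.asIdeal ^ n → W'.Δ ∈ v.asIdeal ^ n

/-- The conclusion at the point `3/2 + i t`, with rate `θ`: the Euler product, ordered by norm,
converges to a nonzero number `l` with error `O((log x)^(-θ))`, and the absolutely convergent Euler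
product tends to `l` as `s → 3/2 + i t` in every Stolz angle of the half-plane `Re s > 3/2`. -/
def Conv (M : HeightOneSpectrum (𝓞 K) → WeierstrassCurve (𝓞 K)) (θ t : ℝ) : Prop :=
  ∃ l : ℂ, l ≠ 0 ∧
    (∃ C : ℝ, ∀ x : ℕ, 2 ≤ x →
      ‖(∏ᶠ v ∈ {v : HeightOneSpectrum (𝓞 K) | nm v ≤ x},
        (locDen (M v) v (3 / 2 + t * Complex.I))⁻¹) - l‖ ≤ C * Real.log x ^ (-θ)) ∧
    ∀ κ : ℝ, Tendsto (fun s : ℂ => ∏' v : HeightOneSpectrum (𝓞 K), (locDen (M v) v s)⁻¹)
      (𝓝[stolz t κ] (3 / 2 + t * Complex.I)) (𝓝 l)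

end NF

end MP7ed9c3
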