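import Pool.Agent.Lib.MP_7ed9c3_nt.SpecG

/-!
# MP_7ed9c3_nt: G11, unboundedness
-/

set_option autoImplicit false

namespace MP7ed9c3

open Filter Topology

/-- Evaluation of the product of a power series with bounded coefficients and a polynomial. -/
lemma g11_eval (c : ℕ → ℤ) (B : ℤ) (hB : ∀ k, |c k| ≤ B) (P : Polynomial ℤ)
    (h : (PowerSeries.mk c) * (P : PowerSeries ℤ) = 1) (T : ℂ) (hT : ‖T‖ < 1) :
    (∑' k, (c k : ℂ) * T ^ k) * (P.map (Int.castRingHom ℂ)).eval T = 1 := by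
  have hs1 : Summable fun k => ‖(c k : ℂ) * T ^ k‖ := by
    have h1 : Summable fun k => (B : ℝ) * ‖T‖ ^ k :=
      (summable_geometric_of_lt_one (norm_nonneg T) hT).mul_left _
    refine Summable.of_nonneg_of_le (fun k => norm_nonneg _) (fun k => ?_) h1
    rw [norm_mul, norm_pow]
    refine mul_le_mul_of_nonneg_right ?_ (by positivity)
    have h2 : ‖((c k : ℤ) : ℂ)‖ = ((|c k| : ℤ) : ℝ) := by
      rw [Complex.norm_intCast, Int.cast_abs]
    rw [h2]
    exact_mod_cast hB k
  have hfin : ∀ k, k ∉ Finset.range (P.natDegree + 1) → (P.coeff k : ℂ) * T ^ k = 0 := by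
    intro k hk
    have hk' : P.natDegree < k := by
      simpa [Finset.mem_range, Nat.lt_succ_iff] using hk
    rw [Polynomial.coeff_eq_zero_of_natDegree_lt hk']
    simp
  have hs2 : Summable fun k => ‖(P.coeff k : ℂ) * T ^ k‖ := by
    refine summable_of_ne_finset_zero (s := Finset.range (P.natDegree + 1)) fun k hk => ?_
    rw [hfin k hk, norm_zero]
  have hev : (P.map (Int.castRingHom ℂ)).eval T = ∑' k, (P.coeff k : ℂ) * T ^ k := by
    rw [tsum_eq_sum hfin, Polynomial.eval_map, Polynomial.eval₂_eq_sum_range]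
    rfl
  rw [hev, tsum_mul_tsum_eq_tsum_sum_antidiagonal_of_summable_norm hs1 hs2]
  have hcoef : ∀ n, ∑ kl ∈ Finset.HasAntidiagonal.antidiagonal n,
      (c kl.1 : ℂ) * T ^ kl.1 * ((P.coeff kl.2 : ℂ) * T ^ kl.2) = if n = 0 then 1 else 0 := by
    intro n
    have h1 := congrArg (PowerSeries.coeff n) h
    rw [PowerSeries.coeff_mul, PowerSeries.coeff_one] at h1
    simp only [PowerSeries.coeff_mk, Polynomial.coeff_coe] at h1
    have h2 : ∑ kl ∈ Finset.HasAntidiagonal.antidiagonal n,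
        (c kl.1 : ℂ) * T ^ kl.1 * ((P.coeff kl.2 : ℂ) * T ^ kl.2) =
        ((∑ kl ∈ Finset.HasAntidiagonal.antidiagonal n, c kl.1 * P.coeff kl.2 : ℤ) : ℂ) * T ^ n := by
      push_cast
      rw [Finset.sum_mul]
      refine Finset.sum_congr rfl fun kl hkl => ?_
      rw [← Finset.HasAntidiagonal.mem_antidiagonal.1 hkl, pow_add]
      ring
    rw [h2, h1]
    by_cases hn : n = 0
    · simp [hn]
    · simp [hn]
  simp only [hcoef]
  rw [tsum_ite_eq]

/-- A root of modulus less than one. -/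
lemma g11_root (a : ℤ) (N : ℕ) (hN : 2 ≤ N) :
    ∃ U : ℂ, ‖U‖ < 1 ∧ 1 - (a : ℂ) * U + (N : ℂ) * U ^ 2 = 0 := by
  obtain ⟨δ, hδ⟩ := IsAlgClosed.exists_pow_nat_eq ((a : ℂ) ^ 2 - 4 * N) (n := 2) (by norm_num)
  have hN0 : (N : ℂ) ≠ 0 := by
    have : N ≠ 0 := by omega
    exact_mod_cast this
  have key : ∀ ε : ℂ, ε ^ 2 = (a : ℂ) ^ 2 - 4 * N →
      1 - (a : ℂ) * ((a + ε) / (2 * N)) + (N : ℂ) * ((a + ε) / (2 * N)) ^ 2 = 0 := by
    intro ε hε
    field_simp
    linear_combination hε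
  have hprod : ((a + δ) / (2 * N)) * ((a + -δ) / (2 * N)) = (1 : ℂ) / N := by
    field_simp
    linear_combination -hδ
  by_cases h1 : ‖((a : ℂ) + δ) / (2 * N)‖ < 1
  · exact ⟨_, h1, key δ hδ⟩
  · by_cases h2 : ‖((a : ℂ) + -δ) / (2 * N)‖ < 1
    · exact ⟨_, h2, key (-δ) (by rw [neg_sq]; exact hδ)⟩
    · exfalso
      push Not at h1 h2
      have h3 : 1 ≤ ‖((a + δ) / (2 * N)) * ((a + -δ) / (2 * N))‖ := by
        rw [norm_mul]
        exact one_le_mul_of_one_le_of_one_le h1 h2
      rw [hprod, norm_div, norm_one, Complex.norm_natCast] at h3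
      have h4 : (2 : ℝ) ≤ N := by exact_mod_cast hN
      have h5 : (1 : ℝ) / N ≤ 1 / 2 := one_div_le_one_div_of_le (by norm_num) h4
      linarith

theorem unbounded : Unbounded := by
  classical
  intro ι s N f a good c i₀ hi₀ hg hN hf h
  rintro ⟨B, hB⟩
  let Q : ι → Polynomial ℤ := fun i => 1 - Polynomial.C (a i) * Polynomial.X ^ f i
      + (if good i then 1 else 0) * Polynomial.C (N i : ℤ) * Polynomial.X ^ (2 * f i)
  have hQ : ∀ i, ((Q i : Polynomial ℤ) : PowerSeries ℤ) = 1 - PowerSeries.C (a i) *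
      (PowerSeries.X : PowerSeries ℤ) ^ f i
      + (if good i then 1 else 0) * PowerSeries.C (N i : ℤ)
        * (PowerSeries.X : PowerSeries ℤ) ^ (2 * f i) := by
    intro i
    simp only [Q]
    by_cases hgi : good i
    · simp only [if_pos hgi, Polynomial.coe_sub, Polynomial.coe_add, Polynomial.coe_mul,
        Polynomial.coe_pow, Polynomial.coe_one, Polynomial.coe_C, Polynomial.coe_X]
    · simp only [if_neg hgi, Polynomial.coe_sub, Polynomial.coe_add, Polynomial.coe_mul,
        Polynomial.coe_pow, Polynomial.coe_one, Polynomial.coe_C, Polynomial.coe_X,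
        Polynomial.coe_zero]
  have hP : ((∏ i ∈ s, Q i : Polynomial ℤ) : PowerSeries ℤ) =
      ∏ i ∈ s, (1 - PowerSeries.C (a i) * (PowerSeries.X : PowerSeries ℤ) ^ f i
      + (if good i then 1 else 0) * PowerSeries.C (N i : ℤ)
        * (PowerSeries.X : PowerSeries ℤ) ^ (2 * f i)) := by
    have h1 := map_prod (Polynomial.coeToPowerSeries.ringHom (R := ℤ)) Q s
    simp only [Polynomial.coeToPowerSeries.ringHom_apply] at h1
    rw [h1]
    exact Finset.prod_congr rfl fun i _ => hQ i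
  have h' : (PowerSeries.mk c) * ((∏ i ∈ s, Q i : Polynomial ℤ) : PowerSeries ℤ) = 1 := by
    rw [hP]
    convert h using 4
  obtain ⟨U, hU1, hU2⟩ := g11_root (a i₀) (N i₀) hN
  obtain ⟨T, hT⟩ := IsAlgClosed.exists_pow_nat_eq U hf
  have hT1 : ‖T‖ < 1 := by
    by_contra hcon
    push Not at hcon
    have h1 : 1 ≤ ‖T‖ ^ f i₀ := one_le_pow₀ hcon
    rw [← norm_pow, hT] at h1
    linarith
  have h2 := g11_eval c B hB _ h' T hT1
  have h3 : ((∏ i ∈ s, Q i).map (Int.castRingHom ℂ)).eval T = 0 := by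
    rw [Polynomial.map_prod, Polynomial.eval_prod]
    apply Finset.prod_eq_zero hi₀
    simp only [Q, hg, if_true]
    simp only [Polynomial.map_add, Polynomial.map_sub, Polynomial.map_mul, Polynomial.map_pow,
      Polynomial.map_one, Polynomial.map_C, Polynomial.map_X, Polynomial.eval_add,
      Polynomial.eval_sub, Polynomial.eval_mul, Polynomial.eval_pow, Polynomial.eval_one,
      Polynomial.eval_C, Polynomial.eval_X]
    have h4 : T ^ (2 * f i₀) = U ^ 2 := by rw [mul_comm, pow_mul, hT]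
    rw [h4, hT]
    simpa using hU2
  rw [h3, mul_zero] at h2
  exact zero_ne_one h2

end MP7ed9c3
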