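import Pool.Agent.Lib.MP_7ed9c3_nt.Defs

/-!
# MP_7ed9c3_nt: statements A (Dirichlet series with sparse coefficients on the boundary line)

If the dyadic blocks of `c` have mass `≤ C/(k+1)`, then outside a set of Hausdorff dimension at most
`2θ` the partial sums `∑_{n ≤ x} c n n^(-i t)` converge with error `O((log x)^(-θ))`.
-/

namespace MP7ed9c3

open Filter Topology MeasureTheory

/-- **A0, mean square.**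

Proof.  Expand: `‖dir c S t‖² = ∑_{m, n ∈ S} c_m conj(c_n) (n/m)^(i t)`, and
`∫ exp(-t²) exp(i u t) dt = √π exp(-u²/4)` (Mathlib: Fourier transform of the Gaussian,
`fourierIntegral_gaussian`).  So the integral is at most
`√π ∑_{m,n} |c_m| |c_n| exp(-(log(n/m))²/4)`.  If `Nat.log 2 m = k`, `Nat.log 2 n = l`, then
`|log(n/m)| ≥ (|k - l| - 1) log 2` and, as `u²/4 ≥ |u| - 1`,
`exp(-u²/4) ≤ e · exp(-|u|) ≤ 2 e 2^(-|k-l|)`.  With `M_k` the mass of block `k` the sum is at most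
`2 e √π ∑_{k,l<K} M_k M_l 2^(-|k-l|) ≤ 2 e √π ∑_{k,l} (M_k² + M_l²)/2 · 2^(-|k-l|)
≤ 6 e √π ∑ M_k² ≤ 40 ∑ M_k²` (`∑_{j ∈ ℤ} 2^(-|j|) = 3`, `e < 2.7183`, `π < 3.15`). -/
def MeanSq : Prop :=
  ∀ (c : ℕ → ℂ) (S : Finset ℕ) (K : ℕ), (∀ n ∈ S, 1 ≤ n ∧ Nat.log 2 n < K) →
    Integrable (fun t : ℝ => Real.exp (-t ^ 2) * ‖dir c S t‖ ^ 2) ∧
    ∫ t : ℝ, Real.exp (-t ^ 2) * ‖dir c S t‖ ^ 2 ≤ 40 * ∑ k ∈ Finset.range K, mass c S k ^ 2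

/-- **A1, large values on a grid.**

Proof (from A0).  `D = dir c S` is smooth, `D'(t) = ∑ (-i log n) c_n n^(-it) = dir c' S t` with
`c' n = -i log n · c n`, and `log n ≤ K log 2 ≤ U`, so `mass c' S k ≤ U mass c S k`.  For
`J = [i/U, (i+1)/U]`, `t₀ ∈ J`: `‖D(t₀)‖² ≤ U ∫_J ‖D‖² + ∫_J 2 ‖D‖ ‖D'‖` (for `g = ‖D‖²`:
`g(t₀) - g(t) ≤ ∫_J |g'|` for `t ∈ J`, `|g'| ≤ 2 ‖D‖ ‖D'‖`, average over `t ∈ J`)
`≤ ∫_J (2 U ‖D‖² + ‖D'‖²/U)`.  The intervals `J_i`, `-T U ≤ i < T U` are consecutive, with union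
`[-T, T]`, on which `1 ≤ exp(T²) exp(-t²)`.  So
`#B δ² ≤ ∫_{-T}^{T} (2U‖D‖² + ‖D'‖²/U) ≤ exp(T²) (2 U · 40 M + 40 U² M / U) = 120 exp(T²) U M`. -/
def LargeVal : Prop :=
  ∀ (c : ℕ → ℂ) (S : Finset ℕ) (K U T : ℕ) (δ : ℝ) (B : Finset ℤ),
    (∀ n ∈ S, 1 ≤ n ∧ Nat.log 2 n < K) → K ≤ U → 1 ≤ U → 0 < δ →
    (∀ i ∈ B, -((T : ℤ) * U) ≤ i ∧ i < (T : ℤ) * U ∧
      ∃ t : ℝ, (i : ℝ) / U ≤ t ∧ t ≤ ((i : ℝ) + 1) / U ∧ δ ≤ ‖dir c S t‖) →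
    (B.card : ℝ) * δ ^ 2 ≤
      120 * Real.exp ((T : ℝ) ^ 2) * U * ∑ k ∈ Finset.range K, mass c S k ^ 2

/-- The cell of level `i`, number `j`, in the exponents `[2^r, 2^(r+1))`: integers `n` with
`Nat.log 2 n ∈ [2^r + j 2^(r-i), 2^r + (j+1) 2^(r-i))`. -/
def cell (r i j : ℕ) : Finset ℕ :=
  Finset.Ico (2 ^ (2 ^ r + j * 2 ^ (r - i))) (2 ^ (2 ^ r + (j + 1) * 2 ^ (r - i)))

/-- **A2, chaining.**

Proof.  Let `x ≥ 2^(2^r₀)`, `k = Nat.log 2 x ≥ 2^r₀`, `r = Nat.log 2 k ≥ r₀`, so `2^r ≤ k < 2^(r+1)`.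
Binary expansion of `m = k - 2^r < 2^r`: `[2^r, k)` is a disjoint union of at most one interval
`[2^r + j 2^(r-i), 2^r + (j+1) 2^(r-i))` for each `i = 1, …, r` (the partial sums of the binary
expansion).  [Induction on `i`: with `m_i = (m / 2^(r-i)) 2^(r-i)`, `m_0 = 0`, `m_r = m`, and
`[2^r + m_{i-1}, 2^r + m_i)` is empty or the cell of level `i`, `j = m_{i-1}/2^(r-i)`.]  The
remaining `n ∈ [2^k, x]` have mass at most `C/(k+1) ≤ C 2^(-r)`.  So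
`‖dir c (Ico (2^(2^r)) (x+1)) t‖ ≤ r · 2^(-rθ)/(r+1) + C 2^(-r) ≤ (1 + C) 2^(-rθ)` (`C ≥ 0`,
`θ ≤ 1`).  The cell `(r, 0, 0)` gives
`‖Y_(r+1) - Y_r‖ ≤ 2^(-rθ)` for `Y_r = dir c (Ico 1 (2^(2^r))) t`, `r ≥ r₀`; so `Y_r → S` with
`‖Y_r - S‖ ≤ 2^(-rθ)/(1 - 2^(-θ))`.  As `log x ≤ (k+1) log 2 ≤ 2^(r+1)`,
`2^(-rθ) ≤ 2^θ (log x)^(-θ)`.  The finitely many `2 ≤ x < 2^(2^r₀)` only change the constant. -/
def Chain : Prop :=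
  ∀ (c : ℕ → ℂ) (C θ t : ℝ) (r₀ : ℕ), BlockBound c C → 0 < θ → θ ≤ 1 →
    (∀ r ≥ r₀, ∀ i ≤ r, ∀ j < 2 ^ i,
      ‖dir c (cell r i j) t‖ ≤ (2 : ℝ) ^ (-(r * θ)) / (r + 1)) →
    ∃ (S : ℂ) (C' : ℝ), ∀ x : ℕ, 2 ≤ x →
      ‖dir c (Finset.Icc 1 x) t - S‖ ≤ C' * Real.log x ^ (-θ)

/-- **A3, dimension of a limsup set.**

Proof.  Let `E` be the set, `s > 2θ`.  For every `m`, `E` is covered by the intervals
`[i/2^(r+1), (i+1)/2^(r+1)]`, `r ≥ m`, `i ∈ B r`, of diameter `2^(-(r+1)) ≤ 2^(-m)`, and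
`∑_{r ≥ m} #(B r) 2^(-(r+1)s) ≤ K ∑_{r ≥ m} (r+1)^5 2^(-r(s-2θ)) → 0` as `m → ∞`.  So
`μH[s] E = 0` by `MeasureTheory.Measure.hausdorffMeasure_le_liminf_tsum`, and `dimH E ≤ s`
(`dimH_le_of_hausdorffMeasure_ne_top`); let `s → 2θ`. -/
def LimsupDim : Prop :=
  ∀ (θ K : ℝ) (B : ℕ → Finset ℤ), 0 < θ →
    (∀ r : ℕ, ((B r).card : ℝ) ≤ K * ((r : ℝ) + 1) ^ 5 * (2 : ℝ) ^ (2 * r * θ)) →
    dimH {t : ℝ | ∃ᶠ r in atTop, ∃ i ∈ B r,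
      (i : ℝ) / 2 ^ (r + 1) ≤ t ∧ t ≤ ((i : ℝ) + 1) / 2 ^ (r + 1)} ≤ ENNReal.ofReal (2 * θ)

/-- **A4, convergence of the partial sums.**

Proof (from A1, A2, A3).  If `θ ≥ 1/2` take `Z = univ` (`Real.dimH_univ`).  Let `θ < 1/2`.  For
`T, r : ℕ` let `B_{T,r}` be the set of integers `l`, `-T 2^(r+1) ≤ l < T 2^(r+1)`, such that for some
`i ≤ r`, `j < 2^i` and some `t ∈ [l/2^(r+1), (l+1)/2^(r+1)]`,
`2^(-rθ)/(r+1) ≤ ‖dir c (cell r i j) t‖`.  By A1 with `U = K = 2^(r+1)`: for each `(i, j)` the number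
of such `l` is at most
`(r+1)² 2^(2rθ) · 120 exp(T²) 2^(r+1) ∑_{k ∈ block} (C/(k+1))²`, and the sum has `2^(r-i)` terms
`≤ C² 2^(-2r)`; so it is `≤ 240 exp(T²) C² (r+1)² 2^(2rθ) 2^(-i)`, and summing over `j < 2^i` and
`i ≤ r`: `#B_{T,r} ≤ 240 exp(T²) C² (r+1)³ 2^(2rθ)`.  Let `Z_T` be the limsup set of A3 and
`Z = ⋃_T Z_T` (`dimH_iUnion`).  If `t ∉ Z`, take `T > |t|`: for all large `r` the point `t` is in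
the interval of `l = ⌊t 2^(r+1)⌋`, `-T 2^(r+1) ≤ l < T 2^(r+1)`, `l ∉ B_{T,r}`, so the hypothesis of
A2 holds. -/
def PartialSums : Prop :=
  ∀ (c : ℕ → ℂ) (C θ : ℝ), BlockBound c C → 0 < θ →
    ∃ Z : Set ℝ, dimH Z ≤ ENNReal.ofReal (2 * θ) ∧ ∀ t ∉ Z, ∃ (S : ℂ) (C' : ℝ), ∀ x : ℕ, 2 ≤ x →
      ‖dir c (Finset.Icc 1 x) t - S‖ ≤ C' * Real.log x ^ (-θ)

/-- **A5, Abel's theorem in a Stolz angle.**

Proof.  `P n = ∑_{1 ≤ j ≤ n} d j → S`.  Summation by parts: for `Re z = σ > 0`,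
`∑_{n ≤ X} d n n^(-z) = P X X^(-z) + ∑_{n < X} P n (n^(-z) - (n+1)^(-z))`; let `X → ∞` (the left side
tends to the tsum by summability, the term at `n = 0` vanishes, `P X X^(-z) → 0`).  Also
`S = ∑_{n ≥ 1} S (n^(-z) - (n+1)^(-z))` (telescoping).  So
`F(z) - S = ∑_{n ≥ 1} (P n - S)(n^(-z) - (n+1)^(-z))`, and
`|n^(-z) - (n+1)^(-z)| ≤ |z| ∫_n^(n+1) u^(-σ-1) du = (|z|/σ)(n^(-σ) - (n+1)^(-σ))
≤ (1 + |κ|) (n^(-σ) - (n+1)^(-σ))`.  Given `ε`, choose `N` with `|P n - S| ≤ ε` for `n ≥ N`: the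
terms with `n ≥ N` contribute at most `(1 + |κ|) ε`, and the finitely many others tend to `0` as
`z → 0` (`n^(-z)` is continuous).  (Avoid infinite sums if you prefer: work with finite `X`.) -/
def AbelStolz : Prop :=
  ∀ (d : ℕ → ℂ) (S : ℂ), d 0 = 0 →
    Tendsto (fun x : ℕ => ∑ n ∈ Finset.Icc 1 x, d n) atTop (𝓝 S) →
    (∀ z : ℂ, 0 < z.re → Summable (fun n : ℕ => d n * (n : ℂ) ^ (-z))) →
    ∀ κ : ℝ, Tendsto (fun z : ℂ => ∑' n : ℕ, d n * (n : ℂ) ^ (-z))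
      (𝓝[{z : ℂ | 0 < z.re ∧ |z.im| ≤ κ * z.re}] 0) (𝓝 S)

/-- **A6, logarithm of an Euler factor.**

Proof.  `z = a N^(-s) - g N^(1-2s)`, `g ∈ {0,1}`, `eden = 1 - z`, and
`|z| ≤ |a| N^(-3/2) + N^(-2) ≤ N^(-1/2) + N^(-2) ≤ 2^(-1/2) + 1/4 ≤ 0.958 < 1`.  So `eden ≠ 0`,
`1 - z` lies in the slit plane (positive real part), where `log` is continuous.
`‖-log(1-z) - z‖ ≤ ‖z‖²/(2(1-‖z‖)) ≤ 12 ‖z‖²` (`Complex.norm_log_one_add_sub_self_le` or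
`Complex.norm_log_one_sub_inv_sub_self_le`), `‖z‖ ≤ (C + 1/2)/N` (`|a| N^(-3/2) ≤ C/N`,
`N^(-2) ≤ 1/(2N)`), and `|g N^(1-2s)| ≤ N^(-2)`. -/
def EulerLog : Prop :=
  ∀ (N : ℕ) (a : ℤ) (good : Prop) [Decidable good] (C : ℝ), 2 ≤ N → |(a : ℝ)| ≤ N →
    |(a : ℝ)| ≤ C * √N →
    (∀ s : ℂ, 3 / 2 ≤ s.re → eden N a good s ≠ 0 ∧
      ‖-Complex.log (eden N a good s) - (a : ℂ) * (N : ℂ) ^ (-s)‖
        ≤ (12 * (C + 1 / 2) ^ 2 + 1) / (N : ℝ) ^ 2) ∧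
    ContinuousOn (fun s : ℂ => Complex.log (eden N a good s)) {s | 3 / 2 ≤ s.re}

/-- The hypothesis on a family of norms: `N i ≥ 2`, and at most `C 2^k/(k+1)` members with norm in
`[2^k, 2^(k+1))`. -/
def Sparse {ι : Type} (N : ι → ℕ) (C : ℝ) : Prop :=
  (∀ i, 2 ≤ N i) ∧ ∀ k : ℕ, {i | 2 ^ k ≤ N i ∧ N i < 2 ^ (k + 1)}.Finite ∧
    (({i | 2 ^ k ≤ N i ∧ N i < 2 ^ (k + 1)}.ncard : ℝ) ≤ C * 2 ^ k / (k + 1))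

/-- **A7, summability over a sparse family.**

Proof.  Group by `k = Nat.log 2 (N i)`: the terms of block `k` contribute at most
`(C 2^k/(k+1)) 2^(-k(1+ε)) ≤ C 2^(-kε)`; for the tail of `1/N²` only blocks with `2^(k+1) > x`
occur: `∑ C 2^k 2^(-2k) ≤ 2 C 2^(-k₀) ≤ 4 C / x`, `k₀` the smallest such `k`.  Finiteness of
`{i | N i ≤ x}`: finite union of finite blocks. -/
def SparseSums : Prop :=
  ∀ (ι : Type) (N : ι → ℕ) (C : ℝ), Sparse N C →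
    (∀ x : ℕ, {i | N i ≤ x}.Finite) ∧
    (∀ ε : ℝ, 0 < ε → Summable (fun i => (N i : ℝ) ^ (-(1 + ε)))) ∧
    ∀ x : ℕ, 1 ≤ x → ∑' i : {i // x < N i}, 1 / (N i : ℝ) ^ 2 ≤ 4 * C / x

/-- **A8, grouping by norm.**  With `c n = ∑_{N i = n} a_i n^(-3/2)`.

Proof (from A7).  The fibres `{i | N i = n}` are finite.
Block bound: the block `k` of `c` has mass at most `∑_{i in block} |a_i| N_i^(-3/2)
≤ ∑_{i in block} A / N_i ≤ (C 2^k/(k+1)) A 2^(-k)`.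
Partial sums: regroup the finite sum.  Series: `|a_i N_i^(-s)| ≤ A N_i^(1/2 - Re s)` is summable by
A7 (`1/2 - Re s < -1`); regroup along the fibres of `N` (`HasSum.sigma`, `Equiv.sigmaFiberEquiv`,
`tsum` over a finite fibre). -/
def Group : Prop :=
  ∀ (ι : Type) (N : ι → ℕ) (a : ι → ℤ) (C A : ℝ), Sparse N C → 0 ≤ A →
    (∀ i, |(a i : ℝ)| ≤ A * √(N i)) →
    ∃ c : ℕ → ℂ, c 0 = 0 ∧ BlockBound c (C * A) ∧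
      (∀ (t : ℝ) (x : ℕ), ∑ᶠ i ∈ {i | N i ≤ x},
        (a i : ℂ) * (N i : ℂ) ^ (-(3 / 2 + t * Complex.I)) = dir c (Finset.Icc 1 x) t) ∧
      (∀ s : ℂ, 3 / 2 < s.re → Summable (fun i => (a i : ℂ) * (N i : ℂ) ^ (-s)) ∧
        Summable (fun n : ℕ => c n * (n : ℂ) ^ (-(s - 3 / 2))) ∧
        ∑' i, (a i : ℂ) * (N i : ℂ) ^ (-s) = ∑' n : ℕ, c n * (n : ℂ) ^ (-(s - 3 / 2)))

/-- **A9, convergence of a degree two Euler product on the boundary.**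

Proof (from A4-A8).  Let `c` be as in A8, `Z` as in A4 (with `C A` for `C`); if `θ ≥ 1/2` take
`Z = univ` instead.  Let `t ∉ Z`, `s₀ = 3/2 + i t`.  `E_i(s) = -log(eden_i(s)) - a_i N_i^(-s)`,
`‖E_i(s)‖ ≤ C₁/N_i²` for `Re s ≥ 3/2` (A6), summable, and continuous on `Re s ≥ 3/2`.
`l = exp(S + ∑ E_i(s₀)) ≠ 0`.
(1) `∏_{N_i ≤ x} eden_i(s₀)⁻¹ = exp(dir c (Icc 1 x) t + ∑_{N_i ≤ x} E_i(s₀))`
(`exp(-log w) = w⁻¹`), so it is `l exp(δ_x)`, `|δ_x| ≤ C' (log x)^(-θ) + ∑_{N_i > x} C₁/N_i²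
≤ C' (log x)^(-θ) + 4 C C₁ / x ≤ C'' (log x)^(-θ)` (`1/x ≤ 1/log x`, `θ ≤ 1`), and
`|exp δ - 1| ≤ |δ| exp|δ|`, `|δ_x|` bounded.
(2) For `Re s > 3/2`: `∑' -log(eden_i(s)) = ∑' a_i N_i^(-s) + ∑' E_i(s)` converges absolutely, so
`∏' eden_i(s)⁻¹ = exp` of it (`Complex.cexp_tsum_eq_tprod` or `HasSum.cexp`).  In a Stolz angle
`∑' a_i N_i^(-s) = ∑' (c n n^(-it)) n^(-(s - s₀)) → S` by A5 (`d n = c n n^(-it)`,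
`z = s - s₀`; `dir c (Icc 1 x) t → S` since `(log x)^(-θ) → 0`), and
`∑' E_i(s) → ∑' E_i(s₀)` by dominated convergence
(`tendsto_tsum_of_dominated_convergence`). -/
def EulerAbs : Prop :=
  ∀ (ι : Type) (N : ι → ℕ) (a : ι → ℤ) (good : ι → Prop) [∀ i, Decidable (good i)] (C A : ℝ),
    Sparse N C → (∀ i, |(a i : ℝ)| ≤ N i) → (∀ i, |(a i : ℝ)| ≤ A * √(N i)) →
    ∀ θ : ℝ, 0 < θ → ∃ Z : Set ℝ, dimH Z ≤ ENNReal.ofReal (2 * θ) ∧ ∀ t ∉ Z,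
      ∃ l : ℂ, l ≠ 0 ∧
        (∃ C' : ℝ, ∀ x : ℕ, 2 ≤ x → ‖(∏ᶠ i ∈ {i | N i ≤ x},
          (eden (N i) (a i) (good i) (3 / 2 + t * Complex.I))⁻¹) - l‖
            ≤ C' * Real.log x ^ (-θ)) ∧
        ∀ κ : ℝ, Tendsto (fun s : ℂ => ∏' i, (eden (N i) (a i) (good i) s)⁻¹)
          (𝓝[stolz t κ] (3 / 2 + t * Complex.I)) (𝓝 l)

end MP7ed9c3
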