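import Pool.Agent.Lib.MP_7ed9c3_nt.SpecN

/-!
# MP_7ed9c3_nt: statements B (boundary uniqueness)

The boundary function of the Euler product determines it: if it agrees on a set of positive measure
with a function analytic near the segment, then the Euler product continues analytically across the
segment.  Coordinates: `z = s - 3/2`, the half-plane is `0 < Re z`.
-/

namespace MP7ed9c3

open NumberField IsDedekindDomain Filter Topology MeasureTheory

/-- **B1, the Dirichlet series of `c` near the boundary.**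

Proof (from A0).  `‖c n n^(-z)‖ = ‖c n‖ n^(-x)`, `x = Re z`; block `k` contributes at most
`(C/(k+1)) 2^(-kx)`; so the series converges absolutely, locally uniformly, for `x > 0` (hence is
analytic, e.g. `differentiableOn_tsum_of_summable_norm` on `{x > x₀}`), and for `0 < x ≤ 1` its norm
is at most `C ∑_k 2^(-kx) = C/(1 - 2^(-x)) ≤ 2 C/x` (`2^(-x) ≤ 1 - x/2` on `[0,1]` by convexity).
Mean square: apply A0 to `n ↦ c n n^(-x)` (masses at most `C/(k+1)`) and `S = Ico 1 (2^K)`: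
`∫_{-T}^{T} ‖∑_{n < 2^K} c n n^(-x-it)‖² dt ≤ exp(T²) 40 ∑ C²/(k+1)² ≤ exp(T²) 80 C²`; let `K → ∞`
(uniform convergence in `t` for fixed `x > 0`). -/
def SeriesBound : Prop :=
  ∀ (c : ℕ → ℂ) (C : ℝ), c 0 = 0 → BlockBound c C →
    DifferentiableOn ℂ (fun z : ℂ => ∑' n : ℕ, c n * (n : ℂ) ^ (-z)) {z | 0 < z.re} ∧
    (∀ z : ℂ, 0 < z.re → z.re ≤ 1 → ‖∑' n : ℕ, c n * (n : ℂ) ^ (-z)‖ ≤ 2 * C / z.re) ∧
    ∀ T : ℝ, 0 ≤ T → ∀ x : ℝ, 0 < x → x ≤ 1 →
      ∫ t in (-T)..T, ‖∑' n : ℕ, c n * (n : ℂ) ^ (-((x : ℂ) + t * Complex.I))‖ ^ 2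
        ≤ 80 * Real.exp (T ^ 2) * C ^ 2

/-- **B2, Green's inequality on a rectangle.**  `u` is a twice continuously differentiable
function of `(x, y)` near the closed rectangle `[p, q] × [c - β, c + β]`, with nonnegative Laplacian;
`κ = π/(2β)`, `Ψ = sinh(κ(x - p)) cos(κ(y - c))` (harmonic, nonnegative, zero on three sides).
`ux, uxx, uy, uyy` are the partial derivatives of `u`.

Proof.  `0 ≤ ∫∫ Ψ Δu` over the rectangle.  For fixed `y`, integrate by parts twice in `x`: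
`∫ Ψ uxx dx = Ψ ux |_{x=q} - (Ψ_x u)|_{x=q} + (Ψ_x u)|_{x=p} + ∫ Ψ_xx u dx` (`Ψ = 0` at `x = p`);
for fixed `x` in `y`: `∫ Ψ uyy dy = -(Ψ_y u)|_{y=c+β} + (Ψ_y u)|_{y=c-β} + ∫ Ψ_yy u dy`
(`Ψ = 0` at `y = c ± β`), with `Ψ_y = -κ sinh(κ(x-p))` at `y = c + β`, `+κ sinh(κ(x-p))` at
`y = c - β`.  Sum (Fubini), `Ψ_xx + Ψ_yy = 0`; `Ψ_x = κ cosh(κ(x-p)) cos(κ(y-c))` is
`κ cos(κ(y-c))` at `x = p`. -/
def Green : Prop :=
  ∀ (p q c β : ℝ) (u ux uxx uy uyy : ℝ → ℝ → ℝ), p < q → 0 < β →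
    (∀ x ∈ Set.Icc p q, ∀ y ∈ Set.Icc (c - β) (c + β),
      HasDerivAt (fun x => u x y) (ux x y) x ∧ HasDerivAt (fun x => ux x y) (uxx x y) x ∧
      HasDerivAt (fun y => u x y) (uy x y) y ∧ HasDerivAt (fun y => uy x y) (uyy x y) y ∧
      0 ≤ uxx x y + uyy x y) →
    ContinuousOn (fun z : ℝ × ℝ => u z.1 z.2) (Set.Icc p q ×ˢ Set.Icc (c - β) (c + β)) →
    ContinuousOn (fun z : ℝ × ℝ => ux z.1 z.2) (Set.Icc p q ×ˢ Set.Icc (c - β) (c + β)) →
    ContinuousOn (fun z : ℝ × ℝ => uxx z.1 z.2) (Set.Icc p q ×ˢ Set.Icc (c - β) (c + β)) →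
    ContinuousOn (fun z : ℝ × ℝ => uy z.1 z.2) (Set.Icc p q ×ˢ Set.Icc (c - β) (c + β)) →
    ContinuousOn (fun z : ℝ × ℝ => uyy z.1 z.2) (Set.Icc p q ×ˢ Set.Icc (c - β) (c + β)) →
    0 ≤ (Real.pi / (2 * β)) *
        (∫ y in (c - β)..(c + β), u p y * Real.cos (Real.pi / (2 * β) * (y - c))) +
      (Real.pi / (2 * β)) * (∫ x in p..q, Real.sinh (Real.pi / (2 * β) * (x - p)) *
        (u x (c + β) + u x (c - β))) +
      ∫ y in (c - β)..(c + β), (Real.sinh (Real.pi / (2 * β) * (q - p)) * ux q y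
        - (Real.pi / (2 * β)) * Real.cosh (Real.pi / (2 * β) * (q - p)) * u q y)
          * Real.cos (Real.pi / (2 * β) * (y - c))

/-- **B3, the regularised logarithm of a holomorphic function.**  For `h` analytic on an open set
`U` and `τ > 0` the function `u = (1/2) log (|h|² + τ)` of `(x, y)` has in `U` the partial
derivatives used in B2.

Proof.  With `h' = deriv h`, `h'' = deriv h'`, `D = |h|² + τ`:
`u_x = Re(h' conj h)/D`, `u_y = Re(i h' conj h)/D`,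
`u_xx = (Re(h'' conj h) + |h'|²)/D - 2 (Re(h' conj h))²/D²`,
`u_yy = (-Re(h'' conj h) + |h'|²)/D - 2 (Re(i h' conj h))²/D²`; the sum is
`2|h'|²/D - 2|h'|²|h|²/D² = 2 τ |h'|²/D² ≥ 0` as `(Re w)² + (Re (i w))² = |w|²`.  All are continuous
on `U`.  `|u_x| ≤ |h'| |h|/(|h|² + τ) ≤ |h'|/|h|` where `h ≠ 0`. -/
def LogReg : Prop :=
  ∀ (U : Set ℂ) (h : ℂ → ℂ) (τ : ℝ), IsOpen U → DifferentiableOn ℂ h U → 0 < τ →
    ∃ ux uxx uy uyy : ℝ → ℝ → ℝ,
      (∀ x y : ℝ, (⟨x, y⟩ : ℂ) ∈ U →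
        HasDerivAt (fun x : ℝ => 1 / 2 * Real.log (‖h ⟨x, y⟩‖ ^ 2 + τ)) (ux x y) x ∧
        HasDerivAt (fun x => ux x y) (uxx x y) x ∧
        HasDerivAt (fun y : ℝ => 1 / 2 * Real.log (‖h ⟨x, y⟩‖ ^ 2 + τ)) (uy x y) y ∧
        HasDerivAt (fun y => uy x y) (uyy x y) y ∧ 0 ≤ uxx x y + uyy x y ∧
        (h ⟨x, y⟩ ≠ 0 → |ux x y| ≤ ‖deriv h ⟨x, y⟩‖ / ‖h ⟨x, y⟩‖)) ∧
      ContinuousOn (fun z : ℝ × ℝ => 1 / 2 * Real.log (‖h ⟨z.1, z.2⟩‖ ^ 2 + τ))
        {z | (⟨z.1, z.2⟩ : ℂ) ∈ U} ∧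
      ContinuousOn (fun z : ℝ × ℝ => ux z.1 z.2) {z | (⟨z.1, z.2⟩ : ℂ) ∈ U} ∧
      ContinuousOn (fun z : ℝ × ℝ => uxx z.1 z.2) {z | (⟨z.1, z.2⟩ : ℂ) ∈ U} ∧
      ContinuousOn (fun z : ℝ × ℝ => uy z.1 z.2) {z | (⟨z.1, z.2⟩ : ℂ) ∈ U} ∧
      ContinuousOn (fun z : ℝ × ℝ => uyy z.1 z.2) {z | (⟨z.1, z.2⟩ : ℂ) ∈ U}

/-- **B4, boundary uniqueness.**  `f` is analytic in the right half-plane, locally bounded in mean
square up to the imaginary axis and `O(1/x)`; `G` is analytic on the rectangle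
`(-δ, δ) × (a, b)`; the points `t` at which `exp f(x + i t) → G(i t)` as `x → 0+` form a set of
positive outer measure.  Then `exp f = G` on the right half of the rectangle.

Proof (from B2, B3).  Suppose not; `h = exp f - G` is analytic and not identically `0` on the
connected set `Q = (0, δ) × (a, b)`, so its zeros are isolated.  Let `P` be the set of the `t`.
Choose `c, β` with `[c - β, c + β] ⊂ (a, b)` and `P ∩ (c - β/2, c + β/2)` of positive outer measure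
(cover `(a, b)` by countably many such intervals), and `q ∈ (0, min(δ, 1))` such that `h` has no zero
on `{q} × [c - β, c + β]` (all but countably many `q` work).  Let `0 < τ ≤ 1`, `0 < ε < q`,
`u = (1/2) log(|h|² + τ)`, `κ = π/(2β)`.  By B2 on `[ε, q] × [c - β, c + β]`:
`κ ∫ u(ε, y) cos(κ(y-c)) dy ≥ - C₁` with `C₁` independent of `ε, τ`: indeed
`u ≤ log⁺|h| + (log 2)/2`, `log⁺|h| ≤ |f| + log⁺|G| + log 2 ≤ C₂/x + C₂`, while
`sinh(κ(x - ε)) ≤ C₃ x`, so the second term of B2 is at most `C₁/2`; in the last term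
`|u(q, y)| ≤ |log|h(q,y)|| + 1`-type bounds and `|u_x| ≤ |h'|/|h|` are bounded since `h` has no zero
there (compactness).  With `u = u⁺ - u⁻` and
`∫ u⁺(ε, y) dy ≤ ∫ (|f(ε+iy)| + C) dy ≤ C₄` (Cauchy-Schwarz), we get
`∫ u⁻(ε, y) cos(κ(y - c)) dy ≤ C₅` for all `0 < ε < q`, `0 < τ ≤ 1`.  Let `ε = ε_n → 0`; by Fatou
(`lintegral_liminf_le`) `∫ liminf u⁻(ε_n, y) cos(κ(y-c)) dy ≤ C₅`; on `P`, `h(ε_n + iy) → 0` so
`liminf u⁻ = -(1/2) log τ`, and `cos ≥ cos(π/4)` for `|y - c| ≤ β/2`.  So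
`-(1/2) log τ · cos(π/4) · |P ∩ (c - β/2, c + β/2)| ≤ C₅` for all `τ ∈ (0, 1]`, absurd. -/
def Uniqueness : Prop :=
  ∀ (f G : ℂ → ℂ) (a b δ : ℝ), a < b → 0 < δ →
    DifferentiableOn ℂ f {z | 0 < z.re} →
    (∀ T : ℝ, ∃ C : ℝ, ∀ x : ℝ, 0 < x → x ≤ 1 →
      ∫ t in (-T)..T, ‖f ((x : ℂ) + t * Complex.I)‖ ^ 2 ≤ C) →
    (∀ T : ℝ, ∃ C : ℝ, ∀ x y : ℝ, 0 < x → x ≤ 1 → |y| ≤ T →
      ‖f ((x : ℂ) + y * Complex.I)‖ ≤ C / x) →
    DifferentiableOn ℂ G {z | |z.re| < δ ∧ a < z.im ∧ z.im < b} →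
    0 < volume {t : ℝ | a < t ∧ t < b ∧
      Tendsto (fun x : ℝ => Complex.exp (f ((x : ℂ) + t * Complex.I))) (𝓝[>] 0)
        (𝓝 (G (t * Complex.I)))} →
    ∀ z : ℂ, 0 < z.re → z.re < δ → a < z.im → z.im < b → Complex.exp (f z) = G z

/-- **B5, the logarithm of the Euler product.**

Proof (from A6, A7, A8, B1).  `f(z) = ∑' n, c n n^(-z) + ∑' i, E_i(3/2 + z)` with `c` from A8
(`a_i N_i^(-s)` grouped by norm) and `E_i(s) = -log(eden_i(s)) - a_i N_i^(-s)`,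
`‖E_i(s)‖ ≤ C₁/N_i²` (A6), each `E_i` analytic on `Re s > 3/2` (`eden_i` has positive real part
there: proof of A6; `Complex.log` is analytic on the slit plane), so the sum is analytic and bounded
by `C₂ = C₁ ∑ 1/N_i²` (A7).  `∏' eden_i⁻¹ = exp f` as in A9 (2).  The bounds: B1 and
`‖u + v‖² ≤ 2‖u‖² + 2‖v‖²`, `C₂ ≤ C₂/x` for `x ≤ 1`. -/
def EulerExp : Prop :=
  ∀ (ι : Type) (N : ι → ℕ) (a : ι → ℤ) (good : ι → Prop) [∀ i, Decidable (good i)] (C A : ℝ),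
    Sparse N C → (∀ i, |(a i : ℝ)| ≤ N i) → (∀ i, |(a i : ℝ)| ≤ A * √(N i)) →
    ∃ f : ℂ → ℂ, DifferentiableOn ℂ f {z | 0 < z.re} ∧
      (∀ z : ℂ, 0 < z.re →
        ∏' i, (eden (N i) (a i) (good i) (3 / 2 + z))⁻¹ = Complex.exp (f z)) ∧
      (∀ T : ℝ, ∃ C' : ℝ, ∀ x : ℝ, 0 < x → x ≤ 1 →
        ∫ t in (-T)..T, ‖f ((x : ℂ) + t * Complex.I)‖ ^ 2 ≤ C') ∧
      ∀ T : ℝ, ∃ C' : ℝ, ∀ x y : ℝ, 0 < x → x ≤ 1 → |y| ≤ T →
        ‖f ((x : ℂ) + y * Complex.I)‖ ≤ C' / x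

/-- The Euler product of `M` converges at `3/2 + i t`, in the order of norms, to `w`. -/
def ConvTo {K : Type} [Field K] [NumberField K]
    (M : HeightOneSpectrum (𝓞 K) → WeierstrassCurve (𝓞 K)) (t : ℝ) (w : ℂ) : Prop :=
  Tendsto (fun x : ℕ => ∏ᶠ v ∈ {v : HeightOneSpectrum (𝓞 K) | nm v ≤ x},
    (locDen (M v) v (3 / 2 + t * Complex.I))⁻¹) atTop (𝓝 w)

/-- **B6, continuation criteria for one curve.**  For every elliptic curve over a number field:
(1) `log |L|` is bounded in local mean square on the vertical lines up to the boundary line;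
(2) if `G` is analytic on the rectangle `|Re s - 3/2| < δ`, `a < Im s < b`, and the Euler product
converges to `G(3/2 + i t)` on a set of `t ∈ (a, b)` of positive measure, then `G` equals the Euler
product on the right half of the rectangle;
(3) there is an entire function which agrees with the Euler product for `Re s > 3/2` if and only
if there is an entire function `G` such that the Euler product converges to `G(3/2 + i t)` on a set
of `t` of positive measure.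

Proof (from N1-N5, B4, B5).  Fix an integral model and the finite set of bad primes as in N5 to get
`|tr (M v) v| ≤ A √(nm v)` for all `v` with some `A`; then B5 gives `f`.
(1) `log|L(3/2+x+it)| = Re f(x + i t)`.
(2) By `Core` (any `θ < 1/2`, say `1/4`) there is a set `Z` with `dimH Z < 1`, hence of Lebesgue measure
`0`, such that for `t ∉ Z` the Euler product converges at `3/2 + it` to some `l` which is also the
radial limit (Stolz angle with `κ = 0`) of `exp f`.  So for the `t` of the set outside `Z`,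
`l = G(3/2+it)` by uniqueness of limits and B4 applies to `f` and `z ↦ G(3/2 + z)` (the set minus a null
set has positive outer measure).
(3) If `L` is entire and agrees with the product, take `G = L`: for `t ∉ Z`,
`l = lim L(3/2 + x + it) = L(3/2 + it)`.  Conversely (2) (with `δ` arbitrary and `(a, b)` some
bounded interval in which the set has positive measure) shows that `G` equals the product on an
open set, hence for all `Re s > 3/2` by the identity theorem (`exp f` is analytic there). -/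
def Criteria : Prop :=
  ∀ (K : Type) [Field K] [NumberField K] (E : WeierstrassCurve K), E.IsElliptic →
    ∀ M : HeightOneSpectrum (𝓞 K) → WeierstrassCurve (𝓞 K), (∀ v, IsMinAt E v (M v)) →
    (∀ T : ℝ, ∃ C : ℝ, ∀ x : ℝ, 0 < x → x ≤ 1 →
      ∫ t in (-T)..T, Real.log ‖∏' v : HeightOneSpectrum (𝓞 K),
        (locDen (M v) v (3 / 2 + x + t * Complex.I))⁻¹‖ ^ 2 ≤ C) ∧
    (∀ (G : ℂ → ℂ) (a b δ : ℝ), a < b → 0 < δ →
      DifferentiableOn ℂ G {s | |s.re - 3 / 2| < δ ∧ a < s.im ∧ s.im < b} →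
      0 < volume {t : ℝ | a < t ∧ t < b ∧ ConvTo M t (G (3 / 2 + t * Complex.I))} →
      ∀ s : ℂ, 3 / 2 < s.re → s.re < 3 / 2 + δ → a < s.im → s.im < b →
        ∏' v : HeightOneSpectrum (𝓞 K), (locDen (M v) v s)⁻¹ = G s) ∧
    ((∃ L : ℂ → ℂ, Differentiable ℂ L ∧ ∀ s : ℂ, 3 / 2 < s.re →
        L s = ∏' v : HeightOneSpectrum (𝓞 K), (locDen (M v) v s)⁻¹) ↔
      ∃ G : ℂ → ℂ, Differentiable ℂ G ∧
        0 < volume {t : ℝ | ConvTo M t (G (3 / 2 + t * Complex.I))})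

end MP7ed9c3
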