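import Pool.Agent.Lib.MP_7ed9c3_nt.SpecB

/-!
# MP_7ed9c3_nt: statements G (growth of a continuation)

An entire function which agrees with the Euler product of an elliptic curve over a number field for
`Re s > 3/2` grows faster than `exp(|s| log |s| + R |s|)` for every `R`.  Idea: with integer
coefficients `b n` the function `∑ b n exp(-n x)` would be analytic at `x = 0`, so by Polya-Carlson
(proved here through Siegel's lemma) `b` would satisfy a linear recurrence and be bounded; but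
`b (p^k)` is unbounded.
-/

namespace MP7ed9c3

open NumberField IsDedekindDomain Filter Topology MeasureTheory

/-- Growth at most `exp(r log r + O(r))`. -/
def Grows (F : ℂ → ℂ) (R : ℝ) : Prop :=
  ∀ s : ℂ, ‖F s‖ ≤ Real.exp (‖s‖ * Real.log (1 + ‖s‖) + R * (1 + ‖s‖))

/-- **G1, Phragmen-Lindelof.**

Proof.  `φ(z) = F(2 - z)`, `Re z ≥ 0`; we show
`|φ(z)| ≤ exp((x+1) log(1+|z|) + R'(x+1))`, `x = Re z`.  First quadrant (the fourth follows by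
applying the result to `conj (F (conj s))`).  For real `x ≥ 0`:
`|φ(x)| ≤ exp((x+2) log(3+x) + |R|(3+x)) ≤ exp((x+1) log(x+1) + R₁ (1+x))` for a suitable `R₁ ≥ 0`.
`H(z) = φ(z) exp(-(z+1) Log(z+1) + i (π/2) z - R₁ z)`.  On the real axis
`|H(x)| ≤ exp(R₁)`.  On the imaginary axis
`|exp(-(1+iy) Log(1+iy))| = exp(-(1/2) log(1+y²) + y arctan y) ≤ exp(π y/2)`,
`|exp(i(π/2) i y)| = exp(-π y/2)`, so `|H(iy)| ≤ B`.  In the quadrant
`|H(z)| ≤ exp(C (1 + |z|)^(3/2))`, so `PhragmenLindelof.quadrant_I` gives `|H| ≤ B' = max B (exp R₁)`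
there.  Hence `|φ(z)| ≤ B' exp(Re((z+1) Log(z+1)) + (π/2) y + R₁ x)`; with
`z + 1 = ρ exp(iα)`, `0 ≤ α < π/2`: `Re((z+1)Log(z+1)) = (x+1) log ρ - y α` and
`(π/2 - α) y = (π/2 - α) ρ sin α ≤ (π/2) ρ cos α = (π/2)(x+1)` (`sin θ ≥ (2/π) θ` for
`θ = π/2 - α`).  `ρ ≤ 1 + |z|`. -/
def PhragLind : Prop :=
  ∀ (F : ℂ → ℂ) (R B : ℝ), Differentiable ℂ F → Grows F R → (∀ s : ℂ, 2 ≤ s.re → ‖F s‖ ≤ B) →
    ∃ R' : ℝ, 0 ≤ R' ∧ ∀ s : ℂ, s.re ≤ 2 →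
      ‖F s‖ ≤ Real.exp ((3 - s.re) * Real.log (1 + ‖2 - s‖) + R' * (3 - s.re))

/-- **G2, the Gamma function on the lines `Re s = -N - 1/2`.**

Proof.  `Γ(1/2 + iτ) = Γ(-N - 1/2 + iτ) ∏_{j=0}^{N} (-(j + 1/2) + iτ)` (`Complex.Gamma_add_one`), so
`|Γ(-N-1/2+iτ)| = |Γ(1/2+iτ)| / ∏ √((j+1/2)² + τ²)`.  `|Γ(1/2+iτ)|² = π/cosh(πτ) ≤ 2π exp(-π|τ|)`
(reflection formula `Complex.Gamma_mul_Gamma_one_sub`, `conj`).
`√((j+1/2)²+τ²) ≥ (j+1/2+|τ|)/√2`, and with `t = |τ|`, by midpoint concavity of `log`: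
`∑_{j=0}^{N} log(j+1/2+t) ≥ ∫_0^{N+1} log(u+t) du = (N+1+t) log(N+1+t) - t log t - (N+1)
≥ (N+1) log(N+1+t) - (N+1)`.  [Without integrals: by induction on `N`,
`∏_{j=0}^{N} (j+1/2+t) ≥ ((N+1+t)/e)^(N+1)`; or any other proof of the displayed inequality.]
So `|Γ| ≤ √(2π) exp(-πt/2) (√2 e)^(N+1)/(N+1+t)^(N+1)`, `√(2π) √2 e < 10`, `√2 e < 4`. -/
def GammaLine : Prop :=
  ∀ (N : ℕ) (τ : ℝ), ‖Complex.Gamma (-(N : ℂ) - 1 / 2 + τ * Complex.I)‖ ≤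
    10 * 4 ^ N * Real.exp (-(Real.pi * |τ| / 2)) / ((N : ℝ) + 1 + |τ|) ^ (N + 1)

/-- **G2b, the Gamma function on vertical strips.**

Proof.  For `0 < Re r`: `∫_0^∞ t^(s-1) exp(-r t) dt = (1/r)^s Γ(s)`
(`Complex.integral_cpow_mul_exp_neg_mul_Ioi`).  Take `r = exp(±iφ)` (sign: that of `τ`), so
`Γ(s) = r^s ∫_0^∞ t^(s-1) exp(-r t) dt`, `|r^s| = exp(-φ|τ|)`, and the integral is at most
`∫_0^∞ t^(σ-1) exp(-t cos φ) dt = Γ(σ) (cos φ)^(-σ)`. -/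
def GammaStrip : Prop :=
  ∀ (σ τ φ : ℝ), 0 < σ → 0 < φ → φ < Real.pi / 2 → ‖Complex.Gamma (σ + τ * Complex.I)‖ ≤
    Real.Gamma σ * Real.cos φ ^ (-σ) * Real.exp (-(φ * |τ|))

/-- **G3, Mellin representation.**

Proof.  For `u > 0`: `exp(-u) = (1/2π) ∫ Γ(3+iτ) u^(-(3+iτ)) dτ` (Mathlib Mellin inversion,
`mellinInv_mellin_eq` for `f = exp(-·)`, `mellin f = Γ`, vertical integrability from G2b with
`φ = 1`).  Put `u = n x`, multiply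
by `a n`, sum over `n`, and exchange sum and integral
(`∑ |a n| n^(-3) x^(-3) ∫ |Γ(3+iτ)| dτ < ∞`). -/
def MellinRep : Prop :=
  ∀ (a : ℕ → ℂ), a 0 = 0 → Summable (fun n : ℕ => ‖a n‖ * (n : ℝ) ^ (-(2 : ℝ))) → ∀ x : ℝ, 0 < x →
    ∑' n : ℕ, a n * Complex.exp (-(n * x : ℝ)) = 1 / (2 * Real.pi) *
      ∫ τ : ℝ, (∑' n : ℕ, a n * (n : ℂ) ^ (-(3 + τ * Complex.I))) *
        Complex.Gamma (3 + τ * Complex.I) * (x : ℂ) ^ (-(3 + τ * Complex.I))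

/-- **G4, shifting a vertical line of integration, without and with a simple pole.**

Proof.  (1) Cauchy on the rectangle `[σ₁, σ₂] × [-T, T]`
(`Complex.integral_boundary_rect_eq_zero_of_differentiableOn`), horizontal sides
`≤ (σ₂ - σ₁) C exp(-T) → 0`; the vertical integrands are integrable.
(2) `h(s) = h(0) exp(s²) + s k(s)` with `k` analytic in the strip
(`dslope`), `|k(s)| ≤ C' exp(-|Im s|)` on `|Re s| ≤ 1/2` (`|exp(s²)| ≤ exp(1/4 - τ²)`; near `s = 0`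
bounded by compactness); by (1) the integrals of `k` over the two lines agree.  It remains to see
`(1/2π)(∫ exp(s²)/s over Re s = 1/2 minus the one over Re s = -1/2) = 1`.  By `s ↦ -s` it is
`(1/π) Φ`, `Φ = ∫ exp((1/2+iτ)²)/(1/2+iτ) dτ`; by (1) `Φ = ∫ exp((r+iτ)²)/(r+iτ) dτ` for all
`r > 0`, i.e. (taking real parts; the imaginary part vanishes by symmetry)
`Φ = ∫ exp(r²-τ²) (r cos(2rτ) + τ sin(2rτ))/(r²+τ²) dτ → π + 0` as `r → 0+` (substitute `τ = r v` in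
the first term, dominated convergence: `∫ dv/(1+v²) = π`; the second is at most
`2r ∫ exp(1-τ²) dτ`).  [Alternatively apply (1) to rectangles with the square around `0` cut out and
`Complex.circleIntegral`, or any other proof.] -/
def LineShift : Prop :=
  (∀ (g : ℂ → ℂ) (σ₁ σ₂ δ C : ℝ), σ₁ < σ₂ → 0 < δ →
    DifferentiableOn ℂ g {s | σ₁ - δ < s.re ∧ s.re < σ₂ + δ} →
    (∀ s : ℂ, σ₁ ≤ s.re → s.re ≤ σ₂ → ‖g s‖ ≤ C * Real.exp (-|s.im|)) →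
    ∫ τ : ℝ, g ((σ₁ : ℂ) + τ * Complex.I) = ∫ τ : ℝ, g ((σ₂ : ℂ) + τ * Complex.I)) ∧
  (∀ (h : ℂ → ℂ) (C : ℝ), DifferentiableOn ℂ h {s | |s.re| < 1} →
    (∀ s : ℂ, |s.re| ≤ 1 / 2 → ‖h s‖ ≤ C * Real.exp (-|s.im|)) →
    1 / (2 * Real.pi) * (∫ τ : ℝ, h (1 / 2 + τ * Complex.I) / (1 / 2 + τ * Complex.I)) -
      1 / (2 * Real.pi) * (∫ τ : ℝ, h (-(1 / 2) + τ * Complex.I) / (-(1 / 2) + τ * Complex.I))
      = h 0)

/-- The exponential series of `b` extends analytically to a neighbourhood of `0`. -/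
def NearZero (b : ℕ → ℂ) (r : ℝ) : Prop :=
  ∃ S : ℂ → ℂ, DifferentiableOn ℂ S (Metric.ball 0 r) ∧
    ∀ z ∈ Metric.ball (0 : ℂ) r, 0 < z.re → S z = ∑' n : ℕ, b n * Complex.exp (-(n * z))

/-- **G5, analyticity at `0`.**

Proof (from G1, G2, G2b, G3, G4).  `F` is bounded on `Re s ≥ 2` by `∑ |b n| n^(-2)`; G1 gives `R'`.  Let `x > 0` and
`J(σ) = (1/2π) ∫ F(σ+iτ) Γ(σ+iτ) x^(-(σ+iτ)) dτ`.  By G3 `∑ b n exp(-n x) = J(3)`.  By G4 (1)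
`J(3) = J(1/2)` (the integrand is analytic for `Re s > 0`, and `O(exp(-|τ|))` on the closed strip:
`|Γ| ≤ C exp(-(5/4)|τ|)` by G2b with `φ = 5/4 < π/2`, and `|F|` is bounded by a power of `1 + |τ|`
by G1).
For `k ≥ 0`: `J(1/2 - k) - J(-1/2 - k) = F(-k)(-x)^k/k!` by G4 (2) with
`h(w) = F(w-k) x^(k-w) Γ(w+1)/((w-1)(w-2)⋯(w-k))` (`w Γ(w-k) = Γ(w+1)/((w-1)⋯(w-k))`;
`|w - j| ≥ 1/2` for `|Re w| ≤ 1/2`; G1 and G2b give the decay).
Remainder: on `Re s = -N-1/2`, G1 gives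
`|F| ≤ exp((N+7/2) log(N+7/2+t) + R'(N+7/2))`, `t = |τ|`, and with G2
`|F Γ| ≤ 10 · 4^N e^(-πt/2) e^(R'(N+7/2)) (N+7/2+t)^(N+7/2)/(N+1+t)^(N+1)
≤ C₁ A^N (N+4+t)^(5/2) e^(-πt/2)`, `A = 4 e^(R')`
(`((N+7/2+t)/(N+1+t))^(N+1) ≤ e^(5/2)`).  So `|J(-N-1/2)| ≤ C₂ (2A)^N x^(N+1/2) → 0` for
`0 < x < 1/(2A)`, and `∑ b n exp(-n x) = ∑_k F(-k)(-x)^k/k!` for such `x`.  Also by G1
`|F(-k)| ≤ exp((k+3) log(k+3) + R'(k+3)) ≤ C₃ A₃^k k!` (`(k+3)^(k+3) ≤ C (2e)^k k!`), so the power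
series `S(z) = ∑ F(-k)(-z)^k/k!` has a positive radius of convergence.  Take `r` smaller than it and
`1/(2A)`; `S(z) = ∑ b n exp(-n z)` for real `z ∈ (0, r)`, hence for `Re z > 0`, `|z| < r` by the
identity theorem (both sides are analytic on this convex set). -/
def Expansion : Prop :=
  ∀ (b : ℕ → ℂ) (F : ℂ → ℂ) (R : ℝ), b 0 = 0 →
    Summable (fun n : ℕ => ‖b n‖ * (n : ℝ) ^ (-(2 : ℝ))) → Differentiable ℂ F → Grows F R →
    (∀ s : ℂ, 2 ≤ s.re → F s = ∑' n : ℕ, b n * (n : ℂ) ^ (-s)) →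
    ∃ r : ℝ, 0 < r ∧ NearZero b r

/-- The keyhole contour (image under `exp`): the circle `|z| = exp η` except the angles less than
`β`, where the radius is `exp(-η')`, and the two connecting segments. -/
def keyhole (η η' β : ℝ) : Set ℂ :=
  {z | ∃ u y : ℝ, z = Complex.exp (u + y * Complex.I) ∧
    ((u = η ∧ β ≤ |y| ∧ |y| ≤ Real.pi) ∨ (u = -η' ∧ |y| ≤ β) ∨ (-η' ≤ u ∧ u ≤ η ∧ |y| = β))}

/-- The pairing of a polynomial with the sequence `b`. -/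
noncomputable def pair (b : ℕ → ℂ) (P : Polynomial ℂ) : ℂ :=
  ∑ n ∈ Finset.range (P.natDegree + 1), P.coeff n * b n

/-- **G6, the pairing is bounded by the supremum on the keyhole.**

Proof.  For `u > 0` let `T(u+iy) = ∑ b n exp(-n(u+iy))` (absolutely convergent).  Then
`b n = (1/2π) ∫_{-π}^{π} T(η+iy) exp(n(η+iy)) dy` (uniform convergence, orthogonality), so
`pair b P = (1/2π) ∫_{-π}^{π} T(η+iy) P(exp(η+iy)) dy`.  On `|y| ≤ β` replace the segment from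
`η - iβ` to `η + iβ` by the three other sides of the rectangle `[-η', η] × [-β, β] ⊂ ball 0 r`,
where `S(z) P(exp z)` is analytic (`Complex.integral_boundary_rect_eq_zero_of_differentiableOn`) and
`S = T` for `Re z > 0`.  All values `exp z` on the new path lie on the keyhole; take for `M` the
integral of `|T|`, `|S|` over the path divided by `2π` (continuous functions on compact segments). -/
def Functional : Prop :=
  ∀ (b : ℕ → ℂ) (r η η' β : ℝ), b 0 = 0 →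
    Summable (fun n : ℕ => ‖b n‖ * (n : ℝ) ^ (-(2 : ℝ))) → NearZero b r → 0 < β → β < Real.pi →
    0 < η' → β ^ 2 + η' ^ 2 < r ^ 2 → 0 < r → 0 < η → η ≤ η' →
    ∃ M : ℝ, 0 ≤ M ∧ ∀ (P : Polynomial ℂ) (ρ : ℝ), (∀ z ∈ keyhole η η' β, ‖P.eval z‖ ≤ ρ) →
      ‖pair b P‖ ≤ M * ρ

/-- **G7, a monic polynomial which is small on the keyhole.**

Proof.  `β = min (r/2) 1`, `J ≥ 1` with `1/((J+1) sin²(β/2)) ≤ 1/2`, `c_j = 1 - j/(J+1)`,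
`η' = min (1/(16 J²)) (r/2)`, `p = z^J + ε ∑_{j=1}^{J} c_j z^(J-j)`.  Fejer kernel:
`1 + 2 ∑_{j=1}^{J} c_j cos(jy) = (sin((J+1)y/2)/sin(y/2))²/(J+1) ≤ 1/2` for `β ≤ |y| ≤ π`, so
`∑ c_j cos(jy) ≤ -1/4`.  Let `z = exp(u+iy)` with `β ≤ |y| ≤ π`, `|u| ≤ 1/(16J²)`:
`p(z) = z^J (1 + ε g)`, `g = ∑ c_j z^(-j)`, `|g - ∑ c_j e^(-ijy)| ≤ ∑_{j ≤ J} 2 j |u| ≤ 1/8`, so
`Re g ≤ -1/8`, `|g| ≤ J`, `|1 + εg|² ≤ 1 - ε/4 + ε²J² ≤ 1 - ε/8` for `ε ≤ 1/(8J²)`, so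
`|1 + εg| ≤ 1 - ε/16`.  For `u ≤ 0` this bounds `|p(z)|`; for `0 < u ≤ η₀ ≤ ε/(64J)`:
`|p(z)| ≤ e^(Jη₀)(1 - ε/16) ≤ 1 - ε/32`.  For `u = -η'`, `|y| ≤ β`:
`|p(z)| ≤ e^(-Jη') + εJ ≤ (1 + e^(-Jη'))/2` if `ε ≤ (1 - e^(-Jη'))/(2J)`.  Take such an `ε > 0`,
`η₀ = min η' (ε/(64J))`, `ρ` the larger of the two bounds. -/
def SmallPoly : Prop :=
  ∀ r : ℝ, 0 < r → ∃ β η' η₀ ρ : ℝ, ∃ p : Polynomial ℂ, 0 < β ∧ β < Real.pi ∧ 0 < η' ∧
    β ^ 2 + η' ^ 2 < r ^ 2 ∧ 0 < η₀ ∧ η₀ ≤ η' ∧ 0 < ρ ∧ ρ < 1 ∧ p.Monic ∧ 0 < p.natDegree ∧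
    ∀ η : ℝ, 0 < η → η ≤ η₀ → ∀ z ∈ keyhole η η' β, ‖p.eval z‖ ≤ ρ

/-- `b` satisfies a nontrivial linear recurrence with integer coefficients. -/
def Recurrent (b : ℕ → ℤ) : Prop :=
  ∃ (d : ℕ) (q : ℕ → ℤ), (∃ i ≤ d, q i ≠ 0) ∧
    ∀ j : ℕ, ∑ i ∈ Finset.range (d + 1), q i * b (i + j) = 0

/-- **G8, recurrence (Polya-Carlson by Siegel's lemma).**

Proof (from G6, G7).  `|b n| ≤ B (n+1)²` by summability.  Take `β, η', η₀, ρ, p` from G7, `J = deg p`,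
`η ∈ (0, η₀]` with `exp(2η) ≤ ρ^(-1/(2J))`, `M` from G6.  Let `L ≥ 1` and `e_j = ∑_{i<2L} q_i b_{i+j}`.
By Siegel's lemma (`Int.Matrix.exists_ne_zero_int_vec_norm_le`, `L` equations, `2L` unknowns, entries
at most `A = max 1 (B (3L+1)²)`) there is `q ≠ 0` with `|q_i| ≤ 2 L A` and `e_j = 0` for `j < L`.
Let `j ≥ L` and `e_i = 0` for `i < j`.  With `m = j / J`, `g = p^m z^(j - mJ)` is monic of degree
`j`, and `pair b (q(z) g(z)) = ∑_k g_k e_k = e_j`.  On the keyhole `|z| ≤ exp η`, so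
`|e_j| ≤ M (2L)(2LA) exp(2Lη) exp(Jη) ρ^m`, `ρ^m ≤ ρ^(L/J - 1)`; the right side is at most
`C L² A ρ^(L/(2J)) < 1` if `L` is large.  So `e_j = 0` (an integer), and by induction `e_j = 0` for all
`j`. -/
def RecurrentOf : Prop :=
  ∀ (b : ℕ → ℤ) (r : ℝ), b 0 = 0 →
    Summable (fun n : ℕ => |(b n : ℝ)| * (n : ℝ) ^ (-(2 : ℝ))) → 0 < r →
    NearZero (fun n => (b n : ℂ)) r → Recurrent b

/-- **G9, boundedness.**

Proof.  `G(w) = ∑ b n w^n`, `|w| < 1`.  The recurrence says `Q(w) G(w) = P(w)` with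
`Q = ∑ q_i w^(d-i) ≠ 0` and a polynomial `P`; dividing by the gcd in `ℂ[w]` let `P, Q` be coprime.
`Q` has no zero in `|w| < 1` (it would be a zero of `P`).  A zero `w₀`, `|w₀| = 1`, of `Q` is simple:
otherwise `|G(r w₀)| ≥ c (1-r)^(-2)` as `r → 1-` (`P(w₀) ≠ 0`), but
`|G(r w₀)| ≤ ∑ |b n| r^n ≤ C sup_n n^(7/4) r^n ≤ C' (1-r)^(-7/4)`.  So `Q = Q₁ Q₂`, `Q₁` with distinct
zeros on the unit circle and `Q₂` with all zeros in `|w| > 1`, coprime: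
`P/Q = U/Q₁ + V/Q₂`.  The power series of `V/Q₂` converges for some `|w| > 1`, so its coefficients
are bounded; `U/Q₁` is a polynomial plus `∑ c_j/(1 - w/w_j)`, with bounded coefficients. -/
def BoundedOf : Prop :=
  ∀ b : ℕ → ℤ, Summable (fun n : ℕ => |(b n : ℝ)| * (n : ℝ) ^ (-(7 / 4 : ℝ))) → Recurrent b →
    ∃ B : ℤ, ∀ n, |b n| ≤ B

open Classical PowerSeries in
/-- **G10, the Dirichlet series of the Euler product.**

Proof.  For each `i` let `c_{i,0} = 1`, `c_{i,1} = a_i`, `c_{i,k+2} = a_i c_{i,k+1} - g_i N_i c_{i,k}`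
(integers), the coefficients of `1/(1 - a_i X + g_i N_i X²)`.  For `σ > 3/2` let
`θ_i = |a_i| N_i^(-σ) + N_i^(1-2σ) ≤ N_i^(-1/2) + N_i^(-2) ≤ 0.958`; then
`∑_{k ≥ 1} |c_{i,k}| N_i^(-kσ) ≤ θ_i/(1-θ_i) ≤ 24 θ_i`, `θ_i ≤ A N_i^(1/2-σ) + N_i^(1-2σ)`, summable
over `i` by A7.  For a finitely supported `κ : ι → ℕ` let `c_κ = ∏ c_{i,κ_i}`, `N_κ = ∏ N_i^{κ_i}`;
`∑_κ |c_κ| N_κ^(-σ) = ∏ (1 + ∑_{k≥1} |c_{i,k}| N_i^(-kσ)) < ∞`.  `b n = ∑_{N_κ = n} c_κ` (a finite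
sum: `N_i ≥ 2` and finitely many `i` with `N_i ≤ n`), `b 0 = 0`.  Then
`∑ |b n| n^(-σ) ≤ ∑_κ |c_κ| N_κ^(-σ)` and `∑ b n n^(-s) = ∏ eden_i(s)⁻¹`.  [Alternatively: partial
products over `N_i ≤ x` are Dirichlet series with integer coefficients (Dirichlet convolution,
`ArithmeticFunction`), whose `n`-th coefficient does not change for `x ≥ n`; pass to the limit;
Mathlib has `ArithmeticFunction.ofPowerSeries`, `ArithmeticFunction.eulerProduct`.]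
Prime powers: if all `N_i` divisible by the prime `p` are powers of `p`, then `N_κ = p^k` forces the
support of `κ` to consist of such `i`; so `∑_k b(p^k) X^k` is the product over the finitely many `i`
with `p ∣ N_i`, `N_i = p^(f_i)`, of `∑_k c_{i,k} X^(f_i k) = 1/(1 - a_i X^(f_i) + g_i N_i X^(2f_i))`. -/
def Coeffs : Prop :=
  ∀ (ι : Type) (N : ι → ℕ) (a : ι → ℤ) (good : ι → Prop) (C A : ℝ),
    Sparse N C → (∀ i, |(a i : ℝ)| ≤ N i) → (∀ i, |(a i : ℝ)| ≤ A * √(N i)) →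
    ∃ b : ℕ → ℤ, b 0 = 0 ∧
      (∀ σ : ℝ, 3 / 2 < σ → Summable (fun n : ℕ => |(b n : ℝ)| * (n : ℝ) ^ (-σ))) ∧
      (∀ s : ℂ, 3 / 2 < s.re →
        ∏' i, (eden (N i) (a i) (good i) s)⁻¹ = ∑' n : ℕ, (b n : ℂ) * (n : ℂ) ^ (-s)) ∧
      ∀ (p : ℕ) (f : ι → ℕ), p.Prime → {i | p ∣ N i}.Finite →
        (∀ i, p ∣ N i → 0 < f i ∧ N i = p ^ f i) →
        (PowerSeries.mk fun k => b (p ^ k)) *
          (∏ᶠ i ∈ {i | p ∣ N i}, (1 - PowerSeries.C (a i) * (PowerSeries.X : ℤ⟦X⟧) ^ f i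
            + (if good i then 1 else 0) * PowerSeries.C (N i : ℤ)
              * (PowerSeries.X : ℤ⟦X⟧) ^ (2 * f i))) = 1

open Classical PowerSeries in
/-- **G11, unboundedness.**

Proof.  Suppose `|c k| ≤ B` for all `k`.  Then for `|T| < 1`, evaluating the identity of power
series (all series converge absolutely for `|T| < 1`, the second factor is a polynomial)
`(∑ c k T^k) ∏_{i ∈ s} (1 - a_i T^(f_i) + g_i N_i T^(2 f_i)) = 1`.  The two complex roots of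
`1 - a U + N U²` (`a = a_{i₀}`, `N = N_{i₀} ≥ 2`) have product `1/N`, so one of them, `U₀`, has
`|U₀| ≤ N^(-1/2) < 1`; choose `T₀` with `T₀^(f_{i₀}) = U₀`, `|T₀| < 1`: the factor `i₀` vanishes at `T₀`,
so `0 = 1`. -/
def Unbounded : Prop :=
  ∀ (ι : Type) (s : Finset ι) (N f : ι → ℕ) (a : ι → ℤ) (good : ι → Prop) (c : ℕ → ℤ) (i₀ : ι),
    i₀ ∈ s → good i₀ → 2 ≤ N i₀ → 0 < f i₀ →
    (PowerSeries.mk c) * (∏ i ∈ s, (1 - PowerSeries.C (a i) * (PowerSeries.X : ℤ⟦X⟧) ^ f i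
      + (if good i then 1 else 0) * PowerSeries.C (N i : ℤ)
        * (PowerSeries.X : ℤ⟦X⟧) ^ (2 * f i))) = 1 →
    ¬ ∃ B : ℤ, ∀ k, |c k| ≤ B

/-- **G12, the growth theorem.**

Proof (from N1-N4, G5, G8-G11).  As in N5/B6: `Sparse nm C`, `|tr (M v) v| ≤ nm v`,
`|tr (M v) v| ≤ A √(nm v)`.  Let `b` be the sequence of G10 for `N = nm`, `a v = tr (M v) v`,
`good v = ((M v).Δ ∉ v)`.  If `Grows F R`, then G5 (with `F s = ∑ b n n^(-s)` for `Re s ≥ 2`), G8, G9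
show that `b` is bounded.  Choose `v₀` with `(M v₀).Δ ∉ v₀` (all but finitely many `v`, there are
infinitely many), `p` the prime number below `v₀`; for `p ∣ nm v` one has `nm v = p^(f v)`,
`f v ≥ 1`, and there are finitely many such `v`.  G11 with `c k = b (p^k)` gives a contradiction. -/
def Growth : Prop :=
  ∀ (K : Type) [Field K] [NumberField K] (E : WeierstrassCurve K), E.IsElliptic →
    ∀ M : HeightOneSpectrum (𝓞 K) → WeierstrassCurve (𝓞 K), (∀ v, IsMinAt E v (M v)) →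
    ∀ F : ℂ → ℂ, Differentiable ℂ F →
      (∀ s : ℂ, 3 / 2 < s.re → F s = ∏' v : HeightOneSpectrum (𝓞 K), (locDen (M v) v s)⁻¹) →
      ∀ R : ℝ, ∃ s : ℂ, Real.exp (‖s‖ * Real.log (1 + ‖s‖) + R * (1 + ‖s‖)) < ‖F s‖

end MP7ed9c3
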