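import Pool.Agent.Lib.MP_7ed9c3_nt.Defs

/-!
# MP_7ed9c3_nt: statements H (the Hasse bound, after Manin)

`q = #F`, `λ = X³ + a X + b`.  On the curve `λ y² = x³ + a x + b` over `F(X)` there are the points
`Q = (X, 1)` and `P = (X^q, λ^((q-1)/2))`.  Let `d n` be the degree of the numerator of `x(P + n Q)`
(`0` for the zero point).  Then `d (n+1) + d (n-1) = 2 d n + 2`, `d 0 = q`, `d (-1) = N + 1` with
`N` the number of affine points over `F`; so `d n = n² + (q - N) n + q ≥ 0` for all `n`, which is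
the Hasse bound.  In Lean the curve is used in the form `tw a b : Y² = X³ + a λ² X + b λ³`.
-/

namespace MP7ed9c3

open Polynomial

/-- **H1, short form.**

Proof.  `b₂ = a₁² + 4 a₂`, `b₄ = 2 a₄ + a₁ a₃`, `b₆ = a₃² + 4 a₆`.  The map
`(x, y) ↦ (x + b₂/12, y + (a₁ x + a₃)/2)` is a bijection of `F × F` carrying the solutions of the
Weierstrass equation to those of `y² = x³ + a x + b` with `a = -c₄/48`, `b = -c₆/864`
(`c₄ = b₂² - 24 b₄`, `c₆ = -b₂³ + 36 b₂ b₄ - 216 b₆`), and `4 a³ + 27 b² = -Δ/16`.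
(`2 ≠ 0`, `3 ≠ 0`, so `12, 48, 864, 16` are invertible.) -/
def ShortForm : Prop :=
  ∀ (F : Type) [Field F] (W : WeierstrassCurve F), (2 : F) ≠ 0 → (3 : F) ≠ 0 →
    affCount W = shortCount (-(W.c₄ / 48)) (-(W.c₆ / 864)) ∧
      4 * (-(W.c₄ / 48)) ^ 3 + 27 * (-(W.c₆ / 864)) ^ 2 = -(W.Δ / 16)

/-- **H2, addition-and-subtraction of abscissae.**  Short Weierstrass equation `Y² = X³ + A X + B`
over a field of characteristic not 2.

Proof.  `P.sym2x Q` is `(x x', x + x', 1)` with the convention `x(0) = (1 : 0)`, i.e. built from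
`xRep`.  `b₂ = 0, b₄ = 2 A, b₆ = 4 B, b₈ = -A²`.  Cases.
`P = 0` or `Q = 0`: then `P + Q` and `P - Q` are `±` the other point, `sym2x (P+Q) (P-Q)` is
`(x², 2x, 1)` or `(1,0,0)`, and the three polynomials at `(x, 1, 0)` (resp. `(1,0,0)`) are
`(x², 2x, 1)` (resp. `(1,0,0)`): `c = 1`.
Both affine, `x ≠ x'`: `c = (x - x')²`; `x(P+Q) = m² - x - x'`, `m = (y - y')/(x - x')`,
`x(P-Q) = m'² - x - x'`, `m' = (y + y')/(x - x')`; clear denominators, use `y² = x³ + A x + B` and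
`y'² = x'³ + A x' + B` (`linear_combination`).
`x = x'`: then `y' = y` or `y' = -y` (as `y² = y'²`); by symmetry (the statement is invariant under
`Q ↦ -Q`, see `sym2x_neg_right`, `sym2x_comm`) let `Q = P`: `P - Q = 0`.  If `y ≠ 0` (so
`2 y ≠ 0`): `x(2P) = ((3x²+A)/(2y))² - 2x`, the vector is
`(x⁴ - 2A x² - 8 B x + A², 4(x³ + A x + B), 0) = 4 y² (x(2P), 1, 0)`: `c = 4 y²`.  If `y = 0`:
`2 P = 0`, the vector is `((3 x² + A)², 0, 0)` (use `x³ + A x + B = 0`), and `3 x² + A ≠ 0` since `P`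
is nonsingular: `c = (3 x² + A)²`. -/
def AddSub : Prop :=
  ∀ (K : Type) [Field K] [DecidableEq K] (W : WeierstrassCurve K), W.a₁ = 0 → W.a₂ = 0 →
    W.a₃ = 0 → (2 : K) ≠ 0 → ∀ P Q : W.toAffine.Point, ∃ c : K, c ≠ 0 ∧
      ∀ i, MvPolynomial.eval (P.sym2x Q) (W.addSubMap i) = c * (P + Q).sym2x (P - Q) i

/-- **H3, primitive vectors.**

Proof.  (1) The base change `W` of the curve `(0,0,0,a,b)` to `F[X]` has discriminant
`-16 (4a³ + 27b²)`, a unit of `F[X]`, so `W.IsElliptic`; let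
`v = ![X f, X g + f, g]`.  Then `A0, A1, A2` are the values at `v` of `W.addSubMap`
(`b₂ = 0, b₄ = 2a, b₆ = 4b, b₈ = -a²`).  If an irreducible (hence prime) `π` divides them all, then
by `WeierstrassCurve.addSubMapCoeff_condition` it divides `v i ^ 4`, hence `v i`, for all `i`: so
`π ∣ g`, `π ∣ X g + f`, hence `π ∣ f`, contradicting coprimality.
(2) If `π` divides `f₁ f₂`, `g₁ g₂` and `f₁ g₂ + f₂ g₁`: say `π ∣ f₁`; then `π ∤ g₁`, so `π ∣ g₂`, so
`π ∤ f₂`, but `π ∣ f₂ g₁`, a contradiction; the case `π ∣ f₂` is symmetric. -/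
def Primitive : Prop :=
  ∀ (F : Type) [Field F] (a b : F), (2 : F) ≠ 0 → 4 * a ^ 3 + 27 * b ^ 2 ≠ 0 →
    (∀ f g : F[X], IsCoprime f g → ∀ π : F[X], Irreducible π →
      ¬ (π ∣ A0 a b f g ∧ π ∣ A1 a b f g ∧ π ∣ A2 f g)) ∧
    (∀ f₁ g₁ f₂ g₂ : F[X], IsCoprime f₁ g₁ → IsCoprime f₂ g₂ → ∀ π : F[X], Irreducible π →
      ¬ (π ∣ f₁ * f₂ ∧ π ∣ f₁ * g₂ + f₂ * g₁ ∧ π ∣ g₁ * g₂))

/-- **H4, proportional primitive vectors.**

Proof.  Write `c = r/s` with `r, s : F[X]` coprime, `s ≠ 0` (`RatFunc.num`, `RatFunc.denom`); then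
`s u_i = r w_i` for all `i` (`algebraMap` is injective).  If `r` is not a unit (it is not `0`) an
irreducible factor of it divides every `u_i` (it is coprime to `s`), excluded; likewise an
irreducible factor of `s` divides every `w_i`.  So `r, s` are units, i.e. nonzero constants. -/
def PropUnit : Prop :=
  ∀ (F : Type) [Field F] (u w : Fin 3 → F[X]) (c : RatFunc F), c ≠ 0 →
    (∀ π : F[X], Irreducible π → ¬ ∀ i, π ∣ u i) → (∀ π : F[X], Irreducible π → ¬ ∀ i, π ∣ w i) →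
    (∀ i, algebraMap F[X] (RatFunc F) (u i) = c * algebraMap F[X] (RatFunc F) (w i)) →
    ∃ e : F, e ≠ 0 ∧ ∀ i, u i = C e * w i

/-- **H5, reduced fractions.**

Proof.  Existence: for the zero point `f = 1`, `g = 0` (`xRep = ![1, 0]`).  For `P = (x, y)`
(`xRep = ![x, 1]`) let `r = x / λ` in `F(X)` (`λ ≠ 0`, it is monic), `f = r.num`, `g = r.denom`.
Uniqueness: let `(f, g)`, `(f', g')` represent `P`.  The equations say that `(f, g)` and `(f', g')`
are both proportional to `(x, λ)` (resp. to `(1, 0)`), so `f g' = f' g`.  By coprimality `f ∣ f'`,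
`f' ∣ f`, `g ∣ g'`, `g' ∣ g`; so `f' = e f` with a unit `e` (if `f ≠ 0`) and then `g' = e g`; if
`f = 0` then `f' = 0` and `g, g'` are units. -/
def RepFacts : Prop :=
  ∀ (F : Type) [Field F] (a b : F),
    (∀ P : (tw a b).toAffine.Point, ∃ f g, Rep a b P f g) ∧
    (∀ (P : (tw a b).toAffine.Point) (f g f' g' : F[X]), Rep a b P f g → Rep a b P f' g' →
      ∃ e : F, e ≠ 0 ∧ f' = C e * f ∧ g' = C e * g)

open Classical in
/-- **H6, the step for reduced fractions.**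

Proof (from H2, H3, H4).  Apply H2 to `tw a b`, `P`, `Q` over `K = F(X)` (`2 ≠ 0` there).  Write
`λ` for the image of `lam a b`.  `tw a b` has `b₂ = 0`, `b₄ = 2 a λ²`, `b₆ = 4 b λ³`, `b₈ = -a² λ⁴`.
From `Rep`: `(P.xRep 0 : P.xRep 1) = (λ f : g)` up to a nonzero factor `μ`
(`P.xRep 0 = μ λ f`, `P.xRep 1 = μ g`), `(Q.xRep 0 : Q.xRep 1) = (λ X : 1)` up to `ν`, and similarly
for `P + Q`, `P - Q` with factors `μ₁`, `μ₂`.  [For a point `(x, y)`: `x g = λ f`, `g ≠ 0` (else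
`f = 0` too, not coprime), `μ = 1/g`; for `0`: `g = 0`, `f` a unit, `μ = 1/(λ f)`.]  Hence
`P.sym2x Q = μ ν (λ² X f, λ (X g + f), g)`, so by homogeneity
`addSubMap (P.sym2x Q) = (μ ν)² (λ⁴ A0, λ³ A1, λ² A2)`, and
`(P+Q).sym2x (P-Q) = μ₁ μ₂ (λ² f₁ f₂, λ (f₁ g₂ + f₂ g₁), g₁ g₂)`.  Therefore
`(f₁ f₂, f₁ g₂ + f₂ g₁, g₁ g₂)` is a nonzero multiple of `(A0, A1, A2)`; conclude by H3 and H4. -/
def StepRep : Prop :=
  ∀ (F : Type) [Field F] (a b : F), (2 : F) ≠ 0 → 4 * a ^ 3 + 27 * b ^ 2 ≠ 0 →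
    ∀ (P Q : (tw a b).toAffine.Point) (f g f₁ g₁ f₂ g₂ : F[X]), Rep a b Q X 1 → Rep a b P f g →
      Rep a b (P + Q) f₁ g₁ → Rep a b (P - Q) f₂ g₂ →
      ∃ e : F, e ≠ 0 ∧ f₁ * f₂ = C e * A0 a b f g ∧ f₁ * g₂ + f₂ * g₁ = C e * A1 a b f g ∧
        g₁ * g₂ = C e * A2 f g

/-- **H7, degrees.**

Proof.  Let `k = natDegree f` (`f ≠ 0`).  As `deg g < deg f`, `deg (X g + f) ≤ k`,
`deg (X f - a g) = deg (X f + a g) = k + 1`; so `natDegree A0 = 2k + 2`, `natDegree A1 ≤ 2k + 1`,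
`natDegree A2 ≤ 2k` (also `A0 ≠ 0`).  Hence `f₁, f₂ ≠ 0` and the first claim.  Suppose
`deg f₁ ≤ deg g₁` (so `g₁ ≠ 0`).  If `g₂ ≠ 0`, then `natDegree g₂ ≤ 2k - natDegree g₁ ≤
2k - natDegree f₁ = natDegree f₂ - 2`, so `deg (f₁ g₂) < deg (f₂ g₁)`; hence (also if `g₂ = 0`)
`natDegree (f₁ g₂ + f₂ g₁) = natDegree f₂ + natDegree g₁ ≥ natDegree f₂ + natDegree f₁ = 2k + 2`,
contradicting `natDegree A1 ≤ 2k + 1`.  Symmetrically for `g₂`. -/
def DegStep : Prop :=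
  ∀ (F : Type) [Field F] (a b e : F) (f g f₁ g₁ f₂ g₂ : F[X]), e ≠ 0 → g.degree < f.degree →
    f₁ * f₂ = C e * A0 a b f g → f₁ * g₂ + f₂ * g₁ = C e * A1 a b f g →
    g₁ * g₂ = C e * A2 f g →
    f₁.natDegree + f₂.natDegree = 2 * f.natDegree + 2 ∧ g₁.degree < f₁.degree ∧
      g₂.degree < f₂.degree

/-- **H8a, the abscissa of `P - Q` in reduced form.**

Proof.  `q = #F` is odd.  Let `D = (X^q - X)²` and
`E = λ (λ^((q-1)/2) + 1)² - (X^q + X) (X^q - X)²`.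
`X^q - X = ∏_{α ∈ F} (X - α)` (`FiniteField.X_pow_card_sub_X_...`, `FiniteField.prod_X_sub_C...`).
Let `R, S, Z` be the sets of `α` with `λ(α)^((q-1)/2) = 1`, `= -1`, and `λ(α) = 0`; in `R` the value
`λ(α)` is a nonzero square, in `S` it is not a square (`FiniteField.isSquare_iff`).
Let `H = ∏_{S} (X - α)² ∏_{Z} (X - α)`, `G = ∏_{R} (X - α)² ∏_{Z} (X - α)`; `D = G H`.
`H ∣ E`: for `α ∈ S`, `X - α` divides `λ^((q-1)/2) + 1` and `X^q - X`; for `α ∈ Z`, it divides `λ`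
and `X^q - X` (different factors are coprime).  Let `E = H f`; then `f D = G E`.  `f, G` are
coprime: for `α ∈ R`, `E(α) = 4 λ(α) ≠ 0`; for `α ∈ Z`, `(X - α)²` does not divide `E`, since it
divides `(X^q - X)²`, while `λ (λ^((q-1)/2) + 1)²` has a simple zero at `α` (`λ` has simple roots
because `4a³ + 27b² ≠ 0`: if `λ(α) = λ'(α) = 0` then `a = -3α²`, `b = 2α³`; and the second factor
is `1` at `α`).  `natDegree G = 2 #R + #Z`, which is the number `N = shortCount a b` of solutions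
(over `x = α` there are 2, 0, 1 solutions for `α` in `R`, `S`, `Z`).  Degree of `E`:
`λ (λ^((q-1)/2) + 1)² = λ^q + 2 λ^((q+1)/2) + λ`, and, as `λ^q = X^(3q) + a X^q + b`,
`λ^q - (X^q + X)(X^q - X)² = X^(3q) + a X^q + b - (X^(3q) - X^(2q+1) - X^(q+2) + X^3)
 = X^(2q+1) + X^(q+2) - X^3 + a X^q + b`; the other terms `2 λ^((q+1)/2) + λ` have degree at most
`3(q+1)/2 < 2q + 1` (as `q ≥ 3`).  So `natDegree E = 2q + 1` and
`natDegree f = 2q + 1 - (2 #S + #Z) = 2 #R + #Z + 1 = N + 1`, as `#R + #S + #Z = q`. -/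
def BaseFrac : Prop :=
  ∀ (F : Type) [Field F] [Finite F] (a b : F), (2 : F) ≠ 0 → 4 * a ^ 3 + 27 * b ^ 2 ≠ 0 →
    ∃ f G : F[X], IsCoprime f G ∧
      f * (X ^ Nat.card F - X) ^ 2 = G * (lam a b * (lam a b ^ ((Nat.card F - 1) / 2) + 1) ^ 2
        - (X ^ Nat.card F + X) * (X ^ Nat.card F - X) ^ 2) ∧
      f.natDegree = shortCount a b + 1

open Classical in
/-- **H8b, the two points.**

Proof (from H8a).  `q = #F` is odd.  `Q = (λ X, λ²)`, `P = (λ X^q, λ^((q+3)/2))` satisfy the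
equation of `tw a b`: for `P` use `λ^q = X^(3q) + a X^q + b` (Frobenius of `F[X]`, `a^q = a`,
`b^q = b`, e.g. `Polynomial.expand`/`FiniteField.expand_card`), so
`Y² = λ^(q+3) = λ³ (X^(3q) + a X^q + b)`.  They are nonsingular since `2 Y ≠ 0`.  `Rep Q X 1`,
`Rep P (X^q) 1` and `Q ≠ 0` are clear.  `P - Q = P + (-Q)`, `-Q = (λ X, -λ²)`, the abscissae are
different; the abscissa of `P - Q` is
`((λ^((q+3)/2) + λ²) / (λ X^q - λ X))² - λ X^q - λ X = λ E / (X^q - X)²` with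
`E = λ (λ^((q-1)/2) + 1)² - (X^q + X) (X^q - X)²`.  So `Rep (P - Q) f G` with the `f, G` of H8a. -/
def BasePoints : Prop :=
  ∀ (F : Type) [Field F] [Finite F] (a b : F), (2 : F) ≠ 0 → 4 * a ^ 3 + 27 * b ^ 2 ≠ 0 →
    ∃ P Q : (tw a b).toAffine.Point, Rep a b Q X 1 ∧ Q ≠ 0 ∧ Rep a b P (X ^ Nat.card F) 1 ∧
      ∃ f g, Rep a b (P - Q) f g ∧ f.natDegree = shortCount a b + 1

open Classical in
/-- **H9, the Hasse bound.**

Proof (from H5-H8).  Let `P, Q` be as in `BasePoints`, `d n` the `natDegree` of the numerator `f` of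
a reduced fraction of `P + n • Q` (`n : ℤ`; independent of the choice by H5).  By H6 and H7,
starting from `n = 0` (`f = X^q, g = 1`), for all `n` `deg g < deg f` and
`d (n+1) + d (n-1) = 2 d n + 2` (`(P + n Q) ± Q = P + (n ± 1) Q`).  With `d 0 = q`,
`d (-1) = N + 1`: `d n = n² + t n + q`, `t = q - N`, for all integers `n` (two-sided induction).
Since `d n ≥ 0`: if `t² > 4q`, take `n` with `|2n + t| ≤ 1`; `4 d n = (2n+t)² + 4q - t² ≥ 0` forces
`|2n + t| = 1` and `t² = 4q + 1`; then also for `n' = n ± 1` with `2n' + t = -(2n+t)`,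
`d n = d n' = 0`; `d = 0` and `deg g < deg f` give `g = 0`, so `P + nQ = 0 = P + n'Q` (the only
point with `g = 0` is zero: `xRep 1 ≠ 0` for affine points), so `Q = 0`, a contradiction.  So
`t² ≤ 4q`. -/
def HasseShort : Prop :=
  ∀ (F : Type) [Field F] [Finite F] (a b : F), (2 : F) ≠ 0 → 4 * a ^ 3 + 27 * b ^ 2 ≠ 0 →
    ((Nat.card F : ℤ) - (shortCount a b : ℤ)) ^ 2 ≤ 4 * (Nat.card F : ℤ)

/-- **H10, the Hasse bound for a general Weierstrass equation** (from H1 and H9: `Δ ≠ 0` gives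
`4 a³ + 27 b² = -Δ/16 ≠ 0`). -/
def Hasse : Prop :=
  ∀ (F : Type) [Field F] [Finite F] (W : WeierstrassCurve F), (2 : F) ≠ 0 → (3 : F) ≠ 0 →
    W.Δ ≠ 0 → ((Nat.card F : ℤ) - (affCount W : ℤ)) ^ 2 ≤ 4 * (Nat.card F : ℤ)

/-- **H11, trivial bound** for all Weierstrass equations over a finite field.

Proof.  For every `x` the equation is a monic quadratic equation in `y`, with at most two roots; so
`0 ≤ affCount W ≤ 2 q`. -/
def Trivial : Prop :=
  ∀ (F : Type) [Field F] [Finite F] (W : WeierstrassCurve F),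
    |(Nat.card F : ℤ) - (affCount W : ℤ)| ≤ Nat.card F

end MP7ed9c3
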