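import Pool.Agent.Lib.MP_7ed9c3_nt.SpecH
import Pool.Agent.Lib.MP_7ed9c3_nt.SpecA

/-!
# MP_7ed9c3_nt: statements N (number fields)
-/

namespace MP7ed9c3

open NumberField IsDedekindDomain Filter Topology

/-- **N1, counting primes.**

Proof.  `nm v ≥ 2` (the ideal is neither `0` nor the unit ideal and the quotient is finite).  Let
`v` lie over the prime number `p`; `p ∣ nm v` (`nm v` is a power of `p`), so `p ≤ nm v`.  Over
every `p` there are at most `n = [K : ℚ]` primes (`Ideal.sum_ramification_inertia`, or a Mathlib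
bound for `primesOver`).  So the number of `v` with `nm v < 2^(k+1)` is at most
`n π(2^(k+1)) ≤ n (log 4 · 2^(k+1) / log √(2^(k+1)) + √(2^(k+1)))` (`Chebyshev.pi_le_log4_mul_div`)
`≤ n (8 + 3) 2^k/(k+1)`. -/
def CountPrimes : Prop :=
  ∀ (K : Type) [Field K] [NumberField K],
    ∃ C : ℝ, Sparse (fun v : HeightOneSpectrum (𝓞 K) => nm v) C

/-- **N2, an integral model.**

Proof.  Choose `d ∈ 𝓞 K`, `d ≠ 0`, with `d a_i ∈ 𝓞 K` for the five coefficients of `E`, and
`C = ⟨u, 0, 0, 0⟩`, `u = d⁻¹`: the coefficients of `C • E` are `d^i a_i` (`i = 1, 2, 3, 4, 6`), and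
`Δ` becomes `d^12 Δ ≠ 0`. -/
def ExistsModel : Prop :=
  ∀ (K : Type) [Field K] [NumberField K] (E : WeierstrassCurve K), E.IsElliptic →
    ∃ W : WeierstrassCurve (𝓞 K), W.Δ ≠ 0 ∧
      ∃ C : WeierstrassCurve.VariableChange K, C • E = W.map (algebraMap (𝓞 K) K)

/-- **N3, independence of the minimal model at good primes not dividing 6.**

Proof (from H1).  By minimality with `n = 1`: `W.Δ ∈ v` would give `W₀.Δ ∈ v`.  So both
discriminants are units at `v`.  There is `C` with `C • W₀.map = W.map` (over `K`); let `u = C.u`.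
`Δ(W) = u^(-12) Δ(W₀)`, `c₄(W) = u^(-4) c₄(W₀)`, `c₆(W) = u^(-6) c₆(W₀)`
(`WeierstrassCurve.variableChange_Δ`, `_c₄`, `_c₆`).  The `v`-adic valuation of `u` is trivial, so
`u⁻¹ = α/β` with `α, β ∈ 𝓞 K`, `α, β ∉ v` (elements of the localization at `v`).  Hence
`β^4 c₄(W) = α^4 c₄(W₀)`, `β^6 c₆(W) = α^6 c₆(W₀)` in `𝓞 K`; modulo `v` with `w = α/β ≠ 0` in the
field `𝓞 K ⧸ v`: `c₄' = w^4 c₄`, `c₆' = w^6 c₆`.  By H1 (`2, 3 ≠ 0` modulo `v`) the numbers of affine
points are `shortCount A B` and `shortCount (w^4 A) (w^6 B)`; `(x, y) ↦ (w² x, w³ y)` is a bijection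
between the two sets of solutions. -/
def GoodData : Prop :=
  ∀ (K : Type) [Field K] [NumberField K] (E : WeierstrassCurve K) (W₀ : WeierstrassCurve (𝓞 K)),
    (∃ C : WeierstrassCurve.VariableChange K, C • E = W₀.map (algebraMap (𝓞 K) K)) →
    ∀ (v : HeightOneSpectrum (𝓞 K)) (W : WeierstrassCurve (𝓞 K)), W₀.Δ ∉ v.asIdeal →
      (6 : 𝓞 K) ∉ v.asIdeal → IsMinAt E v W → W.Δ ∉ v.asIdeal ∧ tr W v = tr W₀ v

/-- **N4, bounds for the traces** (from H10 and H11; `𝓞 K ⧸ v` is a field with `nm v` elements,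
`2, 3 ≠ 0` in it if `6 ∉ v`, and its discriminant is the reduction of `W.Δ`). -/
def TraceBound : Prop :=
  ∀ (K : Type) [Field K] [NumberField K] (W : WeierstrassCurve (𝓞 K))
    (v : HeightOneSpectrum (𝓞 K)), |(tr W v : ℝ)| ≤ nm v ∧
      (W.Δ ∉ v.asIdeal → (6 : 𝓞 K) ∉ v.asIdeal → |(tr W v : ℝ)| ≤ 2 * √(nm v))

/-- **N5, the theorem for one curve.**

Proof (from A9, N1-N4).  Let `W₀` be an integral model, `S = {v | W₀.Δ ∈ v ∨ 6 ∈ v}`, a finite set
(a nonzero element lies in finitely many primes).  For `h : S → ℤ × Bool` with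
`|(h v).1| ≤ nm v` let `a_h v = (h v).1`, `good_h v = ((h v).2 = true)` for `v ∈ S`, and
`a_h v = tr W₀ v`, `good_h v = True` for `v ∉ S`.  There are countably many `h` (`S` is finite).
Apply A9 with `N = nm`, `A = max 2 (max_{v ∈ S} √(nm v))` to each of them and let `Z` be the union of
the sets obtained (`dimH_iUnion`).  For a family `M` of minimal models let
`h v = (tr (M v) v, decide ((M v).Δ ∉ v))` on `S`; by N3 and N4 for all `v`
`locDen (M v) v s = eden (nm v) (a_h v) (good_h v) s`. -/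
def Core : Prop :=
  ∀ (K : Type) [Field K] [NumberField K] (E : WeierstrassCurve K), E.IsElliptic →
    ∀ θ : ℝ, 0 < θ → ∃ Z : Set ℝ, dimH Z ≤ ENNReal.ofReal (2 * θ) ∧ ∀ t ∉ Z,
      ∀ M : HeightOneSpectrum (𝓞 K) → WeierstrassCurve (𝓞 K), (∀ v, IsMinAt E v (M v)) →
        Conv M θ t

/-- **N6, one exceptional set for all curves over all number fields in `ℂ`.**

Proof (from N5).  The set of subfields `K` of `ℂ` which are number fields is countable: `K` is
generated by one algebraic number (primitive element), and there are countably many algebraic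
numbers (`Algebraic.countable`).  Every number field is countable (finite dimensional over `ℚ`), so
there are countably many Weierstrass equations over it.  Take the union of the exceptional sets of
N5 over the countable set of pairs `(K, E)`.  The second claim: take the intersection of the sets
for `θ = 1/(n+1)`; not lying in it, `t` is outside one of them. -/
def Universal : Prop :=
  (∀ θ : ℝ, 0 < θ → ∃ Z : Set ℝ, dimH Z ≤ ENNReal.ofReal (2 * θ) ∧ ∀ t ∉ Z,
    ∀ (K : Subfield ℂ) [NumberField K] (E : WeierstrassCurve K), E.IsElliptic →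
      ∀ M : HeightOneSpectrum (𝓞 K) → WeierstrassCurve (𝓞 K), (∀ v, IsMinAt E v (M v)) →
        Conv M θ t) ∧
  ∃ Z : Set ℝ, dimH Z = 0 ∧ ∀ t ∉ Z, ∃ θ : ℝ, 0 < θ ∧
    ∀ (K : Subfield ℂ) [NumberField K] (E : WeierstrassCurve K), E.IsElliptic →
      ∀ M : HeightOneSpectrum (𝓞 K) → WeierstrassCurve (𝓞 K), (∀ v, IsMinAt E v (M v)) →
        Conv M θ t

end MP7ed9c3
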