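import Pool.Agent.Lib.MP_7ed9c3_nt.SpecG

/-!
# MP_7ed9c3_nt: statements V (growth of a continuation, sharp form)

An entire function which agrees with the Euler product of an elliptic curve over a number field for
`Re s > 3/2` does not satisfy `|F s| ≤ exp(c |s| log |s| + R |s|)` for any `c < 2` and any `R` (over
the rational numbers `c = 2` is the truth).  Idea: `S(x) = ∑ b n exp(-n x)` has at `x = 0` an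
asymptotic expansion of Gevrey type: for `|x| ≤ ρ`, `Re x > 0` it differs from a bounded entire
function by `exp(-η Re x ρ^(-β))`, `β = c/(c-1) > 2`; this replaces the analytic continuation in the
proof of Polya-Carlson through Siegel's lemma if all scales are chosen as functions of the index.
-/

namespace MP7ed9c3

open NumberField IsDedekindDomain Filter Topology MeasureTheory

/-- Growth at most `exp(c r log r + O(r))`. -/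
def GrowsC (F : ℂ → ℂ) (c R : ℝ) : Prop :=
  ∀ s : ℂ, ‖F s‖ ≤ Real.exp (c * (‖s‖ * Real.log (1 + ‖s‖)) + R * (1 + ‖s‖))

/-- The bound in the left half plane obtained from Phragmen-Lindelof. -/
def LeftBound (F : ℂ → ℂ) (c R' : ℝ) : Prop :=
  ∀ s : ℂ, s.re ≤ 2 →
    ‖F s‖ ≤ Real.exp (c * ((3 - s.re) * Real.log (1 + ‖2 - s‖)) + R' * (3 - s.re))

/-- **V1, Phragmen-Lindelof.**

Proof.  This is G1 (file G1.lean, copy and adapt; G1 is the case `c = 1`) with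
`H(z) = φ(z) exp(-c (z+1) Log(z+1) + c i (π/2) z - R₁ z)`, `φ(z) = F(2 - z)`.  Real axis:
`|φ(x)| ≤ exp(c (x+2) log(3+x) + |R|(3+x)) ≤ exp(c (x+1) log(x+1) + R₁ (1+x))` for a suitable
`R₁ ≥ 0`.  Imaginary axis: `|exp(-c(1+iy) Log(1+iy))| ≤ exp(c π y/2)`, `|exp(c i(π/2) i y)| =
exp(-c π y/2)`, so `|H(iy)| ≤ B`.  In the quadrant `|H| ≤ exp(C (1+|z|)^(3/2))`.  So
`|φ(z)| ≤ B' exp(c Re((z+1) Log(z+1)) + c (π/2) y + R₁ x)`, and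
`Re((z+1) Log(z+1)) + (π/2) y ≤ (x+1) log ρ + (π/2)(x+1)` as in G1. -/
def PhragLindC : Prop :=
  ∀ (F : ℂ → ℂ) (c R B : ℝ), 1 ≤ c → c ≤ 2 → Differentiable ℂ F → GrowsC F c R →
    (∀ s : ℂ, 2 ≤ s.re → ‖F s‖ ≤ B) → ∃ R' : ℝ, 0 ≤ R' ∧ LeftBound F c R'

/-- **V2, the expansion with remainder in the right half plane.**

Proof (from G2, G2b, G3, G4).  As in G5.lean (import it): `LeftBound` gives the hypothesis `hstrip`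
of `g5_tele`, `g5_shift0` (`|F s| ≤ C exp(|Im s|/8)` for `Re s ≥ -m`; compare `g5_strip`, and
`g5_bdd` for `Re s ≥ 2`).  For real `x ∈ (0, 1)`: `∑ b n exp(-n x) = g5J F x 3` (G3, see `hJ3` in
`expansion`) `= g5J F x (1/2) = ∑_{k ≤ N} + g5J F x (1/2 - (N+1))` (`g5_shift0`, `g5_tele`), which is
the claim for real `x ∈ (0,1)`.  Both sides are analytic in `x` for `Re x > 0` (`g5_dir`; for the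
integral: on a compact subset the integrand and its derivative in `x` are bounded by an integrable
function of `τ`, because `|Γ| ≤ C exp(-π|τ|/2)` (G2), `|F|` is bounded by a power of `1 + |τ|` and
`|x^(N+1/2-iτ)| = |x|^(N+1/2) exp(τ arg x)`, `|arg x| < π/2`; e.g.
`hasDerivAt_integral_of_dominated_loc_of_deriv_le`), and the half plane is connected. -/
def RemForm : Prop :=
  ∀ (b : ℕ → ℂ) (F : ℂ → ℂ) (c R' : ℝ), 1 ≤ c → c ≤ 2 → 0 ≤ R' → b 0 = 0 →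
    Summable (fun n : ℕ => ‖b n‖ * (n : ℝ) ^ (-(2 : ℝ))) → Differentiable ℂ F → LeftBound F c R' →
    (∀ s : ℂ, 2 ≤ s.re → F s = ∑' n : ℕ, b n * (n : ℂ) ^ (-s)) →
    ∀ (N : ℕ) (x : ℂ), 0 < x.re →
      ∑' n : ℕ, b n * Complex.exp (-(n * x)) =
        ∑ k ∈ Finset.range (N + 1), F (-(k : ℂ)) * (-x) ^ k / (k.factorial : ℂ) +
        1 / (2 * Real.pi) * ∫ τ : ℝ, F (-(N : ℂ) - 1 / 2 + τ * Complex.I) *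
          Complex.Gamma (-(N : ℂ) - 1 / 2 + τ * Complex.I) *
          x ^ ((N : ℂ) + 1 / 2 - τ * Complex.I)

/-- **V3, the bound of the remainder.**

Proof (from G2).  `t = |τ|`, `θ = Re x/|x| ≤ 1`.  On the line: `3 - Re s = N + 7/2`,
`1 + |2 - s| ≤ N + 7/2 + t`, so `|F| ≤ (N+7/2+t)^(c(N+7/2)) exp(R'(N+7/2))`; by G2
`|Γ| ≤ 10 4^N exp(-π t/2)/(N+1+t)^(N+1)`, `((N+7/2+t)/(N+1+t))^(N+1) ≤ e^(5/2)`, and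
`c(N+7/2) - (N+1) ≤ P := (c-1) N + 6`; `|x^(N+1/2-iτ)| ≤ |x|^(N+1/2) exp(|arg x| t)`,
`π/2 - |arg x| ≥ sin(π/2 - |arg x|) = θ`.  So the integrand is at most
`10 4^N e^(5/2) e^(R'(N+7/2)) |x|^(N+1/2) y^P e^(-θ t)`, `y = N + 7/2 + t`.  As
`y^P e^(-θ y/2) ≤ (2P/(e θ))^P` (or any bound of this kind, e.g. `(4P/θ)^P`),
`y^P e^(-θt) ≤ (2P/(eθ))^P e^(θ(N+7/2)/2) e^(-θt/2)`, and `∫ e^(-θ|τ|/2) dτ = 4/θ`;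
`2P/e ≤ 5(N+1)`, `(5(N+1)/θ)^P = (5(N+1)/θ)^6 ((5(N+1)/θ)^(c-1))^N`. -/
def RemBound : Prop :=
  ∀ (F : ℂ → ℂ) (c R' : ℝ), 1 ≤ c → c ≤ 2 → 0 ≤ R' → LeftBound F c R' →
    ∃ C : ℝ, 1 ≤ C ∧ ∀ (N : ℕ) (x : ℂ), 0 < x.re → ‖x‖ ≤ 1 →
      ‖∫ τ : ℝ, F (-(N : ℂ) - 1 / 2 + τ * Complex.I) *
          Complex.Gamma (-(N : ℂ) - 1 / 2 + τ * Complex.I) *
          x ^ ((N : ℂ) + 1 / 2 - τ * Complex.I)‖ ≤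
        C * (C * ((N : ℝ) + 1) * ‖x‖ / x.re) ^ 8 *
          (C * ‖x‖ * (((N : ℝ) + 1) * ‖x‖ / x.re) ^ (c - 1)) ^ N

/-- **V3b, the coefficients.**

Proof.  `|F(-k)| ≤ (k+3)^(c(k+3)) exp(R'(k+3))`, `k! ≥ (k/e)^k`.  For `k ≥ 1`:
`(k+3)^(c(k+3)) ≤ (k+3)^6 k^(ck) (1+3/k)^(ck) ≤ (k+3)^6 k^(ck) e^6`, `(k+3)^6 ≤ C e^k`. -/
def CoeffBound : Prop :=
  ∀ (F : ℂ → ℂ) (c R' : ℝ), 1 ≤ c → c ≤ 2 → 0 ≤ R' → LeftBound F c R' →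
    ∃ C : ℝ, 1 ≤ C ∧ ∀ k : ℕ, 1 ≤ k →
      ‖F (-(k : ℂ))‖ / (k.factorial : ℝ) ≤ C * (C * (k : ℝ) ^ (c - 1)) ^ k

/-- The exponential series of `b` is up to `exp(-η Re x ρ^(-β))` a bounded entire function for
`|x| ≤ ρ`, `Re x > 0`. -/
def Near2 (b : ℕ → ℂ) (β C η ρ₀ : ℝ) : Prop :=
  ∀ ρ : ℝ, 0 < ρ → ρ ≤ ρ₀ → ∃ P : ℂ → ℂ, Differentiable ℂ P ∧ (∀ x : ℂ, ‖x‖ ≤ ρ → ‖P x‖ ≤ C) ∧
    ∀ x : ℂ, 0 < x.re → ‖x‖ ≤ ρ → ‖(∑' n : ℕ, b n * Complex.exp (-(n * x))) - P x‖ ≤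
      C * x.re ^ (-C) * Real.exp (-(η * x.re * ρ ^ (-β)))

/-- **V4, the Gevrey expansion.**

Proof (from V1-V3b).  `F` is bounded for `Re s ≥ 2` (`g5_bdd` in G5.lean); V1 gives `R'`.  Let
`κ = 1/(c-1)`, `β = κ + 1 = c/(c-1) > 2`, `ρ₀ = 1`.  `C₀ ≥ 1`: at least the constants of V3, V3b, at
least `|F 0|`, and `|S(x)| ≤ C₀ u^(-3)` for `0 < u = Re x ≤ 1`
(`exp(-n u) ≤ 6 (n u)^(-3)`, summability).  `η > 0` with `C₀ (2η)^(c-1) ≤ 1/e`.  Let `0 < ρ ≤ 1`,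
`N₀ = ⌊η ρ^(-κ)⌋`, `P(x) = ∑_{k ≤ N₀} F(-k)(-x)^k/k!`.  For `|x| ≤ ρ`, `1 ≤ k ≤ N₀`:
`k^(c-1) ≤ η^(c-1) ρ^(-1)` (`κ(c-1) = 1`), so the `k`-th term is at most
`C₀ (C₀ η^(c-1))^k ≤ C₀ e^(-k)`; so `|P| ≤ 2C₀`.  Let `u = Re x > 0`, `T = η u ρ^(-β) ≤ η ρ^(-κ)`
(`u ≤ ρ`).  If `T < 1`: `|S - P| ≤ C₀ u^(-3) + 2C₀ ≤ 3 e C₀ u^(-3) e^(-T)`.  If `T ≥ 1` let
`N₁ = ⌊T⌋ ≤ N₀`, `N₁ + 1 ≤ 2T`; V2, V3 with `N = N₁`: `(N₁+1)|x|/u ≤ 2 η ρ^(-β) ρ = 2 η ρ^(-κ)`, so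
`C₀ |x| ((N₁+1)|x|/u)^(c-1) ≤ C₀ ρ (2η)^(c-1) ρ^(-1) ≤ 1/e` and
`|S - P_{N₁}| ≤ C₀ (2 C₀ η ρ^(-κ))^8 e^(-N₁) ≤ C₁ ρ^(-8κ) e^(1-T)`; and
`|P - P_{N₁}| ≤ C₀ ∑_{k > N₁} e^(-k) ≤ C₀ e^(1-T)`.  `ρ^(-1) ≤ u^(-1)`.  Take `C` larger than all
constants, `8κ` and `3`. -/
def Approximation : Prop :=
  ∀ (b : ℕ → ℂ) (F : ℂ → ℂ) (c R : ℝ), 1 < c → c < 2 → b 0 = 0 →
    Summable (fun n : ℕ => ‖b n‖ * (n : ℝ) ^ (-(2 : ℝ))) → Differentiable ℂ F → GrowsC F c R →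
    (∀ s : ℂ, 2 ≤ s.re → F s = ∑' n : ℕ, b n * (n : ℂ) ^ (-s)) →
    ∃ β C η ρ₀ : ℝ, 2 < β ∧ 1 ≤ C ∧ 0 < η ∧ 0 < ρ₀ ∧ Near2 b β C η ρ₀

/-- **V5, an explicit kernel.**

Proof.  `λ = 1 - 1/n`, `q(w) = (1/n)/(1 - λ w)`, `G(w) = n^(-m) + (1+w) λ/(1-λw) ∑_{j<m} q(w)^j`.
For `|w| < exp(3/(4n))`: `|λ w| < 1` (`exp t ≤ 1/(1-t)`), so `G` is analytic there.  For
`|w| ≤ exp(1/(2n)) ≤ 1/(1 - 1/(2n))`: `|1 - λw| ≥ 1 - (1-1/n)/(1-1/(2n)) ≥ 1/(2n)`, and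
`|1-w| ≤ |1-λw| + |w|/n ≤ |1-λw| + 2/n ≤ 5 |1-λw|`; so `|q| ≤ 2` and `|q| ≤ 5/(n|1-w|)`,
`|G| ≤ 1 + 3 · 2n · 2^m`.  `1 - q = λ(1-w)/(1-λw)`, so `G(w) = n^(-m) + (1+w)/(1-w) (1 - q^m)` for
`w ≠ 1`; `G(0) = n^(-m) + (1 - (1-λ)^m) = 1`; `Re((1+w)/(1-w)) = (1-|w|²)/|1-w|²`, `|1+w| ≤ 3`,
`n^(-m) ≤ 1/8` (for `m = 0` take `G = 1`, `C = 4`: `1 ≤ C/|1-w|`).  `C = 7 · 5^m`. -/
def Kernel : Prop :=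
  ∀ m : ℕ, ∃ C : ℝ, 1 ≤ C ∧ ∀ n : ℕ, 8 ≤ n → ∃ G : ℂ → ℂ,
    DifferentiableOn ℂ G (Metric.ball 0 (Real.exp (3 / (4 * n)))) ∧ G 0 = 1 ∧
    (∀ w : ℂ, ‖w‖ ≤ Real.exp (1 / (2 * n)) → ‖G w‖ ≤ C * n) ∧
    ∀ w : ℂ, w ≠ 1 → ‖w‖ ≤ Real.exp (1 / (2 * n)) →
      (G w).re ≤ max 0 (1 - ‖w‖ ^ 2) / ‖1 - w‖ ^ 2 + C / ((n : ℝ) ^ m * ‖1 - w‖ ^ (m + 1)) + 1 / 8

/-- The kernel `E` with parameters: small away from `1`, not too large near `1`. -/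
structure IsKernel (E : ℂ → ℂ) (n j : ℕ) (A Y : ℝ) : Prop where
  diff : DifferentiableOn ℂ E (Metric.ball 0 (Real.exp (3 / (4 * n))))
  zero : E 0 = 1
  far : ∀ x : ℂ, -(1 / (2 * (n : ℝ))) ≤ x.re → x.re ≤ 1 / 2 → |x.im| ≤ Real.pi →
    (Y ≤ |x.im| ∨ Y ≤ x.re) →
    ‖E (Complex.exp (-x))‖ ≤ Real.exp (j * max 0 x.re - 3 / 4 * (j * A))
  near : ∀ x : ℂ, -(1 / (2 * (n : ℝ))) ≤ x.re → ‖E (Complex.exp (-x))‖ ≤ Real.exp (j / (4 * n))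

/-- **V5b, existence of the kernel.**

Proof (from V5).  `C = C_m`, `a = 1/(8 C)`, `A = a/n²`, `E(w) = exp(j A (G(w) - 1))`.
Near: `|E| ≤ exp(j A (C n + 1)) ≤ exp(j (a/n²) 2 C n) = exp(j/(4n))`.
Far: `w = exp(-x)`, `u = Re x`, `y = Im x`: `|1-w| ≥ Y/3`: if `Y ≤ u` then `|1-w| ≥ 1 - e^(-u) ≥ 1 - e^(-Y) ≥ Y/2`;
if `Y ≤ |y| ≤ π` then `|1-w|² = (1-e^(-u))² + 4 e^(-u) sin²(y/2) ≥ 4 e^(-1/2) (y/π)² ≥ (Y/3)²`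
(`sin t ≥ 2t/π` on `[0, π/2]`).  `1 - |w|² ≤ 2u` for `u ≥ 0`, `≤ 0` for `u ≤ 0`.  So
`Re G - 1 ≤ 18 u₊/Y² + 1/8 + 1/8 - 1`, `j A 18 u₊/Y² = 18 a j u₊/(nY)² ≤ j u₊` (`a ≤ 1/8`,
`(nY)² ≥ 4`). -/
def KernelE : Prop :=
  ∀ m : ℕ, ∃ C : ℝ, 1 ≤ C ∧ ∀ (n j : ℕ) (Y : ℝ), 8 ≤ n → 2 ≤ n * Y → Y ≤ 1 / 2 →
    C * 3 ^ (m + 1) / ((n : ℝ) ^ m * Y ^ (m + 1)) ≤ 1 / 8 →
    ∃ E : ℂ → ℂ, IsKernel E n j (1 / (8 * C * (n : ℝ) ^ 2)) Y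

/-- **V6, mean value formula.**

Proof.  With `w = exp(-(δ+iy))`, `|w| = e^(-δ) < 1`: the difference in the integrand is
`∑_{n ≥ K} a n w^n = w^K h(w)`, `h(w) = ∑' i, a (K+i) w^i` analytic on the unit disc, and
`exp(K(δ+iy)) = w^(-K)`; so the integrand is `g(w)`, `g = h E`, `g(0) = a K`, and
`(1/2π) ∫_{-π}^{π} g(e^(-δ) e^(-iy)) dy = g(0)` (Cauchy's formula for the circle). -/
def MeanValue : Prop :=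
  ∀ (a : ℕ → ℂ) (K' K : ℕ) (E : ℂ → ℂ) (δ R : ℝ), K' ≤ K → (∀ n, K' ≤ n → n < K → a n = 0) →
    0 < δ → (∀ r : ℝ, 0 ≤ r → r < 1 → Summable fun n : ℕ => ‖a n‖ * r ^ n) → 1 ≤ R →
    DifferentiableOn ℂ E (Metric.ball 0 R) → E 0 = 1 →
    a K = 1 / (2 * Real.pi) * ∫ y in (-Real.pi)..Real.pi,
      Complex.exp (K * ((δ : ℂ) + y * Complex.I)) *
        ((∑' n : ℕ, a n * Complex.exp (-(n * ((δ : ℂ) + y * Complex.I)))) -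
          ∑ n ∈ Finset.range K', a n * Complex.exp (-(n * ((δ : ℂ) + y * Complex.I)))) *
        E (Complex.exp (-((δ : ℂ) + y * Complex.I)))

/-- **V7, the basic estimate.**

Proof (from V6).  `Q(w) = ∑_{k<M} q k w^(M-1-k)`, `a n` = coefficient of `w^n` in
`Q(w) ∑ b n w^n`: `a n = ∑_{k<M, M-1-k ≤ n} q k b(n-(M-1-k))`, so `a(M-1+i) = ∑_{k<M} q k b(k+i)`,
`|a n| ≤ M D B (n+1)²`, `∑' a n e^(-nx) = Q(e^(-x)) S(x)`.  Let `K' = M-1`, `K = M-1+j ≤ 3j`,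
`δ = A/16`, `U(w) = ∑_{n<K'} a n w^n`, `|U(w)| ≤ D B M⁴ max(1,|w|)^(M-1)`, `h = 1/(2n)`; by V6
`∑ q k b(k+j) = (1/2π) ∫_{-π}^{π} Φ(δ+iy) dy`, `Φ(x) = e^(Kx) (Q(e^(-x)) S(x) - U(e^(-x))) E(e^(-x))`.
(1) `Y ≤ |y| ≤ π`: `|S| ≤ B ∑ (n+1)² e^(-nδ) ≤ 2B/(1-e^(-δ))³ ≤ 16 B δ^(-3)`, `e^(Kδ) ≤ e^(3jδ)`,
`|E| ≤ exp(jδ - 3jA/4)`; together at most `17 B D M⁴ δ^(-3) exp(4jδ - 3jA/4)
≤ 17 B D M⁴ δ^(-3) exp(-jA/2)`.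
(2) `|y| ≤ Y`: `Φ = Φ₁ + Φ₂`, `Φ₁ = e^(Kx) Q (S - P) E` analytic for `Re x > 0` (see `g5_dir` in
G5.lean), `Φ₂ = e^(Kx) (Q P - U) E` analytic near the rectangle `[-h, δ] × [-Y, Y]`.  Cauchy
(`Complex.integral_boundary_rect_eq_zero_of_differentiableOn`): the integral of `Φ₁` over
`δ + i[-Y, Y]` is at most the sum over the other three sides of `[δ, Y] × [-Y, Y]` (total length
`≤ 4Y ≤ 2`; there `|x| ≤ 2Y`), where `|Φ₁| ≤ e^(3ju) M D C δ^(-C) e^(-Wu) exp(ju - 3jA/4)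
≤ M D C δ^(-C) exp(-3jA/4)` because `W ≥ 4j`.  That of `Φ₂` is at most the sum over the other three
sides of `[-h, δ] × [-Y, Y]` (total length `≤ 2Y + 2(δ+h) ≤ 3`): on `y = ±Y`, `0 ≤ u ≤ δ`:
`|Φ₂| ≤ e^(3jδ) (M D C + D B M⁴) exp(jδ - 3jA/4)`; on `y = ±Y`, `-h ≤ u ≤ 0`:
`e^(Ku) max(1,|w|)^(M-1) = e^(ju) ≤ 1`, `|Φ₂| ≤ (M D C + D B M⁴) exp(-3jA/4)`; on `u = -h`:
`|Φ₂| ≤ e^(-jh) (M D C + D B M⁴) e^(j/(4n)) = (…) e^(-j/(4n))`, `j/(4n) ≥ jA/2`. -/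
def StepBound : Prop :=
  ∀ (b : ℕ → ℂ) (B C W A Y D : ℝ) (n j M : ℕ) (q : ℕ → ℂ) (E P : ℂ → ℂ),
    1 ≤ B → (∀ k : ℕ, ‖b k‖ ≤ B * ((k : ℝ) + 1) ^ 2) → 1 ≤ C → 8 ≤ n → 2 ≤ n * Y → Y ≤ 1 / 2 →
    0 < A → A ≤ 1 / (8 * (n : ℝ) ^ 2) → 1 ≤ M → M ≤ 2 * j → 4 * (j : ℝ) ≤ W →
    (∀ i < M, ‖q i‖ ≤ D) → (∀ i < j, ∑ k ∈ Finset.range M, q k * b (k + i) = 0) →
    IsKernel E n j A Y → Differentiable ℂ P → (∀ x : ℂ, ‖x‖ ≤ 2 * Y → ‖P x‖ ≤ C) →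
    (∀ x : ℂ, 0 < x.re → ‖x‖ ≤ 2 * Y → ‖(∑' n : ℕ, b n * Complex.exp (-(n * x))) - P x‖ ≤
      C * x.re ^ (-C) * Real.exp (-(W * x.re))) →
    ‖∑ k ∈ Finset.range M, q k * b (k + j)‖ ≤
      20 * (B + C) * D * (M : ℝ) ^ 4 * (A / 16) ^ (-(C + 3)) * Real.exp (-(j * A / 2))

/-- **V8, the choice of the parameters.**

Proof.  `γ = (β-2)/(2(β+2)) ∈ (0, 1/2)`, `m ≥ 2/γ`; given `j` large let `n = ⌊j^(1/(2+γ))⌋`, so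
`n^(2+γ) ≤ j < (2n)^(2+γ)` and `n → ∞` with `j`; `Y = n^(γ-1)`.  `nY = n^γ → ∞`, `Y → 0`;
`n^m Y^(m+1) = n^(γ(m+1)-1) ≥ n`, so the fourth claim holds for large `n`;
`η (2Y)^(-β) = η 2^(-β) n^((1-γ)β) ≥ 4 (2n)^(2+γ)` for large `n` because
`(1-γ)β - (2+γ) = β - 2 - γ(β+1) > 0`; `j/(T n²) ≥ n^γ/T`, and `j + 1 ≤ (2n)^3`, so the last claim is
`T (2n)^(3T) n^T exp(-n^γ/T) < 1` for large `n`. -/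
def Params : Prop :=
  ∀ β η ρ₀ : ℝ, 2 < β → 0 < η → 0 < ρ₀ → ∃ m : ℕ, ∀ C T : ℝ, 1 ≤ C → 1 ≤ T →
    ∃ J₀ : ℕ, ∀ j : ℕ, J₀ ≤ j → ∃ (n : ℕ) (Y : ℝ), 8 ≤ n ∧ 2 ≤ n * Y ∧ Y ≤ 1 / 2 ∧ 2 * Y ≤ ρ₀ ∧
      C * 3 ^ (m + 1) / ((n : ℝ) ^ m * Y ^ (m + 1)) ≤ 1 / 8 ∧ 4 * (j : ℝ) ≤ η * (2 * Y) ^ (-β) ∧
      T * ((j : ℝ) + 1) ^ T * (n : ℝ) ^ T * Real.exp (-((j : ℝ) / (T * (n : ℝ) ^ 2))) < 1

/-- **V9, recurrence.**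

Proof (from V5b, V7, V8; compare G8.lean).  `|b n| ≤ B (n+1)²` (`g8_bound` in G8.lean; let `B ≥ 1`).
V8 gives `m`, V5b gives `C_m`.  Let `L ≥ 1`.  By Siegel's lemma
(`Int.Matrix.exists_ne_zero_int_vec_norm_le`, `L` equations, `M = 2L` unknowns, entries at most
`max 1 (B(3L+1)²)`) there is `q ≠ 0` with `|q_i| ≤ 2 L B (3L+1)² ≤ 18 B (L+1)³` and
`e_j = ∑_{k<2L} q_k b(k+j) = 0` for `j < L`.  Let `j ≥ L` and `e_i = 0` for `i < j`; V7 with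
`D = 18 B (j+1)³`, `A = 1/(8 C_m n²)`, `n, Y` from V8, `E` from V5b, `P` from `Near2` with `ρ = 2Y`,
`W = η (2Y)^(-β)`: `|e_j| ≤ 20 (B+C) 18 B (j+1)³ (2j)⁴ (128 C_m n²)^(C+3) exp(-j/(16 C_m n²))`, which
is at most `T (j+1)^T n^T exp(-j/(T n²)) < 1` with `T ≥ 7`, `T ≥ 2(C+3)`, `T ≥ 16 C_m`,
`T ≥ 20 (B+C) 18 B 16 (128 C_m)^(C+3)`, if `j ≥ L ≥ J₀`.  So the integer `e_j` is `0`; induction. -/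
def RecurrentOf2 : Prop :=
  ∀ (b : ℕ → ℤ) (β C η ρ₀ : ℝ), 2 < β → 1 ≤ C → 0 < η → 0 < ρ₀ → b 0 = 0 →
    Summable (fun n : ℕ => |(b n : ℝ)| * (n : ℝ) ^ (-(2 : ℝ))) →
    Near2 (fun n => (b n : ℂ)) β C η ρ₀ → Recurrent b

/-- **V10, the sharp growth theorem.**

Proof (from N1-N4, V4, V9, G9-G11): as G12 (file G12.lean), with V4 and V9 instead of G5 and G8; for
`c ≤ 1` replace `c` by `3/2` (`GrowsC F c R` implies `GrowsC F (3/2) R`). -/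
def Growth2 : Prop :=
  ∀ (K : Type) [Field K] [NumberField K] (E : WeierstrassCurve K), E.IsElliptic →
    ∀ M : HeightOneSpectrum (𝓞 K) → WeierstrassCurve (𝓞 K), (∀ v, IsMinAt E v (M v)) →
    ∀ F : ℂ → ℂ, Differentiable ℂ F →
      (∀ s : ℂ, 3 / 2 < s.re → F s = ∏' v : HeightOneSpectrum (𝓞 K), (locDen (M v) v s)⁻¹) →
      ∀ c R : ℝ, c < 2 →
        ∃ s : ℂ, Real.exp (c * (‖s‖ * Real.log (1 + ‖s‖)) + R * (1 + ‖s‖)) < ‖F s‖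

end MP7ed9c3
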