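import Pool.Agent.Lib.MP_7ed9c3_nt.SpecN

/-!
# MP_7ed9c3_nt: statements Z (zeros and poles on the boundary line)

For an elliptic curve over a number field of degree `n` the logarithm of the absolute value of the
Euler product at `3/2 + x + i t` can be at least `ε(t) log(1/x)` for all small `x > 0` only for few
`t`: the sum of the squares `ε(t)²` is at most `4 n²`.  So the orders of the zeros and poles on the
line `Re s = 3/2` of any continuation have sum of squares at most `4 n²`.  Proof: Hasse's bound and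
Bessel's inequality for the vectors `(p^(it))_p` with weights `p^(-1-x)`, which are almost orthogonal
because the Riemann zeta function has no zeros on `Re s = 1`.
-/

namespace MP7ed9c3

open NumberField IsDedekindDomain Filter Topology

/-- `∑_p p^(-1-x) cos(τ log p)`. -/
noncomputable def primeCos (x τ : ℝ) : ℝ :=
  ∑' p : Nat.Primes, (p : ℝ) ^ (-(1 + x)) * Real.cos (τ * Real.log p)

/-- **Z1, sums over primes.**

Proof.  For `Re s > 1`: `ζ(s) = exp(∑' p, -log(1 - p^(-s)))` (`riemannZeta_eulerProduct_exp_log`), so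
`log|ζ(s)| = ∑' p, Re(-log(1 - p^(-s)))`; `|-log(1-z) - z| ≤ |z|²` for `|z| ≤ 1/2`
(`Complex.norm_log_one_sub_inv_sub_self_le` or `Complex.norm_log_one_add_sub_self_le`), and
`∑ |p^(-s)|² ≤ ∑ p^(-2)`.  `Re p^(-s) = p^(-1-x) cos(τ log p)` for `s = 1 + x + iτ`.  So
`|primeCos x τ - log|ζ(1+x+iτ)|| ≤ C` for `x > 0`.  If `τ ≠ 0`, `x ↦ log|ζ(1+x+iτ)|` is continuous on
`[0, 1]` (`riemannZeta_ne_zero_of_one_le_re`, `differentiableAt_riemannZeta`), so it is bounded.  If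
`τ = 0`: `x ζ(1+x) → 1` as `x → 0` (`riemannZeta_residue_one`) and `x ζ(1+x)` is continuous and nonzero
on `(0, 1]`, so `log|ζ(1+x)| = log(1/x) + O(1)`. -/
def ZetaCos : Prop :=
  (∃ C : ℝ, ∀ x : ℝ, 0 < x → x ≤ 1 → primeCos x 0 ≤ Real.log (1 / x) + C) ∧
    ∀ τ : ℝ, τ ≠ 0 → ∃ C : ℝ, ∀ x : ℝ, 0 < x → x ≤ 1 → |primeCos x τ| ≤ C

/-- **Z2, the logarithm of the absolute value of the Euler product.**

Proof (from A6, A7).  As in A9, B5 (files A9.lean, B5.lean): for `s = 3/2 + x + i t`: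
`‖-log(eden_i s) - a_i N_i^(-s)‖ ≤ C₁/N_i²` (A6), summable (A7, `a9_summable`); `a_i N_i^(-s)` is
summable (`|a_i N_i^(-s)| ≤ A N_i^(-1-x)`, A7), so `∏' eden_i⁻¹ = exp(∑' i, -log(eden_i s))`, and
`log ‖exp w‖ = Re w`, `Re(a_i N_i^(-s)) = a_i N_i^(-(3/2+x)) cos(t log N_i)`.
`C' = C₁ ∑ 1/N_i²`. -/
def EulerCos : Prop :=
  ∀ (ι : Type) (N : ι → ℕ) (a : ι → ℤ) (good : ι → Prop) [∀ i, Decidable (good i)] (C A : ℝ),
    Sparse N C → (∀ i, |(a i : ℝ)| ≤ N i) → (∀ i, |(a i : ℝ)| ≤ A * √(N i)) →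
    ∃ C' : ℝ, ∀ x t : ℝ, 0 < x → x ≤ 1 →
      |Real.log ‖∏' i, (eden (N i) (a i) (good i) (3 / 2 + x + t * Complex.I))⁻¹‖ -
        ∑' i, (a i : ℝ) * (N i : ℝ) ^ (-(3 / 2 + x)) * Real.cos (t * Real.log (N i))| ≤ C'

/-- **Z3, primes of degree one and the others.**

Proof.  See N1.lean: `v` lies over a prime number `p` (`exists_prime`), `nm v = p^f`, `f ≥ 1`, and over
every `p` there are at most `n = [K : ℚ]` primes (`mem_over`, as in `countPrimes`).  If `nm v` is not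
prime then `f ≥ 2` and `1/nm v ≤ p^(-2)`; the sum is at most `n ∑ p^(-2)`. -/
def DegreeOne : Prop :=
  ∀ (K : Type) [Field K] [NumberField K],
    (Summable fun v : {v : HeightOneSpectrum (𝓞 K) // ¬ (nm v).Prime} => 1 / (nm v.1 : ℝ)) ∧
    ∀ p : ℕ, p.Prime → {v : HeightOneSpectrum (𝓞 K) | nm v = p}.Finite ∧
      {v : HeightOneSpectrum (𝓞 K) | nm v = p}.ncard ≤ Module.finrank ℚ K

/-- **Z4, Bessel's inequality.**

Proof (from Z1).  Let `S_t(x) = ∑' p, β_p p^(-1-x) cos(t log p)` (absolutely convergent, `β` is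
bounded), `Λ = log(1/x)`.  For small `x` let `c_t = ± ε_t` with the sign of `g t x`, so
`c_t g t x ≥ ε_t² Λ` and `c_t S_t(x) ≥ ε_t² Λ - ε_t C_t`.  For every `p`:
`(β_p - ∑_t c_t cos(t log p))² + (∑_t c_t sin(t log p))² ≥ 0`, i.e.
`β_p² - 2 β_p ∑_t c_t cos(t log p) + ∑_{t,t'} c_t c_{t'} cos((t-t') log p) ≥ 0`.  Multiply by `p^(-1-x)`
and sum: `∑ β_p² p^(-1-x) - 2 ∑_t c_t S_t(x) + ∑_{t,t'} c_t c_{t'} primeCos x (t-t') ≥ 0`.  The first
term is at most `D² (Λ + C) + ∑_{p ∈ S} β_p²`, the last one at most `∑ ε_t² (Λ + C) + C''` (Z1).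
So `(∑ ε_t²) Λ ≤ D² Λ + C'''` for all small `x`; let `x → 0`. -/
def Bessel : Prop :=
  ∀ (β : Nat.Primes → ℝ) (D : ℝ) (S : Finset Nat.Primes) (T : Finset ℝ) (ε : ℝ → ℝ)
    (g : ℝ → ℝ → ℝ), (∀ p ∉ S, |β p| ≤ D) →
    (∀ t ∈ T, ∃ C : ℝ, ∀ x : ℝ, 0 < x → x ≤ 1 →
      |g t x - ∑' p : Nat.Primes, β p * (p : ℝ) ^ (-(1 + x)) * Real.cos (t * Real.log p)| ≤ C) →
    (∀ t ∈ T, 0 ≤ ε t ∧ ∀ᶠ x : ℝ in 𝓝[>] 0, ε t * Real.log (1 / x) ≤ |g t x|) →
    ∑ t ∈ T, ε t ^ 2 ≤ D ^ 2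

/-- **Z5, few exceptional points.**

Proof (from N1-N4, Z2, Z3, Z4).  As in N5/B6 (`B6.trace_const`): `Sparse nm C`, `|tr (M v) v| ≤ nm v`,
`|tr (M v) v| ≤ A √(nm v)`, and `|tr (M v) v| ≤ 2 √(nm v)` outside a finite set of `v` (N3, N4).  Let
`β_p = p^(-1/2) ∑_{nm v = p} tr (M v) v`; by Z3 `|β_p| ≤ 2n`, `n = [K : ℚ]`, outside the finite set
`S` of the primes `nm v` with `v` exceptional.  With `N = nm`, `a v = tr (M v) v` the sum in Z2 splits
into the `v` with `nm v` prime, which by regrouping is `∑' p, β_p p^(-1-x) cos(t log p)`, and the others,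
which contribute at most `∑ A/nm v < ∞` (Z3).  So Z4 applies with `D = 2n`,
`g t x = log ‖∏' …‖`. -/
def FewPoints : Prop :=
  ∀ (K : Type) [Field K] [NumberField K] (E : WeierstrassCurve K), E.IsElliptic →
    ∀ M : HeightOneSpectrum (𝓞 K) → WeierstrassCurve (𝓞 K), (∀ v, IsMinAt E v (M v)) →
    ∀ (T : Finset ℝ) (ε : ℝ → ℝ),
      (∀ t ∈ T, 0 ≤ ε t ∧ ∀ᶠ x : ℝ in 𝓝[>] 0, ε t * Real.log (1 / x) ≤
        |Real.log ‖∏' v : HeightOneSpectrum (𝓞 K),
          (locDen (M v) v (3 / 2 + x + t * Complex.I))⁻¹‖|) →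
      ∑ t ∈ T, ε t ^ 2 ≤ 4 * (Module.finrank ℚ K : ℝ) ^ 2

/-- **Z6, orders of zeros and poles.**

Proof (from Z5).  Let `s_t = 3/2 + i t`, `m_t` the order of `F` at `s_t`.  `m_t ≠ ⊤`, because `F` has
no zeros for `Re s > 3/2` near `s_t` (the Euler product is not zero: it is the exponential of a number,
`EulerLog`/`EulerCos`; or: if `F = 0` near `s_t` to the right, then the logarithm in Z5 is `0`, which
would make the order `⊤`, where `untop₀` is `0`; so this case is harmless: take `ε_t = 0`).  Otherwise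
`F(s) = (s - s_t)^(m_t) g(s)` with `g` analytic and nonzero at `s_t`
(`meromorphicOrderAt_eq_int_iff`), so `log|F(s_t + x)| = m_t log x + O(1)` as `x → 0+`, and for
`0 < δ < 1`, `ε_t = max 0 (|m_t| - δ)`: eventually `ε_t log(1/x) ≤ |log|F(s_t+x)||`.  Z5 and `δ → 0`. -/
def BoundaryOrders : Prop :=
  ∀ (K : Type) [Field K] [NumberField K] (E : WeierstrassCurve K), E.IsElliptic →
    ∀ M : HeightOneSpectrum (𝓞 K) → WeierstrassCurve (𝓞 K), (∀ v, IsMinAt E v (M v)) →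
    ∀ (T : Finset ℝ) (F : ℂ → ℂ), (∀ t ∈ T, MeromorphicAt F (3 / 2 + t * Complex.I)) →
      (∀ s : ℂ, 3 / 2 < s.re → F s = ∏' v : HeightOneSpectrum (𝓞 K), (locDen (M v) v s)⁻¹) →
      ∑ t ∈ T, ((meromorphicOrderAt F (3 / 2 + t * Complex.I)).untop₀ : ℝ) ^ 2 ≤
        4 * (Module.finrank ℚ K : ℝ) ^ 2

end MP7ed9c3
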