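import Pool.Agent.Lib.MP_7ed9c3_nt.SpecV
import Pool.Agent.Lib.MP_7ed9c3_nt.G12

/-!
# MP_7ed9c3_nt, V10: the sharp growth theorem
-/

namespace MP7ed9c3

open NumberField IsDedekindDomain Filter Topology MeasureTheory

namespace V10

/-- `GrowsC` is monotone in `c`. -/
theorem growsC_mono {F : ℂ → ℂ} {c c' R : ℝ} (h : c ≤ c') (hF : GrowsC F c R) :
    GrowsC F c' R := by
  intro s
  refine (hF s).trans (Real.exp_le_exp.2 ?_)
  have h1 : 0 ≤ ‖s‖ * Real.log (1 + ‖s‖) :=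
    mul_nonneg (norm_nonneg _) (Real.log_nonneg (by linarith [norm_nonneg s]))
  nlinarith

end V10

open Classical PowerSeries in
/-- **V10, the sharp growth theorem.** -/
theorem growth2 (n1 : CountPrimes) (n2 : ExistsModel) (n3 : GoodData) (n4 : TraceBound)
    (v4 : Approximation) (v9 : RecurrentOf2) (g9 : BoundedOf) (g10 : Coeffs) (g11 : Unbounded) :
    Growth2 := by
  intro K _ _ E hE M hM F hF hFeq c₀ R hc₀
  by_contra hcon
  have hgrow₀ : GrowsC F c₀ R := by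
    intro s
    by_contra h
    exact hcon ⟨s, not_le.mp h⟩
  obtain ⟨c, hc1, hc2, hgrow⟩ : ∃ c : ℝ, 1 < c ∧ c < 2 ∧ GrowsC F c R := by
    rcases le_or_gt c₀ (3 / 2) with h | h
    · exact ⟨3 / 2, by norm_num, by norm_num, V10.growsC_mono h hgrow₀⟩
    · exact ⟨c₀, by linarith, hc₀, hgrow₀⟩
  obtain ⟨W₀, hΔ, hW₀⟩ := n2 K E hE
  obtain ⟨C, hC⟩ := n1 K
  set S : Set (HeightOneSpectrum (𝓞 K)) :=
    {v | W₀.Δ ∈ v.asIdeal ∨ (6 : 𝓞 K) ∈ v.asIdeal} with hSdef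
  have h6 : (6 : 𝓞 K) ≠ 0 := by norm_num
  have hSfin : S.Finite := (N5.finite_mem hΔ).union (N5.finite_mem h6)
  set A : ℝ := 2 + ∑ v ∈ hSfin.toFinset, √(nm v) with hA
  have hA2 : 2 ≤ A := by
    rw [hA]
    have : 0 ≤ ∑ v ∈ hSfin.toFinset, √(nm v : ℝ) :=
      Finset.sum_nonneg fun v _ => Real.sqrt_nonneg _
    linarith
  have hgood : ∀ v, v ∉ S → (M v).Δ ∉ v.asIdeal ∧ tr (M v) v = tr W₀ v := by
    intro v hv
    have hv1 : W₀.Δ ∉ v.asIdeal := fun h => hv (Or.inl h)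
    have hv2 : (6 : 𝓞 K) ∉ v.asIdeal := fun h => hv (Or.inr h)
    exact n3 K E W₀ hW₀ v (M v) hv1 hv2 (hM v)
  have h1 : ∀ v, |(tr (M v) v : ℝ)| ≤ nm v := fun v => (n4 K (M v) v).1
  have h2 : ∀ v, |(tr (M v) v : ℝ)| ≤ A * √(nm v) := by
    intro v
    by_cases hv : v ∈ S
    · have e1 : √(nm v : ℝ) ≤ A := by
        rw [hA]
        have : √(nm v : ℝ) ≤ ∑ v ∈ hSfin.toFinset, √(nm v : ℝ) :=
          Finset.single_le_sum (f := fun v => √(nm v : ℝ))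
            (fun v _ => Real.sqrt_nonneg _) (hSfin.mem_toFinset.mpr hv)
        linarith
      have e2 : (nm v : ℝ) = √(nm v : ℝ) * √(nm v : ℝ) :=
        (Real.mul_self_sqrt (Nat.cast_nonneg _)).symm
      calc |(tr (M v) v : ℝ)| ≤ nm v := h1 v
        _ = √(nm v : ℝ) * √(nm v : ℝ) := e2
        _ ≤ A * √(nm v) := mul_le_mul_of_nonneg_right e1 (Real.sqrt_nonneg _)
    · have hv1 : W₀.Δ ∉ v.asIdeal := fun h => hv (Or.inl h)
      have hv2 : (6 : 𝓞 K) ∉ v.asIdeal := fun h => hv (Or.inr h)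
      rw [(hgood v hv).2]
      exact le_trans ((n4 K W₀ v).2 hv1 hv2)
        (mul_le_mul_of_nonneg_right hA2 (Real.sqrt_nonneg _))
  obtain ⟨b, hb0, hbs, hbeq, hbp⟩ := g10 (HeightOneSpectrum (𝓞 K)) (fun v => nm v)
    (fun v => tr (M v) v) (fun v => (M v).Δ ∉ v.asIdeal) C A hC h1 h2
  have hs2 := hbs 2 (by norm_num)
  have hs74 := hbs (7 / 4) (by norm_num)
  obtain ⟨β, C', η, ρ₀, hβ, hC', hη, hρ₀, hnear⟩ := v4 (fun n => (b n : ℂ)) F c R hc1 hc2
    (by simp [hb0]) (by simpa using hs2) hF hgrow (by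
      intro s hs
      have hs' : 3 / 2 < s.re := by linarith
      rw [hFeq s hs', ← hbeq s hs']
      refine tprod_congr fun v => ?_
      rw [locDen]
      unfold eden
      by_cases h : (M v).Δ ∉ v.asIdeal
      · simp only [h, not_false_eq_true, if_true]
      · simp only [h, if_false])
  have hrec : Recurrent b := v9 b β C' η ρ₀ hβ hC' hη hρ₀ hb0 hs2 hnear
  obtain ⟨B, hB⟩ := g9 b hs74 hrec
  obtain ⟨v₀, hv₀, p, hp, hpd⟩ := G12.exists_outside hSfin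
  have hfin : {v : HeightOneSpectrum (𝓞 K) | p ∣ nm v}.Finite := by
    refine (N5.finite_mem (K := K) (x := ((p : ℕ) : 𝓞 K)) ?_).subset ?_
    · exact_mod_cast hp.ne_zero
    · intro v hv
      exact (G12.of_dvd v hp hv).2
  have hfex : ∀ v : HeightOneSpectrum (𝓞 K), ∃ f : ℕ, p ∣ nm v → 0 < f ∧ nm v = p ^ f := by
    intro v
    by_cases h : p ∣ nm v
    · obtain ⟨f, hf⟩ := (G12.of_dvd v hp h).1
      exact ⟨f, fun _ => hf⟩
    · exact ⟨0, fun h' => absurd h' h⟩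
  choose f hf using hfex
  have hprod := hbp p f hp hfin hf
  have hmem₀ : v₀ ∈ hfin.toFinset := hfin.mem_toFinset.mpr hpd
  refine g11 (HeightOneSpectrum (𝓞 K)) hfin.toFinset (fun v => nm v) f (fun v => tr (M v) v)
    (fun v => (M v).Δ ∉ v.asIdeal) (fun k => b (p ^ k)) v₀ hmem₀ (hgood v₀ hv₀).1 (hC.1 v₀)
    (hf v₀ hpd).1 ?_ ⟨B, fun k => hB (p ^ k)⟩
  rw [← finprod_mem_eq_finite_toFinset_prod _ hfin]
  exact hprod

end MP7ed9c3
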